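import Pool.Agent.AM.Defs2

set_option autoImplicit false

open scoped Classical
open Finset

noncomputable section

namespace Pool.Agent.AM

variable {C : Cst} {p : Par C}




/-! ### levels -/

theorem lev_V0 {k : ℕ} (hk : k ≤ C.h + 1) (v : Fin p.n) : lev (V p k v) = k := by
  simp only [V, lev, Fin.ofNat]
  exact Nat.mod_eq_of_lt (by omega)

theorem V_inj0 {k k' : ℕ} (hk : k ≤ C.h + 1) (hk' : k' ≤ C.h + 1) {v v' : Fin p.n} :
    V p k v = V p k' v' ↔ k = k' ∧ v = v' := by
  constructor
  · intro h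
    have h1 : k = k' := by rw [← lev_V0 hk v, ← lev_V0 hk' v', h]
    subst h1
    refine ⟨rfl, ?_⟩
    simp only [V, Pt.fr.injEq] at h
    exact h.2
  · rintro ⟨rfl, rfl⟩
    rfl

theorem V_ne_ce {k : ℕ} {v : Fin p.n} {c : Cell p} {e : CI p c.j} : V p k v ≠ Pt.ce c e := by
  intro h
  simp [V] at h

theorem Row.tlev_le (r : Row p) : r.tlev ≤ C.h + 1 := by
  cases r with
  | fu k v => simp only [Row.tlev]; omega
  | fd k v => simp only [Row.tlev]; omega
  | ce c g s =>
    simp only [Row.tlev]
    have := c.k.isLt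
    split_ifs <;> omega

theorem Row.olev_le (r : Row p) : r.olev ≤ C.h + 1 := by
  cases r with
  | fu k v => simp only [Row.olev]; omega
  | fd k v => simp only [Row.olev]; omega
  | ce c g s =>
    simp only [Row.olev]
    have := c.k.isLt
    omega

theorem Row.tlev_up (r : Row p) (h : r.up = true) : r.tlev = r.olev + 1 := by
  cases r with
  | fu k v => simp [Row.tlev, Row.olev]
  | fd k v => simp [Row.up] at h
  | ce c g s =>
    simp only [Row.up] at h
    simp [Row.tlev, Row.olev, h]

theorem Row.tlev_dn (r : Row p) (h : r.up = false) : r.olev = r.tlev + 1 := by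
  cases r with
  | fu k v => simp [Row.up] at h
  | fd k v => simp [Row.tlev, Row.olev]
  | ce c g s =>
    simp only [Row.up] at h
    simp [Row.tlev, Row.olev, h]

theorem Row.lev_own {r : Row p} {x : Pt p} (h : r.own x) : lev x = r.olev := by
  cases r with
  | fu k v =>
    simp only [Row.own] at h
    rw [h, lev_V0 (by omega)]
    rfl
  | fd k v =>
    simp only [Row.own] at h
    rw [h, lev_V0 (by omega)]
    rfl
  | ce c g s =>
    obtain ⟨l, rfl⟩ := h
    rfl

theorem Row.lev_tgt (r : Row p) (v : Fin p.n) : lev (V p r.tlev v) = r.tlev := lev_V0 r.tlev_le v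

/-! ### order in a cell -/

theorem GLt.up_left {T : ℕ} {s s' : Srt} {l l' : Fin T} (h : GLt s l s' l') : s.up = false := by
  cases s <;> cases s' <;> simp_all [GLt, Srt.up]

theorem GLt.up_right {T : ℕ} {s s' : Srt} {l l' : Fin T} (h : GLt s l s' l') : s'.up = true := by
  cases s <;> cases s' <;> simp_all [GLt, Srt.up]

theorem CLt.trans {K T : ℕ} {a b c : Fin K × Srt × Fin T} (h1 : CLt a b) (h2 : CLt b c) : CLt a c := by
  rcases h1 with h1 | ⟨h1, g1⟩ <;> rcases h2 with h2 | ⟨h2, g2⟩
  · exact Or.inl (h1.trans h2)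
  · exact Or.inl (h2 ▸ h1)
  · exact Or.inl (h1 ▸ h2)
  · have := g1.up_right
    rw [g2.up_left] at this
    cases this

theorem CLt.irrefl {K T : ℕ} {a : Fin K × Srt × Fin T} : ¬ CLt a a := by
  rintro (h | ⟨_, g⟩)
  · exact lt_irrefl _ h
  · have := g.up_right
    rw [g.up_left] at this
    cases this

theorem CLt.asymm {K T : ℕ} {a b : Fin K × Srt × Fin T} (h1 : CLt a b) (h2 : CLt b a) : False :=
  CLt.irrefl (h1.trans h2)

/-! ### steps -/

theorem Step.lev_le {ω : Om p} {R : Set (Row p)} {x y : Pt p} (h : Step ω R x y) : lev x ≤ lev y := by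
  cases h with
  | up r hr hu x hx i =>
    rw [Row.lev_own hx, Row.lev_tgt, Row.tlev_up r hu]; omega
  | dn r hr hu x hx i =>
    rw [Row.lev_own hx, Row.lev_tgt, Row.tlev_dn r hu]; omega
  | cell c a b hab => exact le_refl _

/-- a step either goes up one level or stays in one cell -/
theorem Step.lev_or {ω : Om p} {R : Set (Row p)} {x y : Pt p} (h : Step ω R x y) :
    lev y = lev x + 1 ∨ ∃ (c : Cell p) (a b : CI p c.j), x = .ce c a ∧ y = .ce c b ∧ CLt a b := by
  cases h with
  | up r hr hu x hx i =>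
    left
    rw [Row.lev_own hx, Row.lev_tgt, Row.tlev_up r hu]
  | dn r hr hu x hx i =>
    left
    rw [Row.lev_own hx, Row.lev_tgt, Row.tlev_dn r hu]
  | cell c a b hab => exact Or.inr ⟨c, a, b, rfl, rfl, hab⟩

theorem Step.mono {ω : Om p} {R R' : Set (Row p)} (hR : R ⊆ R') {x y : Pt p} (h : Step ω R' x y) :
    Step ω R x y := by
  cases h with
  | up r hr hu _ hx i => exact Step.up r (fun h => hr (hR h)) hu _ hx i
  | dn r hr hu _ hx i => exact Step.dn r (fun h => hr (hR h)) hu _ hx i
  | cell c a b hab => exact Step.cell c a b hab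

theorem Step.congr {ω ω' : Om p} {R : Set (Row p)} (hω : ∀ r, r ∉ R → ω r = ω' r) {x y : Pt p}
    (h : Step ω R x y) : Step ω' R x y := by
  cases h with
  | up r hr hu _ hx i => rw [hω r hr]; exact Step.up r hr hu _ hx i
  | dn r hr hu _ hx i => rw [hω r hr]; exact Step.dn r hr hu _ hx i
  | cell c a b hab => exact Step.cell c a b hab

theorem LeA.refl {ω : Om p} {R : Set (Row p)} (x : Pt p) : LeA ω R x x := Relation.ReflTransGen.refl

theorem LeA.trans {ω : Om p} {R : Set (Row p)} {x y z : Pt p} (h1 : LeA ω R x y) (h2 : LeA ω R y z) :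
    LeA ω R x z := Relation.ReflTransGen.trans h1 h2

theorem LeA.of_step {ω : Om p} {R : Set (Row p)} {x y : Pt p} (h : Step ω R x y) : LeA ω R x y :=
  Relation.ReflTransGen.single h

theorem LeA.mono {ω : Om p} {R R' : Set (Row p)} (hR : R ⊆ R') {x y : Pt p} (h : LeA ω R' x y) :
    LeA ω R x y := by
  unfold LeA at h ⊢
  have h0 : Step ω R' ≤ Step ω R := fun _ _ hs => Step.mono hR hs
  exact Relation.ReflTransGen.mono h0 _ _ h

/-- the order avoiding the rows in `R` does not depend on the rows in `R` -/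
theorem LeA_congr {ω ω' : Om p} {R : Set (Row p)} (hω : ∀ r, r ∉ R → ω r = ω' r) (x y : Pt p) :
    LeA ω R x y ↔ LeA ω' R x y := by
  unfold LeA
  have h1 : Step ω R ≤ Step ω' R := fun _ _ hs => Step.congr hω hs
  have h2 : Step ω' R ≤ Step ω R := fun _ _ hs => Step.congr (fun r hr => (hω r hr).symm) hs
  exact ⟨Relation.ReflTransGen.mono h1 _ _, Relation.ReflTransGen.mono h2 _ _⟩

theorem LeA.le {ω : Om p} {R : Set (Row p)} {x y : Pt p} (h : LeA ω R x y) : Le ω x y :=
  LeA.mono (Set.empty_subset R) h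

theorem LeA.lev_le {ω : Om p} {R : Set (Row p)} {x y : Pt p} (h : LeA ω R x y) : lev x ≤ lev y := by
  unfold LeA at h
  induction h with
  | refl => exact le_refl _
  | tail _ hs ih => exact ih.trans hs.lev_le

theorem LeA.same {ω : Om p} {R : Set (Row p)} {x y : Pt p} (h : LeA ω R x y) (hl : lev x = lev y) :
    x = y ∨ ∃ (c : Cell p) (a b : CI p c.j), x = .ce c a ∧ y = .ce c b ∧ CLt a b := by
  unfold LeA at h
  induction h with
  | refl => exact Or.inl rfl
  | @tail y z hxy hs ih =>
    have h1 : lev x ≤ lev y := LeA.lev_le hxy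
    have h2 := hs.lev_le
    have h3 : lev x = lev y := by omega
    rcases hs.lev_or with h4 | ⟨c, a, b, rfl, rfl, hab⟩
    · omega
    · rcases ih h3 with rfl | ⟨c', a', b', rfl, h5, hab'⟩
      · exact Or.inr ⟨c, a, b, rfl, rfl, hab⟩
      · cases h5
        exact Or.inr ⟨c, a', b, rfl, rfl, hab'.trans hab⟩

theorem LeA.antisymm {ω : Om p} {R : Set (Row p)} {x y : Pt p} (h1 : LeA ω R x y) (h2 : LeA ω R y x) :
    x = y := by
  have h3 : lev x = lev y := le_antisymm h1.lev_le h2.lev_le
  rcases h1.same h3 with h | ⟨c, a, b, rfl, rfl, hab⟩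
  · exact h
  · rcases h2.same h3.symm with h | ⟨c', a', b', h4, h5, hab'⟩
    · exact h.symm
    · cases h4
      cases h5
      exact (hab.asymm hab').elim

/-! ### picks -/

theorem Le_pick_up {ω : Om p} (r : Row p) (hu : r.up = true) {x : Pt p} (hx : r.own x) (i : Fin p.d) :
    Le ω x (V p r.tlev (ω r i)) := LeA.of_step (Step.up r (by simp) hu x hx i)

theorem Le_pick_dn {ω : Om p} (r : Row p) (hu : r.up = false) {x : Pt p} (hx : r.own x) (i : Fin p.d) :
    Le ω (V p r.tlev (ω r i)) x := LeA.of_step (Step.dn r (by simp) hu x hx i)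

theorem Le_fu (ω : Om p) {k : ℕ} (hk : k ≤ C.h) (v : Fin p.n) (i : Fin p.d) :
    Le ω (V p k v) (V p (k + 1) (ω (.fu ⟨k, by omega⟩ v) i)) := by
  exact Le_pick_up (.fu ⟨k, by omega⟩ v) rfl rfl i

theorem Le_fd (ω : Om p) {k : ℕ} (hk : k ≤ C.h) (v : Fin p.n) (i : Fin p.d) :
    Le ω (V p k (ω (.fd ⟨k, by omega⟩ v) i)) (V p (k + 1) v) := by
  exact Le_pick_dn (.fd ⟨k, by omega⟩ v) rfl rfl i

theorem Le_ce_up (ω : Om p) (c : Cell p) (g : Fin (C.K c.j)) (s : Srt) (hs : s.up = true) (l : Fin (p.T c.j))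
    (i : Fin p.d) : Le ω (.ce c (g, s, l)) (V p (c.k.val + 2) (ω (.ce c g s) i)) := by
  have h := Le_pick_up (ω := ω) (.ce c g s) (by simpa [Row.up] using hs) (x := .ce c (g, s, l)) ⟨l, rfl⟩ i
  simpa [Row.tlev, hs] using h

theorem Le_ce_dn (ω : Om p) (c : Cell p) (g : Fin (C.K c.j)) (s : Srt) (hs : s.up = false) (l : Fin (p.T c.j))
    (i : Fin p.d) : Le ω (V p c.k.val (ω (.ce c g s) i)) (.ce c (g, s, l)) := by
  have h := Le_pick_dn (ω := ω) (.ce c g s) (by simpa [Row.up] using hs) (x := .ce c (g, s, l)) ⟨l, rfl⟩ i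
  simpa [Row.tlev, hs] using h

/-! ### removing rows -/

/-- general tool: if no step through a row of `R` lies between `x` and `y`, then `x ≤ y` without these rows -/
theorem Le.avoid {ω : Om p} {R R' : Set (Row p)} {x y : Pt p} (h : LeA ω R x y)
    (hup : ∀ r ∈ R', r.up = true → ∀ u, r.own u → ∀ i, LeA ω R x u → LeA ω R (V p r.tlev (ω r i)) y → False)
    (hdn : ∀ r ∈ R', r.up = false → ∀ u, r.own u → ∀ i, LeA ω R x (V p r.tlev (ω r i)) → LeA ω R u y → False) :
    LeA ω (R ∪ R') x y := by
  have key : ∀ w, Relation.ReflTransGen (Step ω R) x w → LeA ω R w y → LeA ω (R ∪ R') x w := by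
    intro w hw
    induction hw with
    | refl => intro _; exact LeA.refl x
    | @tail w' w hw' hs ih =>
      intro hwy
      have h1 : LeA ω R w' y := (LeA.of_step hs).trans hwy
      refine (ih h1).trans (LeA.of_step ?_)
      cases hs with
      | up r hr hu _ hx i =>
        refine Step.up r ?_ hu _ hx i
        rintro (h2 | h2)
        · exact hr h2
        · exact hup r h2 hu _ hx i hw' hwy
      | dn r hr hu _ hx i =>
        refine Step.dn r ?_ hu _ hx i
        rintro (h2 | h2)
        · exact hr h2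
        · exact hdn r h2 hu _ hx i hw' hwy
      | cell c a b hab => exact Step.cell c a b hab
  exact key y h (LeA.refl y)

/-- the rows whose steps cross between the levels `k` and `k+1` -/
theorem Le.avoid_lev {ω : Om p} {R' : Set (Row p)} {x y : Pt p} (h : Le ω x y)
    (hR : ∀ r ∈ R', r.up = true → r.olev < lev x ∨ lev y < r.olev + 1)
    (hR' : ∀ r ∈ R', r.up = false → r.tlev < lev x ∨ lev y < r.tlev + 1) : LeA ω R' x y := by
  have := Le.avoid (R' := R') h ?_ ?_
  · simpa using this
  · intro r hr hu u hx i h1 h2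
    have h3 := h1.lev_le
    have h4 := h2.lev_le
    rw [Row.lev_own hx] at h3
    rw [Row.lev_tgt, Row.tlev_up r hu] at h4
    rcases hR r hr hu with h5 | h5 <;> omega
  · intro r hr hu u hx i h1 h2
    have h3 := h1.lev_le
    have h4 := h2.lev_le
    rw [Row.lev_own hx, Row.tlev_dn r hu] at h4
    rw [Row.lev_tgt] at h3
    rcases hR' r hr hu with h5 | h5 <;> omega

/-- (i1), (i2): comparabilities with `k+1 ≤ lev x` or `lev y ≤ k` do not use the rows `fu k v` -/
theorem Le_iff_LeA_fu {ω : Om p} {k : Fin (C.h + 1)} {x y : Pt p} (h : k.val + 1 ≤ lev x ∨ lev y ≤ k.val) :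
    Le ω x y ↔ LeA ω {r | ∃ v, r = Row.fu k v} x y := by
  constructor
  · intro hle
    apply Le.avoid_lev hle
    · rintro r ⟨v, rfl⟩ _
      simp only [Row.olev]
      omega
    · rintro r ⟨v, rfl⟩ hu
      simp [Row.up] at hu
  · exact LeA.le

/-- dual: comparabilities with `k+1 ≤ lev x` or `lev y ≤ k` do not use the rows `fd k v` -/
theorem Le_iff_LeA_fd {ω : Om p} {k : Fin (C.h + 1)} {x y : Pt p} (h : k.val + 1 ≤ lev x ∨ lev y ≤ k.val) :
    Le ω x y ↔ LeA ω {r | ∃ v, r = Row.fd k v} x y := by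
  constructor
  · intro hle
    apply Le.avoid_lev hle
    · rintro r ⟨v, rfl⟩ hu
      simp [Row.up] at hu
    · rintro r ⟨v, rfl⟩ _
      simp only [Row.tlev]
      omega
  · exact LeA.le

/-- if `z` is not below (any owner of) the up-row `r`, then `z ≤ y` does not use `r` -/
theorem Le_iff_LeA_of_not_le_own {ω : Om p} {r : Row p} (hu : r.up = true) {z y : Pt p}
    (h : ∀ u, r.own u → ¬ Le ω z u) : Le ω z y ↔ LeA ω {r} z y := by
  constructor
  · intro hle
    have := Le.avoid (R' := {r}) hle ?_ ?_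
    · simpa using this
    · rintro r' rfl _ u hx i h1 _
      exact h u hx h1
    · rintro r' rfl hu' u hx i h1 _
      rw [hu] at hu'
      cases hu'
  · exact LeA.le

/-- if (no owner of) the down-row `r` is below `z`, then `y ≤ z` does not use `r` -/
theorem Le_iff_LeA_of_not_own_le {ω : Om p} {r : Row p} (hu : r.up = false) {z y : Pt p}
    (h : ∀ u, r.own u → ¬ Le ω u z) : Le ω y z ↔ LeA ω {r} y z := by
  constructor
  · intro hle
    have := Le.avoid (R' := {r}) hle ?_ ?_
    · simpa using this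
    · rintro r' rfl hu' u hx i h1 _
      rw [hu] at hu'
      cases hu'
    · rintro r' rfl _ u hx i _ h2
      exact h u hx h2
  · exact LeA.le


/-- the generated relations are orders with the basic level facts -/
theorem blkOrd_leA (ω : Om p) (R : Set (Row p)) : BlkOrd (LeA ω R) where
  refl x := LeA.refl x
  trans _ _ _ h1 h2 := LeA.trans h1 h2
  antisymm _ _ h1 h2 := LeA.antisymm h1 h2
  lev_mono _ _ h := LeA.lev_le h
  same _ _ h hl := LeA.same h hl
  cell c a b hab := LeA.of_step (Step.cell c a b hab)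

theorem blkOrd_le (ω : Om p) : BlkOrd (Le ω) := blkOrd_leA ω ∅

/-- every step goes to a level which is not lower -/
theorem step_lev {ω : Om p} {R : Set (Row p)} {x y : Pt p} (h : Step ω R x y) :
    lev x ≤ lev y := Step.lev_le h

end Pool.Agent.AM
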