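import Pool.Agent.AM.Defs2
import Pool.Agent.AM.OrdBlk

set_option autoImplicit false

open scoped Classical
open Finset

noncomputable section

namespace Pool.Agent.AM

variable {C : Cst} {p : Par C}

/-- `LeA ω R` depends only on the rows outside `R` -/
theorem leA_congr {ω ω' : Om p} {R : Set (Row p)} (h : ∀ r, r ∉ R → ω r = ω' r) (x y : Pt p) :
    LeA ω R x y ↔ LeA ω' R x y := LeA_congr h x y

theorem leA_mono {ω : Om p} {R R' : Set (Row p)} (h : R' ⊆ R) {x y : Pt p} (hxy : LeA ω R x y) :
    LeA ω R' x y := LeA.mono h hxy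

theorem le_of_leA {ω : Om p} {R : Set (Row p)} {x y : Pt p} (hxy : LeA ω R x y) : Le ω x y :=
  leA_mono (Set.empty_subset R) hxy

/-- if no path from `z` to `y` can use a row of `R`, the rows of `R` can be avoided -/
theorem leA_of_le {ω : Om p} {R : Set (Row p)} {z y : Pt p} (h : Le ω z y)
    (hR : ∀ r ∈ R, ∀ x, r.own x → ∀ i,
      (r.up = true → Le ω z x → Le ω (V p r.tlev (ω r i)) y → False) ∧
      (r.up = false → Le ω z (V p r.tlev (ω r i)) → Le ω x y → False)) : LeA ω R z y := by
  have := Le.avoid (R' := R) h (fun r hr hu x hx i => (hR r hr x hx i).1 hu)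
    (fun r hr hu x hx i => (hR r hr x hx i).2 hu)
  simpa using this

/-- one row: an up-row is useless for paths from `z` if no owner is above `z` -/
theorem leA_of_le_up {ω : Om p} {r : Row p} (hu : r.up = true) {z : Pt p}
    (hz : ∀ x, r.own x → ¬ Le ω z x) (y : Pt p) : Le ω z y ↔ LeA ω {r} z y :=
  Le_iff_LeA_of_not_le_own hu hz

/-- one row: a down-row is useless for paths to `z` if no owner is below `z` -/
theorem leA_of_le_dn {ω : Om p} {r : Row p} (hu : r.up = false) {z : Pt p}
    (hz : ∀ x, r.own x → ¬ Le ω x z) (y : Pt p) : Le ω y z ↔ LeA ω {r} y z :=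
  Le_iff_LeA_of_not_own_le hu hz

/-- rows whose owner level (for up-rows: of the source, for down-rows: of the target) is `< lev z`
or whose upper end is `> lev y` are not used by paths from `z` to `y` -/
theorem leA_of_le_lev {ω : Om p} {R : Set (Row p)} {z y : Pt p} (h : Le ω z y)
    (hR : ∀ r ∈ R, min r.olev r.tlev < lev z ∨ lev y < max r.olev r.tlev) : LeA ω R z y := by
  apply Le.avoid_lev h
  · intro r hr hu
    have h1 := Row.tlev_up r hu
    have h2 := hR r hr
    rw [h1, min_eq_left (by omega), max_eq_right (by omega)] at h2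
    exact h2
  · intro r hr hu
    have h1 := Row.tlev_dn r hu
    have h2 := hR r hr
    rw [h1, min_eq_right (by omega), max_eq_left (by omega)] at h2
    exact h2

theorem lev_own {r : Row p} {x : Pt p} (h : r.own x) : lev x = r.olev := Row.lev_own h

theorem lev_V {k : ℕ} (hk : k ≤ C.h + 1) (v : Fin p.n) : lev (V p k v) = k := lev_V0 hk v

theorem V_inj {k k' : ℕ} (hk : k ≤ C.h + 1) (hk' : k' ≤ C.h + 1) {v v' : Fin p.n}
    (h : V p k v = V p k' v') : k = k' ∧ v = v' := (V_inj0 hk hk').mp h

/-- every target level is at most `h+1`, every owner level too, and they differ by one -/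
theorem tlev_le (r : Row p) : r.tlev ≤ C.h + 1 ∧ r.olev ≤ C.h + 1 ∧
    (r.up = true → r.tlev = r.olev + 1) ∧ (r.up = false → r.olev = r.tlev + 1) :=
  ⟨Row.tlev_le r, Row.olev_le r, Row.tlev_up r, Row.tlev_dn r⟩

end Pool.Agent.AM
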