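import Pool.Agent.AM.Defs2
import Pool.Agent.AM.OrdBlk
import Pool.Agent.AM.Path

set_option autoImplicit false

open scoped Classical
open Finset

noncomputable section

namespace Pool.Agent.AM

variable {C : Cst} {p : Par C}

namespace A1D

theorem step_up (ω : Om p) (r : Row p) (hu : r.up = true) (x : Pt p) (hx : r.own x)
    (i : Fin p.d) : Le ω x (V p r.tlev (ω r i)) :=
  Relation.ReflTransGen.single (Step.up r (by simp) hu x hx i)

theorem step_dn (ω : Om p) (r : Row p) (hu : r.up = false) (x : Pt p) (hx : r.own x)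
    (i : Fin p.d) : Le ω (V p r.tlev (ω r i)) x :=
  Relation.ReflTransGen.single (Step.dn r (by simp) hu x hx i)

/-- if every pick is of kind `A` or `B` and fewer than a quarter are of kind `B`, then at least
half are of kind `A` -/
theorem half {d : ℕ} (A B : Fin d → Prop) [DecidablePred A] [DecidablePred B]
    (h : ∀ i, A i ∨ B i) (hB : 4 * (univ.filter B).card < d) : d ≤ 2 * (univ.filter A).card := by
  have h1 : (univ : Finset (Fin d)) ⊆ univ.filter A ∪ univ.filter B := by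
    intro i _
    rcases h i with h | h
    · exact mem_union_left _ (mem_filter.2 ⟨mem_univ _, h⟩)
    · exact mem_union_right _ (mem_filter.2 ⟨mem_univ _, h⟩)
  have h2 := (card_le_card h1).trans (card_union_le _ _)
  rw [card_univ, Fintype.card_fin] at h2
  omega

end A1D

/-- (A1), deterministic part -/
theorem a1d_of (q : Con) (ω : Om p) (h1 : Thin ω) (h2 : Expd q ω) : ∀ k ≤ C.h,
    ∀ S : Finset (Fin p.n), (S.card : ℝ) ≤ q.kap * p.n → 9 * (dn (Le ω) k S).card ≤ S.card := by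
  intro k hk S hS
  have hk' : k < C.h + 1 := by omega
  obtain ⟨hE, -⟩ := h2 ⟨k, hk'⟩ S hS
  refine le_trans (Nat.mul_le_mul_left 9 (card_le_card ?_)) hE
  intro x hx
  simp only [dn, mem_filter, mem_univ, true_and] at hx ⊢
  obtain ⟨z, hz, hall⟩ := hx
  refine A1D.half (fun i => ω (Row.fu ⟨k, hk'⟩ x) i ∈ S)
    (fun i => Le ω z (V p (Row.fu ⟨k, hk'⟩ x).tlev (ω (Row.fu ⟨k, hk'⟩ x) i))) ?_
    (h1.1 (.fu ⟨k, hk'⟩ x) z rfl ?_)
  · intro i
    exact hall _ (A1D.step_up ω (.fu ⟨k, hk'⟩ x) rfl (V p k x) rfl i)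
  · intro y hy
    have hy' : y = V p k x := hy
    rw [hy']
    exact hz

theorem a1u_of (q : Con) (ω : Om p) (h1 : Thin ω) (h2 : Expd q ω) : ∀ k ≤ C.h,
    ∀ S : Finset (Fin p.n), (S.card : ℝ) ≤ q.kap * p.n → 9 * (ud (Le ω) k S).card ≤ S.card := by
  intro k hk S hS
  have hk' : k < C.h + 1 := by omega
  obtain ⟨-, hE⟩ := h2 ⟨k, hk'⟩ S hS
  refine le_trans (Nat.mul_le_mul_left 9 (card_le_card ?_)) hE
  intro x hx
  simp only [ud, mem_filter, mem_univ, true_and] at hx ⊢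
  obtain ⟨z, hz, hall⟩ := hx
  refine A1D.half (fun i => ω (Row.fd ⟨k, hk'⟩ x) i ∈ S)
    (fun i => Le ω (V p (Row.fd ⟨k, hk'⟩ x).tlev (ω (Row.fd ⟨k, hk'⟩ x) i)) z) ?_
    (h1.2 (.fd ⟨k, hk'⟩ x) z rfl ?_)
  · intro i
    exact hall _ (A1D.step_dn ω (.fd ⟨k, hk'⟩ x) rfl (V p (k + 1) x) rfl i)
  · intro y hy
    have hy' : y = V p (k + 1) x := hy
    rw [hy']
    exact hz

end Pool.Agent.AM
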