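import Pool.Agent.AM.Defs2

set_option autoImplicit false

open scoped Classical
open Finset

noncomputable section

namespace Pool.Agent.AM

namespace CardP

theorem card_srt : Fintype.card Srt = 4 := rfl

theorem sum_cell {C : Cst} (p : Par C) (F : Fin C.W → ℕ) :
    ∑ c : Cell p, F c.j = ∑ j : Fin C.W, C.h * p.N j * F j := by
  have h1 : ∑ c : Cell p, F c.j
      = ∑ x : (Σ j : Fin C.W, Fin C.h × Fin (p.N j)), F x.1 :=
    Fintype.sum_equiv (cellEquiv p) _ _ (fun c => rfl)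
  rw [h1, Fintype.sum_sigma]
  refine Finset.sum_congr rfl fun j _ => ?_
  simp [Fintype.card_prod]

theorem card_pt_eq {C : Cst} (p : Par C) : Fintype.card (Pt p)
    = (C.h + 2) * p.n + ∑ j : Fin C.W, C.h * p.N j * (C.K j * (4 * p.T j)) := by
  rw [Fintype.card_congr (ptEquiv p), Fintype.card_sum, Fintype.card_sigma, Fintype.card_prod,
    Fintype.card_fin, Fintype.card_fin]
  congr 1
  have h1 : ∀ c : Cell p, Fintype.card (CI p c.j) = C.K c.j * (4 * p.T c.j) := by
    intro c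
    simp [CI, card_srt]
  rw [Finset.sum_congr rfl (fun c _ => h1 c)]
  exact sum_cell p (fun j => C.K j * (4 * p.T j))

theorem card_row_eq {C : Cst} (p : Par C) : Fintype.card (Row p)
    = ((C.h + 1) * p.n + (C.h + 1) * p.n) + ∑ j : Fin C.W, C.h * p.N j * (C.K j * 4) := by
  rw [Fintype.card_congr (rowEquiv p), Fintype.card_sum, Fintype.card_sum, Fintype.card_sigma,
    Fintype.card_prod, Fintype.card_fin, Fintype.card_fin]
  congr 1
  have h1 : ∀ c : Cell p, Fintype.card (Fin (C.K c.j) × Srt) = C.K c.j * 4 := by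
    intro c
    simp [card_srt]
  rw [Finset.sum_congr rfl (fun c _ => h1 c)]
  exact sum_cell p (fun j => C.K j * 4)

end CardP

open CardP in
/-- size of a block -/
theorem card_pt (c : PC) (q : Con) (hc : c.Ok q) : ∀ᶠ t in Filter.atTop,
    Fintype.card (Pt (c.par t)) ≤ t ^ (c.E + 1) ∧ t ^ (c.E - 1) ≤ Fintype.card (Pt (c.par t)) ∧
    Fintype.card (Row (c.par t)) ≤ t ^ (c.E + 1) := by
  have hlam : 1 ≤ c.lam := by rw [hc.lam]; norm_num
  have hE1 : c.lam ^ (c.W - 1) ≤ c.E := by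
    rw [hc.E]
    have h1 : 1 ≤ c.h + 2 := by omega
    calc c.lam ^ (c.W - 1) = 1 * (c.lam ^ (c.W - 1) * 1) := by ring
      _ ≤ 100 * (c.lam ^ (c.W - 1) * (c.h + 2)) := by
          apply Nat.mul_le_mul (by norm_num)
          exact Nat.mul_le_mul_left _ h1
  have hE0 : 1 ≤ c.E := le_trans (Nat.one_le_pow _ _ hlam) hE1
  have hj : ∀ j : Fin c.cst.W, c.lam ^ j.val ≤ c.E := by
    intro j
    refine le_trans (Nat.pow_le_pow_right hlam ?_) hE1
    have h1 : j.val < c.W := j.isLt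
    omega
  -- the constant
  obtain ⟨M, hM⟩ : ∃ M : ℕ, M = 2 * (c.cst.h + 2)
      + ∑ j : Fin c.cst.W, 4 * (c.cst.h * 2 ^ j.val * c.cst.K j) := ⟨_, rfl⟩
  filter_upwards [Filter.eventually_ge_atTop (M + 1)] with t ht
  have ht1 : 1 ≤ t := by omega
  have hpE : t ^ (c.E - 1) ≤ t ^ c.E := Nat.pow_le_pow_right ht1 (by omega)
  have hn : (c.par t).n = t ^ (c.E - 1) := rfl
  have hNT : ∀ j : Fin c.cst.W, (c.par t).N j * (c.par t).T j = 2 ^ j.val * t ^ c.E := by
    intro j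
    show 2 ^ j.val * t ^ (c.E - c.lam ^ j.val) * t ^ (c.lam ^ j.val) = 2 ^ j.val * t ^ c.E
    rw [mul_assoc, ← pow_add, Nat.sub_add_cancel (hj j)]
  have hT1 : ∀ j : Fin c.cst.W, 1 ≤ (c.par t).T j := by
    intro j
    show 1 ≤ t ^ (c.lam ^ j.val)
    exact Nat.one_le_pow _ _ ht1
  have key : ((c.cst.h + 2) * t ^ c.E + (c.cst.h + 2) * t ^ c.E)
      + ∑ j : Fin c.cst.W, 4 * (c.cst.h * 2 ^ j.val * c.cst.K j) * t ^ c.E = M * t ^ c.E := by
    rw [hM, ← Finset.sum_mul]
    ring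
  have hfin : M * t ^ c.E ≤ t ^ (c.E + 1) := by
    rw [pow_succ, mul_comm (t ^ c.E) t]
    exact Nat.mul_le_mul_right _ (by omega)
  refine ⟨?_, ?_, ?_⟩
  · rw [card_pt_eq]
    refine le_trans ?_ hfin
    rw [← key]
    refine Nat.add_le_add ?_ ?_
    · rw [hn]
      have : (c.cst.h + 2) * t ^ (c.E - 1) ≤ (c.cst.h + 2) * t ^ c.E :=
        Nat.mul_le_mul_left _ hpE
      omega
    · refine Finset.sum_le_sum fun j _ => ?_
      have e : c.cst.h * (c.par t).N j * (c.cst.K j * (4 * (c.par t).T j))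
          = 4 * (c.cst.h * c.cst.K j) * ((c.par t).N j * (c.par t).T j) := by ring
      rw [e, hNT j]
      apply le_of_eq
      ring
  · rw [card_pt_eq, hn]
    have h1 : 1 * t ^ (c.E - 1) ≤ (c.cst.h + 2) * t ^ (c.E - 1) :=
      Nat.mul_le_mul_right _ (by omega)
    omega
  · rw [card_row_eq]
    refine le_trans ?_ hfin
    rw [← key]
    refine Nat.add_le_add ?_ ?_
    · rw [hn]
      have : (c.cst.h + 1) * t ^ (c.E - 1) ≤ (c.cst.h + 2) * t ^ c.E :=
        Nat.mul_le_mul (by omega) hpE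
      omega
    · refine Finset.sum_le_sum fun j _ => ?_
      have e : c.cst.h * (c.par t).N j * (c.cst.K j * 4)
          = 4 * (c.cst.h * c.cst.K j) * ((c.par t).N j * 1) := by ring
      have e2 : (c.par t).N j * 1 ≤ (c.par t).N j * (c.par t).T j :=
        Nat.mul_le_mul_left _ (hT1 j)
      rw [e]
      calc 4 * (c.cst.h * c.cst.K j) * ((c.par t).N j * 1)
          ≤ 4 * (c.cst.h * c.cst.K j) * ((c.par t).N j * (c.par t).T j) :=
            Nat.mul_le_mul_left _ e2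
        _ = 4 * (c.cst.h * 2 ^ j.val * c.cst.K j) * t ^ c.E := by rw [hNT j]; ring

end Pool.Agent.AM
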