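import Pool.Agent.AM.Defs2

set_option autoImplicit false

/-!
# Uniform probability on finite products (toolkit by helper98, `Pr` interface by helper84)
-/

open scoped Classical
open Finset

noncomputable section

namespace Pool.Agent.AM

namespace PB

/-- uniform probability of the event `B` (no instance in the definition) -/
def pr {Ω : Type*} (B : Ω → Prop) : ℝ :=
  (Nat.card {ω // B ω} : ℝ) / (Nat.card Ω : ℝ)

section basic

variable {Ω : Type*} [Fintype Ω]

theorem pr_def (B : Ω → Prop) :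
    pr B = ((Finset.univ.filter B).card : ℝ) / (Fintype.card Ω : ℝ) := by
  unfold pr
  rw [Nat.card_eq_fintype_card, Nat.card_eq_fintype_card, Fintype.card_subtype]

theorem pr_nonneg (B : Ω → Prop) : 0 ≤ pr B := by
  rw [pr_def]
  positivity

theorem pr_le_one (B : Ω → Prop) : pr B ≤ 1 := by
  rw [pr_def]
  apply div_le_one_of_le₀
  · exact_mod_cast Finset.card_le_univ _
  · positivity

theorem pr_mono {B B' : Ω → Prop} (h : ∀ ω, B ω → B' ω) : pr B ≤ pr B' := by
  rw [pr_def, pr_def]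
  apply div_le_div_of_nonneg_right _ (Nat.cast_nonneg _)
  exact_mod_cast Finset.card_le_card (Finset.monotone_filter_right _ (fun ω _ hω => h ω hω))

theorem pr_congr {B B' : Ω → Prop} (h : ∀ ω, B ω ↔ B' ω) : pr B = pr B' :=
  le_antisymm (pr_mono fun ω => (h ω).1) (pr_mono fun ω => (h ω).2)

theorem pr_or_le (B B' : Ω → Prop) : pr (fun ω => B ω ∨ B' ω) ≤ pr B + pr B' := by
  rw [pr_def, pr_def, pr_def]
  rw [← add_div]
  apply div_le_div_of_nonneg_right _ (Nat.cast_nonneg _)
  refine le_trans (Nat.cast_le.2 (Finset.card_le_card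
    (t := (Finset.univ.filter B) ∪ (Finset.univ.filter B')) ?_)) ?_
  · intro ω h
    simpa using h
  · exact_mod_cast Finset.card_union_le _ _

theorem pr_false : pr (fun _ : Ω => False) = 0 := by
  rw [pr_def]
  simp

theorem pr_eq_zero {B : Ω → Prop} (h : ∀ ω, ¬ B ω) : pr B = 0 := by
  rw [← pr_false (Ω := Ω)]
  exact pr_congr (fun ω => ⟨fun hω => h ω hω, fun hω => hω.elim⟩)

theorem pr_true [Nonempty Ω] : pr (fun _ : Ω => True) = 1 := by
  rw [pr_def]
  have : (0 : ℝ) < Fintype.card Ω := by exact_mod_cast Fintype.card_pos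
  simp [this.ne']

theorem pr_exists_mem_le {ι : Type*} (s : Finset ι) (B : ι → Ω → Prop) :
    pr (fun ω => ∃ i ∈ s, B i ω) ≤ ∑ i ∈ s, pr (B i) := by
  induction s using Finset.induction_on with
  | empty =>
    simp only [Finset.notMem_empty, false_and, exists_false, Finset.sum_empty]
    exact pr_false.le
  | insert a s ha ih =>
    rw [Finset.sum_insert ha]
    refine le_trans (pr_mono ?_) (le_trans (pr_or_le (B a) (fun ω => ∃ i ∈ s, B i ω))
      (by linarith))
    rintro ω ⟨i, hi, hB⟩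
    rcases Finset.mem_insert.1 hi with rfl | hi
    · exact Or.inl hB
    · exact Or.inr ⟨i, hi, hB⟩

theorem pr_exists_le {ι : Type*} [Fintype ι] (B : ι → Ω → Prop) :
    pr (fun ω => ∃ i, B i ω) ≤ ∑ i, pr (B i) := by
  refine le_trans (pr_mono ?_) (pr_exists_mem_le Finset.univ B)
  rintro ω ⟨i, hi⟩
  exact ⟨i, Finset.mem_univ _, hi⟩

theorem pr_exists_mem_le_card_mul {ι : Type*} (s : Finset ι) (B : ι → Ω → Prop) (ε : ℝ)
    (h : ∀ i ∈ s, pr (B i) ≤ ε) : pr (fun ω => ∃ i ∈ s, B i ω) ≤ s.card * ε := by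
  refine (pr_exists_mem_le s B).trans ?_
  calc ∑ i ∈ s, pr (B i) ≤ ∑ _i ∈ s, ε := Finset.sum_le_sum h
    _ = s.card * ε := by simp

theorem pr_exists_le_card_mul {ι : Type*} [Fintype ι] (B : ι → Ω → Prop) (ε : ℝ)
    (h : ∀ i, pr (B i) ≤ ε) : pr (fun ω => ∃ i, B i ω) ≤ Fintype.card ι * ε := by
  refine (pr_exists_le B).trans ?_
  calc ∑ i, pr (B i) ≤ ∑ _i : ι, ε := Finset.sum_le_sum (fun i _ => h i)
    _ = Fintype.card ι * ε := by simp

theorem exists_not_of_pr_lt_one [Nonempty Ω] {B : Ω → Prop} (h : pr B < 1) : ∃ ω, ¬ B ω := by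
  by_contra hcon
  push Not at hcon
  have : pr B = 1 := by
    rw [← pr_true (Ω := Ω)]
    exact pr_congr (fun ω => ⟨fun _ => trivial, fun _ => hcon ω⟩)
  linarith

theorem pr_equiv {Ω' : Type*} [Fintype Ω'] (e : Ω ≃ Ω') (B : Ω' → Prop) :
    pr (fun ω => B (e ω)) = pr B := by
  rw [pr_def, pr_def]
  rw [Fintype.card_congr e]
  congr 2
  refine Finset.card_bij (fun ω _ => e ω) ?_ ?_ ?_
  · intro ω hω
    simpa using hω
  · intro a _ b _ h
    exact e.injective h
  · intro b hb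
    exact ⟨e.symm b, by simpa using hb, by simp⟩

/-- sum form -/
theorem pr_eq_sum (B : Ω → Prop) :
    pr B = (∑ ω, if B ω then (1 : ℝ) else 0) / (Fintype.card Ω : ℝ) := by
  rw [pr_def]
  congr 1
  rw [Finset.card_filter]
  push_cast
  rfl

end basic

/-! ## mixing -/

section mix

variable {κ : Type*} [Fintype κ] {F : κ → Type*} [∀ c, Fintype (F c)]

/-- the picks of `τ` on `R`, of `ω` outside `R` -/
def mix (R : Set κ) (τ ω : ∀ c, F c) : ∀ c, F c := fun c => if c ∈ R then τ c else ω c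

omit [Fintype κ] [∀ c, Fintype (F c)] in
theorem mix_of_mem {R : Set κ} (τ ω : ∀ c, F c) {c : κ} (h : c ∈ R) : mix R τ ω c = τ c := by
  simp [mix, h]

omit [Fintype κ] [∀ c, Fintype (F c)] in
theorem mix_of_notMem {R : Set κ} (τ ω : ∀ c, F c) {c : κ} (h : c ∉ R) :
    mix R τ ω c = ω c := by
  simp [mix, h]

omit [Fintype κ] [∀ c, Fintype (F c)] in
theorem mix_mix (R : Set κ) (τ ω : ∀ c, F c) : mix R (mix R τ ω) (mix R ω τ) = τ := by
  funext c
  by_cases h : c ∈ R <;> simp [mix, h]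

omit [Fintype κ] [∀ c, Fintype (F c)] in
theorem mix_self (R : Set κ) (ω : ∀ c, F c) : mix R ω ω = ω := by
  funext c
  by_cases h : c ∈ R <;> simp [mix, h]

/-- swapping the picks of `R` -/
def mixEquiv (R : Set κ) : ((∀ c, F c) × (∀ c, F c)) ≃ ((∀ c, F c) × (∀ c, F c)) where
  toFun p := (mix R p.1 p.2, mix R p.2 p.1)
  invFun p := (mix R p.1 p.2, mix R p.2 p.1)
  left_inv p := by
    ext c
    · by_cases h : c ∈ R <;> simp [mix, h]
    · by_cases h : c ∈ R <;> simp [mix, h]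
  right_inv p := by
    ext c
    · by_cases h : c ∈ R <;> simp [mix, h]
    · by_cases h : c ∈ R <;> simp [mix, h]

/-- resampling: the proportion of `B` is the average over `ω` of the proportion of the `τ` with
`B (mix R τ ω)`. -/
theorem sum_mix (R : Set κ) (f : (∀ c, F c) → ℝ) :
    ∑ ω : (∀ c, F c), ∑ τ : (∀ c, F c), f (mix R τ ω) =
      (Fintype.card (∀ c, F c) : ℝ) * ∑ ω : (∀ c, F c), f ω := by
  have h1 : ∑ ω : (∀ c, F c), ∑ τ : (∀ c, F c), f (mix R τ ω) =
      ∑ p : (∀ c, F c) × (∀ c, F c), f (mix R p.2 p.1) := by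
    rw [Fintype.sum_prod_type]
  have h2 : ∑ p : (∀ c, F c) × (∀ c, F c), f (mix R p.2 p.1) =
      ∑ p : (∀ c, F c) × (∀ c, F c), f p.2 := by
    have := Equiv.sum_comp (mixEquiv (F := F) R) (fun p => f p.2)
    rw [← this]
    rfl
  rw [h1, h2, Fintype.sum_prod_type]
  simp only
  rw [Finset.sum_const, nsmul_eq_mul]
  simp

theorem pr_mix_eq (R : Set κ) (B : (∀ c, F c) → Prop) :
    pr B = (∑ ω : (∀ c, F c), pr (fun τ => B (mix R τ ω))) / (Fintype.card (∀ c, F c) : ℝ) := by
  simp only [pr_eq_sum]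
  rw [← Finset.sum_div, sum_mix R (fun ω => if B ω then (1 : ℝ) else 0)]
  rcases eq_or_ne (Fintype.card (∀ c, F c) : ℝ) 0 with h0 | h0
  · rw [h0]; simp
  · field_simp

theorem pr_le_of_mix [∀ c, Nonempty (F c)] (R : Set κ) (B : (∀ c, F c) → Prop) (ε : ℝ)
    (h : ∀ ω, pr (fun τ => B (mix R τ ω)) ≤ ε) : pr B ≤ ε := by
  rw [pr_mix_eq R B]
  have hpos : (0 : ℝ) < (Fintype.card (∀ c, F c) : ℝ) := by
    exact_mod_cast Fintype.card_pos
  rw [div_le_iff₀ hpos]
  calc ∑ ω : (∀ c, F c), pr (fun τ => B (mix R τ ω)) ≤ ∑ _ω : (∀ c, F c), ε :=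
        Finset.sum_le_sum (fun ω _ => h ω)
    _ = ε * (Fintype.card (∀ c, F c) : ℝ) := by
        rw [Finset.sum_const, nsmul_eq_mul, mul_comm]
        rfl

/-- independence: `E` depends only on `R`, `G` does not depend on `R`. -/
theorem pr_and_of_indep [∀ c, Nonempty (F c)] (R : Set κ) (E G : (∀ c, F c) → Prop)
    (hE : ∀ τ ω, E (mix R τ ω) ↔ E τ) (hG : ∀ τ ω, G (mix R τ ω) ↔ G ω) :
    pr (fun ω => E ω ∧ G ω) = pr E * pr G := by
  rw [pr_mix_eq R]
  have h1 : ∀ ω : (∀ c, F c), pr (fun τ => E (mix R τ ω) ∧ G (mix R τ ω)) =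
      (if G ω then (1 : ℝ) else 0) * pr E := by
    intro ω
    by_cases hω : G ω
    · simp only [hω, if_true, one_mul]
      exact pr_congr (fun τ => by rw [hE, hG]; simp [hω])
    · simp only [hω, if_false, zero_mul]
      exact pr_eq_zero (fun τ => by rw [hG]; simp [hω])
  simp only [h1]
  rw [← Finset.sum_mul, mul_div_assoc, mul_comm, div_mul_eq_mul_div, mul_div_assoc, ← pr_eq_sum]

end mix

/-! ## finite independent families -/

section indep

variable {κ : Type*} [Fintype κ] {F : κ → Type*} [∀ c, Fintype (F c)] [∀ c, Nonempty (F c)]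

/-- independent groups: `E g` depends only on the picks of the group `g`. -/
theorem pr_forall_group {γ : Type*} (grp : κ → γ) (S : Finset γ) (E : γ → (∀ c, F c) → Prop)
    (hE : ∀ g ∈ S, ∀ ω ω' : (∀ c, F c), (∀ c, grp c = g → ω c = ω' c) → (E g ω ↔ E g ω')) :
    pr (fun ω => ∀ g ∈ S, E g ω) = ∏ g ∈ S, pr (E g) := by
  induction S using Finset.induction_on with
  | empty =>
    simp only [Finset.notMem_empty, false_implies, implies_true, Finset.prod_empty]
    exact pr_true
  | insert a s ha ih =>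
    rw [Finset.prod_insert ha]
    have ih' := ih (fun g hg => hE g (Finset.mem_insert_of_mem hg))
    rw [← ih']
    rw [← pr_and_of_indep (F := F) {c | grp c = a}]
    · apply pr_congr
      intro ω
      simp only [Finset.mem_insert, forall_eq_or_imp]
    · intro τ ω
      apply hE a (Finset.mem_insert_self _ _)
      intro c hc
      exact mix_of_mem _ _ hc
    · intro τ ω
      apply forall₂_congr
      intro g hg
      apply hE g (Finset.mem_insert_of_mem hg)
      intro c hc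
      apply mix_of_notMem
      intro hca
      apply ha
      have : g = a := by rw [← hc]; exact hca
      rwa [← this]

/-- probability of one pick -/
theorem pr_pick (c : κ) (Z : Set (F c)) :
    pr (fun ω : (∀ c, F c) => ω c ∈ Z) = (Finset.univ.filter (· ∈ Z)).card / (Fintype.card (F c) : ℝ) := by
  have key : ∀ a : F c, pr (fun ω : (∀ c, F c) => ω c = a) = 1 / (Fintype.card (F c) : ℝ) := by
    -- all values are equally likely
    have hsym : ∀ a b : F c, pr (fun ω : (∀ c, F c) => ω c = a) =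
        pr (fun ω : (∀ c, F c) => ω c = b) := by
      intro a b
      rw [← pr_equiv (Equiv.piCongrRight (fun c' => if h : c' = c then
        (h ▸ (Equiv.swap a b : F c ≃ F c)) else Equiv.refl (F c')))
        (fun ω : (∀ c, F c) => ω c = b)]
      apply pr_congr
      intro ω
      simp only [Equiv.piCongrRight_apply, Pi.map_apply, dif_pos]
      constructor
      · intro h
        rw [h]; simp
      · intro h
        have := congrArg (Equiv.swap a b) h
        simpa using this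
    have hsum : ∑ a : F c, pr (fun ω : (∀ c, F c) => ω c = a) = 1 := by
      simp only [pr_eq_sum]
      rw [← Finset.sum_div, Finset.sum_comm]
      have hpos : (0 : ℝ) < (Fintype.card (∀ c, F c) : ℝ) := by
        exact_mod_cast Fintype.card_pos
      rw [div_eq_one_iff_eq hpos.ne']
      simp
    intro a
    have h2 : ∑ b : F c, pr (fun ω : (∀ c, F c) => ω c = b) =
        (Fintype.card (F c) : ℝ) * pr (fun ω : (∀ c, F c) => ω c = a) := by
      rw [Finset.sum_congr rfl (fun b _ => hsym b a)]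
      rw [Finset.sum_const, nsmul_eq_mul]
      rfl
    rw [hsum] at h2
    have hpos : (0 : ℝ) < (Fintype.card (F c) : ℝ) := by
      exact_mod_cast Fintype.card_pos
    rw [eq_div_iff hpos.ne', mul_comm]
    exact h2.symm
  have h3 : pr (fun ω : (∀ c, F c) => ω c ∈ Z) =
      ∑ a ∈ Finset.univ.filter (· ∈ Z), pr (fun ω : (∀ c, F c) => ω c = a) := by
    simp only [pr_eq_sum]
    rw [← Finset.sum_div, Finset.sum_comm]
    congr 1
    apply Finset.sum_congr rfl
    intro ω _
    by_cases h : ω c ∈ Z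
    · simp only [h, if_true]
      rw [Finset.sum_ite_eq]
      simp [h]
    · simp only [h, if_false]
      rw [Finset.sum_ite_eq]
      simp [h]
  rw [h3, Finset.sum_congr rfl (fun a _ => key a), Finset.sum_const, nsmul_eq_mul]
  ring

/-- all picks of `T` in their targets -/
theorem pr_forall_pick (T : Finset κ) (Z : ∀ c, Set (F c)) :
    pr (fun ω : (∀ c, F c) => ∀ c ∈ T, ω c ∈ Z c) =
      ∏ c ∈ T, ((Finset.univ.filter (· ∈ Z c)).card / (Fintype.card (F c) : ℝ)) := by
  rw [pr_forall_group (F := F) (fun c => c) T (fun c ω => ω c ∈ Z c)]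
  · exact Finset.prod_congr rfl (fun c _ => pr_pick c (Z c))
  · intro g _ ω ω' h
    rw [h g rfl]

/-- `a` bad groups among `S`, each bad with probability at most `ρ` -/
theorem pr_many_groups {γ : Type*} (grp : κ → γ) (S : Finset γ) (E : γ → (∀ c, F c) → Prop)
    (hE : ∀ g ∈ S, ∀ ω ω' : (∀ c, F c), (∀ c, grp c = g → ω c = ω' c) → (E g ω ↔ E g ω'))
    (ρ : ℝ) (hρ : ∀ g ∈ S, pr (E g) ≤ ρ) (a : ℕ) :
    pr (fun ω => a ≤ (S.filter (fun g => E g ω)).card) ≤ (S.card.choose a : ℝ) * ρ ^ a := by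
  have h1 : pr (fun ω => a ≤ (S.filter (fun g => E g ω)).card) ≤
      pr (fun ω => ∃ U ∈ S.powersetCard a, ∀ g ∈ U, E g ω) := by
    apply pr_mono
    intro ω h
    obtain ⟨U, hU, hcard⟩ := Finset.exists_subset_card_eq h
    refine ⟨U, Finset.mem_powersetCard.2 ⟨hU.trans (Finset.filter_subset _ _), hcard⟩, ?_⟩
    intro g hg
    exact (Finset.mem_filter.1 (hU hg)).2
  refine h1.trans ?_
  have h2 := pr_exists_mem_le_card_mul (S.powersetCard a)
    (fun (U : Finset γ) (ω : ∀ c, F c) => ∀ g ∈ U, E g ω) (ρ ^ a) (by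
      intro U hU
      rw [Finset.mem_powersetCard] at hU
      rw [pr_forall_group grp U E (fun g hg => hE g (hU.1 hg))]
      calc ∏ g ∈ U, pr (E g) ≤ ∏ _g ∈ U, ρ :=
            Finset.prod_le_prod (fun g _ => pr_nonneg _) (fun g hg => hρ g (hU.1 hg))
        _ = ρ ^ a := by rw [Finset.prod_const, hU.2])
  rw [Finset.card_powersetCard] at h2
  exact h2

/-- at least `q` hits among the picks of `T` -/
theorem pr_hits (T : Finset κ) (Z : ∀ c, Set (F c)) (p : ℝ)
    (hp : ∀ c ∈ T, ((Finset.univ.filter (· ∈ Z c)).card : ℝ) ≤ p * (Fintype.card (F c) : ℝ))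
    (q : ℕ) :
    pr (fun ω : (∀ c, F c) => q ≤ (T.filter (fun c => ω c ∈ Z c)).card) ≤
      (T.card.choose q : ℝ) * p ^ q := by
  apply pr_many_groups (fun c => c) T (fun c ω => ω c ∈ Z c)
  · intro g _ ω ω' h
    rw [h g rfl]
  · intro c hc
    rw [pr_pick]
    have hpos : (0 : ℝ) < (Fintype.card (F c) : ℝ) := by
      exact_mod_cast Fintype.card_pos
    rw [div_le_iff₀ hpos]
    exact hp c hc

/-- no hit among the picks of `T` -/
theorem pr_no_hit (T : Finset κ) (Z : ∀ c, Set (F c)) :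
    pr (fun ω : (∀ c, F c) => ∀ c ∈ T, ω c ∉ Z c) ≤
      Real.exp (- ∑ c ∈ T, ((Finset.univ.filter (· ∈ Z c)).card / (Fintype.card (F c) : ℝ))) := by
  have h := pr_forall_pick T (fun c => (Z c)ᶜ)
  simp only [Set.mem_compl_iff] at h
  rw [h, ← Finset.sum_neg_distrib, Real.exp_sum]
  apply Finset.prod_le_prod
  · intro c _
    positivity
  · intro c _
    have hpos : (0 : ℝ) < (Fintype.card (F c) : ℝ) := by
      exact_mod_cast Fintype.card_pos
    have hsum : ((Finset.univ.filter (· ∈ Z c)).card : ℝ) +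
        ((Finset.univ.filter (fun x => ¬ x ∈ Z c)).card : ℝ) = (Fintype.card (F c) : ℝ) := by
      have := Finset.card_filter_add_card_filter_not (s := (Finset.univ : Finset (F c)))
        (fun x => x ∈ Z c)
      rw [Finset.card_univ] at this
      exact_mod_cast this
    have h4 : ((Finset.univ.filter (fun x => ¬ x ∈ Z c)).card : ℝ) / (Fintype.card (F c) : ℝ) =
        1 - ((Finset.univ.filter (· ∈ Z c)).card : ℝ) / (Fintype.card (F c) : ℝ) := by
      rw [eq_sub_iff_add_eq, ← add_div, add_comm, hsum, div_self hpos.ne']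
    rw [h4]
    have := Real.add_one_le_exp (-(((Finset.univ.filter (· ∈ Z c)).card : ℝ) /
      (Fintype.card (F c) : ℝ)))
    linarith


end indep

end PB

variable {Ω : Type*} [Fintype Ω]

theorem Pr_eq_pr (S : Ω → Prop) : Pr S = PB.pr S := by
  rw [PB.pr_def]
  rfl

theorem Pr_nonneg (S : Ω → Prop) : 0 ≤ Pr S := by
  rw [Pr_eq_pr]; exact PB.pr_nonneg S

theorem Pr_mono {S T : Ω → Prop} (h : ∀ ω, S ω → T ω) : Pr S ≤ Pr T := by
  rw [Pr_eq_pr, Pr_eq_pr]; exact PB.pr_mono h

theorem Pr_or (S T : Ω → Prop) : Pr (fun ω => S ω ∨ T ω) ≤ Pr S + Pr T := by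
  rw [Pr_eq_pr, Pr_eq_pr, Pr_eq_pr]; exact PB.pr_or_le S T

theorem Pr_exists_finset {ι : Type*} (s : Finset ι) (S : ι → Ω → Prop) :
    Pr (fun ω => ∃ i ∈ s, S i ω) ≤ ∑ i ∈ s, Pr (S i) := by
  simp only [Pr_eq_pr]
  exact PB.pr_exists_mem_le s S

theorem Pr_exists {ι : Type*} [Fintype ι] (S : ι → Ω → Prop) (B : ℝ) (h : ∀ i, Pr (S i) ≤ B) :
    Pr (fun ω => ∃ i, S i ω) ≤ Fintype.card ι * B := by
  simp only [Pr_eq_pr] at h ⊢
  exact PB.pr_exists_le_card_mul S B h

theorem exists_of_Pr_lt_one [Nonempty Ω] {S : Ω → Prop} (h : Pr S < 1) : ∃ ω, ¬ S ω := by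
  rw [Pr_eq_pr] at h
  exact PB.exists_not_of_pr_lt_one h


theorem PB.pr_comp_eval {ι : Type*} [Fintype ι] {A : ι → Type*} [∀ i, Fintype (A i)]
    [∀ i, Nonempty (A i)] (i : ι) (E : A i → Prop) :
    PB.pr (fun τ : (∀ i, A i) => E (τ i)) = PB.pr E := by
  have h := PB.pr_pick (F := A) i {a | E a}
  rw [PB.pr_def E]
  exact h

/-- conditioning on one coordinate of a dependent product -/
theorem Pr_pi_coord {ι : Type*} [Fintype ι] {A : ι → Type*} [∀ i, Fintype (A i)]
    [∀ i, Nonempty (A i)] (i : ι) (S : (∀ i, A i) → Prop) (B : ℝ)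
    (h : ∀ ω : ∀ i, A i, Pr (fun a : A i => S (Function.update ω i a)) ≤ B) : Pr S ≤ B := by
  rw [Pr_eq_pr]
  apply PB.pr_le_of_mix (F := A) {i}
  intro ω
  have h1 : ∀ τ : (∀ i, A i), PB.mix {i} τ ω = Function.update ω i (τ i) := by
    intro τ
    funext j
    by_cases hj : j = i
    · subst hj
      rw [PB.mix_of_mem _ _ (Set.mem_singleton _), Function.update_self]
    · rw [PB.mix_of_notMem _ _ (by simpa using hj), Function.update_of_ne hj]
  have h2 := h ω
  rw [Pr_eq_pr] at h2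
  refine le_trans (le_of_eq ?_) h2
  rw [← PB.pr_comp_eval (A := A) i (fun a => S (Function.update ω i a))]
  apply PB.pr_congr
  intro τ
  rw [h1]

/-- conditioning on the rows outside `R` (non dependent product) -/
theorem Pr_rows {ι α : Type*} [Fintype ι] [Fintype α] [Nonempty α] (R : Set ι)
    (S : (ι → α) → Prop) (B : ℝ)
    (h : ∀ ω : ι → α, Pr (fun ω' : ι → α => S (fun i => if i ∈ R then ω' i else ω i)) ≤ B) :
    Pr S ≤ B := by
  rw [Pr_eq_pr]
  apply PB.pr_le_of_mix (F := fun _ : ι => α) R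
  intro ω
  have h2 := h ω
  rw [Pr_eq_pr] at h2
  exact h2

/-- curried form -/
theorem PB.pr_curry {ι : Type*} [Fintype ι] {d n : ℕ} (B : (ι × Fin d → Fin n) → Prop) :
    PB.pr (fun ω : ι → Fin d → Fin n => B (fun q => ω q.1 q.2)) = PB.pr B :=
  PB.pr_equiv (Equiv.curry ι (Fin d) (Fin n)).symm B

/-- all trials of a finite set hit their targets -/
theorem Pr_all_hit {ι : Type*} [Fintype ι] {d n : ℕ} (hn : 0 < n) (Q : Finset (ι × Fin d))
    (Z : ι × Fin d → Finset (Fin n)) :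
    Pr (fun ω : ι → Fin d → Fin n => ∀ q ∈ Q, ω q.1 q.2 ∈ Z q)
      = ∏ q ∈ Q, (((Z q).card : ℝ) / n) := by
  have : Nonempty (Fin n) := ⟨⟨0, hn⟩⟩
  rw [Pr_eq_pr, PB.pr_curry (fun η => ∀ q ∈ Q, η q ∈ Z q)]
  have h := PB.pr_forall_pick (F := fun _ : ι × Fin d => Fin n) Q (fun q => (Z q : Set (Fin n)))
  simp only [Finset.mem_coe, Fintype.card_fin] at h
  rw [h]
  refine Finset.prod_congr rfl fun q _ => ?_
  congr 3
  ext x
  simp

/-- at least `s` hits among the trials `Q` with targets of size at most `z` -/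
theorem Pr_hits {ι : Type*} [Fintype ι] {d n : ℕ} (hn : 0 < n) (Q : Finset (ι × Fin d))
    (Z : ι × Fin d → Finset (Fin n)) (z s : ℕ) (hz : ∀ q ∈ Q, (Z q).card ≤ z) :
    Pr (fun ω : ι → Fin d → Fin n => s ≤ (Q.filter fun q => ω q.1 q.2 ∈ Z q).card)
      ≤ (Q.card.choose s : ℝ) * ((z : ℝ) / n) ^ s := by
  have : Nonempty (Fin n) := ⟨⟨0, hn⟩⟩
  rw [Pr_eq_pr, PB.pr_curry (fun η => s ≤ (Q.filter fun q => η q ∈ Z q).card)]
  have hn' : (0 : ℝ) < n := by exact_mod_cast hn
  have key := PB.pr_hits (F := fun _ : ι × Fin d => Fin n) Q (fun q => (Z q : Set (Fin n)))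
    ((z : ℝ) / n) ?_ s
  · refine le_trans (le_of_eq (PB.pr_congr fun η => ?_)) key
    rw [iff_iff_eq]
    congr 2
    ext q
    simp only [Finset.mem_filter, Finset.mem_coe]
  intro c hc
  rw [Fintype.card_fin, div_mul_cancel₀ _ hn'.ne']
  refine le_trans (le_of_eq ?_) (Nat.cast_le.2 (hz c hc))
  congr 2
  ext x
  simp only [Finset.mem_filter, Finset.mem_coe, Finset.mem_univ, true_and]

/-- no trial hits -/
theorem Pr_no_hit {ι : Type*} [Fintype ι] {d n : ℕ} (hn : 0 < n) (X : Finset ι)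
    (Z : ι → Finset (Fin n)) :
    Pr (fun ω : ι → Fin d → Fin n => ∀ x ∈ X, ∀ i, ω x i ∉ Z x)
      ≤ Real.exp (-(d : ℝ) * (∑ x ∈ X, ((Z x).card : ℝ)) / n) := by
  have : Nonempty (Fin n) := ⟨⟨0, hn⟩⟩
  have h := PB.pr_no_hit (F := fun _ : ι × Fin d => Fin n) (X ×ˢ (univ : Finset (Fin d)))
    (fun q => (Z q.1 : Set (Fin n)))
  rw [Pr_eq_pr]
  have e1 : PB.pr (fun ω : ι → Fin d → Fin n => ∀ x ∈ X, ∀ i, ω x i ∉ Z x) =
      PB.pr (fun η : ι × Fin d → Fin n => ∀ c ∈ X ×ˢ (univ : Finset (Fin d)),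
        η c ∉ (Z c.1 : Set (Fin n))) := by
    rw [← PB.pr_curry]
    apply PB.pr_congr
    intro ω
    constructor
    · intro h c hc
      exact h c.1 (Finset.mem_product.1 hc).1 c.2
    · intro h x hx i
      exact h (x, i) (Finset.mem_product.2 ⟨hx, Finset.mem_univ _⟩)
  rw [e1]
  refine h.trans (le_of_eq ?_)
  congr 1
  rw [Finset.sum_product]
  simp only [Finset.sum_const, Finset.card_univ, Fintype.card_fin, nsmul_eq_mul]
  rw [neg_mul, neg_div, ← Finset.mul_sum, mul_div_assoc]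
  congr 2
  rw [Finset.sum_div]
  refine Finset.sum_congr rfl fun x _ => ?_
  congr 3
  ext y
  simp

end Pool.Agent.AM
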