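import Pool.Agent.AM.Defs2
import Pool.Agent.AM.OrdBlk
import Pool.Agent.AM.Path
import Pool.Agent.AM.PrBasic
import Pool.Agent.AM.CardP

set_option autoImplicit false

open scoped Classical
open Finset

noncomputable section

namespace Pool.Agent.AM

namespace A4fX

variable {C : Cst} {p : Par C}

/-- rows which join the levels `k-1` and `k` -/
def RK (p : Par C) (k : ℕ) : Set (Row p) := {r | max r.olev r.tlev = k}

theorem V_ne_ce {k : ℕ} {v : Fin p.n} {c : Cell p} {e : CI p c.j} : V p k v ≠ .ce c e := by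
  intro h
  unfold V at h
  cases h

/-- last step into a frame point -/
theorem last_step {ω : Om p} {y : Pt p} {k : ℕ} (hk : k ≤ C.h + 1) {v : Fin p.n}
    (h : Le ω y (V p k v)) (hne : V p k v ≠ y) :
    ∃ r : Row p, ∃ i, (r.up = true ∧ r.tlev = k ∧ ω r i = v ∧ ∃ x, r.own x ∧ Le ω y x) ∨
      (r.up = false ∧ r.own (V p k v) ∧ (∃ k', r = .fd k' v) ∧ Le ω y (V p r.tlev (ω r i))) := by
  rcases Relation.ReflTransGen.cases_tail h with h0 | ⟨x, hyx, hst⟩
  · exact absurd h0 hne
  · generalize hb : V p k v = b at hst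
    cases hst with
    | up r hr hu x hx i =>
      refine ⟨r, i, Or.inl ⟨hu, ?_⟩⟩
      have h1 := V_inj hk (tlev_le r).1 hb
      exact ⟨h1.1.symm, h1.2.symm, x, hx, hyx⟩
    | dn r hr hu x hx i =>
      refine ⟨r, i, Or.inr ⟨hu, ?_, ?_, hyx⟩⟩
      · exact hx
      · subst hb
        cases r with
        | fu k' v' => simp [Row.up] at hu
        | fd k' v' =>
          have h1 : V p k v = V p (k'.val + 1) v' := hx
          have h2 := V_inj hk (by have := k'.isLt; omega) h1
          exact ⟨k', by rw [h2.2]⟩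
        | ce c g s =>
          obtain ⟨l, hl⟩ := hx
          exact absurd hl V_ne_ce
    | cell c a b hab => exact absurd hb V_ne_ce

/-- the trials -/
def Q (ω : Om p) (y z : Pt p) (k : ℕ) : Finset (Row p × Fin p.d) :=
  univ.filter fun q => max q.1.olev q.1.tlev = k ∧
    ((q.1.up = true ∧ ∃ x, q.1.own x ∧ LeA ω (RK p k) y x) ∨
      (q.1.up = false ∧ ∃ x, q.1.own x ∧ LeA ω (RK p k) x z))

/-- the targets -/
def Z (ω : Om p) (y z : Pt p) (k : ℕ) (q : Row p × Fin p.d) : Finset (Fin p.n) :=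
  if q.1.up = true then univ.filter (fun v => LeA ω (RK p k) (V p k v) z)
  else univ.filter (fun w => LeA ω (RK p k) y (V p q.1.tlev w))

/-- the frame points between `y` and `z` -/
def Bt (ω : Om p) (y z : Pt p) (k : ℕ) : Finset (Fin p.n) :=
  univ.filter fun v => V p k v ≠ y ∧ V p k v ≠ z ∧ Le ω y (V p k v) ∧ Le ω (V p k v) z

/-- the frame point found by a hit -/
def phi (m : Om p) (q : Row p × Fin p.d) : Fin p.n :=
  match q.1 with
  | .fd _ v => v
  | r => m r q.2

theorem phi_fd (m : Om p) (k' : Fin (C.h + 1)) (v : Fin p.n) (i : Fin p.d) :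
    phi m (.fd k' v, i) = v := rfl

theorem phi_up (m : Om p) (r : Row p) (i : Fin p.d) (hu : r.up = true) :
    phi m (r, i) = m r i := by
  cases r with
  | fu k' v' => rfl
  | fd k' v' => simp [Row.up] at hu
  | ce c g s => rfl

theorem count_le {ω m : Om p} {y z : Pt p} {k : ℕ} (hk : k ≤ C.h + 1)
    (hm : ∀ r, r ∉ RK p k → m r = ω r) :
    (Bt m y z k).card ≤ ((Q ω y z k).filter fun q => m q.1 q.2 ∈ Z ω y z k q).card := by
  have hsub : Bt m y z k ⊆ ((Q ω y z k).filter fun q => m q.1 q.2 ∈ Z ω y z k q).image (phi m) := by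
    intro v hv
    simp only [Bt, mem_filter, mem_univ, true_and] at hv
    obtain ⟨hvy, -, hyv, hvz⟩ := hv
    rw [mem_image]
    have hvz' : LeA ω (RK p k) (V p k v) z := by
      rw [← leA_congr hm]
      refine leA_of_le_lev hvz ?_
      intro r hr
      left
      rw [lev_V hk]
      have h1 := tlev_le r
      have h2 : max r.olev r.tlev = k := hr
      rcases hu : r.up with _ | _
      · have h3 := h1.2.2.2 hu
        omega
      · have h3 := h1.2.2.1 hu
        omega
    have hbelow : ∀ x, lev x < k → Le m y x → LeA ω (RK p k) y x := by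
      intro x hx hyx
      rw [← leA_congr hm]
      refine leA_of_le_lev hyx ?_
      intro r hr
      right
      have h2 : max r.olev r.tlev = k := hr
      omega
    obtain ⟨r, i, hri⟩ := last_step hk hyv hvy
    refine ⟨(r, i), ?_, ?_⟩
    · rw [mem_filter]
      rcases hri with ⟨hu, ht, hmv, x, hx, hyx⟩ | ⟨hu, hown, ⟨k', hk'⟩, hyx⟩
      · have h3 := (tlev_le r).2.2.1 hu
        constructor
        · simp only [Q, mem_filter, mem_univ, true_and]
          refine ⟨by omega, Or.inl ⟨hu, x, hx, hbelow x ?_ hyx⟩⟩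
          rw [lev_own hx]; omega
        · simp only [Z, hu, if_true, mem_filter, mem_univ, true_and]
          rw [hmv]; exact hvz'
      · have h3 := (tlev_le r).2.2.2 hu
        have h4 := lev_own hown
        rw [lev_V hk] at h4
        constructor
        · simp only [Q, mem_filter, mem_univ, true_and]
          refine ⟨by omega, Or.inr ⟨hu, _, hown, hvz'⟩⟩
        · simp only [Z, hu]
          simp only [Bool.false_eq_true, if_false, mem_filter, mem_univ, true_and]
          refine hbelow _ ?_ hyx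
          rw [lev_V (tlev_le r).1]; omega
    · rcases hri with ⟨hu, ht, hmv, x, hx, hyx⟩ | ⟨hu, hown, ⟨k', hk'⟩, hyx⟩
      · rw [phi_up m r i hu, hmv]
      · rw [hk', phi_fd]
  exact (card_le_card hsub).trans card_image_le

theorem card_Q_le {ω m : Om p} {y z : Pt p} {k κ : ℕ} (hm : ∀ r, r ∉ RK p k → m r = ω r)
    (hc : Cones κ m) : (Q ω y z k).card ≤ 2 * κ * p.d := by
  have hsub : Q ω y z k ⊆ ((univ.filter fun r : Row p => ∃ x, r.own x ∧ Le m y x) ∪
      (univ.filter fun r : Row p => ∃ x, r.own x ∧ Le m x z)) ×ˢ (univ : Finset (Fin p.d)) := by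
    intro q hq
    simp only [Q, mem_filter, mem_univ, true_and] at hq
    simp only [mem_product, mem_union, mem_filter, mem_univ, true_and, and_true]
    rcases hq.2 with ⟨-, x, hx, hyx⟩ | ⟨-, x, hx, hxz⟩
    · left
      exact ⟨x, hx, le_of_leA ((leA_congr hm y x).2 hyx)⟩
    · right
      exact ⟨x, hx, le_of_leA ((leA_congr hm x z).2 hxz)⟩
  calc (Q ω y z k).card ≤ _ := card_le_card hsub
    _ ≤ 2 * κ * p.d := by
        rw [card_product, card_univ, Fintype.card_fin]
        refine Nat.mul_le_mul_right _ ?_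
        have h1 := card_union_le (univ.filter fun r : Row p => ∃ x, r.own x ∧ Le m y x)
          (univ.filter fun r : Row p => ∃ x, r.own x ∧ Le m x z)
        have h2 := hc.ru y
        have h3 := hc.rd z
        omega

theorem card_Z_le {ω m : Om p} {y z : Pt p} {k κ : ℕ} (hk : k ≤ C.h + 1)
    (hm : ∀ r, r ∉ RK p k → m r = ω r)
    (hc : Cones κ m) (q : Row p × Fin p.d) : (Z ω y z k q).card ≤ κ := by
  unfold Z
  split_ifs with hu
  · refine le_trans (card_le_card ?_) (hc.d z k hk)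
    intro v hv
    simp only [mem_filter, mem_univ, true_and] at hv ⊢
    exact le_of_leA ((leA_congr hm _ _).2 hv)
  · refine le_trans (card_le_card ?_) (hc.u y q.1.tlev (tlev_le q.1).1)
    intro v hv
    simp only [mem_filter, mem_univ, true_and] at hv ⊢
    exact le_of_leA ((leA_congr hm _ _).2 hv)

theorem Pr_false {Ω : Type*} [Fintype Ω] {S : Ω → Prop} (h : ∀ ω, ¬ S ω) : Pr S = 0 := by
  unfold Pr
  rw [filter_false_of_mem (fun ω _ => h ω)]
  simp

theorem pr_one (hn : 0 < p.n) (κ s : ℕ) (y z : Pt p) {k : ℕ} (hk : k ≤ C.h + 1) :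
    Pr (fun ω : Om p => Cones κ ω ∧ s ≤ (Bt ω y z k).card)
      ≤ ((2 * κ * p.d).choose s : ℝ) * ((κ : ℝ) / p.n) ^ s := by
  have : Nonempty (Fin p.n) := ⟨⟨0, hn⟩⟩
  have hB0 : 0 ≤ ((2 * κ * p.d).choose s : ℝ) * ((κ : ℝ) / p.n) ^ s := by positivity
  refine Pr_rows (RK p k) _ _ ?_
  intro ω
  have hm : ∀ ω' : Om p, ∀ r, r ∉ RK p k →
      (fun i => if i ∈ RK p k then ω' i else ω i) r = ω r := by
    intro ω' r hr
    simp [hr]
  by_cases hb : (Q ω y z k).card ≤ 2 * κ * p.d ∧ ∀ q, (Z ω y z k q).card ≤ κ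
  · calc Pr (fun ω' : Om p => Cones κ (fun i => if i ∈ RK p k then ω' i else ω i) ∧
          s ≤ (Bt (fun i => if i ∈ RK p k then ω' i else ω i) y z k).card)
        ≤ Pr (fun ω' : Om p => s ≤ ((Q ω y z k).filter fun q => ω' q.1 q.2 ∈ Z ω y z k q).card) := by
          refine Pr_mono ?_
          rintro ω' ⟨-, h2⟩
          refine h2.trans ((count_le hk (hm ω')).trans (le_of_eq ?_))
          congr 1
          refine filter_congr ?_
          intro q hq
          have hq' : q.1 ∈ RK p k := by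
            simp only [Q, mem_filter, mem_univ, true_and] at hq
            exact hq.1
          simp only [hq', if_true]
      _ ≤ ((Q ω y z k).card.choose s : ℝ) * ((κ : ℝ) / p.n) ^ s :=
          Pr_hits hn _ _ κ s (fun q _ => hb.2 q)
      _ ≤ _ := by
          refine mul_le_mul_of_nonneg_right ?_ (by positivity)
          exact_mod_cast Nat.choose_le_choose s hb.1
  · rw [Pr_false]
    · exact hB0
    · rintro ω' ⟨h1, -⟩
      exact hb ⟨card_Q_le (hm ω') h1, fun q => card_Z_le hk (hm ω') h1 q⟩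

theorem numeric (T : ℝ) (hT : 2 ≤ T) (x l : ℕ) (hx : 1 ≤ x) (hl : l ≤ x) (a b n κ d : ℕ) (B : ℝ)
    (hn : (n : ℝ) = T ^ (100 * x - 1)) (hκ : (κ : ℝ) = T ^ (6 * x)) (hd : (d : ℝ) = T ^ l)
    (ha : (a : ℝ) ≤ T ^ (100 * x + 1)) (hb : (b : ℝ) ≤ T)
    (hB : B = ((2 * κ * d).choose 37 : ℝ) * ((κ : ℝ) / n) ^ 37) :
    ((a * (a * b) : ℕ) : ℝ) * B ≤ 1 / T ^ (5 * (100 * x)) := by
  have hT0 : (0 : ℝ) < T := by linarith
  have hT1 : (1 : ℝ) ≤ T := by linarith
  have h1 : B ≤ (1 / T ^ (87 * x - 2)) ^ 37 := by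
    have h2 : ((2 * κ * d).choose 37 : ℝ) ≤ ((2 * κ * d : ℕ) : ℝ) ^ 37 := by
      exact_mod_cast Nat.choose_le_pow (2 * κ * d) 37
    have h3 : (2 * T ^ (6 * x) * T ^ l) * (T ^ (6 * x) / T ^ (100 * x - 1))
        ≤ 1 / T ^ (87 * x - 2) := by
      have h4 : (2 * T ^ (6 * x) * T ^ l) * (T ^ (6 * x) / T ^ (100 * x - 1))
          ≤ T ^ (13 * x + 1) / T ^ (100 * x - 1) := by
        rw [← mul_div_assoc]
        refine div_le_div_of_nonneg_right ?_ (by positivity)
        calc 2 * T ^ (6 * x) * T ^ l * T ^ (6 * x) ≤ T * T ^ (6 * x) * T ^ x * T ^ (6 * x) := by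
              have := pow_le_pow_right₀ hT1 hl
              gcongr
          _ = T ^ (13 * x + 1) := by
              rw [← pow_succ', ← pow_add, ← pow_add]
              congr 1
              omega
      refine h4.trans (le_of_eq ?_)
      rw [div_eq_div_iff (by positivity) (by positivity), ← pow_add, one_mul]
      congr 1
      omega
    rw [hB]
    calc ((2 * κ * d).choose 37 : ℝ) * ((κ : ℝ) / n) ^ 37
        ≤ ((2 * κ * d : ℕ) : ℝ) ^ 37 * ((κ : ℝ) / n) ^ 37 :=
          mul_le_mul_of_nonneg_right h2 (by positivity)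
      _ = ((2 * T ^ (6 * x) * T ^ l) * (T ^ (6 * x) / T ^ (100 * x - 1))) ^ 37 := by
          rw [mul_pow, hn, hκ]
          congr 2
          push_cast
          rw [hκ, hd]
      _ ≤ (1 / T ^ (87 * x - 2)) ^ 37 := pow_le_pow_left₀ (by positivity) h3 _
  have h5 : ((a * (a * b) : ℕ) : ℝ) ≤ T ^ (200 * x + 3) := by
    push_cast
    calc (a : ℝ) * (a * b) ≤ T ^ (100 * x + 1) * (T ^ (100 * x + 1) * T) := by
          gcongr
      _ = T ^ (200 * x + 3) := by
          rw [← pow_succ, ← pow_add]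
          congr 1
          omega
  calc ((a * (a * b) : ℕ) : ℝ) * B ≤ T ^ (200 * x + 3) * (1 / T ^ (87 * x - 2)) ^ 37 := by
        refine mul_le_mul h5 h1 ?_ (by positivity)
        rw [hB]; positivity
    _ = T ^ (200 * x + 3) / T ^ (37 * (87 * x - 2)) := by
        rw [div_pow, one_pow, ← pow_mul, mul_one_div, mul_comm 37]
    _ ≤ 1 / T ^ (5 * (100 * x)) := by
        rw [div_le_div_iff₀ (by positivity) (by positivity), one_mul, ← pow_add]
        refine pow_le_pow_right₀ hT1 ?_
        omega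

end A4fX

open A4fX in
/-- (A4), frame points -/
theorem pr_a4f (c : PC) (q : Con) (hc : c.Ok q) : ∀ᶠ t in Filter.atTop,
    Pr (fun ω : Om (c.par t) => Cones (c.kappa t) ω ∧ ¬ (∀ y z, ∀ k ≤ c.h + 1,
      (univ.filter fun v => V (c.par t) k v ≠ y ∧ V (c.par t) k v ≠ z ∧
        Le ω y (V (c.par t) k v) ∧ Le ω (V (c.par t) k v) z).card ≤ q.P))
      ≤ 1 / (t : ℝ) ^ (5 * c.E) := by
  have hP : q.P = 36 := hc.P
  have hlam : 1 ≤ c.lam := by rw [hc.lam]; norm_num
  have hlW : 1 ≤ c.lam ^ (c.W - 1) := Nat.one_le_pow _ _ hlam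
  filter_upwards [card_pt c q hc, Filter.eventually_ge_atTop (c.h + 2)] with t hcard ht
  have ht2 : 2 ≤ t := by omega
  have ht0 : 0 < t := by omega
  have hn : 0 < (c.par t).n := Nat.pow_pos ht0
  set B : ℝ := ((2 * c.kappa t * (c.par t).d).choose 37 : ℝ) *
    ((c.kappa t : ℝ) / (c.par t).n) ^ 37 with hB
  calc Pr (fun ω : Om (c.par t) => Cones (c.kappa t) ω ∧ ¬ (∀ y z, ∀ k ≤ c.h + 1,
      (univ.filter fun v => V (c.par t) k v ≠ y ∧ V (c.par t) k v ≠ z ∧
        Le ω y (V (c.par t) k v) ∧ Le ω (V (c.par t) k v) z).card ≤ q.P))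
      ≤ Pr (fun ω : Om (c.par t) => ∃ i : Pt (c.par t) × Pt (c.par t) × Fin (c.h + 2),
          Cones (c.kappa t) ω ∧ 37 ≤ (Bt ω i.1 i.2.1 i.2.2.val).card) := by
        refine Pr_mono ?_
        rintro ω ⟨h1, h2⟩
        push Not at h2
        obtain ⟨y, z, k, hk, h3⟩ := h2
        refine ⟨(y, z, ⟨k, by omega⟩), h1, ?_⟩
        rw [hP] at h3
        exact h3
    _ ≤ Fintype.card (Pt (c.par t) × Pt (c.par t) × Fin (c.h + 2)) * B := by
        refine Pr_exists _ _ ?_
        intro i
        refine pr_one (C := c.cst) hn _ _ _ _ ?_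
        have h1 : i.2.2.val < c.h + 2 := i.2.2.isLt
        have h2 : c.cst.h = c.h := rfl
        omega
    _ ≤ 1 / (t : ℝ) ^ (5 * c.E) := by
        rw [Fintype.card_prod, Fintype.card_prod, Fintype.card_fin]
        have hE : c.E = 100 * (c.lam ^ (c.W - 1) * (c.h + 2)) := hc.E
        have hx1 : 1 ≤ c.lam ^ (c.W - 1) * (c.h + 2) := by nlinarith
        have hl : c.lam ^ (c.W - 1) ≤ c.lam ^ (c.W - 1) * (c.h + 2) := by nlinarith
        rw [hE]
        refine numeric (t : ℝ) (by exact_mod_cast ht2) _ (c.lam ^ (c.W - 1)) hx1 hl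
          _ _ (c.par t).n (c.kappa t) (c.par t).d B ?_ ?_ ?_ ?_ ?_ hB
        · show ((t ^ (c.E - 1) : ℕ) : ℝ) = _
          rw [hE]; push_cast; rfl
        · show ((t ^ _ : ℕ) : ℝ) = _
          push_cast; rfl
        · show ((t ^ (c.lam ^ (c.W - 1)) : ℕ) : ℝ) = _
          push_cast; rfl
        · have := hcard.1
          rw [hE] at this
          exact_mod_cast this
        · exact_mod_cast ht

end Pool.Agent.AM
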