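import Pool.Agent.AM.Defs2
import Pool.Agent.AM.OrdBlk
import Pool.Agent.AM.Path
import Pool.Agent.AM.PrBasic
import Pool.Agent.AM.CardP
import Pool.Agent.AM.A4fP

set_option autoImplicit false

open scoped Classical
open Finset

noncomputable section

namespace Pool.Agent.AM

namespace A4cX

variable {C : Cst} {p : Par C}

/-- rows which join the levels `k+1` and `k+2` -/
def RK (p : Par C) (k : ℕ) : Set (Row p) := {r | min r.olev r.tlev = k + 1}

/-- a path from a point of a cell to a point outside the cell leaves the cell through an up-row -/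
theorem exit {ω : Om p} {a : Cell p} {z x : Pt p} (hz : ¬ inCell a z) (h : Le ω x z) :
    (∃ e, x = .ce a e) → ∃ (g : Fin (C.K a.j)) (s : Srt) (i : Fin p.d) (x' : Pt p), s.up = true ∧
      (Row.ce a g s).own x' ∧ Le ω x x' ∧
      Le ω (V p (Row.ce a g s).tlev (ω (Row.ce a g s) i)) z := by
  induction h using Relation.ReflTransGen.head_induction_on with
  | refl =>
    rintro ⟨e, he⟩
    exact absurd ⟨e, he⟩ hz
  | @head x y hst hyz ih =>
    rintro ⟨e, rfl⟩
    generalize hb : (Pt.ce a e : Pt p) = b at hst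
    cases hst with
    | up r hr hu _ hx i =>
      subst hb
      cases r with
      | fu k' v' =>
        have h1 : (Pt.ce a e : Pt p) = V p k'.val v' := hx
        exact absurd h1.symm A4fX.V_ne_ce
      | fd k' v' => simp [Row.up] at hu
      | ce c g s =>
        obtain ⟨l, hl⟩ := hx
        simp only [Pt.ce.injEq] at hl
        obtain ⟨rfl, hl⟩ := hl
        obtain rfl := eq_of_heq hl
        exact ⟨g, s, i, _, hu, ⟨l, rfl⟩, Relation.ReflTransGen.refl, hyz⟩
    | dn r hr hu _ hx i => exact absurd hb.symm A4fX.V_ne_ce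
    | cell c a' b' hab =>
      simp only [Pt.ce.injEq] at hb
      obtain ⟨rfl, hb⟩ := hb
      obtain rfl := eq_of_heq hb
      obtain ⟨g, s, i, x', h1, h2, h3, h4⟩ := ih ⟨b', rfl⟩
      refine ⟨g, s, i, x', h1, h2, ?_, h4⟩
      exact Relation.ReflTransGen.head (Step.cell a e b' hab) h3

/-- the trials -/
def Q (ω : Om p) (y : Pt p) (k : ℕ) : Finset (Row p × Fin p.d) :=
  univ.filter fun q => min q.1.olev q.1.tlev = k + 1 ∧
    q.1.up = true ∧ ∃ x, q.1.own x ∧ LeA ω (RK p k) y x

/-- the targets -/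
def Z (ω : Om p) (z : Pt p) (k : ℕ) : Finset (Fin p.n) :=
  univ.filter (fun v => LeA ω (RK p k) (V p (k + 2) v) z)

/-- the cells between `y` and `z` -/
def Bt (ω : Om p) (y z : Pt p) (k : Fin C.h) : Set (Cell p) :=
  {a | a.k = k ∧ ¬ inCell a y ∧ ¬ inCell a z ∧ ∃ e, Le ω y (.ce a e) ∧ Le ω (.ce a e) z}

/-- the cell of a row -/
def rc (r : Row p) : Option (Cell p) :=
  match r with
  | .ce c _ _ => some c
  | _ => none

theorem count_le {ω m : Om p} {y z : Pt p} {k : Fin C.h}
    (hm : ∀ r, r ∉ RK p k.val → m r = ω r) :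
    (Bt m y z k).ncard ≤ ((Q ω y k.val).filter fun q => m q.1 q.2 ∈ Z ω z k.val).card := by
  have hfin : (Bt m y z k).Finite := Set.toFinite _
  rw [Set.ncard_eq_toFinset_card _ hfin]
  rw [← card_image_of_injective hfin.toFinset (Option.some_injective (Cell p))]
  have hsub : hfin.toFinset.image some ⊆
      ((Q ω y k.val).filter fun q => m q.1 q.2 ∈ Z ω z k.val).image (fun q => rc q.1) := by
    intro o ho
    rw [mem_image] at ho
    obtain ⟨a, ha, rfl⟩ := ho
    rw [Set.Finite.mem_toFinset] at ha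
    obtain ⟨hak, -, haz, e, hye, hez⟩ := ha
    obtain ⟨g, s, i, x', hu, hx', hex', hVz⟩ := exit haz hez ⟨e, rfl⟩
    have hol : (Row.ce a g s).olev = k.val + 1 := by
      show a.k.val + 1 = k.val + 1
      rw [hak]
    have hup : (Row.ce a g s).up = true := hu
    have htl := (tlev_le (Row.ce a g s)).2.2.1 hup
    have htle := (tlev_le (Row.ce a g s)).1
    rw [mem_image]
    refine ⟨(Row.ce a g s, i), ?_, rfl⟩
    rw [mem_filter]
    constructor
    · simp only [Q, mem_filter, mem_univ, true_and]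
      refine ⟨by omega, hup, x', hx', ?_⟩
      rw [← leA_congr hm]
      refine leA_of_le_lev (Relation.ReflTransGen.trans hye hex') ?_
      intro r hr
      right
      have h2 : min r.olev r.tlev = k.val + 1 := hr
      have h1 := tlev_le r
      rw [lev_own hx', hol]
      rcases hu' : r.up with _ | _
      · have h3 := h1.2.2.2 hu'
        omega
      · have h3 := h1.2.2.1 hu'
        omega
    · simp only [Z, mem_filter, mem_univ, true_and]
      rw [← leA_congr hm]
      have h5 : (Row.ce a g s).tlev = k.val + 2 := by omega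
      rw [h5] at hVz
      refine leA_of_le_lev hVz ?_
      intro r hr
      left
      have h2 : min r.olev r.tlev = k.val + 1 := hr
      rw [lev_V (by omega)]
      omega
  exact (card_le_card hsub).trans card_image_le

theorem card_Q_le {ω m : Om p} {y : Pt p} {k κ : ℕ} (hm : ∀ r, r ∉ RK p k → m r = ω r)
    (hc : Cones κ m) : (Q ω y k).card ≤ 2 * κ * p.d := by
  have hsub : Q ω y k ⊆ (univ.filter fun r : Row p => ∃ x, r.own x ∧ Le m y x) ×ˢ
      (univ : Finset (Fin p.d)) := by
    intro q hq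
    simp only [Q, mem_filter, mem_univ, true_and] at hq
    simp only [mem_product, mem_filter, mem_univ, true_and, and_true]
    obtain ⟨-, -, x, hx, hyx⟩ := hq
    exact ⟨x, hx, le_of_leA ((leA_congr hm y x).2 hyx)⟩
  calc (Q ω y k).card ≤ _ := card_le_card hsub
    _ ≤ 2 * κ * p.d := by
        rw [card_product, card_univ, Fintype.card_fin]
        refine Nat.mul_le_mul_right _ ?_
        have h2 := hc.ru y
        omega

theorem card_Z_le {ω m : Om p} {z : Pt p} {k κ : ℕ} (hk : k + 2 ≤ C.h + 1)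
    (hm : ∀ r, r ∉ RK p k → m r = ω r)
    (hc : Cones κ m) : (Z ω z k).card ≤ κ := by
  refine le_trans (card_le_card ?_) (hc.d z (k + 2) hk)
  intro v hv
  simp only [Z, mem_filter, mem_univ, true_and] at hv ⊢
  exact le_of_leA ((leA_congr hm _ _).2 hv)

theorem pr_one (hn : 0 < p.n) (κ s : ℕ) (y z : Pt p) (k : Fin C.h) :
    Pr (fun ω : Om p => Cones κ ω ∧ s ≤ (Bt ω y z k).ncard)
      ≤ ((2 * κ * p.d).choose s : ℝ) * ((κ : ℝ) / p.n) ^ s := by
  have : Nonempty (Fin p.n) := ⟨⟨0, hn⟩⟩
  have hB0 : 0 ≤ ((2 * κ * p.d).choose s : ℝ) * ((κ : ℝ) / p.n) ^ s := by positivity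
  have hk : k.val + 2 ≤ C.h + 1 := by have := k.isLt; omega
  refine Pr_rows (RK p k.val) _ _ ?_
  intro ω
  have hm : ∀ ω' : Om p, ∀ r, r ∉ RK p k.val →
      (fun i => if i ∈ RK p k.val then ω' i else ω i) r = ω r := by
    intro ω' r hr
    simp [hr]
  by_cases hb : (Q ω y k.val).card ≤ 2 * κ * p.d ∧ (Z ω z k.val).card ≤ κ
  · calc Pr (fun ω' : Om p => Cones κ (fun i => if i ∈ RK p k.val then ω' i else ω i) ∧
          s ≤ (Bt (fun i => if i ∈ RK p k.val then ω' i else ω i) y z k).ncard)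
        ≤ Pr (fun ω' : Om p => s ≤ ((Q ω y k.val).filter fun q =>
            ω' q.1 q.2 ∈ Z ω z k.val).card) := by
          refine Pr_mono ?_
          rintro ω' ⟨-, h2⟩
          refine h2.trans ((count_le (hm ω')).trans (le_of_eq ?_))
          congr 1
          refine filter_congr ?_
          intro q hq
          have hq' : q.1 ∈ RK p k.val := by
            simp only [Q, mem_filter, mem_univ, true_and] at hq
            exact hq.1
          simp only [hq', if_true]
      _ ≤ ((Q ω y k.val).card.choose s : ℝ) * ((κ : ℝ) / p.n) ^ s :=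
          Pr_hits hn _ (fun _ => Z ω z k.val) κ s (fun q _ => hb.2)
      _ ≤ _ := by
          refine mul_le_mul_of_nonneg_right ?_ (by positivity)
          exact_mod_cast Nat.choose_le_choose s hb.1
  · rw [A4fX.Pr_false]
    · exact hB0
    · rintro ω' ⟨h1, -⟩
      exact hb ⟨card_Q_le (hm ω') h1, card_Z_le hk (hm ω') h1⟩

end A4cX

open A4cX in
/-- (A4), cells -/
theorem pr_a4c (c : PC) (q : Con) (hc : c.Ok q) : ∀ᶠ t in Filter.atTop,
    Pr (fun ω : Om (c.par t) => Cones (c.kappa t) ω ∧ ¬ (∀ y z, ∀ k : Fin c.cst.h,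
      {a : Cell (c.par t) | a.k = k ∧ ¬ inCell a y ∧ ¬ inCell a z ∧
        ∃ e, Le ω y (.ce a e) ∧ Le ω (.ce a e) z}.ncard ≤ q.P))
      ≤ 1 / (t : ℝ) ^ (5 * c.E) := by
  have hP : q.P = 36 := hc.P
  have hlam : 1 ≤ c.lam := by rw [hc.lam]; norm_num
  have hlW : 1 ≤ c.lam ^ (c.W - 1) := Nat.one_le_pow _ _ hlam
  filter_upwards [card_pt c q hc, Filter.eventually_ge_atTop (c.h + 2)] with t hcard ht
  have ht2 : 2 ≤ t := by omega
  have ht0 : 0 < t := by omega
  have hn : 0 < (c.par t).n := Nat.pow_pos ht0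
  set B : ℝ := ((2 * c.kappa t * (c.par t).d).choose 37 : ℝ) *
    ((c.kappa t : ℝ) / (c.par t).n) ^ 37 with hB
  calc Pr (fun ω : Om (c.par t) => Cones (c.kappa t) ω ∧ ¬ (∀ y z, ∀ k : Fin c.cst.h,
      {a : Cell (c.par t) | a.k = k ∧ ¬ inCell a y ∧ ¬ inCell a z ∧
        ∃ e, Le ω y (.ce a e) ∧ Le ω (.ce a e) z}.ncard ≤ q.P))
      ≤ Pr (fun ω : Om (c.par t) => ∃ i : Pt (c.par t) × Pt (c.par t) × Fin c.h,
          Cones (c.kappa t) ω ∧ 37 ≤ (Bt ω i.1 i.2.1 (i.2.2 : Fin c.cst.h)).ncard) := by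
        refine Pr_mono ?_
        rintro ω ⟨h1, h2⟩
        push Not at h2
        obtain ⟨y, z, k, h3⟩ := h2
        refine ⟨(y, z, k), h1, ?_⟩
        rw [hP] at h3
        exact h3
    _ ≤ Fintype.card (Pt (c.par t) × Pt (c.par t) × Fin c.h) * B := by
        refine Pr_exists _ _ ?_
        intro i
        exact pr_one (C := c.cst) hn _ _ _ _ _
    _ ≤ 1 / (t : ℝ) ^ (5 * c.E) := by
        rw [Fintype.card_prod, Fintype.card_prod, Fintype.card_fin]
        have hE : c.E = 100 * (c.lam ^ (c.W - 1) * (c.h + 2)) := hc.E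
        have hx1 : 1 ≤ c.lam ^ (c.W - 1) * (c.h + 2) := by nlinarith
        have hl : c.lam ^ (c.W - 1) ≤ c.lam ^ (c.W - 1) * (c.h + 2) := by nlinarith
        rw [hE]
        refine A4fX.numeric (t : ℝ) (by exact_mod_cast ht2) _ (c.lam ^ (c.W - 1)) hx1 hl
          _ _ (c.par t).n (c.kappa t) (c.par t).d B ?_ ?_ ?_ ?_ ?_ hB
        · show ((t ^ (c.E - 1) : ℕ) : ℝ) = _
          rw [hE]; push_cast; rfl
        · show ((t ^ _ : ℕ) : ℝ) = _
          push_cast; rfl
        · show ((t ^ (c.lam ^ (c.W - 1)) : ℕ) : ℝ) = _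
          push_cast; rfl
        · have := hcard.1
          rw [hE] at this
          exact_mod_cast this
        · have : c.h ≤ t := by omega
          exact_mod_cast this

end Pool.Agent.AM
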