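import Pool.Agent.AM.Defs2

set_option autoImplicit false

/-!
# (A5) for all cells, from `Thin`
-/

open scoped Classical
open Finset

noncomputable section

namespace Pool.Agent.AM

variable {C : Cst} {p : Par C}

namespace A5D

theorem dn_le (ω : Om p) (c : Cell p) (g : Fin (C.K c.j)) (s : Srt) (hs : s.up = false)
    (i : Fin p.d) (l : Fin (p.T c.j)) :
    Le ω (V p c.k.val (ω (.ce c g s) i)) (.ce c (g, s, l)) := by
  have h := Step.dn (ω := ω) (R := ∅) (.ce c g s) (Set.notMem_empty _) hs (.ce c (g, s, l))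
    ⟨l, rfl⟩ i
  have ht : (Row.ce c g s : Row p).tlev = c.k.val := by
    simp [Row.tlev, hs]
  rw [ht] at h
  exact Relation.ReflTransGen.single h

theorem le_up (ω : Om p) (c : Cell p) (g : Fin (C.K c.j)) (s : Srt) (hs : s.up = true)
    (i : Fin p.d) (l : Fin (p.T c.j)) :
    Le ω (.ce c (g, s, l)) (V p (c.k.val + 2) (ω (.ce c g s) i)) := by
  have h := Step.up (ω := ω) (R := ∅) (.ce c g s) (Set.notMem_empty _) hs (.ce c (g, s, l))
    ⟨l, rfl⟩ i
  have ht : (Row.ce c g s : Row p).tlev = c.k.val + 2 := by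
    simp [Row.tlev, hs]
  rw [ht] at h
  exact Relation.ReflTransGen.single h

end A5D

open A5D

/-- (A5): every cell is pinned from below -/
theorem a5l_of (ω : Om p) (hd : 0 < p.d) (h1 : Thin ω) (c : Cell p) :
    LowReg (Le ω) c ∅ := by
  intro g s hs
  refine ⟨⟨ω (.ce c g s) ⟨0, hd⟩, Finset.notMem_empty _, fun l => dn_le ω c g s hs _ l⟩, ?_⟩
  intro z hz
  by_contra hcon
  push Not at hcon
  have h2 := h1.2 (.ce c g s) z hs (by
    rintro x ⟨l, rfl⟩
    exact hcon l)
  have ht : (Row.ce c g s : Row p).tlev = c.k.val := by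
    simp [Row.tlev, hs]
  rw [ht] at h2
  have h3 : (univ.filter fun i => Le ω (V p c.k.val (ω (.ce c g s) i)) z) = univ := by
    rw [Finset.filter_eq_self]
    intro i _
    exact hz _ (Finset.notMem_empty _) fun l => dn_le ω c g s hs i l
  rw [h3, Finset.card_univ, Fintype.card_fin] at h2
  omega

/-- (A5): every cell is pinned from above -/
theorem a5u_of (ω : Om p) (hd : 0 < p.d) (h1 : Thin ω) (c : Cell p) :
    UpReg (Le ω) c ∅ := by
  intro g s hs
  refine ⟨⟨ω (.ce c g s) ⟨0, hd⟩, Finset.notMem_empty _, fun l => le_up ω c g s hs _ l⟩, ?_⟩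
  intro z hz
  by_contra hcon
  push Not at hcon
  have h2 := h1.1 (.ce c g s) z hs (by
    rintro x ⟨l, rfl⟩
    exact hcon l)
  have ht : (Row.ce c g s : Row p).tlev = c.k.val + 2 := by
    simp [Row.tlev, hs]
  rw [ht] at h2
  have h3 : (univ.filter fun i => Le ω z (V p (c.k.val + 2) (ω (.ce c g s) i))) = univ := by
    rw [Finset.filter_eq_self]
    intro i _
    exact hz _ (Finset.notMem_empty _) fun l => le_up ω c g s hs i l
  rw [h3, Finset.card_univ, Fintype.card_fin] at h2
  omega

end Pool.Agent.AM
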