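import Pool.Agent.AM.Defs2
import Pool.Agent.AM.OrdBlk
import Pool.Agent.AM.Path
import Pool.Agent.AM.A5D

set_option autoImplicit false

open scoped Classical
open Finset

noncomputable section

namespace Pool.Agent.AM

variable {C : Cst} {p : Par C}

namespace A6D

/-- if fewer than half of the picks are in `S`, then at least half of them are outside, hence some
are, and they cannot be contained in a set of less than a quarter -/
theorem quarter {d : ℕ} {A B : Fin d → Prop} [DecidablePred A] [DecidablePred B]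
    (hA : 2 * (univ.filter A).card < d) (hB : 4 * (univ.filter B).card < d) :
    ∃ i, ¬ A i ∧ ¬ B i := by
  by_contra hcon
  have h1 : (univ : Finset (Fin d)) ⊆ univ.filter A ∪ univ.filter B := by
    intro i _
    by_cases hi : A i
    · exact mem_union_left _ (mem_filter.2 ⟨mem_univ _, hi⟩)
    · refine mem_union_right _ (mem_filter.2 ⟨mem_univ _, ?_⟩)
      by_contra hj
      exact hcon ⟨i, hi, hj⟩
  have h2 := (card_le_card h1).trans (card_union_le _ _)
  rw [card_univ, Fintype.card_fin] at h2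
  omega

theorem some_out {d : ℕ} {A : Fin d → Prop} [DecidablePred A]
    (hA : 2 * (univ.filter A).card < d) : ∃ i, ¬ A i := by
  by_contra hcon
  push Not at hcon
  have h3 : (univ.filter A) = univ := by
    rw [Finset.filter_eq_self]
    intro i _
    exact hcon i
  rw [h3, Finset.card_univ, Fintype.card_fin] at hA
  omega

/-- a cell is pinned from below if every lower sort has fewer than half of its picks in `S` -/
theorem low_of (ω : Om p) (h1 : Thin ω) (c : Cell p) (S : Finset (Fin p.n))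
    (h : ∀ (g : Fin (C.K c.j)) (s : Srt), s.up = false →
      ¬ p.d ≤ 2 * (univ.filter fun i => ω (.ce c g s) i ∈ S).card) : LowReg (Le ω) c S := by
  intro g s hs
  have h2 := not_le.1 (h g s hs)
  obtain ⟨i, hi⟩ := some_out h2
  refine ⟨⟨ω (.ce c g s) i, hi, fun l => A5D.dn_le ω c g s hs _ l⟩, ?_⟩
  intro z hz
  by_contra hcon
  push Not at hcon
  have h3 := h1.2 (.ce c g s) z hs (by
    rintro x ⟨l, rfl⟩
    exact hcon l)
  have ht : (Row.ce c g s : Row p).tlev = c.k.val := by
    simp [Row.tlev, hs]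
  rw [ht] at h3
  obtain ⟨i, hi, hj⟩ := quarter h2 h3
  exact hj (hz _ hi fun l => A5D.dn_le ω c g s hs i l)

/-- a cell is pinned from above if every upper sort has fewer than half of its picks in `S` -/
theorem up_of (ω : Om p) (h1 : Thin ω) (c : Cell p) (S : Finset (Fin p.n))
    (h : ∀ (g : Fin (C.K c.j)) (s : Srt), s.up = true →
      ¬ p.d ≤ 2 * (univ.filter fun i => ω (.ce c g s) i ∈ S).card) : UpReg (Le ω) c S := by
  intro g s hs
  have h2 := not_le.1 (h g s hs)
  obtain ⟨i, hi⟩ := some_out h2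
  refine ⟨⟨ω (.ce c g s) i, hi, fun l => A5D.le_up ω c g s hs _ l⟩, ?_⟩
  intro z hz
  by_contra hcon
  push Not at hcon
  have h3 := h1.1 (.ce c g s) z hs (by
    rintro x ⟨l, rfl⟩
    exact hcon l)
  have ht : (Row.ce c g s : Row p).tlev = c.k.val + 2 := by
    simp [Row.tlev, hs]
  rw [ht] at h3
  obtain ⟨i, hi, hj⟩ := quarter h2 h3
  exact hj (hz _ hi fun l => A5D.le_up ω c g s hs i l)

end A6D

/-- (A6), deterministic part (uses (A5) = `Thin` for the rows of sorts) -/
theorem a6l_of (q : Con) (ω : Om p) (h1 : Thin ω) (h2 : RegE q ω) :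
    ∀ (k : Fin C.h) (j : Fin C.W) (S : Finset (Fin p.n)), (S.card : ℝ) ≤ q.kap * p.n →
    ((univ.filter fun c : Fin (p.N j) => ¬ LowReg (Le ω) ⟨k, j, c⟩ S).card : ℝ)
      ≤ q.dlt * p.N j := by
  intro k j S hS
  refine le_trans (Nat.cast_le.2 (card_le_card ?_)) (h2 false k j S hS)
  intro c hc
  rw [mem_filter] at hc ⊢
  refine ⟨mem_univ _, ?_⟩
  by_contra hcon
  refine hc.2 (A6D.low_of ω h1 ⟨k, j, c⟩ S fun g s hs hd => hcon ⟨g, s, hs, hd⟩)

/-- (A5) for every cell -/
theorem a5_of (ω : Om p) (h1 : Thin ω) (hd : 0 < p.d) (c : Cell p) :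
    LowReg (Le ω) c ∅ ∧ UpReg (Le ω) c ∅ :=
  ⟨a5l_of ω hd h1 c, a5u_of ω hd h1 c⟩

theorem a6u_of (q : Con) (ω : Om p) (h1 : Thin ω) (h2 : RegE q ω) :
    ∀ (k : Fin C.h) (j : Fin C.W) (S : Finset (Fin p.n)), (S.card : ℝ) ≤ q.kap * p.n →
    ((univ.filter fun c : Fin (p.N j) => ¬ UpReg (Le ω) ⟨k, j, c⟩ S).card : ℝ)
      ≤ q.dlt * p.N j := by
  intro k j S hS
  refine le_trans (Nat.cast_le.2 (card_le_card ?_)) (h2 true k j S hS)
  intro c hc
  rw [mem_filter] at hc ⊢
  refine ⟨mem_univ _, ?_⟩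
  by_contra hcon
  refine hc.2 (A6D.up_of ω h1 ⟨k, j, c⟩ S fun g s hs hd => hcon ⟨g, s, hs, hd⟩)

end Pool.Agent.AM
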