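import Pool.Agent.AM.TowOrd

set_option autoImplicit false

/-!
# MP_61102a_co, S09118 : many automorphisms (permutations of the labels of the gadgets)
-/

open scoped Classical
open Finset

noncomputable section

namespace Pool.Agent.AM.AutLow

open TowOrd

variable {C : Cst}

/-- label permutations of all gadgets of a block -/
abbrev GP (p : Par C) : Type := ∀ c : Cell p, Fin (C.K c.j) → Equiv.Perm (Fin (p.T c.j))

/-- the action on the points -/
def gp {p : Par C} (s : GP p) : Pt p → Pt p
  | .fr k v => .fr k v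
  | .ce c e => .ce c (e.1, e.2.1, s c e.1 e.2.2)

/-- the inverse family -/
def gpInv {p : Par C} (s : GP p) : GP p := fun c g => (s c g)⁻¹

theorem gp_inv_gp {p : Par C} (s : GP p) (x : Pt p) : gp (gpInv s) (gp s x) = x := by
  cases x with
  | fr k v => rfl
  | ce c e =>
      obtain ⟨g, st, l⟩ := e
      simp [gp, gpInv]

theorem gp_gp_inv {p : Par C} (s : GP p) (x : Pt p) : gp s (gp (gpInv s) x) = x := by
  cases x with
  | fr k v => rfl
  | ce c e =>
      obtain ⟨g, st, l⟩ := e
      simp [gp, gpInv]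

theorem gp_V {p : Par C} (s : GP p) (k : ℕ) (v : Fin p.n) : gp s (V p k v) = V p k v := rfl

theorem gp_own {p : Par C} (s : GP p) (r : Row p) (x : Pt p) (hx : r.own x) :
    r.own (gp s x) := by
  cases r with
  | fu k v =>
      have : x = V p k.val v := hx
      rw [this]
      exact gp_V s _ _
  | fd k v =>
      have : x = V p (k.val + 1) v := hx
      rw [this]
      exact gp_V s _ _
  | ce c g st =>
      obtain ⟨l, rfl⟩ := (hx : ∃ l, x = .ce c (g, st, l))
      exact ⟨s c g l, rfl⟩

theorem GLt_perm {T : ℕ} (σ : Equiv.Perm (Fin T)) (a : Srt) (l : Fin T) (b : Srt) (l' : Fin T)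
    (h : GLt a l b l') : GLt a (σ l) b (σ l') := by
  cases a <;> cases b <;> simp_all [GLt]

theorem gp_step {p : Par C} (ω : Om p) (R : Set (Row p)) (s : GP p) (x y : Pt p)
    (h : Step ω R x y) : Step ω R (gp s x) (gp s y) := by
  cases h with
  | up r hr hu x hx i => exact Step.up r hr hu _ (gp_own s r x hx) i
  | dn r hr hu x hx i => exact Step.dn r hr hu _ (gp_own s r _ hx) i
  | cell c a b hab =>
      refine Step.cell c _ _ ?_
      obtain ⟨g, st, l⟩ := a
      obtain ⟨g', st', l'⟩ := b
      rcases hab with hlt | ⟨heq, hg⟩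
      · exact Or.inl hlt
      · have heq' : g = g' := heq
        subst heq'
        exact Or.inr ⟨rfl, GLt_perm _ _ _ _ _ hg⟩

theorem gp_le {p : Par C} (ω : Om p) (s : GP p) {x y : Pt p} (h : Le ω x y) :
    Le ω (gp s x) (gp s y) :=
  Relation.ReflTransGen.lift (f := gp s) (fun _ _ h => gp_step ω ∅ s _ _ h) _ _ h

/-! ### the number of label permutations -/

theorem card_GP (p : Par C) : Nat.card (GP p) = aR p := by
  rw [Nat.card_pi]
  have h1 : ∀ c : Cell p, Nat.card (Fin (C.K c.j) → Equiv.Perm (Fin (p.T c.j))) =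
      ((p.T c.j).factorial) ^ (C.K c.j) := by
    intro c
    rw [Nat.card_fun, Nat.card_perm]
    simp
  simp only [h1]
  rw [Fintype.prod_equiv (cellEquiv p) (fun c : Cell p => ((p.T c.j).factorial) ^ (C.K c.j))
    (fun x => ((p.T x.1).factorial) ^ (C.K x.1)) (fun c => rfl)]
  rw [Fintype.prod_sigma]
  unfold aR
  refine Finset.prod_congr rfl fun j _ => ?_
  change ∏ _y : Fin C.h × Fin (p.N j), (p.T j).factorial ^ C.K j = _
  rw [Finset.prod_const, ← pow_mul]
  simp only [Finset.card_univ, Fintype.card_prod, Fintype.card_fin]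
  congr 1
  ring

/-! ### the automorphisms of a part -/

variable {par : ℕ → Par C}

/-- label permutations of the blocks `lo..hi` -/
abbrev TG (par : ℕ → Par C) (lo hi : ℕ) : Type :=
  ∀ m : {m : ℕ // m ∈ Finset.Icc lo hi}, GP (par m.1)

/-- the action on the tower -/
def tg {lo hi : ℕ} (s : TG par lo hi) : TP par → TP par
  | .top => .top
  | .pt m x => if h : m ∈ Finset.Icc lo hi then .pt m (gp (s ⟨m, h⟩) x) else .pt m x

theorem tg_pt {lo hi : ℕ} (s : TG par lo hi) {m : ℕ} (h : m ∈ Finset.Icc lo hi)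
    (x : Pt (par m)) : tg s (.pt m x) = .pt m (gp (s ⟨m, h⟩) x) := dif_pos h

theorem tg_inT {lo hi : ℕ} (s : TG par lo hi) {b : Prop} {x : TP par}
    (hx : inT par lo hi b x) : inT par lo hi b (tg s x) := by
  cases x with
  | top => exact hx
  | pt m x =>
      have h : lo ≤ m ∧ m ≤ hi := hx
      rw [tg_pt s (Finset.mem_Icc.2 h)]
      exact h

/-- the inverse family -/
def tgInv {lo hi : ℕ} (s : TG par lo hi) : TG par lo hi := fun m => gpInv (s m)

theorem tg_inv_tg {lo hi : ℕ} (s : TG par lo hi) (x : TP par) : tg (tgInv s) (tg s x) = x := by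
  cases x with
  | top => rfl
  | pt m x =>
      by_cases h : m ∈ Finset.Icc lo hi
      · rw [tg_pt s h, tg_pt (tgInv s) h]
        change TP.pt m (gp (gpInv (s ⟨m, h⟩)) (gp (s ⟨m, h⟩) x)) = _
        rw [gp_inv_gp]
      · have h1 : tg s (.pt m x) = .pt m x := dif_neg h
        rw [h1]
        exact dif_neg h

theorem tg_tg_inv {lo hi : ℕ} (s : TG par lo hi) (x : TP par) : tg s (tg (tgInv s) x) = x := by
  cases x with
  | top => rfl
  | pt m x =>
      by_cases h : m ∈ Finset.Icc lo hi
      · rw [tg_pt (tgInv s) h, tg_pt s h]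
        change TP.pt m (gp (s ⟨m, h⟩) (gp (gpInv (s ⟨m, h⟩)) x)) = _
        rw [gp_gp_inv]
      · have h1 : tg (tgInv s) (.pt m x) = .pt m x := dif_neg h
        rw [h1]
        exact dif_neg h

variable (ω : ∀ m, Om (par m))

theorem tg_mono {lo hi : ℕ} (s : TG par lo hi) {b : Prop} {x y : TP par}
    (hx : inT par lo hi b x) (hy : inT par lo hi b y)
    (h : TLe (fun m => Le (ω m)) x y) : TLe (fun m => Le (ω m)) (tg s x) (tg s y) := by
  cases h with
  | top x => exact TLe.top _
  | lt h x x' =>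
      rw [tg_pt s (Finset.mem_Icc.2 hx), tg_pt s (Finset.mem_Icc.2 hy)]
      exact TLe.lt h _ _
  | eq h =>
      rw [tg_pt s (Finset.mem_Icc.2 hx), tg_pt s (Finset.mem_Icc.2 hx)]
      exact TLe.eq (gp_le (ω _) _ h)

/-- the automorphism of the part -/
def tgIso {lo hi : ℕ} {b : Prop} (hB : ∀ m, lo ≤ m → m ≤ hi → BlkOrd (Le (ω m)))
    (s : TG par lo hi) :
    letI := partOrd (b := b) (le := fun m => Le (ω m)) hB
    Part par lo hi b ≃o Part par lo hi b :=
  letI := partOrd (b := b) (le := fun m => Le (ω m)) hB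
  { toFun := fun x => ⟨tg s x.1, tg_inT s x.2⟩
    invFun := fun x => ⟨tg (tgInv s) x.1, tg_inT (tgInv s) x.2⟩
    left_inv := fun x => Subtype.ext (tg_inv_tg s x.1)
    right_inv := fun x => Subtype.ext (tg_tg_inv s x.1)
    map_rel_iff' := by
      intro x y
      constructor
      · intro h
        have h1 := tg_mono ω (tgInv s) (tg_inT s x.2) (tg_inT s y.2) h
        rw [tg_inv_tg, tg_inv_tg] at h1
        exact h1
      · intro h
        exact tg_mono ω s x.2 y.2 h }

theorem tg_inj {lo hi : ℕ} {b : Prop} (s s' : TG par lo hi)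
    (h : ∀ x : TP par, inT par lo hi b x → tg s x = tg s' x) : s = s' := by
  funext m c g
  obtain ⟨m, hm⟩ := m
  refine Equiv.ext fun l => ?_
  have h1 := h (.pt m (.ce c (g, .A, l))) (Finset.mem_Icc.1 hm)
  rw [tg_pt s hm, tg_pt s' hm] at h1
  simp only [TP.pt.injEq, heq_eq_eq, true_and, gp, Pt.ce.injEq, Prod.mk.injEq] at h1
  exact h1

/-- **many automorphisms** -/
theorem aut_low {lo hi : ℕ} {b : Prop} (hB : ∀ m, lo ≤ m → m ≤ hi → BlkOrd (Le (ω m))) :
    letI := partOrd (b := b) (le := fun m => Le (ω m)) hB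
    ∏ m ∈ Finset.Icc lo hi, aR (par m) ≤ Nat.card (Part par lo hi b ≃o Part par lo hi b) := by
  let _ := partOrd (b := b) (le := fun m => Le (ω m)) hB
  have h1 : Nat.card (TG par lo hi) = ∏ m ∈ Finset.Icc lo hi, aR (par m) := by
    rw [Nat.card_pi]
    rw [Finset.prod_congr rfl (fun m _ => card_GP (par m.1))]
    exact Finset.prod_coe_sort (Finset.Icc lo hi) (fun m => aR (par m))
  rw [← h1]
  have hfin : Finite (Part par lo hi b ≃o Part par lo hi b) :=
    Finite.of_injective (fun e : Part par lo hi b ≃o Part par lo hi b => (e : _ → _))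
      (fun e e' h => by
        apply OrderIso.ext
        exact h)
  refine Nat.card_le_card_of_injective (fun s => tgIso (b := b) ω hB s) ?_
  intro s s' hs
  refine tg_inj (b := b) s s' fun x hx => ?_
  have h2 := congrArg (fun e : Part par lo hi b ≃o Part par lo hi b => (e ⟨x, hx⟩).1) hs
  exact h2

end Pool.Agent.AM.AutLow
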