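import Pool.Agent.AM.S7Defs

set_option autoImplicit false

open scoped Classical
open Finset

noncomputable section

namespace Pool.Agent.AM

variable {C : Cst}

namespace CcSum

/-- number of cells between two points (proof by helper35) -/
theorem cc_sum {q : Con} {p : Par C} {le : Pt p → Pt p → Prop} (hg : GoodBlk q p le) (y z : Pt p) :
    (univ.filter fun c' : Cell p => ∃ e, le y (.ce c' e) ∧ le (.ce c' e) z).card ≤
      (q.P + 2) * (lev z - lev y + 1) := by
  set A : Fin C.h → Finset (Cell p) := fun k => univ.filter fun c => c.k = k ∧ ¬ inCell c y ∧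
    ¬ inCell c z ∧ ∃ e, le y (.ce c e) ∧ le (.ce c e) z with hA
  have hAc : ∀ k, (A k).card ≤ q.P := by
    intro k
    have := hg.a4c y z k
    rw [Set.ncard_eq_toFinset_card'] at this
    convert this using 2
    ext c
    simp [hA]
  have hone : ∀ w : Pt p, (univ.filter fun c : Cell p => inCell c w).card ≤ 1 := by
    intro w
    rw [card_le_one]
    intro c hc c' hc'
    rw [mem_filter] at hc hc'
    obtain ⟨-, e, he⟩ := hc
    obtain ⟨-, e', he'⟩ := hc'
    rw [he, Pt.ce.injEq] at he'
    exact he'.1
  set L : Finset (Fin C.h) := univ.filter fun k : Fin C.h =>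
    lev y ≤ k.val + 1 ∧ k.val + 1 ≤ lev z with hL
  have hLc : L.card ≤ lev z - lev y + 1 := by
    have h1 : L.image (fun k : Fin C.h => k.val + 1) ⊆ Icc (lev y) (lev z) := by
      intro x hx
      rw [mem_image] at hx
      obtain ⟨k, hk, rfl⟩ := hx
      rw [hL, mem_filter] at hk
      rw [mem_Icc]
      exact hk.2
    have h2 : (L.image (fun k : Fin C.h => k.val + 1)).card = L.card := by
      apply card_image_of_injective
      intro a b h
      apply Fin.ext
      simp only at h
      omega
    have h3 := card_le_card h1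
    rw [h2, Nat.card_Icc] at h3
    omega
  have h1 : (univ.filter fun c' : Cell p => ∃ e, le y (.ce c' e) ∧ le (.ce c' e) z) ⊆
      ((univ.filter fun c : Cell p => inCell c y) ∪
      (univ.filter fun c : Cell p => inCell c z)) ∪ L.biUnion A := by
    intro c hc
    rw [mem_filter] at hc
    obtain ⟨-, e, h2⟩ := hc
    rw [mem_union, mem_union, mem_filter, mem_filter, mem_biUnion]
    by_cases hy : inCell c y
    · exact Or.inl (Or.inl ⟨mem_univ _, hy⟩)
    by_cases hz : inCell c z
    · exact Or.inl (Or.inr ⟨mem_univ _, hz⟩)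
    refine Or.inr ⟨c.k, ?_, ?_⟩
    · rw [hL, mem_filter]
      exact ⟨mem_univ _, hg.ord.lev_mono _ _ h2.1, hg.ord.lev_mono _ _ h2.2⟩
    · rw [hA, mem_filter]
      exact ⟨mem_univ _, rfl, hy, hz, e, h2.1, h2.2⟩
  refine (card_le_card h1).trans ((card_union_le _ _).trans ?_)
  have h3 : (L.biUnion A).card ≤ L.card * q.P := card_biUnion_le_card_mul _ _ q.P fun k _ => hAc k
  have h4 := (card_union_le (univ.filter fun c : Cell p => inCell c y)
      (univ.filter fun c : Cell p => inCell c z))
  have h5 := hone y
  have h6 := hone z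
  have h7 : L.card * q.P ≤ (lev z - lev y + 1) * q.P := Nat.mul_le_mul_right _ hLc
  nlinarith [h7]

end CcSum

variable {p : Par C} {le : Pt p → Pt p → Prop} {q : Con}

/-- number of cells between two points of a block: at most `P` per level (a4c) and the cells of
`yl`, `yu` -/
theorem cc_sum (hg : GoodBlk q p le) (yl yu : Pt p) :
    ∑ j : Fin C.W, cc le yl yu j ≤ (q.P + 2) * (lev yu - lev yl + 1) := by
  have h1 := CcSum.cc_sum hg yl yu
  have h2 : ∑ j : Fin C.W, cc le yl yu j =
      (univ.filter fun c' : Cell p => ∃ e, le yl (.ce c' e) ∧ le (.ce c' e) yu).card := by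
    unfold cc
    rw [← card_biUnion]
    · congr 1
      ext c'
      simp
    · intro j _ j' _ hjj
      rw [Function.onFun, Finset.disjoint_left]
      intro c' h3 h4
      rw [mem_filter] at h3 h4
      exact hjj (h3.2.1.symm.trans h4.2.1)
  rw [h2]
  exact h1

end Pool.Agent.AM
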