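import Mathlib

set_option autoImplicit false

/-!
# Section 7, abstract lemmas: chains of gadgets mapped into a finite part of an ordered set

`le` is a relation on `X`, `D` a finite set (the allowed values), on which `le` is transitive.
-/

open scoped Classical
open Finset

namespace Pool.Agent.AM

section chain

variable {X : Type*} {K : ℕ}

/-- The values available to gadget `g` when the marked point of gadget `g'` is sent to `r g'`. -/
noncomputable def Intv (le : X → X → Prop) (D : Finset X) (r : Fin K → X) (g : Fin K) : Finset X :=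
  D.filter fun x => (∀ g', g' < g → le (r g') x) ∧ (∀ g', g < g' → le x (r g'))

lemma mem_Intv {le : X → X → Prop} {D : Finset X} {r : Fin K → X} {g : Fin K} {x : X} :
    x ∈ Intv le D r g ↔ x ∈ D ∧ (∀ g', g' < g → le (r g') x) ∧ (∀ g', g < g' → le x (r g')) := by
  simp [Intv]

/-- **(7C)** Number of monotone maps of a cell. -/
theorem card_chain_le {Q : Type*} [Fintype Q] [Nonempty Q] (le : X → X → Prop) (D : Finset X)
    (Φ : Finset (Fin K → Q → X))
    (h1 : ∀ φ ∈ Φ, ∀ g g' : Fin K, g < g' → ∀ q q' : Q, le (φ g q) (φ g' q'))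
    (h2 : ∀ φ ∈ Φ, ∀ g q, φ g q ∈ D) (B : ℝ) (hB0 : 0 ≤ B)
    (hB : ∀ r : Fin K → X, (∀ g g' : Fin K, g < g' → le (r g) (r g')) → (∀ g, r g ∈ D) →
      ∏ g, ((Intv le D r g).card : ℝ) ^ Fintype.card Q ≤ B) :
    (Φ.card : ℝ) ≤ (D.card : ℝ) ^ K * B := by
  obtain ⟨q0⟩ := (inferInstance : Nonempty Q)
  set ρ : (Fin K → Q → X) → (Fin K → X) := fun φ g => φ g q0 with hρ
  have hfib : ∀ r ∈ Φ.image ρ, (((Φ.filter fun φ => ρ φ = r).card : ℕ) : ℝ) ≤ B := by
    intro r hr
    rw [Finset.mem_image] at hr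
    obtain ⟨φ0, hφ0, rfl⟩ := hr
    refine le_trans ?_ (hB (ρ φ0) (fun g g' h => h1 φ0 hφ0 g g' h q0 q0) (fun g => h2 φ0 hφ0 g q0))
    have hsub : (Φ.filter fun φ => ρ φ = ρ φ0) ⊆
        Fintype.piFinset fun g : Fin K => Fintype.piFinset fun _ : Q => Intv le D (ρ φ0) g := by
      intro φ hφ
      rw [Finset.mem_filter] at hφ
      rw [Fintype.mem_piFinset]
      intro g
      rw [Fintype.mem_piFinset]
      intro q
      rw [mem_Intv]
      refine ⟨h2 φ hφ.1 g q, ?_, ?_⟩
      · intro g' hg'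
        rw [← hφ.2]
        exact h1 φ hφ.1 g' g hg' q0 q
      · intro g' hg'
        rw [← hφ.2]
        exact h1 φ hφ.1 g g' hg' q q0
    have hc := Finset.card_le_card hsub
    rw [Fintype.card_piFinset] at hc
    have h3 : ∏ g : Fin K, (Fintype.piFinset fun _ : Q => Intv le D (ρ φ0) g).card =
        ∏ g : Fin K, (Intv le D (ρ φ0) g).card ^ Fintype.card Q := by
      refine Finset.prod_congr rfl fun g _ => ?_
      rw [Fintype.card_piFinset]
      simp
    rw [h3] at hc
    exact_mod_cast hc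
  have hsum : (Φ.card : ℝ) = ∑ r ∈ Φ.image ρ, (((Φ.filter fun φ => ρ φ = r).card : ℕ) : ℝ) := by
    have := Finset.card_eq_sum_card_image ρ Φ
    exact_mod_cast this
  calc (Φ.card : ℝ) = ∑ r ∈ Φ.image ρ, (((Φ.filter fun φ => ρ φ = r).card : ℕ) : ℝ) := hsum
    _ ≤ ∑ _r ∈ Φ.image ρ, B := Finset.sum_le_sum hfib
    _ = (Φ.image ρ).card * B := by rw [Finset.sum_const, nsmul_eq_mul]
    _ ≤ (D.card : ℝ) ^ K * B := by
        apply mul_le_mul_of_nonneg_right _ hB0
        have h4 : Φ.image ρ ⊆ Fintype.piFinset fun _ : Fin K => D := by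
          intro r hr
          rw [Finset.mem_image] at hr
          obtain ⟨φ, hφ, rfl⟩ := hr
          rw [Fintype.mem_piFinset]
          exact fun g => h2 φ hφ g q0
        have h5 := Finset.card_le_card h4
        rw [Fintype.card_piFinset] at h5
        simp only [Finset.prod_const, Finset.card_univ, Fintype.card_fin] at h5
        exact_mod_cast h5

/-- points of intervals two apart are comparable -/
lemma intv_le {le : X → X → Prop} {D : Finset X}
    (htr : ∀ x ∈ D, ∀ y ∈ D, ∀ z ∈ D, le x y → le y z → le x z)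
    {r : Fin K → X} (hr : ∀ g, r g ∈ D) {g g' : Fin K} (h : g.val + 2 ≤ g'.val) {e e' : X}
    (he : e ∈ Intv le D r g) (he' : e' ∈ Intv le D r g') : le e e' := by
  have hm : g.val + 1 < K := by
    have := g'.isLt
    omega
  rw [mem_Intv] at he he'
  have h1 := he.2.2 ⟨g.val + 1, hm⟩ (by
    rw [Fin.lt_def]
    simp)
  have h2 := he'.2.1 ⟨g.val + 1, hm⟩ (by
    rw [Fin.lt_def]
    simp only
    omega)
  exact htr _ he.1 _ (hr _) _ he'.1 h1 h2

/-- **(7E)** An antichain is met in at least two points by at most two of the intervals. -/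
theorem parity (le : X → X → Prop) (D : Finset X)
    (htr : ∀ x ∈ D, ∀ y ∈ D, ∀ z ∈ D, le x y → le y z → le x z)
    (r : Fin K → X) (hr : ∀ g, r g ∈ D) (S : Finset X)
    (hS : ∀ x ∈ S, ∀ y ∈ S, le x y → x = y) :
    (univ.filter fun g : Fin K => 2 ≤ (S ∩ Intv le D r g).card).card ≤ 2 := by
  set 𝒢 := univ.filter fun g : Fin K => 2 ≤ (S ∩ Intv le D r g).card with h𝒢
  have hno : ∀ g ∈ 𝒢, ∀ g' ∈ 𝒢, ¬ (g.val + 2 ≤ g'.val) := by
    intro g hg g' hg' hlt
    rw [h𝒢, Finset.mem_filter] at hg hg'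
    obtain ⟨e1, he1, e2, he2, hne⟩ := Finset.one_lt_card.1 (lt_of_lt_of_le one_lt_two hg.2)
    obtain ⟨e3, he3, -, -, -⟩ := Finset.one_lt_card.1 (lt_of_lt_of_le one_lt_two hg'.2)
    rw [Finset.mem_inter] at he1 he2 he3
    have h13 : e1 = e3 := hS _ he1.1 _ he3.1 (intv_le htr hr hlt he1.2 he3.2)
    have h23 : e2 = e3 := hS _ he2.1 _ he3.1 (intv_le htr hr hlt he2.2 he3.2)
    exact hne (h13.trans h23.symm)
  rcases 𝒢.eq_empty_or_nonempty with hem | hne
  · rw [hem]
    simp
  · have hmin := 𝒢.min'_mem hne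
    have hsub : 𝒢.image (fun g : Fin K => g.val) ⊆ {(𝒢.min' hne).val, (𝒢.min' hne).val + 1} := by
      intro x hx
      rw [Finset.mem_image] at hx
      obtain ⟨g, hg, rfl⟩ := hx
      have h1 : 𝒢.min' hne ≤ g := 𝒢.min'_le g hg
      have h2 := hno _ hmin g hg
      have h3 : (𝒢.min' hne).val ≤ g.val := h1
      rw [Finset.mem_insert, Finset.mem_singleton]
      omega
    have h4 : (𝒢.image (fun g : Fin K => g.val)).card = 𝒢.card :=
      Finset.card_image_of_injective _ Fin.val_injective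
    rw [← h4]
    exact (Finset.card_le_card hsub).trans Finset.card_le_two

/-- **(7E), summed.** -/
theorem sum_tau_le {ι : Type*} (le : X → X → Prop) (D : Finset X)
    (htr : ∀ x ∈ D, ∀ y ∈ D, ∀ z ∈ D, le x y → le y z → le x z)
    (r : Fin K → X) (hr : ∀ g, r g ∈ D) (A : Finset ι)
    (S : ι → Finset X) (hS : ∀ a ∈ A, ∀ x ∈ S a, ∀ y ∈ S a, le x y → x = y)
    (T' : ι → ℝ) (hT' : ∀ a ∈ A, 0 ≤ T' a) (τ : Fin K → ℝ) (b : ℝ) (hb : 0 ≤ b)
    (hτ : ∀ g, τ g ≤ b ∨ ∃ a ∈ A, 2 ≤ (S a ∩ Intv le D r g).card ∧ τ g ≤ T' a) :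
    ∑ g, τ g ≤ K * b + 2 * ∑ a ∈ A, T' a := by
  have h1 : ∀ g : Fin K, τ g ≤
      b + ∑ a ∈ A, if 2 ≤ (S a ∩ Intv le D r g).card then T' a else 0 := by
    intro g
    have hnn : ∀ a ∈ A, 0 ≤ (if 2 ≤ (S a ∩ Intv le D r g).card then T' a else 0) := by
      intro a ha
      split_ifs
      · exact hT' a ha
      · exact le_rfl
    rcases hτ g with h | ⟨a, ha, h2, h3⟩
    · have := Finset.sum_nonneg hnn
      linarith
    · have h4 := Finset.single_le_sum hnn ha
      rw [if_pos h2] at h4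
      linarith
  calc ∑ g, τ g ≤
        ∑ g : Fin K, (b + ∑ a ∈ A, if 2 ≤ (S a ∩ Intv le D r g).card then T' a else 0) :=
        Finset.sum_le_sum fun g _ => h1 g
    _ = K * b + ∑ a ∈ A, ∑ g : Fin K, (if 2 ≤ (S a ∩ Intv le D r g).card then T' a else 0) := by
        rw [Finset.sum_add_distrib, Finset.sum_comm]
        simp
    _ ≤ K * b + ∑ a ∈ A, 2 * T' a := by
        apply add_le_add le_rfl
        apply Finset.sum_le_sum
        intro a ha
        rw [← Finset.sum_filter, Finset.sum_const, nsmul_eq_mul]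
        apply mul_le_mul_of_nonneg_right _ (hT' a ha)
        exact_mod_cast parity le D htr r hr (S a) (hS a ha)
    _ = K * b + 2 * ∑ a ∈ A, T' a := by rw [Finset.mul_sum]

/-- telescoping with step two -/
lemma sum_two_step (β : ℕ → ℤ) (n : ℕ) :
    ∑ i ∈ range n, (β (i + 2) - β i) = (β (n + 1) - β 1) + (β n - β 0) := by
  induction n with
  | zero => simp
  | succ n ih =>
    rw [Finset.sum_range_succ, ih]
    ring

/-- **Borders.** `blk : X → ℕ` monotone on `D`, the marked values in blocks `lo..hi`: all but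
`2 (hi - lo) + 2` of the intervals lie in one block. -/
theorem border_count (le : X → X → Prop) (D : Finset X) (r : Fin K → X) (hrD : ∀ g, r g ∈ D)
    (hr : ∀ g g' : Fin K, g < g' → le (r g) (r g')) (blk : X → ℕ)
    (hblk : ∀ x ∈ D, ∀ y ∈ D, le x y → blk x ≤ blk y)
    (lo hi : ℕ) (hlo : ∀ g, lo ≤ blk (r g)) (hhi : ∀ g, blk (r g) ≤ hi)
    (B : Finset (Fin K)) (hB : ∀ g ∈ B, ¬ ∃ b, ∀ x ∈ Intv le D r g, blk x = b) :
    B.card ≤ 2 * (hi - lo) + 2 := by
  rcases Nat.lt_or_ge K 3 with hK | hK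
  · refine (Finset.card_le_univ _).trans ?_
    rw [Fintype.card_fin]
    omega
  obtain ⟨n, rfl⟩ : ∃ n, K = n + 2 := ⟨K - 2, by omega⟩
  -- β i = block of the i-th value
  set β : ℕ → ℕ := fun i => if h : i < n + 2 then blk (r ⟨i, h⟩) else 0 with hβ
  have hβv : ∀ i (h : i < n + 2), β i = blk (r ⟨i, h⟩) := by
    intro i h
    simp [hβ, h]
  have hmono : ∀ i, i < n → β i ≤ β (i + 2) := by
    intro i hin
    rw [hβv i (by omega), hβv (i + 2) (by omega)]
    exact hblk _ (hrD _) _ (hrD _) (hr _ _ (by rw [Fin.lt_def]; simp))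
  have key : ∀ i (hin : i < n),
      (¬ ∃ b, ∀ x ∈ Intv le D r (⟨i + 1, by omega⟩ : Fin (n + 2)), blk x = b) →
      β i + 1 ≤ β (i + 2) := by
    intro i hin hnot
    by_contra hcon
    apply hnot
    refine ⟨β (i + 2), fun x hx => ?_⟩
    rw [mem_Intv] at hx
    have h1 := hblk _ (hrD _) _ hx.1 (hx.2.1 ⟨i, by omega⟩ (by rw [Fin.lt_def]; simp))
    have h2 := hblk _ hx.1 _ (hrD _) (hx.2.2 ⟨i + 2, by omega⟩ (by rw [Fin.lt_def]; simp))
    rw [← hβv i (by omega)] at h1
    rw [← hβv (i + 2) (by omega)] at h2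
    have h3 := hmono i hin
    omega
  -- the bad indices
  set I : Finset ℕ := (range n).filter fun i => β i + 1 ≤ β (i + 2) with hI
  have hsub : B.image (fun g : Fin (n + 2) => g.val) ⊆ {0, n + 1} ∪ I.image (fun i => i + 1) := by
    intro x hx
    rw [Finset.mem_image] at hx
    obtain ⟨g, hg, rfl⟩ := hx
    rw [Finset.mem_union, Finset.mem_insert, Finset.mem_singleton, Finset.mem_image]
    by_cases h0 : g.val = 0
    · exact Or.inl (Or.inl h0)
    by_cases h1 : g.val = n + 1
    · exact Or.inl (Or.inr h1)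
    right
    have hgl := g.isLt
    refine ⟨g.val - 1, ?_, by omega⟩
    rw [hI, Finset.mem_filter, Finset.mem_range]
    refine ⟨by omega, ?_⟩
    apply key (g.val - 1) (by omega)
    have h2 : (⟨g.val - 1 + 1, by omega⟩ : Fin (n + 2)) = g := by
      apply Fin.ext
      simp only
      omega
    rw [h2]
    exact hB g hg
  have hcard : B.card ≤ 2 + I.card := by
    have h1 : (B.image (fun g : Fin (n + 2) => g.val)).card = B.card :=
      Finset.card_image_of_injective _ Fin.val_injective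
    rw [← h1]
    refine (Finset.card_le_card hsub).trans ((Finset.card_union_le _ _).trans ?_)
    exact add_le_add Finset.card_le_two Finset.card_image_le
  have hIc : (I.card : ℤ) ≤ ∑ i ∈ range n, ((β (i + 2) : ℤ) - β i) := by
    calc (I.card : ℤ) = ∑ i ∈ I, (1 : ℤ) := by simp
      _ ≤ ∑ i ∈ I, ((β (i + 2) : ℤ) - β i) := by
          apply Finset.sum_le_sum
          intro i hi
          rw [hI, Finset.mem_filter] at hi
          have := hi.2
          omega
      _ ≤ ∑ i ∈ range n, ((β (i + 2) : ℤ) - β i) := by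
          apply Finset.sum_le_sum_of_subset_of_nonneg (Finset.filter_subset _ _)
          intro i hi _
          rw [Finset.mem_range] at hi
          have := hmono i hi
          omega
  rw [sum_two_step (fun i => (β i : ℤ)) n] at hIc
  have hb : ∀ i, i < n + 2 → lo ≤ β i ∧ β i ≤ hi := by
    intro i hin
    rw [hβv i hin]
    exact ⟨hlo _, hhi _⟩
  have b0 := hb 0 (by omega)
  have b1 := hb 1 (by omega)
  have bn := hb n (by omega)
  have bn1 := hb (n + 1) (by omega)
  omega

end chain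

end Pool.Agent.AM
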