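import Pool.Agent.AM.Fib
import Pool.Agent.AM.Cell

set_option autoImplicit false

/-!
# Section 7 (7B): the number of restrictions to one cell
-/

open scoped Classical
open Finset

noncomputable section

namespace Pool.Agent.AM

variable {C : Cst} {par : ℕ → Par C}

lemma card_srt : Fintype.card Srt = 4 := rfl

/-- the trivial bound -/
theorem ext_card_triv (le : ∀ m, Pt (par m) → Pt (par m) → Prop) (lo hi : ℕ) (b : Prop)
    (F : Set (TP par → TP par)) (hF : F ⊆ EndSet le lo hi b) (f0 : TP par → TP par) (m : ℕ)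
    (hlo : lo ≤ m) (hhi : m ≤ hi) (c : Cell (par m)) :
    (Ext lo hi b F f0 m c).ncard ≤ (cardT par lo hi) ^ (C.K c.j * (4 * (par m).T c.j)) := by
  have hfin := Ext_finite le lo hi b F hF f0 m c
  rw [Set.ncard_eq_toFinset_card _ hfin]
  have hsub : hfin.toFinset ⊆
      Fintype.piFinset fun _ : CI (par m) c.j => partF par lo hi b := by
    intro φ hφ
    rw [Set.Finite.mem_toFinset] at hφ
    obtain ⟨f, hf, -, rfl⟩ := hφ
    rw [Fintype.mem_piFinset]
    intro e
    rw [mem_partF]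
    exact (hF hf).1.maps _ ⟨hlo, hhi⟩
  refine (Finset.card_le_card hsub).trans ?_
  rw [Fintype.card_piFinset]
  simp only [Finset.prod_const, Finset.card_univ]
  have h1 : Fintype.card (CI (par m) c.j) = C.K c.j * (4 * (par m).T c.j) := by
    rw [Fintype.card_prod, Fintype.card_prod, card_srt, Fintype.card_fin, Fintype.card_fin]
  rw [h1]
  exact Nat.pow_le_pow_left (card_partF_le par lo hi b) _

/-- the trivial bound, logarithmic form -/
theorem ext_log_triv (le : ∀ m, Pt (par m) → Pt (par m) → Prop) (lo hi : ℕ) (b : Prop)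
    (F : Set (TP par → TP par)) (hF : F ⊆ EndSet le lo hi b) (f0 : TP par → TP par) (m : ℕ)
    (hlo : lo ≤ m) (hhi : m ≤ hi) (c : Cell (par m)) :
    Real.log ((Ext lo hi b F f0 m c).ncard : ℝ) ≤
      4 * (par m).T c.j * C.K c.j * Real.log (cardT par lo hi : ℝ) := by
  have h1 := ext_card_triv le lo hi b F hF f0 m hlo hhi c
  have hX : 1 ≤ cardT par lo hi := by unfold cardT; omega
  rcases Nat.eq_zero_or_pos (Ext lo hi b F f0 m c).ncard with h0 | h0
  · rw [h0]
    simp only [Nat.cast_zero, Real.log_zero]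
    have : 0 ≤ Real.log (cardT par lo hi : ℝ) := Real.log_natCast_nonneg _
    positivity
  · have h2 : ((Ext lo hi b F f0 m c).ncard : ℝ) ≤
        (cardT par lo hi : ℝ) ^ (C.K c.j * (4 * (par m).T c.j)) := by exact_mod_cast h1
    refine (Real.log_le_log (by exact_mod_cast h0) h2).trans (le_of_eq ?_)
    rw [Real.log_pow]
    push_cast
    ring

/-- **(7B)** with a finset `D` of allowed values -/
theorem ext_card_le (le : ∀ m, Pt (par m) → Pt (par m) → Prop) (lo hi : ℕ) (b : Prop)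
    (F : Set (TP par → TP par)) (hF : F ⊆ EndSet le lo hi b) (f0 : TP par → TP par) (m : ℕ)
    (hlo : lo ≤ m) (hhi : m ≤ hi) (hord : BlkOrd (le m)) (c : Cell (par m))
    (hT : 0 < (par m).T c.j) (D : Finset (TP par))
    (hD : ∀ f ∈ F, SkEq lo hi b f0 f → ∀ e, f (.pt m (.ce c e)) ∈ D) (σ : ℝ)
    (hσ : ∀ r : Fin (C.K c.j) → TP par, (∀ g g', g < g' → TLe le (r g) (r g')) →
      (∀ g, r g ∈ D) → ∑ g, Real.log ((Intv (TLe le) D r g).card : ℝ) ≤ σ) :
    ((Ext lo hi b F f0 m c).ncard : ℝ) ≤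
      (D.card : ℝ) ^ (C.K c.j) * Real.exp (4 * (par m).T c.j * σ) := by
  have hfin := Ext_finite le lo hi b F hF f0 m c
  have hne : Nonempty (Srt × Fin ((par m).T c.j)) := ⟨(Srt.A, ⟨0, hT⟩)⟩
  -- reindex
  set E : (CI (par m) c.j → TP par) → (Fin (C.K c.j) → Srt × Fin ((par m).T c.j) → TP par) :=
    fun φ g q => φ (g, q) with hE
  have hEinj : Function.Injective E := by
    intro φ ψ h
    funext e
    exact congrFun (congrFun h e.1) e.2
  set G := hfin.toFinset.image E with hG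
  have hcard : (Ext lo hi b F f0 m c).ncard = G.card := by
    rw [Set.ncard_eq_toFinset_card _ hfin, hG, Finset.card_image_of_injective _ hEinj]
  rw [hcard]
  have hcQ : Fintype.card (Srt × Fin ((par m).T c.j)) = 4 * (par m).T c.j := by
    rw [Fintype.card_prod, card_srt, Fintype.card_fin]
  apply card_chain_le (TLe le) D G
  · intro φ hφ g g' hgg q q'
    rw [hG, Finset.mem_image] at hφ
    obtain ⟨ψ, hψ, rfl⟩ := hφ
    rw [Set.Finite.mem_toFinset] at hψ
    obtain ⟨f, hf, -, rfl⟩ := hψ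
    exact (hF hf).1.mono _ _ ⟨hlo, hhi⟩ ⟨hlo, hhi⟩
      (TLe.eq (hord.cell c (g, q) (g', q') (Or.inl hgg)))
  · intro φ hφ g q
    rw [hG, Finset.mem_image] at hφ
    obtain ⟨ψ, hψ, rfl⟩ := hφ
    rw [Set.Finite.mem_toFinset] at hψ
    obtain ⟨f, hf, hsk, rfl⟩ := hψ
    exact hD f hf hsk (g, q)
  · positivity
  · intro r hr hrD
    rw [hcQ]
    have hpos : ∀ g, (0 : ℝ) < ((Intv (TLe le) D r g).card : ℝ) := by
      intro g
      have : r g ∈ Intv (TLe le) D r g := by
        rw [mem_Intv]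
        exact ⟨hrD g, fun g' h => hr _ _ h, fun g' h => hr _ _ h⟩
      exact_mod_cast Finset.card_pos.2 ⟨_, this⟩
    have h1 : ∏ g, ((Intv (TLe le) D r g).card : ℝ) ^ (4 * (par m).T c.j) =
        Real.exp (4 * (par m).T c.j * ∑ g, Real.log ((Intv (TLe le) D r g).card : ℝ)) := by
      rw [Finset.mul_sum, Real.exp_sum]
      refine Finset.prod_congr rfl fun g _ => ?_
      have h2 : (4 * ((par m).T c.j : ℝ)) = ((4 * (par m).T c.j : ℕ) : ℝ) := by push_cast; ring
      rw [h2, Real.exp_nat_mul, Real.exp_log (hpos g)]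
    rw [h1]
    apply Real.exp_le_exp.2
    apply mul_le_mul_of_nonneg_left (hσ r hr hrD)
    positivity

/-- **(7B)**, logarithmic form -/
theorem ext_log_le (le : ∀ m, Pt (par m) → Pt (par m) → Prop) (lo hi : ℕ) (b : Prop)
    (F : Set (TP par → TP par)) (hF : F ⊆ EndSet le lo hi b) (f0 : TP par → TP par) (m : ℕ)
    (hlo : lo ≤ m) (hhi : m ≤ hi) (hord : BlkOrd (le m)) (c : Cell (par m))
    (hT : 0 < (par m).T c.j) (D : Finset (TP par)) (hDc : D.card ≤ cardT par lo hi)
    (hD : ∀ f ∈ F, SkEq lo hi b f0 f → ∀ e, f (.pt m (.ce c e)) ∈ D) (σ : ℝ) (hσ0 : 0 ≤ σ)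
    (hσ : ∀ r : Fin (C.K c.j) → TP par, (∀ g g', g < g' → TLe le (r g) (r g')) →
      (∀ g, r g ∈ D) → ∑ g, Real.log ((Intv (TLe le) D r g).card : ℝ) ≤ σ) :
    Real.log ((Ext lo hi b F f0 m c).ncard : ℝ) ≤
      C.K c.j * Real.log (cardT par lo hi : ℝ) + 4 * (par m).T c.j * σ := by
  have h1 := ext_card_le le lo hi b F hF f0 m hlo hhi hord c hT D hD σ hσ
  have hX : 1 ≤ cardT par lo hi := by unfold cardT; omega
  have hX0 : (0 : ℝ) < cardT par lo hi := by exact_mod_cast hX
  rcases Nat.eq_zero_or_pos (Ext lo hi b F f0 m c).ncard with h0 | h0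
  · rw [h0]
    simp only [Nat.cast_zero, Real.log_zero]
    have : 0 ≤ Real.log (cardT par lo hi : ℝ) := Real.log_natCast_nonneg _
    positivity
  · have h2 : ((Ext lo hi b F f0 m c).ncard : ℝ) ≤
        (cardT par lo hi : ℝ) ^ (C.K c.j) * Real.exp (4 * (par m).T c.j * σ) := by
      refine h1.trans (mul_le_mul_of_nonneg_right ?_ (Real.exp_pos _).le)
      apply pow_le_pow_left₀ (by positivity)
      exact_mod_cast hDc
    refine (Real.log_le_log (by exact_mod_cast h0) h2).trans (le_of_eq ?_)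
    rw [Real.log_mul (by positivity) (Real.exp_pos _).ne', Real.log_pow, Real.log_exp]

end Pool.Agent.AM
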