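import Pool.Agent.AM.ItvT
import Pool.Agent.AM.ExtB

set_option autoImplicit false

/-!
# Section 7: the two cell bounds
-/

open scoped Classical
open Finset

noncomputable section

namespace Pool.Agent.AM.CellB

variable {C : Cst} {par : ℕ → Par C} {le : ∀ m, Pt (par m) → Pt (par m) → Prop}

lemma tle_trans' {lo hi : ℕ} (ho : ∀ m, lo ≤ m → m ≤ hi → BlkOrd (le m)) {b : Prop}
    {x y z : TP par} (hy : inT par lo hi b y) (h1 : TLe le x y) (h2 : TLe le y z) :
    TLe le x z := by
  cases h1 with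
  | top x =>
    cases h2 with
    | top => exact TLe.top _
  | lt h x y =>
    cases h2 with
    | top => exact TLe.top _
    | lt h' y z => exact TLe.lt (h'.trans h) _ _
    | eq h' => exact TLe.lt h _ _
  | @eq m x y h =>
    cases h2 with
    | top => exact TLe.top _
    | lt h' y z => exact TLe.lt h' _ _
    | eq h' => exact TLe.eq ((ho m hy.1 hy.2).trans _ _ _ h h')

lemma bp_mono {lo hi : ℕ} {b : Prop} {x y : TP par} (hx : inT par lo hi b x)
    (h : TLe le x y) : bp lo hi x ≤ bp lo hi y := by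
  cases h with
  | top x =>
    cases x with
    | top => exact le_rfl
    | pt m x =>
      have h1 := hx.1
      have h2 := hx.2
      show hi - m ≤ hi + 1 - lo
      omega
  | @lt m m' h x y =>
    show hi - m ≤ hi - m'
    omega
  | eq h => exact le_rfl

/-- the number `Q0` -/
def Q0 (q : Con) (C : Cst) (K0 : ℕ) : ℕ := 8 * (q.P + 2) * (C.h + 2) * K0

/-- **cell bound, values between two points of one block** -/
theorem cell_sep {q : Con} {lo hi : ℕ} {b : Prop}
    (hg : ∀ m, lo ≤ m → m ≤ hi → GoodBlk q (par m) (le m)) (K0 : ℕ)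
    (hK : ∀ j, C.K j ≤ K0) (hK0 : 1 ≤ K0)
    (F : Set (TP par → TP par)) (hF : F ⊆ EndSet le lo hi b) (f0 : TP par → TP par) (m : ℕ)
    (hlo : lo ≤ m) (hhi : m ≤ hi) (c : Cell (par m)) (hT : 0 < (par m).T c.j)
    (μ : ℕ) (hμlo : lo ≤ μ) (hμhi : μ ≤ hi) (y z : Pt (par μ)) (hyz : le μ y z)
    (hval : ∀ f ∈ F, SkEq lo hi b f0 f → ∀ e,
      TLe le (.pt μ y) (f (.pt m (.ce c e))) ∧ TLe le (f (.pt m (.ce c e))) (.pt μ z))
    (Tl : Fin C.W → ℝ) (hTl : ∀ j, Real.log ((par μ).T j : ℝ) ≤ Tl j) (hTl0 : ∀ j, 0 ≤ Tl j)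
    (β : ℝ) (hβ0 : 0 ≤ β) (hβ : ∀ j, j < c.j → Real.log ((par μ).T j : ℝ) ≤ β) :
    Real.log ((Ext lo hi b F f0 m c).ncard : ℝ) ≤
      C.K c.j * Real.log (cardT par lo hi : ℝ) + 4 * (par m).T c.j *
        (C.K c.j * Real.log (Q0 q C K0 : ℝ) + (C.K c.j * β +
          4 * ∑ j ∈ univ.filter (fun j : Fin C.W => c.j ≤ j),
            C.K j * ((univ.filter fun c' : Cell (par μ) => c'.j = j ∧
              ∃ e, le μ y (.ce c' e) ∧ le μ (.ce c' e) z).card : ℝ) * Tl j)) := by
  have ho : ∀ m, lo ≤ m → m ≤ hi → BlkOrd (le m) := fun m h1 h2 => (hg m h1 h2).ord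
  set D : Finset (TP par) := (partF par lo hi b).filter fun x =>
    TLe le (.pt μ y) x ∧ TLe le x (.pt μ z) with hD
  have hDm : ∀ x, x ∈ D ↔ inT par lo hi b x ∧ TLe le (.pt μ y) x ∧ TLe le x (.pt μ z) := by
    intro x
    rw [hD, mem_filter, mem_partF]
  have hDpt : ∀ x ∈ D, ∃ w, x = .pt μ w ∧ le μ y w ∧ le μ w z := by
    intro x hx
    rw [hDm] at hx
    exact tle_sandwich' hx.2.1 hx.2.2
  have hQ1 : 1 ≤ Q0 q C K0 := by
    have : 0 < Q0 q C K0 := by unfold Q0; positivity
    omega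
  have hQR : (1 : ℝ) ≤ Q0 q C K0 := by exact_mod_cast hQ1
  have hlQ : 0 ≤ Real.log (Q0 q C K0 : ℝ) := Real.log_nonneg hQR
  set cc : Fin C.W → ℝ := fun j => ((univ.filter fun c' : Cell (par μ) => c'.j = j ∧
              ∃ e, le μ y (.ce c' e) ∧ le μ (.ce c' e) z).card : ℝ) with hcc
  have hcc0 : ∀ j, 0 ≤ cc j := fun j => by simp only [hcc]; positivity
  have hsum0 : 0 ≤ ∑ j ∈ univ.filter (fun j : Fin C.W => c.j ≤ j), C.K j * cc j * Tl j := by
    apply Finset.sum_nonneg
    intro j _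
    have := hcc0 j
    have := hTl0 j
    positivity
  apply ext_log_le le lo hi b F hF f0 m hlo hhi (ho m hlo hhi) c hT D
  · refine (card_le_card (filter_subset _ _)).trans (card_partF_le par lo hi b)
  · intro f hf hsk e
    rw [hDm]
    exact ⟨(hF hf).1.maps _ ⟨hlo, hhi⟩, hval f hf hsk e⟩
  · have h1 : (0 : ℝ) ≤ C.K c.j * Real.log (Q0 q C K0 : ℝ) := by positivity
    have h2 : (0 : ℝ) ≤ C.K c.j * β := by positivity
    linarith
  -- the sum over the gadgets
  intro r hr hrD
  have htr : ∀ x ∈ D, ∀ y ∈ D, ∀ z ∈ D, TLe le x y → TLe le y z → TLe le x z := by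
    intro x _ y hy z _ h1 h2
    exact tle_trans' (b := b) ho ((hDm y).1 hy).1 h1 h2
  have hrefl : ∀ x ∈ D, TLe le x x := fun x hx => tle_refl' (b := b) ho ((hDm x).1 hx).1
  have hyD : (TP.pt μ y : TP par) ∈ D := by
    rw [hDm]
    exact ⟨⟨hμlo, hμhi⟩, TLe.eq ((ho μ hμlo hμhi).refl y), TLe.eq hyz⟩
  have hzD : (TP.pt μ z : TP par) ∈ D := by
    rw [hDm]
    exact ⟨⟨hμlo, hμhi⟩, TLe.eq hyz, TLe.eq ((ho μ hμlo hμhi).refl z)⟩
  have hpos : ∀ g, (0 : ℝ) < ((Intv (TLe le) D r g).card : ℝ) := by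
    intro g
    have : r g ∈ Intv (TLe le) D r g := by
      rw [mem_Intv]
      exact ⟨hrD g, fun g' h => hr _ _ h, fun g' h => hr _ _ h⟩
    exact_mod_cast Finset.card_pos.2 ⟨_, this⟩
  -- alternatives
  have halt : ∀ g, (Intv (TLe le) D r g).card ≤ Q0 q C K0 ∨
      ∃ (c' : Cell (par μ)) (g' : Fin (C.K c'.j)) (u : Bool),
        2 ≤ (TSL μ c' g' u ∩ Intv (TLe le) D r g).card ∧
        (Intv (TLe le) D r g).card ≤ Q0 q C K0 * (par μ).T c'.j := by
    intro g
    apply titv_alt (hg μ hμlo hμhi) K0 hK hK0 y z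
    intro x hx
    exact ((hDm x).1 (mem_Intv.1 hx).1).2
  -- τ
  set τ : Fin (C.K c.j) → ℝ := fun g =>
    Real.log ((Intv (TLe le) D r g).card : ℝ) - Real.log (Q0 q C K0 : ℝ) with hτdef
  set ι := Σ c' : Cell (par μ), Fin (C.K c'.j) × Bool
  set A : Finset ι := univ.filter fun a : ι => c.j ≤ a.1.j ∧
    ∃ e, le μ y (.ce a.1 e) ∧ le μ (.ce a.1 e) z with hA
  have hmain := sum_tau_le (TLe le) D htr r hrD A (fun a => TSL μ a.1 a.2.1 a.2.2)
    (fun a _ => TSL_anti (ho μ hμlo hμhi) a.1 a.2.1 a.2.2) (fun a => Tl a.1.j)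
    (fun a _ => hTl0 _) τ β hβ0 (by
      intro g
      rcases halt g with h | ⟨c', g', u, h2, h3⟩
      · left
        have h4 : Real.log ((Intv (TLe le) D r g).card : ℝ) ≤ Real.log (Q0 q C K0 : ℝ) :=
          Real.log_le_log (hpos g) (by exact_mod_cast h)
        simp only [hτdef]
        linarith
      · have hTpos : 0 < (par μ).T c'.j := by
          rcases Nat.eq_zero_or_pos ((par μ).T c'.j) with h0 | h0
          · rw [h0, mul_zero] at h3
            have := hpos g
            have h5 : 0 < (Intv (TLe le) D r g).card := by exact_mod_cast this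
            omega
          · exact h0
        have hTR : (0 : ℝ) < ((par μ).T c'.j : ℝ) := by exact_mod_cast hTpos
        have h4 : Real.log ((Intv (TLe le) D r g).card : ℝ) ≤
            Real.log (Q0 q C K0 : ℝ) + Real.log ((par μ).T c'.j : ℝ) := by
          rw [← Real.log_mul (by linarith) hTR.ne']
          exact Real.log_le_log (hpos g) (by exact_mod_cast h3)
        rcases lt_or_ge c'.j c.j with hlt | hge
        · left
          have := hβ c'.j hlt
          simp only [hτdef]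
          linarith
        · right
          -- the cell c' meets D
          have hne : ∃ x ∈ TSL μ c' g' u ∩ Intv (TLe le) D r g, True := by
            have : 0 < (TSL μ c' g' u ∩ Intv (TLe le) D r g).card := by omega
            obtain ⟨x, hx⟩ := Finset.card_pos.1 this
            exact ⟨x, hx, trivial⟩
          obtain ⟨x, hx, -⟩ := hne
          rw [mem_inter] at hx
          obtain ⟨w, hw, h5, h6⟩ := hDpt x (mem_Intv.1 hx.2).1
          have hxT := hx.1
          rw [TSL, mem_image] at hxT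
          obtain ⟨w', hw', hw'x⟩ := hxT
          have hww : w' = w := pt_inj (hw'x.trans hw)
          subst hww
          rw [mem_SL] at hw'
          obtain ⟨s, l, -, hwe⟩ := hw'
          refine ⟨⟨c', (g', u)⟩, ?_, h2, ?_⟩
          · rw [hA, mem_filter]
            refine ⟨mem_univ _, hge, (g', s, l), ?_, ?_⟩
            · rw [← hwe]; exact h5
            · rw [← hwe]; exact h6
          · have := hTl c'.j
            simp only [hτdef]
            linarith)
  -- the sum over A
  have hAsum : ∑ a ∈ A, Tl a.1.j ≤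
      2 * ∑ j ∈ univ.filter (fun j : Fin C.W => c.j ≤ j), C.K j * cc j * Tl j := by
    have h1 : ∑ a ∈ A, Tl a.1.j = ∑ c' ∈ univ.filter (fun c' : Cell (par μ) => c.j ≤ c'.j ∧
        ∃ e, le μ y (.ce c' e) ∧ le μ (.ce c' e) z), (2 * C.K c'.j : ℝ) * Tl c'.j := by
      rw [hA, Finset.sum_filter, Finset.sum_filter, Fintype.sum_sigma]
      refine Finset.sum_congr rfl fun c' _ => ?_
      by_cases hc' : c.j ≤ c'.j ∧ ∃ e, le μ y (.ce c' e) ∧ le μ (.ce c' e) z
      · simp only [hc', and_self, if_true]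
        rw [Finset.sum_const, Finset.card_univ, Fintype.card_prod, Fintype.card_fin,
          Fintype.card_bool, nsmul_eq_mul]
        push_cast
        ring
      · simp only [hc', if_false, Finset.sum_const_zero]
    have h2 : ∑ c' ∈ univ.filter (fun c' : Cell (par μ) => c.j ≤ c'.j ∧
        ∃ e, le μ y (.ce c' e) ∧ le μ (.ce c' e) z), (2 * C.K c'.j : ℝ) * Tl c'.j =
        ∑ j ∈ univ.filter (fun j : Fin C.W => c.j ≤ j),
          ∑ c' ∈ univ.filter (fun c' : Cell (par μ) => c'.j = j ∧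
            ∃ e, le μ y (.ce c' e) ∧ le μ (.ce c' e) z), (2 * C.K c'.j : ℝ) * Tl c'.j := by
      rw [← Finset.sum_biUnion]
      · refine Finset.sum_congr ?_ fun _ _ => rfl
        ext c'
        simp only [mem_filter, mem_univ, true_and, mem_biUnion]
        constructor
        · rintro ⟨h3, h4⟩
          exact ⟨c'.j, h3, rfl, h4⟩
        · rintro ⟨j, h3, h4, h5⟩
          exact ⟨h4 ▸ h3, h5⟩
      · intro j _ j' _ hjj
        rw [Function.onFun, Finset.disjoint_left]
        intro c' h3 h4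
        rw [mem_filter] at h3 h4
        exact hjj (h3.2.1.symm.trans h4.2.1)
    rw [h1, h2, Finset.mul_sum]
    apply le_of_eq
    refine Finset.sum_congr rfl fun j _ => ?_
    have h3 : ∑ c' ∈ univ.filter (fun c' : Cell (par μ) => c'.j = j ∧
            ∃ e, le μ y (.ce c' e) ∧ le μ (.ce c' e) z), (2 * C.K c'.j : ℝ) * Tl c'.j =
        ∑ c' ∈ univ.filter (fun c' : Cell (par μ) => c'.j = j ∧
            ∃ e, le μ y (.ce c' e) ∧ le μ (.ce c' e) z), (2 * C.K j : ℝ) * Tl j := by
      refine Finset.sum_congr rfl fun c' hc' => ?_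
      rw [mem_filter] at hc'
      rw [hc'.2.1]
    rw [h3, Finset.sum_const, nsmul_eq_mul]
    simp only [hcc]
    ring
  have hfinal : ∑ g, Real.log ((Intv (TLe le) D r g).card : ℝ) =
      C.K c.j * Real.log (Q0 q C K0 : ℝ) + ∑ g, τ g := by
    simp only [hτdef]
    rw [Finset.sum_sub_distrib, Finset.sum_const, Finset.card_univ, Fintype.card_fin, nsmul_eq_mul]
    ring
  rw [hfinal]
  linarith

/-- the block position from the height index -/
lemma bp_eq {lo hi : ℕ} {x : TP par} : bp lo hi x = idx lo hi x / (C.h + 2) := by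
  cases x with
  | top =>
    show hi + 1 - lo = (hi + 1 - lo) * (C.h + 2) / (C.h + 2)
    rw [Nat.mul_div_cancel _ (by omega)]
  | pt m x =>
    show hi - m = ((hi - m) * (C.h + 2) + lev x) / (C.h + 2)
    have hl : lev x < C.h + 2 := by
      cases x with
      | fr k v => exact k.isLt
      | ce c e =>
        show c.k.val + 1 < C.h + 2
        have := c.k.isLt
        omega
    rw [Nat.mul_comm, Nat.mul_add_div (by omega), Nat.div_eq_of_lt hl, Nat.add_zero]

/-- **cell bound, values in the blocks of positions `β0..β1`** -/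
theorem cell_wide {q : Con} {lo hi : ℕ} {b : Prop}
    (hg : ∀ m, lo ≤ m → m ≤ hi → GoodBlk q (par m) (le m)) (K0 : ℕ)
    (hK : ∀ j, C.K j ≤ K0) (hK0 : 1 ≤ K0)
    (F : Set (TP par → TP par)) (hF : F ⊆ EndSet le lo hi b) (f0 : TP par → TP par) (m : ℕ)
    (hlo : lo ≤ m) (hhi : m ≤ hi) (c : Cell (par m)) (hT : 0 < (par m).T c.j) (β0 β1 : ℕ)
    (hval : ∀ f ∈ F, SkEq lo hi b f0 f → ∀ e,
      β0 ≤ bp lo hi (f (.pt m (.ce c e))) ∧ bp lo hi (f (.pt m (.ce c e))) ≤ β1)
    (β : ℝ) (hβ0 : 0 ≤ β)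
    (hβ : ∀ m', lo ≤ m' → m' ≤ hi → ∀ j, Real.log ((par m').T j : ℝ) ≤ β) :
    Real.log ((Ext lo hi b F f0 m c).ncard : ℝ) ≤
      C.K c.j * Real.log (cardT par lo hi : ℝ) + 4 * (par m).T c.j *
        (C.K c.j * Real.log (Q0 q C K0 : ℝ) + (C.K c.j * β +
          (2 * (β1 - β0 : ℕ) + 4) * Real.log (cardT par lo hi : ℝ))) := by
  have ho : ∀ m, lo ≤ m → m ≤ hi → BlkOrd (le m) := fun m h1 h2 => (hg m h1 h2).ord
  set D : Finset (TP par) := (partF par lo hi b).filter fun x =>
    β0 ≤ bp lo hi x ∧ bp lo hi x ≤ β1 with hD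
  have hDm : ∀ x, x ∈ D ↔ inT par lo hi b x ∧ β0 ≤ bp lo hi x ∧ bp lo hi x ≤ β1 := by
    intro x
    rw [hD, mem_filter, mem_partF]
  have hDcard : D.card ≤ cardT par lo hi :=
    (card_le_card (filter_subset _ _)).trans (card_partF_le par lo hi b)
  have hQ1 : 1 ≤ Q0 q C K0 := by
    have : 0 < Q0 q C K0 := by unfold Q0; positivity
    omega
  have hQR : (1 : ℝ) ≤ Q0 q C K0 := by exact_mod_cast hQ1
  have hlQ : 0 ≤ Real.log (Q0 q C K0 : ℝ) := Real.log_nonneg hQR
  have hlX : 0 ≤ Real.log (cardT par lo hi : ℝ) := Real.log_natCast_nonneg _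
  apply ext_log_le le lo hi b F hF f0 m hlo hhi (ho m hlo hhi) c hT D hDcard
  · intro f hf hsk e
    rw [hDm]
    exact ⟨(hF hf).1.maps _ ⟨hlo, hhi⟩, hval f hf hsk e⟩
  · positivity
  intro r hr hrD
  have htr : ∀ x ∈ D, ∀ y ∈ D, ∀ z ∈ D, TLe le x y → TLe le y z → TLe le x z := by
    intro x _ y hy z _ h1 h2
    exact tle_trans' (b := b) ho ((hDm y).1 hy).1 h1 h2
  have hrefl : ∀ x ∈ D, TLe le x x := fun x hx => tle_refl' (b := b) ho ((hDm x).1 hx).1
  have hpos : ∀ g, (0 : ℝ) < ((Intv (TLe le) D r g).card : ℝ) := by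
    intro g
    have : r g ∈ Intv (TLe le) D r g := by
      rw [mem_Intv]
      exact ⟨hrD g, fun g' h => hr _ _ h, fun g' h => hr _ _ h⟩
    exact_mod_cast Finset.card_pos.2 ⟨_, this⟩
  set B1 : Finset (Fin (C.K c.j)) := univ.filter fun g =>
    ¬ ∃ γ, ∀ x ∈ Intv (TLe le) D r g, bp lo hi x = γ with hB1
  set B2 : Finset (Fin (C.K c.j)) := univ.filter fun g =>
    g.val = 0 ∨ g.val + 1 = C.K c.j with hB2
  have hB1c : B1.card ≤ 2 * (β1 - β0) + 2 := by
    apply border_count (TLe le) D r hrD hr (bp lo hi) ?_ β0 β1 ?_ ?_ B1 ?_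
    · intro x hx y _ hxy
      exact bp_mono ((hDm x).1 hx).1 hxy
    · exact fun g => ((hDm _).1 (hrD g)).2.1
    · exact fun g => ((hDm _).1 (hrD g)).2.2
    · intro g hg
      rw [hB1, mem_filter] at hg
      exact hg.2
  have hB2c : B2.card ≤ 2 := by
    have h1 : B2.image (fun g : Fin (C.K c.j) => g.val) ⊆ {0, C.K c.j - 1} := by
      intro x hx
      rw [mem_image] at hx
      obtain ⟨g, hg, rfl⟩ := hx
      rw [hB2, mem_filter] at hg
      rw [mem_insert, mem_singleton]
      have := hg.2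
      omega
    have h2 : (B2.image (fun g : Fin (C.K c.j) => g.val)).card = B2.card :=
      card_image_of_injective _ Fin.val_injective
    rw [← h2]
    exact (card_le_card h1).trans card_le_two
  have hBc : (B1 ∪ B2).card ≤ 2 * (β1 - β0) + 4 := by
    have := card_union_le B1 B2
    omega
  have hterm : ∀ g, Real.log ((Intv (TLe le) D r g).card : ℝ) ≤
      (Real.log (Q0 q C K0 : ℝ) + β) +
        (if g ∈ B1 ∪ B2 then Real.log (cardT par lo hi : ℝ) else 0) := by
    intro g
    by_cases hgB : g ∈ B1 ∪ B2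
    · rw [if_pos hgB]
      have h1 : Real.log ((Intv (TLe le) D r g).card : ℝ) ≤
          Real.log (cardT par lo hi : ℝ) := by
        apply Real.log_le_log (hpos g)
        exact_mod_cast (card_le_card (filter_subset _ _)).trans hDcard
      linarith
    · rw [if_neg hgB]
      rw [mem_union, not_or] at hgB
      have h1 : ∃ γ, ∀ x ∈ Intv (TLe le) D r g, bp lo hi x = γ := by
        by_contra hcon
        exact hgB.1 (by rw [hB1, mem_filter]; exact ⟨mem_univ _, hcon⟩)
      have h2 : g.val ≠ 0 ∧ g.val + 1 ≠ C.K c.j := by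
        constructor
        · intro h
          exact hgB.2 (by rw [hB2, mem_filter]; exact ⟨mem_univ _, Or.inl h⟩)
        · intro h
          exact hgB.2 (by rw [hB2, mem_filter]; exact ⟨mem_univ _, Or.inr h⟩)
      have hends := intv_ends_int hr hrD hrefl g h2.1 h2.2
      have halt := intv_alt (b := b) hg K0 hK hK0 (Intv (TLe le) D r g)
        (fun x hx => ((hDm x).1 (mem_Intv.1 hx).1).1) hends (bp lo hi)
        (fun m x _ _ => rfl) rfl h1
      rcases halt with h | ⟨m', hm1, hm2, c', g', u, -, h3⟩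
      · have h4 : Real.log ((Intv (TLe le) D r g).card : ℝ) ≤ Real.log (Q0 q C K0 : ℝ) :=
          Real.log_le_log (hpos g) (by exact_mod_cast h)
        linarith
      · have hTpos : 0 < (par m').T c'.j := by
          rcases Nat.eq_zero_or_pos ((par m').T c'.j) with h0 | h0
          · rw [h0, mul_zero] at h3
            have := hpos g
            have h5 : 0 < (Intv (TLe le) D r g).card := by exact_mod_cast this
            omega
          · exact h0
        have hTR : (0 : ℝ) < ((par m').T c'.j : ℝ) := by exact_mod_cast hTpos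
        have h4 : Real.log ((Intv (TLe le) D r g).card : ℝ) ≤
            Real.log (Q0 q C K0 : ℝ) + Real.log ((par m').T c'.j : ℝ) := by
          rw [← Real.log_mul (by linarith) hTR.ne']
          exact Real.log_le_log (hpos g) (by exact_mod_cast h3)
        have := hβ m' hm1 hm2 c'.j
        linarith
  calc ∑ g, Real.log ((Intv (TLe le) D r g).card : ℝ)
      ≤ ∑ g, ((Real.log (Q0 q C K0 : ℝ) + β) +
        (if g ∈ B1 ∪ B2 then Real.log (cardT par lo hi : ℝ) else 0)) :=
        Finset.sum_le_sum fun g _ => hterm g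
    _ = C.K c.j * (Real.log (Q0 q C K0 : ℝ) + β) +
        (B1 ∪ B2).card * Real.log (cardT par lo hi : ℝ) := by
        rw [Finset.sum_add_distrib, Finset.sum_const, Finset.card_univ, Fintype.card_fin,
          nsmul_eq_mul, Finset.sum_ite_mem, Finset.univ_inter, Finset.sum_const, nsmul_eq_mul]
    _ ≤ C.K c.j * (Real.log (Q0 q C K0 : ℝ) + β) +
        (2 * (β1 - β0 : ℕ) + 4) * Real.log (cardT par lo hi : ℝ) := by
        have h1 : ((B1 ∪ B2).card : ℝ) ≤ 2 * ((β1 - β0 : ℕ) : ℝ) + 4 := by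
          exact_mod_cast hBc
        have := mul_le_mul_of_nonneg_right h1 hlX
        linarith
    _ = C.K c.j * Real.log (Q0 q C K0 : ℝ) + (C.K c.j * β +
          (2 * (β1 - β0 : ℕ) + 4) * Real.log (cardT par lo hi : ℝ)) := by ring

end Pool.Agent.AM.CellB
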