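import Pool.Agent.AM.S7Defs
import Pool.Agent.AM.CellB

set_option autoImplicit false

/-!
# Section 7: the two cell bounds in the form used by `LvlB`
-/

open scoped Classical
open Finset

noncomputable section

namespace Pool.Agent.AM

variable {C : Cst} {par : ℕ → Par C} {le : ∀ m, Pt (par m) → Pt (par m) → Prop} {q : Con}
  {lo hi : ℕ} {b : Prop} {F : Set (TP par → TP par)} {f0 : TP par → TP par}

/-- (7f) cell whose images lie between `yl` and `yu`, both in block `m'`. `tp` bounds the logs of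
the numbers of labels of the smaller classes of block `m'`, `lT` those of the others -/
theorem ext_log_sep (hG : ∀ m, lo ≤ m → m ≤ hi → GoodBlk q (par m) (le m))
    (hF : F ⊆ EndSet le lo hi b) {m : ℕ} (hm : lo ≤ m) (hm' : m ≤ hi) (c : Cell (par m))
    {m' : ℕ} (h1 : lo ≤ m') (h2 : m' ≤ hi) (yl yu : Pt (par m'))
    (htyp : ∀ f ∈ F, SkEq lo hi b f0 f → ∀ e,
      TLe le (.pt m' yl) (f (.pt m (.ce c e))) ∧ TLe le (f (.pt m (.ce c e))) (.pt m' yu))
    (K0 : ℕ) (hK : ∀ j, C.K j ≤ K0) (hK0 : 1 ≤ K0) (hT0 : 0 < (par m).T c.j)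
    (tp : ℝ) (htp0 : 0 ≤ tp) (htp : ∀ j < c.j, Real.log ((par m').T j : ℝ) ≤ tp)
    (lT : Fin C.W → ℝ) (hlT0 : ∀ j, 0 ≤ lT j) (hlT : ∀ j, Real.log ((par m').T j : ℝ) ≤ lT j) :
    Real.log ((Ext lo hi b F f0 m c).ncard : ℝ) ≤
      C.K c.j * Real.log (cardT par lo hi : ℝ) + 4 * (par m).T c.j *
        (C.K c.j * Real.log ((8 * (q.P + 2) * (C.h + 2) * K0 : ℕ) : ℝ) + (C.K c.j * tp +
          4 * ∑ j ∈ univ.filter (fun j : Fin C.W => c.j ≤ j),
            C.K j * (cc (le m') yl yu j : ℝ) * lT j)) := by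
  have hR : (0 : ℝ) ≤ C.K c.j * Real.log (cardT par lo hi : ℝ) + 4 * (par m).T c.j *
        (C.K c.j * Real.log ((8 * (q.P + 2) * (C.h + 2) * K0 : ℕ) : ℝ) + (C.K c.j * tp +
          4 * ∑ j ∈ univ.filter (fun j : Fin C.W => c.j ≤ j),
            C.K j * (cc (le m') yl yu j : ℝ) * lT j)) := by
    have h3 : 0 ≤ Real.log (cardT par lo hi : ℝ) := Real.log_natCast_nonneg _
    have h4 : 0 ≤ Real.log ((8 * (q.P + 2) * (C.h + 2) * K0 : ℕ) : ℝ) := Real.log_natCast_nonneg _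
    have h5 : 0 ≤ ∑ j ∈ univ.filter (fun j : Fin C.W => c.j ≤ j),
            C.K j * (cc (le m') yl yu j : ℝ) * lT j :=
      Finset.sum_nonneg fun j _ => mul_nonneg (by positivity) (hlT0 j)
    positivity
  by_cases hle : le m' yl yu
  · exact CellB.cell_sep hG K0 hK hK0 F hF f0 m hm hm' c hT0 m' h1 h2 yl yu hle htyp lT hlT hlT0 tp
      htp0 htp
  · have hcard : (Ext lo hi b F f0 m c).ncard ≤ 1 := by
      by_cases hKc : C.K c.j = 0
      · -- the cell is empty
        have hsub : (Ext lo hi b F f0 m c).Subsingleton := by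
          intro g _ g' _
          funext e
          have h := e.1.isLt
          omega
        have : Finite ↑(Ext lo hi b F f0 m c) := hsub.finite
        exact Set.ncard_le_one_iff_subsingleton.2 hsub
      · -- no map extends the skeleton
        have hem : Ext lo hi b F f0 m c = ∅ := by
          rw [Set.eq_empty_iff_forall_notMem]
          rintro g ⟨f, hf, hs, rfl⟩
          obtain ⟨h3, h4⟩ := htyp f hf hs (⟨0, Nat.pos_of_ne_zero hKc⟩, .A, ⟨0, hT0⟩)
          obtain ⟨w, -, h5, h6⟩ := tle_sandwich' h3 h4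
          exact hle ((hG m' h1 h2).ord.trans _ _ _ h5 h6)
        rw [hem, Set.ncard_empty]
        omega
    refine le_trans (Real.log_nonpos (by positivity) (by exact_mod_cast hcard)) hR

/-- (7g) cell whose images have heights in `[a, a']`. `tm` bounds the logs of the numbers of labels
of all blocks -/
theorem ext_log_wide (hG : ∀ m, lo ≤ m → m ≤ hi → GoodBlk q (par m) (le m))
    (hF : F ⊆ EndSet le lo hi b) {m : ℕ} (hm : lo ≤ m) (hm' : m ≤ hi) (c : Cell (par m))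
    (a a' : ℕ)
    (htyp : ∀ f ∈ F, SkEq lo hi b f0 f → ∀ e,
      a ≤ idx lo hi (f (.pt m (.ce c e))) ∧ idx lo hi (f (.pt m (.ce c e))) ≤ a')
    (K0 : ℕ) (hK : ∀ j, C.K j ≤ K0) (hK0 : 1 ≤ K0) (hT0 : 0 < (par m).T c.j)
    (tm : ℝ) (htm0 : 0 ≤ tm) (htm : ∀ m', lo ≤ m' → m' ≤ hi → ∀ j,
      Real.log ((par m').T j : ℝ) ≤ tm) :
    Real.log ((Ext lo hi b F f0 m c).ncard : ℝ) ≤
      C.K c.j * Real.log (cardT par lo hi : ℝ) + 4 * (par m).T c.j *
        (C.K c.j * Real.log ((8 * (q.P + 2) * (C.h + 2) * K0 : ℕ) : ℝ) + (C.K c.j * tm +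
          (2 * ((a' / (C.h + 2) - a / (C.h + 2) : ℕ) : ℝ) + 4) *
            Real.log (cardT par lo hi : ℝ))) := by
  refine CellB.cell_wide hG K0 hK hK0 F hF f0 m hm hm' c hT0 (a / (C.h + 2)) (a' / (C.h + 2)) ?_
    tm htm0 htm
  intro f hf hs e
  obtain ⟨h1, h2⟩ := htyp f hf hs e
  rw [CellB.bp_eq]
  exact ⟨Nat.div_le_div_right h1, Nat.div_le_div_right h2⟩

end Pool.Agent.AM
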