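import Mathlib

set_option autoImplicit false

/-! MP_61102a_co, S09118: abstract counting lemmas on `Ω = (I → V)` (uniform, finite):
a fibre of `ω` is the set of all `ω'` which agree with `ω` off a set `S` of coordinates. -/

namespace Pool.Agent.AM.CN

open Finset

variable {I V : Type} [Fintype I] [DecidableEq I] [Fintype V] [DecidableEq V]

/-- number of functions agreeing with `ω` off `S` and lying in `B i` for `i ∈ S` -/
theorem fib_card_prod (S : Finset I) (ω : I → V) (B : I → Finset V) :
    (univ.filter fun ω' : I → V => (∀ i, i ∉ S → ω' i = ω i) ∧ ∀ i ∈ S, ω' i ∈ B i).card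
      = ∏ i ∈ S, (B i).card := by
  classical
  have h1 : (univ.filter fun ω' : I → V => (∀ i, i ∉ S → ω' i = ω i) ∧ ∀ i ∈ S, ω' i ∈ B i)
      = Fintype.piFinset (fun i => if i ∈ S then B i else {ω i}) := by
    ext ω'
    simp only [mem_filter, mem_univ, true_and, Fintype.mem_piFinset]
    constructor
    · rintro ⟨h1, h2⟩ i
      by_cases hi : i ∈ S
      · rw [if_pos hi]; exact h2 i hi
      · rw [if_neg hi, mem_singleton]; exact h1 i hi
    · intro h
      refine ⟨fun i hi => ?_, fun i hi => ?_⟩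
      · have := h i
        rwa [if_neg hi, mem_singleton] at this
      · have := h i
        rwa [if_pos hi] at this
  rw [h1, Fintype.card_piFinset]
  have h2 : ∀ i, (if i ∈ S then B i else {ω i}).card = if i ∈ S then (B i).card else 1 := by
    intro i; split_ifs <;> simp
  simp only [h2]
  rw [Finset.prod_ite_mem]
  simp

theorem fib_card (S : Finset I) (ω : I → V) :
    (univ.filter fun ω' : I → V => ∀ i, i ∉ S → ω' i = ω i).card
      = Fintype.card V ^ S.card := by
  have := fib_card_prod S ω (fun _ => (univ : Finset V))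
  simp only [mem_univ, implies_true, and_true, prod_const, card_univ] at this
  exact this

/-- FIBRING: if every fibre contains at most `K` points of the event `P`, then
`#P * |V|^|S| ≤ K * #Ω`. -/
theorem fib_count (S : Finset I) (P : (I → V) → Prop) [DecidablePred P] (K : ℕ)
    (h : ∀ ω : I → V,
      (univ.filter fun ω' : I → V => (∀ i, i ∉ S → ω' i = ω i) ∧ P ω').card ≤ K) :
    (univ.filter P).card * Fintype.card V ^ S.card ≤ K * Fintype.card (I → V) := by
  classical
  have h1 : ∑ ω : I → V, (univ.filter fun ω' : I → V => (∀ i, i ∉ S → ω' i = ω i) ∧ P ω').card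
      = (univ.filter P).card * Fintype.card V ^ S.card := by
    simp_rw [Finset.card_filter]
    rw [Finset.sum_comm]
    rw [Finset.sum_mul]
    apply Finset.sum_congr rfl
    intro ω' _
    by_cases hP : P ω'
    · simp only [hP, and_true, if_true, one_mul]
      rw [← fib_card S ω', Finset.card_filter]
      apply Finset.sum_congr rfl
      intro ω _
      simp only [eq_comm]
    · simp [hP]
  rw [← h1]
  calc ∑ ω : I → V, (univ.filter fun ω' : I → V => (∀ i, i ∉ S → ω' i = ω i) ∧ P ω').card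
      ≤ ∑ _ω : I → V, K := Finset.sum_le_sum fun ω _ => h ω
    _ = K * Fintype.card (I → V) := by simp [mul_comm]

/-- real version of the fibring lemma: if every fibre contains at most `q |V|^|S|` points of the
event, then the event has at most `q #Ω` points. -/
theorem fib_count_real (S : Finset I) (P : (I → V) → Prop) [DecidablePred P] (q : ℝ)
    (h : ∀ ω : I → V,
      ((univ.filter fun ω' : I → V => (∀ i, i ∉ S → ω' i = ω i) ∧ P ω').card : ℝ)
        ≤ q * (Fintype.card V : ℝ) ^ S.card) :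
    ((univ.filter P).card : ℝ) ≤ q * (Fintype.card (I → V) : ℝ) := by
  classical
  have h1 : ∑ ω : I → V, (univ.filter fun ω' : I → V => (∀ i, i ∉ S → ω' i = ω i) ∧ P ω').card
      = (univ.filter P).card * Fintype.card V ^ S.card := by
    simp_rw [Finset.card_filter]
    rw [Finset.sum_comm]
    rw [Finset.sum_mul]
    apply Finset.sum_congr rfl
    intro ω' _
    by_cases hP : P ω'
    · simp only [hP, and_true, if_true, one_mul]
      rw [← fib_card S ω', Finset.card_filter]
      apply Finset.sum_congr rfl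
      intro ω _
      simp only [eq_comm]
    · simp [hP]
  rcases isEmpty_or_nonempty (I → V) with hemp | hne
  · have e0 : (univ.filter P).card = 0 := by
      rw [Finset.card_eq_zero]
      ext ω
      exact (hemp.false ω).elim
    rw [e0, Fintype.card_eq_zero]
    simp
  · obtain ⟨ω0⟩ := hne
    have hVS : 0 < ((Fintype.card V : ℝ)) ^ S.card := by
      have h0 : (univ.filter fun ω' : I → V => ∀ i, i ∉ S → ω' i = ω0 i).card ≠ 0 := by
        rw [Finset.card_ne_zero]
        exact ⟨ω0, by simp⟩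
      rw [fib_card] at h0
      exact_mod_cast Nat.pos_of_ne_zero h0
    have h2 : ((univ.filter P).card : ℝ) * (Fintype.card V : ℝ) ^ S.card
        ≤ (q * (Fintype.card (I → V) : ℝ)) * (Fintype.card V : ℝ) ^ S.card := by
      have h3 : ((univ.filter P).card : ℝ) * (Fintype.card V : ℝ) ^ S.card
          = ∑ ω : I → V,
            ((univ.filter fun ω' : I → V => (∀ i, i ∉ S → ω' i = ω i) ∧ P ω').card : ℝ) := by
        exact_mod_cast h1.symm
      rw [h3]
      calc ∑ ω : I → V,
            ((univ.filter fun ω' : I → V => (∀ i, i ∉ S → ω' i = ω i) ∧ P ω').card : ℝ)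
          ≤ ∑ _ω : I → V, q * (Fintype.card V : ℝ) ^ S.card :=
            Finset.sum_le_sum fun ω _ => h ω
        _ = (q * (Fintype.card (I → V) : ℝ)) * (Fintype.card V : ℝ) ^ S.card := by
            simp only [sum_const, card_univ, nsmul_eq_mul]; ring
    exact le_of_mul_le_mul_right h2 hVS

/-- HITS in one fibre: trials `T ⊆ S`, targets `B i` of size `≤ q`, at least `h` hits. -/
theorem fib_hits (S T : Finset I) (hTS : T ⊆ S) (ω : I → V) (B : I → Finset V) (q h N : ℕ)
    (hB : ∀ i ∈ T, (B i).card ≤ q) (hN : T.card ≤ N) :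
    (univ.filter fun ω' : I → V => (∀ i, i ∉ S → ω' i = ω i) ∧
        h ≤ (T.filter fun i => ω' i ∈ B i).card).card * Fintype.card V ^ h
      ≤ N.choose h * q ^ h * Fintype.card V ^ S.card := by
  classical
  by_cases hhT : h ≤ T.card
  swap
  · have e0 : (univ.filter fun ω' : I → V => (∀ i, i ∉ S → ω' i = ω i) ∧
        h ≤ (T.filter fun i => ω' i ∈ B i).card) = ∅ := by
      ext ω'
      simp only [mem_filter, mem_univ, true_and, notMem_empty, iff_false, not_and, not_le]
      intro _
      exact lt_of_le_of_lt (Finset.card_filter_le _ _) (not_le.mp hhT)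
    rw [e0]; simp
  have hsub : (univ.filter fun ω' : I → V => (∀ i, i ∉ S → ω' i = ω i) ∧
        h ≤ (T.filter fun i => ω' i ∈ B i).card)
      ⊆ (T.powersetCard h).biUnion fun A =>
        univ.filter fun ω' : I → V => (∀ i, i ∉ S → ω' i = ω i) ∧ ∀ i ∈ S,
          ω' i ∈ (if i ∈ A then B i else univ) := by
    intro ω' hω'
    simp only [mem_filter, mem_univ, true_and] at hω'
    obtain ⟨h1, h2⟩ := hω'
    obtain ⟨A, hA, hAc⟩ := Finset.exists_subset_card_eq h2
    simp only [mem_biUnion, mem_powersetCard, mem_filter, mem_univ, true_and]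
    refine ⟨A, ⟨fun i hi => (mem_filter.mp (hA hi)).1, hAc⟩, h1, fun i _ => ?_⟩
    split_ifs with hi
    · exact (mem_filter.mp (hA hi)).2
    · exact mem_univ _
  have hone : ∀ A ∈ T.powersetCard h,
      (univ.filter fun ω' : I → V => (∀ i, i ∉ S → ω' i = ω i) ∧ ∀ i ∈ S,
          ω' i ∈ (if i ∈ A then B i else univ)).card * Fintype.card V ^ h
        ≤ q ^ h * Fintype.card V ^ S.card := by
    intro A hA
    rw [mem_powersetCard] at hA
    obtain ⟨hAT, hAc⟩ := hA
    have hAS : A ⊆ S := hAT.trans hTS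
    rw [fib_card_prod]
    have h3 : ∏ i ∈ S, (if i ∈ A then B i else univ : Finset V).card
        = (∏ i ∈ A, (B i).card) * Fintype.card V ^ (S \ A).card := by
      rw [← Finset.prod_sdiff hAS, mul_comm]
      congr 1
      · apply Finset.prod_congr rfl
        intro i hi; rw [if_pos hi]
      · rw [← Finset.prod_const]
        apply Finset.prod_congr rfl
        intro i hi
        rw [mem_sdiff] at hi
        rw [if_neg hi.2, card_univ]
    rw [h3]
    have h4 : ∏ i ∈ A, (B i).card ≤ q ^ h := by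
      rw [← hAc, ← Finset.prod_const]
      exact Finset.prod_le_prod' fun i hi => hB i (hAT hi)
    have h5 : (S \ A).card + h = S.card := by
      rw [Finset.card_sdiff_of_subset hAS, hAc]
      have := Finset.card_le_card hAS
      omega
    calc (∏ i ∈ A, (B i).card) * Fintype.card V ^ (S \ A).card * Fintype.card V ^ h
        = (∏ i ∈ A, (B i).card) * Fintype.card V ^ S.card := by
          rw [mul_assoc, ← pow_add, h5]
      _ ≤ q ^ h * Fintype.card V ^ S.card := Nat.mul_le_mul_right _ h4
  calc (univ.filter fun ω' : I → V => (∀ i, i ∉ S → ω' i = ω i) ∧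
        h ≤ (T.filter fun i => ω' i ∈ B i).card).card * Fintype.card V ^ h
      ≤ (∑ A ∈ T.powersetCard h,
        (univ.filter fun ω' : I → V => (∀ i, i ∉ S → ω' i = ω i) ∧ ∀ i ∈ S,
          ω' i ∈ (if i ∈ A then B i else univ)).card) * Fintype.card V ^ h :=
        Nat.mul_le_mul_right _ ((Finset.card_le_card hsub).trans Finset.card_biUnion_le)
    _ = ∑ A ∈ T.powersetCard h,
        (univ.filter fun ω' : I → V => (∀ i, i ∉ S → ω' i = ω i) ∧ ∀ i ∈ S,
          ω' i ∈ (if i ∈ A then B i else univ)).card * Fintype.card V ^ h := by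
        rw [Finset.sum_mul]
    _ ≤ ∑ _A ∈ T.powersetCard h, q ^ h * Fintype.card V ^ S.card := Finset.sum_le_sum hone
    _ = T.card.choose h * (q ^ h * Fintype.card V ^ S.card) := by
        rw [Finset.sum_const, card_powersetCard, smul_eq_mul]
    _ ≤ N.choose h * (q ^ h * Fintype.card V ^ S.card) :=
        Nat.mul_le_mul_right _ (Nat.choose_le_choose h hN)
    _ = N.choose h * q ^ h * Fintype.card V ^ S.card := by ring

/-- HITS: the trials `T ω ⊆ S` (at most `N`) and the targets `B ω i` (at most `q` values) depend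
only on the coordinates off `S`.  Then
`#{ω | at least h of the trials hit} * |V|^h ≤ C(N,h) q^h #Ω`. -/
theorem hits_count (S : Finset I) (T : (I → V) → Finset I) (B : (I → V) → I → Finset V)
    (q h N : ℕ)
    (hTS : ∀ ω, T ω ⊆ S)
    (hT : ∀ ω ω' : I → V, (∀ i, i ∉ S → ω' i = ω i) → T ω' = T ω)
    (hBi : ∀ ω ω' : I → V, (∀ i, i ∉ S → ω' i = ω i) → ∀ i ∈ T ω, B ω' i = B ω i)
    (hB : ∀ ω, ∀ i ∈ T ω, (B ω i).card ≤ q) (hN : ∀ ω, (T ω).card ≤ N) :
    (univ.filter fun ω : I → V => h ≤ ((T ω).filter fun i => ω i ∈ B ω i).card).card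
        * Fintype.card V ^ h
      ≤ N.choose h * q ^ h * Fintype.card (I → V) := by
  classical
  rcases Nat.eq_zero_or_pos (Fintype.card V) with hV | hV
  · by_cases hI : IsEmpty I
    · -- no coordinates
      have hT0 : ∀ ω, T ω = ∅ := fun ω => Finset.eq_empty_of_isEmpty _
      rcases Nat.eq_zero_or_pos h with rfl | hh
      · simp only [pow_zero, mul_one, Nat.choose_zero_right, one_mul]
        exact (Finset.card_le_univ _)
      · simp [hV, hh.ne']
    · have : Fintype.card (I → V) = 0 := by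
        rw [not_isEmpty_iff] at hI
        rw [Fintype.card_eq_zero_iff]
        have hVe : IsEmpty V := Fintype.card_eq_zero_iff.mp hV
        obtain ⟨i⟩ := hI
        exact ⟨fun f => hVe.false (f i)⟩
      have h2 := Finset.card_le_univ
        (univ.filter fun ω : I → V => h ≤ ((T ω).filter fun i => ω i ∈ B ω i).card)
      rw [this] at h2
      have h3 : (univ.filter fun ω : I → V =>
        h ≤ ((T ω).filter fun i => ω i ∈ B ω i).card).card = 0 := by omega
      rw [h3]; simp
  have hfib : ∀ ω : I → V,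
      (univ.filter fun ω' : I → V => (∀ i, i ∉ S → ω' i = ω i) ∧
        h ≤ ((T ω').filter fun i => ω' i ∈ B ω' i).card).card * Fintype.card V ^ h
      ≤ N.choose h * q ^ h * Fintype.card V ^ S.card := by
    intro ω
    refine le_trans (Nat.mul_le_mul_right _ (Finset.card_le_card ?_))
      (fib_hits S (T ω) (hTS ω) ω (B ω) q h N (hB ω) (hN ω))
    intro ω' hω'
    simp only [mem_filter, mem_univ, true_and] at hω' ⊢
    obtain ⟨h1, h2⟩ := hω'
    refine ⟨h1, h2.trans (Finset.card_le_card ?_)⟩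
    rw [hT ω ω' h1]
    intro i hi
    rw [mem_filter] at hi ⊢
    rw [hBi ω ω' h1 i hi.1] at hi
    exact hi
  have hVh : (0 : ℝ) < (Fintype.card V : ℝ) ^ h := by
    have : (0 : ℝ) < (Fintype.card V : ℝ) := by exact_mod_cast hV
    positivity
  have key := fib_count_real S
    (fun ω : I → V => h ≤ ((T ω).filter fun i => ω i ∈ B ω i).card)
    ((N.choose h * q ^ h : ℕ) / (Fintype.card V : ℝ) ^ h) (by
      intro ω
      have := hfib ω
      have h' : ((univ.filter fun ω' : I → V => (∀ i, i ∉ S → ω' i = ω i) ∧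
        h ≤ ((T ω').filter fun i => ω' i ∈ B ω' i).card).card : ℝ) * (Fintype.card V : ℝ) ^ h
          ≤ ((N.choose h * q ^ h : ℕ) : ℝ) * (Fintype.card V : ℝ) ^ S.card := by
        exact_mod_cast this
      rw [div_mul_eq_mul_div, le_div_iff₀ hVh]
      exact h')
  rw [div_mul_eq_mul_div, le_div_iff₀ hVh] at key
  exact_mod_cast key

/-- AVOIDANCE: bad sets `B ω i` for `i ∈ S` which depend only on the coordinates off `S`;
the event: total size of the bad sets at least `s |V|` and every coordinate of `S` avoids its bad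
set.  Its measure is at most `exp (-s)`. -/
theorem avoid_count [Nonempty V] (S : Finset I) (B : (I → V) → I → Finset V) (s : ℝ)
    (hBi : ∀ ω ω' : I → V, (∀ i, i ∉ S → ω' i = ω i) → ∀ i ∈ S, B ω' i = B ω i) :
    ((univ.filter fun ω : I → V =>
        s * (Fintype.card V : ℝ) ≤ ∑ i ∈ S, ((B ω i).card : ℝ) ∧ ∀ i ∈ S, ω i ∉ B ω i).card : ℝ)
      ≤ Real.exp (-s) * (Fintype.card (I → V) : ℝ) := by
  classical
  have hV : (0 : ℝ) < (Fintype.card V : ℝ) := by exact_mod_cast Fintype.card_pos
  apply fib_count_real S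
  intro ω
  by_cases hs : s * (Fintype.card V : ℝ) ≤ ∑ i ∈ S, ((B ω i).card : ℝ)
  · have h1 : (univ.filter fun ω' : I → V => (∀ i, i ∉ S → ω' i = ω i) ∧
        (s * (Fintype.card V : ℝ) ≤ ∑ i ∈ S, ((B ω' i).card : ℝ) ∧ ∀ i ∈ S, ω' i ∉ B ω' i)).card
        ≤ ∏ i ∈ S, ((B ω i)ᶜ).card := by
      rw [← fib_card_prod S ω (fun i => (B ω i)ᶜ)]
      apply Finset.card_le_card
      intro ω' hω'
      simp only [mem_filter, mem_univ, true_and, mem_compl] at hω' ⊢
      refine ⟨hω'.1, fun i hi => ?_⟩
      rw [← hBi ω ω' hω'.1 i hi]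
      exact hω'.2.2 i hi
    have h2 : ((∏ i ∈ S, ((B ω i)ᶜ).card : ℕ) : ℝ)
        ≤ Real.exp (-s) * (Fintype.card V : ℝ) ^ S.card := by
      rw [Nat.cast_prod]
      have h3 : ∀ i ∈ S, (((B ω i)ᶜ).card : ℝ)
          ≤ (Fintype.card V : ℝ) * Real.exp (-(((B ω i).card : ℝ) / (Fintype.card V : ℝ))) := by
        intro i _
        have h4 : (((B ω i)ᶜ).card : ℝ) = (Fintype.card V : ℝ) - ((B ω i).card : ℝ) := by
          rw [Finset.card_compl, Nat.cast_sub (Finset.card_le_univ _)]
        have h5 := Real.add_one_le_exp (-(((B ω i).card : ℝ) / (Fintype.card V : ℝ)))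
        calc (((B ω i)ᶜ).card : ℝ)
            = (Fintype.card V : ℝ) * (-(((B ω i).card : ℝ) / (Fintype.card V : ℝ)) + 1) := by
              rw [h4]; field_simp; ring
          _ ≤ _ := mul_le_mul_of_nonneg_left h5 hV.le
      calc ∏ i ∈ S, (((B ω i)ᶜ).card : ℝ)
          ≤ ∏ i ∈ S, ((Fintype.card V : ℝ)
              * Real.exp (-(((B ω i).card : ℝ) / (Fintype.card V : ℝ)))) :=
            Finset.prod_le_prod (fun i _ => Nat.cast_nonneg _) h3
        _ = (Fintype.card V : ℝ) ^ S.card
              * Real.exp (-((∑ i ∈ S, ((B ω i).card : ℝ)) / (Fintype.card V : ℝ))) := by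
            rw [Finset.prod_mul_distrib, Finset.prod_const, ← Real.exp_sum]
            congr 2
            rw [Finset.sum_neg_distrib, Finset.sum_div]
        _ ≤ (Fintype.card V : ℝ) ^ S.card * Real.exp (-s) := by
            apply mul_le_mul_of_nonneg_left _ (by positivity)
            apply Real.exp_le_exp.mpr
            apply neg_le_neg
            rw [le_div_iff₀ hV]
            exact hs
        _ = _ := mul_comm _ _
    refine le_trans ?_ h2
    exact_mod_cast h1
  · have e0 : (univ.filter fun ω' : I → V => (∀ i, i ∉ S → ω' i = ω i) ∧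
        (s * (Fintype.card V : ℝ) ≤ ∑ i ∈ S, ((B ω' i).card : ℝ) ∧ ∀ i ∈ S, ω' i ∉ B ω' i))
        = ∅ := by
      ext ω'
      simp only [mem_filter, mem_univ, true_and, notMem_empty, iff_false, not_and]
      intro h1 h2
      exfalso
      apply hs
      calc s * (Fintype.card V : ℝ) ≤ ∑ i ∈ S, ((B ω' i).card : ℝ) := h2
        _ = _ := Finset.sum_congr rfl fun i hi => by rw [hBi ω ω' h1 i hi]
    rw [e0]
    simp only [card_empty, Nat.cast_zero]
    positivity

/-! ### the curried forms: `Ω = (R → ι → V)`, free ROWS -/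

section curried

variable {R ι : Type} [Fintype R] [DecidableEq R] [Fintype ι] [DecidableEq ι]

omit [DecidableEq V] in
/-- event counts may be computed for uncurried functions -/
theorem card_filter_curry (P : (R → ι → V) → Prop) [DecidablePred P] :
    (univ.filter P).card
      = (univ.filter fun ω : R × ι → V => P (fun r i => ω (r, i))).card := by
  classical
  apply Finset.card_bij' (fun ω _ => fun p : R × ι => ω p.1 p.2)
    (fun ω _ => fun r i => ω (r, i))
  · intro ω hω
    simpa using hω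
  · intro ω hω
    simpa using hω
  · intro ω _; rfl
  · intro ω _; rfl

omit [DecidableEq V] in
theorem card_curry : Fintype.card (R → ι → V) = Fintype.card (R × ι → V) :=
  Fintype.card_congr (Equiv.curry R ι V).symm

/-- HITS, curried: the rows in `S` are free; trials `T ω ⊆ S × ι` (at most `N`), targets
`B ω r i` (at most `q` values), both unchanged when rows of `S` are changed. -/
theorem hits_rows (S : Finset R) (T : (R → ι → V) → Finset (R × ι))
    (B : (R → ι → V) → R → ι → Finset V) (q h N : ℕ)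
    (hTS : ∀ ω, ∀ p ∈ T ω, p.1 ∈ S)
    (hT : ∀ ω ω' : R → ι → V, (∀ r, r ∉ S → ω' r = ω r) → T ω' = T ω)
    (hBi : ∀ ω ω' : R → ι → V, (∀ r, r ∉ S → ω' r = ω r) →
      ∀ p ∈ T ω, B ω' p.1 p.2 = B ω p.1 p.2)
    (hB : ∀ ω, ∀ p ∈ T ω, (B ω p.1 p.2).card ≤ q) (hN : ∀ ω, (T ω).card ≤ N) :
    (univ.filter fun ω : R → ι → V =>
        h ≤ ((T ω).filter fun p => ω p.1 p.2 ∈ B ω p.1 p.2).card).card * Fintype.card V ^ h
      ≤ N.choose h * q ^ h * Fintype.card (R → ι → V) := by
  classical
  rw [card_filter_curry, card_curry]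
  have hagree : ∀ ω ω' : R × ι → V, (∀ p : R × ι, p ∉ S ×ˢ (univ : Finset ι) → ω' p = ω p) →
      ∀ r, r ∉ S → (fun i => ω' (r, i)) = (fun i => ω (r, i)) := by
    intro ω ω' h1 r hr
    funext i
    exact h1 (r, i) (by simp [hr])
  exact hits_count (S ×ˢ (univ : Finset ι)) (fun ω => T (fun r i => ω (r, i)))
    (fun ω p => B (fun r i => ω (r, i)) p.1 p.2) q h N
    (fun ω p hp => by
      rw [mem_product]
      exact ⟨hTS _ p hp, mem_univ _⟩)
    (fun ω ω' h1 => hT _ _ (hagree ω ω' h1))
    (fun ω ω' h1 p hp => hBi _ _ (hagree ω ω' h1) p hp)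
    (fun ω p hp => hB _ p hp) (fun ω => hN _)

/-- HITS, one row: at least `h` of the picks of row `r` lie in a set `B ω` of size `≤ q` which
does not depend on row `r`. -/
theorem hits_one_row (r : R) (B : (R → ι → V) → Finset V) (q h : ℕ)
    (hBi : ∀ ω ω' : R → ι → V, (∀ r', r' ≠ r → ω' r' = ω r') → B ω' = B ω)
    (hB : ∀ ω, (B ω).card ≤ q) :
    (univ.filter fun ω : R → ι → V =>
        h ≤ (univ.filter fun i => ω r i ∈ B ω).card).card * Fintype.card V ^ h
      ≤ (Fintype.card ι).choose h * q ^ h * Fintype.card (R → ι → V) := by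
  classical
  have key := hits_rows (R := R) (ι := ι) (V := V) {r} (fun _ => ({r} : Finset R) ×ˢ univ)
    (fun ω _ _ => B ω) q h (Fintype.card ι)
    (fun ω p hp => (mem_product.mp hp).1) (fun _ _ _ => rfl)
    (fun ω ω' h1 p _ => hBi ω ω' (fun r' hr' => h1 r' (by simpa using hr')))
    (fun ω _ _ => hB ω) (fun ω => by simp)
  have e : ∀ ω : R → ι → V,
      ((({r} : Finset R) ×ˢ (univ : Finset ι)).filter fun p => ω p.1 p.2 ∈ B ω).card
        = (univ.filter fun i => ω r i ∈ B ω).card := by
    intro ω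
    refine Finset.card_bij' (fun p _ => p.2) (fun i _ => (r, i)) ?_ ?_ ?_ ?_
    · rintro ⟨r', i⟩ hp
      simp only [mem_filter, mem_product, mem_singleton, mem_univ, and_true, true_and] at hp ⊢
      rw [← hp.1]; exact hp.2
    · intro i hi
      simpa using hi
    · rintro ⟨r', i⟩ hp
      simp only [mem_filter, mem_product, mem_singleton, mem_univ, and_true] at hp
      rw [hp.1]
    · intro i _; rfl
  simp only [e] at key
  exact key

/-- AVOIDANCE, curried: bad sets `B ω r` for the free rows `r ∈ S`, unchanged when rows of `S`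
are changed; event: `∑_{r ∈ S} |B ω r| ≥ s |V|` and no pick of a row of `S` lies in its bad
set.  Measure at most `exp (- d s)`, `d = |ι|`. -/
theorem avoid_rows [Nonempty V] (S : Finset R) (B : (R → ι → V) → R → Finset V) (s : ℝ)
    (hBi : ∀ ω ω' : R → ι → V, (∀ r, r ∉ S → ω' r = ω r) → ∀ r ∈ S, B ω' r = B ω r) :
    ((univ.filter fun ω : R → ι → V =>
        s * (Fintype.card V : ℝ) ≤ ∑ r ∈ S, ((B ω r).card : ℝ) ∧
          ∀ r ∈ S, ∀ i, ω r i ∉ B ω r).card : ℝ)
      ≤ Real.exp (-((Fintype.card ι : ℝ) * s)) * (Fintype.card (R → ι → V) : ℝ) := by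
  classical
  rw [card_filter_curry, card_curry]
  have hagree : ∀ ω ω' : R × ι → V, (∀ p : R × ι, p ∉ S ×ˢ (univ : Finset ι) → ω' p = ω p) →
      ∀ r, r ∉ S → (fun i => ω' (r, i)) = (fun i => ω (r, i)) := by
    intro ω ω' h1 r hr
    funext i
    exact h1 (r, i) (by simp [hr])
  refine le_trans ?_ (avoid_count (S ×ˢ (univ : Finset ι))
    (fun ω p => B (fun r i => ω (r, i)) p.1) ((Fintype.card ι : ℝ) * s)
    (fun ω ω' h1 p hp => hBi _ _ (hagree ω ω' h1) p.1 (mem_product.mp hp).1))
  rw [Nat.cast_le]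
  apply Finset.card_le_card
  intro ω hω
  simp only [mem_filter, mem_univ, true_and] at hω ⊢
  obtain ⟨h1, h2⟩ := hω
  refine ⟨?_, ?_⟩
  · rw [Finset.sum_product]
    simp only [sum_const, card_univ, nsmul_eq_mul]
    rw [← Finset.mul_sum, mul_assoc]
    exact mul_le_mul_of_nonneg_left h1 (Nat.cast_nonneg _)
  · rintro ⟨r, i⟩ hp
    exact h2 r (mem_product.mp hp).1 i

end curried

/-! ### union bounds, products of blocks, a binomial estimate -/

/-- union bound with densities -/
theorem exists_good {Ω κ : Type} [Fintype Ω] [Nonempty Ω] (s : Finset κ) (E : κ → Ω → Prop)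
    [∀ k, DecidablePred (E k)] (p : κ → ℝ)
    (h : ∀ k ∈ s, ((univ.filter (E k)).card : ℝ) ≤ p k * (Fintype.card Ω : ℝ))
    (hs : ∑ k ∈ s, p k < 1) : ∃ ω, ∀ k ∈ s, ¬ E k ω := by
  classical
  by_contra hcon
  push Not at hcon
  have hΩ : (0 : ℝ) < (Fintype.card Ω : ℝ) := by exact_mod_cast Fintype.card_pos
  have h1 : (univ : Finset Ω) ⊆ s.biUnion fun k => univ.filter (E k) := by
    intro ω _
    obtain ⟨k, hk, hE⟩ := hcon ω
    simp only [mem_biUnion, mem_filter, mem_univ, true_and]
    exact ⟨k, hk, hE⟩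
  have h2 : (Fintype.card Ω : ℝ) ≤ ∑ k ∈ s, ((univ.filter (E k)).card : ℝ) := by
    have := (Finset.card_le_card h1).trans Finset.card_biUnion_le
    rw [card_univ] at this
    exact_mod_cast this
  have h3 : ∑ k ∈ s, ((univ.filter (E k)).card : ℝ) ≤ (∑ k ∈ s, p k) * (Fintype.card Ω : ℝ) := by
    rw [Finset.sum_mul]; exact Finset.sum_le_sum h
  nlinarith

/-- densities may be computed in one component of a product, the others being fixed -/
theorem update_count {μ : Type} [Fintype μ] [DecidableEq μ] {Ω : μ → Type}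
    [∀ m, Fintype (Ω m)] [∀ m, Nonempty (Ω m)] (m : μ) (P : (∀ m, Ω m) → Prop) [DecidablePred P]
    (q : ℝ)
    (h : ∀ ω : (∀ m, Ω m),
      ((univ.filter fun x : Ω m => P (Function.update ω m x)).card : ℝ)
        ≤ q * (Fintype.card (Ω m) : ℝ)) :
    ((univ.filter P).card : ℝ) ≤ q * (Fintype.card (∀ m, Ω m) : ℝ) := by
  classical
  have hpos : (0 : ℝ) < (Fintype.card (Ω m) : ℝ) := by exact_mod_cast Fintype.card_pos
  -- count pairs (ω, x) with P (update ω m x)
  have h1 : ((univ : Finset (∀ m, Ω m)).sum fun ω =>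
      ((univ.filter fun x : Ω m => P (Function.update ω m x)).card))
        = (univ.filter P).card * Fintype.card (Ω m) := by
    have e1 : ((univ : Finset (∀ m, Ω m)).sum fun ω =>
      ((univ.filter fun x : Ω m => P (Function.update ω m x)).card))
        = (univ.filter fun p : (∀ m, Ω m) × Ω m => P (Function.update p.1 m p.2)).card := by
      rw [Finset.card_filter, Fintype.sum_prod_type]
      apply Finset.sum_congr rfl
      intro ω _
      rw [Finset.card_filter]
    have e2 : (univ.filter P).card * Fintype.card (Ω m)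
        = ((univ.filter P) ×ˢ (univ : Finset (Ω m))).card := by
      rw [card_product, card_univ]
    rw [e1, e2]
    refine Finset.card_bij' (fun p _ => (Function.update p.1 m p.2, p.1 m))
      (fun p _ => (Function.update p.1 m p.2, p.1 m)) ?_ ?_ ?_ ?_
    · intro p hp
      simpa using hp
    · intro p hp
      simpa using hp
    · intro p _
      simp
    · intro p _
      simp
  have h2 : ((univ.filter P).card : ℝ) * (Fintype.card (Ω m) : ℝ)
      ≤ (q * (Fintype.card (∀ m, Ω m) : ℝ)) * (Fintype.card (Ω m) : ℝ) := by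
    have h3 : ((univ.filter P).card : ℝ) * (Fintype.card (Ω m) : ℝ)
        = ∑ ω : (∀ m, Ω m),
          ((univ.filter fun x : Ω m => P (Function.update ω m x)).card : ℝ) := by
      exact_mod_cast h1.symm
    rw [h3]
    calc ∑ ω : (∀ m, Ω m),
          ((univ.filter fun x : Ω m => P (Function.update ω m x)).card : ℝ)
        ≤ ∑ _ω : (∀ m, Ω m), q * (Fintype.card (Ω m) : ℝ) := Finset.sum_le_sum fun ω _ => h ω
      _ = _ := by simp only [sum_const, card_univ, nsmul_eq_mul]; ring
  exact le_of_mul_le_mul_right h2 hpos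

/-- `C(N,h) ≤ (e N / h)^h` -/
theorem choose_le_exp (N h : ℕ) (hh : 0 < h) :
    (N.choose h : ℝ) ≤ (Real.exp 1 * (N : ℝ) / (h : ℝ)) ^ h := by
  have h0 : (0 : ℝ) < (h : ℝ) := by exact_mod_cast hh
  have h1 : (N.choose h : ℝ) ≤ (N : ℝ) ^ h / (h.factorial : ℝ) := Nat.choose_le_pow_div h N
  have h2 : (h : ℝ) ^ h / (h.factorial : ℝ) ≤ Real.exp (h : ℝ) :=
    Real.pow_div_factorial_le_exp (h : ℝ) h0.le h
  have hf : (0 : ℝ) < (h.factorial : ℝ) := by exact_mod_cast Nat.factorial_pos h
  calc (N.choose h : ℝ) ≤ (N : ℝ) ^ h / (h.factorial : ℝ) := h1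
    _ = ((N : ℝ) / (h : ℝ)) ^ h * ((h : ℝ) ^ h / (h.factorial : ℝ)) := by
        rw [div_pow]; field_simp
    _ ≤ ((N : ℝ) / (h : ℝ)) ^ h * Real.exp (h : ℝ) :=
        mul_le_mul_of_nonneg_left h2 (by positivity)
    _ = (Real.exp 1 * (N : ℝ) / (h : ℝ)) ^ h := by
        have : Real.exp (h : ℝ) = Real.exp 1 ^ h := by
          rw [← Real.exp_nat_mul]; simp
        rw [this, ← mul_pow]; congr 1; ring

/-- Chernoff form of `hits_rows`: with `μ = N q / |V|` and `h ≥ 8 μ`, `h ≥ 1` the density of
`at least h hits` is at most `(e/8)^h`. -/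
theorem hits_rows_eight {R ι : Type} [Fintype R] [DecidableEq R] [Fintype ι] [DecidableEq ι]
    [Nonempty V] (S : Finset R) (T : (R → ι → V) → Finset (R × ι))
    (B : (R → ι → V) → R → ι → Finset V) (q h N : ℕ) (hh : 0 < h)
    (hTS : ∀ ω, ∀ p ∈ T ω, p.1 ∈ S)
    (hT : ∀ ω ω' : R → ι → V, (∀ r, r ∉ S → ω' r = ω r) → T ω' = T ω)
    (hBi : ∀ ω ω' : R → ι → V, (∀ r, r ∉ S → ω' r = ω r) →
      ∀ p ∈ T ω, B ω' p.1 p.2 = B ω p.1 p.2)
    (hB : ∀ ω, ∀ p ∈ T ω, (B ω p.1 p.2).card ≤ q) (hN : ∀ ω, (T ω).card ≤ N)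
    (h8 : 8 * (N * q) ≤ h * Fintype.card V) :
    ((univ.filter fun ω : R → ι → V =>
        h ≤ ((T ω).filter fun p => ω p.1 p.2 ∈ B ω p.1 p.2).card).card : ℝ)
      ≤ (Real.exp 1 / 8) ^ h * (Fintype.card (R → ι → V) : ℝ) := by
  classical
  have key := hits_rows S T B q h N hTS hT hBi hB hN
  have hV : (0 : ℝ) < (Fintype.card V : ℝ) := by exact_mod_cast Fintype.card_pos
  have h0 : (0 : ℝ) < (h : ℝ) := by exact_mod_cast hh
  have h1 : ((univ.filter fun ω : R → ι → V =>
        h ≤ ((T ω).filter fun p => ω p.1 p.2 ∈ B ω p.1 p.2).card).card : ℝ)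
          * (Fintype.card V : ℝ) ^ h
      ≤ ((N.choose h : ℝ) * (q : ℝ) ^ h) * (Fintype.card (R → ι → V) : ℝ) := by
    exact_mod_cast key
  have h2 : (N.choose h : ℝ) * (q : ℝ) ^ h
      ≤ (Real.exp 1 / 8) ^ h * (Fintype.card V : ℝ) ^ h := by
    calc (N.choose h : ℝ) * (q : ℝ) ^ h
        ≤ (Real.exp 1 * (N : ℝ) / (h : ℝ)) ^ h * (q : ℝ) ^ h :=
          mul_le_mul_of_nonneg_right (choose_le_exp N h hh) (by positivity)
      _ = (Real.exp 1 * ((N : ℝ) * (q : ℝ) / (h : ℝ))) ^ h := by
          rw [← mul_pow]; congr 1; ring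
      _ ≤ (Real.exp 1 / 8 * (Fintype.card V : ℝ)) ^ h := by
          apply pow_le_pow_left₀ (by positivity)
          have h3 : (N : ℝ) * (q : ℝ) / (h : ℝ) ≤ (Fintype.card V : ℝ) / 8 := by
            rw [div_le_div_iff₀ h0 (by norm_num)]
            have : (8 * (N * q) : ℝ) ≤ (h : ℝ) * (Fintype.card V : ℝ) := by exact_mod_cast h8
            linarith
          calc Real.exp 1 * ((N : ℝ) * (q : ℝ) / (h : ℝ))
              ≤ Real.exp 1 * ((Fintype.card V : ℝ) / 8) :=
                mul_le_mul_of_nonneg_left h3 (Real.exp_pos _).le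
            _ = _ := by ring
      _ = _ := mul_pow _ _ _
  have hVh : (0 : ℝ) < (Fintype.card V : ℝ) ^ h := by positivity
  refine le_of_mul_le_mul_right (a := (Fintype.card V : ℝ) ^ h) ?_ hVh
  calc _ ≤ ((N.choose h : ℝ) * (q : ℝ) ^ h) * (Fintype.card (R → ι → V) : ℝ) := h1
    _ ≤ ((Real.exp 1 / 8) ^ h * (Fintype.card V : ℝ) ^ h)
          * (Fintype.card (R → ι → V) : ℝ) :=
        mul_le_mul_of_nonneg_right h2 (Nat.cast_nonneg _)
    _ = _ := by ring

end Pool.Agent.AM.CN
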