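import Pool.Agent.AM.Defs

/-! # Section 5 of the blueprint: cold and warm levels, rigid blocks -/

set_option autoImplicit false

open scoped Classical
open Finset

noncomputable section

namespace Pool.Agent.AM.Sec5

variable {C : Cst} {q : Con} {par : ℕ → Par C} {le : ∀ m, Pt (par m) → Pt (par m) → Prop}
variable {lo hi : ℕ} {b : Prop} {f : TP par → TP par} {m : ℕ}

/-! ### elementary facts on the order of the tower -/

theorem tle_same {x y : Pt (par m)} (h : TLe le (.pt m x) (.pt m y)) : le m x y := by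
  cases h with
  | lt h => exact absurd h (lt_irrefl _)
  | eq h => exact h

theorem tle_blk {m' : ℕ} {x : Pt (par m)} {y : Pt (par m')} (h : TLe le (.pt m x) (.pt m' y)) :
    m' ≤ m := by
  cases h with
  | lt h => exact h.le
  | eq h => exact le_refl _

theorem not_tle_top {x : Pt (par m)} : ¬ TLe le .top (.pt m x) := by
  intro h
  cases h

theorem lev_V {p : Par C} {k : ℕ} (hk : k ≤ C.h + 1) (v : Fin p.n) : lev (V p k v) = k := by
  simp only [V, lev, Fin.val_ofNat]
  exact Nat.mod_eq_of_lt (by omega)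

theorem V_inj {p : Par C} {k : ℕ} {v w : Fin p.n} (h : V p k v = V p k w) : v = w := by
  simp only [V, Pt.fr.injEq] at h
  exact h.2

theorem TV_inj {k : ℕ} {v w : Fin (par m).n} (h : TV par m k v = TV par m k w) : v = w := by
  simp only [TV, TP.pt.injEq, heq_eq_eq, true_and] at h
  exact V_inj h

theorem inT_TV (hm : lo ≤ m ∧ m ≤ hi) (k : ℕ) (v : Fin (par m).n) :
    inT par lo hi b (TV par m k v) := hm

/-- some frame point of the level is not below `z` -/
theorem exists_not_le {p : Par C} {lp : Pt p → Pt p → Prop} (hB : GoodBlk q p lp) (z : Pt p)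
    {k : ℕ} (hk : k ≤ C.h + 1) : ∃ x, ¬ lp (V p k x) z := by
  by_contra hcon
  push Not at hcon
  have h1 := hB.a3d z k hk
  have h2 : (univ.filter fun x => lp (V p k x) z) = (univ : Finset (Fin p.n)) := by
    ext x
    simp [hcon x]
  rw [h2] at h1
  have h3 := hB.npos
  simp at h1
  omega

theorem exists_not_ge {p : Par C} {lp : Pt p → Pt p → Prop} (hB : GoodBlk q p lp) (z : Pt p)
    {k : ℕ} (hk : k ≤ C.h + 1) : ∃ x, ¬ lp z (V p k x) := by
  by_contra hcon
  push Not at hcon
  have h1 := hB.a3u z k hk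
  have h2 : (univ.filter fun x => lp z (V p k x)) = (univ : Finset (Fin p.n)) := by
    ext x
    simp [hcon x]
  rw [h2] at h1
  have h3 := hB.npos
  simp at h1
  omega

/-- the iterated exceptional sets below level `k0` -/
theorem exc_below {p : Par C} {lp : Pt p → Pt p → Prop} (hB : GoodBlk q p lp) (k0 : ℕ)
    (hk0 : k0 ≤ C.h + 1) (S : Finset (Fin p.n)) (hS : (S.card : ℝ) ≤ q.kap * p.n) (j : ℕ)
    (hj : j ≤ k0) : ∃ D : Finset (Fin p.n), 9 ^ j * D.card ≤ S.card ∧
      ∀ x, x ∉ D → ∀ z, ¬ lp z (V p (k0 - j) x) →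
        ∃ w, w ∉ S ∧ lp (V p (k0 - j) x) (V p k0 w) ∧ ¬ lp z (V p k0 w) := by
  induction j with
  | zero => exact ⟨S, by simp, fun x hx z hz => ⟨x, hx, hB.ord.refl _, hz⟩⟩
  | succ j ih =>
    obtain ⟨D, hDc, hD⟩ := ih (by omega)
    have e1 : k0 - (j + 1) + 1 = k0 - j := by omega
    have hDS : D.card ≤ S.card := by
      have : 1 ≤ 9 ^ j := Nat.one_le_pow _ _ (by norm_num)
      nlinarith
    have hDk : (D.card : ℝ) ≤ q.kap * p.n := by
      have : (D.card : ℝ) ≤ (S.card : ℝ) := by exact_mod_cast hDS
      linarith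
    have h9 := hB.a1d (k0 - (j + 1)) (by omega) D hDk
    refine ⟨dn lp (k0 - (j + 1)) D, ?_, ?_⟩
    · calc 9 ^ (j + 1) * (dn lp (k0 - (j + 1)) D).card
          = 9 ^ j * (9 * (dn lp (k0 - (j + 1)) D).card) := by ring
        _ ≤ 9 ^ j * D.card := Nat.mul_le_mul_left _ h9
        _ ≤ S.card := hDc
    · intro x hx z hz
      have hne : ¬ ∀ u, lp (V p (k0 - (j + 1)) x) (V p (k0 - (j + 1) + 1) u) →
          u ∈ D ∨ lp z (V p (k0 - (j + 1) + 1) u) := by
        intro h
        exact hx (Finset.mem_filter.mpr ⟨mem_univ _, z, hz, h⟩)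
      push Not at hne
      obtain ⟨u, hu, huD, hzu⟩ := hne
      rw [e1] at hu hzu
      obtain ⟨w, hw, huw, hzw⟩ := hD u huD z hzu
      exact ⟨w, hw, hB.ord.trans _ _ _ hu huw, hzw⟩

/-- the iterated exceptional sets above level `k0` -/
theorem exc_above {p : Par C} {lp : Pt p → Pt p → Prop} (hB : GoodBlk q p lp) (k0 : ℕ)
    (S : Finset (Fin p.n)) (hS : (S.card : ℝ) ≤ q.kap * p.n) (j : ℕ)
    (hj : k0 + j ≤ C.h + 1) : ∃ D : Finset (Fin p.n), 9 ^ j * D.card ≤ S.card ∧
      ∀ x, x ∉ D → ∀ z, ¬ lp (V p (k0 + j) x) z →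
        ∃ w, w ∉ S ∧ lp (V p k0 w) (V p (k0 + j) x) ∧ ¬ lp (V p k0 w) z := by
  induction j with
  | zero => exact ⟨S, by simp, fun x hx z hz => ⟨x, hx, hB.ord.refl _, hz⟩⟩
  | succ j ih =>
    obtain ⟨D, hDc, hD⟩ := ih (by omega)
    have hDS : D.card ≤ S.card := by
      have : 1 ≤ 9 ^ j := Nat.one_le_pow _ _ (by norm_num)
      nlinarith
    have hDk : (D.card : ℝ) ≤ q.kap * p.n := by
      have : (D.card : ℝ) ≤ (S.card : ℝ) := by exact_mod_cast hDS
      linarith
    have h9 := hB.a1u (k0 + j) (by omega) D hDk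
    refine ⟨ud lp (k0 + j) D, ?_, ?_⟩
    · calc 9 ^ (j + 1) * (ud lp (k0 + j) D).card
          = 9 ^ j * (9 * (ud lp (k0 + j) D).card) := by ring
        _ ≤ 9 ^ j * D.card := Nat.mul_le_mul_left _ h9
        _ ≤ S.card := hDc
    · intro x hx z hz
      have hne : ¬ ∀ u, lp (V p (k0 + j) u) (V p (k0 + j + 1) x) →
          u ∈ D ∨ lp (V p (k0 + j) u) z := by
        intro h
        exact hx (Finset.mem_filter.mpr ⟨mem_univ _, z, hz, h⟩)
      push Not at hne
      obtain ⟨u, hu, huD, hzu⟩ := hne
      obtain ⟨w, hw, huw, hzw⟩ := hD u huD z hzu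
      exact ⟨w, hw, hB.ord.trans _ _ _ huw hu, hzw⟩

theorem not_mem_disp {k : ℕ} {v : Fin (par m).n} (h : v ∉ Disp f m k) :
    f (TV par m k v) = TV par m k v := by
  by_contra hne
  exact h (Finset.mem_filter.mpr ⟨mem_univ _, hne⟩)

theorem mem_disp {k : ℕ} {v : Fin (par m).n} :
    v ∈ Disp f m k ↔ f (TV par m k v) ≠ TV par m k v := by
  simp [Disp]

/-- 5.1 with the full decay, below a cold level -/
theorem cold_below_pow (hB : GoodBlk q (par m) (le m)) (hE : Endo le lo hi b f)
    (hm : lo ≤ m ∧ m ≤ hi) {k0 : ℕ} (hk0 : k0 ≤ C.h + 1) (hc : Cold q f m k0) (j : ℕ)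
    (hj : j ≤ k0) (D : Finset (Fin (par m).n))
    (hD : ∀ v ∈ D, ¬ TLe le (f (TV par m (k0 - j) v)) (TV par m (k0 - j) v)) :
    9 ^ j * D.card ≤ (Disp f m k0).card := by
  obtain ⟨E, hEc, hEx⟩ := exc_below hB k0 hk0 (Disp f m k0) hc j hj
  have hsub : D ⊆ E := by
    intro v hv
    by_contra hvE
    obtain ⟨y, hy⟩ := exists_not_le hB (V (par m) (k0 - j) v) (k := k0 - j) (by omega)
    obtain ⟨w, hw, hvw, _⟩ := hEx v hvE _ hy
    have hfw := not_mem_disp hw
    have h1 : TLe le (f (TV par m (k0 - j) v)) (TV par m k0 w) := by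
      have := hE.mono _ _ (inT_TV hm (k0 - j) v) (inT_TV hm k0 w) (TLe.eq hvw)
      rwa [hfw] at this
    apply hD v hv
    cases hfv : f (TV par m (k0 - j) v) with
    | top =>
      rw [hfv] at h1
      exact absurd h1 not_tle_top
    | pt m' x =>
      rw [hfv] at h1
      have h2 := tle_blk h1
      rcases Nat.lt_or_ge m m' with h3 | h3
      · exact TLe.lt h3 _ _
      · obtain rfl : m' = m := by omega
        refine TLe.eq ?_
        by_contra hcon
        obtain ⟨w', hw', hvw', hxw'⟩ := hEx v hvE x hcon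
        apply hxw'
        have := hE.mono _ _ (inT_TV hm (k0 - j) v) (inT_TV hm k0 w') (TLe.eq hvw')
        rw [not_mem_disp hw', hfv] at this
        exact tle_same this
  exact (Nat.mul_le_mul_left _ (Finset.card_le_card hsub)).trans hEc

/-- 5.1 with the full decay, above a cold level -/
theorem cold_above_pow (hB : GoodBlk q (par m) (le m)) (hE : Endo le lo hi b f)
    (hm : lo ≤ m ∧ m ≤ hi) {k0 : ℕ} (hc : Cold q f m k0) (j : ℕ)
    (hj : k0 + j ≤ C.h + 1) (D : Finset (Fin (par m).n))
    (hD : ∀ v ∈ D, ¬ TLe le (TV par m (k0 + j) v) (f (TV par m (k0 + j) v))) :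
    9 ^ j * D.card ≤ (Disp f m k0).card := by
  obtain ⟨E, hEc, hEx⟩ := exc_above hB k0 (Disp f m k0) hc j hj
  have hsub : D ⊆ E := by
    intro v hv
    by_contra hvE
    obtain ⟨y, hy⟩ := exists_not_ge hB (V (par m) (k0 + j) v) (k := k0 + j) hj
    obtain ⟨w, hw, hwv, _⟩ := hEx v hvE _ hy
    have hfw := not_mem_disp hw
    have h1 : TLe le (TV par m k0 w) (f (TV par m (k0 + j) v)) := by
      have := hE.mono _ _ (inT_TV hm k0 w) (inT_TV hm (k0 + j) v) (TLe.eq hwv)
      rwa [hfw] at this
    apply hD v hv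
    cases hfv : f (TV par m (k0 + j) v) with
    | top => exact TLe.top _
    | pt m' x =>
      rw [hfv] at h1
      have h2 := tle_blk h1
      rcases Nat.lt_or_ge m' m with h3 | h3
      · exact TLe.lt h3 _ _
      · obtain rfl : m' = m := by omega
        refine TLe.eq ?_
        by_contra hcon
        obtain ⟨w', hw', hwv', hxw'⟩ := hEx v hvE x hcon
        apply hxw'
        have := hE.mono _ _ (inT_TV hm k0 w') (inT_TV hm (k0 + j) v) (TLe.eq hwv')
        rw [not_mem_disp hw', hfv] at this
        exact tle_same this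
  exact (Nat.mul_le_mul_left _ (Finset.card_le_card hsub)).trans hEc

/-- 5.1 below a cold level -/
theorem cold_below (hB : GoodBlk q (par m) (le m)) (hE : Endo le lo hi b f)
    (hm : lo ≤ m ∧ m ≤ hi) {k k0 : ℕ} (hk : k < k0) (hk0 : k0 ≤ C.h + 1) (hc : Cold q f m k0) :
    9 * (univ.filter fun v => ¬ TLe le (f (TV par m k v)) (TV par m k v)).card
      ≤ (Disp f m k0).card := by
  have e : k0 - (k0 - k) = k := by omega
  have h := cold_below_pow hB hE hm hk0 hc (k0 - k) (by omega)
    (univ.filter fun v => ¬ TLe le (f (TV par m k v)) (TV par m k v))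
    (by rw [e]; intro v hv; exact (Finset.mem_filter.mp hv).2)
  have h9 : 9 ≤ 9 ^ (k0 - k) := by
    calc 9 = 9 ^ 1 := by norm_num
      _ ≤ 9 ^ (k0 - k) := Nat.pow_le_pow_right (by norm_num) (by omega)
  exact (Nat.mul_le_mul_right _ h9).trans h

/-- 5.1 above a cold level -/
theorem cold_above (hB : GoodBlk q (par m) (le m)) (hE : Endo le lo hi b f)
    (hm : lo ≤ m ∧ m ≤ hi) {k k0 : ℕ} (hk : k0 < k) (hk1 : k ≤ C.h + 1) (hc : Cold q f m k0) :
    9 * (univ.filter fun v => ¬ TLe le (TV par m k v) (f (TV par m k v))).card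
      ≤ (Disp f m k0).card := by
  have e : k0 + (k - k0) = k := by omega
  have h := cold_above_pow hB hE hm hc (k - k0) (by omega)
    (univ.filter fun v => ¬ TLe le (TV par m k v) (f (TV par m k v)))
    (by rw [e]; intro v hv; exact (Finset.mem_filter.mp hv).2)
  have h9 : 9 ≤ 9 ^ (k - k0) := by
    calc 9 = 9 ^ 1 := by norm_num
      _ ≤ 9 ^ (k - k0) := Nat.pow_le_pow_right (by norm_num) (by omega)
  exact (Nat.mul_le_mul_right _ h9).trans h

theorem tle_antisymm_pt (hO : BlkOrd (le m)) {x : Pt (par m)} {z : TP par}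
    (h1 : TLe le (.pt m x) z) (h2 : TLe le z (.pt m x)) : z = .pt m x := by
  cases z with
  | top => exact absurd h2 not_tle_top
  | pt m' y =>
    have e1 := tle_blk h1
    have e2 := tle_blk h2
    obtain rfl : m' = m := by omega
    have := hO.antisymm _ _ (tle_same h1) (tle_same h2)
    rw [this]

theorem card_disp_le (hO : BlkOrd (le m)) (k : ℕ) :
    (Disp f m k).card ≤ (univ.filter fun v => ¬ TLe le (f (TV par m k v)) (TV par m k v)).card
      + (univ.filter fun v => ¬ TLe le (TV par m k v) (f (TV par m k v))).card := by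
  refine le_trans (Finset.card_le_card ?_) (Finset.card_union_le _ _)
  intro v hv
  rw [mem_disp] at hv
  rw [Finset.mem_union, Finset.mem_filter, Finset.mem_filter]
  by_cases h : TLe le (f (TV par m k v)) (TV par m k v)
  · right
    exact ⟨mem_univ _, fun h2 => hv (tle_antisymm_pt hO h2 h)⟩
  · left
    exact ⟨mem_univ _, h⟩

/-- the cold levels form an interval -/
theorem cold_interval (hB : GoodBlk q (par m) (le m)) (hE : Endo le lo hi b f)
    (hm : lo ≤ m ∧ m ≤ hi) {i k j : ℕ} (hik : i ≤ k) (hkj : k ≤ j) (hj : j ≤ C.h + 1)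
    (hi' : Cold q f m i) (hj' : Cold q f m j) : Cold q f m k := by
  rcases Nat.eq_or_lt_of_le hik with h | h
  · subst h; exact hi'
  rcases Nat.eq_or_lt_of_le hkj with h' | h'
  · subst h'; exact hj'
  have e0 := card_disp_le (f := f) hB.ord k
  have e1 := cold_below hB hE hm h' hj hj'
  have e2 := cold_above hB hE hm h (by omega) hi'
  unfold Cold at hi' hj' ⊢
  have e0' : ((Disp f m k).card : ℝ)
      ≤ ((univ.filter fun v => ¬ TLe le (f (TV par m k v)) (TV par m k v)).card : ℝ)
      + ((univ.filter fun v => ¬ TLe le (TV par m k v) (f (TV par m k v))).card : ℝ) := by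
    exact_mod_cast e0
  have e1' : 9 * ((univ.filter fun v => ¬ TLe le (f (TV par m k v)) (TV par m k v)).card : ℝ)
      ≤ ((Disp f m j).card : ℝ) := by exact_mod_cast e1
  have e2' : 9 * ((univ.filter fun v => ¬ TLe le (TV par m k v) (f (TV par m k v))).card : ℝ)
      ≤ ((Disp f m i).card : ℝ) := by exact_mod_cast e2
  have e4 : (0 : ℝ) ≤ (Disp f m j).card := by positivity
  have e5 : (0 : ℝ) ≤ (Disp f m i).card := by positivity
  linarith

/-- frame points of the top level are maximal in their block -/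
theorem top_max (hO : BlkOrd (le m)) {v : Fin (par m).n} {z : TP par}
    (h : TLe le (TV par m (C.h + 1) v) z) (hz : ¬ Above m z) : z = TV par m (C.h + 1) v := by
  cases z with
  | top => exact absurd trivial hz
  | pt m' y =>
    have e1 := tle_blk h
    have e2 : ¬ m' < m := hz
    obtain rfl : m' = m := by omega
    have h1 := tle_same h
    have h2 := hO.lev_mono _ _ h1
    rw [lev_V (le_refl _)] at h2
    have h3 : lev y ≤ C.h + 1 := by
      cases y with
      | fr k v => simp only [lev]; omega
      | ce c e => simp only [lev]; omega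
    have h4 : lev (V (par m') (C.h + 1) v) = lev y := by
      rw [lev_V (le_refl _)]; omega
    rcases hO.same _ _ h1 h4 with h5 | ⟨c, a, b', h5, _⟩
    · rw [← h5]; rfl
    · simp [V] at h5

/-- frame points of the bottom level are minimal in their block -/
theorem bot_min (hO : BlkOrd (le m)) {v : Fin (par m).n} {z : TP par}
    (h : TLe le z (TV par m 0 v)) (hz : ¬ Below m z) : z = TV par m 0 v := by
  cases z with
  | top => exact absurd h not_tle_top
  | pt m' y =>
    have e1 := tle_blk h
    have e2 : ¬ m < m' := hz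
    obtain rfl : m' = m := by omega
    have h1 := tle_same h
    have h2 := hO.lev_mono _ _ h1
    rw [lev_V (Nat.zero_le _)] at h2
    have h4 : lev y = lev (V (par m') 0 v) := by
      rw [lev_V (Nat.zero_le _)]; omega
    rcases hO.same _ _ h1 h4 with h5 | ⟨c, a, b', _, h5, _⟩
    · rw [h5]; rfl
    · simp [V] at h5

/-- 5.2 -/
theorem rigid_of_cold (hB : GoodBlk q (par m) (le m)) (hE : Endo le lo hi b f)
    (hm : lo ≤ m ∧ m ≤ hi) {k0 : ℕ} (hk0 : k0 ≤ C.h + 1) (hc : Cold q f m k0)
    (htop : ∀ v, ¬ Above m (f (TV par m (C.h + 1) v)))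
    (hbot : ∀ v, ¬ Below m (f (TV par m 0 v))) : Rigid f m := by
  have hT : ∀ v ∈ Disp f m (C.h + 1),
      ¬ TLe le (TV par m (C.h + 1) v) (f (TV par m (C.h + 1) v)) := by
    intro v hv hle
    exact (mem_disp.mp hv) (top_max hB.ord hle (htop v))
  have hBt : ∀ v ∈ Disp f m 0, ¬ TLe le (f (TV par m 0 v)) (TV par m 0 v) := by
    intro v hv hle
    exact (mem_disp.mp hv) (bot_min hB.ord hle (hbot v))
  have hcT : Cold q f m (C.h + 1) := by
    have h := cold_above_pow hB hE hm hc (C.h + 1 - k0) (by omega) (Disp f m (C.h + 1))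
      (by rw [show k0 + (C.h + 1 - k0) = C.h + 1 by omega]; exact hT)
    have h1 : 1 ≤ 9 ^ (C.h + 1 - k0) := Nat.one_le_pow _ _ (by norm_num)
    have h2 : (Disp f m (C.h + 1)).card ≤ (Disp f m k0).card := by nlinarith
    unfold Cold at hc ⊢
    have h3 : ((Disp f m (C.h + 1)).card : ℝ) ≤ (Disp f m k0).card := by exact_mod_cast h2
    linarith
  have hcB : Cold q f m 0 := by
    have h := cold_below_pow hB hE hm hk0 hc k0 (le_refl _) (Disp f m 0)
      (by rw [show k0 - k0 = 0 by omega]; exact hBt)
    have h1 : 1 ≤ 9 ^ k0 := Nat.one_le_pow _ _ (by norm_num)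
    have h2 : (Disp f m 0).card ≤ (Disp f m k0).card := by nlinarith
    unfold Cold at hc ⊢
    have h3 : ((Disp f m 0).card : ℝ) ≤ (Disp f m k0).card := by exact_mod_cast h2
    linarith
  have e1 := cold_above hB hE hm (k := C.h + 1) (by omega) (le_refl _) hcB
  have e2 := cold_below hB hE hm (k := 0) (by omega) (le_refl _) hcT
  have e1' : (Disp f m (C.h + 1)).card ≤ (univ.filter fun v =>
      ¬ TLe le (TV par m (C.h + 1) v) (f (TV par m (C.h + 1) v))).card := by
    refine Finset.card_le_card ?_
    intro v hv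
    exact Finset.mem_filter.mpr ⟨mem_univ _, hT v hv⟩
  have e2' : (Disp f m 0).card ≤ (univ.filter fun v =>
      ¬ TLe le (f (TV par m 0 v)) (TV par m 0 v)).card := by
    refine Finset.card_le_card ?_
    intro v hv
    exact Finset.mem_filter.mpr ⟨mem_univ _, hBt v hv⟩
  have e3 : (Disp f m (C.h + 1)).card = 0 := by omega
  have e4 : (Disp f m 0).card = 0 := by omega
  intro k hk v
  have key : (Disp f m k).card = 0 := by
    rcases Nat.eq_zero_or_pos k with h0 | h0
    · rw [h0]; exact e4
    rcases Nat.eq_or_lt_of_le hk with h1 | h1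
    · rw [h1]; exact e3
    have g1 := cold_below hB hE hm h1 (le_refl _) hcT
    have g2 := cold_above hB hE hm h0 hk hcB
    have g3 := card_disp_le (f := f) hB.ord k
    omega
  rw [Finset.card_eq_zero] at key
  exact not_mem_disp (by rw [key]; exact Finset.notMem_empty _)

/-- many fixed frame points on a cold level -/
theorem card_fixed (hn : 0 < (par m).n) (hkap : q.kap ≤ 1 / 100) {k : ℕ} (hc : Cold q f m k) :
    (par m).n < 4 * (univ.filter fun v => f (TV par m k v) = TV par m k v).card := by
  have h1 : (univ.filter fun v => f (TV par m k v) = TV par m k v).card + (Disp f m k).card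
      = (par m).n := by
    have h := Finset.card_filter_add_card_filter_not (s := (univ : Finset (Fin (par m).n)))
      (fun v => f (TV par m k v) = TV par m k v)
    simpa [Disp] using h
  unfold Cold at hc
  have h4 : ((univ.filter fun v => f (TV par m k v) = TV par m k v).card : ℝ)
      + (Disp f m k).card = (par m).n := by
    exact_mod_cast h1
  have h5 : (0 : ℝ) < (par m).n := by exact_mod_cast hn
  have h6 : q.kap * ((par m).n : ℝ) ≤ 1 / 100 * (par m).n :=
    mul_le_mul_of_nonneg_right hkap h5.le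
  have h7 : ((par m).n : ℝ)
      < 4 * ((univ.filter fun v => f (TV par m k v) = TV par m k v).card : ℝ) := by linarith
  exact_mod_cast h7

/-- 5.3: points below a block with a cold level stay below it. -/
theorem below_of_cold (hB : GoodBlk q (par m) (le m)) (hkap : q.kap ≤ 1 / 100)
    (hE : Endo le lo hi b f) (hm : lo ≤ m ∧ m ≤ hi) {k : ℕ} (hk : k ≤ C.h + 1)
    (hc : Cold q f m k) {z : TP par} (hz : inT par lo hi b z) (hb : Below m z) :
    Below m (f z) := by
  have hfix := card_fixed hB.npos hkap hc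
  have hall : ∀ v, f (TV par m k v) = TV par m k v → TLe le (f z) (TV par m k v) := by
    intro v hv
    cases z with
    | top => exact absurd hb id
    | pt m' x =>
      have h1 : TLe le (.pt m' x) (TV par m k v) := TLe.lt hb _ _
      have := hE.mono _ _ hz (inT_TV hm k v) h1
      rwa [hv] at this
  obtain ⟨v, hv⟩ : (univ.filter fun v => f (TV par m k v) = TV par m k v).Nonempty := by
    rw [← Finset.card_pos]; omega
  have hv2 := hall v (Finset.mem_filter.mp hv).2
  cases hfz : f z with
  | top =>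
    rw [hfz] at hv2
    exact absurd hv2 not_tle_top
  | pt m' y =>
    rw [hfz] at hv2
    have h1 := tle_blk hv2
    show m < m'
    rcases Nat.eq_or_lt_of_le h1 with h2 | h2
    · subst h2
      exfalso
      have h3 := hB.a3u y k hk
      have h4 : (univ.filter fun v => f (TV par m k v) = TV par m k v).card
          ≤ (univ.filter fun x => le m y (V (par m) k x)).card := by
        refine Finset.card_le_card ?_
        intro x hx
        have h5 := hall x (Finset.mem_filter.mp hx).2
        rw [hfz] at h5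
        exact Finset.mem_filter.mpr ⟨mem_univ _, tle_same h5⟩
      omega
    · exact h2

/-- 5.3: points above a block with a cold level stay above it. -/
theorem above_of_cold (hB : GoodBlk q (par m) (le m)) (hkap : q.kap ≤ 1 / 100)
    (hE : Endo le lo hi b f) (hm : lo ≤ m ∧ m ≤ hi) {k : ℕ} (hk : k ≤ C.h + 1)
    (hc : Cold q f m k) {z : TP par} (hz : inT par lo hi b z) (hb : Above m z) :
    Above m (f z) := by
  have hfix := card_fixed hB.npos hkap hc
  have hall : ∀ v, f (TV par m k v) = TV par m k v → TLe le (TV par m k v) (f z) := by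
    intro v hv
    have h1 : TLe le (TV par m k v) z := by
      cases z with
      | top => exact TLe.top _
      | pt m' x => exact TLe.lt hb _ _
    have := hE.mono _ _ (inT_TV hm k v) hz h1
    rwa [hv] at this
  obtain ⟨v, hv⟩ : (univ.filter fun v => f (TV par m k v) = TV par m k v).Nonempty := by
    rw [← Finset.card_pos]; omega
  have hv2 := hall v (Finset.mem_filter.mp hv).2
  cases hfz : f z with
  | top => exact trivial
  | pt m' y =>
    rw [hfz] at hv2
    have h1 := tle_blk hv2
    show m' < m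
    rcases Nat.eq_or_lt_of_le h1 with h2 | h2
    · subst h2
      exfalso
      have h3 := hB.a3d y k hk
      have h4 : (univ.filter fun v => f (TV par m' k v) = TV par m' k v).card
          ≤ (univ.filter fun x => le m' (V (par m') k x) y).card := by
        refine Finset.card_le_card ?_
        intro x hx
        have h5 := hall x (Finset.mem_filter.mp hx).2
        rw [hfz] at h5
        exact Finset.mem_filter.mpr ⟨mem_univ _, tle_same h5⟩
      omega
    · exact h2

/-- 5.4: a block which is not rigid is fully warm or has a fully warm neighbour (except the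
highest block of a tower with top). -/
theorem fw_of_not_rigid (hG : ∀ m, lo ≤ m → m ≤ hi → GoodBlk q (par m) (le m))
    (hkap : q.kap ≤ 1 / 100) (hE : Endo le lo hi b f) (hm : lo ≤ m ∧ m ≤ hi)
    (htop : ¬ b ∨ lo < m) (hr : ¬ Rigid f m) :
    FW q f m ∨ (∃ m', m' + 1 = m ∧ lo ≤ m' ∧ FW q f m') ∨ (m + 1 ≤ hi ∧ FW q f (m + 1)) := by
  by_contra hcon
  push Not at hcon
  obtain ⟨h1, h2, h3⟩ := hcon
  apply hr
  unfold FW at h1
  push Not at h1
  obtain ⟨k0, hk0, hcold⟩ := h1
  refine rigid_of_cold (hG m hm.1 hm.2) hE hm hk0 hcold ?_ ?_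
  · intro v hab
    have hin := hE.maps _ (inT_TV (b := b) hm (C.h + 1) v)
    have hlo : lo < m := by
      cases hfz : f (TV par m (C.h + 1) v) with
      | top =>
        rw [hfz] at hin
        rcases htop with h | h
        · exact absurd hin h
        · exact h
      | pt m' y =>
        rw [hfz] at hin hab
        have e1 : lo ≤ m' := hin.1
        have e2 : m' < m := hab
        omega
    have h4 := h2 (m - 1) (by omega) (by omega)
    unfold FW at h4
    push Not at h4
    obtain ⟨k, hk, hc⟩ := h4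
    have hbel : Below (par := par) (m - 1) (TV par m (C.h + 1) v) := by
      show m - 1 < m
      omega
    have h5 := below_of_cold (hG (m - 1) (by omega) (by omega)) hkap hE ⟨by omega, by omega⟩ hk hc
      (inT_TV (b := b) hm (C.h + 1) v) hbel
    cases hfz : f (TV par m (C.h + 1) v) with
    | top =>
      rw [hfz] at h5
      exact h5
    | pt m' y =>
      rw [hfz] at h5 hab
      have e1 : m - 1 < m' := h5
      have e2 : m' < m := hab
      omega
  · intro v hbe
    have hin := hE.maps _ (inT_TV (b := b) hm 0 v)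
    cases hfz : f (TV par m 0 v) with
    | top =>
      rw [hfz] at hbe
      exact hbe
    | pt m' y =>
      rw [hfz] at hin hbe
      have e1 : m' ≤ hi := hin.2
      have e2 : m < m' := hbe
      have h4 := h3 (by omega)
      unfold FW at h4
      push Not at h4
      obtain ⟨k, hk, hc⟩ := h4
      have habv : Above (par := par) (m + 1) (TV par m 0 v) := by
        show m < m + 1
        omega
      have h5 := above_of_cold (hG (m + 1) (by omega) (by omega)) hkap hE ⟨by omega, by omega⟩
        hk hc (inT_TV (b := b) hm 0 v) habv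
      rw [hfz] at h5
      have e3 : m' < m + 1 := h5
      omega

theorem rigid_cold (hkap0 : 0 ≤ q.kap) (hr : Rigid f m) {k : ℕ} (hk : k ≤ C.h + 1) :
    Cold q f m k := by
  have h1 : Disp f m k = ∅ := by
    rw [Finset.eq_empty_iff_forall_notMem]
    intro v hv
    exact (mem_disp.mp hv) (hr k hk v)
  unfold Cold
  rw [h1]
  simp only [Finset.card_empty, Nat.cast_zero]
  positivity

/-- 5.5: points below a rigid block stay below. -/
theorem below_of_rigid (hB : GoodBlk q (par m) (le m)) (hkap0 : 0 ≤ q.kap)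
    (hkap : q.kap ≤ 1 / 100) (hE : Endo le lo hi b f) (hm : lo ≤ m ∧ m ≤ hi) (hr : Rigid f m)
    {z : TP par} (hz : inT par lo hi b z) (hb : Below m z) : Below m (f z) :=
  below_of_cold hB hkap hE hm (Nat.zero_le _) (rigid_cold hkap0 hr (Nat.zero_le _)) hz hb

/-- 5.5: points above a rigid block stay above. -/
theorem above_of_rigid (hB : GoodBlk q (par m) (le m)) (hkap0 : 0 ≤ q.kap)
    (hkap : q.kap ≤ 1 / 100) (hE : Endo le lo hi b f) (hm : lo ≤ m ∧ m ≤ hi) (hr : Rigid f m)
    {z : TP par} (hz : inT par lo hi b z) (hb : Above m z) : Above m (f z) :=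
  above_of_cold hB hkap hE hm (Nat.zero_le _) (rigid_cold hkap0 hr (Nat.zero_le _)) hz hb

end Pool.Agent.AM.Sec5
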