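import Pool.Agent.AM.S7Defs
import Pool.Agent.AM.Sec5

set_option autoImplicit false

open scoped Classical
open Finset

noncomputable section

namespace Pool.Agent.AM

variable {C : Cst} {par : ℕ → Par C} {le : ∀ m, Pt (par m) → Pt (par m) → Prop} {q : Con}
  {lo hi : ℕ} {b : Prop} {f : TP par → TP par}

/-- at most 50 levels of a block are neither pinned nor sep-levels (Sec5.cold_interval) -/
theorem trans_count (hG : ∀ m, lo ≤ m → m ≤ hi → GoodBlk q (par m) (le m)) (hq : q.Ok)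
    (hf : Endo le lo hi b f) {m : ℕ} (hm : lo ≤ m) (hm' : m ≤ hi) :
    (univ.filter fun k : Fin C.h => ¬ PinLev q f m (k.val + 1) ∧
      ¬ SepLev q f m (k.val + 1)).card ≤ 50 := by
  -- the two ends of the cold interval
  obtain ⟨α, β, hαβ⟩ : ∃ α β : ℕ, ∀ c, c ≤ C.h + 1 → Cold q f m c →
      (α ≤ c ∧ c ≤ β) ∧ ∀ k, α ≤ k → k ≤ β → k ≤ C.h + 1 → Cold q f m k := by
    by_cases hex : ∃ c, c ≤ C.h + 1 ∧ Cold q f m c
    · obtain ⟨hα1, hα2⟩ := Nat.find_spec hex
      have hβ : Cold q f m (Nat.findGreatest (fun k => Cold q f m k) (C.h + 1)) :=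
        Nat.findGreatest_spec (P := fun k => Cold q f m k) hα1 hα2
      have hβ1 : Nat.findGreatest (fun k => Cold q f m k) (C.h + 1) ≤ C.h + 1 :=
        Nat.findGreatest_le _
      refine ⟨Nat.find hex, Nat.findGreatest (fun k => Cold q f m k) (C.h + 1), ?_⟩
      intro c hc hcold
      refine ⟨⟨Nat.find_min' hex ⟨hc, hcold⟩, Nat.le_findGreatest hc hcold⟩, ?_⟩
      intro k hk1 hk2 _
      exact Sec5.cold_interval (hG m hm hm') hf ⟨hm, hm'⟩ hk1 hk2 hβ1 hα2 hβ
    · exact ⟨0, 0, fun c hc hcold => absurd ⟨c, hc, hcold⟩ hex⟩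
  have hsub : ((univ.filter fun k : Fin C.h => ¬ PinLev q f m (k.val + 1) ∧
      ¬ SepLev q f m (k.val + 1)).image fun k : Fin C.h => k.val + 1)
      ⊆ (Icc 1 7 ∪ Icc (C.h - 6) C.h) ∪ (Icc (α - 7) α ∪ Icc β (β + 7)) := by
    intro x hx
    simp only [mem_image, mem_filter, mem_univ, true_and] at hx
    obtain ⟨k, ⟨hp, hs⟩, rfl⟩ := hx
    have hk := k.isLt
    simp only [mem_union, mem_Icc]
    by_contra hcon
    push Not at hcon
    obtain ⟨⟨h1, h2⟩, h3, h4⟩ := hcon
    have h8 : 8 ≤ k.val + 1 := by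
      have := h1 (by omega)
      omega
    have h8' : k.val + 1 + 8 ≤ C.h + 1 := by
      by_contra h5
      have := h2 (by omega)
      omega
    -- some cold level near by
    have h9 : ∃ c, c ≤ C.h + 1 ∧ Cold q f m c ∧ k.val + 1 ≤ c + 7 ∧ c ≤ k.val + 1 + 7 := by
      by_contra h10
      apply hs
      refine ⟨h8, h8', fun i hi2 hi7 => ⟨fun hc => h10 ⟨k.val + 1 - i, by omega, hc, by omega,
        by omega⟩, fun hc => h10 ⟨k.val + 1 + i, by omega, hc, by omega, by omega⟩⟩⟩
    obtain ⟨c, hc1, hc2, hc3, hc4⟩ := h9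
    obtain ⟨⟨h11, h12⟩, h13⟩ := hαβ c hc1 hc2
    apply hp
    have h14 : α < k.val + 1 := by
      by_contra h15
      have := h3 (by omega)
      omega
    have h16 : k.val + 1 < β := by
      by_contra h17
      have := h4 (by omega)
      omega
    exact ⟨by omega, by omega, h13 _ (by omega) (by omega) (by omega),
      h13 _ (by omega) (by omega) (by omega)⟩
  have hinj : Function.Injective fun k : Fin C.h => k.val + 1 := by
    intro a a' h
    simp only at h
    exact Fin.ext (by omega)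
  rw [← Finset.card_image_of_injective _ hinj]
  refine (Finset.card_le_card hsub).trans ?_
  have c1 : (Icc 1 7 : Finset ℕ).card ≤ 7 := by simp
  have c2 : (Icc (C.h - 6) C.h : Finset ℕ).card ≤ 7 := by
    rw [Nat.card_Icc]; omega
  have c3 : (Icc (α - 7) α : Finset ℕ).card ≤ 8 := by
    rw [Nat.card_Icc]; omega
  have c4 : (Icc β (β + 7) : Finset ℕ).card ≤ 8 := by
    rw [Nat.card_Icc]; omega
  have d1 := Finset.card_union_le (Icc 1 7 : Finset ℕ) (Icc (C.h - 6) C.h)
  have d2 := Finset.card_union_le (Icc (α - 7) α : Finset ℕ) (Icc β (β + 7))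
  have d3 := Finset.card_union_le ((Icc 1 7 : Finset ℕ) ∪ Icc (C.h - 6) C.h)
    (Icc (α - 7) α ∪ Icc β (β + 7))
  omega

end Pool.Agent.AM
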