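import Pool.Agent.AM.Defs2
import Pool.Agent.AM.OrdBlk
import Pool.Agent.AM.Path

set_option autoImplicit false

open scoped Classical
open Finset

noncomputable section

namespace Pool.Agent.AM

namespace ConeD

variable {C : Cst} {p : Par C}

/-- frame vertex of a frame row -/
def fv : Row p → Option (Fin p.n)
  | .fu _ v => some v
  | .fd _ v => some v
  | .ce _ _ _ => none

/-- cell of a cell row -/
def cl : Row p → Option (Cell p)
  | .fu _ _ => none
  | .fd _ _ => none
  | .ce c _ _ => some c

/-- the vertex of a frame point -/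
def spz : Pt p → Option (Fin p.n)
  | .fr _ v => some v
  | .ce _ _ => none

/-- the cell of a cell point -/
def zcl : Pt p → Option (Cell p)
  | .fr _ _ => none
  | .ce c _ => some c

/-- the data of a cone in one direction -/
structure Sys (ω : Om p) (K0 : ℕ) (tl ol : Row p → ℕ) (ly : Cell p → ℕ)
    (U : ℕ → Finset (Fin p.n)) (RU : Finset (Row p)) (CE : Finset (Cell p))
    (sp : Option (Fin p.n)) (zc : Option (Cell p)) : Prop where
  K : ∀ j, C.K j ≤ K0
  deg : ∀ k ≤ C.h + 1, ∀ v, (univ.filter fun ri : Row p × Fin p.d =>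
    tl ri.1 = k ∧ ω ri.1 ri.2 = v).card ≤ p.d ^ 2
  inj : ∀ r r' : Row p, ol r = ol r' → r.up = r'.up → fv r = fv r' → fv r ≠ none → r = r'
  olle : ∀ r, ol r ≤ C.h + 1
  a : ∀ k ≤ C.h + 1, ∀ v ∈ U k, sp = some v ∨ (∃ r ∈ RU, ol r + 1 = k ∧ ∃ i, ω r i = v) ∨
      (∃ r, fv r = some v ∧ tl r + 1 = k ∧ ∃ i, ω r i ∈ U (tl r))
  b : ∀ c ∈ CE, zc = some c ∨ ∃ r, cl r = some c ∧ tl r + 1 = ly c ∧ ∃ i, ω r i ∈ U (tl r)
  c : ∀ r ∈ RU, (∃ v ∈ U (ol r), fv r = some v) ∨ (∃ c ∈ CE, cl r = some c ∧ ly c = ol r)

namespace Sys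

variable {ω : Om p} {K0 : ℕ} {tl ol : Row p → ℕ} {ly : Cell p → ℕ}
    {U : ℕ → Finset (Fin p.n)} {RU : Finset (Row p)} {CE : Finset (Cell p)}
    {sp : Option (Fin p.n)} {zc : Option (Cell p)}

/-- picks in `U k` -/
def S (ω : Om p) (tl : Row p → ℕ) (U : ℕ → Finset (Fin p.n)) (k : ℕ) : Finset (Row p × Fin p.d) :=
  univ.filter fun ri => tl ri.1 = k ∧ ω ri.1 ri.2 ∈ U k

theorem S_card (s : Sys ω K0 tl ol ly U RU CE sp zc) (k : ℕ) (hk : k ≤ C.h + 1) :
    (S ω tl U k).card ≤ (U k).card * p.d ^ 2 := by
  have h1 : S ω tl U k ⊆ (U k).biUnion (fun v => univ.filter fun ri : Row p × Fin p.d =>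
    tl ri.1 = k ∧ ω ri.1 ri.2 = v) := by
    intro ri h
    simp only [S, mem_filter, mem_univ, true_and] at h
    simp only [mem_biUnion, mem_filter, mem_univ, true_and]
    exact ⟨_, h.2, h.1, rfl⟩
  calc (S ω tl U k).card ≤ _ := card_le_card h1
    _ ≤ ∑ v ∈ U k, (univ.filter fun ri : Row p × Fin p.d =>
        tl ri.1 = k ∧ ω ri.1 ri.2 = v).card := card_biUnion_le
    _ ≤ ∑ v ∈ U k, p.d ^ 2 := sum_le_sum fun v _ => s.deg k hk v
    _ = _ := by simp

theorem CE_card (s : Sys ω K0 tl ol ly U RU CE sp zc) (l M : ℕ) (hl : l ≤ C.h + 1)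
    (hM : ∀ j ≤ l, (U j).card ≤ M) :
    (CE.filter fun c => ly c = l).card ≤ 1 + M * p.d ^ 2 := by
  rcases Nat.eq_zero_or_pos l with h0 | h0
  · subst h0
    have h1 : (CE.filter fun c => ly c = 0).image some ⊆ {zc} := by
      intro c hc
      simp only [mem_image, mem_filter] at hc
      obtain ⟨c, ⟨hc, hl⟩, rfl⟩ := hc
      rcases s.b c hc with h | ⟨r, _, h, _⟩
      · simp [h]
      · omega
    have h2 := card_le_card h1
    rw [card_image_of_injective _ (Option.some_injective _)] at h2
    simp only [card_singleton] at h2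
    omega
  · obtain ⟨k, rfl⟩ : ∃ k, l = k + 1 := ⟨l - 1, by omega⟩
    have h1 : (CE.filter fun c => ly c = k + 1).image some ⊆
        insert zc ((S ω tl U k).image fun ri => cl ri.1) := by
      intro c hc
      simp only [mem_image, mem_filter] at hc
      obtain ⟨c, ⟨hc, hl⟩, rfl⟩ := hc
      rcases s.b c hc with h | ⟨r, h1, h2, i, h3⟩
      · simp [h]
      · have : tl r = k := by omega
        simp only [mem_insert, mem_image]
        right
        refine ⟨(r, i), ?_, h1⟩
        simp only [S, mem_filter, mem_univ, true_and]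
        refine ⟨this, ?_⟩
        rw [this] at h3
        exact h3
    have h2 := card_le_card h1
    rw [card_image_of_injective _ (Option.some_injective _)] at h2
    have h3 := card_insert_le zc ((S ω tl U k).image fun ri => cl ri.1)
    have h4 : ((S ω tl U k).image fun ri => cl ri.1).card ≤ (S ω tl U k).card := card_image_le
    have h5 := s.S_card k (by omega)
    have h6 : (U k).card * p.d ^ 2 ≤ M * p.d ^ 2 := Nat.mul_le_mul_right _ (hM k (by omega))
    omega

theorem RU_card (s : Sys ω K0 tl ol ly U RU CE sp zc) (l M : ℕ) (hl : l ≤ C.h + 1)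
    (hM : ∀ j ≤ l, (U j).card ≤ M) :
    (RU.filter fun r => ol r = l).card ≤ 2 * M + (1 + M * p.d ^ 2) * (4 * K0) := by
  set A := (RU.filter fun r => ol r = l).filter fun r => ∃ v ∈ U l, fv r = some v
  set B := (RU.filter fun r => ol r = l).filter fun r => ¬ ∃ v ∈ U l, fv r = some v
  have hAB : A.card + B.card = (RU.filter fun r => ol r = l).card :=
    card_filter_add_card_filter_not _
  have hA : A.card ≤ 2 * M := by
    have h1 : A.card ≤ ((univ : Finset Bool) ×ˢ ((U l).image some)).card := by
      refine card_le_card_of_injOn (fun r => (r.up, fv r)) ?_ ?_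
      · intro r hr
        simp only [A, mem_coe, mem_filter] at hr
        obtain ⟨⟨_, _⟩, v, hv, h⟩ := hr
        simp only [mem_coe, mem_product, mem_univ, true_and, mem_image]
        exact ⟨v, hv, h.symm⟩
      · intro r hr r' hr' h
        simp only [A, mem_coe, mem_filter] at hr hr'
        obtain ⟨⟨_, h1⟩, v, hv, h2⟩ := hr
        obtain ⟨⟨_, h1'⟩, v', hv', h2'⟩ := hr'
        simp only [Prod.mk.injEq] at h
        exact s.inj r r' (h1.trans h1'.symm) h.1 h.2 (by rw [h2]; simp)
    have h2 : ((U l).image some).card ≤ (U l).card := card_image_le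
    have h3 := hM l le_rfl
    rw [card_product] at h1
    simp only [card_univ, Fintype.card_bool] at h1
    have : ((U l).image some).card ≤ M := by
      refine le_trans ?_ (le_trans h2 h3)
      exact le_of_eq (by congr)
    omega
  have hB : B.card ≤ (1 + M * p.d ^ 2) * (4 * K0) := by
    have h1 : B ⊆ (CE.filter fun c => ly c = l).biUnion fun c =>
        (univ : Finset (Fin (C.K c.j) × Srt)).image fun gs => Row.ce c gs.1 gs.2 := by
      intro r hr
      simp only [B, mem_filter] at hr
      obtain ⟨⟨h1, h2⟩, h3⟩ := hr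
      rcases s.c r h1 with h | ⟨c, hc, h, h'⟩
      · rw [h2] at h
        exact absurd h h3
      · simp only [mem_biUnion, mem_filter, mem_image, mem_univ, true_and]
        refine ⟨c, ⟨hc, h'.trans h2⟩, ?_⟩
        cases r with
        | fu k v => simp [cl] at h
        | fd k v => simp [cl] at h
        | ce c' g s' =>
          simp only [cl, Option.some.injEq] at h
          subst h
          exact ⟨(g, s'), rfl⟩
    calc B.card ≤ _ := card_le_card h1
      _ ≤ ∑ c ∈ CE.filter fun c => ly c = l,
          ((univ : Finset (Fin (C.K c.j) × Srt)).image fun gs => Row.ce c gs.1 gs.2).card :=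
          card_biUnion_le
      _ ≤ ∑ c ∈ CE.filter fun c => ly c = l, (4 * K0) := by
          refine sum_le_sum fun c _ => ?_
          refine le_trans card_image_le ?_
          rw [card_univ, Fintype.card_prod, Fintype.card_fin]
          have h4 : Fintype.card Srt = 4 := by decide
          rw [h4, mul_comm]
          exact Nat.mul_le_mul_left _ (s.K c.j)
      _ = (CE.filter fun c => ly c = l).card * (4 * K0) := by simp
      _ ≤ _ := Nat.mul_le_mul_right _ (s.CE_card l M hl hM)
  omega

theorem U_zero (s : Sys ω K0 tl ol ly U RU CE sp zc) : (U 0).card ≤ 1 := by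
  have h1 : (U 0).image some ⊆ {sp} := by
    intro v hv
    simp only [mem_image] at hv
    obtain ⟨v, hv, rfl⟩ := hv
    rcases s.a 0 (by omega) v hv with h | ⟨r, _, h, _⟩ | ⟨r, _, h, _⟩
    · simp [h]
    · omega
    · omega
  have h2 := card_le_card h1
  rw [card_image_of_injective _ (Option.some_injective _)] at h2
  simpa using h2

theorem U_succ (s : Sys ω K0 tl ol ly U RU CE sp zc) (l M : ℕ) (hl : l ≤ C.h)
    (hM : ∀ j ≤ l, (U j).card ≤ M) :
    (U (l + 1)).card ≤ 1 + (2 * M + (1 + M * p.d ^ 2) * (4 * K0)) * p.d + M * p.d ^ 2 := by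
  have h1 : (U (l + 1)).image some ⊆ insert sp
      (((((RU.filter fun r => ol r = l) ×ˢ (univ : Finset (Fin p.d))).image
        fun ri => some (ω ri.1 ri.2))) ∪ (S ω tl U l).image fun ri => fv ri.1) := by
    intro v hv
    simp only [mem_image] at hv
    obtain ⟨v, hv, rfl⟩ := hv
    rcases s.a (l + 1) (by omega) v hv with h | ⟨r, h1, h2, i, h3⟩ | ⟨r, h1, h2, i, h3⟩
    · simp [h]
    · simp only [mem_insert, mem_union, mem_image, mem_product, mem_filter, mem_univ, and_true]
      right; left
      exact ⟨(r, i), ⟨h1, show ol r = l by omega⟩, by simp [h3]⟩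
    · have : tl r = l := by omega
      simp only [mem_insert, mem_union, mem_image]
      right; right
      refine ⟨(r, i), ?_, h1⟩
      simp only [S, mem_filter, mem_univ, true_and]
      rw [this] at h3
      exact ⟨this, h3⟩
  have h2 := card_le_card h1
  rw [card_image_of_injective _ (Option.some_injective _)] at h2
  have h3 := card_insert_le sp
      (((((RU.filter fun r => ol r = l) ×ˢ (univ : Finset (Fin p.d))).image
        fun ri => some (ω ri.1 ri.2))) ∪ (S ω tl U l).image fun ri => fv ri.1)
  have h4 := card_union_le ((((RU.filter fun r => ol r = l) ×ˢ (univ : Finset (Fin p.d))).image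
        fun ri => some (ω ri.1 ri.2))) ((S ω tl U l).image fun ri => fv ri.1)
  have h5 : ((S ω tl U l).image fun ri => fv ri.1).card ≤ (S ω tl U l).card := card_image_le
  have h6 : (((RU.filter fun r => ol r = l) ×ˢ (univ : Finset (Fin p.d))).image
        fun ri => some (ω ri.1 ri.2)).card ≤ (RU.filter fun r => ol r = l).card * p.d := by
    refine le_trans card_image_le ?_
    rw [card_product]
    simp
  have h7 := s.S_card l (by omega)
  have h8 : (U l).card * p.d ^ 2 ≤ M * p.d ^ 2 := Nat.mul_le_mul_right _ (hM l le_rfl)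
  have h9 := Nat.mul_le_mul_right p.d (s.RU_card l M (by omega) hM)
  omega

theorem U_pow (s : Sys ω K0 tl ol ly U RU CE sp zc) (hd : 8 * K0 + 4 ≤ p.d) (k : ℕ) :
    k ≤ C.h + 1 → (U k).card ≤ (p.d ^ 4) ^ k := by
  have hd1 : 1 ≤ p.d := by omega
  have key : ∀ k, k ≤ C.h + 1 → ∀ j ≤ k, (U j).card ≤ (p.d ^ 4) ^ k := by
    intro k
    induction k with
    | zero =>
      intro _ j hj
      have : j = 0 := by omega
      subst this
      simpa using s.U_zero
    | succ k ih =>
      intro hk j hj
      have ih' := ih (by omega)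
      have hpos : 1 ≤ (p.d ^ 4) ^ k := Nat.one_le_pow _ _ (by positivity)
      rcases Nat.lt_or_ge j (k + 1) with h | h
      · refine le_trans (ih' j (by omega)) ?_
        exact Nat.pow_le_pow_right (by positivity) (by omega)
      · have : j = k + 1 := by omega
        subst this
        refine le_trans (s.U_succ k _ (by omega) ih') ?_
        set M := (p.d ^ 4) ^ k
        set d := p.d
        have e1 : (d ^ 4) ^ (k + 1) = M * d ^ 4 := pow_succ _ _
        rw [e1]
        have q1 : M * d ^ 3 * (8 * K0 + 4) ≤ M * d ^ 3 * d := Nat.mul_le_mul_left _ hd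
        have q2 : 1 ≤ M * d ^ 3 := Nat.one_le_iff_ne_zero.2 (by positivity)
        have q3 : M * d ≤ M * d ^ 3 := Nat.mul_le_mul_left _ (by nlinarith [Nat.one_le_pow 2 d hd1, pow_succ d 2])
        have q4 : d ≤ M * d ^ 3 := by
          calc d = 1 * d := (one_mul d).symm
            _ ≤ M * d := Nat.mul_le_mul_right _ hpos
            _ ≤ _ := q3
        have q5 : M * d ^ 2 ≤ M * d ^ 3 := Nat.mul_le_mul_left _ (Nat.pow_le_pow_right hd1 (by omega))
        have q6 : K0 * d ≤ K0 * (M * d ^ 3) := Nat.mul_le_mul_left _ q4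
        nlinarith
  intro hk
  exact key k hk k le_rfl

theorem RU_total (s : Sys ω K0 tl ol ly U RU CE sp zc) (hd : 8 * K0 + 4 ≤ p.d)
    (hd' : (C.h + 2) * (8 * K0 + 2) ≤ p.d) : RU.card ≤ p.d ^ (6 * (C.h + 2)) := by
  have hd1 : 1 ≤ p.d := by omega
  set M := (p.d ^ 4) ^ (C.h + 1) with hMdef
  have hpos : 1 ≤ M := Nat.one_le_pow _ _ (by positivity)
  have hM : ∀ j ≤ C.h + 1, (U j).card ≤ M := by
    intro j hj
    refine le_trans (s.U_pow hd j hj) ?_
    exact Nat.pow_le_pow_right (by positivity) hj
  have h1 : RU.card = ∑ l ∈ range (C.h + 2), (RU.filter fun r => ol r = l).card := by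
    refine card_eq_sum_card_fiberwise ?_
    intro r _
    simp only [coe_range, Set.mem_Iio]
    have := s.olle r
    omega
  rw [h1]
  calc ∑ l ∈ range (C.h + 2), (RU.filter fun r => ol r = l).card
      ≤ ∑ l ∈ range (C.h + 2), (2 * M + (1 + M * p.d ^ 2) * (4 * K0)) := by
        refine sum_le_sum fun l hl => ?_
        simp only [mem_range] at hl
        exact s.RU_card l M (by omega) fun j hj => hM j (by omega)
    _ = (C.h + 2) * (2 * M + (1 + M * p.d ^ 2) * (4 * K0)) := by simp
    _ ≤ (C.h + 2) * (M * p.d ^ 2 * (8 * K0 + 2)) := by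
        refine Nat.mul_le_mul_left _ ?_
        have q1 : M ≤ M * p.d ^ 2 := Nat.le_mul_of_pos_right _ (by positivity)
        have q2 : K0 ≤ K0 * (M * p.d ^ 2) := Nat.le_mul_of_pos_right _ (by positivity)
        nlinarith
    _ = (M * p.d ^ 2) * ((C.h + 2) * (8 * K0 + 2)) := by ring
    _ ≤ (M * p.d ^ 2) * p.d := Nat.mul_le_mul_left _ hd'
    _ = p.d ^ (4 * (C.h + 1) + 2 + 1) := by
        rw [hMdef, ← pow_mul, pow_add, pow_add, pow_one]
    _ ≤ _ := Nat.pow_le_pow_right hd1 (by omega)

end Sys

/-! ### the cone above a point -/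

theorem fv_own {r : Row p} {k : ℕ} (hk : k ≤ C.h + 1) {v : Fin p.n} (h : r.own (V p k v)) :
    fv r = some v ∧ r.olev = k := by
  cases r with
  | fu k' v' =>
    have h' : V p k v = V p k'.val v' := h
    obtain ⟨h1, h2⟩ := V_inj hk (by omega) h'
    exact ⟨by simp [fv, h2], by simp [Row.olev, h1]⟩
  | fd k' v' =>
    have h' : V p k v = V p (k'.val + 1) v' := h
    obtain ⟨h1, h2⟩ := V_inj hk (by omega) h'
    exact ⟨by simp [fv, h2], by simp [Row.olev, h1]⟩
  | ce c g s' =>
    obtain ⟨l, hl⟩ := h
    exact absurd hl (by simp [V])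

theorem cl_own {r : Row p} {c : Cell p} {e : CI p c.j} (h : r.own (.ce c e)) :
    cl r = some c ∧ r.olev = c.k.val + 1 := by
  cases r with
  | fu k' v' =>
    have h' : Pt.ce c e = V p k'.val v' := h
    exact absurd h' (by simp [V])
  | fd k' v' =>
    have h' : Pt.ce c e = V p (k'.val + 1) v' := h
    exact absurd h' (by simp [V])
  | ce c' g s' =>
    obtain ⟨l, hl⟩ := h
    have : c = c' := by injection hl
    subst this
    exact ⟨rfl, rfl⟩

theorem inj_aux (r r' : Row p) (h : r.olev = r'.olev) (hu : r.up = r'.up) (hf : fv r = fv r')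
    (hn : fv r ≠ none) : r = r' := by
  cases r with
  | fu k v =>
    cases r' with
    | fu k' v' =>
      simp only [fv, Option.some.injEq] at hf
      simp only [Row.olev] at h
      have : k = k' := Fin.ext h
      rw [this, hf]
    | fd k' v' => simp [Row.up] at hu
    | ce c g s => simp [fv] at hf
  | fd k v =>
    cases r' with
    | fu k' v' => simp [Row.up] at hu
    | fd k' v' =>
      simp only [fv, Option.some.injEq] at hf
      simp only [Row.olev] at h
      have : k = k' := Fin.ext (by omega)
      rw [this, hf]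
    | ce c g s => simp [fv] at hf
  | ce c g s => simp [fv] at hn

theorem own_cases (r : Row p) (x : Pt p) (h : r.own x) :
    (∃ v, fv r = some v ∧ x = V p r.olev v) ∨
    (∃ (c : Cell p) (e : CI p c.j), cl r = some c ∧ x = .ce c e ∧ c.k.val + 1 = r.olev) := by
  cases r with
  | fu k' v' => exact Or.inl ⟨v', rfl, h⟩
  | fd k' v' => exact Or.inl ⟨v', rfl, h⟩
  | ce c' g s' =>
    obtain ⟨l, hl⟩ := h
    exact Or.inr ⟨c', (g, s', l), rfl, hl, rfl⟩

theorem sysU (ω : Om p) (hω : DegOk ω) (K0 : ℕ) (hK : ∀ j, C.K j ≤ K0) (z : Pt p) :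
    Sys ω K0 Row.tlev Row.olev (fun c => c.k.val + 1)
      (fun k => univ.filter fun v => Le ω z (V p k v))
      (univ.filter fun r : Row p => ∃ x, r.own x ∧ Le ω z x)
      (univ.filter fun c : Cell p => ∃ e, Le ω z (.ce c e)) (spz z) (zcl z) where
  K := hK
  deg := fun k hk v => hω k hk v
  inj := inj_aux
  olle := fun r => (tlev_le r).2.1
  a := by
    intro k hk v hv
    simp only [mem_filter, mem_univ, true_and] at hv
    have hv' : Relation.ReflTransGen (Step ω ∅) z (V p k v) := hv
    rcases Relation.ReflTransGen.cases_tail hv' with h | ⟨y, hy, hs⟩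
    · left
      rw [← h]; rfl
    · right
      generalize hw : V p k v = w at hs
      cases hs with
      | up r _ hu _ hx i =>
        left
        obtain ⟨h1, h2⟩ := V_inj hk (tlev_le r).1 hw
        refine ⟨r, ?_, ?_, i, h2.symm⟩
        · simp only [mem_filter, mem_univ, true_and]
          exact ⟨y, hx, hy⟩
        · rw [h1]; exact ((tlev_le r).2.2.1 hu).symm
      | dn r _ hu _ hx i =>
        right
        rw [← hw] at hx
        obtain ⟨h1, h2⟩ := fv_own hk hx
        refine ⟨r, h1, ?_, i, ?_⟩
        · rw [← h2]; exact ((tlev_le r).2.2.2 hu).symm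
        · simp only [mem_filter, mem_univ, true_and]
          exact hy
      | cell c a b hab => exact absurd hw (by simp [V])
  b := by
    intro c hc
    simp only [mem_filter, mem_univ, true_and] at hc
    obtain ⟨e, he⟩ := hc
    have he' : Relation.ReflTransGen (Step ω ∅) z (.ce c e) := he
    generalize hw : Pt.ce c e = w at he'
    clear he
    induction he' generalizing e with
    | refl => left; rw [← hw]; rfl
    | @tail y y' hy hs ih =>
      cases hs with
      | up r _ hu _ hx i => exact absurd hw (by simp [V])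
      | dn r _ hu _ hx i =>
        right
        rw [← hw] at hx
        obtain ⟨h1, h2⟩ := cl_own hx
        refine ⟨r, h1, ?_, i, ?_⟩
        · rw [← h2]; exact ((tlev_le r).2.2.2 hu).symm
        · simp only [mem_filter, mem_univ, true_and]
          exact hy
      | cell c' a b hab =>
        have : c = c' := by injection hw
        subst this
        exact ih a rfl
  c := by
    intro r hr
    simp only [mem_filter, mem_univ, true_and] at hr
    obtain ⟨x, hx, hz⟩ := hr
    rcases own_cases r x hx with ⟨v, h1, h2⟩ | ⟨c, e, h1, h2, h3⟩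
    · left
      refine ⟨v, ?_, h1⟩
      simp only [mem_filter, mem_univ, true_and]
      rw [← h2]; exact hz
    · right
      refine ⟨c, ?_, h1, h3⟩
      simp only [mem_filter, mem_univ, true_and]
      exact ⟨e, by rw [← h2]; exact hz⟩

/-! ### the cone below a point -/

theorem sysD (ω : Om p) (hω : DegOk ω) (K0 : ℕ) (hK : ∀ j, C.K j ≤ K0) (z : Pt p) :
    Sys ω K0 (fun r => C.h + 1 - r.tlev) (fun r => C.h + 1 - r.olev)
      (fun c => C.h + 1 - (c.k.val + 1))
      (fun k => univ.filter fun v => Le ω (V p (C.h + 1 - k) v) z)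
      (univ.filter fun r : Row p => ∃ x, r.own x ∧ Le ω x z)
      (univ.filter fun c : Cell p => ∃ e, Le ω (.ce c e) z) (spz z) (zcl z) where
  K := hK
  deg := by
    intro k hk v
    refine le_trans (card_le_card ?_) (hω (C.h + 1 - k) (by omega) v)
    intro ri h
    simp only [mem_filter, mem_univ, true_and] at h ⊢
    have := (tlev_le ri.1).1
    exact ⟨by omega, h.2⟩
  inj := by
    intro r r' h
    have h1 := (tlev_le r).2.1
    have h2 := (tlev_le r').2.1
    exact inj_aux r r' (by omega)
  olle := fun r => by omega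
  a := by
    intro k hk v hv
    simp only [mem_filter, mem_univ, true_and] at hv
    have hv' : Relation.ReflTransGen (Step ω ∅) (V p (C.h + 1 - k) v) z := hv
    rcases Relation.ReflTransGen.cases_head hv' with h | ⟨y, hs, hy⟩
    · left
      rw [← h]; rfl
    · right
      generalize hw : V p (C.h + 1 - k) v = w at hs
      cases hs with
      | up r _ hu _ hx i =>
        right
        rw [← hw] at hx
        obtain ⟨h1, h2⟩ := fv_own (by omega) hx
        have h3 := (tlev_le r).2.2.1 hu
        have h4 := (tlev_le r).1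
        refine ⟨r, h1, by omega, i, ?_⟩
        simp only [mem_filter, mem_univ, true_and]
        have h5 : C.h + 1 - (C.h + 1 - r.tlev) = r.tlev := by omega
        rw [h5]
        exact hy
      | dn r _ hu _ hx i =>
        left
        obtain ⟨h1, h2⟩ := V_inj (by omega) (tlev_le r).1 hw
        have h3 := (tlev_le r).2.2.2 hu
        have h4 := (tlev_le r).2.1
        refine ⟨r, ?_, by omega, i, h2.symm⟩
        simp only [mem_filter, mem_univ, true_and]
        exact ⟨y, hx, hy⟩
      | cell c a b hab => exact absurd hw (by simp [V])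
  b := by
    intro c hc
    simp only [mem_filter, mem_univ, true_and] at hc
    obtain ⟨e, he⟩ := hc
    have he' : Relation.ReflTransGen (Step ω ∅) (.ce c e) z := he
    generalize hw : Pt.ce c e = w at he'
    clear he
    induction he' using Relation.ReflTransGen.head_induction_on generalizing e with
    | refl => left; rw [← hw]; rfl
    | @head y y' hs hy ih =>
      cases hs with
      | up r _ hu _ hx i =>
        right
        rw [← hw] at hx
        obtain ⟨h1, h2⟩ := cl_own hx
        have h3 := (tlev_le r).2.2.1 hu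
        have h4 := (tlev_le r).1
        refine ⟨r, h1, by omega, i, ?_⟩
        simp only [mem_filter, mem_univ, true_and]
        have h5 : C.h + 1 - (C.h + 1 - r.tlev) = r.tlev := by omega
        rw [h5]
        exact hy
      | dn r _ hu _ hx i => exact absurd hw (by simp [V])
      | cell c' a b hab =>
        have : c = c' := by injection hw
        subst this
        exact ih b rfl
  c := by
    intro r hr
    simp only [mem_filter, mem_univ, true_and] at hr
    obtain ⟨x, hx, hz⟩ := hr
    have h6 := (tlev_le r).2.1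
    rcases own_cases r x hx with ⟨v, h1, h2⟩ | ⟨c, e, h1, h2, h3⟩
    · left
      refine ⟨v, ?_, h1⟩
      simp only [mem_filter, mem_univ, true_and]
      have h5 : C.h + 1 - (C.h + 1 - r.olev) = r.olev := by omega
      rw [h5, ← h2]; exact hz
    · right
      refine ⟨c, ?_, h1, by omega⟩
      simp only [mem_filter, mem_univ, true_and]
      exact ⟨e, by rw [← h2]; exact hz⟩

/-- the statement with an explicit condition on `d` -/
theorem cones_of (ω : Om p) (hω : DegOk ω) (K0 : ℕ) (hK : ∀ j, C.K j ≤ K0)
    (hd : 8 * K0 + 4 ≤ p.d) (hd' : (C.h + 2) * (8 * K0 + 2) ≤ p.d) :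
    Cones (p.d ^ (6 * (C.h + 2))) ω := by
  have hd1 : 1 ≤ p.d := by omega
  have hpow : ∀ k ≤ C.h + 1, (p.d ^ 4) ^ k ≤ p.d ^ (6 * (C.h + 2)) := by
    intro k hk
    rw [← pow_mul]
    exact Nat.pow_le_pow_right hd1 (by omega)
  refine ⟨fun z k hk => ?_, fun z k hk => ?_, fun z => ?_, fun z => ?_⟩
  · exact le_trans ((sysU ω hω K0 hK z).U_pow hd k hk) (hpow k hk)
  · have h := (sysD ω hω K0 hK z).U_pow hd (C.h + 1 - k) (by omega)
    have h5 : C.h + 1 - (C.h + 1 - k) = k := by omega
    simp only [h5] at h
    exact le_trans h (hpow _ (by omega))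
  · exact (sysU ω hω K0 hK z).RU_total hd hd'
  · exact (sysD ω hω K0 hK z).RU_total hd hd'

end ConeD

/-- (D1), deterministic: small degrees give small cones -/
theorem cones_of_deg (c : PC) (q : Con) (hc : c.Ok q) : ∀ᶠ t in Filter.atTop,
    ∀ ω : Om (c.par t), DegOk ω → Cones (c.kappa t) ω := by
  have hlam : 1 ≤ c.lam := by rw [hc.lam]; norm_num
  have hL : 1 ≤ c.lam ^ (c.W - 1) := Nat.one_le_pow _ _ hlam
  set K0 := c.Kst * (2 * c.lam) ^ (c.W - 1) with hK0
  filter_upwards [Filter.eventually_ge_atTop (8 * K0 + 4 + (c.h + 2) * (8 * K0 + 2))] with t ht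
  intro ω hω
  have hK : ∀ j, c.cst.K j ≤ K0 := by
    intro j
    have : c.cst.K j = c.Kst * (2 * c.lam) ^ (c.W - 1 - j.val) := rfl
    rw [this, hK0]
    exact Nat.mul_le_mul_left _ (Nat.pow_le_pow_right (by omega) (Nat.sub_le _ _))
  have hd : t ≤ (c.par t).d := by
    have h1 : (c.par t).d = t ^ (c.lam ^ (c.W - 1)) := rfl
    rw [h1]
    calc t = t ^ 1 := (pow_one t).symm
      _ ≤ _ := Nat.pow_le_pow_right (by omega) hL
  have h := ConeD.cones_of ω hω K0 hK (by omega) (by
    have : (c.cst.h + 2) * (8 * K0 + 2) = (c.h + 2) * (8 * K0 + 2) := rfl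
    omega)
  have e : (c.par t).d ^ (6 * (c.cst.h + 2)) = c.kappa t := by
    have h1 : (c.par t).d = t ^ (c.lam ^ (c.W - 1)) := rfl
    have h2 : c.cst.h = c.h := rfl
    rw [h1, h2, PC.kappa, ← pow_mul]
    congr 1
    ring
  rw [e] at h
  exact h

end Pool.Agent.AM
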