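import Mathlib

set_option autoImplicit false

/-!
# MP_61102a_co, S09118 : definitions (blueprint /team-store/team_M.md)
-/

open scoped Classical
open Finset

noncomputable section

namespace Pool.Agent.AM

/-- constants common to all blocks: frame levels `0..h+1`, cell levels `1..h`, `W` classes,
`K j` gadgets in a cell of class `j` -/
structure Cst where
  h : ℕ
  W : ℕ
  K : Fin W → ℕ

/-- parameters of one block -/
structure Par (C : Cst) where
  n : ℕ
  d : ℕ
  N : Fin C.W → ℕ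
  T : Fin C.W → ℕ

/-- the four sorts of a gadget: `A, F` lower, `G, D` upper -/
inductive Srt
  | A | F | G | D
  deriving DecidableEq

instance : Fintype Srt := ⟨{.A, .F, .G, .D}, fun x => by cases x <;> simp⟩

/-- upper sorts are `G` and `D` -/
def Srt.up : Srt → Bool
  | .A => false
  | .F => false
  | .G => true
  | .D => true

variable {C : Cst}

/-- a cell: level `k+1`, class `j`, number `c` -/
@[ext]
structure Cell (p : Par C) where
  k : Fin C.h
  j : Fin C.W
  c : Fin (p.N j)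

/-- `Cell p` as a sigma type -/
def cellEquiv (p : Par C) : Cell p ≃ (Σ j : Fin C.W, Fin C.h × Fin (p.N j)) where
  toFun c := ⟨c.j, c.k, c.c⟩
  invFun x := ⟨x.2.1, x.1, x.2.2⟩
  left_inv _ := rfl
  right_inv _ := rfl

instance (p : Par C) : Fintype (Cell p) := Fintype.ofEquiv _ (cellEquiv p).symm

/-- the points of a cell of class `j`: gadget, sort, label -/
abbrev CI (p : Par C) (j : Fin C.W) : Type := Fin (C.K j) × Srt × Fin (p.T j)

/-- points of a block -/
inductive Pt (p : Par C)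
  | fr (k : Fin (C.h + 2)) (v : Fin p.n)
  | ce (c : Cell p) (e : CI p c.j)

/-- `Pt p` as a sum type -/
def ptEquiv (p : Par C) : Pt p ≃ (Fin (C.h + 2) × Fin p.n) ⊕ (Σ c : Cell p, CI p c.j) where
  toFun
    | .fr k v => .inl (k, v)
    | .ce c e => .inr ⟨c, e⟩
  invFun
    | .inl x => .fr x.1 x.2
    | .inr x => .ce x.1 x.2
  left_inv x := by cases x <;> rfl
  right_inv x := by rcases x with x | x <;> rfl

instance (p : Par C) : Fintype (Pt p) := Fintype.ofEquiv _ (ptEquiv p).symm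

/-- rows of picks. `fu k v`: up-picks of the frame point `v` of level `k` (target level `k+1`).
`fd k v`: down-picks of the frame point `v` of level `k+1` (target level `k`).
`ce c g s`: picks of sort `s` of gadget `g` of the cell `c` (up to level `c.k+2` for `s = G, D`,
down to level `c.k` for `s = A, F`). -/
inductive Row (p : Par C)
  | fu (k : Fin (C.h + 1)) (v : Fin p.n)
  | fd (k : Fin (C.h + 1)) (v : Fin p.n)
  | ce (c : Cell p) (g : Fin (C.K c.j)) (s : Srt)

/-- `Row p` as a sum type -/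
def rowEquiv (p : Par C) : Row p ≃
    ((Fin (C.h + 1) × Fin p.n) ⊕ (Fin (C.h + 1) × Fin p.n)) ⊕
      (Σ c : Cell p, Fin (C.K c.j) × Srt) where
  toFun
    | .fu k v => .inl (.inl (k, v))
    | .fd k v => .inl (.inr (k, v))
    | .ce c g s => .inr ⟨c, g, s⟩
  invFun
    | .inl (.inl x) => .fu x.1 x.2
    | .inl (.inr x) => .fd x.1 x.2
    | .inr x => .ce x.1 x.2.1 x.2.2
  left_inv x := by cases x <;> rfl
  right_inv x := by rcases x with (x | x) | x <;> rfl

instance (p : Par C) : Fintype (Row p) := Fintype.ofEquiv _ (rowEquiv p).symm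

/-- all choices of picks -/
abbrev Om (p : Par C) : Type := Row p → Fin p.d → Fin p.n

/-- strict order inside a gadget -/
def GLt {T : ℕ} : Srt → Fin T → Srt → Fin T → Prop
  | .A, l, .G, l' => l = l'
  | .F, l, .G, l' => l = l'
  | .F, l, .D, l' => l = l'
  | .A, l, .D, l' => l ≠ l'
  | _, _, _, _ => False

/-- strict order inside a cell -/
def CLt {K T : ℕ} (a b : Fin K × Srt × Fin T) : Prop :=
  a.1 < b.1 ∨ (a.1 = b.1 ∧ GLt a.2.1 a.2.2 b.2.1 b.2.2)

/-- level of a point -/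
def lev {p : Par C} : Pt p → ℕ
  | .fr k _ => k.val
  | .ce c _ => c.k.val + 1

/-- frame point `v` of level `k` (`k ≤ h+1`; for other `k` reduced mod `h+2`) -/
def V (p : Par C) (k : ℕ) (v : Fin p.n) : Pt p := .fr (Fin.ofNat (C.h + 2) k) v

/-- direction of a row -/
def Row.up {p : Par C} : Row p → Bool
  | .fu _ _ => true
  | .fd _ _ => false
  | .ce _ _ s => s.up

/-- level of the owner of a row -/
def Row.olev {p : Par C} : Row p → ℕ
  | .fu k _ => k.val
  | .fd k _ => k.val + 1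
  | .ce c _ _ => c.k.val + 1

/-- level of the targets of a row -/
def Row.tlev {p : Par C} : Row p → ℕ
  | .fu k _ => k.val + 1
  | .fd k _ => k.val
  | .ce c _ s => if s.up then c.k.val + 2 else c.k.val

/-- the points which own a row -/
def Row.own {p : Par C} : Row p → Pt p → Prop
  | .fu k v, x => x = V p k.val v
  | .fd k v, x => x = V p (k.val + 1) v
  | .ce c g s, x => ∃ l, x = .ce c (g, s, l)

/-- one step of the order, not using the rows in `R` -/
inductive Step {p : Par C} (ω : Om p) (R : Set (Row p)) : Pt p → Pt p → Prop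
  | up (r : Row p) (hr : r ∉ R) (hu : r.up = true) (x : Pt p) (hx : r.own x) (i : Fin p.d) :
      Step ω R x (V p r.tlev (ω r i))
  | dn (r : Row p) (hr : r ∉ R) (hu : r.up = false) (x : Pt p) (hx : r.own x) (i : Fin p.d) :
      Step ω R (V p r.tlev (ω r i)) x
  | cell (c : Cell p) (a b : CI p c.j) (hab : CLt a b) : Step ω R (.ce c a) (.ce c b)

/-- the order generated by the steps which do not use the rows in `R` -/
def LeA {p : Par C} (ω : Om p) (R : Set (Row p)) (x y : Pt p) : Prop :=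
  Relation.ReflTransGen (Step ω R) x y

/-- THE order of the block -/
def Le {p : Par C} (ω : Om p) (x y : Pt p) : Prop := LeA ω ∅ x y

/-- the basic facts on the order used by the deterministic part -/
structure BlkOrd {p : Par C} (le : Pt p → Pt p → Prop) : Prop where
  refl : ∀ x, le x x
  trans : ∀ x y z, le x y → le y z → le x z
  antisymm : ∀ x y, le x y → le y x → x = y
  lev_mono : ∀ x y, le x y → lev x ≤ lev y
  same : ∀ x y, le x y → lev x = lev y →
    x = y ∨ ∃ (c : Cell p) (a b : CI p c.j), x = .ce c a ∧ y = .ce c b ∧ CLt a b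
  cell : ∀ (c : Cell p) (a b : CI p c.j), CLt a b → le (.ce c a) (.ce c b)

/-- `S` a set of frame points of level `k+1`; result: points of level `k` -/
def dn {p : Par C} (le : Pt p → Pt p → Prop) (k : ℕ) (S : Finset (Fin p.n)) : Finset (Fin p.n) :=
  univ.filter fun x => ∃ z, ¬ le z (V p k x) ∧
    ∀ u, le (V p k x) (V p (k + 1) u) → u ∈ S ∨ le z (V p (k + 1) u)

/-- `S` a set of frame points of level `k`; result: points of level `k+1` -/
def ud {p : Par C} (le : Pt p → Pt p → Prop) (k : ℕ) (S : Finset (Fin p.n)) : Finset (Fin p.n) :=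
  univ.filter fun x => ∃ z, ¬ le (V p (k + 1) x) z ∧
    ∀ u, le (V p k u) (V p (k + 1) x) → u ∈ S ∨ le (V p k u) z

/-- the cell `c` is pinned from below outside the set `S` of frame points of level `c.k` -/
def LowReg {p : Par C} (le : Pt p → Pt p → Prop) (c : Cell p) (S : Finset (Fin p.n)) : Prop :=
  ∀ (g : Fin (C.K c.j)) (s : Srt), s.up = false →
    (∃ v, v ∉ S ∧ ∀ l, le (V p c.k.val v) (.ce c (g, s, l))) ∧
    ∀ z, (∀ v, v ∉ S → (∀ l, le (V p c.k.val v) (.ce c (g, s, l))) → le (V p c.k.val v) z) →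
      ∃ l, le (.ce c (g, s, l)) z

/-- the cell `c` is pinned from above outside the set `S` of frame points of level `c.k+2` -/
def UpReg {p : Par C} (le : Pt p → Pt p → Prop) (c : Cell p) (S : Finset (Fin p.n)) : Prop :=
  ∀ (g : Fin (C.K c.j)) (s : Srt), s.up = true →
    (∃ v, v ∉ S ∧ ∀ l, le (.ce c (g, s, l)) (V p (c.k.val + 2) v)) ∧
    ∀ z, (∀ v, v ∉ S → (∀ l, le (.ce c (g, s, l)) (V p (c.k.val + 2) v)) →
      le z (V p (c.k.val + 2) v)) → ∃ l, le z (.ce c (g, s, l))

/-- `x` lies in the cell `c` -/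
def inCell {p : Par C} (c : Cell p) (x : Pt p) : Prop := ∃ e, x = .ce c e

/-- numerical constants of the good properties -/
structure Con where
  kap : ℝ
  d1 : ℝ
  d2 : ℝ
  dlt : ℝ
  P : ℕ

/-- the good properties (A1)-(A6) of one block -/
structure GoodBlk (q : Con) (p : Par C) (le : Pt p → Pt p → Prop) : Prop where
  npos : 0 < p.n
  ord : BlkOrd le
  a1d : ∀ k ≤ C.h, ∀ S : Finset (Fin p.n), (S.card : ℝ) ≤ q.kap * p.n →
    9 * (dn le k S).card ≤ S.card
  a1u : ∀ k ≤ C.h, ∀ S : Finset (Fin p.n), (S.card : ℝ) ≤ q.kap * p.n →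
    9 * (ud le k S).card ≤ S.card
  a2 : ∀ k ≤ C.h, ∀ X U : Finset (Fin p.n), q.d1 * p.n ≤ X.card → q.d1 * p.n ≤ U.card →
    ∃ x ∈ X, ∃ u ∈ U, le (V p k x) (V p (k + 1) u)
  a3u : ∀ z, ∀ k ≤ C.h + 1, 4 * (univ.filter fun x => le z (V p k x)).card ≤ p.n
  a3d : ∀ z, ∀ k ≤ C.h + 1, 4 * (univ.filter fun x => le (V p k x) z).card ≤ p.n
  a4f : ∀ y z, ∀ k ≤ C.h + 1, (univ.filter fun v => V p k v ≠ y ∧ V p k v ≠ z ∧
    le y (V p k v) ∧ le (V p k v) z).card ≤ q.P
  a4c : ∀ y z, ∀ k : Fin C.h, {c : Cell p | c.k = k ∧ ¬ inCell c y ∧ ¬ inCell c z ∧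
    ∃ e, le y (.ce c e) ∧ le (.ce c e) z}.ncard ≤ q.P
  a5 : ∀ c : Cell p, LowReg le c ∅ ∧ UpReg le c ∅
  a6l : ∀ (k : Fin C.h) (j : Fin C.W) (S : Finset (Fin p.n)), (S.card : ℝ) ≤ q.kap * p.n →
    ((univ.filter fun c : Fin (p.N j) => ¬ LowReg le ⟨k, j, c⟩ S).card : ℝ) ≤ q.dlt * p.N j
  a6u : ∀ (k : Fin C.h) (j : Fin C.W) (S : Finset (Fin p.n)), (S.card : ℝ) ≤ q.kap * p.n →
    ((univ.filter fun c : Fin (p.N j) => ¬ UpReg le ⟨k, j, c⟩ S).card : ℝ) ≤ q.dlt * p.N j

/-- (R), target a different block -/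
def RelX (q : Con) (p p' : Par C) (le : Pt p → Pt p → Prop) (le' : Pt p' → Pt p' → Prop) : Prop :=
  ∀ k ≤ C.h, ∀ (X U : Finset (Fin p.n)) (a b : Fin p.n → Pt p'),
    (∀ x ∈ X, ∀ u ∈ U, le (V p k x) (V p (k + 1) u) → le' (a x) (b u)) →
    (((X ×ˢ U).filter fun xu => ¬ le' (a xu.1) (b xu.2)).card : ℝ) ≤ q.d2 * (p.n : ℝ) ^ 2

/-- (R), target the block itself -/
def RelS (q : Con) (p : Par C) (le : Pt p → Pt p → Prop) : Prop :=
  ∀ k ≤ C.h, ∀ (X U : Finset (Fin p.n)) (a b : Fin p.n → Pt p),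
    (((∀ x ∈ X, k + 1 ≤ lev (a x)) ∧ ∀ u ∈ U, k + 1 ≤ lev (b u)) ∨
     ((∀ x ∈ X, lev (a x) ≤ k) ∧ ∀ u ∈ U, lev (b u) ≤ k) ∨
     ((∀ x ∈ X, lev (a x) = k ∧ a x ≠ V p k x) ∧ ∀ u ∈ U, k + 1 ≤ lev (b u))) →
    (∀ x ∈ X, ∀ u ∈ U, le (V p k x) (V p (k + 1) u) → le (a x) (b u)) →
    (((X ×ˢ U).filter fun xu => ¬ le (a xu.1) (b xu.2)).card : ℝ) ≤ q.d2 * (p.n : ℝ) ^ 2

/-! ### towers -/

/-- points of the (infinite) tower: block `m` lies above block `m+1`; `top` is the greatest -/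
inductive TP (par : ℕ → Par C)
  | top
  | pt (m : ℕ) (x : Pt (par m))

section Tower

variable {par : ℕ → Par C}

/-- order of the tower -/
inductive TLe (le : ∀ m, Pt (par m) → Pt (par m) → Prop) : TP par → TP par → Prop
  | top (x : TP par) : TLe le x .top
  | lt {m m' : ℕ} (h : m' < m) (x : Pt (par m)) (x' : Pt (par m')) : TLe le (.pt m x) (.pt m' x')
  | eq {m : ℕ} {x x' : Pt (par m)} (h : le m x x') : TLe le (.pt m x) (.pt m x')

/-- the part of the tower with blocks `lo..hi`, with the top point iff `b` -/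
def inT (par : ℕ → Par C) (lo hi : ℕ) (b : Prop) : TP par → Prop
  | .top => b
  | .pt m _ => lo ≤ m ∧ m ≤ hi

/-- order preserving self-maps of the part `lo..hi, b` -/
structure Endo (le : ∀ m, Pt (par m) → Pt (par m) → Prop) (lo hi : ℕ) (b : Prop)
    (f : TP par → TP par) : Prop where
  maps : ∀ x, inT par lo hi b x → inT par lo hi b (f x)
  mono : ∀ x y, inT par lo hi b x → inT par lo hi b y → TLe le x y → TLe le (f x) (f y)

/-- frame point `v` of level `k` of block `m` -/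
def TV (par : ℕ → Par C) (m k : ℕ) (v : Fin (par m).n) : TP par := .pt m (V (par m) k v)

/-- displaced frame points -/
def Disp (f : TP par → TP par) (m k : ℕ) : Finset (Fin (par m).n) :=
  univ.filter fun v => f (TV par m k v) ≠ TV par m k v

/-- a cold level -/
def Cold (q : Con) (f : TP par → TP par) (m k : ℕ) : Prop :=
  ((Disp f m k).card : ℝ) ≤ q.kap * (par m).n

/-- `f` is the identity on the frame of block `m` -/
def Rigid (f : TP par → TP par) (m : ℕ) : Prop :=
  ∀ k ≤ C.h + 1, ∀ v, f (TV par m k v) = TV par m k v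

/-- `f` is fully warm on block `m` -/
def FW (q : Con) (f : TP par → TP par) (m : ℕ) : Prop :=
  ∀ k ≤ C.h + 1, ¬ Cold q f m k

/-- `z` lies above block `m` -/
def Above (m : ℕ) : TP par → Prop
  | .top => True
  | .pt m' _ => m' < m

/-- `z` lies below block `m` -/
def Below (m : ℕ) : TP par → Prop
  | .top => False
  | .pt m' _ => m < m'

/-- height index of a point in the tower with blocks `lo..hi` -/
def idx (lo hi : ℕ) : TP par → ℕ
  | .top => (hi + 1 - lo) * (C.h + 2)
  | .pt m x => (hi - m) * (C.h + 2) + lev x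

/-- a good tower -/
structure GoodTow (q : Con) (par : ℕ → Par C) (t : ℕ → ℕ)
    (le : ∀ m, Pt (par m) → Pt (par m) → Prop) (lo hi : ℕ) : Prop where
  blk : ∀ m, lo ≤ m → m ≤ hi → GoodBlk q (par m) (le m)
  self : ∀ m, lo ≤ m → m ≤ hi → RelS q (par m) (le m)
  rel : ∀ m m', lo ≤ m → m ≤ hi → lo ≤ m' → m' ≤ hi → m ≠ m' → t m' ≤ (t m) ^ 2 →
    RelX q (par m) (par m') (le m) (le m')

/-- the maps which are counted (identity outside the part) -/
def EndSet (le : ∀ m, Pt (par m) → Pt (par m) → Prop) (lo hi : ℕ) (b : Prop) :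
    Set (TP par → TP par) :=
  {f | Endo le lo hi b f ∧ ∀ x, ¬ inT par lo hi b x → f x = x}

/-- those without a rigid block -/
def FreeSet (le : ∀ m, Pt (par m) → Pt (par m) → Prop) (lo hi : ℕ) (b : Prop) :
    Set (TP par → TP par) :=
  {f | f ∈ EndSet le lo hi b ∧ ∀ m, lo ≤ m → m ≤ hi → ¬ Rigid f m}

/-- the number of gadget automorphisms of a block -/
def aR (p : Par C) : ℕ := ∏ j : Fin C.W, ((p.T j).factorial) ^ (C.h * p.N j * C.K j)

end Tower

/-! ### concrete parameters -/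

/-- the integer constants -/
structure PC where
  W : ℕ
  lam : ℕ
  Kst : ℕ
  h : ℕ
  E : ℕ

/-- the constants common to all blocks -/
def PC.cst (c : PC) : Cst := ⟨c.h, c.W, fun j => c.Kst * (2 * c.lam) ^ (c.W - 1 - j.val)⟩

/-- the block with parameter `t` -/
def PC.par (c : PC) (t : ℕ) : Par c.cst where
  n := t ^ (c.E - 1)
  d := t ^ (c.lam ^ (c.W - 1))
  N := fun j => 2 ^ j.val * t ^ (c.E - c.lam ^ j.val)
  T := fun j => t ^ (c.lam ^ j.val)

/-- content of one class on one level -/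
def PC.G (c : PC) (t : ℕ) : ℝ := c.Kst * (2 * c.lam) ^ (c.W - 1) * (t : ℝ) ^ c.E * Real.log t

/-- conditions on the constants -/
structure PC.Ok (c : PC) (q : Con) : Prop where
  lam : c.lam = 1000
  W : c.W = 2000000
  h : 1000 * c.lam ^ (c.W - 1) + 10000 ≤ c.h
  E : c.E = 100 * (c.lam ^ (c.W - 1) * (c.h + 2))
  Kst : 10 ^ 8 * c.E ≤ c.Kst
  P : q.P = 36
  dlt0 : 0 < q.dlt
  dlt : q.dlt * (10 ^ 7 * c.E) ≤ 1
  kap0 : 0 < q.kap
  kap : q.kap ≤ q.dlt
  kap' : q.kap ≤ 1 / 100
  d10 : 0 < q.d1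
  d1 : q.d1 ≤ q.kap ^ 2 / 10 ^ 4
  d20 : 0 < q.d2
  d2 : q.d2 ≤ q.kap ^ 2 / 10 ^ 4

/-- integer part of the `(E+2)`-th root -/
def PC.rt (c : PC) (m : ℕ) : ℕ := Nat.findGreatest (fun t => t ^ (c.E + 2) ≤ m) m

/-- parameter of block `m` (blocks are numbered from the top) -/
def PC.tf (c : PC) (m0 m : ℕ) : ℕ := c.rt (m + m0)

/-- block `m` -/
def PC.bl (c : PC) (m0 m : ℕ) : Par c.cst := c.par (c.tf m0 m)

end Pool.Agent.AM
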