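import Pool.Agent.AM.Defs

set_option autoImplicit false

/-!
# MP_61102a_co, S09118 : more definitions
-/

open scoped Classical
open Finset

noncomputable section

namespace Pool.Agent.AM

/-- uniform probability on a finite type -/
def Pr {Ω : Type*} [Fintype Ω] (S : Ω → Prop) : ℝ :=
  ((univ.filter S).card : ℝ) / (Fintype.card Ω : ℝ)

/-- conditions on the numerical constants used in the deterministic part -/
structure Con.Ok (q : Con) : Prop where
  kap0 : 0 < q.kap
  kap' : q.kap ≤ 1 / 100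
  d10 : 0 < q.d1
  d1 : q.d1 ≤ q.kap ^ 2 / 10 ^ 4
  d20 : 0 < q.d2
  d2 : q.d2 ≤ q.kap ^ 2 / 10 ^ 4

theorem PC.Ok.con {c : PC} {q : Con} (h : c.Ok q) : q.Ok :=
  ⟨h.kap0, h.kap', h.d10, h.d1, h.d20, h.d2⟩

/-- bound for cones -/
def PC.kappa (c : PC) (t : ℕ) : ℕ := t ^ (6 * (c.lam ^ (c.W - 1) * (c.h + 2)))

section Block

variable {C : Cst} {p : Par C}

/-- (D0) degrees -/
def DegOk (ω : Om p) : Prop :=
  ∀ k ≤ C.h + 1, ∀ v : Fin p.n,
    (univ.filter fun ri : Row p × Fin p.d => ri.1.tlev = k ∧ ω ri.1 ri.2 = v).card ≤ p.d ^ 2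

/-- (D1) cones -/
structure Cones (κ : ℕ) (ω : Om p) : Prop where
  u : ∀ z, ∀ k ≤ C.h + 1, (univ.filter fun v => Le ω z (V p k v)).card ≤ κ
  d : ∀ z, ∀ k ≤ C.h + 1, (univ.filter fun v => Le ω (V p k v) z).card ≤ κ
  ru : ∀ z, (univ.filter fun r : Row p => ∃ x, r.own x ∧ Le ω z x).card ≤ κ
  rd : ∀ z, (univ.filter fun r : Row p => ∃ x, r.own x ∧ Le ω x z).card ≤ κ

/-- few picks of a row are above (below) a point unless an owner is -/
def Thin (ω : Om p) : Prop :=
  (∀ (r : Row p) (z : Pt p), r.up = true → (∀ x, r.own x → ¬ Le ω z x) →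
    4 * (univ.filter fun i => Le ω z (V p r.tlev (ω r i))).card < p.d) ∧
  (∀ (r : Row p) (z : Pt p), r.up = false → (∀ x, r.own x → ¬ Le ω x z) →
    4 * (univ.filter fun i => Le ω (V p r.tlev (ω r i)) z).card < p.d)

/-- small set expansion of the frame picks -/
def Expd (q : Con) (ω : Om p) : Prop :=
  ∀ (k : Fin (C.h + 1)) (S : Finset (Fin p.n)), (S.card : ℝ) ≤ q.kap * p.n →
    9 * (univ.filter fun x : Fin p.n =>
      p.d ≤ 2 * (univ.filter fun i => ω (.fu k x) i ∈ S).card).card ≤ S.card ∧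
    9 * (univ.filter fun x : Fin p.n =>
      p.d ≤ 2 * (univ.filter fun i => ω (.fd k x) i ∈ S).card).card ≤ S.card

/-- few cells have a sort with many picks in a small set -/
def RegE (q : Con) (ω : Om p) : Prop :=
  ∀ (up : Bool) (k : Fin C.h) (j : Fin C.W) (S : Finset (Fin p.n)), (S.card : ℝ) ≤ q.kap * p.n →
    ((univ.filter fun c : Fin (p.N j) => ∃ (g : Fin (C.K j)) (s : Srt), s.up = up ∧
      p.d ≤ 2 * (univ.filter fun i => ω (.ce ⟨k, j, c⟩ g s) i ∈ S).card).card : ℝ)
      ≤ q.dlt * p.N j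

/-- mixing (A2) for one `ω`, with picks only -/
def MixE (q : Con) (ω : Om p) : Prop :=
  ∀ (k : Fin (C.h + 1)) (X U : Finset (Fin p.n)), q.d1 * p.n ≤ X.card → q.d1 * p.n ≤ U.card →
    ∃ x ∈ X, ∃ i, ω (.fu k x) i ∈ U

end Block

section Tower

variable {C : Cst} {par : ℕ → Par C}

/-- number of points of the part `lo..hi` plus one -/
def cardT (par : ℕ → Par C) (lo hi : ℕ) : ℕ := 1 + ∑ m ∈ Icc lo hi, Fintype.card (Pt (par m))

/-- number of frame points of the part `lo..hi` plus one -/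
def cardF (par : ℕ → Par C) (lo hi : ℕ) : ℕ := 1 + ∑ m ∈ Icc lo hi, (C.h + 2) * (par m).n

/-- restriction to a cell -/
def resC (f : TP par → TP par) (m : ℕ) (c : Cell (par m)) : CI (par m) c.j → TP par :=
  fun e => f (.pt m (.ce c e))

/-- equality on the frames and the top point -/
def SkEq (lo hi : ℕ) (b : Prop) (f g : TP par → TP par) : Prop :=
  (∀ m k, ∀ v : Fin (par m).n, lo ≤ m → m ≤ hi → k ≤ C.h + 1 →
    f (TV par m k v) = g (TV par m k v)) ∧ (b → f .top = g .top)

/-- restrictions to the cell `c` of the maps in `F` which extend the skeleton of `f0` -/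
def Ext (lo hi : ℕ) (b : Prop) (F : Set (TP par → TP par)) (f0 : TP par → TP par)
    (m : ℕ) (c : Cell (par m)) : Set (CI (par m) c.j → TP par) :=
  {h | ∃ f ∈ F, SkEq lo hi b f0 f ∧ h = resC f m c}

/-- log of the number of restrictions, summed over the cells of level `k+1` of block `m` -/
def LS (lo hi : ℕ) (b : Prop) (F : Set (TP par → TP par)) (f0 : TP par → TP par)
    (m : ℕ) (k : Fin C.h) : ℝ :=
  ∑ j : Fin C.W, ∑ c : Fin ((par m).N j), Real.log ((Ext lo hi b F f0 m ⟨k, j, c⟩).ncard : ℝ)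

/-- the interval available for gadget `g` when `r g` is the image of the label `0` point of sort `G` -/
def IntG (le : ∀ m, Pt (par m) → Pt (par m) → Prop) (Z : Set (TP par)) {K : ℕ}
    (r : Fin K → TP par) (g : Fin K) : Set (TP par) :=
  {z | z ∈ Z ∧ (∀ g' : Fin K, g'.val + 1 = g.val → TLe le (r g') z) ∧
    ∀ g' : Fin K, g'.val = g.val + 1 → TLe le z (r g')}

/-- position of the block, counted from below; `top` has the greatest position -/
def bp (lo hi : ℕ) : TP par → ℕ
  | .top => hi + 1 - lo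
  | .pt m _ => hi - m

/-- median of the heights of the images of the frame level `k` of block `m` -/
def med (lo hi : ℕ) (f : TP par → TP par) (m k : ℕ) : ℕ :=
  Nat.findGreatest (fun c => (par m).n ≤
    2 * (univ.filter fun v => c ≤ idx lo hi (f (TV par m k v))).card) ((hi + 1 - lo) * (C.h + 2))

/-- medians numbered along the tower with offset 8 -/
def gm (lo hi : ℕ) (f : TP par → TP par) (a : ℕ) : ℕ :=
  if a < 8 then 0 else
    if a - 8 < (hi + 1 - lo) * (C.h + 2) then
      med lo hi f (hi - (a - 8) / (C.h + 2)) ((a - 8) % (C.h + 2))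
    else (hi + 1 - lo) * (C.h + 2)

/-- level `k` is a sep-level -/
def SepLev (q : Con) (f : TP par → TP par) (m k : ℕ) : Prop :=
  8 ≤ k ∧ k + 8 ≤ C.h + 1 ∧ (∀ i, 2 ≤ i → i ≤ 7 → ¬ Cold q f m (k - i) ∧ ¬ Cold q f m (k + i))

/-- level `k` is pinned -/
def PinLev (q : Con) (f : TP par → TP par) (m k : ℕ) : Prop :=
  1 ≤ k ∧ k ≤ C.h ∧ Cold q f m (k - 1) ∧ Cold q f m (k + 1)

end Tower

end Pool.Agent.AM
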