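import Pool.Agent.AM.Defs2
import Pool.Agent.AM.PrBasic
import Pool.Agent.AM.CardP

set_option autoImplicit false

open scoped Classical
open Finset

noncomputable section

namespace Pool.Agent.AM

namespace Deg

/-- a binomial tail bound -/
theorem choose_mul_le (N s n : ℕ) (hn : 0 < n) (hs : 0 < s) :
    (N.choose s : ℝ) * ((1 : ℝ) / n) ^ s ≤ (3 * (N : ℝ) / (s * n)) ^ s := by
  have hn' : (0 : ℝ) < n := by exact_mod_cast hn
  have hs' : (0 : ℝ) < s := by exact_mod_cast hs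
  have h1 : (N.choose s : ℝ) ≤ (N : ℝ) ^ s / (s.factorial : ℝ) := Nat.choose_le_pow_div s N
  have h2 : (s : ℝ) ^ s / (s.factorial : ℝ) ≤ Real.exp s := Real.pow_div_factorial_le_exp _ hs'.le s
  have h3 : Real.exp (s : ℝ) ≤ 3 ^ s := by
    have h4 : Real.exp (s : ℝ) = Real.exp 1 ^ s := by
      rw [← Real.exp_nat_mul, mul_one]
    rw [h4]
    exact pow_le_pow_left₀ (Real.exp_pos 1).le (by linarith [Real.exp_one_lt_three]) s
  have hf : (0 : ℝ) < (s.factorial : ℝ) := by exact_mod_cast s.factorial_pos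
  have h5 : (1 : ℝ) / (s.factorial : ℝ) ≤ 3 ^ s / (s : ℝ) ^ s := by
    rw [div_le_div_iff₀ hf (by positivity), one_mul]
    have := h2.trans h3
    rw [div_le_iff₀ hf] at this
    exact this
  calc (N.choose s : ℝ) * ((1 : ℝ) / n) ^ s
      ≤ ((N : ℝ) ^ s / (s.factorial : ℝ)) * ((1 : ℝ) / n) ^ s :=
        mul_le_mul_of_nonneg_right h1 (by positivity)
    _ = (N : ℝ) ^ s * ((1 : ℝ) / (s.factorial : ℝ)) * ((1 : ℝ) / n) ^ s := by ring
    _ ≤ (N : ℝ) ^ s * (3 ^ s / (s : ℝ) ^ s) * ((1 : ℝ) / n) ^ s := by gcongr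
    _ = (3 * (N : ℝ) / (s * n)) ^ s := by
        rw [div_pow, div_pow, mul_pow, mul_pow, one_pow]
        field_simp

end Deg

open Deg in
/-- (D0): degrees are at most `d^2` -/
theorem pr_deg (c : PC) (q : Con) (hc : c.Ok q) : ∀ᶠ t in Filter.atTop,
    Pr (fun ω : Om (c.par t) => ¬ DegOk ω) ≤ 1 / (t : ℝ) ^ (5 * c.E) := by
  have hlam : 1 ≤ c.lam := by rw [hc.lam]; norm_num
  have hW : 1 ≤ c.W - 1 := by rw [hc.W]; norm_num
  have hL : 3 ≤ c.lam ^ (c.W - 1) := by
    calc 3 ≤ c.lam := by rw [hc.lam]; norm_num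
      _ = c.lam ^ 1 := (pow_one _).symm
      _ ≤ c.lam ^ (c.W - 1) := Nat.pow_le_pow_right hlam hW
  have hE1 : 1 ≤ c.E := by
    rw [hc.E]
    have h1 : 1 ≤ c.lam ^ (c.W - 1) := by omega
    have h2 : 1 ≤ c.h + 2 := by omega
    have h3 : 1 * 1 ≤ c.lam ^ (c.W - 1) * (c.h + 2) := Nat.mul_le_mul h1 h2
    omega
  filter_upwards [card_pt c q hc, Filter.eventually_ge_atTop (c.h + 2 + 14 * c.E + 9)] with t h1 ht
  obtain ⟨-, -, hrow⟩ := h1
  have ht9 : 9 ≤ t := by omega
  have ht1 : 1 ≤ t := by omega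
  have htR : (9 : ℝ) ≤ t := by exact_mod_cast ht9
  have hn : (c.par t).n = t ^ (c.E - 1) := rfl
  have hd : (c.par t).d = t ^ (c.lam ^ (c.W - 1)) := rfl
  have hnpos : 0 < (c.par t).n := by rw [hn]; exact Nat.pow_pos (by omega)
  have hd3 : t ^ 3 ≤ (c.par t).d := by
    rw [hd]; exact Nat.pow_le_pow_right ht1 hL
  have htt : t ≤ t ^ 3 := Nat.le_self_pow (by norm_num) t
  have hdt : t ≤ (c.par t).d := htt.trans hd3
  have hdpos : 0 < (c.par t).d := by omega
  have hs14 : 14 * c.E ≤ (c.par t).d ^ 2 + 1 := by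
    have h2 : (c.par t).d ≤ (c.par t).d ^ 2 := Nat.le_self_pow (by norm_num) _
    omega
  have key : ∀ kv : Fin (c.cst.h + 2) × Fin (c.par t).n,
      Pr (fun ω : Om (c.par t) => (c.par t).d ^ 2 + 1 ≤
        (univ.filter fun ri : Row (c.par t) × Fin (c.par t).d =>
          ri.1.tlev = kv.1.val ∧ ω ri.1 ri.2 = kv.2).card) ≤ 1 / (t : ℝ) ^ (7 * c.E) := by
    rintro ⟨k, v⟩
    set Q : Finset (Row (c.par t) × Fin (c.par t).d) :=
      univ.filter fun ri => ri.1.tlev = k.val with hQ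
    have hQc : Q.card ≤ t ^ (c.E + 1) * (c.par t).d := by
      calc Q.card ≤ Fintype.card (Row (c.par t) × Fin (c.par t).d) := Finset.card_le_univ _
        _ = Fintype.card (Row (c.par t)) * (c.par t).d := by
            rw [Fintype.card_prod, Fintype.card_fin]
        _ ≤ _ := Nat.mul_le_mul_right _ hrow
    have hh := Pr_hits (ι := Row (c.par t)) hnpos Q (fun _ => {v}) 1 ((c.par t).d ^ 2 + 1)
      (fun q _ => by simp)
    have e1 : (fun ω : Om (c.par t) => (c.par t).d ^ 2 + 1 ≤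
        (univ.filter fun ri : Row (c.par t) × Fin (c.par t).d =>
          ri.1.tlev = k.val ∧ ω ri.1 ri.2 = v).card) =
        fun ω : Row (c.par t) → Fin (c.par t).d → Fin (c.par t).n => (c.par t).d ^ 2 + 1 ≤
          (Q.filter fun q => ω q.1 q.2 ∈ ({v} : Finset (Fin (c.par t).n))).card := by
      funext ω
      rw [hQ, Finset.filter_filter]
      simp only [Finset.mem_singleton]
    show Pr (fun ω : Om (c.par t) => (c.par t).d ^ 2 + 1 ≤
        (univ.filter fun ri : Row (c.par t) × Fin (c.par t).d =>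
          ri.1.tlev = k.val ∧ ω ri.1 ri.2 = v).card) ≤ _
    rw [e1]
    refine hh.trans ?_
    set s : ℕ := (c.par t).d ^ 2 + 1 with hsdef
    have hspos : 0 < s := by omega
    have hc1 := choose_mul_le Q.card s (c.par t).n hnpos hspos
    rw [Nat.cast_one]
    refine hc1.trans ?_
    -- the base
    have hdR : (0 : ℝ) < (c.par t).d := by exact_mod_cast hdpos
    have hnR : (0 : ℝ) < (c.par t).n := by exact_mod_cast hnpos
    have hsR : (0 : ℝ) < (s : ℝ) := by exact_mod_cast hspos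
    have ht0 : (0 : ℝ) < t := by linarith
    have hbase : 3 * (Q.card : ℝ) / (s * (c.par t).n) ≤ 3 / t := by
      have hQR : (Q.card : ℝ) ≤ (t : ℝ) ^ (c.E + 1) * (c.par t).d := by exact_mod_cast hQc
      have hEe : (t : ℝ) ^ (c.E + 1) = (c.par t).n * (t : ℝ) ^ 2 := by
        have : ((c.par t).n : ℝ) = (t : ℝ) ^ (c.E - 1) := by rw [hn]; push_cast; rfl
        rw [this, ← pow_add]
        congr 1
        omega
      have hd3R : (t : ℝ) ^ 3 ≤ (c.par t).d := by exact_mod_cast hd3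
      have hs2 : ((c.par t).d : ℝ) ^ 2 ≤ s := by
        rw [hsdef]; push_cast; linarith
      rw [div_le_div_iff₀ (by positivity) ht0]
      have h5 : (Q.card : ℝ) * t ≤ s * (c.par t).n := by
        calc (Q.card : ℝ) * t ≤ ((t : ℝ) ^ (c.E + 1) * (c.par t).d) * t := by gcongr
          _ = (c.par t).n * (c.par t).d * (t : ℝ) ^ 3 := by rw [hEe]; ring
          _ ≤ (c.par t).n * (c.par t).d * (c.par t).d := by gcongr
          _ = ((c.par t).d : ℝ) ^ 2 * (c.par t).n := by ring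
          _ ≤ s * (c.par t).n := by gcongr
      nlinarith [h5]
    have h3t : (3 : ℝ) / t ≤ 1 := by rw [div_le_one ht0]; linarith
    calc (3 * (Q.card : ℝ) / (s * (c.par t).n)) ^ s ≤ (3 / (t : ℝ)) ^ s :=
          pow_le_pow_left₀ (by positivity) hbase s
      _ ≤ (3 / (t : ℝ)) ^ (2 * (7 * c.E)) :=
          pow_le_pow_of_le_one (by positivity) h3t (by omega)
      _ = ((3 / (t : ℝ)) ^ 2) ^ (7 * c.E) := by rw [pow_mul]
      _ ≤ (1 / (t : ℝ)) ^ (7 * c.E) := by
          refine pow_le_pow_left₀ (by positivity) ?_ _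
          rw [div_pow, div_le_div_iff₀ (by positivity) ht0]
          nlinarith
      _ = 1 / (t : ℝ) ^ (7 * c.E) := by rw [div_pow, one_pow]
  have hmono : Pr (fun ω : Om (c.par t) => ¬ DegOk ω) ≤
      Pr (fun ω : Om (c.par t) => ∃ kv : Fin (c.cst.h + 2) × Fin (c.par t).n,
        (c.par t).d ^ 2 + 1 ≤ (univ.filter fun ri : Row (c.par t) × Fin (c.par t).d =>
          ri.1.tlev = kv.1.val ∧ ω ri.1 ri.2 = kv.2).card) := by
    refine Pr_mono fun ω hω => ?_
    unfold DegOk at hω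
    push Not at hω
    obtain ⟨k, hk, v, hv⟩ := hω
    exact ⟨(⟨k, by omega⟩, v), hv⟩
  have hex := Pr_exists (Ω := Om (c.par t)) (fun (kv : Fin (c.cst.h + 2) × Fin (c.par t).n) ω =>
        (c.par t).d ^ 2 + 1 ≤ (univ.filter fun ri : Row (c.par t) × Fin (c.par t).d =>
          ri.1.tlev = kv.1.val ∧ ω ri.1 ri.2 = kv.2).card) _ key
  refine (hmono.trans hex).trans ?_
  have ht0 : (0 : ℝ) < t := by linarith
  have hcard : (Fintype.card (Fin (c.cst.h + 2) × Fin (c.par t).n) : ℝ) ≤ (t : ℝ) ^ c.E := by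
    rw [Fintype.card_prod, Fintype.card_fin, Fintype.card_fin, hn]
    have h6 : (c.cst.h + 2) * t ^ (c.E - 1) ≤ t ^ c.E := by
      calc (c.cst.h + 2) * t ^ (c.E - 1) ≤ t * t ^ (c.E - 1) :=
            Nat.mul_le_mul_right _ (show c.h + 2 ≤ t by omega)
        _ = t ^ c.E := by
            rw [← pow_succ']
            congr 1
            omega
    exact_mod_cast h6
  calc (Fintype.card (Fin (c.cst.h + 2) × Fin (c.par t).n) : ℝ) * (1 / (t : ℝ) ^ (7 * c.E))
      ≤ (t : ℝ) ^ c.E * (1 / (t : ℝ) ^ (7 * c.E)) :=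
        mul_le_mul_of_nonneg_right hcard (by positivity)
    _ = 1 / (t : ℝ) ^ (6 * c.E) := by
        rw [show 7 * c.E = c.E + 6 * c.E by ring, pow_add]
        field_simp
    _ ≤ 1 / (t : ℝ) ^ (5 * c.E) := by
        apply one_div_le_one_div_of_le (by positivity)
        exact pow_le_pow_right₀ (by linarith) (by omega)

end Pool.Agent.AM
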