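import Pool.Agent.AM.Num95
import Pool.Agent.DM.Depth

set_option autoImplicit false

/-!
# AM/Depth95: sums over the depth of the tower
-/

open scoped Classical
open Finset Filter

noncomputable section

namespace Pool.Agent.AM

theorem PC.rt_eq (c : PC) (m : ℕ) : c.rt m = DM.tt (c.E + 2) m := rfl

theorem PC.G_eq (c : PC) (t : ℕ) :
    c.G t = DM.GG (c.Kst * (2 * c.lam) ^ (c.W - 1) : ℝ) c.E t := rfl

theorem PC.coef_nonneg (c : PC) : (0 : ℝ) ≤ (c.Kst * (2 * c.lam) ^ (c.W - 1) : ℝ) := by positivity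

theorem PC.tf_mono (c : PC) (m0 : ℕ) : Monotone (c.tf m0) := by
  intro a b hab
  exact DM.tt_mono (p := c.E + 2) (by omega) (Nat.add_le_add_right hab m0)

theorem PC.tf_succ (c : PC) (m0 m : ℕ) : c.tf m0 (m + 1) ≤ c.tf m0 m + 1 := by
  have h := DM.tt_succ (p := c.E + 2) (by omega) (m + m0)
  have h2 : m + 1 + m0 = m + m0 + 1 := by omega
  show DM.tt (c.E + 2) (m + 1 + m0) ≤ DM.tt (c.E + 2) (m + m0) + 1
  rw [h2]
  exact h

/-- Everything that holds for large `t` holds for all blocks if `m0` is large. -/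
theorem PC.tf_eventually (c : PC) {p : ℕ → Prop} (h : ∀ᶠ t : ℕ in atTop, p t) :
    ∀ᶠ m0 : ℕ in atTop, ∀ m, p (c.tf m0 m) := by
  obtain ⟨t0, ht0⟩ := eventually_atTop.1 h
  filter_upwards [eventually_ge_atTop (t0 ^ (c.E + 2))] with m0 hm0 m
  apply ht0
  show t0 ≤ DM.tt (c.E + 2) (m + m0)
  rw [DM.le_tt_iff (by omega)]
  omega

theorem PC.G_mono (c : PC) {s t : ℕ} (hs : 1 ≤ s) (h : s ≤ t) : c.G s ≤ c.G t :=
  DM.GG_mono c.coef_nonneg c.E hs h

/-- (N1) -/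
theorem PC.N1 (c : PC) : ∀ᶠ m0 : ℕ in atTop, ∀ m, c.G (c.tf m0 (m + 1)) ≤ 2 * c.G (c.tf m0 m) := by
  filter_upwards [c.tf_eventually (eventually_ge_atTop (4 * c.E + 3))] with m0 h m
  have h1 := h m
  have h2 : m + 1 + m0 = m + m0 + 1 := by omega
  show DM.GG _ c.E (DM.tt (c.E + 2) (m + 1 + m0)) ≤ 2 * DM.GG _ c.E (DM.tt (c.E + 2) (m + m0))
  have h3 : 4 * c.E + 3 ≤ DM.tt (c.E + 2) (m + m0) := h1
  rw [h2]
  exact DM.GG_tt_succ c.coef_nonneg (by omega) (by omega) (by omega)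

/-- (N2) -/
theorem PC.N2 (c : PC) : ∀ᶠ m0 : ℕ in atTop, ∀ lo hi : ℕ, lo ≤ hi →
    ((hi : ℝ) + 1 - lo) * c.G (c.tf m0 hi) / 8 ≤ ∑ m ∈ Icc lo hi, c.G (c.tf m0 m) := by
  filter_upwards [c.tf_eventually (eventually_ge_atTop (4 * c.E + 6)), eventually_ge_atTop 1]
    with m0 h hm0 lo hi hle
  have h3 : 4 * c.E + 6 ≤ DM.tt (c.E + 2) (lo + m0) := h lo
  have h1 := DM.GG_sum_ge (c := (c.Kst * (2 * c.lam) ^ (c.W - 1) : ℝ)) c.coef_nonneg (E := c.E)
    (p := c.E + 2) (μ := lo + m0 - 1) (M := hi + m0) (by omega) (by omega)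
    (by rw [show lo + m0 - 1 + 1 = lo + m0 by omega]; omega)
    (by rw [show lo + m0 - 1 + 1 = lo + m0 by omega]; omega) (by omega)
  have h2 : ((hi + m0 : ℕ) : ℝ) - ((lo + m0 - 1 : ℕ) : ℝ) = (hi : ℝ) + 1 - lo := by
    rw [Nat.cast_sub (by omega)]
    push_cast
    ring
  rw [h2] at h1
  have h4 : ∑ m ∈ Ioc (lo + m0 - 1) (hi + m0),
      DM.GG (c.Kst * (2 * c.lam) ^ (c.W - 1) : ℝ) c.E (DM.tt (c.E + 2) m)
      = ∑ m ∈ Icc lo hi, c.G (c.tf m0 m) := by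
    rw [show Ioc (lo + m0 - 1) (hi + m0) = (Icc lo hi).image (· + m0) by
      ext x
      rw [mem_Ioc, mem_image]
      constructor
      · rintro ⟨hx1, hx2⟩
        exact ⟨x - m0, by rw [mem_Icc]; omega, by omega⟩
      · rintro ⟨y, hy, rfl⟩
        rw [mem_Icc] at hy
        omega]
    rw [Finset.sum_image (fun a _ b _ hab => Nat.add_right_cancel hab)]
    rfl
  rw [h4] at h1
  exact h1

/-- (N3) -/
theorem PC.N3 {c : PC} {q : Con} (h : c.Ok q) {ε : ℝ} (hε : 0 < ε) : ∀ᶠ m0 : ℕ in atTop, ∀ n,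
    ∑ m ∈ range n, Real.exp (-c.G (c.tf m0 m)) ≤ ε := by
  have hE := h.E_ge
  have hc1 : (1 : ℝ) ≤ (c.Kst * (2 * c.lam) ^ (c.W - 1) : ℝ) := by
    have h1 : 1 ≤ c.Kst * (2 * c.lam) ^ (c.W - 1) :=
      Nat.mul_le_mul h.Kst_pos (Nat.one_le_pow _ _ (by have := h.lam_pos; omega))
    exact_mod_cast h1
  obtain ⟨k, hk⟩ := exists_nat_ge (2 / ε)
  filter_upwards [c.tf_eventually (eventually_ge_atTop (4 * (c.E + 2))), eventually_ge_atTop (k + 1)]
    with m0 h1 hm0 n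
  have h2 : 4 * (c.E + 2) ≤ DM.tt (c.E + 2) m0 := by
    have := h1 0
    unfold PC.tf at this
    rw [Nat.zero_add] at this
    exact this
  have h3 : (4 * ((c.E + 2 : ℕ) : ℝ)) ≤ (c.Kst * (2 * c.lam) ^ (c.W - 1) : ℝ)
      * (DM.tt (c.E + 2) m0 : ℝ) := by
    have h4 : (4 * ((c.E + 2 : ℕ) : ℝ)) ≤ (DM.tt (c.E + 2) m0 : ℝ) := by exact_mod_cast h2
    have h5 : (0 : ℝ) ≤ (DM.tt (c.E + 2) m0 : ℝ) := by positivity
    nlinarith
  have h4 := DM.sum_exp_GG_le (c := (c.Kst * (2 * c.lam) ^ (c.W - 1) : ℝ)) (E := c.E)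
    (p := c.E + 2) (m₀ := m0) (by omega) (by omega) (by omega) c.coef_nonneg h3 (n + m0)
  have h5 : ∑ m ∈ Ico m0 (n + m0),
      Real.exp (-DM.GG (c.Kst * (2 * c.lam) ^ (c.W - 1) : ℝ) c.E (DM.tt (c.E + 2) m))
      = ∑ m ∈ range n, Real.exp (-c.G (c.tf m0 m)) := by
    rw [show Ico m0 (n + m0) = (range n).image (· + m0) by
      ext x
      rw [mem_Ico, mem_image]
      constructor
      · rintro ⟨hx1, hx2⟩
        exact ⟨x - m0, by rw [mem_range]; omega, by omega⟩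
      · rintro ⟨y, hy, rfl⟩
        rw [mem_range] at hy
        omega]
    rw [Finset.sum_image (fun a _ b _ hab => Nat.add_right_cancel hab)]
    rfl
  rw [h5] at h4
  refine h4.trans ?_
  have hm0' : (0 : ℝ) < m0 := by
    have : 0 < m0 := by omega
    exact_mod_cast this
  rw [div_le_iff₀ hm0']
  have h6 : (k : ℝ) ≤ m0 := by
    have : k ≤ m0 := by omega
    exact_mod_cast this
  have h7 : 2 / ε ≤ (m0 : ℝ) := hk.trans h6
  rw [div_le_iff₀ hε] at h7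
  linarith

/-- failure probabilities: `∑_m t(m) ^ (-2(E+2)) ≤ ε` for large `m0` -/
theorem PC.N3' (c : PC) {ε : ℝ} (hε : 0 < ε) : ∀ᶠ m0 : ℕ in atTop, ∀ n,
    ∑ m ∈ range n, ((c.tf m0 m : ℝ) ^ (2 * (c.E + 2)))⁻¹ ≤ ε := by
  obtain ⟨k, hk⟩ := exists_nat_ge (4 ^ (c.E + 2) * 2 / ε)
  filter_upwards [eventually_ge_atTop (k + 1)] with m0 hm0 n
  have h1 : ∀ m ∈ range n, ((c.tf m0 m : ℝ) ^ (2 * (c.E + 2)))⁻¹
      ≤ 4 ^ (c.E + 2) * (((m + m0 : ℕ) : ℝ) ^ 2)⁻¹ := by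
    intro m _
    apply DM.tt_inv_pow_le (p := c.E + 2) (m := m + m0) (by omega)
    exact DM.tt_pos (by omega) (by omega)
  refine (Finset.sum_le_sum h1).trans ?_
  rw [← Finset.mul_sum]
  have h2 : ∑ m ∈ range n, (((m + m0 : ℕ) : ℝ) ^ 2)⁻¹ ≤ 2 / m0 := by
    have h3 : ∑ m ∈ Ioo (m0 - 1) (n + m0), ((m : ℝ) ^ 2)⁻¹ = ∑ m ∈ range n, (((m + m0 : ℕ) : ℝ) ^ 2)⁻¹ := by
      rw [show Ioo (m0 - 1) (n + m0) = (range n).image (· + m0) by
        ext x
        rw [mem_Ioo, mem_image]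
        constructor
        · rintro ⟨hx1, hx2⟩
          exact ⟨x - m0, by rw [mem_range]; omega, by omega⟩
        · rintro ⟨y, hy, rfl⟩
          rw [mem_range] at hy
          omega]
      rw [Finset.sum_image (fun a _ b _ hab => Nat.add_right_cancel hab)]
    rw [← h3]
    refine (sum_Ioo_inv_sq_le (m0 - 1) (n + m0)).trans ?_
    rw [Nat.cast_sub (by omega)]
    push_cast
    apply le_of_eq
    congr 1
    ring
  have hm0' : (0 : ℝ) < m0 := by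
    have : 0 < m0 := by omega
    exact_mod_cast this
  have h6 : (k : ℝ) ≤ m0 := by
    have : k ≤ m0 := by omega
    exact_mod_cast this
  have h7 : 4 ^ (c.E + 2) * 2 / ε ≤ (m0 : ℝ) := hk.trans h6
  rw [div_le_iff₀ hε] at h7
  calc (4 : ℝ) ^ (c.E + 2) * ∑ m ∈ range n, (((m + m0 : ℕ) : ℝ) ^ 2)⁻¹
      ≤ 4 ^ (c.E + 2) * (2 / m0) := mul_le_mul_of_nonneg_left h2 (by positivity)
    _ = 4 ^ (c.E + 2) * 2 / m0 := by ring
    _ ≤ ε := by
      rw [div_le_iff₀ hm0']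
      linarith

/-- (N4) few shallow blocks -/
theorem PC.N4 (c : PC) {ε : ℝ} (hε : 0 < ε) : ∀ᶠ m0 : ℕ in atTop, ∀ lo hi : ℕ, lo ≤ hi →
    (((Icc lo hi).filter fun m => c.tf m0 m ^ 2 < c.tf m0 hi).card : ℝ)
      ≤ ε * ((hi : ℝ) + 1 - lo) := by
  obtain ⟨t0, ht0⟩ := DM.shallow_le (p := c.E + 2) (by omega) hε
  filter_upwards [c.tf_eventually (eventually_ge_atTop t0), eventually_ge_atTop 1]
    with m0 h hm0 lo hi hle
  have h1 := ht0 (lo + m0 - 1) (hi + m0) (by omega) (h hi)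
  have h2 : ((hi + m0 : ℕ) : ℝ) - ((lo + m0 - 1 : ℕ) : ℝ) = (hi : ℝ) + 1 - lo := by
    rw [Nat.cast_sub (by omega)]
    push_cast
    ring
  rw [h2] at h1
  refine le_trans ?_ h1
  have h3 : ((Icc lo hi).filter fun m => c.tf m0 m ^ 2 < c.tf m0 hi).card
      = (((Icc lo hi).filter fun m => c.tf m0 m ^ 2 < c.tf m0 hi).image (· + m0)).card := by
    rw [Finset.card_image_of_injective _ (fun a b hab => Nat.add_right_cancel hab)]
  rw [h3]
  have h4 : ((Icc lo hi).filter fun m => c.tf m0 m ^ 2 < c.tf m0 hi).image (· + m0)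
      ⊆ (Ioc (lo + m0 - 1) (hi + m0)).filter
        fun m => DM.tt (c.E + 2) m ^ 2 < DM.tt (c.E + 2) (hi + m0) := by
    intro x hx
    rw [mem_image] at hx
    obtain ⟨y, hy, rfl⟩ := hx
    rw [mem_filter, mem_Icc] at hy
    rw [mem_filter, mem_Ioc]
    exact ⟨by omega, hy.2⟩
  exact_mod_cast Finset.card_le_card h4

/-- (N5) the size of the tower -/
theorem PC.N5 {c : PC} {q : Con} (h : c.Ok q) : ∀ᶠ m0 : ℕ in atTop, ∀ hi,
    ∑ m ∈ range (hi + 1), Fintype.card (Pt (c.bl m0 m)) + 1 ≤ c.tf m0 hi ^ (3 * c.E) := by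
  have hE := h.E_ge
  filter_upwards [c.tf_eventually (eventually_ge_atTop (4 * (c.E + 2))),
    c.tf_eventually (PC.card_Pt_le h)] with m0 h1 h2 hi
  have h3 : 4 * (c.E + 2) ≤ DM.tt (c.E + 2) (hi + m0) := h1 hi
  have h4 := DM.size_le (E := c.E) (p := c.E + 2) (M := hi + m0) rfl (by omega) h3 (by omega)
    ((range (hi + 1)).image (· + m0)) (by
      intro m hm
      rw [mem_image] at hm
      obtain ⟨y, hy, rfl⟩ := hm
      rw [mem_range] at hy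
      omega)
  rw [Finset.sum_image (fun a _ b _ hab => Nat.add_right_cancel hab)] at h4
  refine le_trans ?_ h4
  apply Nat.add_le_add_right
  apply Finset.sum_le_sum
  intro m _
  have h5 := h2 m
  have h6 := h1 m
  calc Fintype.card (Pt (c.bl m0 m)) ≤ c.tf m0 m ^ (c.E + 1) := by
        have : Fintype.card (Pt (c.par (c.tf m0 m))) + 1 ≤ c.tf m0 m ^ (c.E + 1) := h5
        exact (Nat.le_succ _).trans this
    _ ≤ c.tf m0 m ^ (c.E + 2) := Nat.pow_le_pow_right (by omega) (by omega)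

end Pool.Agent.AM
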