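import Mathlib

/-!
# A finite ordered set with a top is dismantlable, and the reduction of S09118
-/

namespace Pool.Agent.AM.Dis

/-- The dismantling condition of the frozen statement. -/
def Dism (α : Type) [PartialOrder α] : Prop :=
  ∃ n : ℕ, ∃ e : Fin n ≃ α, ∀ i : Fin n, i.val + 1 < n →
      ((∃! y : α, (∃ j : Fin n, i ≤ j ∧ e j = y) ∧ e i < y ∧
          ∀ z : α, (∃ j : Fin n, i ≤ j ∧ e j = z) → ¬ (e i < z ∧ z < y)) ∨
       (∃! y : α, (∃ j : Fin n, i ≤ j ∧ e j = y) ∧ y < e i ∧
          ∀ z : α, (∃ j : Fin n, i ≤ j ∧ e j = z) → ¬ (y < z ∧ z < e i)))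

/-- A finite ordered set with a top element is dismantlable: remove, each time, a maximal element
of what remains below the top. -/
theorem dism_of_top (α : Type) [Fintype α] [PartialOrder α] (T : α) (hT : ∀ x, x ≤ T) :
    Dism α := by
  classical
  -- a linear extension
  obtain ⟨m, hm⟩ : ∃ m, Fintype.card α = m + 1 :=
    Nat.exists_eq_succ_of_ne_zero (Fintype.card_pos_iff.2 ⟨T⟩).ne'
  letI : Fintype (LinearExtension α) := inferInstanceAs (Fintype α)
  have hc : Fintype.card (LinearExtension α) = m + 1 := hm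
  let o : Fin (m + 1) ≃o LinearExtension α := Fintype.orderIsoFinOfCardEq _ hc
  let r : α → Fin (m + 1) := fun x => o.symm (toLinearExtension x)
  have hrm : ∀ x y : α, x ≤ y → r x ≤ r y := fun x y h =>
    o.symm.monotone (toLinearExtension.monotone h)
  have hrinj : Function.Injective r := by
    intro x y h
    have h1 : (toLinearExtension x : LinearExtension α) = toLinearExtension y :=
      o.symm.injective h
    exact h1
  have hrlt : ∀ x y : α, x < y → r x < r y := fun x y h =>
    lt_of_le_of_ne (hrm x y h.le) fun h' => h.ne (hrinj h')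
  have hrbij : Function.Bijective r := by
    refine (Fintype.bijective_iff_injective_and_card r).2 ⟨hrinj, ?_⟩
    rw [hm, Fintype.card_fin]
  let E : α ≃ Fin (m + 1) := Equiv.ofBijective r hrbij
  have hE : ∀ x, E x = r x := fun x => rfl
  have hET : E T = Fin.last m := by
    obtain ⟨x, hx⟩ := E.surjective (Fin.last m)
    have h1 : E x ≤ E T := hrm x T (hT x)
    rw [hx] at h1
    exact le_antisymm (Fin.le_last _) h1
  -- the reversed order on the first m indices
  let σ : Fin (m + 1) → Fin (m + 1) := fun i =>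
    if h : i.val < m then ⟨m - 1 - i.val, by omega⟩ else i
  have hσ1 : ∀ i : Fin (m + 1), i.val < m → (σ i).val = m - 1 - i.val := by
    intro i hi
    simp [σ, hi]
  have hσ2 : ∀ i : Fin (m + 1), ¬ i.val < m → σ i = i := by
    intro i hi
    simp [σ, hi]
  have hσσ : ∀ i, σ (σ i) = i := by
    intro i
    by_cases hi : i.val < m
    · have h1 := hσ1 i hi
      have h2 : (σ i).val < m := by omega
      have h3 := hσ1 _ h2
      apply Fin.ext
      omega
    · rw [hσ2 i hi, hσ2 i hi]
  let S : Fin (m + 1) ≃ Fin (m + 1) := ⟨σ, σ, hσσ, hσσ⟩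
  refine ⟨m + 1, S.trans E.symm, fun i hi => Or.inl ?_⟩
  have him : i.val < m := by omega
  have hval : ∀ j : Fin (m + 1), E ((S.trans E.symm) j) = σ j := by
    intro j
    simp [S]
  have hlast : (S.trans E.symm) (Fin.last m) = T := by
    apply E.injective
    rw [hval, hET, hσ2]
    simp
  -- elements of the remainder above e i: only T
  have key : ∀ z : α, (∃ j : Fin (m + 1), i ≤ j ∧ (S.trans E.symm) j = z) →
      (S.trans E.symm) i < z → z = T := by
    rintro z ⟨j, hij, rfl⟩ hlt
    by_contra hne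
    have hjm : j.val < m := by
      by_contra hj
      apply hne
      have : j = Fin.last m := by
        apply Fin.ext
        have := j.isLt
        simp only [Fin.val_last]
        omega
      rw [this, hlast]
    have h1 := hrlt _ _ hlt
    rw [← hE, ← hE, hval, hval] at h1
    have h2 : (σ i).val < (σ j).val := h1
    rw [hσ1 i him, hσ1 j hjm] at h2
    have h3 : i.val ≤ j.val := hij
    omega
  have hiT : (S.trans E.symm) i < T := by
    refine lt_of_le_of_ne (hT _) ?_
    intro h
    have h1 : i = Fin.last m := (S.trans E.symm).injective (h.trans hlast.symm)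
    rw [h1] at him
    simp at him
  refine ⟨T, ⟨⟨Fin.last m, Fin.le_last i, hlast⟩, hiT, ?_⟩, ?_⟩
  · rintro z hz ⟨h1, h2⟩
    exact h2.ne (key z hz h1)
  · rintro y ⟨h1, h2, -⟩
    exact key y h1 h2

/-- What has to be proved: posets with a top, arbitrarily large, with `ε |End| ≤ |Aut|`. -/
theorem frozen_of_large
    (h : ∃ ε : ℝ, 0 < ε ∧ ∀ N : ℕ, ∃ (α : Type) (_ : Fintype α) (_ : PartialOrder α) (T : α),
      (∀ x, x ≤ T) ∧ N ≤ Fintype.card α ∧
      ε * (Nat.card (α →o α) : ℝ) ≤ (Nat.card (α ≃o α) : ℝ)) :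
    ¬ (∀ ε : ℝ, 0 < ε → ∃ N : ℕ, ∀ (α : Type) [Fintype α] [PartialOrder α],
    N ≤ Fintype.card α →
    (∃ n : ℕ, ∃ e : Fin n ≃ α, ∀ i : Fin n, i.val + 1 < n →
      ((∃! y : α, (∃ j : Fin n, i ≤ j ∧ e j = y) ∧ e i < y ∧
          ∀ z : α, (∃ j : Fin n, i ≤ j ∧ e j = z) → ¬ (e i < z ∧ z < y)) ∨
       (∃! y : α, (∃ j : Fin n, i ≤ j ∧ e j = y) ∧ y < e i ∧
          ∀ z : α, (∃ j : Fin n, i ≤ j ∧ e j = z) → ¬ (y < z ∧ z < e i)))) →
    (Nat.card (α ≃o α) : ℝ) / (Nat.card (α →o α) : ℝ) < ε) := by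
  intro H
  obtain ⟨ε, hε, h⟩ := h
  obtain ⟨N, hN⟩ := H ε hε
  obtain ⟨α, i1, i2, T, hT, hc, hle⟩ := h N
  have h1 := hN α hc (dism_of_top α T hT)
  have hpos : (0 : ℝ) < Nat.card (α →o α) := by
    haveI : Finite (α →o α) := Finite.of_injective (fun f : α →o α => (f : α → α))
      DFunLike.coe_injective
    haveI : Nonempty (α →o α) := ⟨OrderHom.id⟩
    exact_mod_cast Nat.card_pos
  rw [div_lt_iff₀ hpos] at h1
  exact absurd hle (not_le.2 h1)

end Pool.Agent.AM.Dis
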