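import Pool.Agent.AM.Defs2
import Pool.Agent.AM.Depth95

set_option autoImplicit false

/-!
# AM/Num7: the numeric sums of section 7

`s` is the parameter of the block considered, `t ≥ s` the parameter of the deepest block, `lX` the
logarithm of the number of points of the tower.
-/

open scoped Classical
open Finset Filter

noncomputable section

namespace Pool.Agent.AM.Num7

variable {c : PC} {q : Con}

/-- `K_i 2^i λ^i = Kst (2 λ)^(W-1)`. -/
theorem coef_eq (c : PC) (i : Fin c.W) :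
    (2 : ℝ) ^ i.val * (c.cst.K i : ℝ) * (c.lam : ℝ) ^ i.val
      = c.Kst * (2 * c.lam : ℝ) ^ (c.W - 1) := by
  have h1 : (c.cst.K i : ℝ) = c.Kst * (2 * c.lam : ℝ) ^ (c.W - 1 - i.val) := by
    show ((c.Kst * (2 * c.lam) ^ (c.W - 1 - i.val) : ℕ) : ℝ) = _
    push_cast
    ring
  have h2 : (2 * c.lam : ℝ) ^ (c.W - 1) = (2 * c.lam : ℝ) ^ (c.W - 1 - i.val) * (2 * c.lam) ^ i.val := by
    rw [← pow_add]
    congr 1
    have := i.isLt
    omega
  rw [h1, h2, mul_pow (2 : ℝ) (c.lam : ℝ) i.val]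
  ring

theorem coef_pos (hc : c.Ok q) : (0 : ℝ) < c.Kst * (2 * c.lam : ℝ) ^ (c.W - 1) := by
  have h1 : 0 < c.Kst * (2 * c.lam) ^ (c.W - 1) :=
    Nat.mul_pos hc.Kst_pos (Nat.one_le_pow _ _ (by have := hc.lam_pos; omega))
  exact_mod_cast h1

theorem one_le_coef (hc : c.Ok q) : (1 : ℝ) ≤ c.Kst * (2 * c.lam : ℝ) ^ (c.W - 1) := by
  have h1 : 1 ≤ c.Kst * (2 * c.lam) ^ (c.W - 1) :=
    Nat.mul_le_mul hc.Kst_pos (Nat.one_le_pow _ _ (by have := hc.lam_pos; omega))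
  exact_mod_cast h1

theorem lam_real (hc : c.Ok q) : (c.lam : ℝ) = 1000 := by
  rw [hc.lam]
  norm_num

/-- the geometric series in `1/λ` -/
theorem geom_lam (hc : c.Ok q) : ∑ i : Fin c.W, (1 / (c.lam : ℝ) ^ i.val) ≤ 1000 / 999 := by
  have hl := lam_real hc
  have h1 : ∑ i : Fin c.W, (1 / (c.lam : ℝ) ^ i.val) = ∑ i ∈ range c.W, (1 / 1000 : ℝ) ^ i := by
    rw [Finset.sum_range]
    apply Finset.sum_congr rfl
    intro i _
    rw [hl, one_div_pow]
  rw [h1]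
  have h2 : ∑ i ∈ range c.W, (1 / 1000 : ℝ) ^ i = (1 - (1 / 1000 : ℝ) ^ c.W) / (1 - 1 / 1000) := by
    rw [geom_sum_eq (by norm_num)]
    rw [← neg_div_neg_eq]
    ring
  rw [h2]
  have h3 : (0 : ℝ) ≤ (1 / 1000 : ℝ) ^ c.W := by positivity
  rw [div_le_div_iff₀ (by norm_num) (by norm_num)]
  nlinarith

/-- the geometric series in `1/2`, reversed -/
theorem geom_two (W : ℕ) : ∑ i : Fin W, (1 / (2 : ℝ) ^ (W - 1 - i.val)) ≤ 2 := by
  have h1 : ∑ i : Fin W, (1 / (2 : ℝ) ^ (W - 1 - i.val)) = ∑ i ∈ range W, (1 / 2 : ℝ) ^ i := by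
    rw [← Finset.sum_range_reflect, Finset.sum_range]
    apply Finset.sum_congr rfl
    intro i _
    rw [one_div_pow]
  rw [h1, geom_sum_eq (by norm_num)]
  rw [← neg_div_neg_eq, div_le_iff₀ (by norm_num)]
  have h3 : (0 : ℝ) ≤ (1 / 2 : ℝ) ^ W := by positivity
  linarith

theorem geom_two_le (W : ℕ) (j : Fin W) :
    ∑ i : Fin W, (if i ≤ j then 1 / (2 : ℝ) ^ (j.val - i.val) else 0) ≤ 2 := by
  have h1 : ∑ i : Fin W, (if i ≤ j then 1 / (2 : ℝ) ^ (j.val - i.val) else 0)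
      ≤ ∑ i ∈ range (j.val + 1), (1 / (2 : ℝ) ^ (j.val - i)) := by
    rw [← Finset.sum_filter]
    apply le_of_eq
    apply Finset.sum_bij (fun (i : Fin W) _ => i.val)
    · intro i hi
      rw [mem_filter] at hi
      rw [mem_range]
      exact Nat.lt_succ_of_le hi.2
    · intro a _ b _ hab
      exact Fin.ext hab
    · intro b hb
      rw [mem_range] at hb
      have hj := j.isLt
      exact ⟨⟨b, by omega⟩, by rw [mem_filter]; exact ⟨mem_univ _, by
        show b ≤ j.val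
        omega⟩, rfl⟩
    · intro i _
      rfl
  refine h1.trans ?_
  have h2 := geom_two (j.val + 1)
  rw [← Finset.sum_range (fun i => 1 / (2 : ℝ) ^ (j.val + 1 - 1 - i))] at h2
  rw [Nat.add_sub_cancel] at h2
  exact h2

/-- `N_i T_i ≤ 2^i t^E`. -/
theorem NT_le (hc : c.Ok q) {s t : ℕ} (hst : s ≤ t) (i : Fin c.W) :
    ((c.par s).N i : ℝ) * ((c.par s).T i : ℝ) ≤ 2 ^ i.val * (t : ℝ) ^ c.E := by
  have h1 : ((c.par s).N i : ℝ) * ((c.par s).T i : ℝ) = 2 ^ i.val * (s : ℝ) ^ c.E := by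
    exact_mod_cast PC.NT hc s i
  rw [h1]
  apply mul_le_mul_of_nonneg_left _ (by positivity)
  exact pow_le_pow_left₀ (by positivity) (by exact_mod_cast hst) _

theorem N_le (hc : c.Ok q) {s t : ℕ} (hs : 1 ≤ s) (hst : s ≤ t) (i : Fin c.W) :
    ((c.par s).N i : ℝ) ≤ 2 ^ i.val * (t : ℝ) ^ (c.E - 1) := by
  have h1 : (c.par s).N i ≤ 2 ^ i.val * t ^ (c.E - 1) := by
    show 2 ^ i.val * s ^ (c.E - c.lam ^ i.val) ≤ _
    apply Nat.mul_le_mul_left
    have h2 : 1 ≤ c.lam ^ i.val := Nat.one_le_pow _ _ hc.lam_pos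
    calc s ^ (c.E - c.lam ^ i.val) ≤ s ^ (c.E - 1) := Nat.pow_le_pow_right hs (by omega)
      _ ≤ t ^ (c.E - 1) := Nat.pow_le_pow_left hst _
  exact_mod_cast h1

theorem NT_mono (hc : c.Ok q) {s t : ℕ} (hst : s ≤ t) (i : Fin c.W) :
    (c.par s).N i * (c.par s).T i ≤ (c.par t).N i * (c.par t).T i := by
  rw [PC.NT hc, PC.NT hc]
  exact Nat.mul_le_mul_left _ (Nat.pow_le_pow_left hst _)

theorem pow_pred (hc : c.Ok q) (t : ℕ) : (t : ℝ) ^ (c.E - 1) * t = (t : ℝ) ^ c.E := by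
  rw [← pow_succ]
  congr 1
  have := hc.E_ge
  omega

theorem G_def (c : PC) (t : ℕ) :
    c.G t = c.Kst * (2 * c.lam : ℝ) ^ (c.W - 1) * ((t : ℝ) ^ c.E * Real.log t) := by
  unfold PC.G
  ring

/-- `K_i N_i T_i ≤ coef λ^(-i) t^E`. -/
theorem KNT_le (hc : c.Ok q) {s t : ℕ} (hst : s ≤ t) (i : Fin c.W) :
    (c.cst.K i : ℝ) * (((c.par s).N i : ℝ) * ((c.par s).T i : ℝ))
      ≤ c.Kst * (2 * c.lam : ℝ) ^ (c.W - 1) * (t : ℝ) ^ c.E * (1 / (c.lam : ℝ) ^ i.val) := by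
  have h1 := NT_le hc hst i
  have h2 := coef_eq c i
  have hl : (0 : ℝ) < (c.lam : ℝ) ^ i.val := by
    rw [lam_real hc]
    positivity
  calc (c.cst.K i : ℝ) * (((c.par s).N i : ℝ) * ((c.par s).T i : ℝ))
      ≤ (c.cst.K i : ℝ) * (2 ^ i.val * (t : ℝ) ^ c.E) := mul_le_mul_of_nonneg_left h1 (by positivity)
    _ = ((2 : ℝ) ^ i.val * (c.cst.K i : ℝ) * (c.lam : ℝ) ^ i.val) * (t : ℝ) ^ c.E
        * (1 / (c.lam : ℝ) ^ i.val) := by
      field_simp
    _ = _ := by rw [h2]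

theorem KN_le (hc : c.Ok q) {s t : ℕ} (hs : 1 ≤ s) (hst : s ≤ t) (i : Fin c.W) :
    (c.cst.K i : ℝ) * ((c.par s).N i : ℝ)
      ≤ c.Kst * (2 * c.lam : ℝ) ^ (c.W - 1) * (t : ℝ) ^ (c.E - 1) * (1 / (c.lam : ℝ) ^ i.val) := by
  have h1 := N_le hc hs hst i
  have h2 := coef_eq c i
  have hl : (0 : ℝ) < (c.lam : ℝ) ^ i.val := by
    rw [lam_real hc]
    positivity
  calc (c.cst.K i : ℝ) * ((c.par s).N i : ℝ)
      ≤ (c.cst.K i : ℝ) * (2 ^ i.val * (t : ℝ) ^ (c.E - 1)) :=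
        mul_le_mul_of_nonneg_left h1 (by positivity)
    _ = ((2 : ℝ) ^ i.val * (c.cst.K i : ℝ) * (c.lam : ℝ) ^ i.val) * (t : ℝ) ^ (c.E - 1)
        * (1 / (c.lam : ℝ) ^ i.val) := by
      field_simp
    _ = _ := by rw [h2]

/-- the number of points of the tower -/
theorem log_cardT (hc : c.Ok q) : ∀ᶠ m0 : ℕ in atTop, ∀ lo hi,
    Real.log (cardT (c.bl m0) lo hi) ≤ 3 * c.E * Real.log (c.tf m0 hi) := by
  filter_upwards [PC.N5 hc] with m0 h lo hi
  have h1 : cardT (c.bl m0) lo hi ≤ c.tf m0 hi ^ (3 * c.E) := by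
    refine le_trans ?_ (h hi)
    unfold cardT
    rw [Nat.add_comm]
    apply Nat.add_le_add_right
    apply Finset.sum_le_sum_of_subset_of_nonneg
    · intro m hm
      rw [mem_Icc] at hm
      rw [mem_range]
      omega
    · intro m _ _
      exact Nat.zero_le _
  have h2 : (0 : ℝ) < cardT (c.bl m0) lo hi := by
    have : 0 < cardT (c.bl m0) lo hi := by unfold cardT; omega
    exact_mod_cast this
  have h3 : Real.log (cardT (c.bl m0) lo hi) ≤ Real.log ((c.tf m0 hi : ℝ) ^ (3 * c.E)) :=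
    Real.log_le_log h2 (by exact_mod_cast h1)
  rw [Real.log_pow] at h3
  push_cast at h3
  exact h3

theorem log_cardT_nonneg (par : ℕ → Par c.cst) (lo hi : ℕ) : 0 ≤ Real.log (cardT par lo hi) :=
  Real.log_natCast_nonneg _

/-- (s1) the skeleton -/
theorem skeleton (hc : c.Ok q) : ∀ᶠ m0 : ℕ in atTop, ∀ lo hi : ℕ, lo ≤ hi →
    (cardF (c.bl m0) lo hi : ℝ) * Real.log (cardT (c.bl m0) lo hi)
      ≤ 1 / 100 * (((hi : ℝ) + 1 - lo) * c.G (c.tf m0 hi)) := by
  filter_upwards [log_cardT hc,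
    c.tf_eventually (eventually_ge_atTop (300 * c.E * (c.h + 3) + 1))] with m0 h1 h2 lo hi hle
  set t := c.tf m0 hi with ht
  have h3 : 300 * c.E * (c.h + 3) + 1 ≤ t := h2 hi
  have ht1 : 1 ≤ t := by omega
  have hL : 0 ≤ Real.log t := Real.log_natCast_nonneg t
  have h4 : (cardF (c.bl m0) lo hi : ℝ) ≤ ((hi : ℝ) + 1 - lo) * ((c.h + 3) * (t : ℝ) ^ (c.E - 1)) := by
    have h5 : cardF (c.bl m0) lo hi ≤ (hi + 1 - lo) * ((c.h + 3) * t ^ (c.E - 1)) := by
      unfold cardF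
      have h6 : ∀ m ∈ Icc lo hi, (c.cst.h + 2) * (c.bl m0 m).n ≤ (c.h + 2) * t ^ (c.E - 1) := by
        intro m hm
        rw [mem_Icc] at hm
        show (c.h + 2) * (c.tf m0 m) ^ (c.E - 1) ≤ _
        exact Nat.mul_le_mul_left _ (Nat.pow_le_pow_left (c.tf_mono m0 hm.2) _)
      have h7 := Finset.sum_le_sum h6
      rw [Finset.sum_const, Nat.card_Icc, smul_eq_mul] at h7
      have h8 : 1 ≤ (hi + 1 - lo) * t ^ (c.E - 1) :=
        Nat.mul_le_mul (by omega : 1 ≤ hi + 1 - lo) (Nat.one_le_pow _ _ ht1)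
      calc 1 + ∑ m ∈ Icc lo hi, (c.cst.h + 2) * (c.bl m0 m).n
          ≤ (hi + 1 - lo) * t ^ (c.E - 1) + (hi + 1 - lo) * ((c.h + 2) * t ^ (c.E - 1)) :=
            Nat.add_le_add h8 h7
        _ = (hi + 1 - lo) * ((c.h + 3) * t ^ (c.E - 1)) := by ring
    have h9 : ((hi + 1 - lo : ℕ) : ℝ) = (hi : ℝ) + 1 - lo := by
      rw [Nat.cast_sub (by omega)]
      push_cast
      ring
    rw [← h9]
    exact_mod_cast h5
  have hJ : (0 : ℝ) ≤ (hi : ℝ) + 1 - lo := by
    have : (lo : ℝ) ≤ hi := by exact_mod_cast hle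
    linarith
  have h5 : (300 * c.E * (c.h + 3) : ℝ) ≤ t := by
    have : 300 * c.E * (c.h + 3) ≤ t := by omega
    exact_mod_cast this
  have h6 := one_le_coef hc
  have h7 := pow_pred hc t
  have h8 : (0 : ℝ) ≤ (t : ℝ) ^ (c.E - 1) * Real.log t := by positivity
  calc (cardF (c.bl m0) lo hi : ℝ) * Real.log (cardT (c.bl m0) lo hi)
      ≤ (((hi : ℝ) + 1 - lo) * ((c.h + 3) * (t : ℝ) ^ (c.E - 1))) * (3 * c.E * Real.log t) :=
        mul_le_mul h4 (h1 lo hi) (Real.log_natCast_nonneg _) (by positivity)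
    _ = ((hi : ℝ) + 1 - lo) * (1 / 100 * ((300 * c.E * (c.h + 3)) * ((t : ℝ) ^ (c.E - 1) * Real.log t))) := by
        ring
    _ ≤ ((hi : ℝ) + 1 - lo) * (1 / 100 * (t * ((t : ℝ) ^ (c.E - 1) * Real.log t))) := by
        apply mul_le_mul_of_nonneg_left _ hJ
        apply mul_le_mul_of_nonneg_left _ (by norm_num)
        exact mul_le_mul_of_nonneg_right h5 h8
    _ = 1 / 100 * (((hi : ℝ) + 1 - lo) * (1 * ((t : ℝ) ^ c.E * Real.log t))) := by
        rw [← h7]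
        ring
    _ ≤ 1 / 100 * (((hi : ℝ) + 1 - lo) * c.G t) := by
        rw [G_def]
        apply mul_le_mul_of_nonneg_left _ (by norm_num)
        apply mul_le_mul_of_nonneg_left _ hJ
        exact mul_le_mul_of_nonneg_right h6 (by positivity)

/-- (s2) shallow blocks -/
theorem shallow (hc : c.Ok q) : ∀ᶠ s : ℕ in atTop, ∀ t : ℕ, s ^ 2 < t → ∀ lX : ℝ, 0 ≤ lX →
    lX ≤ 3 * c.E * Real.log t → (Fintype.card (Pt (c.par s)) : ℝ) * lX ≤ 1 / 1000 * c.G t := by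
  filter_upwards [PC.card_Pt_le hc, eventually_ge_atTop (3000 * c.E + 1)] with s h1 h2 t hst lX h0 hX
  have hE := hc.E_ge
  have hs1 : 1 ≤ s := by omega
  have ht1 : s ≤ t := by nlinarith
  have h3 : Fintype.card (Pt (c.par s)) ≤ t ^ (c.E - 1) := by
    calc Fintype.card (Pt (c.par s)) ≤ s ^ (c.E + 1) := (Nat.le_succ _).trans h1
      _ ≤ s ^ (2 * (c.E - 1)) := Nat.pow_le_pow_right hs1 (by omega)
      _ = (s ^ 2) ^ (c.E - 1) := by rw [pow_mul]
      _ ≤ t ^ (c.E - 1) := Nat.pow_le_pow_left hst.le _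
  have h4 : (Fintype.card (Pt (c.par s)) : ℝ) ≤ (t : ℝ) ^ (c.E - 1) := by exact_mod_cast h3
  have hL : 0 ≤ Real.log t := Real.log_natCast_nonneg t
  have h5 : (3000 * c.E : ℝ) ≤ t := by
    have : 3000 * c.E ≤ t := by omega
    exact_mod_cast this
  have h6 := one_le_coef hc
  have h7 := pow_pred hc t
  calc (Fintype.card (Pt (c.par s)) : ℝ) * lX ≤ (t : ℝ) ^ (c.E - 1) * (3 * c.E * Real.log t) :=
        mul_le_mul h4 hX h0 (by positivity)
    _ = 1 / 1000 * ((3000 * c.E) * ((t : ℝ) ^ (c.E - 1) * Real.log t)) := by ring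
    _ ≤ 1 / 1000 * (t * ((t : ℝ) ^ (c.E - 1) * Real.log t)) := by
        apply mul_le_mul_of_nonneg_left _ (by norm_num)
        exact mul_le_mul_of_nonneg_right h5 (by positivity)
    _ = 1 / 1000 * (1 * ((t : ℝ) ^ c.E * Real.log t)) := by
        rw [← h7]
        ring
    _ ≤ 1 / 1000 * c.G t := by
        rw [G_def]
        apply mul_le_mul_of_nonneg_left _ (by norm_num)
        exact mul_le_mul_of_nonneg_right h6 (by positivity)

/-- a weighted sum with weights `≤ B λ^(-i)` -/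
theorem sum_geom_le (hc : c.Ok q) (f : Fin c.W → ℝ) (B : ℝ) (hB : 0 ≤ B)
    (hf : ∀ i, f i ≤ B * (1 / (c.lam : ℝ) ^ i.val)) : ∑ i, f i ≤ 1000 / 999 * B := by
  calc ∑ i, f i ≤ ∑ i : Fin c.W, B * (1 / (c.lam : ℝ) ^ i.val) := Finset.sum_le_sum fun i _ => hf i
    _ = B * ∑ i : Fin c.W, (1 / (c.lam : ℝ) ^ i.val) := by rw [Finset.mul_sum]
    _ ≤ B * (1000 / 999) := mul_le_mul_of_nonneg_left (geom_lam hc) hB
    _ = 1000 / 999 * B := by ring

/-- (s3) atypical cells -/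
theorem atypical (hc : c.Ok q) {s t : ℕ} (hst : s ≤ t) {lX : ℝ} (h0 : 0 ≤ lX)
    (hX : lX ≤ 3 * c.E * Real.log t) :
    ∑ i : Fin c.W, (4 * q.dlt * (c.par s).N i) * (4 * c.cst.K i * (c.par s).T i) * lX
      ≤ 1 / 1000 * c.G t := by
  have hL : 0 ≤ Real.log t := Real.log_natCast_nonneg t
  have hd0 := hc.dlt0
  have hd := hc.dlt
  set A := c.Kst * (2 * c.lam : ℝ) ^ (c.W - 1) * (t : ℝ) ^ c.E with hA
  have hA0 : 0 ≤ A := by positivity
  have h1 : ∀ i : Fin c.W,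
      (4 * q.dlt * (c.par s).N i) * (4 * c.cst.K i * (c.par s).T i) * lX
        ≤ (16 * q.dlt * A * (3 * c.E * Real.log t)) * (1 / (c.lam : ℝ) ^ i.val) := by
    intro i
    have h2 := KNT_le hc hst i
    rw [← hA] at h2
    have hl : (0 : ℝ) ≤ 1 / (c.lam : ℝ) ^ i.val := by positivity
    calc (4 * q.dlt * (c.par s).N i) * (4 * c.cst.K i * (c.par s).T i) * lX
        = (16 * q.dlt) * ((c.cst.K i : ℝ) * (((c.par s).N i : ℝ) * ((c.par s).T i : ℝ))) * lX := by ring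
      _ ≤ (16 * q.dlt) * (A * (1 / (c.lam : ℝ) ^ i.val)) * (3 * c.E * Real.log t) := by
          apply mul_le_mul _ hX h0 (by positivity)
          exact mul_le_mul_of_nonneg_left h2 (by positivity)
      _ = _ := by ring
  refine (sum_geom_le hc _ _ (by positivity) h1).trans ?_
  have h3 : c.G t = A * Real.log t := by rw [G_def, hA]; ring
  rw [h3]
  have h4 : 0 ≤ A * Real.log t := by positivity
  calc 1000 / 999 * (16 * q.dlt * A * (3 * c.E * Real.log t))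
      = (1000 / 999 * 48 * (q.dlt * c.E)) * (A * Real.log t) := by ring
    _ ≤ (1 / 1000) * (A * Real.log t) := by
      apply mul_le_mul_of_nonneg_right _ h4
      have h5 : q.dlt * c.E ≤ 1 / 10 ^ 7 := by
        rw [le_div_iff₀ (by norm_num)]
        linarith
      linarith

/-- (s4) the choices of the `r_g` -/
theorem rchoices (hc : c.Ok q) : ∀ᶠ t : ℕ in atTop, ∀ s : ℕ, 1 ≤ s → s ≤ t → ∀ lX : ℝ, 0 ≤ lX →
    lX ≤ 3 * c.E * Real.log t →
    ∑ i : Fin c.W, ((c.par s).N i : ℝ) * (c.cst.K i * lX) ≤ 1 / 1000 * c.G t := by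
  filter_upwards [eventually_ge_atTop (3010 * c.E + 1)] with t ht s hs hst lX h0 hX
  have hL : 0 ≤ Real.log t := Real.log_natCast_nonneg t
  set A := c.Kst * (2 * c.lam : ℝ) ^ (c.W - 1) * (t : ℝ) ^ (c.E - 1) with hA
  have hA0 : 0 ≤ A := by positivity
  have h1 : ∀ i : Fin c.W, ((c.par s).N i : ℝ) * (c.cst.K i * lX)
        ≤ (A * (3 * c.E * Real.log t)) * (1 / (c.lam : ℝ) ^ i.val) := by
    intro i
    have h2 := KN_le hc hs hst i
    rw [← hA] at h2
    have hl : (0 : ℝ) ≤ 1 / (c.lam : ℝ) ^ i.val := by positivity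
    calc ((c.par s).N i : ℝ) * (c.cst.K i * lX)
        = ((c.cst.K i : ℝ) * ((c.par s).N i : ℝ)) * lX := by ring
      _ ≤ (A * (1 / (c.lam : ℝ) ^ i.val)) * (3 * c.E * Real.log t) :=
          mul_le_mul h2 hX h0 (by positivity)
      _ = _ := by ring
  refine (sum_geom_le hc _ _ (by positivity) h1).trans ?_
  have h3 : c.G t = A * t * Real.log t := by
    rw [G_def, hA, ← pow_pred hc t]
    ring
  rw [h3]
  have h4 : 0 ≤ A * Real.log t := by positivity
  have h5 : (3010 * c.E : ℝ) ≤ t := by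
    have : 3010 * c.E ≤ t := by omega
    exact_mod_cast this
  calc 1000 / 999 * (A * (3 * c.E * Real.log t))
      = (1000 / 999 * 3 * c.E) * (A * Real.log t) := by ring
    _ ≤ (1 / 1000 * t) * (A * Real.log t) := by
      apply mul_le_mul_of_nonneg_right _ h4
      have hE : (0 : ℝ) ≤ c.E := by positivity
      linarith
    _ = _ := by ring

/-- (s4') a constant factor for each point -/
theorem constfac (hc : c.Ok q) (B : ℝ) (hB : 0 ≤ B) : ∀ᶠ t : ℕ in atTop, ∀ s : ℕ, s ≤ t →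
    ∑ i : Fin c.W, ((c.par s).N i : ℝ) * (4 * (c.par s).T i * (c.cst.K i * B))
      ≤ 1 / 1000 * c.G t := by
  have h1 : ∀ᶠ t : ℕ in atTop, (4010 * B : ℝ) ≤ Real.log t :=
    (Real.tendsto_log_atTop.comp tendsto_natCast_atTop_atTop).eventually_ge_atTop _
  filter_upwards [h1] with t ht s hst
  have hL : 0 ≤ Real.log t := Real.log_natCast_nonneg t
  set A := c.Kst * (2 * c.lam : ℝ) ^ (c.W - 1) * (t : ℝ) ^ c.E with hA
  have hA0 : 0 ≤ A := by positivity
  have h1 : ∀ i : Fin c.W, ((c.par s).N i : ℝ) * (4 * (c.par s).T i * (c.cst.K i * B))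
        ≤ (A * (4 * B)) * (1 / (c.lam : ℝ) ^ i.val) := by
    intro i
    have h2 := KNT_le hc hst i
    rw [← hA] at h2
    calc ((c.par s).N i : ℝ) * (4 * (c.par s).T i * (c.cst.K i * B))
        = ((c.cst.K i : ℝ) * (((c.par s).N i : ℝ) * ((c.par s).T i : ℝ))) * (4 * B) := by ring
      _ ≤ (A * (1 / (c.lam : ℝ) ^ i.val)) * (4 * B) :=
          mul_le_mul_of_nonneg_right h2 (by positivity)
      _ = _ := by ring
  refine (sum_geom_le hc _ _ (by positivity) h1).trans ?_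
  have h3 : c.G t = A * Real.log t := by rw [G_def, hA]; ring
  rw [h3]
  calc 1000 / 999 * (A * (4 * B)) = A * (1000 / 999 * 4 * B) := by ring
    _ ≤ A * (1 / 1000 * Real.log t) := by
      apply mul_le_mul_of_nonneg_left _ hA0
      linarith
    _ = _ := by ring

/-- (s5) the intervals which meet cells of class `j ≥ i` -/
theorem classes_ge (hc : c.Ok q) {s t : ℕ} (hst : s ≤ t) (cc : Fin c.W → ℝ) (hcc : ∀ j, 0 ≤ cc j) :
    ∑ i : Fin c.W, ((c.par s).N i : ℝ) * (4 * (c.par s).T i *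
      ∑ j : Fin c.W, if i ≤ j then 4 * c.cst.K j * cc j * Real.log ((c.par t).T j) else 0)
      ≤ 32 * c.G t * ∑ j, cc j := by
  have hL : 0 ≤ Real.log t := Real.log_natCast_nonneg t
  have hG := c.G_nonneg t
  have h1 : ∀ i j : Fin c.W, ((c.par s).N i : ℝ) * (4 * (c.par s).T i *
      (if i ≤ j then 4 * c.cst.K j * cc j * Real.log ((c.par t).T j) else 0))
      ≤ 16 * c.G t * cc j * (if i ≤ j then 1 / (2 : ℝ) ^ (j.val - i.val) else 0) := by
    intro i j
    by_cases hij : i ≤ j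
    · rw [if_pos hij, if_pos hij, PC.logT]
      have h2 := NT_le hc hst i
      have h3 : (2 : ℝ) ^ i.val = (2 : ℝ) ^ j.val * (1 / (2 : ℝ) ^ (j.val - i.val)) := by
        rw [mul_one_div, eq_div_iff (by positivity), ← pow_add]
        congr 1
        have : i.val ≤ j.val := hij
        omega
      have h4 := coef_eq c j
      calc ((c.par s).N i : ℝ) * (4 * (c.par s).T i *
            (4 * c.cst.K j * cc j * ((c.lam : ℝ) ^ j.val * Real.log t)))
          = (((c.par s).N i : ℝ) * ((c.par s).T i : ℝ))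
            * (16 * c.cst.K j * cc j * ((c.lam : ℝ) ^ j.val * Real.log t)) := by ring
        _ ≤ (2 ^ i.val * (t : ℝ) ^ c.E)
            * (16 * c.cst.K j * cc j * ((c.lam : ℝ) ^ j.val * Real.log t)) := by
            apply mul_le_mul_of_nonneg_right h2
            have := hcc j
            positivity
        _ = 16 * (((2 : ℝ) ^ j.val * (c.cst.K j : ℝ) * (c.lam : ℝ) ^ j.val)
            * ((t : ℝ) ^ c.E * Real.log t)) * cc j * (1 / (2 : ℝ) ^ (j.val - i.val)) := by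
            rw [h3]
            ring
        _ = _ := by rw [h4, G_def]
    · rw [if_neg hij, if_neg hij]
      simp
  calc ∑ i : Fin c.W, ((c.par s).N i : ℝ) * (4 * (c.par s).T i *
      ∑ j : Fin c.W, if i ≤ j then 4 * c.cst.K j * cc j * Real.log ((c.par t).T j) else 0)
      = ∑ i : Fin c.W, ∑ j : Fin c.W, ((c.par s).N i : ℝ) * (4 * (c.par s).T i *
      (if i ≤ j then 4 * c.cst.K j * cc j * Real.log ((c.par t).T j) else 0)) := by
        apply Finset.sum_congr rfl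
        intro i _
        rw [Finset.mul_sum, Finset.mul_sum]
    _ ≤ ∑ i : Fin c.W, ∑ j : Fin c.W,
        16 * c.G t * cc j * (if i ≤ j then 1 / (2 : ℝ) ^ (j.val - i.val) else 0) :=
        Finset.sum_le_sum fun i _ => Finset.sum_le_sum fun j _ => h1 i j
    _ = ∑ j : Fin c.W, 16 * c.G t * cc j *
        ∑ i : Fin c.W, (if i ≤ j then 1 / (2 : ℝ) ^ (j.val - i.val) else 0) := by
        rw [Finset.sum_comm]
        apply Finset.sum_congr rfl
        intro j _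
        rw [Finset.mul_sum]
    _ ≤ ∑ j : Fin c.W, 16 * c.G t * cc j * 2 := by
        apply Finset.sum_le_sum
        intro j _
        apply mul_le_mul_of_nonneg_left (geom_two_le c.W j)
        have := hcc j
        positivity
    _ = 32 * c.G t * ∑ j, cc j := by
        rw [Finset.mul_sum]
        apply Finset.sum_congr rfl
        intro j _
        ring

/-- (s6) the intervals which only meet cells of smaller class -/
theorem classes_lt (hc : c.Ok q) {s t : ℕ} (hst : s ≤ t) :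
    ∑ i : Fin c.W, ((c.par s).N i : ℝ) * (4 * (c.par s).T i * (c.cst.K i *
      (if i.val = 0 then 0 else (c.lam : ℝ) ^ (i.val - 1) * Real.log t)))
      ≤ 4 * c.W / c.lam * c.G t := by
  have hL : 0 ≤ Real.log t := Real.log_natCast_nonneg t
  have hl : (0 : ℝ) < c.lam := by rw [lam_real hc]; norm_num
  have hG := c.G_nonneg t
  have h1 : ∀ i : Fin c.W, ((c.par s).N i : ℝ) * (4 * (c.par s).T i * (c.cst.K i *
      (if i.val = 0 then 0 else (c.lam : ℝ) ^ (i.val - 1) * Real.log t)))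
      ≤ 4 / c.lam * c.G t := by
    intro i
    split_ifs with hi
    · simp only [mul_zero]
      positivity
    · have h2 := KNT_le hc hst i
      have h3 : (c.lam : ℝ) ^ i.val = (c.lam : ℝ) ^ (i.val - 1) * c.lam := by
        rw [← pow_succ]
        congr 1
        omega
      calc ((c.par s).N i : ℝ) * (4 * (c.par s).T i * (c.cst.K i *
            ((c.lam : ℝ) ^ (i.val - 1) * Real.log t)))
          = ((c.cst.K i : ℝ) * (((c.par s).N i : ℝ) * ((c.par s).T i : ℝ)))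
            * (4 * ((c.lam : ℝ) ^ (i.val - 1) * Real.log t)) := by ring
        _ ≤ (c.Kst * (2 * c.lam : ℝ) ^ (c.W - 1) * (t : ℝ) ^ c.E * (1 / (c.lam : ℝ) ^ i.val))
            * (4 * ((c.lam : ℝ) ^ (i.val - 1) * Real.log t)) :=
            mul_le_mul_of_nonneg_right h2 (by positivity)
        _ = 4 / c.lam * c.G t := by
            rw [G_def, h3]
            field_simp
  calc _ ≤ ∑ _i : Fin c.W, 4 / c.lam * c.G t := Finset.sum_le_sum fun i _ => h1 i
    _ = _ := by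
      rw [Finset.sum_const, Finset.card_univ, Fintype.card_fin, nsmul_eq_mul]
      ring

/-- (s7) one gadget of every cell with free images -/
theorem onefree (hc : c.Ok q) {s t : ℕ} (hst : s ≤ t) {lX : ℝ} (h0 : 0 ≤ lX)
    (hX : lX ≤ 3 * c.E * Real.log t) :
    ∑ i : Fin c.W, ((c.par s).N i : ℝ) * (4 * (c.par s).T i * lX) ≤ 1 / 10 ^ 6 * c.G t := by
  have hL : 0 ≤ Real.log t := Real.log_natCast_nonneg t
  have hl1 : (1 : ℝ) ≤ c.lam := by rw [lam_real hc]; norm_num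
  have hK0 : (0 : ℝ) < c.Kst := by
    have := hc.Kst_pos
    exact_mod_cast this
  have hG := c.G_nonneg t
  have h1 : ∀ i : Fin c.W, ((c.par s).N i : ℝ) * (4 * (c.par s).T i * lX)
      ≤ (12 * c.E / c.Kst * c.G t) * (1 / (2 : ℝ) ^ (c.W - 1 - i.val)) := by
    intro i
    have h2 := NT_le hc hst i
    have h3 : (2 : ℝ) ^ i.val * ((c.Kst : ℝ) * 2 ^ (c.W - 1 - i.val))
        ≤ c.Kst * (2 * c.lam : ℝ) ^ (c.W - 1) := by
      have h4 : (2 : ℝ) ^ i.val * (2 : ℝ) ^ (c.W - 1 - i.val) = (2 : ℝ) ^ (c.W - 1) := by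
        rw [← pow_add]
        congr 1
        have := i.isLt
        omega
      calc (2 : ℝ) ^ i.val * ((c.Kst : ℝ) * 2 ^ (c.W - 1 - i.val))
          = c.Kst * ((2 : ℝ) ^ i.val * (2 : ℝ) ^ (c.W - 1 - i.val)) := by ring
        _ = c.Kst * (2 : ℝ) ^ (c.W - 1) := by rw [h4]
        _ ≤ c.Kst * (2 * c.lam : ℝ) ^ (c.W - 1) := by
          apply mul_le_mul_of_nonneg_left _ hK0.le
          apply pow_le_pow_left₀ (by norm_num)
          linarith
    have h5 : (2 : ℝ) ^ i.val ≤ (c.Kst * (2 * c.lam : ℝ) ^ (c.W - 1)) *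
        ((1 / c.Kst) * (1 / (2 : ℝ) ^ (c.W - 1 - i.val))) := by
      have h6 : (1 / (c.Kst : ℝ)) * (1 / (2 : ℝ) ^ (c.W - 1 - i.val))
          = 1 / ((c.Kst : ℝ) * 2 ^ (c.W - 1 - i.val)) := by
        field_simp
      rw [h6, mul_one_div, le_div_iff₀ (by positivity)]
      exact h3
    calc ((c.par s).N i : ℝ) * (4 * (c.par s).T i * lX)
        = (((c.par s).N i : ℝ) * ((c.par s).T i : ℝ)) * (4 * lX) := by ring
      _ ≤ (2 ^ i.val * (t : ℝ) ^ c.E) * (4 * (3 * c.E * Real.log t)) := by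
          apply mul_le_mul h2 _ (by positivity) (by positivity)
          linarith
      _ = (2 : ℝ) ^ i.val * ((t : ℝ) ^ c.E * (12 * c.E * Real.log t)) := by ring
      _ ≤ ((c.Kst * (2 * c.lam : ℝ) ^ (c.W - 1)) *
        ((1 / c.Kst) * (1 / (2 : ℝ) ^ (c.W - 1 - i.val))))
          * ((t : ℝ) ^ c.E * (12 * c.E * Real.log t)) :=
          mul_le_mul_of_nonneg_right h5 (by positivity)
      _ = _ := by
          rw [G_def]
          ring
  calc _ ≤ ∑ i : Fin c.W, (12 * c.E / c.Kst * c.G t) * (1 / (2 : ℝ) ^ (c.W - 1 - i.val)) :=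
        Finset.sum_le_sum fun i _ => h1 i
    _ = (12 * c.E / c.Kst * c.G t) * ∑ i : Fin c.W, (1 / (2 : ℝ) ^ (c.W - 1 - i.val)) := by
        rw [Finset.mul_sum]
    _ ≤ (12 * c.E / c.Kst * c.G t) * 2 := by
        apply mul_le_mul_of_nonneg_left (geom_two c.W)
        positivity
    _ = (24 * c.E / c.Kst) * c.G t := by ring
    _ ≤ 1 / 10 ^ 6 * c.G t := by
        apply mul_le_mul_of_nonneg_right _ hG
        rw [div_le_div_iff₀ hK0 (by norm_num)]
        have h6 : ((10 ^ 8 * c.E : ℕ) : ℝ) ≤ (c.Kst : ℝ) := by exact_mod_cast hc.Kst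
        push_cast at h6
        have h7 : (0 : ℝ) ≤ c.E := by positivity
        nlinarith

/-- (s8) all points in one block -/
theorem oneblock (hc : c.Ok q) {s t : ℕ} (hst : s ≤ t) :
    ∑ i : Fin c.W, ((c.par s).N i : ℝ) * (4 * (c.par s).T i * (c.cst.K i *
      ((c.lam : ℝ) ^ (c.W - 1) * Real.log t))) ≤ 401 / 100 * (c.lam : ℝ) ^ (c.W - 1) * c.G t := by
  have hL : 0 ≤ Real.log t := Real.log_natCast_nonneg t
  have hl : (0 : ℝ) ≤ c.lam := by rw [lam_real hc]; norm_num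
  set A := c.Kst * (2 * c.lam : ℝ) ^ (c.W - 1) * (t : ℝ) ^ c.E with hA
  have hA0 : 0 ≤ A := by positivity
  have h1 : ∀ i : Fin c.W, ((c.par s).N i : ℝ) * (4 * (c.par s).T i * (c.cst.K i *
      ((c.lam : ℝ) ^ (c.W - 1) * Real.log t)))
        ≤ (A * (4 * ((c.lam : ℝ) ^ (c.W - 1) * Real.log t))) * (1 / (c.lam : ℝ) ^ i.val) := by
    intro i
    have h2 := KNT_le hc hst i
    rw [← hA] at h2
    calc _ = ((c.cst.K i : ℝ) * (((c.par s).N i : ℝ) * ((c.par s).T i : ℝ)))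
          * (4 * ((c.lam : ℝ) ^ (c.W - 1) * Real.log t)) := by ring
      _ ≤ (A * (1 / (c.lam : ℝ) ^ i.val)) * (4 * ((c.lam : ℝ) ^ (c.W - 1) * Real.log t)) :=
          mul_le_mul_of_nonneg_right h2 (by positivity)
      _ = _ := by ring
  refine (sum_geom_le hc _ _ (by positivity) h1).trans ?_
  have h3 : c.G t = A * Real.log t := by rw [G_def, hA]; ring
  rw [h3]
  have h4 : 0 ≤ (c.lam : ℝ) ^ (c.W - 1) * (A * Real.log t) := by positivity
  calc _ = (1000 / 999 * 4) * ((c.lam : ℝ) ^ (c.W - 1) * (A * Real.log t)) := by ring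
    _ ≤ (401 / 100) * ((c.lam : ℝ) ^ (c.W - 1) * (A * Real.log t)) :=
        mul_le_mul_of_nonneg_right (by norm_num) h4
    _ = _ := by ring

/-- `log T_j` is at most `λ^(W-1) log t`. -/
theorem logT_le (hc : c.Ok q) (t : ℕ) (j : Fin c.W) :
    Real.log ((c.par t).T j) ≤ (c.lam : ℝ) ^ (c.W - 1) * Real.log t := by
  rw [PC.logT]
  apply mul_le_mul_of_nonneg_right _ (Real.log_natCast_nonneg t)
  have h := hc.lamj_le j.val j.isLt
  exact_mod_cast h

/-- (s9) constants -/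
theorem h_bound (hc : c.Ok q) : (41 / 10 * (c.lam : ℝ) ^ (c.W - 1) + 1) * 66 ≤ c.h := by
  have h1 : ((1000 * c.lam ^ (c.W - 1) + 10000 : ℕ) : ℝ) ≤ (c.h : ℝ) := by exact_mod_cast hc.h
  push_cast at h1
  have h2 : (0 : ℝ) ≤ (c.lam : ℝ) ^ (c.W - 1) := by positivity
  linarith

theorem final_const (hc : c.Ok q) :
    28900 * ((c.h : ℝ) + 2) + 2 ≤ 9 / 10 * (c.h * c.W) / 48 := by
  have h1 : (10000 : ℝ) ≤ c.h := by exact_mod_cast hc.h_ge
  have h2 : (c.W : ℝ) = 2000000 := by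
    rw [hc.W]
    norm_num
  rw [h2]
  linarith

/-- the facts on the deepest block used by `S7num`, for every level of the tower -/
theorem tower_facts (hc : c.Ok q) (B : ℝ) : ∀ᶠ m0 : ℕ in atTop, ∀ lo hi : ℕ,
    0 ≤ Real.log (cardT (c.bl m0) lo hi) ∧
    Real.log (cardT (c.bl m0) lo hi) ≤ 3 * c.E * Real.log (c.tf m0 hi) ∧
    3000 * c.E * c.W ≤ c.tf m0 hi ∧
    5000 * B ≤ Real.log (c.tf m0 hi) ∧
    ∀ m, m ≤ hi → 1 ≤ c.tf m0 m ∧ c.tf m0 m ≤ c.tf m0 hi := by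
  have h1 : ∀ᶠ t : ℕ in atTop, (5000 * B : ℝ) ≤ Real.log t :=
    (Real.tendsto_log_atTop.comp tendsto_natCast_atTop_atTop).eventually_ge_atTop _
  filter_upwards [log_cardT hc, c.tf_eventually (eventually_ge_atTop (3000 * c.E * c.W)),
    c.tf_eventually h1, c.tf_eventually (eventually_ge_atTop 1)] with m0 h2 h3 h4 h5 lo hi
  exact ⟨Real.log_natCast_nonneg _, h2 lo hi, h3 hi, h4 hi, fun m hm => ⟨h5 m, c.tf_mono m0 hm⟩⟩

/-- (s2) in the tower -/
theorem shallow_tower (hc : c.Ok q) : ∀ᶠ m0 : ℕ in atTop, ∀ lo hi m : ℕ, m ≤ hi →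
    c.tf m0 m ^ 2 < c.tf m0 hi →
    (Fintype.card (Pt (c.bl m0 m)) : ℝ) * Real.log (cardT (c.bl m0) lo hi)
      ≤ 1 / 1000 * c.G (c.tf m0 hi) := by
  filter_upwards [log_cardT hc, c.tf_eventually (shallow hc)] with m0 h1 h2 lo hi m hm hs
  exact h2 m _ hs _ (Real.log_natCast_nonneg _) (h1 lo hi)

/-- log of the rigid content in the tower -/
theorem aR_tower (hc : c.Ok q) : ∀ᶠ m0 : ℕ in atTop, ∀ m : ℕ,
    99 / 100 * (c.h * c.W * c.G (c.tf m0 m)) ≤ Real.log (aR (c.bl m0 m)) := by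
  have h1 : ∀ᶠ t : ℕ in atTop, 99 / 100 * (c.h * c.W * c.G t) ≤ Real.log (aR (c.par t)) := by
    have h1 : ∀ᶠ t : ℕ in atTop, (100 : ℝ) ≤ Real.log t :=
      (Real.tendsto_log_atTop.comp tendsto_natCast_atTop_atTop).eventually_ge_atTop 100
    filter_upwards [h1, eventually_ge_atTop 3] with t ht ht3
    refine le_trans ?_ (PC.log_aR_ge hc ht3)
    apply mul_le_mul_of_nonneg_right
    · have : 1 / Real.log t ≤ 1 / 100 := one_div_le_one_div_of_le (by norm_num) ht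
      linarith
    · have := c.G_nonneg t
      positivity
  exact c.tf_eventually h1

/-- the gain: if the fully warm blocks carry a sixth of the content of the tower -/
theorem gain (hc : c.Ok q) : ∀ᶠ m0 : ℕ in atTop, ∀ lo hi : ℕ, lo ≤ hi → ∀ F : Finset ℕ,
    F ⊆ Icc lo hi → ∑ m ∈ Icc lo hi, c.G (c.tf m0 m) ≤ 6 * ∑ m ∈ F, c.G (c.tf m0 m) →
    (28900 * ((c.h : ℝ) + 2) + 2) * (((hi : ℝ) + 1 - lo) * c.G (c.tf m0 hi))
      ≤ ∑ m ∈ F, Real.log (aR (c.bl m0 m)) := by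
  filter_upwards [aR_tower hc, c.N2] with m0 h1 h2 lo hi hle F hF h6
  have h3 := h2 lo hi hle
  have hG := c.G_nonneg (c.tf m0 hi)
  have hJ : (0 : ℝ) ≤ (hi : ℝ) + 1 - lo := by
    have : (lo : ℝ) ≤ hi := by exact_mod_cast hle
    linarith
  have h4 : ∑ m ∈ F, 99 / 100 * (c.h * c.W * c.G (c.tf m0 m)) ≤ ∑ m ∈ F, Real.log (aR (c.bl m0 m)) :=
    Finset.sum_le_sum fun m _ => h1 m
  have h5 : ∑ m ∈ F, 99 / 100 * (c.h * c.W * c.G (c.tf m0 m))
      = 99 / 100 * (c.h * c.W) * ∑ m ∈ F, c.G (c.tf m0 m) := by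
    rw [Finset.mul_sum]
    apply Finset.sum_congr rfl
    intro m _
    ring
  rw [h5] at h4
  refine le_trans ?_ h4
  have h7 : ((hi : ℝ) + 1 - lo) * c.G (c.tf m0 hi) / 48 ≤ ∑ m ∈ F, c.G (c.tf m0 m) := by
    linarith
  have h8 := final_const hc
  have h9 : (0 : ℝ) ≤ (c.h : ℝ) * c.W := by positivity
  have h10 : (0 : ℝ) ≤ ((hi : ℝ) + 1 - lo) * c.G (c.tf m0 hi) := mul_nonneg hJ hG
  calc (28900 * ((c.h : ℝ) + 2) + 2) * (((hi : ℝ) + 1 - lo) * c.G (c.tf m0 hi))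
      ≤ (9 / 10 * (c.h * c.W) / 48) * (((hi : ℝ) + 1 - lo) * c.G (c.tf m0 hi)) :=
        mul_le_mul_of_nonneg_right h8 h10
    _ ≤ (99 / 100 * (c.h * c.W)) * (((hi : ℝ) + 1 - lo) * c.G (c.tf m0 hi) / 48) := by
        have : (9 / 10 * (c.h * c.W : ℝ) / 48) ≤ (99 / 100 * (c.h * c.W)) / 48 := by linarith
        calc _ ≤ ((99 / 100 * (c.h * c.W : ℝ)) / 48) * (((hi : ℝ) + 1 - lo) * c.G (c.tf m0 hi)) :=
              mul_le_mul_of_nonneg_right this h10
          _ = _ := by ring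
    _ ≤ _ := mul_le_mul_of_nonneg_left h7 (by positivity)

end Pool.Agent.AM.Num7
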