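import Pool.Agent.AM.S7Defs
import Pool.Agent.AM.Num7

set_option autoImplicit false

open scoped Classical
open Finset

noncomputable section

namespace Pool.Agent.AM

/-- numbers which hold for all large `m0` (helper95) -/
theorem ev7 (c : PC) (q : Con) (hc : c.Ok q) : ∀ᶠ m0 in Filter.atTop, ∀ lo hi : ℕ, lo ≤ hi →
    -- basic
    (∀ m, 3 ≤ c.tf m0 m) ∧ 3000 * c.E * c.W ≤ c.tf m0 hi ∧
    5000 * Real.log ((8 * (q.P + 2) * (c.cst.h + 2) * (c.Kst * (2 * c.lam) ^ (c.W - 1)) : ℕ) : ℝ) ≤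
      Real.log (c.tf m0 hi) ∧
    -- (s0)
    Real.log (cardT (c.bl m0) lo hi : ℝ) ≤ 3 * c.E * Real.log (c.tf m0 hi) ∧
    -- (s1)
    (cardF (c.bl m0) lo hi : ℝ) * Real.log (cardT (c.bl m0) lo hi : ℝ) ≤
      1 / 100 * ((hi + 1 - lo : ℕ) : ℝ) * c.G (c.tf m0 hi) ∧
    -- (s2) shallow blocks
    (∀ m, lo ≤ m → m ≤ hi → (c.tf m0 m) ^ 2 < c.tf m0 hi →
      (c.h : ℝ) * ∑ j, ((c.bl m0 m).N j : ℝ) * (4 * (c.bl m0 m).T j * c.cst.K j *
        Real.log (cardT (c.bl m0) lo hi : ℝ)) ≤ 1 / 100 * c.G (c.tf m0 hi)) ∧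
    -- gain
    (∀ m, 99 / 100 * (c.h * c.W) * c.G (c.tf m0 m) ≤ Real.log (aR (c.bl m0 m) : ℝ)) ∧
    (∀ m, c.G (c.tf m0 m) ≤ c.G (c.tf m0 (m + 1)) ∧ c.G (c.tf m0 (m + 1)) ≤ 2 * c.G (c.tf m0 m)) ∧
    ((hi + 1 - lo : ℕ) : ℝ) * c.G (c.tf m0 hi) / 8 ≤ ∑ m ∈ Icc lo hi, c.G (c.tf m0 m) := by
  filter_upwards [Num7.tower_facts hc
      (Real.log ((8 * (q.P + 2) * (c.cst.h + 2) * (c.Kst * (2 * c.lam) ^ (c.W - 1)) : ℕ) : ℝ)),
    c.tf_eventually (Filter.eventually_ge_atTop 3), Num7.skeleton hc, Num7.shallow_tower hc,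
    Num7.aR_tower hc, c.N1, c.N2] with m0 h1 h2 h3 h4 h5 h6 h7 lo hi hle
  obtain ⟨h11, h12, h13, h14, h15⟩ := h1 lo hi
  have hJ : ((hi + 1 - lo : ℕ) : ℝ) = (hi : ℝ) + 1 - lo := by
    rw [Nat.cast_sub (by omega)]
    push_cast
    ring
  refine ⟨h2, h13, h14, h12, ?_, ?_, ?_, ?_, ?_⟩
  · rw [hJ]
    refine (h3 lo hi hle).trans (le_of_eq ?_)
    ring
  · intro m _ hm hs
    have h8 := h4 lo hi m hm hs
    have hG := c.G_nonneg (c.tf m0 hi)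
    have h9 : (c.h : ℝ) * ∑ j, ((c.bl m0 m).N j : ℝ) * (4 * (c.bl m0 m).T j * c.cst.K j *
        Real.log (cardT (c.bl m0) lo hi : ℝ))
        ≤ (Fintype.card (Pt (c.bl m0 m)) : ℝ) * Real.log (cardT (c.bl m0) lo hi) := by
      have h10 : Fintype.card (Pt (c.bl m0 m)) = (c.h + 2) * (c.bl m0 m).n
          + ∑ j : Fin c.W, c.h * (c.bl m0 m).N j * (c.cst.K j * (4 * (c.bl m0 m).T j)) :=
        PC.card_Pt c (c.tf m0 m)
      have h10' : ((∑ j : Fin c.W, c.h * (c.bl m0 m).N j * (c.cst.K j * (4 * (c.bl m0 m).T j)) : ℕ) : ℝ)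
          ≤ (Fintype.card (Pt (c.bl m0 m)) : ℝ) := by
        rw [h10]
        exact_mod_cast Nat.le_add_left _ _
      refine le_trans (le_of_eq ?_) (mul_le_mul_of_nonneg_right h10' h11)
      push_cast
      rw [Finset.mul_sum, Finset.sum_mul]
      apply Finset.sum_congr rfl
      intro j _
      ring
    refine (h9.trans h8).trans ?_
    linarith
  · intro m
    have := h5 m
    refine le_trans (le_of_eq ?_) this
    ring
  · intro m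
    refine ⟨c.G_mono ?_ (c.tf_mono m0 (Nat.le_succ m)), h6 m⟩
    have := h2 m
    omega
  · rw [hJ]
    exact h7 lo hi hle

/-- (s9) -/
theorem s9 (c : PC) (q : Con) (hc : c.Ok q) :
    (28677 : ℝ) * (c.h + 2) ≤ 99 / 100 * (c.h * c.W) / 48 ∧
    66 * (41 / 10 * (c.lam : ℝ) ^ (c.W - 1) + 1) ≤ c.h ∧ 4 * (c.W : ℝ) / c.lam = 8000 := by
  have h1 : (10000 : ℝ) ≤ c.h := by exact_mod_cast hc.h_ge
  have h2 : (c.W : ℝ) = 2000000 := by
    rw [hc.W]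
    norm_num
  have h3 := Num7.h_bound hc
  refine ⟨?_, ?_, ?_⟩
  · rw [h2]
    linarith
  · linarith
  · rw [h2, Num7.lam_real hc]
    norm_num

end Pool.Agent.AM
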