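import Pool.Agent.AM.Defs2
import Pool.Agent.AM.PrBasic

set_option autoImplicit false

open scoped Classical
open Finset

noncomputable section

namespace Pool.Agent.AM

namespace ExpdP

/-- the event for fixed sets `S`, `A` -/
theorem pr_fix {ι : Type*} [Fintype ι] {d n : ℕ} (hn : 0 < n) (r : Fin n → ι)
    (hr : Function.Injective r) (S A : Finset (Fin n)) (hS : (S.card : ℝ) ≤ 1 / 100 * n) :
    Pr (fun ω : ι → Fin d → Fin n => ∀ x ∈ A,
        d ≤ 2 * (univ.filter fun i => ω (r x) i ∈ S).card) ≤ ((1 / 5 : ℝ) ^ d) ^ A.card := by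
  have hn' : (0 : ℝ) < n := by exact_mod_cast hn
  set m : ℕ := (d + 1) / 2 with hm
  have hm2 : d ≤ 2 * m := by omega
  set Q : Finset (ι × Fin d) := (A.map ⟨r, hr⟩) ×ˢ (univ : Finset (Fin d)) with hQ
  have hQc : Q.card = A.card * d := by
    simp [hQ, Finset.card_product]
  have h1 : Pr (fun ω : ι → Fin d → Fin n => ∀ x ∈ A,
        d ≤ 2 * (univ.filter fun i => ω (r x) i ∈ S).card)
      ≤ Pr (fun ω : ι → Fin d → Fin n =>
        A.card * m ≤ (Q.filter fun q => ω q.1 q.2 ∈ S).card) := by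
    apply Pr_mono
    intro ω hω
    have e1 : (Q.filter fun q => ω q.1 q.2 ∈ S).card
        = ∑ x ∈ A, (univ.filter fun i => ω (r x) i ∈ S).card := by
      rw [hQ, Finset.card_filter, Finset.sum_product, Finset.sum_map]
      apply Finset.sum_congr rfl
      intro x _
      rw [Finset.card_filter]
      rfl
    rw [e1]
    calc A.card * m = ∑ x ∈ A, m := by rw [Finset.sum_const, smul_eq_mul]
      _ ≤ ∑ x ∈ A, (univ.filter fun i => ω (r x) i ∈ S).card := by
        apply Finset.sum_le_sum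
        intro x hx
        have := hω x hx
        omega
  have h2 := Pr_hits (ι := ι) (d := d) hn Q (fun _ => S) S.card (A.card * m) (fun _ _ => le_rfl)
  refine h1.trans (h2.trans ?_)
  have h3 : ((Q.card.choose (A.card * m) : ℕ) : ℝ) ≤ 4 ^ (A.card * m) := by
    have : Q.card.choose (A.card * m) ≤ 2 ^ Q.card := Nat.choose_le_two_pow _ _
    calc ((Q.card.choose (A.card * m) : ℕ) : ℝ) ≤ (2 : ℝ) ^ Q.card := by exact_mod_cast this
      _ = 2 ^ (A.card * d) := by rw [hQc]
      _ ≤ 2 ^ (2 * (A.card * m)) := by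
        apply pow_le_pow_right₀ (by norm_num)
        nlinarith [Nat.zero_le A.card, Nat.mul_le_mul_left A.card hm2]
      _ = 4 ^ (A.card * m) := by rw [pow_mul]; norm_num
  have h4 : ((S.card : ℝ) / n) ^ (A.card * m) ≤ (1 / 100 : ℝ) ^ (A.card * m) := by
    apply pow_le_pow_left₀ (by positivity)
    rw [div_le_iff₀ hn']
    exact hS
  calc ((Q.card.choose (A.card * m) : ℕ) : ℝ) * ((S.card : ℝ) / n) ^ (A.card * m)
      ≤ 4 ^ (A.card * m) * (1 / 100 : ℝ) ^ (A.card * m) := by
        apply mul_le_mul h3 h4 (by positivity) (by positivity)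
    _ = (1 / 5 : ℝ) ^ (2 * m * A.card) := by
        rw [← mul_pow, mul_assoc, mul_comm m, pow_mul (1 / 5 : ℝ) 2]; norm_num
    _ ≤ (1 / 5 : ℝ) ^ (d * A.card) := by
        apply pow_le_pow_of_le_one (by norm_num) (by norm_num)
        exact Nat.mul_le_mul_right _ hm2
    _ = ((1 / 5 : ℝ) ^ d) ^ A.card := by rw [pow_mul]

theorem pr_core {ι : Type*} [Fintype ι] {d n : ℕ} (hn : 0 < n) (r : Fin n → ι)
    (hr : Function.Injective r) (κ : ℝ) (hκ : κ ≤ 1 / 100)
    (he : (n : ℝ) ^ 10 * (1 / 5 : ℝ) ^ d ≤ 1) :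
    Pr (fun ω : ι → Fin d → Fin n => ∃ S : Finset (Fin n), (S.card : ℝ) ≤ κ * n ∧
        S.card < 9 * (univ.filter fun x : Fin n =>
          d ≤ 2 * (univ.filter fun i => ω (r x) i ∈ S).card).card)
      ≤ (n + 1 : ℕ) * ((n : ℝ) ^ 10 * (1 / 5 : ℝ) ^ d) := by
  have hn' : (0 : ℝ) < n := by exact_mod_cast hn
  have hn1 : (1 : ℝ) ≤ n := by exact_mod_cast hn
  set ε : ℝ := (1 / 5 : ℝ) ^ d with hε
  have hε0 : 0 ≤ ε := by positivity
  have h1 : Pr (fun ω : ι → Fin d → Fin n => ∃ S : Finset (Fin n), (S.card : ℝ) ≤ κ * n ∧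
        S.card < 9 * (univ.filter fun x : Fin n =>
          d ≤ 2 * (univ.filter fun i => ω (r x) i ∈ S).card).card)
      ≤ Pr (fun ω : ι → Fin d → Fin n => ∃ s ∈ range (n + 1),
          ∃ S ∈ powersetCard s (univ : Finset (Fin n)),
          ∃ A ∈ powersetCard (s / 9 + 1) (univ : Finset (Fin n)),
          (S.card : ℝ) ≤ 1 / 100 * n ∧ ∀ x ∈ A,
            d ≤ 2 * (univ.filter fun i => ω (r x) i ∈ S).card) := by
    apply Pr_mono
    rintro ω ⟨S, hS, hlt⟩
    have hSn : S.card ≤ n := by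
      simpa using Finset.card_le_univ S
    have hc : S.card / 9 + 1 ≤ (univ.filter fun x : Fin n =>
          d ≤ 2 * (univ.filter fun i => ω (r x) i ∈ S).card).card := by omega
    obtain ⟨A, hA, hAc⟩ := Finset.exists_subset_card_eq hc
    refine ⟨S.card, by simp; omega, S, by simp [mem_powersetCard], A, ?_, ?_, ?_⟩
    · simp [mem_powersetCard, hAc]
    · refine hS.trans ?_
      exact mul_le_mul_of_nonneg_right hκ hn'.le
    · intro x hx
      exact (mem_filter.1 (hA hx)).2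
  refine h1.trans ((Pr_exists_finset _ _).trans ?_)
  have h2 : ∀ s ∈ range (n + 1), Pr (fun ω : ι → Fin d → Fin n =>
          ∃ S ∈ powersetCard s (univ : Finset (Fin n)),
          ∃ A ∈ powersetCard (s / 9 + 1) (univ : Finset (Fin n)),
          (S.card : ℝ) ≤ 1 / 100 * n ∧ ∀ x ∈ A,
            d ≤ 2 * (univ.filter fun i => ω (r x) i ∈ S).card) ≤ (n : ℝ) ^ 10 * ε := by
    intro s _
    refine (Pr_exists_finset _ _).trans ?_
    have h3 : ∀ S ∈ powersetCard s (univ : Finset (Fin n)),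
        Pr (fun ω : ι → Fin d → Fin n =>
          ∃ A ∈ powersetCard (s / 9 + 1) (univ : Finset (Fin n)),
          (S.card : ℝ) ≤ 1 / 100 * n ∧ ∀ x ∈ A,
            d ≤ 2 * (univ.filter fun i => ω (r x) i ∈ S).card)
          ≤ (n : ℝ) ^ (s / 9 + 1) * ε ^ (s / 9 + 1) := by
      intro S _
      refine (Pr_exists_finset _ _).trans ?_
      have h4 : ∀ A ∈ powersetCard (s / 9 + 1) (univ : Finset (Fin n)),
          Pr (fun ω : ι → Fin d → Fin n =>
            (S.card : ℝ) ≤ 1 / 100 * n ∧ ∀ x ∈ A,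
              d ≤ 2 * (univ.filter fun i => ω (r x) i ∈ S).card) ≤ ε ^ (s / 9 + 1) := by
        intro A hA
        have hAc : A.card = s / 9 + 1 := (mem_powersetCard.1 hA).2
        by_cases hSc : (S.card : ℝ) ≤ 1 / 100 * n
        · refine (Pr_mono (fun ω hω => hω.2)).trans ?_
          have := pr_fix (d := d) hn r hr S A hSc
          rw [hAc] at this
          exact this
        · refine (Pr_mono (T := fun _ => False) (fun ω h => hSc h.1)).trans ?_
          have : Pr (fun _ : ι → Fin d → Fin n => False) = 0 := by simp [Pr]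
          rw [this]
          positivity
      refine (Finset.sum_le_sum h4).trans ?_
      rw [Finset.sum_const, Finset.card_powersetCard, Finset.card_univ, Fintype.card_fin,
        nsmul_eq_mul]
      apply mul_le_mul_of_nonneg_right _ (by positivity)
      exact_mod_cast Nat.choose_le_pow n (s / 9 + 1)
    refine (Finset.sum_le_sum h3).trans ?_
    rw [Finset.sum_const, Finset.card_powersetCard, Finset.card_univ, Fintype.card_fin,
      nsmul_eq_mul]
    have h5 : ((n.choose s : ℕ) : ℝ) ≤ (n : ℝ) ^ s := by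
      exact_mod_cast Nat.choose_le_pow n s
    calc ((n.choose s : ℕ) : ℝ) * ((n : ℝ) ^ (s / 9 + 1) * ε ^ (s / 9 + 1))
        ≤ (n : ℝ) ^ s * ((n : ℝ) ^ (s / 9 + 1) * ε ^ (s / 9 + 1)) := by
          apply mul_le_mul_of_nonneg_right h5 (by positivity)
      _ = (n : ℝ) ^ (s + (s / 9 + 1)) * ε ^ (s / 9 + 1) := by rw [pow_add]; ring
      _ ≤ (n : ℝ) ^ (10 * (s / 9 + 1)) * ε ^ (s / 9 + 1) := by
          apply mul_le_mul_of_nonneg_right _ (by positivity)
          apply pow_le_pow_right₀ hn1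
          omega
      _ = ((n : ℝ) ^ 10 * ε) ^ (s / 9 + 1) := by rw [pow_mul, ← mul_pow]
      _ ≤ ((n : ℝ) ^ 10 * ε) ^ 1 := by
          apply pow_le_pow_of_le_one (by positivity) he
          omega
      _ = (n : ℝ) ^ 10 * ε := pow_one _
  refine (Finset.sum_le_sum h2).trans ?_
  rw [Finset.sum_const, Finset.card_range, nsmul_eq_mul]

end ExpdP

/-- small set expansion -/
theorem pr_expd (c : PC) (q : Con) (hc : c.Ok q) : ∀ᶠ t in Filter.atTop,
    Pr (fun ω : Om (c.par t) => ¬ Expd q ω) ≤ 1 / (t : ℝ) ^ (5 * c.E) := by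
  -- growth
  have hlim : Filter.Tendsto (fun t : ℕ => (t : ℝ) ^ (16 * c.E) / (5 : ℝ) ^ t) Filter.atTop
      (nhds 0) := tendsto_pow_const_div_const_pow_of_one_lt _ (by norm_num)
  have hpos : (0 : ℝ) < 1 / (4 * (c.h + 1)) := by positivity
  have hev := (hlim.eventually (gt_mem_nhds hpos))
  filter_upwards [hev, Filter.eventually_ge_atTop 1] with t ht ht1
  have htr : (1 : ℝ) ≤ t := by exact_mod_cast ht1
  have ht0 : (0 : ℝ) < t := by linarith
  have h5 : (0 : ℝ) < (5 : ℝ) ^ t := by positivity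
  have hE1 : 1 ≤ c.E := by
    rw [hc.E]
    have : 0 < c.lam ^ (c.W - 1) := by
      apply pow_pos; rw [hc.lam]; norm_num
    have : 0 < c.lam ^ (c.W - 1) * (c.h + 2) := Nat.mul_pos this (by omega)
    omega
  have hD : 1 ≤ c.lam ^ (c.W - 1) := Nat.one_le_pow _ _ (by rw [hc.lam]; norm_num)
  have hnE : (c.par t).n = t ^ (c.E - 1) := rfl
  have hdE : (c.par t).d = t ^ (c.lam ^ (c.W - 1)) := rfl
  have hn : 0 < (c.par t).n := by rw [hnE]; positivity
  have hn1 : (1 : ℝ) ≤ ((c.par t).n : ℝ) := by exact_mod_cast hn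
  have hdt : t ≤ (c.par t).d := by
    rw [hdE]; exact Nat.le_self_pow (by omega) t
  have hnle : ((c.par t).n : ℝ) ≤ (t : ℝ) ^ c.E := by
    rw [hnE]; push_cast
    exact pow_le_pow_right₀ htr (by omega)
  set ε : ℝ := (1 / 5 : ℝ) ^ (c.par t).d with hε
  have hεt : ε ≤ 1 / (5 : ℝ) ^ t := by
    rw [hε, one_div_pow]
    apply one_div_le_one_div_of_le h5
    exact pow_le_pow_right₀ (by norm_num) hdt
  have hε0 : 0 ≤ ε := by positivity
  -- the key numerical bound
  have hkey : (t : ℝ) ^ (16 * c.E) * (4 * (c.h + 1)) ≤ (5 : ℝ) ^ t := by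
    have h1 : (t : ℝ) ^ (16 * c.E) / (5 : ℝ) ^ t < 1 / (4 * (c.h + 1)) := ht
    rw [div_lt_div_iff₀ h5 (by positivity)] at h1
    linarith
  have he : ((c.par t).n : ℝ) ^ 10 * ε ≤ 1 := by
    calc ((c.par t).n : ℝ) ^ 10 * ε ≤ ((t : ℝ) ^ c.E) ^ 10 * (1 / (5 : ℝ) ^ t) := by
          apply mul_le_mul (pow_le_pow_left₀ (by positivity) hnle _) hεt hε0 (by positivity)
      _ = (t : ℝ) ^ (c.E * 10) / (5 : ℝ) ^ t := by rw [← pow_mul]; ring
      _ ≤ 1 := by
          rw [div_le_one h5]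
          calc (t : ℝ) ^ (c.E * 10) ≤ (t : ℝ) ^ (16 * c.E) :=
                pow_le_pow_right₀ htr (by omega)
            _ ≤ (t : ℝ) ^ (16 * c.E) * (4 * (c.h + 1)) := by
                apply le_mul_of_one_le_right (by positivity)
                have : (0 : ℝ) ≤ c.h := by positivity
                linarith
            _ ≤ (5 : ℝ) ^ t := hkey
  have hinj1 : ∀ k : Fin (c.cst.h + 1),
      Function.Injective (fun x => (Row.fu k x : Row (c.par t))) := by
    intro k x y hxy
    simpa using hxy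
  have hinj2 : ∀ k : Fin (c.cst.h + 1),
      Function.Injective (fun x => (Row.fd k x : Row (c.par t))) := by
    intro k x y hxy
    simpa using hxy
  set B : ℝ := ((c.par t).n + 1 : ℕ) * (((c.par t).n : ℝ) ^ 10 * ε) with hB
  have hfu : ∀ k : Fin (c.cst.h + 1), Pr (fun ω : Om (c.par t) =>
      ∃ S : Finset (Fin (c.par t).n), (S.card : ℝ) ≤ q.kap * (c.par t).n ∧
        S.card < 9 * (univ.filter fun x : Fin (c.par t).n =>
          (c.par t).d ≤ 2 * (univ.filter fun i => ω (.fu k x) i ∈ S).card).card) ≤ B := by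
    intro k
    exact ExpdP.pr_core hn (fun x => (Row.fu k x : Row (c.par t))) (hinj1 k) q.kap hc.kap' he
  have hfd : ∀ k : Fin (c.cst.h + 1), Pr (fun ω : Om (c.par t) =>
      ∃ S : Finset (Fin (c.par t).n), (S.card : ℝ) ≤ q.kap * (c.par t).n ∧
        S.card < 9 * (univ.filter fun x : Fin (c.par t).n =>
          (c.par t).d ≤ 2 * (univ.filter fun i => ω (.fd k x) i ∈ S).card).card) ≤ B := by
    intro k
    exact ExpdP.pr_core hn (fun x => (Row.fd k x : Row (c.par t))) (hinj2 k) q.kap hc.kap' he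
  have hall : Pr (fun ω : Om (c.par t) => ¬ Expd q ω) ≤ (Fintype.card (Fin (c.cst.h + 1)) : ℝ) *
      (B + B) := by
    refine (Pr_mono (T := fun ω : Om (c.par t) => ∃ k : Fin (c.cst.h + 1),
      (∃ S : Finset (Fin (c.par t).n), (S.card : ℝ) ≤ q.kap * (c.par t).n ∧
        S.card < 9 * (univ.filter fun x : Fin (c.par t).n =>
          (c.par t).d ≤ 2 * (univ.filter fun i => ω (.fu k x) i ∈ S).card).card) ∨
      (∃ S : Finset (Fin (c.par t).n), (S.card : ℝ) ≤ q.kap * (c.par t).n ∧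
        S.card < 9 * (univ.filter fun x : Fin (c.par t).n =>
          (c.par t).d ≤ 2 * (univ.filter fun i => ω (.fd k x) i ∈ S).card).card)) ?_).trans ?_
    · intro ω hω
      unfold Expd at hω
      push Not at hω
      obtain ⟨k, S, hS, hω⟩ := hω
      refine ⟨k, ?_⟩
      by_cases h1 : 9 * (univ.filter fun x : Fin (c.par t).n =>
          (c.par t).d ≤ 2 * (univ.filter fun i => ω (.fu k x) i ∈ S).card).card ≤ S.card
      · right
        exact ⟨S, hS, hω h1⟩
      · left
        exact ⟨S, hS, not_le.1 h1⟩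
    · apply Pr_exists
      intro k
      refine (Pr_or _ _).trans ?_
      exact add_le_add (hfu k) (hfd k)
  refine hall.trans ?_
  rw [Fintype.card_fin]
  have hBle : B ≤ 2 * ((t : ℝ) ^ (11 * c.E) / (5 : ℝ) ^ t) := by
    have h1 : (((c.par t).n + 1 : ℕ) : ℝ) ≤ 2 * (t : ℝ) ^ c.E := by
      push_cast
      linarith
    calc B ≤ (2 * (t : ℝ) ^ c.E) * (((t : ℝ) ^ c.E) ^ 10 * (1 / (5 : ℝ) ^ t)) := by
          rw [hB]
          apply mul_le_mul h1 _ (by positivity) (by positivity)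
          apply mul_le_mul (pow_le_pow_left₀ (by positivity) hnle _) hεt hε0 (by positivity)
      _ = 2 * ((t : ℝ) ^ (11 * c.E) / (5 : ℝ) ^ t) := by
          rw [← pow_mul, show 11 * c.E = c.E + c.E * 10 by ring, pow_add]
          ring
  have hcst : c.cst.h = c.h := rfl
  calc ((c.cst.h + 1 : ℕ) : ℝ) * (B + B)
      ≤ ((c.h : ℝ) + 1) * (4 * ((t : ℝ) ^ (11 * c.E) / (5 : ℝ) ^ t)) := by
        rw [hcst]; push_cast
        apply mul_le_mul_of_nonneg_left _ (by positivity)
        linarith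
    _ = (t : ℝ) ^ (11 * c.E) * (4 * (c.h + 1)) / (5 : ℝ) ^ t := by ring
    _ ≤ 1 / (t : ℝ) ^ (5 * c.E) := by
        rw [div_le_div_iff₀ h5 (by positivity), one_mul]
        calc (t : ℝ) ^ (11 * c.E) * (4 * (c.h + 1)) * (t : ℝ) ^ (5 * c.E)
            = (t : ℝ) ^ (16 * c.E) * (4 * (c.h + 1)) := by
              rw [show 16 * c.E = 11 * c.E + 5 * c.E by ring, pow_add]; ring
          _ ≤ (5 : ℝ) ^ t := hkey

end Pool.Agent.AM
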