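import Pool.Agent.AM.Split
import Pool.Agent.AM.Sec5

set_option autoImplicit false

/-!
# MP_61102a_co, S09118 : a rigid block is a fence
-/

open scoped Classical
open Finset

noncomputable section

namespace Pool.Agent.AM.Fence

open TowOrd Split Sec5

variable {C : Cst} {q : Con} {par : ℕ → Par C} {le : ∀ m, Pt (par m) → Pt (par m) → Prop}

/-- every cell point lies between two frame points of its block -/
theorem between_frame {p : Par C} {lp : Pt p → Pt p → Prop} (hB : GoodBlk q p lp) (c : Cell p)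
    (e : CI p c.j) :
    (∃ v, lp (V p c.k.val v) (.ce c e)) ∧ ∃ v, lp (.ce c e) (V p (c.k.val + 2) v) := by
  obtain ⟨g, s, l⟩ := e
  obtain ⟨hl, hu⟩ := hB.a5 c
  obtain ⟨⟨vF, -, hvF⟩, -⟩ := hl g .F rfl
  obtain ⟨⟨vA, -, hvA⟩, -⟩ := hl g .A rfl
  obtain ⟨⟨wG, -, hwG⟩, -⟩ := hu g .G rfl
  obtain ⟨⟨wD, -, hwD⟩, -⟩ := hu g .D rfl
  have hAG : lp (.ce c (g, .A, l)) (.ce c (g, .G, l)) :=
    hB.ord.cell c _ _ (Or.inr ⟨rfl, rfl⟩)
  have hFG : lp (.ce c (g, .F, l)) (.ce c (g, .G, l)) :=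
    hB.ord.cell c _ _ (Or.inr ⟨rfl, rfl⟩)
  have hFD : lp (.ce c (g, .F, l)) (.ce c (g, .D, l)) :=
    hB.ord.cell c _ _ (Or.inr ⟨rfl, rfl⟩)
  cases s with
  | A => exact ⟨⟨vA, hvA l⟩, wG, hB.ord.trans _ _ _ hAG (hwG l)⟩
  | F => exact ⟨⟨vF, hvF l⟩, wG, hB.ord.trans _ _ _ hFG (hwG l)⟩
  | G => exact ⟨⟨vF, hB.ord.trans _ _ _ (hvF l) hFG⟩, wG, hwG l⟩
  | D => exact ⟨⟨vF, hB.ord.trans _ _ _ (hvF l) hFD⟩, wD, hwD l⟩

/-- **a rigid block is a fence** -/
theorem fences_of_rigid {lo hi m : ℕ} {f : TP par → TP par} (hB : GoodBlk q (par m) (le m))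
    (hkap0 : 0 ≤ q.kap) (hkap : q.kap ≤ 1 / 100) (hf : f ∈ EndSet le lo hi True)
    (h1 : lo ≤ m) (h2 : m ≤ hi) (hr : Rigid f m) : Fences lo hi f m := by
  refine ⟨?_, ?_, ?_⟩
  · intro x
    cases x with
    | fr k v =>
        have h3 : (.pt m (.fr k v) : TP par) = TV par m k.val v := by
          simp [TV, V]
        refine ⟨.fr k v, ?_⟩
        rw [h3]
        exact hr k.val (by omega) v
    | ce c e =>
        obtain ⟨⟨v, hv⟩, w, hw⟩ := between_frame hB c e
        have hck : c.k.val < C.h := c.k.2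
        have hv1 : TLe le (TV par m c.k.val v) (.pt m (.ce c e)) := TLe.eq hv
        have hw1 : TLe le (.pt m (.ce c e)) (TV par m (c.k.val + 2) w) := TLe.eq hw
        have hin : ∀ x : Pt (par m), inT par lo hi True (.pt m x) := fun x => ⟨h1, h2⟩
        have hv2 : TLe le (f (TV par m c.k.val v)) (f (.pt m (.ce c e))) :=
          hf.1.mono _ _ (hin _) (hin _) hv1
        have hw2 : TLe le (f (.pt m (.ce c e))) (f (TV par m (c.k.val + 2) w)) :=
          hf.1.mono _ _ (hin _) (hin _) hw1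
        rw [hr c.k.val (by omega) v] at hv2
        rw [hr (c.k.val + 2) (by omega) w] at hw2
        cases hh : f (.pt m (.ce c e)) with
        | top =>
            rw [hh] at hw2
            exact absurd hw2 TLe.not_top_pt
        | pt m' y =>
            rw [hh] at hw2 hv2
            have h3 := TLe.idx_le hv2
            have h4 := TLe.idx_le hw2
            have h5 : m' = m := le_antisymm h3 h4
            subst h5
            exact ⟨y, rfl⟩
  · intro z hz hb
    exact above_of_rigid hB hkap0 hkap hf.1 ⟨h1, h2⟩ hr hz hb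
  · intro z hz hb
    exact below_of_rigid hB hkap0 hkap hf.1 ⟨h1, h2⟩ hr hz hb

end Pool.Agent.AM.Fence
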