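import Pool.Agent.AM.Defs2

set_option autoImplicit false

/-!
# Section 7 (7A): fibration over the restriction to the frames and the top
-/

open scoped Classical
open Finset

noncomputable section

namespace Pool.Agent.AM

variable {C : Cst} {par : ℕ → Par C}

/-- the part of the tower as a finite set -/
def partF (par : ℕ → Par C) (lo hi : ℕ) (b : Prop) : Finset (TP par) :=
  (if b then {TP.top} else ∅) ∪
    (Icc lo hi).biUnion fun m => (univ : Finset (Pt (par m))).image (TP.pt m)

lemma mem_partF {lo hi : ℕ} {b : Prop} {x : TP par} :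
    x ∈ partF par lo hi b ↔ inT par lo hi b x := by
  unfold partF
  cases x with
  | top =>
    by_cases hb : b
    · simp [inT, hb]
    · simp [inT, hb]
  | pt m y =>
    by_cases hb : b
    · simp [inT, hb]
    · simp [inT, hb]

lemma card_partF_le (par : ℕ → Par C) (lo hi : ℕ) (b : Prop) :
    (partF par lo hi b).card ≤ cardT par lo hi := by
  unfold partF cardT
  refine (Finset.card_union_le _ _).trans ?_
  have h1 : (if b then ({TP.top} : Finset (TP par)) else ∅).card ≤ 1 := by
    split_ifs
    · simp
    · simp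
  have h2 : ((Icc lo hi).biUnion fun m => (univ : Finset (Pt (par m))).image (TP.pt m)).card ≤
      ∑ m ∈ Icc lo hi, Fintype.card (Pt (par m)) := by
    refine Finset.card_biUnion_le.trans (Finset.sum_le_sum fun m _ => ?_)
    exact Finset.card_image_le.trans (by rw [Finset.card_univ])
  omega

lemma EndSet_finite (le : ∀ m, Pt (par m) → Pt (par m) → Prop) (lo hi : ℕ) (b : Prop) :
    (EndSet le lo hi b).Finite := by
  set ρ : (TP par → TP par) → ({x // x ∈ partF par lo hi b} → TP par) := fun f x => f x.1 with hρ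
  have hinj : Set.InjOn ρ (EndSet le lo hi b) := by
    intro f hf g hg hfg
    funext x
    by_cases hx : inT par lo hi b x
    · exact congrFun hfg ⟨x, mem_partF.2 hx⟩
    · rw [hf.2 x hx, hg.2 x hx]
  refine Set.Finite.of_finite_image ?_ hinj
  refine Set.Finite.subset (Set.Finite.pi' fun _ => (partF par lo hi b).finite_toSet) ?_
  rintro _ ⟨f, hf, rfl⟩
  intro x
  exact mem_partF.2 (hf.1.maps x.1 (mem_partF.1 x.2))

lemma Ext_finite (le : ∀ m, Pt (par m) → Pt (par m) → Prop) (lo hi : ℕ) (b : Prop)
    (F : Set (TP par → TP par)) (hF : F ⊆ EndSet le lo hi b) (f0 : TP par → TP par) (m : ℕ)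
    (c : Cell (par m)) : (Ext lo hi b F f0 m c).Finite := by
  have hfin : F.Finite := (EndSet_finite le lo hi b).subset hF
  refine (hfin.image fun f => resC f m c).subset ?_
  rintro h ⟨f, hf, -, rfl⟩
  exact ⟨f, hf, rfl⟩

/-- the index set of the frame points of the part -/
abbrev FrI (par : ℕ → Par C) (lo hi : ℕ) : Type :=
  Σ m : {m // m ∈ Icc lo hi}, Fin (C.h + 2) × Fin (par m.1).n

lemma card_FrI (par : ℕ → Par C) (lo hi : ℕ) :
    Fintype.card (FrI par lo hi) = ∑ m ∈ Icc lo hi, (C.h + 2) * (par m).n := by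
  rw [Fintype.card_sigma]
  simp only [Fintype.card_prod, Fintype.card_fin]
  exact Finset.sum_coe_sort (Icc lo hi) fun m => (C.h + 2) * (par m).n

/-- **(7A)** with bounds for the single cells -/
theorem fib_card (le : ∀ m, Pt (par m) → Pt (par m) → Prop) (lo hi : ℕ) (b : Prop)
    (F : Set (TP par → TP par)) (hF : F ⊆ EndSet le lo hi b) (M : ℝ) (hM0 : 0 ≤ M)
    (hM : ∀ f0 ∈ F, ∏ m ∈ Icc lo hi, ∏ c : Cell (par m),
      ((Ext lo hi b F f0 m c).ncard : ℝ) ≤ M) :
    (F.ncard : ℝ) ≤ (cardT par lo hi : ℝ) ^ (cardF par lo hi) * M := by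
  have hfin : F.Finite := (EndSet_finite le lo hi b).subset hF
  set G := hfin.toFinset with hG
  have hGm : ∀ f, f ∈ G ↔ f ∈ F := by
    intro f
    rw [hG, Set.Finite.mem_toFinset]
  have hcard : F.ncard = G.card := by
    rw [hG, Set.ncard_eq_toFinset_card F hfin]
  have hNX1 : (1 : ℝ) ≤ cardT par lo hi := by
    have : 1 ≤ cardT par lo hi := by unfold cardT; omega
    exact_mod_cast this
  have hNX : ((partF par lo hi b).card : ℝ) ≤ cardT par lo hi := by
    exact_mod_cast card_partF_le par lo hi b
  -- restriction to the frames and the top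
  set σ : (TP par → TP par) → (Option (FrI par lo hi) → TP par) := fun f i =>
    match i with
    | none => f .top
    | some i => f (.pt i.1.1 (.fr i.2.1 i.2.2)) with hσ
  have hσn : ∀ f, σ f none = f .top := fun f => rfl
  have hσs : ∀ f i, σ f (some i) = f (.pt i.1.1 (.fr i.2.1 i.2.2)) := fun f i => rfl
  -- the image is small
  have himg : ((G.image σ).card : ℝ) ≤ (cardT par lo hi : ℝ) ^ (cardF par lo hi) := by
    have hsub : G.image σ ⊆ Fintype.piFinset fun i : Option (FrI par lo hi) =>
        (match i with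
          | none => if b then partF par lo hi b else {TP.top}
          | some _ => partF par lo hi b) := by
      intro s hs
      rw [Finset.mem_image] at hs
      obtain ⟨f, hf, rfl⟩ := hs
      have hfE := hF ((hGm f).1 hf)
      rw [Fintype.mem_piFinset]
      intro i
      cases i with
      | none =>
        rw [hσn]
        by_cases hb : b
        · simp only [hb, if_true]
          have := hfE.1.maps TP.top (by simpa [inT] using hb)
          rw [mem_partF]
          simpa [hb] using this
        · simp only [hb, if_false, Finset.mem_singleton]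
          exact hfE.2 TP.top (by simpa [inT] using hb)
      | some i =>
        rw [hσs]
        simp only
        rw [mem_partF]
        apply hfE.1.maps
        have := i.1.2
        rw [Finset.mem_Icc] at this
        exact this
    have h1 := Finset.card_le_card hsub
    rw [Fintype.card_piFinset, Fintype.prod_option] at h1
    simp only [Finset.prod_const, Finset.card_univ] at h1
    rw [card_FrI] at h1
    have h2 : ((if b then partF par lo hi b else {TP.top}).card : ℝ) ≤ cardT par lo hi := by
      by_cases hb : b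
      · rw [if_pos hb]
        exact hNX
      · rw [if_neg hb]
        simpa using hNX1
    have h3 : (((G.image σ).card : ℕ) : ℝ) ≤
        ((if b then partF par lo hi b else {TP.top}).card : ℝ) *
          ((partF par lo hi b).card : ℝ) ^ (∑ m ∈ Icc lo hi, (C.h + 2) * (par m).n) := by
      exact_mod_cast h1
    refine h3.trans ?_
    rw [show cardF par lo hi = 1 + ∑ m ∈ Icc lo hi, (C.h + 2) * (par m).n from rfl, pow_add,
      pow_one]
    have h4 : ((partF par lo hi b).card : ℝ) ^ (∑ m ∈ Icc lo hi, (C.h + 2) * (par m).n) ≤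
        (cardT par lo hi : ℝ) ^ (∑ m ∈ Icc lo hi, (C.h + 2) * (par m).n) :=
      pow_le_pow_left₀ (by positivity) hNX _
    exact mul_le_mul h2 h4 (by positivity) (by positivity)
  -- the fibres
  have hfib : ∀ s ∈ G.image σ, (((G.filter fun f => σ f = s).card : ℕ) : ℝ) ≤ M := by
    intro s hs
    rw [Finset.mem_image] at hs
    obtain ⟨f0, hf0, rfl⟩ := hs
    have hf0F := (hGm f0).1 hf0
    refine le_trans ?_ (hM f0 hf0F)
    -- same skeleton
    have hsame : ∀ f ∈ G.filter (fun f => σ f = σ f0), f ∈ F ∧ SkEq lo hi b f0 f := by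
      intro f hf
      rw [Finset.mem_filter] at hf
      have hfF := (hGm f).1 hf.1
      refine ⟨hfF, ?_, ?_⟩
      · intro m k v hlo hhi _
        have := congrFun hf.2 (some ⟨⟨m, Finset.mem_Icc.2 ⟨hlo, hhi⟩⟩, (Fin.ofNat (C.h + 2) k, v)⟩)
        exact this.symm
      · intro _
        exact (congrFun hf.2 none).symm
    have hExtfin := Ext_finite le lo hi b F hF f0
    set κ : (TP par → TP par) →
        ((i : Σ m : {m // m ∈ Icc lo hi}, Cell (par m.1)) → (CI (par i.1.1) i.2.j → TP par)) :=
      fun f i => resC f i.1.1 i.2 with hκ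
    have hκinj : Set.InjOn κ (↑(G.filter fun f => σ f = σ f0) : Set (TP par → TP par)) := by
      intro f hf g hg hfg
      have hf' := Finset.mem_filter.1 hf
      have hg' := Finset.mem_filter.1 hg
      have hfF := (hGm f).1 hf'.1
      have hgF := (hGm g).1 hg'.1
      have hσfg : σ f = σ g := hf'.2.trans hg'.2.symm
      funext x
      cases x with
      | top => exact congrFun hσfg none
      | pt m y =>
        by_cases hm : lo ≤ m ∧ m ≤ hi
        · cases y with
          | fr k v => exact congrFun hσfg (some ⟨⟨m, Finset.mem_Icc.2 hm⟩, (k, v)⟩)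
          | ce c e =>
            have := congrFun hfg ⟨⟨m, Finset.mem_Icc.2 hm⟩, c⟩
            exact congrFun this e
        · have h1 : ¬ inT par lo hi b (TP.pt m y) := hm
          rw [(hF hfF).2 _ h1, (hF hgF).2 _ h1]
    have hκsub : (G.filter fun f => σ f = σ f0).image κ ⊆
        Fintype.piFinset fun i : Σ m : {m // m ∈ Icc lo hi}, Cell (par m.1) =>
          (hExtfin i.1.1 i.2).toFinset := by
      intro g hg
      rw [Finset.mem_image] at hg
      obtain ⟨f, hf, rfl⟩ := hg
      rw [Fintype.mem_piFinset]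
      intro i
      rw [Set.Finite.mem_toFinset]
      exact ⟨f, (hsame f hf).1, (hsame f hf).2, rfl⟩
    have h1 : (G.filter fun f => σ f = σ f0).card ≤
        ∏ i : Σ m : {m // m ∈ Icc lo hi}, Cell (par m.1),
          (Ext lo hi b F f0 i.1.1 i.2).ncard := by
      rw [← Finset.card_image_of_injOn hκinj]
      refine (Finset.card_le_card hκsub).trans ?_
      rw [Fintype.card_piFinset]
      apply le_of_eq
      refine Finset.prod_congr rfl fun i _ => ?_
      rw [Set.ncard_eq_toFinset_card _ (hExtfin i.1.1 i.2)]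
    have h2 : (((G.filter fun f => σ f = σ f0).card : ℕ) : ℝ) ≤
        ∏ i : Σ m : {m // m ∈ Icc lo hi}, Cell (par m.1),
          ((Ext lo hi b F f0 i.1.1 i.2).ncard : ℝ) := by
      exact_mod_cast h1
    refine h2.trans (le_of_eq ?_)
    rw [Fintype.prod_sigma]
    exact Finset.prod_coe_sort (Icc lo hi) fun m =>
      ∏ c : Cell (par m), ((Ext lo hi b F f0 m c).ncard : ℝ)
  have hsum : (G.card : ℝ) = ∑ s ∈ G.image σ, (((G.filter fun f => σ f = s).card : ℕ) : ℝ) := by
    have := Finset.card_eq_sum_card_image σ G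
    exact_mod_cast this
  rw [hcard]
  calc (G.card : ℝ) = ∑ s ∈ G.image σ, (((G.filter fun f => σ f = s).card : ℕ) : ℝ) := hsum
    _ ≤ ∑ _s ∈ G.image σ, M := Finset.sum_le_sum hfib
    _ = (G.image σ).card * M := by rw [Finset.sum_const, nsmul_eq_mul]
    _ ≤ (cardT par lo hi : ℝ) ^ (cardF par lo hi) * M :=
        mul_le_mul_of_nonneg_right himg hM0

/-- sum over the cells of a block = sum over levels, classes and numbers -/
lemma sum_cell (p : Par C) (g : Cell p → ℝ) :
    ∑ c : Cell p, g c = ∑ k : Fin C.h, ∑ j : Fin C.W, ∑ c : Fin (p.N j), g ⟨k, j, c⟩ := by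
  rw [← Equiv.sum_comp (cellEquiv p).symm g, Fintype.sum_sigma]
  rw [Finset.sum_comm]
  refine Finset.sum_congr rfl fun j _ => ?_
  rw [Fintype.sum_prod_type]
  rfl

/-- **(7A)** -/
theorem fib_LS (le : ∀ m, Pt (par m) → Pt (par m) → Prop) (lo hi : ℕ) (b : Prop)
    (F : Set (TP par → TP par)) (hF : F ⊆ EndSet le lo hi b) (S : ℝ)
    (hS : ∀ f0 ∈ F, ∑ m ∈ Icc lo hi, ∑ k : Fin C.h, LS lo hi b F f0 m k ≤ S) :
    (F.ncard : ℝ) ≤ (cardT par lo hi : ℝ) ^ (cardF par lo hi) * Real.exp S := by
  apply fib_card le lo hi b F hF (Real.exp S) (Real.exp_pos S).le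
  intro f0 hf0
  refine le_trans (le_of_eq ?_) (Real.exp_le_exp.2 (hS f0 hf0))
  rw [Real.exp_sum]
  refine Finset.prod_congr rfl fun m _ => ?_
  have h1 : ∑ k : Fin C.h, LS lo hi b F f0 m k =
      ∑ c : Cell (par m), Real.log ((Ext lo hi b F f0 m c).ncard : ℝ) := by
    rw [sum_cell]
    rfl
  rw [h1, Real.exp_sum]
  refine Finset.prod_congr rfl fun c _ => ?_
  rw [Real.exp_log]
  have h2 : 0 < (Ext lo hi b F f0 m c).ncard := by
    rw [Set.ncard_pos (Ext_finite le lo hi b F hF f0 m c)]
    exact ⟨resC f0 m c, f0, hf0, ⟨fun _ _ _ _ _ _ => rfl, fun _ => rfl⟩, rfl⟩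
  exact_mod_cast h2

end Pool.Agent.AM
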