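import Mathlib

/-!
# The recursion over the tower (abstract form)

`E M` = number of endomorphisms of (TOP ⊕ the `M` highest blocks), `w μ M` = number of
endomorphisms of the tower of the blocks `μ, ..., M` without rigid block, `wt M` = the same for
TOP ⊕ blocks `0, ..., M`.
-/

namespace Pool.Agent.AM.Rec

open Finset

/-- sum of a geometric progression starting at `1`, indexed from the top -/
lemma geom_le (g : ℝ) (h0 : 0 ≤ g) (h1 : g ≤ 1 / 2) (M : ℕ) :
    ∑ μ ∈ range (M + 1), g ^ (M + 1 - μ) ≤ 2 * g := by
  have h2 : ∑ μ ∈ range (M + 1), g ^ (M + 1 - μ) = ∑ i ∈ range (M + 1), g ^ (i + 1) := by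
    rw [← Finset.sum_range_reflect]
    apply Finset.sum_congr rfl
    intro j hj
    rw [Finset.mem_range] at hj
    congr 1
    omega
  rw [h2]
  have h3 : ∀ n : ℕ, ∑ i ∈ range n, g ^ (i + 1) ≤ 2 * g - 2 * g ^ (n + 1) := by
    intro n
    induction n with
    | zero => simp
    | succ n ih =>
      rw [Finset.sum_range_succ]
      have h4 : 0 ≤ g ^ (n + 1) := pow_nonneg h0 _
      have h5 : g ^ (n + 1 + 1) = g ^ (n + 1) * g := pow_succ _ _
      have h6 : g ^ (n + 1) * g ≤ g ^ (n + 1) * (1 / 2) := mul_le_mul_of_nonneg_left h1 h4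
      linarith
  have h4 : 0 ≤ g ^ (M + 1 + 1) := pow_nonneg h0 _
  linarith [h3 (M + 1)]

/-- **The recursion.** -/
theorem rec_bound (n : ℕ) (A g E : ℕ → ℝ) (w : ℕ → ℕ → ℝ) (wt : ℕ → ℝ) (C1 S : ℝ)
    (hA : ∀ m, 1 ≤ A m) (hE0 : ∀ m, 0 ≤ E m) (h0 : E 0 ≤ C1) (h1 : E 1 ≤ C1)
    (hg0 : ∀ m, 0 ≤ g m) (hg : ∀ m, g m ≤ 1 / 2)
    (hrec : ∀ M, 1 ≤ M → M < n →
      E (M + 1) ≤ A M * E M + ∑ μ ∈ range (M + 1), E μ * w μ M + wt M)
    (hw : ∀ M, 1 ≤ M → M < n → ∀ μ, μ ≤ M →
      w μ M ≤ g M ^ (M + 1 - μ) * ∏ m ∈ Ico μ (M + 1), A m)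
    (hwt : ∀ M, 1 ≤ M → M < n → wt M ≤ g M * ∏ m ∈ range (M + 1), A m)
    (hS : ∑ m ∈ range n, g m ≤ S) :
    E n ≤ (C1 + 1) * Real.exp (2 * S) * ∏ m ∈ range n, A m := by
  have hC1 : 0 ≤ C1 := (hE0 0).trans h0
  have hP : ∀ M, 1 ≤ ∏ m ∈ range M, A m := by
    intro M
    induction M with
    | zero => simp
    | succ M ih =>
      rw [Finset.prod_range_succ]
      nlinarith [hA M]
  -- the main claim by strong induction
  have key : ∀ M, M ≤ n → ∀ k, k ≤ M →
      E k ≤ ((C1 + 1) * ∏ m ∈ range M, (1 + 2 * g m) - 1) * ∏ m ∈ range k, A m := by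
    intro M
    induction M with
    | zero =>
      intro _ k hk
      obtain rfl : k = 0 := by omega
      simp only [range_zero, prod_empty, mul_one]
      linarith
    | succ M ih =>
      intro hMn k hk
      have ih' := ih (by omega)
      have hg' : 0 ≤ g M := hg0 M
      have hQ : ∀ j, 1 ≤ ∏ m ∈ range j, (1 + 2 * g m) := by
        intro j
        induction j with
        | zero => simp
        | succ j ihj =>
          rw [Finset.prod_range_succ]
          have := hg0 j
          nlinarith
      have hQM := hQ M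
      set Q := ∏ m ∈ range M, (1 + 2 * g m) with hQdef
      have hQs : ∏ m ∈ range (M + 1), (1 + 2 * g m) = Q * (1 + 2 * g M) := by
        rw [Finset.prod_range_succ]
      rw [hQs]
      rcases Nat.lt_or_ge k (M + 1) with hlt | hge
      · -- old index
        have h2 := ih' k (by omega)
        refine h2.trans (mul_le_mul_of_nonneg_right ?_ (by linarith [hP k]))
        have : (C1 + 1) * Q ≤ (C1 + 1) * (Q * (1 + 2 * g M)) := by
          apply mul_le_mul_of_nonneg_left _ (by linarith)
          nlinarith
        linarith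
      · obtain rfl : k = M + 1 := by omega
        rcases Nat.eq_zero_or_pos M with rfl | hM
        · -- k = 1
          have hB : (1:ℝ) * C1 ≤ ((C1 + 1) * (Q * (1 + 2 * g 0)) - 1) := by
            have : (C1 + 1) * 1 ≤ (C1 + 1) * (Q * (1 + 2 * g 0)) := by
              apply mul_le_mul_of_nonneg_left _ (by linarith)
              nlinarith
            linarith
          calc E (0 + 1) ≤ C1 := h1
            _ ≤ ((C1 + 1) * (Q * (1 + 2 * g 0)) - 1) * 1 := by linarith
            _ ≤ ((C1 + 1) * (Q * (1 + 2 * g 0)) - 1) * ∏ m ∈ range (0 + 1), A m := by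
                apply mul_le_mul_of_nonneg_left (hP _)
                linarith
        · have hr := hrec M hM (by omega)
          set B := (C1 + 1) * Q - 1 with hB
          have hB0 : 0 ≤ B := by
            have : (C1 + 1) * 1 ≤ (C1 + 1) * Q :=
              mul_le_mul_of_nonneg_left hQM (by linarith)
            rw [hB]
            linarith
          set PM := ∏ m ∈ range (M + 1), A m with hPM
          have hPM1 : 1 ≤ PM := hP _
          -- first term
          have ht1 : A M * E M ≤ B * PM := by
            have h3 := ih' M le_rfl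
            calc A M * E M ≤ A M * (B * ∏ m ∈ range M, A m) :=
                  mul_le_mul_of_nonneg_left h3 (by linarith [hA M])
              _ = B * PM := by
                  rw [hPM, Finset.prod_range_succ]
                  ring
          -- the sum
          have ht2 : ∑ μ ∈ range (M + 1), E μ * w μ M ≤ (2 * g M) * (B * PM) := by
            have h4 : ∀ μ ∈ range (M + 1), E μ * w μ M ≤ g M ^ (M + 1 - μ) * (B * PM) := by
              intro μ hμ
              rw [Finset.mem_range] at hμ
              have h5 := ih' μ (by omega)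
              have h6 := hw M hM (by omega) μ (by omega)
              have h7 : (∏ m ∈ range μ, A m) * ∏ m ∈ Ico μ (M + 1), A m = PM :=
                Finset.prod_range_mul_prod_Ico _ (by omega)
              have h8 : 0 ≤ g M ^ (M + 1 - μ) := pow_nonneg hg' _
              have h9 : 0 ≤ ∏ m ∈ Ico μ (M + 1), A m :=
                Finset.prod_nonneg fun m _ => by linarith [hA m]
              calc E μ * w μ M
                  ≤ E μ * (g M ^ (M + 1 - μ) * ∏ m ∈ Ico μ (M + 1), A m) :=
                    mul_le_mul_of_nonneg_left h6 (hE0 μ)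
                _ ≤ (B * ∏ m ∈ range μ, A m) * (g M ^ (M + 1 - μ) * ∏ m ∈ Ico μ (M + 1), A m) :=
                    mul_le_mul_of_nonneg_right h5 (mul_nonneg h8 h9)
                _ = g M ^ (M + 1 - μ) * (B * ((∏ m ∈ range μ, A m) * ∏ m ∈ Ico μ (M + 1), A m)) := by
                    ring
                _ = g M ^ (M + 1 - μ) * (B * PM) := by rw [h7]
            calc ∑ μ ∈ range (M + 1), E μ * w μ M
                ≤ ∑ μ ∈ range (M + 1), g M ^ (M + 1 - μ) * (B * PM) := Finset.sum_le_sum h4
              _ = (∑ μ ∈ range (M + 1), g M ^ (M + 1 - μ)) * (B * PM) := by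
                  rw [Finset.sum_mul]
              _ ≤ (2 * g M) * (B * PM) :=
                  mul_le_mul_of_nonneg_right (geom_le _ hg' (hg M) M) (by positivity)
          have ht3 := hwt M hM (by omega)
          have hfin : B * PM + (2 * g M) * (B * PM) + g M * PM ≤
              ((C1 + 1) * (Q * (1 + 2 * g M)) - 1) * PM := by
            have h10 : (C1 + 1) * (Q * (1 + 2 * g M)) - 1 = B + 2 * g M * (B + 1) := by
              rw [hB]
              ring
            rw [h10]
            have h11 : 0 ≤ g M * PM := by positivity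
            nlinarith
          linarith
  have hfinal := key n le_rfl n le_rfl
  have hexp : ∏ m ∈ range n, (1 + 2 * g m) ≤ Real.exp (2 * S) := by
    calc ∏ m ∈ range n, (1 + 2 * g m) ≤ ∏ m ∈ range n, Real.exp (2 * g m) := by
          apply Finset.prod_le_prod
          · intro m _
            have := hg0 m
            positivity
          · intro m _
            linarith [Real.add_one_le_exp (2 * g m)]
      _ = Real.exp (∑ m ∈ range n, 2 * g m) := by rw [Real.exp_sum]
      _ ≤ Real.exp (2 * S) := by
          apply Real.exp_le_exp.2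
          rw [← Finset.mul_sum]
          linarith
  refine hfinal.trans (mul_le_mul_of_nonneg_right ?_ (by linarith [hP n]))
  have h12 : (C1 + 1) * ∏ m ∈ range n, (1 + 2 * g m) ≤ (C1 + 1) * Real.exp (2 * S) :=
    mul_le_mul_of_nonneg_left hexp (by linarith)
  linarith

end Pool.Agent.AM.Rec
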