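import Pool.Agent.AM.Split
import Pool.Agent.AM.AutLow
import Pool.Agent.AC33.Gadget

set_option autoImplicit false

/-!
# MP_61102a_co, S09118 : a rigid block has at most `aR` restrictions
-/

open scoped Classical
open Finset

noncomputable section

namespace Pool.Agent.AM.RigC

open TowOrd Split AutLow

variable {C : Cst}

/-- the partial order on the points of a block -/
@[reducible]
def blkPO {p : Par C} {lp : Pt p → Pt p → Prop} (hO : BlkOrd lp) : PartialOrder (Pt p) where
  le := lp
  le_refl := hO.refl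
  le_trans := hO.trans
  le_antisymm := hO.antisymm

theorem cell_le_iff {p : Par C} {lp : Pt p → Pt p → Prop} (hO : BlkOrd lp) (c : Cell p)
    (a b : CI p c.j) : lp (.ce c a) (.ce c b) ↔ a = b ∨ CLt a b := by
  constructor
  · intro h
    rcases hO.same _ _ h rfl with h1 | ⟨c', a', b', h1, h2, h3⟩
    · simp only [Pt.ce.injEq, heq_eq_eq, true_and] at h1
      exact Or.inl h1
    · simp only [Pt.ce.injEq] at h1 h2
      obtain ⟨rfl, h1⟩ := h1
      obtain ⟨-, h2⟩ := h2
      have e1 := eq_of_heq h1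
      have e2 := eq_of_heq h2
      subst e1 e2
      exact Or.inr h3
  · rintro (rfl | h)
    · exact hO.refl _
    · exact hO.cell c a b h

/-- points between two points of a cell lie in the cell -/
theorem between {p : Par C} {lp : Pt p → Pt p → Prop} (hO : BlkOrd lp) (c : Cell p)
    (a b : CI p c.j) (x : Pt p) (h1 : lp (.ce c a) x) (h2 : lp x (.ce c b)) :
    ∃ e, x = .ce c e ∧ (a = e ∨ CLt a e) ∧ (e = b ∨ CLt e b) := by
  have l1 := hO.lev_mono _ _ h1
  have l2 := hO.lev_mono _ _ h2
  have l3 : lev (.ce c a : Pt p) = lev (.ce c b : Pt p) := rfl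
  have l4 : lev (.ce c a : Pt p) = lev x := le_antisymm l1 (l3 ▸ l2)
  rcases hO.same _ _ h1 l4 with h | ⟨c', a', b', e1, e2, e3⟩
  · refine ⟨a, h.symm, Or.inl rfl, ?_⟩
    rw [← h] at h2
    exact (cell_le_iff hO c a b).1 h2
  · simp only [Pt.ce.injEq] at e1
    obtain ⟨rfl, e1⟩ := e1
    have e1 := eq_of_heq e1
    subst e1
    refine ⟨b', e2, Or.inr e3, ?_⟩
    rw [e2] at h2
    exact (cell_le_iff hO c b' b).1 h2

/-- the four sorts of a gadget form a gadget in the abstract sense -/
theorem isGadget {p : Par C} {lp : Pt p → Pt p → Prop} (hO : BlkOrd lp) (c : Cell p)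
    (g : Fin (C.K c.j)) :
    letI := blkPO hO
    AC33.IsGadget (fun l => (Pt.ce c (g, Srt.A, l) : Pt p)) (fun l => .ce c (g, Srt.F, l))
      (fun l => .ce c (g, Srt.G, l)) (fun l => .ce c (g, Srt.D, l)) := by
  let _ := blkPO hO
  have key : ∀ (s s' : Srt) (l l' : Fin (p.T c.j)),
      @LE.le (Pt p) _ (.ce c (g, s, l)) (.ce c (g, s', l')) ↔
        (s = s' ∧ l = l') ∨ GLt s l s' l' := by
    intro s s' l l'
    change lp _ _ ↔ _
    rw [cell_le_iff hO]
    constructor
    · rintro (h | h)
      · simp only [Prod.mk.injEq, true_and] at h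
        exact Or.inl h
      · rcases h with h | ⟨-, h⟩
        · exact absurd h (lt_irrefl _)
        · exact Or.inr h
    · rintro (⟨rfl, rfl⟩ | h)
      · exact Or.inl rfl
      · exact Or.inr (Or.inr ⟨rfl, h⟩)
  have btw : ∀ (s s' : Srt) (l l' : Fin (p.T c.j)) (x : Pt p), s.up = false → s'.up = true →
      @LE.le (Pt p) _ (.ce c (g, s, l)) x → @LE.le (Pt p) _ x (.ce c (g, s', l')) →
      x = .ce c (g, s, l) ∨ x = .ce c (g, s', l') := by
    intro s s' l l' x hs hs' h1 h2
    obtain ⟨e, rfl, h3, h4⟩ := between hO c _ _ x h1 h2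
    rcases h3 with h3 | h3
    · left
      rw [← h3]
    rcases h4 with h4 | h4
    · right
      rw [h4]
    exfalso
    obtain ⟨g1, s1, l1⟩ := e
    have h5 : g1 = g := by
      rcases h3 with h3 | ⟨h3, -⟩
      · rcases h4 with h4 | ⟨h4, -⟩
        · exact absurd (h3.trans h4) (lt_irrefl _)
        · exact h4
      · exact h3.symm
    subst h5
    rcases h3 with h3 | ⟨-, h3⟩
    · exact absurd h3 (lt_irrefl _)
    rcases h4 with h4 | ⟨-, h4⟩
    · exact absurd h4 (lt_irrefl _)
    cases s <;> cases s' <;> cases s1 <;> simp_all [GLt, Srt.up]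
  constructor
  · intro l m
    rw [key]
    simp [GLt]
  · intro l m
    rw [key]
    simp [GLt]
  · intro l m
    rw [key]
    simp [GLt]
  · intro l m
    rw [key]
    simp [GLt]
  · intro l m
    rw [key]
    simp [GLt]
  · intro l m
    rw [key]
    simp [GLt]
  · intro l m
    rw [key]
    simp [GLt]
  · intro l m x h1 h2
    exact btw .A .G l m x rfl rfl h1 h2
  · intro l m x h1 h2
    exact btw .F .G l m x rfl rfl h1 h2
  · intro l m x h1 h2
    exact btw .F .D l m x rfl rfl h1 h2

/-- an order preserving self-map of a block which is the identity on the frame acts on each gadget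
by one permutation of the labels -/
theorem rigid_gadget {p : Par C} {lp : Pt p → Pt p → Prop} (hO : BlkOrd lp)
    (c : Cell p) (g : Fin (C.K c.j)) (hT : 2 ≤ p.T c.j)
    (h5l : LowReg lp c ∅) (h5u : UpReg lp c ∅) (f : Pt p → Pt p)
    (hf : ∀ x y, lp x y → lp (f x) (f y))
    (hfix : ∀ k ≤ C.h + 1, ∀ v, f (V p k v) = V p k v) :
    ∃ σ : Equiv.Perm (Fin (p.T c.j)), ∀ s l, f (.ce c (g, s, l)) = .ce c (g, s, σ l) := by
  let _ := blkPO hO
  have hfin : Nontrivial (Fin (p.T c.j)) := Fin.nontrivial_iff_two_le.2 hT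
  have hck : c.k.val < C.h := c.k.2
  have low : ∀ s : Srt, s.up = false → ∀ l, ∃ l', lp (.ce c (g, s, l')) (f (.ce c (g, s, l))) := by
    intro s hs l
    refine (h5l g s hs).2 _ fun v _ hv => ?_
    have := hf _ _ (hv l)
    rwa [hfix _ (by omega)] at this
  have upp : ∀ s : Srt, s.up = true → ∀ l, ∃ l', lp (f (.ce c (g, s, l))) (.ce c (g, s, l')) := by
    intro s hs l
    refine (h5u g s hs).2 _ fun v _ hv => ?_
    have := hf _ _ (hv l)
    rwa [hfix _ (by omega)] at this
  obtain ⟨σ, hσ⟩ := (isGadget hO c g).perm (f := f) (fun x y h => hf x y h)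
    (low .A rfl) (low .F rfl) (upp .G rfl) (upp .D rfl)
  refine ⟨σ, fun s l => ?_⟩
  obtain ⟨h1, h2, h3, h4⟩ := hσ l
  cases s
  · exact h1
  · exact h2
  · exact h3
  · exact h4

variable {par : ℕ → Par C} {le : ∀ m, Pt (par m) → Pt (par m) → Prop}

/-- a map preserving the block `m` as a map of the block -/
theorem exists_blkMap {m : ℕ} {f : TP par → TP par} (hf : f ∈ EndSet le m m False) :
    ∃ F : Pt (par m) → Pt (par m), ∀ x, f (.pt m x) = .pt m (F x) := by
  have h : ∀ x : Pt (par m), ∃ y : Pt (par m), f (.pt m x) = .pt m y := by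
    intro x
    have h1 := hf.1.maps (.pt m x) (show inT par m m False (.pt m x) from ⟨le_rfl, le_rfl⟩)
    cases h2 : f (.pt m x) with
    | top =>
        rw [h2] at h1
        exact h1.elim
    | pt m' y =>
        rw [h2] at h1
        have h3 : m ≤ m' ∧ m' ≤ m := h1
        have h4 : m' = m := le_antisymm h3.2 h3.1
        subst h4
        exact ⟨y, rfl⟩
  choose F hF using h
  exact ⟨F, hF⟩

/-- **a rigid block has at most `aR` restrictions** -/
theorem rigEnd_card {m : ℕ} (hO : BlkOrd (le m)) (hT : ∀ j, 2 ≤ (par m).T j)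
    (h5l : ∀ c, LowReg (le m) c ∅) (h5u : ∀ c, UpReg (le m) c ∅) :
    (RigEnd le m).ncard ≤ aR (par m) := by
  have key : ∀ f ∈ RigEnd le m, ∃ s : GP (par m), ∀ x, f (.pt m x) = .pt m (gp s x) := by
    rintro f ⟨hf, hr⟩
    obtain ⟨F, hF⟩ := exists_blkMap hf
    have hmono : ∀ x y, le m x y → le m (F x) (F y) := by
      intro x y hxy
      have h1 := hf.1.mono (.pt m x) (.pt m y) ⟨le_rfl, le_rfl⟩ ⟨le_rfl, le_rfl⟩ (TLe.eq hxy)
      rw [hF, hF, TLe.same] at h1
      exact h1
    have hfix : ∀ k ≤ C.h + 1, ∀ v, F (V (par m) k v) = V (par m) k v := by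
      intro k hk v
      have h1 := hr k hk v
      unfold TV at h1
      rw [hF] at h1
      simpa using h1
    have h1 : ∀ (c : Cell (par m)) (g : Fin (C.K c.j)), ∃ σ : Equiv.Perm (Fin ((par m).T c.j)),
        ∀ s l, F (.ce c (g, s, l)) = .ce c (g, s, σ l) := fun c g =>
      rigid_gadget hO c g (hT _) (h5l c) (h5u c) F hmono hfix
    choose σ hσ using h1
    refine ⟨σ, fun x => ?_⟩
    rw [hF]
    cases x with
    | fr k v =>
        have h2 : Pt.fr k v = V (par m) k.val v := by
          simp [V]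
        rw [h2, hfix _ (by omega), gp_V]
    | ce c e =>
        obtain ⟨g, s, l⟩ := e
        rw [hσ]
        rfl
  choose! s hs using key
  rw [← card_GP, ← Nat.card_coe_set_eq]
  refine Nat.card_le_card_of_injective (fun f : RigEnd le m => s f.1) ?_
  rintro ⟨f, hf⟩ ⟨f', hf'⟩ h
  apply Subtype.ext
  funext x
  change f x = f' x
  have h' : s f = s f' := h
  by_cases hx : inT par m m False x
  · cases x with
    | top => exact hx.elim
    | pt m' x =>
        have h3 : m ≤ m' ∧ m' ≤ m := hx
        have h4 : m' = m := le_antisymm h3.2 h3.1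
        subst h4
        rw [hs f hf, hs f' hf', h']
  · rw [hf.1.2 x hx, hf'.1.2 x hx]

end Pool.Agent.AM.RigC
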