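import Pool.Agent.AM.Defs2
import Pool.Agent.AM.RigC
import Pool.Agent.AM.Fence
import Pool.Agent.AM.Dis
import Pool.Agent.AM.Rec

set_option autoImplicit false

/-!
# MP_61102a_co, S09118 : the assembly
-/

open scoped Classical
open Finset

noncomputable section

namespace Pool.Agent.AM.Final

open TowOrd Split AutLow RigC Fence

section General

variable {C : Cst} {q : Con} {par : ℕ → Par C} {t : ℕ → ℕ}
  {le : ∀ m, Pt (par m) → Pt (par m) → Prop}

/-- parts of good towers are good -/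
theorem goodTow_mono {lo hi lo' hi' : ℕ} (h : GoodTow q par t le lo hi) (h1 : lo ≤ lo')
    (h2 : hi' ≤ hi) : GoodTow q par t le lo' hi' where
  blk m a b := h.blk m (h1.trans a) (b.trans h2)
  self m a b := h.self m (h1.trans a) (b.trans h2)
  rel m m' a b a' b' := h.rel m m' (h1.trans a) (b.trans h2) (h1.trans a') (b'.trans h2)

/-- the trivial bound for the number of endomorphisms, independent of the order -/
theorem endSet_le_card (lo hi : ℕ) (b : Prop) :
    (EndSet le lo hi b).ncard ≤ Nat.card (Part par lo hi b → Part par lo hi b) := by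
  rw [← Nat.card_coe_set_eq]
  refine Nat.card_le_card_of_injective
    (fun f : EndSet le lo hi b => restrP f.1 (fun x hx => f.2.1.maps x hx)) ?_
  rintro ⟨f, hf⟩ ⟨g, hg⟩ h
  apply Subtype.ext
  funext x
  by_cases hx : inT par lo hi b x
  · have := congrFun h ⟨x, hx⟩
    exact congrArg Subtype.val this
  · change f x = g x
    rw [hf.2 x hx, hg.2 x hx]

theorem aR_pos (p : Par C) : 1 ≤ aR p :=
  Nat.one_le_iff_ne_zero.2 (Finset.prod_ne_zero_iff.2 fun _ _ =>
    pow_ne_zero _ (Nat.factorial_ne_zero _))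

/-- number of points of a part -/
theorem card_part_ge {lo hi : ℕ} {b : Prop}
    (hn : ∀ m, lo ≤ m → m ≤ hi → 0 < (par m).n) :
    hi + 1 - lo ≤ Nat.card (Part par lo hi b) := by
  have h1 : Nat.card (Finset.Icc lo hi : Finset ℕ) = hi + 1 - lo := by
    rw [Nat.card_eq_fintype_card, Fintype.card_coe, Nat.card_Icc]
  rw [← h1]
  have hmem : ∀ m : (Finset.Icc lo hi : Finset ℕ), lo ≤ m.1 ∧ m.1 ≤ hi := fun m =>
    Finset.mem_Icc.1 m.2
  refine Nat.card_le_card_of_injective (fun m : (Finset.Icc lo hi : Finset ℕ) =>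
    (⟨TV par m.1 0 ⟨0, hn m.1 (hmem m).1 (hmem m).2⟩, hmem m⟩ : Part par lo hi b)) ?_
  intro m m' h
  have h2 := congrArg Subtype.val h
  simp only [TV, TP.pt.injEq] at h2
  exact Subtype.ext h2.1

end General

/-- the recursion for a good tower with `n ≥ 1` blocks -/
theorem tower_bound {C : Cst} {q : Con} (hkap0 : 0 ≤ q.kap) (hkap : q.kap ≤ 1 / 100)
    {par : ℕ → Par C} {t : ℕ → ℕ} (hT : ∀ m j, 2 ≤ (par m).T j)
    (g : ℕ → ℝ) (hg0 : ∀ m, 0 ≤ g m) (hg : ∀ m, g m ≤ 1 / 2) (S : ℝ)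
    (hS : ∀ n, ∑ m ∈ range n, g m ≤ S)
    (hKT : ∀ (le : ∀ m, Pt (par m) → Pt (par m) → Prop) (lo hi : ℕ) (b : Prop), lo ≤ hi →
      (b → lo = 0 ∧ 0 < hi) → GoodTow q par t le lo hi →
      ((FreeSet le lo hi b).ncard : ℝ) ≤ g hi ^ (hi + 1 - lo) *
        ∏ m ∈ Finset.Icc lo hi, (aR (par m) : ℝ))
    (le : ∀ m, Pt (par m) → Pt (par m) → Prop) (n : ℕ) (hG : GoodTow q par t le 0 n) :
    ((EndSet le 0 n True).ncard : ℝ) ≤
      ((Nat.card (Part par 0 0 True → Part par 0 0 True) : ℝ) + 2) * Real.exp (2 * S) *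
        ∏ m ∈ range (n + 1), (aR (par m) : ℝ) := by
  have hC : (0 : ℝ) ≤ Nat.card (Part par 0 0 True → Part par 0 0 True) := Nat.cast_nonneg _
  set A : ℕ → ℝ := fun m => (aR (par m) : ℝ) with hA
  set E : ℕ → ℝ := fun M => if M = 0 then 1 else ((EndSet le 0 (M - 1) True).ncard : ℝ) with hE
  set w : ℕ → ℕ → ℝ := fun μ M => ((FreeSet le μ M False).ncard : ℝ) with hw
  set wt : ℕ → ℝ := fun M => ((FreeSet le 0 M True).ncard : ℝ) with hwt
  have hES : ∀ M, E (M + 1) = ((EndSet le 0 M True).ncard : ℝ) := by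
    intro M
    simp [hE]
  have hE0' : E 0 = 1 := by simp [hE]
  have hA1 : ∀ m, 1 ≤ A m := fun m => by
    simp only [hA]
    exact_mod_cast aR_pos (par m)
  have hE0 : ∀ m, 0 ≤ E m := by
    intro m
    cases m with
    | zero => rw [hE0']; norm_num
    | succ m => rw [hES]; positivity
  have h0 : E 0 ≤ (Nat.card (Part par 0 0 True → Part par 0 0 True) : ℝ) + 1 := by
    rw [hE0']
    linarith
  have h1 : E 1 ≤ (Nat.card (Part par 0 0 True → Part par 0 0 True) : ℝ) + 1 := by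
    have h2 := hES 0
    rw [zero_add] at h2
    rw [h2]
    have h3 : ((EndSet le 0 0 True).ncard : ℝ) ≤
        (Nat.card (Part par 0 0 True → Part par 0 0 True) : ℝ) := by
      exact_mod_cast endSet_le_card 0 0 True
    linarith
  have hrec : ∀ M, 1 ≤ M → M < n + 1 →
      E (M + 1) ≤ A M * E M + ∑ μ ∈ range (M + 1), E μ * w μ M + wt M := by
    intro M hM hMn
    obtain ⟨k, rfl⟩ : ∃ k, M = k + 1 := ⟨M - 1, by omega⟩
    have hGk : GoodTow q par t le 0 (k + 1) := goodTow_mono hG le_rfl (by omega)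
    have hBk := hGk.blk (k + 1) (Nat.zero_le _) le_rfl
    have h4 := recursion (le := le) (lo := 0) (hi := k) (Nat.zero_le _)
      (fun f hf m hm1 hm2 hr => fences_of_rigid (hGk.blk m hm1 hm2) hkap0 hkap hf hm1 hm2 hr)
      (rigEnd_card hBk.ord (hT (k + 1)) (fun c => (hBk.a5 c).1) (fun c => (hBk.a5 c).2))
    have h5 : ((EndSet le 0 (k + 1) True).ncard : ℝ) ≤
        A (k + 1) * ((EndSet le 0 k True).ncard : ℝ) +
          ∑ m ∈ Finset.Icc 0 k, ((EndSet le 0 m True).ncard : ℝ) * w (m + 1) (k + 1) +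
          wt (k + 1) := by
      simp only [hA, hw, hwt]
      exact_mod_cast h4
    have h6 : Finset.Icc 0 k = range (k + 1) := by
      ext m
      simp only [Finset.mem_Icc, Finset.mem_range]
      omega
    have h7 : ∑ m ∈ Finset.Icc 0 k, ((EndSet le 0 m True).ncard : ℝ) * w (m + 1) (k + 1) ≤
        ∑ μ ∈ range (k + 1 + 1), E μ * w μ (k + 1) := by
      rw [Finset.sum_range_succ', h6]
      have h8 : 0 ≤ E 0 * w 0 (k + 1) := mul_nonneg (hE0 0) (by simp only [hw]; positivity)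
      have h9 : ∑ m ∈ range (k + 1), ((EndSet le 0 m True).ncard : ℝ) * w (m + 1) (k + 1) =
          ∑ m ∈ range (k + 1), E (m + 1) * w (m + 1) (k + 1) :=
        Finset.sum_congr rfl fun m _ => by rw [hES]
      linarith
    rw [hES (k + 1), hES k]
    linarith
  have hw' : ∀ M, 1 ≤ M → M < n + 1 → ∀ μ, μ ≤ M →
      w μ M ≤ g M ^ (M + 1 - μ) * ∏ m ∈ Ico μ (M + 1), A m := by
    intro M hM hMn μ hμ
    have h2 := hKT le μ M False hμ (fun h => h.elim)
      (goodTow_mono hG (Nat.zero_le _) (by omega))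
    have h3 : Finset.Icc μ M = Ico μ (M + 1) := by
      ext m
      simp only [Finset.mem_Icc, Finset.mem_Ico]
      omega
    rw [h3] at h2
    exact h2
  have hwt' : ∀ M, 1 ≤ M → M < n + 1 → wt M ≤ g M * ∏ m ∈ range (M + 1), A m := by
    intro M hM hMn
    have h2 := hKT le 0 M True (Nat.zero_le _) (fun _ => ⟨rfl, by omega⟩)
      (goodTow_mono hG (Nat.zero_le _) (by omega))
    have h3 : Finset.Icc 0 M = range (M + 1) := by
      ext m
      simp only [Finset.mem_Icc, Finset.mem_range]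
      omega
    rw [h3] at h2
    refine h2.trans (mul_le_mul_of_nonneg_right ?_ (Finset.prod_nonneg fun m _ => by positivity))
    exact pow_le_of_le_one (hg0 M) ((hg M).trans (by norm_num)) (by omega)
  have hfin := Rec.rec_bound (n + 1) A g E w wt
    ((Nat.card (Part par 0 0 True → Part par 0 0 True) : ℝ) + 1) S hA1 hE0 h0 h1 hg0 hg
    hrec hw' hwt' (hS (n + 1))
  rw [hES n] at hfin
  have h10 : (Nat.card (Part par 0 0 True → Part par 0 0 True) : ℝ) + 1 + 1 =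
      (Nat.card (Part par 0 0 True → Part par 0 0 True) : ℝ) + 2 := by ring
  rw [h10] at hfin
  exact hfin

/-- constants exist -/
theorem exists_ok : ∃ (c : PC) (q : Con), c.Ok q := by
  obtain ⟨W, hW⟩ : ∃ W : ℕ, W = 2000000 := ⟨_, rfl⟩
  obtain ⟨lam, hlam⟩ : ∃ l : ℕ, l = 1000 := ⟨_, rfl⟩
  obtain ⟨h, hh⟩ : ∃ h : ℕ, h = 1000 * lam ^ (W - 1) + 10000 := ⟨_, rfl⟩
  obtain ⟨E, hE⟩ : ∃ E : ℕ, E = 100 * (lam ^ (W - 1) * (h + 2)) := ⟨_, rfl⟩
  have hEpos : 0 < E := by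
    rw [hE]
    have : 0 < lam ^ (W - 1) := pow_pos (by omega) _
    positivity
  have hEr : (1 : ℝ) ≤ (E : ℝ) := by exact_mod_cast hEpos
  set δ : ℝ := 1 / (10 ^ 7 * E) with hδ
  have hδ0 : 0 < δ := by rw [hδ]; positivity
  have hδ1 : δ ≤ 1 / 100 := by
    rw [hδ]
    apply one_div_le_one_div_of_le (by norm_num)
    nlinarith
  refine ⟨⟨W, lam, 10 ^ 8 * E, h, E⟩, ⟨δ, δ ^ 2 / 10 ^ 4, δ ^ 2 / 10 ^ 4, δ, 36⟩, ?_⟩
  constructor
  · exact hlam
  · exact hW
  · exact hh.ge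
  · exact hE
  · exact le_rfl
  · rfl
  · exact hδ0
  · change δ * (10 ^ 7 * E) ≤ 1
    rw [hδ, one_div, inv_mul_cancel₀ (by positivity)]
  · exact hδ0
  · exact le_rfl
  · exact hδ1
  · change 0 < δ ^ 2 / 10 ^ 4
    positivity
  · exact le_rfl
  · change 0 < δ ^ 2 / 10 ^ 4
    positivity
  · exact le_rfl

/-- `exp(-G t)` is small -/
theorem exp_G_le (c : PC) (q : Con) (hc : c.Ok q) {t : ℕ} (ht : 2 ≤ t) :
    Real.exp (-(c.G t)) ≤ 1 / (t : ℝ) ^ (4 * c.E) := by
  have ht' : (2 : ℝ) ≤ t := by exact_mod_cast ht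
  have hlog : 0 < Real.log t := Real.log_pos (by linarith)
  have h1 : (4 * c.E : ℕ) * Real.log t ≤ c.G t := by
    unfold PC.G
    refine mul_le_mul_of_nonneg_right ?_ hlog.le
    have hE4 : ((4 * c.E : ℕ) : ℝ) ≤ c.Kst := by
      exact_mod_cast le_trans (by omega) hc.Kst
    have h2 : (1 : ℝ) ≤ (2 * c.lam) ^ (c.W - 1) := by
      apply one_le_pow₀
      rw [hc.lam]
      norm_num
    have h3 : (1 : ℝ) ≤ (t : ℝ) ^ c.E := one_le_pow₀ (by linarith)
    have h4 : (0 : ℝ) ≤ c.Kst := Nat.cast_nonneg _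
    calc ((4 * c.E : ℕ) : ℝ) ≤ c.Kst := hE4
      _ = c.Kst * 1 * 1 := by ring
      _ ≤ c.Kst * (2 * c.lam) ^ (c.W - 1) * (t : ℝ) ^ c.E := by
          apply mul_le_mul (mul_le_mul_of_nonneg_left h2 h4) h3 (by norm_num)
          positivity
  have h5 : (t : ℝ) ^ (4 * c.E) = Real.exp ((4 * c.E : ℕ) * Real.log t) := by
    rw [Real.exp_nat_mul, Real.exp_log (by linarith)]
  rw [h5, one_div, ← Real.exp_neg]
  exact Real.exp_le_exp.2 (by linarith)

/-- **the assembly**: good towers and the main inequality give arbitrarily large posets with a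
greatest element and a positive proportion of automorphisms -/
theorem assembly (c : PC) (q : Con) (hc : c.Ok q)
    (hgood : ∀ᶠ m0 in Filter.atTop, ∀ M : ℕ, ∃ ω : ∀ m, Om (c.bl m0 m),
      GoodTow q (c.bl m0) (c.tf m0) (fun m => Le (ω m)) 0 M)
    (hKT : ∀ᶠ m0 in Filter.atTop,
      ∀ (le : ∀ m, Pt (c.bl m0 m) → Pt (c.bl m0 m) → Prop) (lo hi : ℕ) (b : Prop), lo ≤ hi →
        (b → lo = 0 ∧ 0 < hi) → GoodTow q (c.bl m0) (c.tf m0) le lo hi →
        ((FreeSet le lo hi b).ncard : ℝ) ≤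
          Real.exp (-(((hi + 1 - lo : ℕ) : ℝ) * c.G (c.tf m0 hi))) *
            ∏ m ∈ Icc lo hi, (aR (c.bl m0 m) : ℝ))
    (htf : ∀ T0 : ℕ, ∀ᶠ m0 in Filter.atTop, ∀ m, T0 ≤ c.tf m0 m)
    (hsum : ∀ ε : ℝ, 0 < ε → ∀ᶠ m0 in Filter.atTop,
      ∀ M : ℕ, ∑ m ∈ range (M + 1), 1 / (c.tf m0 m : ℝ) ^ (4 * c.E) ≤ ε) :
    ∃ ε : ℝ, 0 < ε ∧ ∀ N : ℕ, ∃ (α : Type) (_ : Fintype α) (_ : PartialOrder α) (T : α),
      (∀ x, x ≤ T) ∧ N ≤ Fintype.card α ∧
      ε * (Nat.card (α →o α) : ℝ) ≤ (Nat.card (α ≃o α) : ℝ) := by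
  obtain ⟨m0, ⟨⟨⟨hgood, hKT⟩, ht2⟩, hsum⟩⟩ :=
    (((hgood.and hKT).and (htf 2)).and (hsum (1 / 2) (by norm_num))).exists
  set g : ℕ → ℝ := fun m => Real.exp (-(c.G (c.tf m0 m))) with hg
  have hg0 : ∀ m, 0 ≤ g m := fun m => (Real.exp_pos _).le
  have hgt : ∀ m, g m ≤ 1 / (c.tf m0 m : ℝ) ^ (4 * c.E) := fun m => exp_G_le c q hc (ht2 m)
  have hpos : ∀ m, (0 : ℝ) ≤ 1 / (c.tf m0 m : ℝ) ^ (4 * c.E) := fun m => by positivity
  have hS : ∀ n, ∑ m ∈ range n, g m ≤ 1 / 2 := by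
    intro n
    calc ∑ m ∈ range n, g m ≤ ∑ m ∈ range (n + 1), g m :=
          Finset.sum_le_sum_of_subset_of_nonneg (Finset.range_mono (Nat.le_succ n))
            (fun m _ _ => hg0 m)
      _ ≤ ∑ m ∈ range (n + 1), 1 / (c.tf m0 m : ℝ) ^ (4 * c.E) :=
          Finset.sum_le_sum fun m _ => hgt m
      _ ≤ 1 / 2 := hsum n
  have hg2 : ∀ m, g m ≤ 1 / 2 := by
    intro m
    refine le_trans ?_ (hS (m + 1))
    exact Finset.single_le_sum (f := g) (fun i _ => hg0 i) (Finset.mem_range.2 (Nat.lt_succ_self m))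
  have hT : ∀ m (j : Fin c.cst.W), 2 ≤ (c.bl m0 m).T j := by
    intro m j
    change 2 ≤ (c.tf m0 m) ^ (c.lam ^ j.val)
    have h1 := ht2 m
    have h2 : c.lam ^ j.val ≠ 0 := by
      apply pow_ne_zero
      rw [hc.lam]
      norm_num
    exact h1.trans (Nat.le_self_pow h2 _)
  have hKT' : ∀ (le : ∀ m, Pt (c.bl m0 m) → Pt (c.bl m0 m) → Prop) (lo hi : ℕ) (b : Prop),
      lo ≤ hi → (b → lo = 0 ∧ 0 < hi) → GoodTow q (c.bl m0) (c.tf m0) le lo hi →
      ((FreeSet le lo hi b).ncard : ℝ) ≤ g hi ^ (hi + 1 - lo) *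
        ∏ m ∈ Finset.Icc lo hi, (aR (c.bl m0 m) : ℝ) := by
    intro le lo hi b h1 h2 h3
    have h4 := hKT le lo hi b h1 h2 h3
    have h5 : g hi ^ (hi + 1 - lo) =
        Real.exp (-(((hi + 1 - lo : ℕ) : ℝ) * c.G (c.tf m0 hi))) := by
      simp only [hg]
      rw [← Real.exp_nat_mul]
      congr 1
      ring
    rw [h5]
    exact h4
  set K : ℝ := ((Nat.card (Part (c.bl m0) 0 0 True → Part (c.bl m0) 0 0 True) : ℝ) + 2) *
    Real.exp (2 * (1 / 2)) with hK
  have hK0 : 0 < K := by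
    rw [hK]
    positivity
  refine ⟨1 / K, by positivity, fun N => ?_⟩
  obtain ⟨ω, hω⟩ := hgood N
  have hB : ∀ m, 0 ≤ m → m ≤ N → BlkOrd (Le (ω m)) := fun m h1 h2 => (hω.blk m h1 h2).ord
  have hbound := tower_bound hc.kap0.le hc.kap' (par := c.bl m0) (t := c.tf m0) hT g hg0 hg2
    (1 / 2) hS hKT' (fun m => Le (ω m)) N hω
  let _ : PartialOrder (Part (c.bl m0) 0 N True) :=
    partOrd (b := True) (le := fun m => Le (ω m)) hB
  have _ : Finite (Part (c.bl m0) 0 N True) := finPart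
  refine ⟨Part (c.bl m0) 0 N True, Fintype.ofFinite _, inferInstance, ⟨.top, trivial⟩,
    fun x => TLe.top x.1, ?_, ?_⟩
  · have h1 := card_part_ge (par := c.bl m0) (lo := 0) (hi := N) (b := True)
      (fun m h1 h2 => (hω.blk m h1 h2).npos)
    have h2 := @Nat.card_eq_fintype_card (Part (c.bl m0) 0 N True) (Fintype.ofFinite _)
    exact le_trans (by omega) (h1.trans h2.le)
  · have h1 := aut_low (par := c.bl m0) (b := True) ω hB
    have h2 := card_orderHom (par := c.bl m0) (b := True) (le := fun m => Le (ω m)) hB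
    have h3 : Finset.Icc 0 N = range (N + 1) := by
      ext m
      simp only [Finset.mem_Icc, Finset.mem_range]
      omega
    rw [h3] at h1
    have h1' : ∏ m ∈ range (N + 1), (aR (c.bl m0 m) : ℝ) ≤
        (Nat.card (Part (c.bl m0) 0 N True ≃o Part (c.bl m0) 0 N True) : ℝ) := by
      exact_mod_cast h1
    have h2' : (Nat.card (Part (c.bl m0) 0 N True →o Part (c.bl m0) 0 N True) : ℝ) ≤
        K * ∏ m ∈ range (N + 1), (aR (c.bl m0 m) : ℝ) := by
      refine le_trans ?_ hbound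
      exact_mod_cast h2.le
    calc 1 / K * (Nat.card (Part (c.bl m0) 0 N True →o Part (c.bl m0) 0 N True) : ℝ)
        ≤ 1 / K * (K * ∏ m ∈ range (N + 1), (aR (c.bl m0 m) : ℝ)) :=
          mul_le_mul_of_nonneg_left h2' (by positivity)
      _ = ∏ m ∈ range (N + 1), (aR (c.bl m0 m) : ℝ) := by
          field_simp
      _ ≤ _ := h1'

end Pool.Agent.AM.Final
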