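import Pool.Agent.AM.S7Defs
import Pool.Agent.AM.Sec5

set_option autoImplicit false

/-!
# MP_61102a_co, S09118 : the charging sum of 5.4
-/

open scoped Classical
open Finset

noncomputable section

namespace Pool.Agent.AM.FwC

/-- a sum of a function supported in `t` over any finset is at most the sum over `t` -/
theorem sum_le_of_supp (s t : Finset ℕ) (F : ℕ → ℝ) (h0 : ∀ m, 0 ≤ F m)
    (hs : ∀ m, m ∉ t → F m = 0) : ∑ m ∈ s, F m ≤ ∑ m ∈ t, F m := by
  have h1 : ∑ m ∈ s, F m = ∑ m ∈ s.filter (fun m => m ∈ t), F m := by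
    rw [Finset.sum_filter]
    refine Finset.sum_congr rfl fun m _ => ?_
    by_cases h : m ∈ t
    · simp [h]
    · simp [h, hs m h]
  rw [h1]
  refine Finset.sum_le_sum_of_subset_of_nonneg ?_ fun m _ _ => h0 m
  intro m hm
  exact (Finset.mem_filter.mp hm).2

/-- shift by an injective map -/
theorem sum_comp_le (s t : Finset ℕ) (F : ℕ → ℝ) (e : ℕ → ℕ) (he : Set.InjOn e s)
    (h0 : ∀ m, 0 ≤ F m) (hs : ∀ m, m ∉ t → F m = 0) :
    ∑ m ∈ s, F (e m) ≤ ∑ m ∈ t, F m := by
  rw [← Finset.sum_image (f := F) (g := e) he]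
  exact sum_le_of_supp _ _ F h0 hs

/-- abstract charging: every index of `lo..hi` (except possibly `lo` when `b`) is in `P` or has a
neighbour in `P` -/
theorem charge (P : ℕ → Prop) (lo hi : ℕ) (b : Prop) (hb : b → lo < hi)
    (hP : ∀ m, lo ≤ m → m ≤ hi → (¬ b ∨ lo < m) →
      P m ∨ (∃ m', m' + 1 = m ∧ lo ≤ m' ∧ P m') ∨ (m + 1 ≤ hi ∧ P (m + 1)))
    (G : ℕ → ℝ) (hG0 : ∀ m, 0 ≤ G m) (hG1 : ∀ m, G m ≤ G (m + 1))
    (hG2 : ∀ m, G (m + 1) ≤ 2 * G m) :
    ∑ m ∈ Icc lo hi, G m ≤ 6 * ∑ m ∈ (Icc lo hi).filter (fun m => P m), G m := by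
  set F : ℕ → ℝ := fun m => if (lo ≤ m ∧ m ≤ hi) ∧ P m then G m else 0 with hF
  have hF0 : ∀ m, 0 ≤ F m := by
    intro m
    simp only [hF]
    split_ifs
    · exact hG0 m
    · exact le_refl _
  have hFs : ∀ m, m ∉ Icc lo hi → F m = 0 := by
    intro m hm
    simp only [Finset.mem_Icc] at hm
    simp only [hF]
    rw [if_neg]
    intro h
    exact hm h.1
  have hS : ∑ m ∈ (Icc lo hi).filter (fun m => P m), G m = ∑ m ∈ Icc lo hi, F m := by
    rw [Finset.sum_filter]
    refine Finset.sum_congr rfl fun m hm => ?_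
    simp only [Finset.mem_Icc] at hm
    simp only [hF]
    by_cases h : P m
    · rw [if_pos h, if_pos ⟨hm, h⟩]
    · rw [if_neg h, if_neg fun h' => h h'.2]
  rw [hS]
  set S := ∑ m ∈ Icc lo hi, F m with hSdef
  have hS0 : 0 ≤ S := Finset.sum_nonneg fun m _ => hF0 m
  have hFeq : ∀ m, lo ≤ m → m ≤ hi → P m → F m = G m := by
    intro m h1 h2 h3
    simp only [hF]
    rw [if_pos ⟨⟨h1, h2⟩, h3⟩]
  -- pointwise bound for ordinary indices
  have hpt : ∀ m, lo ≤ m → m ≤ hi → (¬ b ∨ lo < m) →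
      G m ≤ F m + 2 * (if 0 < m then F (m - 1) else 0) + F (m + 1) := by
    intro m h1 h2 h3
    have e1 := hF0 m
    have e2 := hF0 (m - 1)
    have e3 := hF0 (m + 1)
    have e4 : 0 ≤ (if 0 < m then F (m - 1) else 0) := by
      split_ifs
      · exact e2
      · exact le_refl _
    rcases hP m h1 h2 h3 with h | ⟨m', rfl, h4, h5⟩ | ⟨h4, h5⟩
    · rw [← hFeq m h1 h2 h]
      linarith
    · have e5 : F m' = G m' := hFeq m' h4 (by omega) h5
      have e6 := hG2 m'
      have e7 : (if 0 < m' + 1 then F (m' + 1 - 1) else 0) = F m' := by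
        rw [if_pos (by omega)]
        rfl
      rw [e7, e5]
      linarith
    · have e5 : F (m + 1) = G (m + 1) := hFeq (m + 1) (by omega) h4 h5
      have e6 := hG1 m
      rw [e5]
      linarith
  have hsumA : ∑ m ∈ Icc lo hi, (F m + 2 * (if 0 < m then F (m - 1) else 0) + F (m + 1))
      ≤ 4 * S := by
    rw [Finset.sum_add_distrib, Finset.sum_add_distrib, ← Finset.mul_sum]
    have e1 : ∑ m ∈ Icc lo hi, F (m + 1) ≤ S :=
      sum_comp_le (Icc lo hi) (Icc lo hi) F (fun m => m + 1)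
        (fun a _ b _ h => by simpa using h) hF0 hFs
    have e2 : ∑ m ∈ Icc lo hi, (if 0 < m then F (m - 1) else 0) ≤ S := by
      rw [← Finset.sum_filter]
      refine sum_comp_le ((Icc lo hi).filter fun m => 0 < m) (Icc lo hi) F (fun m => m - 1)
        ?_ hF0 hFs
      intro a ha b hb h
      have ha' := (Finset.mem_filter.mp (Finset.mem_coe.mp ha)).2
      have hb' := (Finset.mem_filter.mp (Finset.mem_coe.mp hb)).2
      have h' : a - 1 = b - 1 := h
      omega
    linarith
  by_cases hbb : b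
  · -- the exceptional index `lo`
    have hlt := hb hbb
    have hlo : G lo ≤ S := by
      have hm := hP (lo + 1) (by omega) hlt (Or.inr (by omega))
      have hle : ∀ m, lo ≤ m → G lo ≤ G m := by
        intro m hm
        induction m, hm using Nat.le_induction with
        | base => exact le_refl _
        | succ k _ ih => exact ih.trans (hG1 k)
      have hone : ∀ m, lo ≤ m → m ≤ hi → P m → G lo ≤ S := by
        intro m h1 h2 h3
        calc G lo ≤ G m := hle m h1
          _ = F m := (hFeq m h1 h2 h3).symm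
          _ ≤ S := Finset.single_le_sum (f := F) (fun i _ => hF0 i) (Finset.mem_Icc.mpr ⟨h1, h2⟩)
      rcases hm with h | ⟨m', h4, h5, h6⟩ | ⟨h4, h5⟩
      · exact hone (lo + 1) (by omega) hlt h
      · exact hone m' h5 (by omega) h6
      · exact hone (lo + 1 + 1) (by omega) h4 h5
    have hsplit : ∑ m ∈ Icc lo hi, G m = G lo + ∑ m ∈ Icc (lo + 1) hi, G m := by
      have e1 : Icc lo hi = insert lo (Icc (lo + 1) hi) := by
        ext m
        simp only [Finset.mem_insert, Finset.mem_Icc]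
        omega
      rw [e1, Finset.sum_insert (by simp only [Finset.mem_Icc]; omega)]
    have hrest : ∑ m ∈ Icc (lo + 1) hi, G m ≤ 4 * S := by
      refine le_trans ?_ hsumA
      refine le_trans (Finset.sum_le_sum (fun m hm => ?_)) (Finset.sum_le_sum_of_subset_of_nonneg
        (f := fun m => F m + 2 * (if 0 < m then F (m - 1) else 0) + F (m + 1)) ?_ ?_)
      · simp only [Finset.mem_Icc] at hm
        exact hpt m (by omega) hm.2 (Or.inr (by omega))
      · intro m hm
        simp only [Finset.mem_Icc] at hm ⊢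
        omega
      · intro m _ _
        have e1 := hF0 m
        have e2 := hF0 (m - 1)
        have e3 := hF0 (m + 1)
        have e4 : 0 ≤ (if 0 < m then F (m - 1) else 0) := by
          split_ifs
          · exact e2
          · exact le_refl _
        linarith
    rw [hsplit]
    linarith
  · have h1 : ∑ m ∈ Icc lo hi, G m ≤ 4 * S := by
      refine le_trans (Finset.sum_le_sum fun m hm => ?_) hsumA
      simp only [Finset.mem_Icc] at hm
      exact hpt m hm.1 hm.2 (Or.inl hbb)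
    linarith

end Pool.Agent.AM.FwC

namespace Pool.Agent.AM

variable {C : Cst} {par : ℕ → Par C} {le : ∀ m, Pt (par m) → Pt (par m) → Prop} {q : Con}
  {lo hi : ℕ} {b : Prop} {f : TP par → TP par}

/-- the charging sum; `G` is any nonneg function with `G (m+1) ≤ 2 G m` and `G` monotone -/
theorem fw_charge (hq : q.Ok) (hg : ∀ m, lo ≤ m → m ≤ hi → GoodBlk q (par m) (le m))
    (hf : Endo le lo hi b f) (hr : ∀ m, lo ≤ m → m ≤ hi → ¬ Rigid f m) (_hlh : lo ≤ hi)
    (hb : b → lo < hi) (G : ℕ → ℝ) (hG0 : ∀ m, 0 ≤ G m) (hG1 : ∀ m, G m ≤ G (m + 1))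
    (hG2 : ∀ m, G (m + 1) ≤ 2 * G m) :
    ∑ m ∈ Icc lo hi, G m ≤ 6 * ∑ m ∈ (Icc lo hi).filter (fun m => FW q f m), G m :=
  FwC.charge (fun m => FW q f m) lo hi b hb
    (fun m h1 h2 h3 => Sec5.fw_of_not_rigid hg hq.kap' hf ⟨h1, h2⟩ h3 (hr m h1 h2)) G hG0 hG1 hG2

end Pool.Agent.AM
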