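import Pool.Agent.AM.Defs

/-! S09118: rigidity of the four-sort gadget (5.5 and 7 (P)). -/

set_option autoImplicit false

open scoped Classical
open Finset

noncomputable section

namespace Pool.Agent.AM

/-- abstract gadget in a transitive relation -/
structure IsGad {X : Type*} (le : X → X → Prop) {T : ℕ} (A F G D : Fin T → X) : Prop where
  AG' : ∀ l k, le (A l) (G k) → l = k
  FG' : ∀ l k, le (F l) (G k) → l = k
  FD' : ∀ l k, le (F l) (D k) → l = k
  AD' : ∀ l k, le (A l) (D k) → l ≠ k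
  GD' : ∀ l k, ¬ le (G l) (D k)
  FA' : ∀ l k, ¬ le (F l) (A k)
  AF' : ∀ l k, ¬ le (A l) (F k)
  cAG : ∀ l k x, le (A l) x → le x (G k) → x = A l ∨ x = G k
  cFG : ∀ l k x, le (F l) x → le x (G k) → x = F l ∨ x = G k
  cFD : ∀ l k x, le (F l) x → le x (D k) → x = F l ∨ x = D k

theorem gad_rigid {X : Type*} {le : X → X → Prop} (tr : ∀ x y z, le x y → le y z → le x z)
    {T : ℕ} (hT : 2 ≤ T) {A F G D : Fin T → X} (h : IsGad le A F G D)
    {a' f' g' d' : Fin T → X}
    (hAG : ∀ l, le (a' l) (g' l)) (hFG : ∀ l, le (f' l) (g' l)) (hFD : ∀ l, le (f' l) (d' l))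
    (hAD : ∀ l k, l ≠ k → le (a' l) (d' k))
    (hA : ∀ l, ∃ k, le (A k) (a' l)) (hF : ∀ l, ∃ k, le (F k) (f' l))
    (hG : ∀ l, ∃ k, le (g' l) (G k)) (hD : ∀ l, ∃ k, le (d' l) (D k)) :
    ∃ s : Equiv.Perm (Fin T), ∀ l, a' l = A (s l) ∧ f' l = F (s l) ∧ g' l = G (s l) ∧
      d' l = D (s l) := by
  choose a ha using hA
  choose b hb using hF
  choose c hc using hG
  choose e he using hD
  have : Nontrivial (Fin T) := Fin.nontrivial_iff_two_le.mpr hT
  have A1 : ∀ l, le (a' l) (G (c l)) := fun l => tr _ _ _ (hAG l) (hc l)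
  have hac : ∀ l, a l = c l := fun l => h.AG' _ _ (tr _ _ _ (ha l) (A1 l))
  have A2 : ∀ l, a' l = A (a l) := by
    intro l
    rcases h.cAG _ _ _ (ha l) (A1 l) with h1 | h1
    · exact h1
    · exfalso
      obtain ⟨k, hk⟩ := exists_ne l
      have h2 : le (a' l) (D (e k)) := tr _ _ _ (hAD l k hk.symm) (he k)
      rw [h1] at h2
      exact h.GD' _ _ h2
  have F1 : ∀ l, le (f' l) (G (c l)) := fun l => tr _ _ _ (hFG l) (hc l)
  have F1' : ∀ l, le (f' l) (D (e l)) := fun l => tr _ _ _ (hFD l) (he l)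
  have hbc : ∀ l, b l = c l := fun l => h.FG' _ _ (tr _ _ _ (hb l) (F1 l))
  have hbe : ∀ l, b l = e l := fun l => h.FD' _ _ (tr _ _ _ (hb l) (F1' l))
  have F2 : ∀ l, f' l = F (b l) := by
    intro l
    rcases h.cFG _ _ _ (hb l) (F1 l) with h1 | h1
    · exact h1
    · exfalso
      have h2 := F1' l
      rw [h1] at h2
      exact h.GD' _ _ h2
  have G2 : ∀ l, g' l = G (c l) := by
    intro l
    have h1 : le (A (a l)) (g' l) := by rw [← A2 l]; exact hAG l
    rcases h.cAG _ _ _ h1 (hc l) with h2 | h2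
    · exfalso
      have h3 : le (F (b l)) (g' l) := by rw [← F2 l]; exact hFG l
      rw [h2] at h3
      exact h.FA' _ _ h3
    · exact h2
  have D2 : ∀ l, d' l = D (e l) := by
    intro l
    have h1 : le (F (b l)) (d' l) := by rw [← F2 l]; exact hFD l
    rcases h.cFD _ _ _ h1 (he l) with h2 | h2
    · exfalso
      obtain ⟨k, hk⟩ := exists_ne l
      have h3 : le (A (a k)) (d' l) := by rw [← A2 k]; exact hAD k l hk
      rw [h2] at h3
      exact h.AF' _ _ h3
    · exact h2
  have hinj : Function.Injective a := by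
    intro k l hkl
    by_contra hne
    have h3 : le (A (a k)) (D (e l)) := by
      rw [← A2 k, ← D2 l]; exact hAD k l hne
    have h4 := h.AD' _ _ h3
    apply h4
    rw [hkl, hac l, ← hbc l, hbe l]
  let s : Equiv.Perm (Fin T) := Equiv.ofBijective a (Finite.injective_iff_bijective.mp hinj)
  have hs : ∀ l, s l = a l := fun l => rfl
  refine ⟨s, fun l => ⟨?_, ?_, ?_, ?_⟩⟩
  · rw [hs, A2]
  · rw [hs, F2, hbc l, ← hac l]
  · rw [hs, G2, ← hac l]
  · rw [hs, D2, ← hbe l, hbc l, ← hac l]

/-- Counting: maps of a family of gadgets (indexed by `ι`) each given by one permutation. -/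
theorem card_perm_family {ι S X : Type*} [Fintype ι] {T : ℕ}
    (E : ι → S → Fin T → X) (Φ : Set (ι → S → Fin T → X))
    (h : ∀ φ ∈ Φ, ∀ g, ∃ s : Equiv.Perm (Fin T), ∀ a l, φ g a l = E g a (s l)) :
    Φ.Finite ∧ Φ.ncard ≤ (T.factorial) ^ Fintype.card ι := by
  classical
  let F : (ι → Equiv.Perm (Fin T)) → (ι → S → Fin T → X) := fun s g a l => E g a (s g l)
  have hsub : Φ ⊆ Set.range F := by
    intro φ hφ
    choose s hs using h φ hφ
    exact ⟨s, by funext g a l; exact (hs g a l).symm⟩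
  have hfin : (Set.range F).Finite := Set.finite_range F
  refine ⟨hfin.subset hsub, ?_⟩
  calc Φ.ncard ≤ (Set.range F).ncard := Set.ncard_le_ncard hsub hfin
    _ ≤ Nat.card (ι → Equiv.Perm (Fin T)) := by
        rw [← Set.image_univ, ← Set.ncard_univ]
        exact Set.ncard_image_le (Set.toFinite _)
    _ = (T.factorial) ^ Fintype.card ι := by
        rw [Nat.card_eq_fintype_card, Fintype.card_fun, Fintype.card_perm, Fintype.card_fin]

variable {C : Cst}

/-- comparabilities inside one gadget come from `GLt` -/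
theorem le_gad {p : Par C} {le : Pt p → Pt p → Prop} (ho : BlkOrd le) {c : Cell p}
    {a b : CI p c.j} (h : le (.ce c a) (.ce c b)) : a = b ∨ CLt a b := by
  rcases ho.same _ _ h rfl with h1 | ⟨c', a', b', h1, h2, h3⟩
  · left
    injection h1
  · right
    injection h1 with h4 h5
    subst h4
    injection h2 with h6 h7
    have h8 := eq_of_heq h5
    subst h8
    subst h7
    exact h3

/-- a point between two points of a cell is in the cell -/
theorem mem_cell_of_between {p : Par C} {le : Pt p → Pt p → Prop} (ho : BlkOrd le) {c : Cell p}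
    {a b : CI p c.j} {x : Pt p} (h1 : le (.ce c a) x) (h2 : le x (.ce c b)) :
    ∃ e : CI p c.j, x = .ce c e ∧ (a = e ∨ CLt a e) ∧ (e = b ∨ CLt e b) := by
  have hl : lev (Pt.ce c a) = lev x := by
    have h3 := ho.lev_mono _ _ h1
    have h4 := ho.lev_mono _ _ h2
    have h5 : lev (Pt.ce c a) = lev (Pt.ce c b) := rfl
    omega
  rcases ho.same _ _ h1 hl with h3 | ⟨c', a', b', h3, h4, h5⟩
  · refine ⟨a, h3.symm, Or.inl rfl, ?_⟩
    rw [← h3] at h2
    exact le_gad ho h2
  · injection h3 with h6 h7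
    subst h6
    refine ⟨b', h4, Or.inr ?_, ?_⟩
    · rw [eq_of_heq h7]; exact h5
    · rw [h4] at h2
      exact le_gad ho h2

theorem isGad_cell {p : Par C} {le : Pt p → Pt p → Prop} (ho : BlkOrd le) (c : Cell p)
    (g : Fin (C.K c.j)) :
    IsGad le (fun l => Pt.ce c (g, Srt.A, l)) (fun l => Pt.ce c (g, Srt.F, l))
      (fun l => Pt.ce c (g, Srt.G, l)) (fun l => Pt.ce c (g, Srt.D, l)) := by
  have key : ∀ (s s' : Srt) (l k : Fin (p.T c.j)), le (.ce c (g, s, l)) (.ce c (g, s', k)) →
      (s = s' ∧ l = k) ∨ GLt s l s' k := by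
    intro s s' l k h
    rcases le_gad ho h with h1 | h1
    · left
      simp only [Prod.mk.injEq, true_and] at h1
      exact h1
    · rcases h1 with h1 | ⟨_, h1⟩
      · exact absurd h1 (lt_irrefl _)
      · exact Or.inr h1
  have conv : ∀ (s s' : Srt) (l k : Fin (p.T c.j)) (x : Pt p), s.up = false → s'.up = true →
      le (.ce c (g, s, l)) x → le x (.ce c (g, s', k)) →
      x = .ce c (g, s, l) ∨ x = .ce c (g, s', k) := by
    intro s s' l k x hs hs' h1 h2
    obtain ⟨e, rfl, h3, h4⟩ := mem_cell_of_between ho h1 h2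
    rcases h3 with h3 | h3
    · left; rw [← h3]
    rcases h4 with h4 | h4
    · right; rw [h4]
    exfalso
    obtain ⟨g1, s1, l1⟩ := e
    rcases h3 with h3 | ⟨h3, h5⟩ <;> rcases h4 with h4 | ⟨h4, h6⟩ <;> simp only at h3 h4
    · exact absurd (h3.trans h4) (lt_irrefl _)
    · rw [h4] at h3; exact absurd h3 (lt_irrefl _)
    · rw [h3] at h4; exact absurd h4 (lt_irrefl _)
    · have h7 : s1.up = true := by
        cases s <;> cases s1 <;> first | rfl | exact h5.elim
      have h8 : s1.up = false := by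
        cases s' <;> cases s1 <;> first | rfl | exact h6.elim
      rw [h7] at h8
      exact absurd h8 (by decide)
  constructor
  · intro l k h; rcases key _ _ _ _ h with ⟨h1, _⟩ | h1
    · cases h1
    · exact h1
  · intro l k h; rcases key _ _ _ _ h with ⟨h1, _⟩ | h1
    · cases h1
    · exact h1
  · intro l k h; rcases key _ _ _ _ h with ⟨h1, _⟩ | h1
    · cases h1
    · exact h1
  · intro l k h; rcases key _ _ _ _ h with ⟨h1, _⟩ | h1
    · cases h1
    · exact h1
  · intro l k h; rcases key _ _ _ _ h with ⟨h1, _⟩ | h1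
    · cases h1
    · exact h1
  · intro l k h; rcases key _ _ _ _ h with ⟨h1, _⟩ | h1
    · cases h1
    · exact h1
  · intro l k h; rcases key _ _ _ _ h with ⟨h1, _⟩ | h1
    · cases h1
    · exact h1
  · intro l k x h1 h2; exact conv _ _ _ _ _ rfl rfl h1 h2
  · intro l k x h1 h2; exact conv _ _ _ _ _ rfl rfl h1 h2
  · intro l k x h1 h2; exact conv _ _ _ _ _ rfl rfl h1 h2

end Pool.Agent.AM
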