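import Pool.Agent.AM.Defs2
import Pool.Agent.AM.PrBasic

set_option autoImplicit false

open scoped Classical
open Finset

noncomputable section

namespace Pool.Agent.AM

namespace MixP

theorem pr_fix {ι : Type*} [Fintype ι] {d n : ℕ} (hn : 0 < n) (r : Fin n → ι)
    (hr : Function.Injective r) (X U : Finset (Fin n)) :
    Pr (fun ω : ι → Fin d → Fin n => ∀ x ∈ X, ∀ i, ω (r x) i ∉ U)
      ≤ Real.exp (-(d : ℝ) * ((X.card : ℝ) * U.card) / n) := by
  have h := Pr_no_hit (d := d) hn (X.map ⟨r, hr⟩) (fun _ => U)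
  rw [Finset.sum_const, Finset.card_map, nsmul_eq_mul] at h
  refine le_trans (Pr_mono fun ω hω => ?_) h
  intro y hy i
  rw [Finset.mem_map] at hy
  obtain ⟨x, hx, rfl⟩ := hy
  exact hω x hx i

theorem pr_core {C : Cst} {p : Par C} (q : Con) (hn : 0 < p.n) (h0 : 0 < q.d1) :
    Pr (fun ω : Om p => ¬ MixE q ω) ≤
      ((C.h : ℝ) + 1) * ((2 : ℝ) ^ p.n * 2 ^ p.n) * Real.exp (-(q.d1 ^ 2 * p.d * p.n)) := by
  have hn0 : (0 : ℝ) < p.n := by exact_mod_cast hn
  have h1 := Pr_exists (Ω := Om p)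
    (fun (a : Fin (C.h + 1) × Finset (Fin p.n) × Finset (Fin p.n)) (ω : Om p) =>
      (q.d1 * p.n ≤ a.2.1.card ∧ q.d1 * p.n ≤ a.2.2.card) ∧
        ∀ x ∈ a.2.1, ∀ i, ω (.fu a.1 x) i ∉ a.2.2)
    (Real.exp (-(q.d1 ^ 2 * p.d * p.n))) (by
      rintro ⟨k, X, U⟩
      by_cases hc : q.d1 * p.n ≤ X.card ∧ q.d1 * p.n ≤ U.card
      · refine le_trans (Pr_mono fun ω hω => hω.2) ?_
        refine le_trans (pr_fix (ι := Row p) hn (fun x => Row.fu k x)
          (fun x y hxy => by injection hxy) X U) ?_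
        apply Real.exp_le_exp.2
        have h5 : (q.d1 * p.n) * (q.d1 * p.n) ≤ (X.card : ℝ) * U.card :=
          mul_le_mul hc.1 hc.2 (by positivity) (Nat.cast_nonneg _)
        have h6 : (p.d : ℝ) * ((q.d1 * p.n) * (q.d1 * p.n)) ≤ p.d * ((X.card : ℝ) * U.card) :=
          mul_le_mul_of_nonneg_left h5 (Nat.cast_nonneg _)
        rw [neg_mul, neg_div, neg_le_neg_iff, le_div_iff₀ hn0]
        calc q.d1 ^ 2 * p.d * p.n * p.n = (p.d : ℝ) * ((q.d1 * p.n) * (q.d1 * p.n)) := by ring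
          _ ≤ _ := h6
      · refine le_trans (Pr_mono (T := fun _ : Om p => False) fun ω hω => hc hω.1)
          ((le_of_eq ?_).trans (Real.exp_pos _).le)
        unfold Pr
        simp)
  refine le_trans (Pr_mono fun ω hω => ?_) (h1.trans (le_of_eq ?_))
  · unfold MixE at hω
    push Not at hω
    obtain ⟨k, X, U, hX, hU, hne⟩ := hω
    exact ⟨(k, X, U), ⟨hX, hU⟩, hne⟩
  · rw [Fintype.card_prod, Fintype.card_prod, Fintype.card_finset, Fintype.card_fin,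
      Fintype.card_fin]
    push_cast
    ring

theorem num (H e5 : ℕ) : ∀ᶠ t : ℕ in Filter.atTop,
    ((H : ℝ) + 1) * Real.exp (-(t : ℝ)) ≤ 1 / (t : ℝ) ^ e5 := by
  have h1 := (Real.tendsto_pow_mul_exp_neg_atTop_nhds_zero e5).comp
    (tendsto_natCast_atTop_atTop (R := ℝ))
  have h2 : (0 : ℝ) < 1 / ((H : ℝ) + 1) := by positivity
  filter_upwards [h1.eventually (gt_mem_nhds h2), Filter.eventually_ge_atTop 1] with t ht t1
  have t0 : (0 : ℝ) < t := by exact_mod_cast t1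
  have hp : (0 : ℝ) < (t : ℝ) ^ e5 := by positivity
  have hH : (0 : ℝ) < (H : ℝ) + 1 := by positivity
  simp only [Function.comp] at ht
  rw [le_div_iff₀ hp]
  rw [lt_div_iff₀ hH] at ht
  nlinarith [ht]

end MixP

/-- mixing -/
theorem pr_mix (c : PC) (q : Con) (hc : c.Ok q) : ∀ᶠ t in Filter.atTop,
    Pr (fun ω : Om (c.par t) => ¬ MixE q ω) ≤ 1 / (t : ℝ) ^ (5 * c.E) := by
  have d0 : 0 < q.d1 := hc.d10
  have l0 : 1 ≤ c.lam ^ (c.W - 1) := Nat.one_le_pow _ _ (by rw [hc.lam]; norm_num)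
  have E2 : 2 ≤ c.E := by
    rw [hc.E]
    have : 1 ≤ c.lam ^ (c.W - 1) * (c.h + 2) := Nat.one_le_iff_ne_zero.2 (by positivity)
    omega
  obtain ⟨N, hN⟩ := exists_nat_ge (3 / q.d1 ^ 2)
  filter_upwards [MixP.num c.h (5 * c.E), Filter.eventually_ge_atTop 1,
    Filter.eventually_ge_atTop N] with t ht t1 tN
  have t0 : (0 : ℝ) < t := by exact_mod_cast t1
  have hn : 0 < (c.par t).n := by
    show 0 < t ^ (c.E - 1)
    positivity
  have h1 := MixP.pr_core (p := c.par t) q hn d0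
  refine h1.trans (le_trans ?_ ht)
  set n : ℕ := (c.par t).n with hnd
  have hd : (t : ℝ) ≤ ((c.par t).d : ℝ) := by
    have : t ≤ t ^ (c.lam ^ (c.W - 1)) := Nat.le_self_pow (by omega) t
    exact_mod_cast this
  have hnt : (t : ℝ) ≤ (n : ℝ) := by
    have : t ≤ t ^ (c.E - 1) := Nat.le_self_pow (by omega) t
    exact_mod_cast this
  have hd3 : 3 ≤ q.d1 ^ 2 * ((c.par t).d : ℝ) := by
    have h3 : 3 / q.d1 ^ 2 ≤ ((c.par t).d : ℝ) :=
      hN.trans ((by exact_mod_cast tN : (N : ℝ) ≤ t).trans hd)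
    rw [div_le_iff₀ (by positivity)] at h3
    linarith
  have e2 : (2 : ℝ) ^ n ≤ Real.exp n := by
    have h4 : (2 : ℝ) ≤ Real.exp 1 := by
      have := Real.add_one_le_exp (1 : ℝ)
      linarith
    calc (2 : ℝ) ^ n ≤ (Real.exp 1) ^ n := pow_le_pow_left₀ (by norm_num) h4 n
      _ = Real.exp n := by rw [← Real.exp_nat_mul, mul_one]
  have hC : ((c.cst.h : ℕ) : ℝ) = (c.h : ℝ) := rfl
  rw [hC]
  have hH : (0 : ℝ) ≤ (c.h : ℝ) + 1 := by positivity
  calc ((c.h : ℝ) + 1) * ((2 : ℝ) ^ n * 2 ^ n) *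
        Real.exp (-(q.d1 ^ 2 * ((c.par t).d : ℝ) * n))
      ≤ ((c.h : ℝ) + 1) * (Real.exp n * Real.exp n) * Real.exp (-(3 * (n : ℝ))) := by
        have n0 : (0 : ℝ) ≤ n := Nat.cast_nonneg _
        have h5 : Real.exp (-(q.d1 ^ 2 * ((c.par t).d : ℝ) * n)) ≤ Real.exp (-(3 * (n : ℝ))) :=
          Real.exp_le_exp.2 (by nlinarith)
        gcongr
    _ = ((c.h : ℝ) + 1) * Real.exp (-(n : ℝ)) := by
        rw [mul_assoc, ← Real.exp_add, ← Real.exp_add]
        congr 2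
        ring
    _ ≤ ((c.h : ℝ) + 1) * Real.exp (-(t : ℝ)) := by
        refine mul_le_mul_of_nonneg_left (Real.exp_le_exp.2 ?_) hH
        linarith

end Pool.Agent.AM
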