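import Pool.Agent.AM.Defs2
import Pool.Agent.AM.PrBasic
import Pool.Agent.AM.ExpdP

set_option autoImplicit false

open scoped Classical
open Finset

noncomputable section

namespace Pool.Agent.AM

namespace RegP

/-- one row -/
theorem pr_row {ι : Type*} [Fintype ι] {d n : ℕ} (hn : 0 < n) (r : ι)
    (S : Finset (Fin n)) (hS : (S.card : ℝ) ≤ 1 / 100 * n) :
    Pr (fun ω : ι → Fin d → Fin n => d ≤ 2 * (univ.filter fun i => ω r i ∈ S).card)
      ≤ (1 / 5 : ℝ) ^ d := by
  have hn' : (0 : ℝ) < n := by exact_mod_cast hn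
  set m : ℕ := (d + 1) / 2 with hm
  have hm2 : d ≤ 2 * m := by omega
  set Q : Finset (ι × Fin d) := ({r} : Finset ι) ×ˢ (univ : Finset (Fin d)) with hQ
  have hQc : Q.card = d := by
    simp [hQ]
  have h1 : Pr (fun ω : ι → Fin d → Fin n => d ≤ 2 * (univ.filter fun i => ω r i ∈ S).card)
      ≤ Pr (fun ω : ι → Fin d → Fin n =>
        m ≤ (Q.filter fun q => ω q.1 q.2 ∈ S).card) := by
    apply Pr_mono
    intro ω hω
    have e1 : (Q.filter fun q => ω q.1 q.2 ∈ S).card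
        = (univ.filter fun i => ω r i ∈ S).card := by
      rw [hQ, Finset.card_filter, Finset.sum_product, Finset.sum_singleton, Finset.card_filter]
    rw [e1]
    omega
  have h2 := Pr_hits (ι := ι) (d := d) hn Q (fun _ => S) S.card m (fun _ _ => le_rfl)
  refine h1.trans (h2.trans ?_)
  have h3 : ((Q.card.choose m : ℕ) : ℝ) ≤ 4 ^ m := by
    have : Q.card.choose m ≤ 2 ^ Q.card := Nat.choose_le_two_pow _ _
    calc ((Q.card.choose m : ℕ) : ℝ) ≤ (2 : ℝ) ^ Q.card := by exact_mod_cast this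
      _ = 2 ^ d := by rw [hQc]
      _ ≤ 2 ^ (2 * m) := pow_le_pow_right₀ (by norm_num) hm2
      _ = 4 ^ m := by rw [pow_mul]; norm_num
  have h4 : ((S.card : ℝ) / n) ^ m ≤ (1 / 100 : ℝ) ^ m := by
    apply pow_le_pow_left₀ (by positivity)
    rw [div_le_iff₀ hn']
    exact hS
  calc ((Q.card.choose m : ℕ) : ℝ) * ((S.card : ℝ) / n) ^ m
      ≤ 4 ^ m * (1 / 100 : ℝ) ^ m := by
        apply mul_le_mul h3 h4 (by positivity) (by positivity)
    _ = (1 / 5 : ℝ) ^ (2 * m) := by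
        rw [← mul_pow, pow_mul (1 / 5 : ℝ) 2]; norm_num
    _ ≤ (1 / 5 : ℝ) ^ d := pow_le_pow_of_le_one (by norm_num) (by norm_num) hm2

variable {C : Cst} {p : Par C}

/-- the cell `c` is bad -/
def Bad (up : Bool) (k : Fin C.h) (j : Fin C.W) (S : Finset (Fin p.n)) (c : Fin (p.N j))
    (ω : Om p) : Prop :=
  ∃ (g : Fin (C.K j)) (s : Srt), s.up = up ∧
      p.d ≤ 2 * (univ.filter fun i => ω (.ce ⟨k, j, c⟩ g s) i ∈ S).card

theorem card_srt : Fintype.card Srt = 4 := rfl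

theorem pr_bad (hn : 0 < p.n) (up : Bool) (k : Fin C.h) (j : Fin C.W) (S : Finset (Fin p.n))
    (hS : (S.card : ℝ) ≤ 1 / 100 * p.n) (c : Fin (p.N j)) :
    Pr (fun ω : Om p => Bad up k j S c ω) ≤ (4 * C.K j) * (1 / 5 : ℝ) ^ p.d := by
  have h1 : Pr (fun ω : Om p => Bad up k j S c ω) ≤
      Pr (fun ω : Om p => ∃ x : Fin (C.K j) × Srt,
        p.d ≤ 2 * (univ.filter fun i => ω (.ce ⟨k, j, c⟩ x.1 x.2) i ∈ S).card) := by
    apply Pr_mono
    rintro ω ⟨g, s, -, h⟩
    exact ⟨(g, s), h⟩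
  refine h1.trans ?_
  have h2 := Pr_exists (Ω := Om p) (fun (x : Fin (C.K j) × Srt) (ω : Om p) =>
    p.d ≤ 2 * (univ.filter fun i => ω (.ce ⟨k, j, c⟩ x.1 x.2) i ∈ S).card)
    ((1 / 5 : ℝ) ^ p.d) (fun x => pr_row hn _ S hS)
  refine h2.trans (le_of_eq ?_)
  rw [Fintype.card_prod, card_srt, Fintype.card_fin]
  push_cast
  ring

/-- the cell of level `k`, class `j` of a row -/
def grp : Row p → Option (Cell p)
  | .fu _ _ => none
  | .fd _ _ => none
  | .ce c _ _ => some c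

theorem pr_cells (hn : 0 < p.n) (up : Bool) (k : Fin C.h) (j : Fin C.W) (S : Finset (Fin p.n))
    (hS : (S.card : ℝ) ≤ 1 / 100 * p.n) (a : ℕ) :
    Pr (fun ω : Om p => a ≤ (univ.filter fun c : Fin (p.N j) => Bad up k j S c ω).card)
      ≤ (2 : ℝ) ^ (p.N j) * ((4 * C.K j) * (1 / 5 : ℝ) ^ p.d) ^ a := by
  have hne : Nonempty (Fin p.n) := ⟨⟨0, hn⟩⟩
  set T : Finset (Option (Cell p)) :=
    univ.map ⟨fun c : Fin (p.N j) => some (⟨k, j, c⟩ : Cell p), by
      intro c c' h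
      simpa using h⟩ with hT
  have hTc : T.card = p.N j := by simp [hT]
  have key := PB.pr_many_groups (F := fun _ : Row p => Fin p.d → Fin p.n) grp T
    (fun o ω => ∃ c, o = some (⟨k, j, c⟩ : Cell p) ∧ Bad up k j S c ω) ?_
    ((4 * C.K j) * (1 / 5 : ℝ) ^ p.d) ?_ a
  · rw [Pr_eq_pr]
    refine (PB.pr_mono ?_).trans (key.trans ?_)
    · intro ω h
      refine h.trans ?_
      apply Finset.card_le_card_of_injOn (fun c : Fin (p.N j) => some (⟨k, j, c⟩ : Cell p))
      · intro c hc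
        simp only [Finset.coe_filter, Finset.mem_univ, true_and, Set.mem_ofPred_eq] at hc
        simp only [Finset.coe_filter, Set.mem_ofPred_eq, hT, Finset.mem_map, Finset.mem_univ,
          true_and, Function.Embedding.coeFn_mk]
        exact ⟨⟨c, rfl⟩, c, rfl, hc⟩
      · intro c _ c' _ h
        simpa using h
    · apply mul_le_mul_of_nonneg_right _ (by positivity)
      rw [hTc]
      have : (p.N j).choose a ≤ 2 ^ (p.N j) := Nat.choose_le_two_pow _ _
      exact_mod_cast this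
  · intro o _ ω ω' h
    constructor
    · rintro ⟨c, rfl, g, s, hs, hb⟩
      refine ⟨c, rfl, g, s, hs, ?_⟩
      rw [← h (.ce ⟨k, j, c⟩ g s) rfl]
      exact hb
    · rintro ⟨c, rfl, g, s, hs, hb⟩
      refine ⟨c, rfl, g, s, hs, ?_⟩
      rw [h (.ce ⟨k, j, c⟩ g s) rfl]
      exact hb
  · intro o ho
    rw [hT, Finset.mem_map] at ho
    obtain ⟨c, -, rfl⟩ := ho
    have h2 := pr_bad hn up k j S hS c
    rw [Pr_eq_pr] at h2
    refine (PB.pr_mono ?_).trans h2
    rintro ω ⟨c', hc', hb⟩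
    have hc3 : (some (⟨k, j, c⟩ : Cell p)) = some ⟨k, j, c'⟩ := hc'
    have hc2 : c = c' := by simpa using hc3
    rw [hc2]
    exact hb

/-- union over everything -/
theorem pr_all (q : Con) (hκ : q.kap ≤ 1 / 100) (hn : 0 < p.n) (B : ℝ)
    (hB : ∀ j : Fin C.W, ∀ a : ℕ, q.dlt * p.N j < a →
      (2 : ℝ) ^ (p.N j) * ((4 * C.K j) * (1 / 5 : ℝ) ^ p.d) ^ a ≤ B) :
    Pr (fun ω : Om p => ¬ RegE q ω) ≤ (2 * (C.h * C.W)) * ((2 : ℝ) ^ p.n * B) := by
  have hn' : (0 : ℝ) < p.n := by exact_mod_cast hn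
  have h1 : Pr (fun ω : Om p => ¬ RegE q ω) ≤
      Pr (fun ω : Om p => ∃ x : Bool × (Fin C.h × Fin C.W), ∃ S : Finset (Fin p.n),
        (S.card : ℝ) ≤ 1 / 100 * p.n ∧
        ¬ (((univ.filter fun c : Fin (p.N x.2.2) => Bad x.1 x.2.1 x.2.2 S c ω).card : ℝ)
          ≤ q.dlt * p.N x.2.2)) := by
    apply Pr_mono
    intro ω h
    by_contra hcon
    apply h
    intro up k j S hS
    by_contra hb
    apply hcon
    refine ⟨(up, k, j), S, hS.trans (mul_le_mul_of_nonneg_right hκ hn'.le), fun h' => hb ?_⟩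
    refine le_trans (le_of_eq ?_) h'
    congr 2
    ext c
    simp only [Finset.mem_filter, Finset.mem_univ, true_and, Bad]
  refine h1.trans ?_
  have h2 := Pr_exists (Ω := Om p) (fun (x : Bool × (Fin C.h × Fin C.W)) (ω : Om p) =>
    ∃ S : Finset (Fin p.n), (S.card : ℝ) ≤ 1 / 100 * p.n ∧
        ¬ (((univ.filter fun c : Fin (p.N x.2.2) => Bad x.1 x.2.1 x.2.2 S c ω).card : ℝ)
          ≤ q.dlt * p.N x.2.2)) ((2 : ℝ) ^ p.n * B) ?_
  · refine h2.trans (le_of_eq ?_)
    rw [Fintype.card_prod, Fintype.card_prod, Fintype.card_fin, Fintype.card_fin,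
      Fintype.card_bool]
    push_cast
    ring
  · rintro ⟨up, k, j⟩
    have h3 := Pr_exists (Ω := Om p) (fun (S : Finset (Fin p.n)) (ω : Om p) =>
      (S.card : ℝ) ≤ 1 / 100 * p.n ∧
        ¬ (((univ.filter fun c : Fin (p.N j) => Bad up k j S c ω).card : ℝ)
          ≤ q.dlt * p.N j)) B ?_
    · refine h3.trans (le_of_eq ?_)
      rw [Fintype.card_finset, Fintype.card_fin]
      push_cast
      ring
    · intro S
      have hB0 : 0 ≤ B := by
        obtain ⟨a, ha⟩ := exists_nat_gt (q.dlt * p.N j)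
        exact le_trans (by positivity) (hB j a ha)
      by_cases hS : (S.card : ℝ) ≤ 1 / 100 * p.n
      · by_cases hneg : q.dlt * p.N j < 0
        · refine le_trans ?_ (hB j 0 (by simpa using hneg))
          refine le_trans ?_ (pr_cells hn up k j S hS 0)
          apply Pr_mono
          intro ω _
          exact Nat.zero_le _
        · push Not at hneg
          refine le_trans ?_ (hB j (⌊q.dlt * p.N j⌋₊ + 1) (by
            have := Nat.lt_floor_add_one (q.dlt * p.N j)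
            push_cast
            exact this))
          refine le_trans ?_ (pr_cells hn up k j S hS (⌊q.dlt * p.N j⌋₊ + 1))
          apply Pr_mono
          rintro ω ⟨-, h⟩
          push Not at h
          exact (Nat.floor_lt hneg).2 h
      · refine (Pr_mono (T := fun _ => False) (fun ω h => hS h.1)).trans ?_
        have : Pr (fun _ : Om p => False) = 0 := by simp [Pr]
        rw [this]
        exact hB0

end RegP

/-- (A6), picks only -/
theorem pr_reg (c : PC) (q : Con) (hc : c.Ok q) : ∀ᶠ t in Filter.atTop,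
    Pr (fun ω : Om (c.par t) => ¬ RegE q ω) ≤ 1 / (t : ℝ) ^ (5 * c.E) := by
  have hδ := hc.dlt0
  have hlam : 1 ≤ c.lam := by rw [hc.lam]; norm_num
  have hD : 1 ≤ c.lam ^ (c.W - 1) := Nat.one_le_pow _ _ (by omega)
  have hDE : c.lam ^ (c.W - 1) ≤ c.E := by
    rw [hc.E]
    calc c.lam ^ (c.W - 1) = 1 * (c.lam ^ (c.W - 1) * 1) := by ring
      _ ≤ 100 * (c.lam ^ (c.W - 1) * (c.h + 2)) :=
        Nat.mul_le_mul (by norm_num) (Nat.mul_le_mul_left _ (by omega))
  have hE1 : 1 ≤ c.E := hD.trans hDE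
  -- growth
  have hlo := (isLittleO_pow_exp_pos_mul_atTop (k := 5 * c.E) (b := q.dlt / 4)
    (by positivity)).comp_tendsto (tendsto_natCast_atTop_atTop (R := ℝ))
  have hev1 := hlo.bound (c := 1 / (2 * (c.h * c.W) + 1)) (by positivity)
  have hev2 : ∀ᶠ t : ℕ in Filter.atTop,
      (4 * (c.Kst * (2 * c.lam) ^ (c.W - 1)) : ℝ) ≤ (5 / 4 : ℝ) ^ t :=
    (tendsto_pow_atTop_atTop_of_one_lt (by norm_num)).eventually_ge_atTop _
  have hev3 : ∀ᶠ t : ℕ in Filter.atTop, (4 / q.dlt : ℝ) ≤ t :=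
    (tendsto_natCast_atTop_atTop (R := ℝ)).eventually_ge_atTop _
  filter_upwards [hev1, hev2, hev3, Filter.eventually_ge_atTop 1] with t h1 h2 h3 ht1
  have htr : (1 : ℝ) ≤ t := by exact_mod_cast ht1
  have ht0 : (0 : ℝ) < t := by linarith
  have hnE : (c.par t).n = t ^ (c.E - 1) := rfl
  have hdE : (c.par t).d = t ^ (c.lam ^ (c.W - 1)) := rfl
  have hn : 0 < (c.par t).n := by rw [hnE]; positivity
  have hdt : t ≤ (c.par t).d := by
    rw [hdE]; exact Nat.le_self_pow (by omega) t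
  have hdtr : (t : ℝ) ≤ (c.par t).d := by exact_mod_cast hdt
  have h3' : 4 ≤ q.dlt * t := by
    rw [div_le_iff₀ hδ] at h3; linarith
  have he4 : (1 / 4 : ℝ) ≤ Real.exp (-1) := by
    rw [Real.exp_neg, one_div]
    apply inv_anti₀ (Real.exp_pos _)
    have := Real.exp_one_lt_d9
    linarith
  have htE : (t : ℝ) ≤ (t : ℝ) ^ c.E := by
    calc (t : ℝ) = (t : ℝ) ^ 1 := (pow_one _).symm
      _ ≤ (t : ℝ) ^ c.E := pow_le_pow_right₀ htr hE1
  -- the bound for one `S`
  have hmain := RegP.pr_all (p := c.par t) q hc.kap' hn (Real.exp (-(q.dlt * (t : ℝ) ^ c.E / 2))) (by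
    intro j a ha
    set d := (c.par t).d with hd
    set N := (c.par t).N j with hN
    have hNd : (t : ℝ) ^ c.E ≤ (d : ℝ) * N := by
      have hj : c.lam ^ j.val ≤ c.lam ^ (c.W - 1) := by
        apply Nat.pow_le_pow_right hlam
        have : j.val < c.W := j.2
        omega
      have e1 : t ^ c.E ≤ d * N := by
        have hNe : N = 2 ^ j.val * t ^ (c.E - c.lam ^ j.val) := rfl
        rw [hNe, hdE]
        calc t ^ c.E ≤ t ^ (c.lam ^ (c.W - 1) + (c.E - c.lam ^ j.val)) :=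
              Nat.pow_le_pow_right ht1 (by omega)
          _ = t ^ (c.lam ^ (c.W - 1)) * (1 * t ^ (c.E - c.lam ^ j.val)) := by
              rw [pow_add]; ring
          _ ≤ t ^ (c.lam ^ (c.W - 1)) * (2 ^ j.val * t ^ (c.E - c.lam ^ j.val)) := by
              apply Nat.mul_le_mul_left
              apply Nat.mul_le_mul_right
              exact Nat.one_le_two_pow
      exact_mod_cast e1
    have hK : (4 * (c.cst.K j : ℝ)) ≤ (5 / 4 : ℝ) ^ d := by
      have e1 : (c.cst.K j : ℕ) ≤ c.Kst * (2 * c.lam) ^ (c.W - 1) := by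
        show c.Kst * (2 * c.lam) ^ (c.W - 1 - j.val) ≤ _
        apply Nat.mul_le_mul_left
        apply Nat.pow_le_pow_right (by omega)
        omega
      have e2 : (c.cst.K j : ℝ) ≤ c.Kst * (2 * c.lam) ^ (c.W - 1) := by exact_mod_cast e1
      calc (4 * (c.cst.K j : ℝ)) ≤ 4 * (c.Kst * (2 * c.lam) ^ (c.W - 1)) := by linarith
        _ ≤ (5 / 4 : ℝ) ^ t := h2
        _ ≤ (5 / 4 : ℝ) ^ d := pow_le_pow_right₀ (by norm_num) hdt
    have hρ : (4 * (c.cst.K j : ℝ)) * (1 / 5 : ℝ) ^ d ≤ Real.exp (-(d : ℝ)) := by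
      calc (4 * (c.cst.K j : ℝ)) * (1 / 5 : ℝ) ^ d ≤ (5 / 4 : ℝ) ^ d * (1 / 5 : ℝ) ^ d :=
            mul_le_mul_of_nonneg_right hK (by positivity)
        _ = (1 / 4 : ℝ) ^ d := by rw [← mul_pow]; norm_num
        _ ≤ (Real.exp (-1)) ^ d := pow_le_pow_left₀ (by norm_num) he4 d
        _ = Real.exp (-(d : ℝ)) := by rw [← Real.exp_nat_mul]; congr 1; ring
    calc (2 : ℝ) ^ N * ((4 * (c.cst.K j : ℝ)) * (1 / 5 : ℝ) ^ d) ^ a
        ≤ (Real.exp 1) ^ N * (Real.exp (-(d : ℝ))) ^ a := by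
          apply mul_le_mul
          · apply pow_le_pow_left₀ (by norm_num)
            have := Real.add_one_le_exp (1 : ℝ)
            linarith
          · exact pow_le_pow_left₀ (by positivity) hρ a
          · positivity
          · positivity
      _ = Real.exp (N - a * d) := by
          rw [← Real.exp_nat_mul, ← Real.exp_nat_mul, ← Real.exp_add]
          congr 1; ring
      _ ≤ Real.exp (-(q.dlt * (t : ℝ) ^ c.E / 2)) := by
          apply Real.exp_le_exp.2
          have hN0 : (0 : ℝ) ≤ N := Nat.cast_nonneg _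
          have hd0 : (0 : ℝ) ≤ d := Nat.cast_nonneg _
          have e1 : q.dlt * N * d ≤ a * d := mul_le_mul_of_nonneg_right ha.le hd0
          have e2 : 4 ≤ q.dlt * d := h3'.trans (mul_le_mul_of_nonneg_left hdtr hδ.le)
          have e3 : 4 * N ≤ q.dlt * d * N := mul_le_mul_of_nonneg_right e2 hN0
          have e4 : q.dlt * (t : ℝ) ^ c.E ≤ q.dlt * (d * N) :=
            mul_le_mul_of_nonneg_left hNd hδ.le
          nlinarith)
  refine hmain.trans ?_
  have h5 : (2 : ℝ) ^ (c.par t).n ≤ Real.exp (q.dlt * (t : ℝ) ^ c.E / 4) := by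
    calc (2 : ℝ) ^ (c.par t).n ≤ (Real.exp 1) ^ (c.par t).n := by
          apply pow_le_pow_left₀ (by norm_num)
          have := Real.add_one_le_exp (1 : ℝ)
          linarith
      _ = Real.exp ((c.par t).n : ℝ) := by rw [← Real.exp_nat_mul]; congr 1; ring
      _ ≤ Real.exp (q.dlt * (t : ℝ) ^ c.E / 4) := by
          apply Real.exp_le_exp.2
          have e1 : (((c.par t).n : ℕ) : ℝ) = (t : ℝ) ^ (c.E - 1) := by rw [hnE]; push_cast; rfl
          have e2 : (t : ℝ) ^ c.E = (t : ℝ) ^ (c.E - 1) * t := by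
            rw [← pow_succ]; congr 1; omega
          rw [e1, e2]
          have e3 : (0 : ℝ) ≤ (t : ℝ) ^ (c.E - 1) := by positivity
          nlinarith
  have h6 : (2 * ((c.cst.h : ℝ) * c.cst.W)) * ((2 : ℝ) ^ (c.par t).n *
      Real.exp (-(q.dlt * (t : ℝ) ^ c.E / 2))) ≤ (2 * (c.h * c.W) + 1) *
      Real.exp (-(q.dlt / 4 * t)) := by
    have e0 : (2 * ((c.cst.h : ℝ) * c.cst.W)) = 2 * ((c.h : ℝ) * c.W) := rfl
    rw [e0]
    apply mul_le_mul (by linarith) _ (by positivity) (by positivity)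
    calc (2 : ℝ) ^ (c.par t).n * Real.exp (-(q.dlt * (t : ℝ) ^ c.E / 2))
        ≤ Real.exp (q.dlt * (t : ℝ) ^ c.E / 4) * Real.exp (-(q.dlt * (t : ℝ) ^ c.E / 2)) :=
          mul_le_mul_of_nonneg_right h5 (Real.exp_pos _).le
      _ = Real.exp (-(q.dlt / 4 * (t : ℝ) ^ c.E)) := by
          rw [← Real.exp_add]; congr 1; ring
      _ ≤ Real.exp (-(q.dlt / 4 * t)) := by
          apply Real.exp_le_exp.2
          have := mul_le_mul_of_nonneg_left htE (show (0 : ℝ) ≤ q.dlt / 4 by positivity)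
          linarith
  refine h6.trans ?_
  have h7 : (t : ℝ) ^ (5 * c.E) ≤ 1 / (2 * (c.h * c.W) + 1) * Real.exp (q.dlt / 4 * t) := by
    have h8 := h1
    simp only [Function.comp] at h8
    rw [Real.norm_of_nonneg (by positivity), Real.norm_of_nonneg (Real.exp_pos _).le] at h8
    exact h8
  have h9 : (0 : ℝ) < 2 * (c.h * c.W) + 1 := by positivity
  rw [le_div_iff₀ (by positivity), Real.exp_neg]
  have hx : 0 < Real.exp (q.dlt / 4 * t) := Real.exp_pos _
  calc (2 * (c.h * c.W) + 1) * (Real.exp (q.dlt / 4 * t))⁻¹ * (t : ℝ) ^ (5 * c.E)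
      ≤ (2 * (c.h * c.W) + 1) * (Real.exp (q.dlt / 4 * t))⁻¹ *
        (1 / (2 * (c.h * c.W) + 1) * Real.exp (q.dlt / 4 * t)) :=
        mul_le_mul_of_nonneg_left h7 (by positivity)
    _ = 1 := by field_simp

end Pool.Agent.AM
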