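import Pool.Agent.AM.Defs2
import Pool.Agent.AM.OrdBlk
import Pool.Agent.AM.Path
import Pool.Agent.AM.PrBasic
import Pool.Agent.AM.CardP

set_option autoImplicit false

open scoped Classical
open Finset

noncomputable section

namespace Pool.Agent.AM

namespace RelSP

variable {C : Cst} {p : Par C}

/-- a pick of a frame point lies above it -/
theorem le_pick (ω : Om p) (k : Fin (C.h + 1)) (x : Fin p.n) (i : Fin p.d) :
    Le ω (V p k.val x) (V p (k.val + 1) (ω (.fu k x) i)) :=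
  Relation.ReflTransGen.single
    (Step.up (R := ∅) (.fu k x) (by simp) rfl (V p k.val x) rfl i)

/-- the rows `fu k x`, `x ∈ X` -/
def Rs (k : Fin (C.h + 1)) (X : Finset (Fin p.n)) : Set (Row p) := {r | ∃ x ∈ X, r = .fu k x}

/-- bad pairs -/
def badP (ω : Om p) (X U : Finset (Fin p.n)) (a b : Fin p.n → Pt p) :
    Finset (Fin p.n × Fin p.n) :=
  (X ×ˢ U).filter fun xu => ¬ Le ω (a xu.1) (b xu.2)

theorem badP_card (ω : Om p) (X U : Finset (Fin p.n)) (a b : Fin p.n → Pt p) :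
    (badP ω X U a b).card = ∑ x ∈ X, (U.filter fun u => ¬ Le ω (a x) (b u)).card := by
  unfold badP
  rw [Finset.card_filter, Finset.sum_product]
  refine Finset.sum_congr rfl fun x _ => ?_
  rw [Finset.card_filter]

/-- forbidden targets of the rows -/
def Zf (ω : Om p) (R : Set (Row p)) (U : Finset (Fin p.n)) (a b : Fin p.n → Pt p) :
    Row p → Finset (Fin p.n)
  | .fu _ x => U.filter fun u => ¬ LeA ω R (a x) (b u)
  | _ => ∅

/-- one choice of all the data -/
theorem fix_bound (hn : 0 < p.n) (k : Fin (C.h + 1)) (X U : Finset (Fin p.n))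
    (a b : Fin p.n → Pt p)
    (hind : ∀ ω : Om p, ∀ x ∈ X, ∀ u ∈ U, Le ω (a x) (b u) → LeA ω (Rs k X) (a x) (b u)) (β : ℝ) :
    Pr (fun ω : Om p => (∀ x ∈ X, ∀ u ∈ U, Le ω (V p k.val x) (V p (k.val + 1) u) →
        Le ω (a x) (b u)) ∧ β ≤ ((badP ω X U a b).card : ℝ))
      ≤ Real.exp (-(p.d : ℝ) * β / p.n) := by
  have hn' : (0 : ℝ) < p.n := by exact_mod_cast hn
  have : Nonempty (Fin p.n) := ⟨⟨0, hn⟩⟩
  have hiff : ∀ ω : Om p, ∀ x ∈ X, ∀ u ∈ U, (Le ω (a x) (b u) ↔ LeA ω (Rs k X) (a x) (b u)) :=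
    fun ω x hx u hu => ⟨hind ω x hx u hu, le_of_leA⟩
  refine Pr_rows (ι := Row p) (α := Fin p.d → Fin p.n) (Rs k X) _ _ ?_
  intro ω
  set M : Om p → Om p := fun ω' => fun r => if r ∈ Rs k X then ω' r else ω r with hM
  have hMeq : ∀ ω' : Om p, ∀ r, r ∉ Rs k X → M ω' r = ω r := by
    intro ω' r hr
    simp only [hM, if_neg hr]
  have hle : ∀ ω' : Om p, ∀ x ∈ X, ∀ u ∈ U, (Le (M ω') (a x) (b u) ↔ LeA ω (Rs k X) (a x) (b u)) := by
    intro ω' x hx u hu
    rw [hiff (M ω') x hx u hu]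
    exact leA_congr (hMeq ω') _ _
  have hbad : ∀ ω' : Om p, (badP (M ω') X U a b).card
      = ∑ x ∈ X, (U.filter fun u => ¬ LeA ω (Rs k X) (a x) (b u)).card := by
    intro ω'
    rw [badP_card]
    refine Finset.sum_congr rfl fun x hx => ?_
    congr 1
    apply Finset.filter_congr
    intro u hu
    rw [hle ω' x hx u hu]
  by_cases hb : β ≤ ((∑ x ∈ X, (U.filter fun u => ¬ LeA ω (Rs k X) (a x) (b u)).card : ℕ) : ℝ)
  · have h1 := Pr_no_hit (ι := Row p) (d := p.d) (n := p.n) hn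
      (X.image fun x => Row.fu (p := p) k x) (Zf ω (Rs k X) U a b)
    refine le_trans (Pr_mono ?_) (h1.trans ?_)
    · rintro ω' ⟨hω, _⟩ r hr i
      obtain ⟨x, hx, rfl⟩ := Finset.mem_image.1 hr
      simp only [Zf, Finset.mem_filter, not_and, not_not]
      intro hu
      have h2 : M ω' (.fu k x) i = ω' (.fu k x) i := by
        have : (Row.fu (p := p) k x) ∈ Rs k X := ⟨x, hx, rfl⟩
        simp only [hM, if_pos this]
      rw [← h2] at hu ⊢
      rw [← hle ω' x hx _ hu]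
      exact hω x hx _ hu (le_pick (M ω') k x i)
    · apply Real.exp_le_exp.2
      have h2 : ∑ r ∈ X.image (fun x => Row.fu (p := p) k x), ((Zf ω (Rs k X) U a b r).card : ℝ)
          = ((∑ x ∈ X, (U.filter fun u => ¬ LeA ω (Rs k X) (a x) (b u)).card : ℕ) : ℝ) := by
        rw [Finset.sum_image (by
          intro x _ y _ hxy
          simpa using hxy)]
        push_cast
        rfl
      rw [h2]
      apply div_le_div_of_nonneg_right _ hn'.le
      rw [neg_mul, neg_mul]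
      apply neg_le_neg
      exact mul_le_mul_of_nonneg_left hb (Nat.cast_nonneg _)
  · refine le_trans (le_trans (Pr_mono (T := fun _ => False) ?_) (le_of_eq ?_))
      (Real.exp_nonneg _)
    · rintro ω' ⟨_, h⟩
      apply hb
      rw [← hbad ω']
      exact h
    · simp [Pr]

/-- (i1), (i2) -/
theorem hind_lev (k : Fin (C.h + 1)) (X U : Finset (Fin p.n)) (a b : Fin p.n → Pt p)
    (h : (∀ x ∈ X, k.val + 1 ≤ lev (a x)) ∨ (∀ u ∈ U, lev (b u) ≤ k.val)) :
    ∀ ω : Om p, ∀ x ∈ X, ∀ u ∈ U, Le ω (a x) (b u) → LeA ω (Rs k X) (a x) (b u) := by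
  intro ω x hx u hu hle
  refine leA_of_le_lev hle ?_
  rintro r ⟨y, _, rfl⟩
  simp only [Row.olev, Row.tlev]
  rcases h with h | h
  · left
    have := h x hx
    rw [min_eq_left (by omega)]
    omega
  · right
    have := h u hu
    rw [max_eq_right (by omega)]
    omega

/-- (ii) -/
theorem hind_ii (k : Fin (C.h + 1)) (X U : Finset (Fin p.n)) (a b : Fin p.n → Pt p)
    (ha : ∀ x ∈ X, lev (a x) = k.val) (hne : ∀ x ∈ X, ∀ y ∈ X, a x ≠ V p k.val y) :
    ∀ ω : Om p, ∀ x ∈ X, ∀ u ∈ U, Le ω (a x) (b u) → LeA ω (Rs k X) (a x) (b u) := by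
  intro ω x hx u _ hle
  refine leA_of_le hle ?_
  rintro r ⟨y, hy, rfl⟩ z hz i
  constructor
  · intro _ h1 _
    have hz' : z = V p k.val y := hz
    subst hz'
    have hk : k.val ≤ C.h + 1 := by have := k.isLt; omega
    have h2 := (blkOrd_le ω).same _ _ h1 (by rw [ha x hx, lev_V hk])
    rcases h2 with h2 | ⟨c, e, e', _, h3, _⟩
    · exact hne x hx y hy h2
    · simp [V] at h3
  · intro h
    simp [Row.up] at h

/-- Averaging over the sets `G`. -/
theorem exists_G {n : ℕ} (X : Finset (Fin n)) (w : Fin n → ℕ) (t : Fin n → Option (Fin n))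
    (ht : ∀ x ∈ X, t x ≠ some x) :
    ∃ G : Finset (Fin n), ∑ x ∈ X, w x ≤
      4 * ∑ x ∈ X.filter (fun x => x ∈ G ∧ ∀ y ∈ G, t x ≠ some y), w x := by
  by_contra hcon
  push Not at hcon
  -- sum over all G
  have h1 : ∑ G : Finset (Fin n), 4 * ∑ x ∈ X.filter (fun x => x ∈ G ∧ ∀ y ∈ G, t x ≠ some y), w x
      < ∑ G : Finset (Fin n), ∑ x ∈ X, w x :=
    Finset.sum_lt_sum_of_nonempty Finset.univ_nonempty (fun G _ => hcon G)
  have h2 : ∀ x ∈ X, 2 ^ n ≤ 4 * ((univ : Finset (Finset (Fin n))).filter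
      (fun G => x ∈ G ∧ ∀ y ∈ G, t x ≠ some y)).card := by
    intro x hx
    rcases htx : t x with _ | y
    · -- `G ∋ x`
      have hsub : ((univ.erase x : Finset (Fin n)).powerset).image (fun S => insert x S) ⊆
          ((univ : Finset (Finset (Fin n))).filter (fun G => x ∈ G ∧ ∀ y ∈ G, (none : Option (Fin n)) ≠ some y)) := by
        intro G hG
        rw [mem_image] at hG
        obtain ⟨S, _, rfl⟩ := hG
        simp
      have hc : (((univ.erase x : Finset (Fin n)).powerset).image (fun S => insert x S)).card = 2 ^ (n - 1) := by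
        rw [Finset.card_image_of_injOn, card_powerset, card_erase_of_mem (mem_univ x)]
        · simp
        · intro S hS S' hS' h
          rw [mem_coe, mem_powerset] at hS hS'
          have hxS : x ∉ S := fun h => (mem_erase.mp (hS h)).1 rfl
          have hxS' : x ∉ S' := fun h => (mem_erase.mp (hS' h)).1 rfl
          have := congrArg (fun F => Finset.erase F x) h
          simpa [erase_insert hxS, erase_insert hxS'] using this
      have hn : 0 < n := x.pos
      have := Finset.card_le_card hsub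
      rw [hc] at this
      have h2n : 2 ^ n = 2 * 2 ^ (n - 1) := by
        rw [← pow_succ']; congr 1; omega
      omega
    · have hyx : y ≠ x := by
        rintro rfl; exact ht _ hx htx
      have hsub : (((univ.erase x).erase y : Finset (Fin n)).powerset).image (fun S => insert x S) ⊆
          ((univ : Finset (Finset (Fin n))).filter (fun G => x ∈ G ∧ ∀ y' ∈ G, some y ≠ some y')) := by
        intro G hG
        rw [mem_image] at hG
        obtain ⟨S, hS, rfl⟩ := hG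
        rw [mem_powerset] at hS
        simp only [mem_filter, mem_univ, true_and, mem_insert, true_or, ne_eq, Option.some.injEq]
        rintro y' (rfl | hy')
        · exact hyx
        · rintro rfl
          exact (mem_erase.mp (hS hy')).1 rfl
      have hc : ((((univ.erase x).erase y : Finset (Fin n)).powerset).image (fun S => insert x S)).card
          = 2 ^ (n - 2) := by
        rw [Finset.card_image_of_injOn, card_powerset, card_erase_of_mem, card_erase_of_mem (mem_univ x)]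
        · simp; rfl
        · exact mem_erase.mpr ⟨hyx, mem_univ y⟩
        · intro S hS S' hS' h
          rw [mem_coe, mem_powerset] at hS hS'
          have hxS : x ∉ S := fun h => (mem_erase.mp (mem_erase.mp (hS h)).2).1 rfl
          have hxS' : x ∉ S' := fun h => (mem_erase.mp (mem_erase.mp (hS' h)).2).1 rfl
          have := congrArg (fun F => Finset.erase F x) h
          simpa [erase_insert hxS, erase_insert hxS'] using this
      have hn : 2 ≤ n := by
        have : 1 < Fintype.card (Fin n) := Fintype.one_lt_card_iff.mpr ⟨y, x, hyx⟩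
        rw [Fintype.card_fin] at this
        exact this
      have := Finset.card_le_card hsub
      rw [hc] at this
      have h2n : 2 ^ n = 4 * 2 ^ (n - 2) := by
        have : n = (n - 2) + 2 := by omega
        conv_lhs => rw [this, pow_add]
        ring
      omega
  have h3 : ∑ G : Finset (Fin n), ∑ x ∈ X, w x
      ≤ ∑ G : Finset (Fin n), 4 * ∑ x ∈ X.filter (fun x => x ∈ G ∧ ∀ y ∈ G, t x ≠ some y), w x := by
    have e1 : ∑ G : Finset (Fin n), ∑ x ∈ X, w x = ∑ x ∈ X, ∑ _G : Finset (Fin n), w x :=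
      Finset.sum_comm
    have e2 : ∑ G : Finset (Fin n), 4 * ∑ x ∈ X.filter (fun x => x ∈ G ∧ ∀ y ∈ G, t x ≠ some y), w x
        = ∑ x ∈ X, ∑ G : Finset (Fin n), 4 * (if x ∈ G ∧ ∀ y ∈ G, t x ≠ some y then w x else 0) := by
      simp only [Finset.sum_filter, Finset.mul_sum]
      exact Finset.sum_comm
    rw [e1, e2]
    refine Finset.sum_le_sum fun x hx => ?_
    rw [← Finset.mul_sum, ← Finset.sum_filter, Finset.sum_const, Finset.sum_const, smul_eq_mul,
      smul_eq_mul, ← mul_assoc]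
    refine Nat.mul_le_mul_right _ ?_
    have := h2 x hx
    simpa using this
  omega

/-- the failure event for fixed data -/
def Ev (d2 : ℝ) (k : Fin (C.h + 1)) (X U : Finset (Fin p.n)) (a b : Fin p.n → Pt p) (ω : Om p) :
    Prop :=
  (((∀ x ∈ X, k.val + 1 ≤ lev (a x)) ∧ ∀ u ∈ U, k.val + 1 ≤ lev (b u)) ∨
     ((∀ x ∈ X, lev (a x) ≤ k.val) ∧ ∀ u ∈ U, lev (b u) ≤ k.val) ∨
     ((∀ x ∈ X, lev (a x) = k.val ∧ a x ≠ V p k.val x) ∧ ∀ u ∈ U, k.val + 1 ≤ lev (b u))) ∧
  (∀ x ∈ X, ∀ u ∈ U, Le ω (V p k.val x) (V p (k.val + 1) u) → Le ω (a x) (b u)) ∧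
  d2 * (p.n : ℝ) ^ 2 < ((badP ω X U a b).card : ℝ)

theorem data_bound (hn : 0 < p.n) (d2 : ℝ) (hd2 : 0 < d2) (k : Fin (C.h + 1))
    (X U : Finset (Fin p.n)) (a b : Fin p.n → Pt p) :
    Pr (Ev d2 k X U a b) ≤ 2 ^ p.n * Real.exp (-(p.d : ℝ) * (d2 / 4 * p.n)) := by
  have hn' : (0 : ℝ) < p.n := by exact_mod_cast hn
  have hd : (0 : ℝ) ≤ p.d := Nat.cast_nonneg _
  set c : ℝ := Real.exp (-(p.d : ℝ) * (d2 / 4 * p.n)) with hc
  have hc0 : 0 < c := Real.exp_pos _
  have h2n : (1 : ℝ) ≤ 2 ^ p.n := one_le_pow₀ (by norm_num)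
  have hcc : c ≤ 2 ^ p.n * c := by nlinarith
  -- the bound from `fix_bound` for `X` itself
  have hA : ∀ (hind : ∀ ω : Om p, ∀ x ∈ X, ∀ u ∈ U, Le ω (a x) (b u) →
      LeA ω (Rs k X) (a x) (b u)), Pr (Ev d2 k X U a b) ≤ 2 ^ p.n * c := by
    intro hind
    refine le_trans ?_ hcc
    refine le_trans (Pr_mono ?_) ((fix_bound hn k X U a b hind (d2 * (p.n : ℝ) ^ 2)).trans ?_)
    · rintro ω ⟨_, h1, h2⟩
      exact ⟨h1, h2.le⟩
    · apply Real.exp_le_exp.2
      have e : -(p.d : ℝ) * (d2 * (p.n : ℝ) ^ 2) / p.n = -((p.d : ℝ) * (d2 * p.n)) := by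
        field_simp
      rw [e, neg_mul]
      apply neg_le_neg
      apply mul_le_mul_of_nonneg_left _ hd
      nlinarith [mul_pos hd2 hn']
  by_cases h1 : (∀ x ∈ X, k.val + 1 ≤ lev (a x)) ∧ ∀ u ∈ U, k.val + 1 ≤ lev (b u)
  · exact hA (hind_lev k X U a b (Or.inl h1.1))
  by_cases h2 : (∀ x ∈ X, lev (a x) ≤ k.val) ∧ ∀ u ∈ U, lev (b u) ≤ k.val
  · exact hA (hind_lev k X U a b (Or.inr h2.2))
  by_cases h3 : (∀ x ∈ X, lev (a x) = k.val ∧ a x ≠ V p k.val x) ∧ ∀ u ∈ U, k.val + 1 ≤ lev (b u)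
  swap
  · refine le_trans (le_trans (Pr_mono (T := fun _ => False) ?_) (le_of_eq ?_)) (by positivity)
    · rintro ω ⟨h | h | h, _⟩
      · exact h1 h
      · exact h2 h
      · exact h3 h
    · simp [Pr]
  -- case (ii)
  have hk : k.val ≤ C.h + 1 := by have := k.isLt; omega
  set t : Fin p.n → Option (Fin p.n) :=
    fun x => if h : ∃ y, a x = V p k.val y then some h.choose else none with ht
  have ht1 : ∀ x y, a x = V p k.val y → t x = some y := by
    intro x y hxy
    have hex : ∃ y, a x = V p k.val y := ⟨y, hxy⟩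
    simp only [ht, dif_pos hex]
    congr 1
    exact (V_inj hk hk (hex.choose_spec.symm.trans hxy)).2
  have ht2 : ∀ x ∈ X, t x ≠ some x := by
    intro x hx h
    by_cases hex : ∃ y, a x = V p k.val y
    · simp only [ht, dif_pos hex, Option.some.injEq] at h
      have := hex.choose_spec
      rw [h] at this
      exact (h3.1 x hx).2 this
    · simp only [ht, dif_neg hex] at h
      exact absurd h (by simp)
  set XG : Finset (Fin p.n) → Finset (Fin p.n) :=
    fun G => X.filter (fun x => x ∈ G ∧ ∀ y ∈ G, t x ≠ some y) with hXG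
  have hcov := Pr_exists (Ω := Om p) (ι := Finset (Fin p.n))
    (fun G ω => (∀ x ∈ XG G, ∀ u ∈ U, Le ω (V p k.val x) (V p (k.val + 1) u) →
        Le ω (a x) (b u)) ∧ d2 * (p.n : ℝ) ^ 2 / 4 ≤ ((badP ω (XG G) U a b).card : ℝ)) c
    (by
      intro G
      refine (fix_bound hn k (XG G) U a b
        (hind_ii k (XG G) U a b (fun x hx => (h3.1 x (mem_filter.mp hx).1).1)
          (by
            intro x hx y hy hxy
            have hx' := (mem_filter.mp hx).2
            have hy' := (mem_filter.mp hy).2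
            exact hx'.2 y hy'.1 (ht1 x y hxy))) (d2 * (p.n : ℝ) ^ 2 / 4)).trans (le_of_eq ?_)
      rw [hc]
      congr 1
      field_simp)
  rw [Fintype.card_finset, Fintype.card_fin, Nat.cast_pow, Nat.cast_ofNat] at hcov
  refine le_trans (Pr_mono ?_) hcov
  rintro ω ⟨_, h4, h5⟩
  obtain ⟨G, hG⟩ := exists_G X (fun x => (U.filter fun u => ¬ Le ω (a x) (b u)).card) t ht2
  refine ⟨G, fun x hx => h4 x (mem_filter.mp hx).1, ?_⟩
  rw [← badP_card, ← badP_card ω (X.filter fun x => x ∈ G ∧ ∀ y ∈ G, t x ≠ some y)] at hG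
  have h6 : ((badP ω X U a b).card : ℝ) ≤ 4 * ((badP ω (XG G) U a b).card : ℝ) := by
    exact_mod_cast hG
  linarith

/-- the bound for one block -/
theorem rel_bound (hn : 0 < p.n) (q : Con) (hd2 : 0 < q.d2) :
    Pr (fun ω : Om p => ¬ RelS q p (Le ω)) ≤
      ((C.h + 1 : ℕ) * (2 ^ p.n * (2 ^ p.n * ((Fintype.card (Pt p)) ^ p.n *
        (Fintype.card (Pt p)) ^ p.n))) : ℝ) *
        (2 ^ p.n * Real.exp (-(p.d : ℝ) * (q.d2 / 4 * p.n))) := by
  have h1 := Pr_exists (Ω := Om p)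
    (ι := Fin (C.h + 1) × Finset (Fin p.n) × Finset (Fin p.n) × (Fin p.n → Pt p) ×
      (Fin p.n → Pt p))
    (fun i => Ev q.d2 i.1 i.2.1 i.2.2.1 i.2.2.2.1 i.2.2.2.2)
    (2 ^ p.n * Real.exp (-(p.d : ℝ) * (q.d2 / 4 * p.n)))
    (fun i => data_bound hn q.d2 hd2 i.1 i.2.1 i.2.2.1 i.2.2.2.1 i.2.2.2.2)
  refine le_trans (Pr_mono ?_) (h1.trans (le_of_eq ?_))
  · intro ω hω
    unfold RelS at hω
    push Not at hω
    obtain ⟨k, hk, X, U, a, b, h2, h3, h4⟩ := hω
    exact ⟨(⟨k, Nat.lt_succ_of_le hk⟩, X, U, a, b), h2, h3, h4⟩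
  · congr 1
    simp only [Fintype.card_prod, Fintype.card_fin, Fintype.card_finset, Fintype.card_fun]
    push_cast
    ring

theorem ev_lin (A B δ : ℝ) (hδ : 0 < δ) :
    ∀ᶠ t : ℕ in Filter.atTop, A + B * Real.log (t : ℝ) ≤ δ * t := by
  have h1 : (fun x : ℝ => A + B * Real.log x) =o[Filter.atTop] (id : ℝ → ℝ) :=
    (Asymptotics.isLittleO_const_id_atTop A).add
      (Real.isLittleO_log_id_atTop.const_mul_left B)
  have h2 := (h1.bound hδ)
  have h3 := tendsto_natCast_atTop_atTop (R := ℝ) |>.eventually h2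
  filter_upwards [h3] with t ht
  have h4 : ‖id (t : ℝ)‖ = (t : ℝ) := by
    simp
  rw [h4] at ht
  exact (le_abs_self _).trans ht

end RelSP

open RelSP in
/-- (R), target the block itself -/
theorem pr_relS (c : PC) (q : Con) (hc : c.Ok q) : ∀ᶠ t in Filter.atTop,
    Pr (fun ω : Om (c.par t) => ¬ RelS q (c.par t) (Le ω)) ≤ 1 / (t : ℝ) ^ (5 * c.E) := by
  have hL1 : 1 ≤ c.lam ^ (c.W - 1) := Nat.one_le_pow _ _ (by rw [hc.lam]; norm_num)
  have hE1 : 1 ≤ c.E := by
    rw [hc.E]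
    have : 1 ≤ c.lam ^ (c.W - 1) * (c.h + 2) := Nat.mul_pos hL1 (by omega)
    omega
  have hd4 : 0 < q.d2 / 4 := by have := hc.d20; positivity
  filter_upwards [ev_lin (Real.log ((c.h + 1 : ℕ) : ℝ) + Real.log 8) (11 * c.E) (q.d2 / 4) hd4,
    Filter.eventually_ge_atTop 1, card_pt c q hc] with t ht ht1 hcard0
  have hcard : Fintype.card (Pt (c.par t)) ≤ t ^ (3 * c.E) :=
    hcard0.1.trans (Nat.pow_le_pow_right ht1 (by omega))
  have ht1' : (1 : ℝ) ≤ t := by exact_mod_cast ht1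
  have ht0 : (0 : ℝ) < t := by linarith
  have hlog : 0 ≤ Real.log (t : ℝ) := Real.log_nonneg ht1'
  have hn1 : 1 ≤ (c.par t).n := Nat.one_le_pow _ _ ht1
  have hn1' : (1 : ℝ) ≤ ((c.par t).n : ℝ) := by exact_mod_cast hn1
  have hd : (t : ℝ) ≤ ((c.par t).d : ℝ) := by
    have : t ≤ (c.par t).d := by
      calc t = t ^ 1 := (pow_one t).symm
        _ ≤ t ^ (c.lam ^ (c.W - 1)) := Nat.pow_le_pow_right ht1 hL1
    exact_mod_cast this
  refine (rel_bound (p := c.par t) hn1 q hc.d20).trans ?_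
  set n := (c.par t).n with hndef
  set d := (c.par t).d with hddef
  set M := Fintype.card (Pt (c.par t)) with hM
  set L := Real.log (t : ℝ) with hLdef
  have hMle : (M : ℝ) ^ n ≤ Real.exp (n * (3 * c.E * L)) := by
    have h1 : (M : ℝ) ≤ Real.exp (3 * c.E * L) := by
      have h2 : (M : ℝ) ≤ (t : ℝ) ^ (3 * c.E) := by exact_mod_cast hcard
      refine h2.trans (le_of_eq ?_)
      rw [hLdef, show (3 * (c.E : ℝ) * Real.log t) = ((3 * c.E : ℕ) : ℝ) * Real.log t by
        push_cast; ring, Real.exp_nat_mul, Real.exp_log ht0]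
    calc (M : ℝ) ^ n ≤ (Real.exp (3 * c.E * L)) ^ n :=
          pow_le_pow_left₀ (Nat.cast_nonneg _) h1 n
      _ = Real.exp (n * (3 * c.E * L)) := by rw [Real.exp_nat_mul]
  have h8n : (2 : ℝ) ^ n * 2 ^ n * 2 ^ n = Real.exp (n * Real.log 8) := by
    rw [Real.exp_nat_mul, Real.exp_log (by norm_num), ← mul_pow, ← mul_pow]
    norm_num
  have hh : ((c.h + 1 : ℕ) : ℝ) = Real.exp (Real.log ((c.h + 1 : ℕ) : ℝ)) := by
    rw [Real.exp_log]
    positivity
  have hlogh : 0 ≤ Real.log ((c.h + 1 : ℕ) : ℝ) := Real.log_natCast_nonneg _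
  have hR : 1 / (t : ℝ) ^ (5 * c.E) = Real.exp (-(5 * c.E * L)) := by
    rw [Real.exp_neg, show (5 * (c.E : ℝ) * L) = ((5 * c.E : ℕ) : ℝ) * L by
        push_cast; ring, Real.exp_nat_mul, hLdef, Real.exp_log ht0, one_div]
  rw [hR]
  have hM0 : (0 : ℝ) ≤ (M : ℝ) ^ n := by positivity
  calc (((c.h + 1 : ℕ) : ℝ) * (2 ^ n * (2 ^ n * ((M : ℝ) ^ n * (M : ℝ) ^ n)))) *
        (2 ^ n * Real.exp (-(d : ℝ) * (q.d2 / 4 * n)))
      = ((c.h + 1 : ℕ) : ℝ) * ((2 ^ n * 2 ^ n * 2 ^ n) * ((M : ℝ) ^ n * (M : ℝ) ^ n)) *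
        Real.exp (-(d : ℝ) * (q.d2 / 4 * n)) := by ring
    _ ≤ Real.exp (Real.log ((c.h + 1 : ℕ) : ℝ)) * (Real.exp (n * Real.log 8) *
        (Real.exp (n * (3 * c.E * L)) * Real.exp (n * (3 * c.E * L)))) *
        Real.exp (-(d : ℝ) * (q.d2 / 4 * n)) := by
        rw [← hh, ← h8n]
        gcongr
    _ = Real.exp (Real.log ((c.h + 1 : ℕ) : ℝ) + (n * Real.log 8 +
        (n * (3 * c.E * L) + n * (3 * c.E * L))) + (-(d : ℝ) * (q.d2 / 4 * n))) := by
        rw [← Real.exp_add, ← Real.exp_add, ← Real.exp_add, ← Real.exp_add]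
    _ ≤ Real.exp (-(5 * c.E * L)) := by
        apply Real.exp_le_exp.2
        have e1 : Real.log ((c.h + 1 : ℕ) : ℝ) ≤ n * Real.log ((c.h + 1 : ℕ) : ℝ) := by
          nlinarith
        have hEL : 0 ≤ (c.E : ℝ) * L := by positivity
        have e2 : 5 * c.E * L ≤ n * (5 * c.E * L) := by nlinarith
        have e3 : (n : ℝ) * (Real.log ((c.h + 1 : ℕ) : ℝ) + Real.log 8 + 11 * c.E * L)
            ≤ n * (q.d2 / 4 * d) := by
          apply mul_le_mul_of_nonneg_left _ (by linarith)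
          exact ht.trans (mul_le_mul_of_nonneg_left hd hd4.le)
        nlinarith

end Pool.Agent.AM
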