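import Pool.Agent.AM.Defs2
import Pool.Agent.AM.OrdBlk
import Pool.Agent.AM.Path
import Pool.Agent.AM.CardP
import Pool.Agent.AM.Cnt0

set_option autoImplicit false

open scoped Classical
open Finset

noncomputable section

namespace Pool.Agent.AM

/-- one row: at least a quarter of the picks in a set of size `≤ κ` not depending on the row -/
private theorem ThinP_one {C : Cst} {p : Par C} (hn : 0 < p.n) (r : Row p) (κ h : ℕ)
    (hh : p.d ≤ 4 * h) (hh' : 4 * h ≤ p.d + 3)
    (B : Om p → Finset (Fin p.n))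
    (hB : ∀ ω ω' : Om p, (∀ r', r' ≠ r → ω' r' = ω r') → B ω' = B ω) :
    Pr (fun ω : Om p => (B ω).card ≤ κ ∧
      p.d ≤ 4 * (univ.filter fun i => ω r i ∈ B ω).card) ≤ (16 * (κ : ℝ) / (p.n : ℝ)) ^ h := by
  have hne : Nonempty (Fin p.n) := ⟨⟨0, hn⟩⟩
  have hnR : (0 : ℝ) < (p.n : ℝ) := by exact_mod_cast hn
  have hΩ : (0 : ℝ) < (Fintype.card (Om p) : ℝ) := by exact_mod_cast Fintype.card_pos
  have key := CN.hits_one_row (R := Row p) (ι := Fin p.d) (V := Fin p.n) r
    (fun ω => if (B ω).card ≤ κ then B ω else ∅) κ h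
    (fun ω ω' h1 => by simp only [hB ω ω' h1])
    (fun ω => by split_ifs with h1 <;> simp [h1])
  unfold Pr
  rw [div_le_iff₀ hΩ, div_pow, div_mul_eq_mul_div, le_div_iff₀ (by positivity)]
  have h2 : ((univ.filter fun ω : Om p => (B ω).card ≤ κ ∧
      p.d ≤ 4 * (univ.filter fun i => ω r i ∈ B ω).card).card : ℝ) ≤
      ((univ.filter fun ω : Om p => h ≤ (univ.filter fun i =>
        ω r i ∈ (if (B ω).card ≤ κ then B ω else ∅)).card).card : ℝ) := by
    rw [Nat.cast_le]
    apply Finset.card_le_card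
    intro ω hω
    simp only [mem_filter, mem_univ, true_and] at hω ⊢
    obtain ⟨h3, h4⟩ := hω
    simp only [h3, if_true]
    omega
  have h5 : ((univ.filter fun ω : Om p => h ≤ (univ.filter fun i =>
        ω r i ∈ (if (B ω).card ≤ κ then B ω else ∅)).card).card : ℝ) * (p.n : ℝ) ^ h
      ≤ (((p.d).choose h : ℕ) : ℝ) * (κ : ℝ) ^ h * (Fintype.card (Om p) : ℝ) := by
    have := key
    simp only [Fintype.card_fin] at this
    exact_mod_cast this
  have h6 : (((p.d).choose h : ℕ) : ℝ) ≤ 16 ^ h := by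
    have h7 : (p.d).choose h ≤ 2 ^ p.d := Nat.choose_le_two_pow _ _
    have h8 : 2 ^ p.d ≤ 2 ^ (4 * h) := Nat.pow_le_pow_right (by norm_num) hh
    have h9 : (2 : ℕ) ^ (4 * h) = 16 ^ h := by rw [pow_mul]; norm_num
    have h10 : (p.d).choose h ≤ 16 ^ h := by omega
    exact_mod_cast h10
  calc _ ≤ ((univ.filter fun ω : Om p => h ≤ (univ.filter fun i =>
        ω r i ∈ (if (B ω).card ≤ κ then B ω else ∅)).card).card : ℝ) * (p.n : ℝ) ^ h :=
        mul_le_mul_of_nonneg_right (le_trans (le_of_eq (by congr!)) h2) (by positivity)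
    _ ≤ (((p.d).choose h : ℕ) : ℝ) * (κ : ℝ) ^ h * (Fintype.card (Om p) : ℝ) := h5
    _ ≤ 16 ^ h * (κ : ℝ) ^ h * (Fintype.card (Om p) : ℝ) := by gcongr
    _ = (16 * (κ : ℝ)) ^ h * (Fintype.card (Om p) : ℝ) := by rw [mul_pow]

/-- union bound in the form needed here -/
private theorem ThinP_union {Ω ι : Type} [Fintype Ω] [Fintype ι] (S : Ω → Prop)
    (E : ι → Ω → Prop) (q : ℝ) (hS : ∀ ω, S ω → ∃ i, E i ω) (hE : ∀ i, Pr (E i) ≤ q) :
    Pr S ≤ (Fintype.card ι : ℝ) * q := by
  have h1 : (univ.filter S) ⊆ (univ : Finset ι).biUnion fun i => univ.filter (E i) := by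
    intro ω hω
    simp only [mem_filter, mem_univ, true_and] at hω
    obtain ⟨i, hi⟩ := hS ω hω
    simp only [mem_biUnion, mem_filter, mem_univ, true_and]
    exact ⟨i, hi⟩
  have h2 : ((univ.filter S).card : ℝ) ≤ ∑ i : ι, ((univ.filter (E i)).card : ℝ) := by
    exact_mod_cast (Finset.card_le_card h1).trans Finset.card_biUnion_le
  calc Pr S ≤ (∑ i : ι, ((univ.filter (E i)).card : ℝ)) / (Fintype.card Ω : ℝ) := by
        unfold Pr
        exact div_le_div_of_nonneg_right h2 (Nat.cast_nonneg _)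
    _ = ∑ i : ι, Pr (E i) := by
        unfold Pr
        rw [Finset.sum_div]
    _ ≤ ∑ _i : ι, q := Finset.sum_le_sum fun i _ => hE i
    _ = _ := by simp

/-- few picks above a point unless an owner is -/
theorem pr_thin (c : PC) (q : Con) (hc : c.Ok q) : ∀ᶠ t in Filter.atTop,
    Pr (fun ω : Om (c.par t) => Cones (c.kappa t) ω ∧ ¬ Thin ω) ≤ 1 / (t : ℝ) ^ (5 * c.E) := by
  set L : ℕ := c.lam ^ (c.W - 1) * (c.h + 2) with hL
  have hE : c.E = 100 * L := hc.E
  have hlam : 1 ≤ c.lam ^ (c.W - 1) := Nat.one_le_pow _ _ (by rw [hc.lam]; norm_num)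
  have hL1 : 1 ≤ L := by
    have h2 : 1 ≤ c.h + 2 := by omega
    calc 1 = 1 * 1 := rfl
      _ ≤ c.lam ^ (c.W - 1) * (c.h + 2) := Nat.mul_le_mul hlam h2
  filter_upwards [card_pt c q hc, Filter.eventually_ge_atTop (4 * (7 * c.E + 8) + 16)]
    with t hcard ht
  obtain ⟨hPt, -, hRow⟩ := hcard
  have ht0 : 0 < t := by omega
  have ht16 : 16 ≤ t := by omega
  have htR : (0 : ℝ) < (t : ℝ) := by exact_mod_cast ht0
  have hn : 0 < (c.par t).n := Nat.pow_pos ht0
  have hd : t ≤ (c.par t).d := by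
    show t ≤ t ^ (c.lam ^ (c.W - 1))
    exact Nat.le_self_pow (by omega) t
  set p := c.par t with hp
  set h : ℕ := (p.d + 3) / 4 with hhdef
  have hh : p.d ≤ 4 * h := by omega
  have hh' : 4 * h ≤ p.d + 3 := by omega
  have hhE : 7 * c.E + 4 ≤ h := by omega
  set κ : ℕ := c.kappa t with hκ
  -- the density
  have hdens : (16 * (κ : ℝ) / (p.n : ℝ)) ≤ 1 / (t : ℝ) := by
    have hnR : (0 : ℝ) < (p.n : ℝ) := by exact_mod_cast hn
    rw [div_le_div_iff₀ hnR htR, one_mul]
    have h1 : 16 * κ * t ≤ p.n := by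
      have e1 : κ = t ^ (6 * L) := rfl
      have e2 : p.n = t ^ (c.E - 1) := rfl
      rw [e1, e2]
      calc 16 * t ^ (6 * L) * t ≤ t * t ^ (6 * L) * t := by gcongr
        _ = t ^ (6 * L + 2) := by ring
        _ ≤ t ^ (c.E - 1) := Nat.pow_le_pow_right ht0 (by omega)
    exact_mod_cast h1
  have hone : ∀ (r : Row p) (B : Om p → Finset (Fin p.n)),
      (∀ ω ω' : Om p, (∀ r', r' ≠ r → ω' r' = ω r') → B ω' = B ω) →
      Pr (fun ω : Om p => (B ω).card ≤ κ ∧
        p.d ≤ 4 * (univ.filter fun i => ω r i ∈ B ω).card) ≤ (1 / (t : ℝ)) ^ h := by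
    intro r B hB
    refine (ThinP_one hn r κ h hh hh' B hB).trans ?_
    exact pow_le_pow_left₀ (by positivity) hdens h
  -- the union bound
  have key := ThinP_union (fun ω : Om p => Cones κ ω ∧ ¬ Thin ω)
    (fun (i : Row p × Pt p × Bool) ω =>
      (if i.2.2 then
        ((univ.filter fun v => LeA ω {i.1} i.2.1 (V p i.1.tlev v)).card ≤ κ ∧
          p.d ≤ 4 * (univ.filter fun j =>
            ω i.1 j ∈ (univ.filter fun v => LeA ω {i.1} i.2.1 (V p i.1.tlev v))).card)
       else
        ((univ.filter fun v => LeA ω {i.1} (V p i.1.tlev v) i.2.1).card ≤ κ ∧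
          p.d ≤ 4 * (univ.filter fun j =>
            ω i.1 j ∈ (univ.filter fun v => LeA ω {i.1} (V p i.1.tlev v) i.2.1)).card)))
    ((1 / (t : ℝ)) ^ h)
    (by
      rintro ω ⟨hcon, hthin⟩
      unfold Thin at hthin
      rw [not_and_or] at hthin
      rcases hthin with hthin | hthin
      · push Not at hthin
        obtain ⟨r, z, hu, hz, hcard⟩ := hthin
        refine ⟨(r, z, true), ?_⟩
        simp only [if_true]
        have e : ∀ v, LeA ω {r} z (V p r.tlev v) ↔ Le ω z (V p r.tlev v) :=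
          fun v => (leA_of_le_up hu hz _).symm
        simp only [e, mem_filter, mem_univ, true_and]
        exact ⟨hcon.u z _ (tlev_le r).1, hcard⟩
      · push Not at hthin
        obtain ⟨r, z, hu, hz, hcard⟩ := hthin
        refine ⟨(r, z, false), ?_⟩
        simp only [Bool.false_eq_true, if_false]
        have e : ∀ v, LeA ω {r} (V p r.tlev v) z ↔ Le ω (V p r.tlev v) z :=
          fun v => (leA_of_le_dn hu hz _).symm
        simp only [e, mem_filter, mem_univ, true_and]
        exact ⟨hcon.d z _ (tlev_le r).1, hcard⟩)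
    (by
      rintro ⟨r, z, b⟩
      cases b with
      | true =>
        simp only [if_true]
        exact hone r _ (fun ω ω' h1 => by
          ext v
          simp only [mem_filter, mem_univ, true_and]
          exact leA_congr (fun r' hr' => h1 r' (by simpa using hr')) _ _)
      | false =>
        simp only [Bool.false_eq_true, if_false]
        exact hone r _ (fun ω ω' h1 => by
          ext v
          simp only [mem_filter, mem_univ, true_and]
          exact leA_congr (fun r' hr' => h1 r' (by simpa using hr')) _ _))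
  refine key.trans ?_
  have hcardι : (Fintype.card (Row p × Pt p × Bool) : ℝ) ≤ (t : ℝ) ^ (2 * c.E + 3) := by
    have h1 : Fintype.card (Row p × Pt p × Bool) ≤ t ^ (2 * c.E + 3) := by
      rw [Fintype.card_prod, Fintype.card_prod, Fintype.card_bool]
      calc Fintype.card (Row p) * (Fintype.card (Pt p) * 2)
          ≤ t ^ (c.E + 1) * (t ^ (c.E + 1) * t) := by gcongr; omega
        _ = t ^ (2 * c.E + 3) := by ring
    exact_mod_cast h1
  calc (Fintype.card (Row p × Pt p × Bool) : ℝ) * (1 / (t : ℝ)) ^ h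
      ≤ (t : ℝ) ^ (2 * c.E + 3) * (1 / (t : ℝ)) ^ h := by gcongr
    _ ≤ (t : ℝ) ^ (2 * c.E + 3) * (1 / (t : ℝ)) ^ (7 * c.E + 4) := by
        apply mul_le_mul_of_nonneg_left _ (by positivity)
        apply pow_le_pow_of_le_one (by positivity) _ hhE
        rw [div_le_one htR]
        exact_mod_cast (by omega : 1 ≤ t)
    _ ≤ 1 / (t : ℝ) ^ (5 * c.E) := by
        rw [one_div_pow, mul_one_div, div_le_div_iff₀ (by positivity) (by positivity), one_mul,
          ← pow_add]
        apply pow_le_pow_right₀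
        · exact_mod_cast (by omega : 1 ≤ t)
        · omega

end Pool.Agent.AM
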