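import Pool.Agent.AM.Defs2
import Pool.Agent.AM.OrdBlk
import Pool.Agent.AM.Path
import Pool.Agent.AM.PrBasic
import Pool.Agent.AM.CardP
import Pool.Agent.AM.Deg
import Pool.Agent.AM.ConeD
import Pool.Agent.AM.ThinP
import Pool.Agent.AM.ExpdP
import Pool.Agent.AM.MixP
import Pool.Agent.AM.RegP
import Pool.Agent.AM.A4fP
import Pool.Agent.AM.A4cP
import Pool.Agent.AM.RelSP
import Pool.Agent.AM.A1D
import Pool.Agent.AM.A6D
import Pool.Agent.AM.A5D

set_option autoImplicit false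

open scoped Classical
open Finset

noncomputable section

namespace Pool.Agent.AM

/-- (A2) from the picks -/
theorem goodP_a2 {C : Cst} {p : Par C} (q : Con) (ω : Om p) (h : MixE q ω) :
    ∀ k ≤ C.h, ∀ X U : Finset (Fin p.n), q.d1 * p.n ≤ X.card → q.d1 * p.n ≤ U.card →
    ∃ x ∈ X, ∃ u ∈ U, Le ω (V p k x) (V p (k + 1) u) := by
  intro k hk X U hX hU
  obtain ⟨x, hx, i, hi⟩ := h ⟨k, Nat.lt_succ_of_le hk⟩ X U hX hU
  refine ⟨x, hx, _, hi, ?_⟩
  have hs : Step ω ∅ (V p k x)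
      (V p (Row.tlev (Row.fu (⟨k, Nat.lt_succ_of_le hk⟩ : Fin (C.h + 1)) x : Row p))
        (ω (.fu ⟨k, Nat.lt_succ_of_le hk⟩ x) i)) :=
    Step.up (.fu ⟨k, Nat.lt_succ_of_le hk⟩ x) (Set.notMem_empty _) rfl (V p k x) rfl i
  exact Relation.ReflTransGen.single hs

theorem goodP_imp (c : PC) (q : Con) (t : ℕ) (hn : 0 < (c.par t).n) (hd : 0 < (c.par t).d)
    (hk : 4 * c.kappa t ≤ (c.par t).n) (ω : Om (c.par t))
    (hcone : Cones (c.kappa t) ω) (hthin : Thin ω) (hexp : Expd q ω) (hmix : MixE q ω)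
    (hreg : RegE q ω)
    (h4f : ∀ y z, ∀ k ≤ c.h + 1,
      (univ.filter fun v => V (c.par t) k v ≠ y ∧ V (c.par t) k v ≠ z ∧
        Le ω y (V (c.par t) k v) ∧ Le ω (V (c.par t) k v) z).card ≤ q.P)
    (h4c : ∀ y z, ∀ k : Fin c.cst.h,
      {a : Cell (c.par t) | a.k = k ∧ ¬ inCell a y ∧ ¬ inCell a z ∧
        ∃ e, Le ω y (.ce a e) ∧ Le ω (.ce a e) z}.ncard ≤ q.P) :
    GoodBlk q (c.par t) (Le ω) where
  npos := hn
  ord := blkOrd_le ω
  a1d := a1d_of q ω hthin hexp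
  a1u := a1u_of q ω hthin hexp
  a2 := goodP_a2 q ω hmix
  a3u := fun z k hkk => by
    have := hcone.u z k hkk
    omega
  a3d := fun z k hkk => by
    have := hcone.d z k hkk
    omega
  a4f := h4f
  a4c := h4c
  a5 := fun a => ⟨a5l_of ω hd hthin a, a5u_of ω hd hthin a⟩
  a6l := a6l_of q ω hthin hreg
  a6u := a6u_of q ω hthin hreg

theorem goodP_num (c : PC) (q : Con) (hc : c.Ok q) : ∀ᶠ t in Filter.atTop,
    0 < (c.par t).n ∧ 0 < (c.par t).d ∧ 4 * c.kappa t ≤ (c.par t).n := by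
  filter_upwards [Filter.eventually_ge_atTop 4] with t ht
  have hX : 1 ≤ c.lam ^ (c.W - 1) * (c.h + 2) := by
    have h1 : 0 < c.lam ^ (c.W - 1) := by rw [hc.lam]; positivity
    exact Nat.one_le_iff_ne_zero.mpr (Nat.mul_ne_zero h1.ne' (by omega))
  set X := c.lam ^ (c.W - 1) * (c.h + 2) with hXd
  have hE : c.E = 100 * X := hc.E
  have hn : (c.par t).n = t ^ (c.E - 1) := rfl
  have hkap : c.kappa t = t ^ (6 * X) := rfl
  rw [hn, hkap]
  have hdd : (c.par t).d = t ^ (c.lam ^ (c.W - 1)) := rfl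
  rw [hdd]
  refine ⟨pow_pos (by omega) _, pow_pos (by omega) _, ?_⟩
  calc 4 * t ^ (6 * X) ≤ t * t ^ (6 * X) := Nat.mul_le_mul_right _ ht
    _ = t ^ (6 * X + 1) := by rw [pow_succ]; ring
    _ ≤ t ^ (c.E - 1) := Nat.pow_le_pow_right (by omega) (by omega)

/-- one block is good with high probability -/
theorem pr_good (c : PC) (q : Con) (hc : c.Ok q) : ∀ᶠ t in Filter.atTop,
    Pr (fun ω : Om (c.par t) => ¬ (GoodBlk q (c.par t) (Le ω) ∧ RelS q (c.par t) (Le ω)))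
      ≤ 1 / (t : ℝ) ^ (4 * c.E) := by
  filter_upwards [Filter.eventually_ge_atTop 8, goodP_num c q hc, pr_deg c q hc,
    cones_of_deg c q hc, pr_thin c q hc, pr_expd c q hc, pr_mix c q hc, pr_reg c q hc,
    pr_a4f c q hc, pr_a4c c q hc, pr_relS c q hc] with t ht hnum hdeg hcone hthin hexp hmix hreg
      h4f h4c hrel
  have hE : 1 ≤ c.E := by
    have h1 : 0 < c.lam ^ (c.W - 1) := by rw [hc.lam]; positivity
    have h2 : 0 < c.lam ^ (c.W - 1) * (c.h + 2) := Nat.mul_pos h1 (by omega)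
    have := hc.E
    omega
  have hB : 8 * (1 / (t : ℝ) ^ (5 * c.E)) ≤ 1 / (t : ℝ) ^ (4 * c.E) := by
    have ht0 : (0 : ℝ) < t := by
      have : 0 < t := by omega
      exact_mod_cast this
    have ht8 : (8 : ℝ) ≤ (t : ℝ) ^ c.E := by
      calc (8 : ℝ) ≤ t := by exact_mod_cast ht
        _ = (t : ℝ) ^ 1 := (pow_one _).symm
        _ ≤ (t : ℝ) ^ c.E := pow_le_pow_right₀ (by
            have : (8 : ℝ) ≤ t := by exact_mod_cast ht
            linarith) hE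
    have h5 : (t : ℝ) ^ (5 * c.E) = (t : ℝ) ^ (4 * c.E) * (t : ℝ) ^ c.E := by
      rw [← pow_add]; congr 1; ring
    rw [h5, ← mul_div_assoc, mul_one, div_le_div_iff₀ (by positivity) (by positivity), one_mul]
    have h4 : (0 : ℝ) < (t : ℝ) ^ (4 * c.E) := by positivity
    nlinarith
  set B : ℝ := 1 / (t : ℝ) ^ (5 * c.E) with hBd
  refine le_trans (Pr_mono (T := fun ω : Om (c.par t) =>
    (¬ DegOk ω) ∨ (Cones (c.kappa t) ω ∧ ¬ Thin ω) ∨ (¬ Expd q ω) ∨ (¬ MixE q ω) ∨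
    (¬ RegE q ω) ∨
    (Cones (c.kappa t) ω ∧ ¬ (∀ y z, ∀ k ≤ c.h + 1,
      (univ.filter fun v => V (c.par t) k v ≠ y ∧ V (c.par t) k v ≠ z ∧
        Le ω y (V (c.par t) k v) ∧ Le ω (V (c.par t) k v) z).card ≤ q.P)) ∨
    (Cones (c.kappa t) ω ∧ ¬ (∀ y z, ∀ k : Fin c.cst.h,
      {a : Cell (c.par t) | a.k = k ∧ ¬ inCell a y ∧ ¬ inCell a z ∧
        ∃ e, Le ω y (.ce a e) ∧ Le ω (.ce a e) z}.ncard ≤ q.P)) ∨
    (¬ RelS q (c.par t) (Le ω))) ?_) ?_
  · intro ω hω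
    by_contra hcon
    push Not at hcon
    obtain ⟨k1, k2, k3, k4, k5, k6, k7, k8⟩ := hcon
    have hco := hcone ω k1
    exact hω ⟨goodP_imp c q t hnum.1 hnum.2.1 hnum.2.2 ω hco (k2 hco) k3 k4 k5 (k6 hco) (k7 hco), k8⟩
  · refine le_trans ?_ hB
    refine (Pr_or _ _).trans ?_
    have e1 := hdeg
    have e2 : Pr (fun ω : Om (c.par t) => (Cones (c.kappa t) ω ∧ ¬ Thin ω) ∨ (¬ Expd q ω) ∨
        (¬ MixE q ω) ∨ (¬ RegE q ω) ∨
        (Cones (c.kappa t) ω ∧ ¬ (∀ y z, ∀ k ≤ c.h + 1,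
          (univ.filter fun v => V (c.par t) k v ≠ y ∧ V (c.par t) k v ≠ z ∧
            Le ω y (V (c.par t) k v) ∧ Le ω (V (c.par t) k v) z).card ≤ q.P)) ∨
        (Cones (c.kappa t) ω ∧ ¬ (∀ y z, ∀ k : Fin c.cst.h,
          {a : Cell (c.par t) | a.k = k ∧ ¬ inCell a y ∧ ¬ inCell a z ∧
            ∃ e, Le ω y (.ce a e) ∧ Le ω (.ce a e) z}.ncard ≤ q.P)) ∨
        (¬ RelS q (c.par t) (Le ω))) ≤ 7 * B := by
      refine (Pr_or _ _).trans ?_
      refine (add_le_add hthin ((Pr_or _ _).trans (add_le_add hexp ((Pr_or _ _).trans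
        (add_le_add hmix ((Pr_or _ _).trans (add_le_add hreg ((Pr_or _ _).trans
        (add_le_add h4f ((Pr_or _ _).trans (add_le_add h4c hrel))))))))))).trans ?_
      linarith
    linarith

end Pool.Agent.AM
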