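import Pool.Agent.AM.Defs

set_option autoImplicit false

/-!
# Section 7 (7D): the size of an interval inside one block
-/

open scoped Classical
open Finset

noncomputable section

namespace Pool.Agent.AM

variable {C : Cst}

section block

variable {p : Par C} {le : Pt p → Pt p → Prop}

/-- one sort-level of a cell: the points of gadget `g` of the sorts `s` with `s.up = u` -/
def SL (c : Cell p) (g : Fin (C.K c.j)) (u : Bool) : Finset (Pt p) :=
  univ.filter fun x => ∃ (s : Srt) (l : Fin (p.T c.j)), s.up = u ∧ x = .ce c (g, s, l)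

lemma mem_SL {c : Cell p} {g : Fin (C.K c.j)} {u : Bool} {x : Pt p} :
    x ∈ SL c g u ↔ ∃ (s : Srt) (l : Fin (p.T c.j)), s.up = u ∧ x = .ce c (g, s, l) := by
  simp [SL]

/-- a sort-level is an antichain -/
lemma SL_anti (ho : BlkOrd le) (c : Cell p) (g : Fin (C.K c.j)) (u : Bool) :
    ∀ x ∈ SL c g u, ∀ y ∈ SL c g u, le x y → x = y := by
  intro x hx y hy hxy
  rw [mem_SL] at hx hy
  obtain ⟨s, l, hs, rfl⟩ := hx
  obtain ⟨s', l', hs', rfl⟩ := hy
  rcases ho.same _ _ hxy rfl with h | ⟨c', a, b, h1, h2, h3⟩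
  · exact h
  · rw [Pt.ce.injEq] at h1 h2
    obtain ⟨rfl, h1⟩ := h1
    obtain ⟨-, h2⟩ := h2
    rw [heq_eq_eq] at h1 h2
    subst h1
    subst h2
    rcases h3 with h3 | ⟨-, h3⟩
    · exact absurd h3 (lt_irrefl _)
    · exfalso
      cases s <;> cases s' <;> simp_all [Srt.up, GLt]

lemma card_SL_le (c : Cell p) (g : Fin (C.K c.j)) (u : Bool) :
    (SL c g u).card ≤ 2 * p.T c.j := by
  have h : SL c g u ⊆ ((univ : Finset (Bool × Fin (p.T c.j))).image
      fun x => (Pt.ce c (g, (match u, x.1 with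
        | false, false => Srt.A
        | false, true => Srt.F
        | true, false => Srt.G
        | true, true => Srt.D), x.2) : Pt p)) := by
    intro x hx
    rw [mem_SL] at hx
    obtain ⟨s, l, hs, rfl⟩ := hx
    rw [Finset.mem_image]
    cases s with
    | A => exact ⟨(false, l), mem_univ _, by subst hs; rfl⟩
    | F => exact ⟨(true, l), mem_univ _, by subst hs; rfl⟩
    | G => exact ⟨(false, l), mem_univ _, by subst hs; rfl⟩
    | D => exact ⟨(true, l), mem_univ _, by subst hs; rfl⟩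
  refine (card_le_card h).trans (card_image_le.trans ?_)
  rw [card_univ, Fintype.card_prod, Fintype.card_bool, Fintype.card_fin]

/-- the frame points of a set of points -/
def frP (I : Finset (Pt p)) (k : Fin (C.h + 2)) : Finset (Pt p) :=
  I.filter fun x => ∃ v, x = .fr k v

/-- the cells which meet a set of points -/
def ceP (I : Finset (Pt p)) : Finset (Cell p) := univ.filter fun c => ∃ e, .ce c e ∈ I

lemma mem_ceP {I : Finset (Pt p)} {c : Cell p} : c ∈ ceP I ↔ ∃ e, .ce c e ∈ I := by simp [ceP]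

lemma V_val (k : Fin (C.h + 2)) (v : Fin p.n) : V p k.val v = .fr k v := by
  unfold V
  congr 1
  apply Fin.ext
  simp [Fin.ofNat, Nat.mod_eq_of_lt k.isLt]

lemma V_of_le {k : ℕ} (hk : k ≤ C.h + 1) (v : Fin p.n) :
    V p k v = .fr ⟨k, by omega⟩ v := by
  have := V_val (p := p) ⟨k, by omega⟩ v
  exact this

/-- frame points between two points, all levels -/
lemma card_fr_le {q : Con} (hg : GoodBlk q p le) {y z : Pt p} {I : Finset (Pt p)}
    (hI : ∀ x ∈ I, le y x ∧ le x z) :
    (I.filter fun x => ∃ k v, x = .fr k v).card ≤ (C.h + 2) * q.P + 2 := by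
  have h1 : (I.filter fun x => ∃ k v, x = .fr k v) ⊆ {y, z} ∪
      (univ : Finset (Fin (C.h + 2))).biUnion fun k =>
        (univ.filter fun v => V p k v ≠ y ∧ V p k v ≠ z ∧ le y (V p k v) ∧ le (V p k v) z).image
          (V p k) := by
    intro x hx
    rw [mem_filter] at hx
    obtain ⟨hx, k, v, rfl⟩ := hx
    have h2 := hI _ hx
    rw [mem_union, mem_insert, mem_singleton, mem_biUnion]
    by_cases hy : (Pt.fr k v : Pt p) = y
    · exact Or.inl (Or.inl hy)
    by_cases hz : (Pt.fr k v : Pt p) = z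
    · exact Or.inl (Or.inr hz)
    right
    refine ⟨k, mem_univ _, ?_⟩
    rw [mem_image]
    refine ⟨v, ?_, V_val k v⟩
    rw [mem_filter, V_val]
    exact ⟨mem_univ _, hy, hz, h2.1, h2.2⟩
  refine (card_le_card h1).trans ((card_union_le _ _).trans ?_)
  have h3 : ((univ : Finset (Fin (C.h + 2))).biUnion fun k =>
        (univ.filter fun v => V p k v ≠ y ∧ V p k v ≠ z ∧ le y (V p k v) ∧ le (V p k v) z).image
          (V p k)).card ≤ (C.h + 2) * q.P := by
    refine (card_biUnion_le_card_mul _ _ q.P ?_).trans (by rw [card_univ, Fintype.card_fin])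
    intro k _
    refine card_image_le.trans ?_
    have := hg.a4f y z k.val (by have := k.isLt; omega)
    convert this using 2
  have h4 := card_le_two (a := y) (b := z)
  omega

lemma inCell_iff {c : Cell p} {x : Pt p} : inCell c x ↔ ∃ e, x = .ce c e := Iff.rfl

/-- cells between two points, all levels -/
lemma card_ce_le {q : Con} (hg : GoodBlk q p le) {y z : Pt p} {I : Finset (Pt p)}
    (hI : ∀ x ∈ I, le y x ∧ le x z) : (ceP I).card ≤ C.h * q.P + 2 := by
  set A : Fin C.h → Finset (Cell p) := fun k => univ.filter fun c => c.k = k ∧ ¬ inCell c y ∧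
    ¬ inCell c z ∧ ∃ e, le y (.ce c e) ∧ le (.ce c e) z with hA
  have hAc : ∀ k, (A k).card ≤ q.P := by
    intro k
    have := hg.a4c y z k
    rw [Set.ncard_eq_toFinset_card'] at this
    convert this using 2
    ext c
    simp [hA]
  have hone : ∀ w : Pt p, (univ.filter fun c : Cell p => inCell c w).card ≤ 1 := by
    intro w
    rw [card_le_one]
    intro c hc c' hc'
    rw [mem_filter] at hc hc'
    obtain ⟨-, e, he⟩ := hc
    obtain ⟨-, e', he'⟩ := hc'
    rw [he, Pt.ce.injEq] at he'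
    exact he'.1
  have h1 : ceP I ⊆ ((univ.filter fun c : Cell p => inCell c y) ∪
      (univ.filter fun c : Cell p => inCell c z)) ∪ (univ : Finset (Fin C.h)).biUnion A := by
    intro c hc
    rw [mem_ceP] at hc
    obtain ⟨e, he⟩ := hc
    have h2 := hI _ he
    rw [mem_union, mem_union, mem_filter, mem_filter, mem_biUnion]
    by_cases hy : inCell c y
    · exact Or.inl (Or.inl ⟨mem_univ _, hy⟩)
    by_cases hz : inCell c z
    · exact Or.inl (Or.inr ⟨mem_univ _, hz⟩)
    refine Or.inr ⟨c.k, mem_univ _, ?_⟩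
    rw [hA, mem_filter]
    exact ⟨mem_univ _, rfl, hy, hz, e, h2.1, h2.2⟩
  refine (card_le_card h1).trans ((card_union_le _ _).trans ?_)
  have h3 : ((univ : Finset (Fin C.h)).biUnion A).card ≤ C.h * q.P := by
    refine (card_biUnion_le_card_mul _ _ q.P fun k _ => hAc k).trans ?_
    rw [card_univ, Fintype.card_fin]
  have h4 := (card_union_le (univ.filter fun c : Cell p => inCell c y)
      (univ.filter fun c : Cell p => inCell c z))
  have h5 := hone y
  have h6 := hone z
  omega

/-- **(7D)** -/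
theorem itv_card {q : Con} (hg : GoodBlk q p le) (K0 : ℕ) (hK : ∀ j, C.K j ≤ K0) (hK0 : 1 ≤ K0)
    (y z : Pt p) (I : Finset (Pt p)) (hI : ∀ x ∈ I, le y x ∧ le x z) (T : ℕ) (hT1 : 1 ≤ T)
    (hT : ∀ (c : Cell p) (g : Fin (C.K c.j)) (u : Bool), 2 ≤ (SL c g u ∩ I).card → p.T c.j ≤ T) :
    I.card ≤ 8 * (q.P + 2) * (C.h + 2) * K0 * T := by
  -- the part of `I` in one cell
  have hcell : ∀ c : Cell p, (I.filter fun x => inCell c x).card ≤ 4 * K0 * T := by
    intro c
    have h1 : (I.filter fun x => inCell c x) ⊆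
        (univ : Finset (Fin (C.K c.j) × Bool)).biUnion fun gu => SL c gu.1 gu.2 ∩ I := by
      intro x hx
      rw [mem_filter] at hx
      obtain ⟨hx, ⟨g, s, l⟩, rfl⟩ := hx
      rw [mem_biUnion]
      refine ⟨(g, s.up), mem_univ _, ?_⟩
      rw [mem_inter, mem_SL]
      exact ⟨⟨s, l, rfl, rfl⟩, hx⟩
    refine (card_le_card h1).trans ((card_biUnion_le_card_mul _ _ (2 * T) ?_).trans ?_)
    · intro gu _
      rcases Nat.lt_or_ge (SL c gu.1 gu.2 ∩ I).card 2 with h | h
      · omega
      · have h2 := hT c gu.1 gu.2 h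
        have h3 := card_le_card (inter_subset_left : SL c gu.1 gu.2 ∩ I ⊆ SL c gu.1 gu.2)
        have h4 := card_SL_le c gu.1 gu.2
        omega
    · rw [card_univ, Fintype.card_prod, Fintype.card_bool, Fintype.card_fin]
      have := hK c.j
      calc C.K c.j * 2 * (2 * T) ≤ K0 * 2 * (2 * T) := by gcongr
        _ = 4 * K0 * T := by ring
  have h1 : I ⊆ (I.filter fun x => ∃ k v, x = .fr k v) ∪
      (ceP I).biUnion fun c => I.filter fun x => inCell c x := by
    intro x hx
    rw [mem_union, mem_filter, mem_biUnion]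
    cases x with
    | fr k v => exact Or.inl ⟨hx, k, v, rfl⟩
    | ce c e =>
      refine Or.inr ⟨c, mem_ceP.2 ⟨e, hx⟩, ?_⟩
      rw [mem_filter]
      exact ⟨hx, e, rfl⟩
  have h2 : ((ceP I).biUnion fun c => I.filter fun x => inCell c x).card ≤
      (ceP I).card * (4 * K0 * T) := card_biUnion_le_card_mul _ _ _ fun c _ => hcell c
  have h3 := card_fr_le hg hI
  have h4 := card_ce_le hg hI
  have h5 : I.card ≤ (C.h + 2) * q.P + 2 + (C.h * q.P + 2) * (4 * K0 * T) := by
    refine (card_le_card h1).trans ((card_union_le _ _).trans ?_)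
    refine add_le_add h3 (h2.trans ?_)
    gcongr
  have h6 : 1 ≤ K0 * T := Nat.one_le_iff_ne_zero.2 (by positivity)
  refine h5.trans ?_
  have h7 : (C.h + 2) * q.P + 2 ≤ ((C.h + 2) * q.P + 2) * (4 * (K0 * T)) :=
    Nat.le_mul_of_pos_right _ (by omega)
  nlinarith [h7, Nat.zero_le (K0 * T * q.P), Nat.zero_le (K0 * T * C.h), Nat.zero_le (K0 * T),
    Nat.zero_le (K0 * T * C.h * q.P)]

/-- (7D), the form with a maximal class -/
theorem itv_alt {q : Con} (hg : GoodBlk q p le) (K0 : ℕ) (hK : ∀ j, C.K j ≤ K0) (hK0 : 1 ≤ K0)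
    (y z : Pt p) (I : Finset (Pt p)) (hI : ∀ x ∈ I, le y x ∧ le x z) :
    I.card ≤ 8 * (q.P + 2) * (C.h + 2) * K0 ∨
    ∃ (c : Cell p) (g : Fin (C.K c.j)) (u : Bool), 2 ≤ (SL c g u ∩ I).card ∧
      I.card ≤ 8 * (q.P + 2) * (C.h + 2) * K0 * p.T c.j := by
  by_cases hem : ∃ (c : Cell p) (g : Fin (C.K c.j)) (u : Bool), 2 ≤ (SL c g u ∩ I).card
  · right
    set S : Finset ℕ := (univ.filter fun c : Cell p => ∃ (g : Fin (C.K c.j)) (u : Bool),
      2 ≤ (SL c g u ∩ I).card).image fun c => p.T c.j with hS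
    obtain ⟨c0, g0, u0, h0⟩ := hem
    have hne : S.Nonempty := ⟨p.T c0.j, by
      rw [hS, mem_image]
      exact ⟨c0, by rw [mem_filter]; exact ⟨mem_univ _, g0, u0, h0⟩, rfl⟩⟩
    have hmax := S.max'_mem hne
    obtain ⟨c, hc, hcT⟩ : ∃ c ∈ (univ.filter fun c : Cell p => ∃ (g : Fin (C.K c.j)) (u : Bool),
        2 ≤ (SL c g u ∩ I).card), p.T c.j = S.max' hne := mem_image.1 hmax
    rw [mem_filter] at hc
    obtain ⟨-, g, u, hgu⟩ := hc
    refine ⟨c, g, u, hgu, ?_⟩
    apply itv_card hg K0 hK hK0 y z I hI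
    · -- the cell has a label
      obtain ⟨x, hx⟩ := card_pos.1 (lt_of_lt_of_le zero_lt_two hgu)
      rw [mem_inter, mem_SL] at hx
      obtain ⟨⟨s, l, -, -⟩, -⟩ := hx
      exact Nat.one_le_iff_ne_zero.2 (Fin.pos l).ne'
    · intro c' g' u' h'
      rw [hcT]
      apply S.le_max'
      rw [hS, mem_image]
      exact ⟨c', by rw [mem_filter]; exact ⟨mem_univ _, g', u', h'⟩, rfl⟩
  · left
    have := itv_card hg K0 hK hK0 y z I hI 1 le_rfl (fun c g u h => (hem ⟨c, g, u, h⟩).elim)
    rwa [mul_one] at this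

end block

end Pool.Agent.AM
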