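import Pool.Agent.AM.Itv
import Pool.Agent.AM.Cell

set_option autoImplicit false

/-!
# Section 7 (7D) in the tower, for the intervals `Intv`
-/

open scoped Classical
open Finset

noncomputable section

namespace Pool.Agent.AM

variable {C : Cst} {par : ℕ → Par C} {le : ∀ m, Pt (par m) → Pt (par m) → Prop}

/-- a sort-level of a cell in the tower -/
def TSL (m : ℕ) (c : Cell (par m)) (g : Fin (C.K c.j)) (u : Bool) : Finset (TP par) :=
  (SL c g u).image (TP.pt m)

lemma pt_inj {m : ℕ} {x y : Pt (par m)} (h : (TP.pt m x : TP par) = .pt m y) : x = y := by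
  cases h
  rfl

lemma TSL_anti {m : ℕ} (ho : BlkOrd (le m)) (c : Cell (par m)) (g : Fin (C.K c.j)) (u : Bool) :
    ∀ x ∈ TSL m c g u, ∀ y ∈ TSL m c g u, TLe le x y → x = y := by
  intro x hx y hy hxy
  rw [TSL, mem_image] at hx hy
  obtain ⟨x, hx, rfl⟩ := hx
  obtain ⟨y, hy, rfl⟩ := hy
  rw [SL_anti ho c g u x hx y hy]
  cases hxy with
  | lt h => exact absurd h (lt_irrefl _)
  | eq h => exact h

/-- a point between two points of one block lies in the block -/
theorem tle_sandwich' {m : ℕ} {x y : Pt (par m)} {w : TP par} (h1 : TLe le (.pt m x) w)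
    (h2 : TLe le w (.pt m y)) : ∃ z, w = .pt m z ∧ le m x z ∧ le m z y := by
  cases w with
  | top => cases h2
  | pt m' z =>
    have h3 : m' ≤ m := by
      cases h1 with
      | lt h => exact h.le
      | eq h => exact le_rfl
    have h4 : m ≤ m' := by
      cases h2 with
      | lt h => exact h.le
      | eq h => exact le_rfl
    have h5 : m' = m := le_antisymm h3 h4
    subst h5
    refine ⟨z, rfl, ?_, ?_⟩
    · cases h1 with
      | lt h => exact absurd h (lt_irrefl _)
      | eq h => exact h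
    · cases h2 with
      | lt h => exact absurd h (lt_irrefl _)
      | eq h => exact h

/-- (7D) for a finite set of tower points between two points of one block -/
theorem titv_alt {q : Con} {m : ℕ} (hg : GoodBlk q (par m) (le m)) (K0 : ℕ)
    (hK : ∀ j, C.K j ≤ K0) (hK0 : 1 ≤ K0) (y z : Pt (par m)) (I : Finset (TP par))
    (hI : ∀ x ∈ I, TLe le (.pt m y) x ∧ TLe le x (.pt m z)) :
    I.card ≤ 8 * (q.P + 2) * (C.h + 2) * K0 ∨
    ∃ (c : Cell (par m)) (g : Fin (C.K c.j)) (u : Bool), 2 ≤ (TSL m c g u ∩ I).card ∧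
      I.card ≤ 8 * (q.P + 2) * (C.h + 2) * K0 * (par m).T c.j := by
  set J : Finset (Pt (par m)) := univ.filter fun x => TP.pt m x ∈ I with hJ
  have hinj : Function.Injective (TP.pt m : Pt (par m) → TP par) := fun x y h => pt_inj h
  have hIJ : I = J.image (TP.pt m) := by
    ext x
    rw [mem_image]
    constructor
    · intro hx
      obtain ⟨w, rfl, -, -⟩ := tle_sandwich' (hI x hx).1 (hI x hx).2
      exact ⟨w, by rw [hJ, mem_filter]; exact ⟨mem_univ _, hx⟩, rfl⟩
    · rintro ⟨w, hw, rfl⟩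
      rw [hJ, mem_filter] at hw
      exact hw.2
  have hcard : I.card = J.card := by rw [hIJ, card_image_of_injective _ hinj]
  have hJle : ∀ x ∈ J, le m y x ∧ le m x z := by
    intro x hx
    rw [hJ, mem_filter] at hx
    obtain ⟨w, hw, h1, h2⟩ := tle_sandwich' (hI _ hx.2).1 (hI _ hx.2).2
    rw [pt_inj hw]
    exact ⟨h1, h2⟩
  rcases itv_alt hg K0 hK hK0 y z J hJle with h | ⟨c, g, u, h1, h2⟩
  · left
    rw [hcard]
    exact h
  · right
    refine ⟨c, g, u, ?_, ?_⟩
    · rw [TSL, hIJ, ← image_inter _ _ hinj, card_image_of_injective _ hinj]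
      exact h1
    · rw [hcard]
      exact h2

lemma tle_refl' {lo hi : ℕ} (ho : ∀ m, lo ≤ m → m ≤ hi → BlkOrd (le m)) {b : Prop} {x : TP par}
    (hx : inT par lo hi b x) : TLe le x x := by
  cases x with
  | top => exact TLe.top _
  | pt m x => exact TLe.eq ((ho m hx.1 hx.2).refl x)

/-- the blocks are convex and the interval of gadget `g` is bounded by its end points: the interval
lies between two points of itself -/
theorem intv_ends {K : ℕ} {D : Finset (TP par)} {r : Fin K → TP par}
    (hr : ∀ g g' : Fin K, g < g' → TLe le (r g) (r g')) (hrD : ∀ g, r g ∈ D)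
    (hrefl : ∀ x ∈ D, TLe le x x) {yl yu : TP par} (hyl : yl ∈ D) (hyu : yu ∈ D)
    (hl : ∀ x ∈ D, TLe le yl x) (hu : ∀ x ∈ D, TLe le x yu) (g : Fin K) :
    ∃ y ∈ Intv (TLe le) D r g, ∃ z ∈ Intv (TLe le) D r g,
      ∀ x ∈ Intv (TLe le) D r g, TLe le y x ∧ TLe le x z := by
  have low : ∃ y ∈ Intv (TLe le) D r g, ∀ x ∈ Intv (TLe le) D r g, TLe le y x := by
    by_cases h0 : g.val = 0
    · refine ⟨yl, ?_, fun x hx => hl x (mem_Intv.1 hx).1⟩
      rw [mem_Intv]
      refine ⟨hyl, fun g' h => ?_, fun g' _ => hl _ (hrD g')⟩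
      rw [Fin.lt_def] at h
      omega
    · have hlt : g.val - 1 < K := by
        have := g.isLt
        omega
      refine ⟨r ⟨g.val - 1, hlt⟩, ?_, ?_⟩
      · rw [mem_Intv]
        refine ⟨hrD _, fun g' h => ?_, fun g' h => hr _ _ ?_⟩
        · rcases (show g' ≤ ⟨g.val - 1, hlt⟩ by
            rw [Fin.le_def]; rw [Fin.lt_def] at h; simp only; omega).eq_or_lt with h1 | h1
          · rw [← h1]
            exact hrefl _ (hrD _)
          · exact hr _ _ h1
        · rw [Fin.lt_def] at h ⊢
          simp only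
          omega
      · intro x hx
        refine (mem_Intv.1 hx).2.1 _ ?_
        rw [Fin.lt_def]
        simp only
        omega
  have upp : ∃ z ∈ Intv (TLe le) D r g, ∀ x ∈ Intv (TLe le) D r g, TLe le x z := by
    by_cases h0 : g.val + 1 = K
    · refine ⟨yu, ?_, fun x hx => hu x (mem_Intv.1 hx).1⟩
      rw [mem_Intv]
      refine ⟨hyu, fun g' _ => hu _ (hrD g'), fun g' h => ?_⟩
      rw [Fin.lt_def] at h
      have := g'.isLt
      omega
    · have hlt : g.val + 1 < K := by
        have := g.isLt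
        omega
      refine ⟨r ⟨g.val + 1, hlt⟩, ?_, ?_⟩
      · rw [mem_Intv]
        refine ⟨hrD _, fun g' h => hr _ _ ?_, fun g' h => ?_⟩
        · rw [Fin.lt_def] at h ⊢
          simp only
          omega
        · rcases (show (⟨g.val + 1, hlt⟩ : Fin K) ≤ g' by
            rw [Fin.le_def]; rw [Fin.lt_def] at h; simp only; omega).eq_or_lt with h1 | h1
          · rw [h1]
            exact hrefl _ (hrD _)
          · exact hr _ _ h1
      · intro x hx
        refine (mem_Intv.1 hx).2.2 _ ?_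
        rw [Fin.lt_def]
        simp only
        omega
  obtain ⟨y, hy, h1⟩ := low
  obtain ⟨z, hz, h2⟩ := upp
  exact ⟨y, hy, z, hz, fun x hx => ⟨h1 x hx, h2 x hx⟩⟩

/-- interior intervals, without bounds for `D` -/
theorem intv_ends_int {K : ℕ} {D : Finset (TP par)} {r : Fin K → TP par}
    (hr : ∀ g g' : Fin K, g < g' → TLe le (r g) (r g')) (hrD : ∀ g, r g ∈ D)
    (hrefl : ∀ x ∈ D, TLe le x x) (g : Fin K) (h0 : g.val ≠ 0) (h1 : g.val + 1 ≠ K) :
    ∃ y ∈ Intv (TLe le) D r g, ∃ z ∈ Intv (TLe le) D r g,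
      ∀ x ∈ Intv (TLe le) D r g, TLe le y x ∧ TLe le x z := by
  have hgK := g.isLt
  have hlt : g.val - 1 < K := by omega
  have hlt' : g.val + 1 < K := by omega
  refine ⟨r ⟨g.val - 1, hlt⟩, ?_, r ⟨g.val + 1, hlt'⟩, ?_, fun x hx => ⟨?_, ?_⟩⟩
  · rw [mem_Intv]
    refine ⟨hrD _, fun g' h => ?_, fun g' h => hr _ _ ?_⟩
    · rcases (show g' ≤ ⟨g.val - 1, hlt⟩ by
        rw [Fin.le_def]; rw [Fin.lt_def] at h; simp only; omega).eq_or_lt with h1 | h1
      · rw [← h1]
        exact hrefl _ (hrD _)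
      · exact hr _ _ h1
    · rw [Fin.lt_def] at h ⊢
      simp only
      omega
  · rw [mem_Intv]
    refine ⟨hrD _, fun g' h => hr _ _ ?_, fun g' h => ?_⟩
    · rw [Fin.lt_def] at h ⊢
      simp only
      omega
    · rcases (show (⟨g.val + 1, hlt'⟩ : Fin K) ≤ g' by
        rw [Fin.le_def]; rw [Fin.lt_def] at h; simp only; omega).eq_or_lt with h1 | h1
      · rw [h1]
        exact hrefl _ (hrD _)
      · exact hr _ _ h1
  · refine (mem_Intv.1 hx).2.1 _ ?_
    rw [Fin.lt_def]
    simp only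
    omega
  · refine (mem_Intv.1 hx).2.2 _ ?_
    rw [Fin.lt_def]
    simp only
    omega

/-- (7D) for an interval contained in one block of the tower (`blk` any function which separates
the blocks and the top point) -/
theorem intv_alt {q : Con} {lo hi : ℕ} {b : Prop}
    (hg : ∀ m, lo ≤ m → m ≤ hi → GoodBlk q (par m) (le m)) (K0 : ℕ)
    (hK : ∀ j, C.K j ≤ K0) (hK0 : 1 ≤ K0) (I : Finset (TP par)) (hI : ∀ x ∈ I, inT par lo hi b x)
    (hends : ∃ y ∈ I, ∃ z ∈ I, ∀ x ∈ I, TLe le y x ∧ TLe le x z)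
    (blk : TP par → ℕ) (hblk : ∀ m x, lo ≤ m → m ≤ hi → blk (.pt m x) = hi - m)
    (htop : blk .top = hi + 1 - lo) (hone : ∃ β, ∀ x ∈ I, blk x = β) :
    I.card ≤ 8 * (q.P + 2) * (C.h + 2) * K0 ∨
    ∃ m, lo ≤ m ∧ m ≤ hi ∧ ∃ (c : Cell (par m)) (g : Fin (C.K c.j)) (u : Bool),
      2 ≤ (TSL m c g u ∩ I).card ∧
      I.card ≤ 8 * (q.P + 2) * (C.h + 2) * K0 * (par m).T c.j := by
  obtain ⟨y, hy, z, hz, hyz⟩ := hends
  obtain ⟨β, hβ⟩ := hone
  cases y with
  | top =>
    -- everything is the top point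
    left
    have h1 : I ⊆ {TP.top} := by
      intro x hx
      rw [mem_singleton]
      cases x with
      | top => rfl
      | pt m w =>
        have h2 := (hyz _ hx).1
        cases h2
    have h3 := card_le_card h1
    rw [card_singleton] at h3
    refine h3.trans ?_
    have : 0 < 8 * (q.P + 2) * (C.h + 2) * K0 := by positivity
    omega
  | pt m y =>
    have hm := hI _ hy
    cases z with
    | top =>
      exfalso
      have h1 := hβ _ hy
      have h2 := hβ _ hz
      rw [hblk m y hm.1 hm.2] at h1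
      rw [htop] at h2
      have := hm.1
      have := hm.2
      omega
    | pt m' z =>
      have hm' := hI _ hz
      have h1 := hβ _ hy
      have h2 := hβ _ hz
      rw [hblk m y hm.1 hm.2] at h1
      rw [hblk m' z hm'.1 hm'.2] at h2
      have h3 : m' = m := by
        have := hm.1
        have := hm.2
        have := hm'.1
        have := hm'.2
        omega
      subst h3
      rcases titv_alt (hg m' hm.1 hm.2) K0 hK hK0 y z I hyz with h | ⟨c, g, u, h4, h5⟩
      · exact Or.inl h
      · exact Or.inr ⟨m', hm.1, hm.2, c, g, u, h4, h5⟩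

end Pool.Agent.AM
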