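import Pool.Agent.AM.Defs

set_option autoImplicit false

/-!
# Section 7 (7S): the sums over the classes of one level
-/

open scoped Classical
open Finset

noncomputable section

namespace Pool.Agent.AM

/-- `K_i (2 lam)^i` does not depend on `i` -/
def PC.KK (c : PC) : ℝ := (c.Kst : ℝ) * (2 * c.lam) ^ (c.W - 1)

lemma PC.G_eq7 (c : PC) (t : ℕ) : c.G t = c.KK * (t : ℝ) ^ c.E * Real.log t := rfl

/-- `log` of the number of labels of the preceding class -/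
def PC.lowlog (c : PC) (ts : ℕ) (i : ℕ) : ℝ :=
  if i = 0 then 0 else (c.lam : ℝ) ^ (i - 1) * Real.log ts

lemma PC.KK_nonneg (c : PC) : 0 ≤ c.KK := by unfold PC.KK; positivity

lemma PC.G_nonneg7 (c : PC) (t : ℕ) : 0 ≤ c.G t := by
  rw [PC.G_eq7]
  have := c.KK_nonneg
  have h2 : 0 ≤ Real.log (t : ℝ) := Real.log_natCast_nonneg t
  positivity

lemma PC.G_mono7 (c : PC) {t ts : ℕ} (h : t ≤ ts) : c.G t ≤ c.G ts := by
  rw [PC.G_eq7, PC.G_eq7]
  rcases Nat.eq_zero_or_pos t with rfl | ht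
  · have := c.G_nonneg7 ts
    rw [PC.G_eq7] at this
    simpa using this
  have h1 : (t : ℝ) ≤ ts := by exact_mod_cast h
  have h0 : (0 : ℝ) < t := by exact_mod_cast ht
  have h2 : Real.log (t : ℝ) ≤ Real.log (ts : ℝ) := Real.log_le_log h0 h1
  have h3 := c.KK_nonneg
  have h4 : 0 ≤ Real.log (t : ℝ) := Real.log_natCast_nonneg t
  gcongr

section

variable {c : PC} {q : Con} (ok : c.Ok q)

include ok

lemma PC.Ok.Wpos : 0 < c.W := by rw [ok.W]; norm_num

lemma PC.Ok.lamR : (c.lam : ℝ) = 1000 := by rw [ok.lam]; norm_num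

lemma PC.Ok.lam_pow_le (i : Fin c.cst.W) : c.lam ^ i.val ≤ c.E := by
  have hlam : 1 ≤ c.lam := by rw [ok.lam]; norm_num
  have hi : i.val < c.W := i.isLt
  have h1 : c.lam ^ i.val ≤ c.lam ^ (c.W - 1) := Nat.pow_le_pow_right hlam (by omega)
  rw [ok.E]
  have h2 : 1 ≤ 100 * (c.h + 2) := by omega
  calc c.lam ^ i.val ≤ c.lam ^ (c.W - 1) * 1 := by rw [mul_one]; exact h1
    _ ≤ c.lam ^ (c.W - 1) * (100 * (c.h + 2)) := Nat.mul_le_mul_left _ h2
    _ = 100 * (c.lam ^ (c.W - 1) * (c.h + 2)) := by ring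

lemma PC.Ok.Epos : 1 ≤ c.E := by
  have h := ok.lam_pow_le ⟨0, ok.Wpos⟩
  simpa using h

lemma PC.Ok.NT (t : ℕ) (i : Fin c.cst.W) :
    ((c.par t).N i : ℝ) * (c.par t).T i = 2 ^ i.val * (t : ℝ) ^ c.E := by
  have h := ok.lam_pow_le i
  simp only [PC.par]
  push_cast
  rw [mul_assoc, ← pow_add, Nat.sub_add_cancel h]

lemma PC.Ok.KKi (i : Fin c.cst.W) :
    (c.cst.K i : ℝ) * (2 ^ i.val * (c.lam : ℝ) ^ i.val) = c.KK := by
  have hi : i.val < c.W := i.isLt
  simp only [PC.cst, PC.KK]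
  push_cast
  rw [← mul_pow, mul_assoc, ← pow_add]
  congr 2
  omega

/-- `2^i K_i ≤ KK / lam^i` -/
lemma PC.Ok.KKi' (i : Fin c.cst.W) :
    (2 : ℝ) ^ i.val * (c.cst.K i : ℝ) = c.KK * (1 / (c.lam : ℝ)) ^ i.val := by
  rw [← ok.KKi i]
  have h : (c.lam : ℝ) ≠ 0 := by rw [ok.lamR]; norm_num
  rw [one_div, inv_pow]
  field_simp

lemma PC.Ok.logT (ts : ℕ) (i : Fin c.cst.W) :
    Real.log ((c.par ts).T i : ℝ) = (c.lam : ℝ) ^ i.val * Real.log ts := by
  simp only [PC.par]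
  push_cast
  rw [Real.log_pow]
  push_cast
  ring

lemma PC.Ok.inv_pow_le_one (i : ℕ) : (1 / (c.lam : ℝ)) ^ i ≤ 1 := by
  rw [ok.lamR]
  apply pow_le_one₀ <;> norm_num

/-- geometric series over the classes -/
lemma PC.Ok.sum_inv : ∑ i : Fin c.cst.W, (1 / (c.lam : ℝ)) ^ i.val ≤ 1000 / 999 := by
  rw [Fin.sum_univ_eq_sum_range (fun i => (1 / (c.lam : ℝ)) ^ i) c.cst.W, ok.lamR]
  rw [geom_sum_eq (by norm_num)]
  have h : (0 : ℝ) ≤ (1 / 1000) ^ c.cst.W := by positivity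
  rw [div_le_iff_of_neg (by norm_num)]
  linarith

lemma PC.Ok.sum_two (j : Fin c.cst.W) :
    ∑ i ∈ univ.filter (fun i : Fin c.cst.W => i ≤ j), (2 : ℝ) ^ i.val ≤ 2 * 2 ^ j.val := by
  have h1 : ∑ i ∈ univ.filter (fun i : Fin c.cst.W => i ≤ j), (2 : ℝ) ^ i.val =
      ∑ n ∈ (univ.filter (fun i : Fin c.cst.W => i ≤ j)).image (fun i : Fin c.cst.W => i.val),
        (2 : ℝ) ^ n := by
    rw [Finset.sum_image]
    intro a _ b _ h
    exact Fin.ext h
  rw [h1]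
  have h2 : (univ.filter (fun i : Fin c.cst.W => i ≤ j)).image (fun i : Fin c.cst.W => i.val) ⊆
      range (j.val + 1) := by
    intro n hn
    rw [Finset.mem_image] at hn
    obtain ⟨i, hi, rfl⟩ := hn
    rw [Finset.mem_filter] at hi
    rw [Finset.mem_range]
    have : i.val ≤ j.val := hi.2
    omega
  refine (Finset.sum_le_sum_of_subset_of_nonneg h2 fun _ _ _ => by positivity).trans ?_
  rw [geom_sum_eq (by norm_num)]
  have h3 : (2 : ℝ) ^ (j.val + 1) = 2 * 2 ^ j.val := by ring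
  rw [h3]
  have h4 : (0 : ℝ) < 2 ^ j.val := by positivity
  linarith

/-- `N_i T_i K_i ≤ KK ts^E / lam^i` -/
lemma PC.Ok.NTK {t ts : ℕ} (hts : t ≤ ts) (i : Fin c.cst.W) :
    ((c.par t).N i : ℝ) * (c.par t).T i * c.cst.K i ≤
      c.KK * (ts : ℝ) ^ c.E * (1 / (c.lam : ℝ)) ^ i.val := by
  have h1 : (t : ℝ) ≤ ts := by exact_mod_cast hts
  have h2 : (t : ℝ) ^ c.E ≤ (ts : ℝ) ^ c.E := pow_le_pow_left₀ (by positivity) h1 _
  have h3 := c.KK_nonneg
  have h4 : (0 : ℝ) ≤ (1 / (c.lam : ℝ)) ^ i.val := by positivity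
  calc ((c.par t).N i : ℝ) * (c.par t).T i * c.cst.K i
      = (t : ℝ) ^ c.E * (2 ^ i.val * (c.cst.K i : ℝ)) := by rw [ok.NT]; ring
    _ = (t : ℝ) ^ c.E * (c.KK * (1 / (c.lam : ℝ)) ^ i.val) := by rw [ok.KKi']
    _ ≤ (ts : ℝ) ^ c.E * (c.KK * (1 / (c.lam : ℝ)) ^ i.val) :=
        mul_le_mul_of_nonneg_right h2 (mul_nonneg h3 h4)
    _ = c.KK * (ts : ℝ) ^ c.E * (1 / (c.lam : ℝ)) ^ i.val := by ring

/-- sum over the classes of `N_i T_i K_i` -/
lemma PC.Ok.sum_NTK {t ts : ℕ} (hts : t ≤ ts) :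
    ∑ i, ((c.par t).N i : ℝ) * (c.par t).T i * c.cst.K i ≤
      1000 / 999 * (c.KK * (ts : ℝ) ^ c.E) := by
  have h3 := c.KK_nonneg
  calc ∑ i, ((c.par t).N i : ℝ) * (c.par t).T i * c.cst.K i
      ≤ ∑ i : Fin c.cst.W, c.KK * (ts : ℝ) ^ c.E * (1 / (c.lam : ℝ)) ^ i.val :=
        Finset.sum_le_sum fun i _ => ok.NTK hts i
    _ = c.KK * (ts : ℝ) ^ c.E * ∑ i : Fin c.cst.W, (1 / (c.lam : ℝ)) ^ i.val := by
        rw [Finset.mul_sum]
    _ ≤ c.KK * (ts : ℝ) ^ c.E * (1000 / 999) :=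
        mul_le_mul_of_nonneg_left ok.sum_inv (by positivity)
    _ = 1000 / 999 * (c.KK * (ts : ℝ) ^ c.E) := by ring

/-- the marked points: `N_i K_i log|X|` -/
lemma PC.Ok.sumA {t ts : ℕ} (h1t : 1 ≤ t) (hts : t ≤ ts) (LX : ℝ)
    (hLX : LX ≤ 3 * c.E * Real.log ts) (hbig : 3000 * c.E * c.W ≤ ts) :
    ∑ i, ((c.par t).N i : ℝ) * (c.cst.K i * LX) ≤ 1 / 1000 * c.G ts := by
  have hKK := c.KK_nonneg
  have hL : 0 ≤ Real.log (ts : ℝ) := Real.log_natCast_nonneg ts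
  have hts1 : 1 ≤ ts := h1t.trans hts
  have hE := ok.Epos
  have hterm : ∀ i : Fin c.cst.W, ((c.par t).N i : ℝ) * (c.cst.K i * LX) ≤
      c.KK * (ts : ℝ) ^ (c.E - 1) * (3 * c.E * Real.log ts) := by
    intro i
    have h1 : (t : ℕ) ^ (c.E - c.lam ^ i.val) ≤ ts ^ (c.E - 1) := by
      have hp : 1 ≤ c.lam ^ i.val := Nat.one_le_pow _ _ (by rw [ok.lam]; norm_num)
      calc t ^ (c.E - c.lam ^ i.val) ≤ t ^ (c.E - 1) := Nat.pow_le_pow_right h1t (by omega)
        _ ≤ ts ^ (c.E - 1) := Nat.pow_le_pow_left hts _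
    have h2 : ((c.par t).N i : ℝ) ≤ 2 ^ i.val * (ts : ℝ) ^ (c.E - 1) := by
      simp only [PC.par]
      push_cast
      apply mul_le_mul_of_nonneg_left _ (by positivity)
      exact_mod_cast h1
    have h3 : (c.cst.K i : ℝ) * LX ≤ c.cst.K i * (3 * c.E * Real.log ts) :=
      mul_le_mul_of_nonneg_left hLX (by positivity)
    calc ((c.par t).N i : ℝ) * (c.cst.K i * LX)
        ≤ ((c.par t).N i : ℝ) * (c.cst.K i * (3 * c.E * Real.log ts)) :=
          mul_le_mul_of_nonneg_left h3 (by positivity)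
      _ ≤ (2 ^ i.val * (ts : ℝ) ^ (c.E - 1)) * (c.cst.K i * (3 * c.E * Real.log ts)) :=
          mul_le_mul_of_nonneg_right h2 (by positivity)
      _ = (2 ^ i.val * (c.cst.K i : ℝ)) * (ts : ℝ) ^ (c.E - 1) * (3 * c.E * Real.log ts) := by
          ring
      _ = (c.KK * (1 / (c.lam : ℝ)) ^ i.val) * (ts : ℝ) ^ (c.E - 1) * (3 * c.E * Real.log ts) := by
          rw [ok.KKi']
      _ ≤ (c.KK * 1) * (ts : ℝ) ^ (c.E - 1) * (3 * c.E * Real.log ts) := by
          gcongr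
          exact ok.inv_pow_le_one _
      _ = c.KK * (ts : ℝ) ^ (c.E - 1) * (3 * c.E * Real.log ts) := by ring
  have hsum : ∑ i, ((c.par t).N i : ℝ) * (c.cst.K i * LX) ≤
      c.W * (c.KK * (ts : ℝ) ^ (c.E - 1) * (3 * c.E * Real.log ts)) := by
    refine (Finset.sum_le_sum fun i _ => hterm i).trans (le_of_eq ?_)
    rw [Finset.sum_const, Finset.card_univ, nsmul_eq_mul, Fintype.card_fin]
    rfl
  refine hsum.trans ?_
  rw [PC.G_eq7]
  have hpow : (ts : ℝ) ^ c.E = (ts : ℝ) ^ (c.E - 1) * ts := by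
    rw [← pow_succ, Nat.sub_add_cancel hE]
  rw [hpow]
  have hb : (3000 * c.E * c.W : ℝ) ≤ ts := by exact_mod_cast hbig
  have h5 : 0 ≤ c.KK * (ts : ℝ) ^ (c.E - 1) * Real.log ts := by positivity
  have h6 : (c.W : ℝ) * (c.KK * (ts : ℝ) ^ (c.E - 1) * (3 * c.E * Real.log ts)) =
      (3 * c.E * c.W) * (c.KK * (ts : ℝ) ^ (c.E - 1) * Real.log ts) := by ring
  have h7 : 1 / 1000 * (c.KK * ((ts : ℝ) ^ (c.E - 1) * ts) * Real.log ts) =
      (1 / 1000 * ts) * (c.KK * (ts : ℝ) ^ (c.E - 1) * Real.log ts) := by ring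
  rw [h6, h7]
  apply mul_le_mul_of_nonneg_right _ h5
  linarith

/-- the factor `Q0` -/
lemma PC.Ok.sumB {t ts : ℕ} (hts : t ≤ ts) (lQ : ℝ) (hQ0 : 0 ≤ lQ)
    (hQ : 5000 * lQ ≤ Real.log ts) :
    ∑ i, ((c.par t).N i : ℝ) * (4 * (c.par t).T i * (c.cst.K i * lQ)) ≤ 1 / 1000 * c.G ts := by
  have hKK := c.KK_nonneg
  calc ∑ i, ((c.par t).N i : ℝ) * (4 * (c.par t).T i * (c.cst.K i * lQ))
      = (4 * lQ) * ∑ i, ((c.par t).N i : ℝ) * (c.par t).T i * c.cst.K i := by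
        rw [Finset.mul_sum]
        refine Finset.sum_congr rfl fun i _ => ?_
        ring
    _ ≤ (4 * lQ) * (1000 / 999 * (c.KK * (ts : ℝ) ^ c.E)) :=
        mul_le_mul_of_nonneg_left (ok.sum_NTK hts) (by positivity)
    _ = (4 * (1000 / 999) * lQ) * (c.KK * (ts : ℝ) ^ c.E) := by ring
    _ ≤ (1 / 1000 * Real.log ts) * (c.KK * (ts : ℝ) ^ c.E) := by
        apply mul_le_mul_of_nonneg_right _ (by positivity)
        linarith
    _ = 1 / 1000 * c.G ts := by rw [PC.G_eq7]; ring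

/-- smaller classes -/
lemma PC.Ok.sumC {t ts : ℕ} (hts : t ≤ ts) :
    ∑ i, ((c.par t).N i : ℝ) * (4 * (c.par t).T i * (c.cst.K i * c.lowlog ts i.val)) ≤
      4 * c.W / c.lam * c.G ts := by
  have hKK := c.KK_nonneg
  have hL : 0 ≤ Real.log (ts : ℝ) := Real.log_natCast_nonneg ts
  have hlam : (0 : ℝ) < c.lam := by rw [ok.lamR]; norm_num
  have hterm : ∀ i : Fin c.cst.W,
      ((c.par t).N i : ℝ) * (4 * (c.par t).T i * (c.cst.K i * c.lowlog ts i.val)) ≤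
      4 / c.lam * c.G ts := by
    intro i
    have hG := c.G_nonneg7 ts
    rcases Nat.eq_zero_or_pos i.val with h0 | h0
    · rw [h0]
      simp only [PC.lowlog, if_true, mul_zero]
      positivity
    · have hlow : c.lowlog ts i.val = (c.lam : ℝ) ^ (i.val - 1) * Real.log ts := by
        simp only [PC.lowlog]
        rw [if_neg (by omega)]
      rw [hlow]
      have h1 := ok.NTK hts i
      calc ((c.par t).N i : ℝ) * (4 * (c.par t).T i *
            (c.cst.K i * ((c.lam : ℝ) ^ (i.val - 1) * Real.log ts)))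
          = (((c.par t).N i : ℝ) * (c.par t).T i * c.cst.K i) *
            (4 * ((c.lam : ℝ) ^ (i.val - 1) * Real.log ts)) := by ring
        _ ≤ (c.KK * (ts : ℝ) ^ c.E * (1 / (c.lam : ℝ)) ^ i.val) *
            (4 * ((c.lam : ℝ) ^ (i.val - 1) * Real.log ts)) :=
            mul_le_mul_of_nonneg_right h1 (by positivity)
        _ = 4 / c.lam * c.G ts := by
            rw [PC.G_eq7]
            obtain ⟨k, hk⟩ : ∃ k, i.val = k + 1 := ⟨i.val - 1, by omega⟩
            rw [hk, Nat.add_sub_cancel, one_div, inv_pow]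
            field_simp
            ring
  refine (Finset.sum_le_sum fun i _ => hterm i).trans (le_of_eq ?_)
  rw [Finset.sum_const, Finset.card_univ, nsmul_eq_mul, Fintype.card_fin]
  have : (c.cst.W : ℝ) = c.W := rfl
  rw [this]
  ring

/-- the main sum -/
lemma PC.Ok.sumD {t ts : ℕ} (hts : t ≤ ts) (cc : Fin c.cst.W → ℝ) (hcc : ∀ j, 0 ≤ cc j) :
    ∑ i, ((c.par t).N i : ℝ) * (4 * (c.par t).T i *
      (4 * ∑ j ∈ univ.filter (fun j : Fin c.cst.W => i ≤ j),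
        c.cst.K j * cc j * Real.log ((c.par ts).T j : ℝ))) ≤ 32 * (∑ j, cc j) * c.G ts := by
  have hKK := c.KK_nonneg
  have hL : 0 ≤ Real.log (ts : ℝ) := Real.log_natCast_nonneg ts
  have h1 : (t : ℝ) ≤ ts := by exact_mod_cast hts
  have hpow : (t : ℝ) ^ c.E ≤ (ts : ℝ) ^ c.E := pow_le_pow_left₀ (by positivity) h1 _
  calc ∑ i, ((c.par t).N i : ℝ) * (4 * (c.par t).T i *
        (4 * ∑ j ∈ univ.filter (fun j : Fin c.cst.W => i ≤ j),
          c.cst.K j * cc j * Real.log ((c.par ts).T j : ℝ)))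
      = ∑ i : Fin c.cst.W, ∑ j ∈ univ.filter (fun j : Fin c.cst.W => i ≤ j),
          16 * (t : ℝ) ^ c.E * 2 ^ i.val *
            (c.cst.K j * cc j * Real.log ((c.par ts).T j : ℝ)) := by
        refine Finset.sum_congr rfl fun i _ => ?_
        rw [← Finset.mul_sum]
        have := ok.NT t i
        linear_combination
          (16 * ∑ j ∈ univ.filter (fun j : Fin c.cst.W => i ≤ j),
            (c.cst.K j : ℝ) * cc j * Real.log ((c.par ts).T j : ℝ)) * this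
    _ = ∑ j : Fin c.cst.W, ∑ i ∈ univ.filter (fun i : Fin c.cst.W => i ≤ j),
          16 * (t : ℝ) ^ c.E * 2 ^ i.val *
            (c.cst.K j * cc j * Real.log ((c.par ts).T j : ℝ)) := by
        apply Finset.sum_comm'
        intro i j
        simp
    _ ≤ ∑ j : Fin c.cst.W, 32 * cc j * c.G ts := by
        apply Finset.sum_le_sum
        intro j _
        have h2 : ∑ i ∈ univ.filter (fun i : Fin c.cst.W => i ≤ j),
            16 * (t : ℝ) ^ c.E * 2 ^ i.val *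
              (c.cst.K j * cc j * Real.log ((c.par ts).T j : ℝ)) =
            (16 * (t : ℝ) ^ c.E * (c.cst.K j * cc j * Real.log ((c.par ts).T j : ℝ))) *
              ∑ i ∈ univ.filter (fun i : Fin c.cst.W => i ≤ j), (2 : ℝ) ^ i.val := by
          rw [Finset.mul_sum]
          refine Finset.sum_congr rfl fun i _ => ?_
          ring
        rw [h2]
        have hlog : 0 ≤ Real.log ((c.par ts).T j : ℝ) := Real.log_natCast_nonneg _
        have h3 : 0 ≤ 16 * (t : ℝ) ^ c.E *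
            (c.cst.K j * cc j * Real.log ((c.par ts).T j : ℝ)) := by
          have := hcc j
          positivity
        calc (16 * (t : ℝ) ^ c.E * (c.cst.K j * cc j * Real.log ((c.par ts).T j : ℝ))) *
              ∑ i ∈ univ.filter (fun i : Fin c.cst.W => i ≤ j), (2 : ℝ) ^ i.val
            ≤ (16 * (t : ℝ) ^ c.E * (c.cst.K j * cc j * Real.log ((c.par ts).T j : ℝ))) *
              (2 * 2 ^ j.val) := mul_le_mul_of_nonneg_left (ok.sum_two j) h3
          _ = 32 * cc j * ((c.cst.K j : ℝ) * (2 ^ j.val * (c.lam : ℝ) ^ j.val)) *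
              (t : ℝ) ^ c.E * Real.log ts := by
              rw [ok.logT]
              ring
          _ = 32 * cc j * c.KK * (t : ℝ) ^ c.E * Real.log ts := by rw [ok.KKi]
          _ ≤ 32 * cc j * c.KK * (ts : ℝ) ^ c.E * Real.log ts := by
              have := hcc j
              gcongr
          _ = 32 * cc j * c.G ts := by rw [PC.G_eq7]; ring
    _ = 32 * (∑ j, cc j) * c.G ts := by
        rw [← Finset.sum_mul, ← Finset.mul_sum]

/-- atypical cells -/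
lemma PC.Ok.sumE {t ts : ℕ} (hts : t ≤ ts) (LX : ℝ) (hLX : LX ≤ 3 * c.E * Real.log ts)
    (x : ℝ) (hx0 : 0 ≤ x) :
    ∑ i, (x * (c.par t).N i) * (4 * (c.par t).T i * c.cst.K i * LX) ≤
      13 * c.E * x * c.G ts := by
  have hKK := c.KK_nonneg
  have hL : 0 ≤ Real.log (ts : ℝ) := Real.log_natCast_nonneg ts
  have h1 := ok.sum_NTK hts
  calc ∑ i, (x * (c.par t).N i) * (4 * (c.par t).T i * c.cst.K i * LX)
      ≤ ∑ i, (12 * c.E * x * Real.log ts) *
          (((c.par t).N i : ℝ) * (c.par t).T i * c.cst.K i) := by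
        apply Finset.sum_le_sum
        intro i _
        have h2 : 0 ≤ 4 * x * (((c.par t).N i : ℝ) * (c.par t).T i * c.cst.K i) := by positivity
        calc (x * (c.par t).N i) * (4 * (c.par t).T i * c.cst.K i * LX)
            = 4 * x * (((c.par t).N i : ℝ) * (c.par t).T i * c.cst.K i) * LX := by ring
          _ ≤ 4 * x * (((c.par t).N i : ℝ) * (c.par t).T i * c.cst.K i) *
              (3 * c.E * Real.log ts) := mul_le_mul_of_nonneg_left hLX h2
          _ = _ := by ring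
    _ = (12 * c.E * x * Real.log ts) *
          ∑ i, ((c.par t).N i : ℝ) * (c.par t).T i * c.cst.K i := by rw [Finset.mul_sum]
    _ ≤ (12 * c.E * x * Real.log ts) * (1000 / 999 * (c.KK * (ts : ℝ) ^ c.E)) :=
        mul_le_mul_of_nonneg_left h1 (by positivity)
    _ = (12 * (1000 / 999) * c.E * x) * c.G ts := by rw [PC.G_eq7]; ring
    _ ≤ 13 * c.E * x * c.G ts := by
        apply mul_le_mul_of_nonneg_right _ (c.G_nonneg7 ts)
        have : (0 : ℝ) ≤ c.E * x := by positivity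
        nlinarith

/-- wide cells: the number of labels of the largest class -/
lemma PC.Ok.sumF {t ts : ℕ} (hts : t ≤ ts) :
    ∑ i, ((c.par t).N i : ℝ) * (4 * (c.par t).T i *
      (c.cst.K i * ((c.lam : ℝ) ^ (c.W - 1) * Real.log ts))) ≤
      41 / 10 * (c.lam : ℝ) ^ (c.W - 1) * c.G ts := by
  have hKK := c.KK_nonneg
  have hL : 0 ≤ Real.log (ts : ℝ) := Real.log_natCast_nonneg ts
  have h1 := ok.sum_NTK hts
  calc ∑ i, ((c.par t).N i : ℝ) * (4 * (c.par t).T i *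
        (c.cst.K i * ((c.lam : ℝ) ^ (c.W - 1) * Real.log ts)))
      = (4 * (c.lam : ℝ) ^ (c.W - 1) * Real.log ts) *
          ∑ i, ((c.par t).N i : ℝ) * (c.par t).T i * c.cst.K i := by
        rw [Finset.mul_sum]
        refine Finset.sum_congr rfl fun i _ => ?_
        ring
    _ ≤ (4 * (c.lam : ℝ) ^ (c.W - 1) * Real.log ts) * (1000 / 999 * (c.KK * (ts : ℝ) ^ c.E)) :=
        mul_le_mul_of_nonneg_left h1 (by positivity)
    _ = (4 * (1000 / 999)) * (c.lam : ℝ) ^ (c.W - 1) * c.G ts := by rw [PC.G_eq7]; ring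
    _ ≤ 41 / 10 * (c.lam : ℝ) ^ (c.W - 1) * c.G ts := by
        have hG := c.G_nonneg7 ts
        gcongr
        norm_num

/-- borders -/
lemma PC.Ok.sumH {t ts : ℕ} (hts : t ≤ ts) (LX : ℝ) (hLX : LX ≤ 3 * c.E * Real.log ts)
    (x : ℝ) (hx0 : 0 ≤ x) :
    ∑ i, ((c.par t).N i : ℝ) * (4 * (c.par t).T i * (x * LX)) ≤
      x / 10 ^ 6 * c.G ts := by
  have hKK := c.KK_nonneg
  have hL : 0 ≤ Real.log (ts : ℝ) := Real.log_natCast_nonneg ts
  have h1 : (t : ℝ) ≤ ts := by exact_mod_cast hts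
  have hpow : (t : ℝ) ^ c.E ≤ (ts : ℝ) ^ c.E := pow_le_pow_left₀ (by positivity) h1 _
  have hsum2 : ∑ i : Fin c.cst.W, (2 : ℝ) ^ i.val ≤ 2 * 2 ^ (c.W - 1) := by
    have h := ok.sum_two ⟨c.W - 1, by have := ok.Wpos; show c.W - 1 < c.W; omega⟩
    have h2 : univ.filter (fun i : Fin c.cst.W => i ≤ (⟨c.W - 1, by
        have := ok.Wpos; show c.W - 1 < c.W; omega⟩ : Fin c.cst.W)) = univ := by
      ext i
      simp only [Finset.mem_filter, Finset.mem_univ, true_and, iff_true]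
      have : i.val < c.W := i.isLt
      rw [Fin.le_def]
      simp only
      omega
    rw [h2] at h
    exact h
  have hKst : (10 : ℝ) ^ 8 * c.E ≤ c.Kst := by exact_mod_cast ok.Kst
  have hKK2 : (10 : ℝ) ^ 8 * c.E * 2 ^ (c.W - 1) ≤ c.KK := by
    unfold PC.KK
    rw [mul_pow]
    have hl : (1 : ℝ) ≤ (c.lam : ℝ) ^ (c.W - 1) := by
      apply one_le_pow₀
      rw [ok.lamR]; norm_num
    have h3 : (2 : ℝ) ^ (c.W - 1) ≤ 2 ^ (c.W - 1) * (c.lam : ℝ) ^ (c.W - 1) := by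
      have : (0 : ℝ) < 2 ^ (c.W - 1) := by positivity
      nlinarith
    have h4 : (0 : ℝ) ≤ (10 : ℝ) ^ 8 * c.E := by positivity
    calc (10 : ℝ) ^ 8 * c.E * 2 ^ (c.W - 1)
        ≤ (10 : ℝ) ^ 8 * c.E * (2 ^ (c.W - 1) * (c.lam : ℝ) ^ (c.W - 1)) :=
          mul_le_mul_of_nonneg_left h3 h4
      _ ≤ (c.Kst : ℝ) * (2 ^ (c.W - 1) * (c.lam : ℝ) ^ (c.W - 1)) :=
          mul_le_mul_of_nonneg_right hKst (by positivity)
  calc ∑ i, ((c.par t).N i : ℝ) * (4 * (c.par t).T i * (x * LX))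
      ≤ ∑ i : Fin c.cst.W, (12 * x * c.E * (t : ℝ) ^ c.E * Real.log ts) * 2 ^ i.val := by
        apply Finset.sum_le_sum
        intro i _
        have h2 : 0 ≤ 4 * x * (((c.par t).N i : ℝ) * (c.par t).T i) := by positivity
        calc ((c.par t).N i : ℝ) * (4 * (c.par t).T i * (x * LX))
            = 4 * x * (((c.par t).N i : ℝ) * (c.par t).T i) * LX := by ring
          _ ≤ 4 * x * (((c.par t).N i : ℝ) * (c.par t).T i) * (3 * c.E * Real.log ts) :=
              mul_le_mul_of_nonneg_left hLX h2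
          _ = (12 * x * c.E * (t : ℝ) ^ c.E * Real.log ts) * 2 ^ i.val := by
              rw [ok.NT]; ring
    _ = (12 * x * c.E * (t : ℝ) ^ c.E * Real.log ts) * ∑ i : Fin c.cst.W, (2 : ℝ) ^ i.val := by
        rw [Finset.mul_sum]
    _ ≤ (12 * x * c.E * (t : ℝ) ^ c.E * Real.log ts) * (2 * 2 ^ (c.W - 1)) :=
        mul_le_mul_of_nonneg_left hsum2 (by positivity)
    _ ≤ (12 * x * c.E * (ts : ℝ) ^ c.E * Real.log ts) * (2 * 2 ^ (c.W - 1)) := by
        gcongr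
    _ = (24 * x / 10 ^ 8) * ((10 : ℝ) ^ 8 * c.E * 2 ^ (c.W - 1)) * ((ts : ℝ) ^ c.E * Real.log ts) := by
        ring
    _ ≤ (24 * x / 10 ^ 8) * c.KK * ((ts : ℝ) ^ c.E * Real.log ts) := by
        gcongr
    _ = (24 * x / 10 ^ 8) * c.G ts := by rw [PC.G_eq7]; ring
    _ ≤ x / 10 ^ 6 * c.G ts := by
        apply mul_le_mul_of_nonneg_right _ (c.G_nonneg7 ts)
        norm_num
        linarith

/-- **a sep-level inside one block**: `lQ = log Q0`, `cc j` = number of cells of class `j` met -/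
theorem PC.Ok.lvl_sep {t ts : ℕ} (h1t : 1 ≤ t) (hts : t ≤ ts) (LX lQ : ℝ)
    (hLX : LX ≤ 3 * c.E * Real.log ts) (hbig : 3000 * c.E * c.W ≤ ts)
    (hQ0 : 0 ≤ lQ) (hQ : 5000 * lQ ≤ Real.log ts) (cc : Fin c.cst.W → ℝ)
    (hcc : ∀ j, 0 ≤ cc j) :
    ∑ i, ((c.par t).N i : ℝ) * (c.cst.K i * LX + 4 * (c.par t).T i *
      (c.cst.K i * lQ + (c.cst.K i * c.lowlog ts i.val +
        4 * ∑ j ∈ univ.filter (fun j : Fin c.cst.W => i ≤ j),
          c.cst.K j * cc j * Real.log ((c.par ts).T j : ℝ)))) ≤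
      (32 * ∑ j, cc j + 4 * c.W / c.lam + 1 / 500) * c.G ts := by
  have hA := ok.sumA h1t hts LX hLX hbig
  have hB := ok.sumB hts lQ hQ0 hQ
  have hC := ok.sumC hts
  have hD := ok.sumD hts cc hcc
  have hsplit : ∑ i, ((c.par t).N i : ℝ) * (c.cst.K i * LX + 4 * (c.par t).T i *
      (c.cst.K i * lQ + (c.cst.K i * c.lowlog ts i.val +
        4 * ∑ j ∈ univ.filter (fun j : Fin c.cst.W => i ≤ j),
          c.cst.K j * cc j * Real.log ((c.par ts).T j : ℝ)))) =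
      ∑ i, ((c.par t).N i : ℝ) * (c.cst.K i * LX) +
      ∑ i, ((c.par t).N i : ℝ) * (4 * (c.par t).T i * (c.cst.K i * lQ)) +
      ∑ i, ((c.par t).N i : ℝ) * (4 * (c.par t).T i * (c.cst.K i * c.lowlog ts i.val)) +
      ∑ i, ((c.par t).N i : ℝ) * (4 * (c.par t).T i *
        (4 * ∑ j ∈ univ.filter (fun j : Fin c.cst.W => i ≤ j),
          c.cst.K j * cc j * Real.log ((c.par ts).T j : ℝ))) := by
    rw [← Finset.sum_add_distrib, ← Finset.sum_add_distrib, ← Finset.sum_add_distrib]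
    refine Finset.sum_congr rfl fun i _ => ?_
    ring
  rw [hsplit]
  linarith

/-- **any other level**: `x` = number of gadgets of a cell whose interval is not in one block -/
theorem PC.Ok.lvl_wide {t ts : ℕ} (h1t : 1 ≤ t) (hts : t ≤ ts) (LX lQ : ℝ)
    (hLX : LX ≤ 3 * c.E * Real.log ts) (hbig : 3000 * c.E * c.W ≤ ts)
    (hQ0 : 0 ≤ lQ) (hQ : 5000 * lQ ≤ Real.log ts) (x : ℝ) (hx : 0 ≤ x) :
    ∑ i, ((c.par t).N i : ℝ) * (c.cst.K i * LX + 4 * (c.par t).T i *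
      (c.cst.K i * lQ + (c.cst.K i * ((c.lam : ℝ) ^ (c.W - 1) * Real.log ts) + x * LX))) ≤
      (41 / 10 * (c.lam : ℝ) ^ (c.W - 1) + x / 10 ^ 6 + 1 / 500) * c.G ts := by
  have hA := ok.sumA h1t hts LX hLX hbig
  have hB := ok.sumB hts lQ hQ0 hQ
  have hF := ok.sumF hts
  have hH := ok.sumH hts LX hLX x hx
  have hsplit : ∑ i, ((c.par t).N i : ℝ) * (c.cst.K i * LX + 4 * (c.par t).T i *
      (c.cst.K i * lQ + (c.cst.K i * ((c.lam : ℝ) ^ (c.W - 1) * Real.log ts) + x * LX))) =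
      ∑ i, ((c.par t).N i : ℝ) * (c.cst.K i * LX) +
      ∑ i, ((c.par t).N i : ℝ) * (4 * (c.par t).T i * (c.cst.K i * lQ)) +
      ∑ i, ((c.par t).N i : ℝ) * (4 * (c.par t).T i *
        (c.cst.K i * ((c.lam : ℝ) ^ (c.W - 1) * Real.log ts))) +
      ∑ i, ((c.par t).N i : ℝ) * (4 * (c.par t).T i * (x * LX)) := by
    rw [← Finset.sum_add_distrib, ← Finset.sum_add_distrib, ← Finset.sum_add_distrib]
    refine Finset.sum_congr rfl fun i _ => ?_
    ring
  rw [hsplit]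
  linarith

/-- **atypical cells of one level**, at most `2 dlt N_i` of each class -/
theorem PC.Ok.lvl_atyp {t ts : ℕ} (hts : t ≤ ts) (LX : ℝ)
    (hLX : LX ≤ 3 * c.E * Real.log ts) :
    ∑ i, (2 * q.dlt * (c.par t).N i) * (4 * (c.par t).T i * c.cst.K i * LX) ≤
      1 / 10 ^ 5 * c.G ts := by
  have hd := ok.dlt0.le
  refine (ok.sumE hts LX hLX (2 * q.dlt) (by positivity)).trans ?_
  apply mul_le_mul_of_nonneg_right _ (c.G_nonneg7 ts)
  have h := ok.dlt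
  have h2 : 13 * (c.E : ℝ) * (2 * q.dlt) = 26 / 10 ^ 7 * (q.dlt * (10 ^ 7 * c.E)) := by ring
  rw [h2]
  have h3 : (26 : ℝ) / 10 ^ 7 * (q.dlt * (10 ^ 7 * c.E)) ≤ 26 / 10 ^ 7 * 1 :=
    mul_le_mul_of_nonneg_left h (by norm_num)
  refine h3.trans ?_
  norm_num

end

end Pool.Agent.AM
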