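import Pool.Agent.AM.CellB
import Pool.Agent.AM.S7num

set_option autoImplicit false

/-!
# Section 7: the level bounds
-/

open scoped Classical
open Finset

noncomputable section

set_option maxHeartbeats 4000000

namespace Pool.Agent.AM.LevB

section gen

variable {C : Cst} {par : ℕ → Par C} {le : ∀ m, Pt (par m) → Pt (par m) → Prop}

/-- the number of cells between two points of one block -/
theorem cc_sum {q : Con} {p : Par C} {le : Pt p → Pt p → Prop} (hg : GoodBlk q p le) (y z : Pt p) :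
    (univ.filter fun c' : Cell p => ∃ e, le y (.ce c' e) ∧ le (.ce c' e) z).card ≤
      (q.P + 2) * (lev z - lev y + 1) := by
  set A : Fin C.h → Finset (Cell p) := fun k => univ.filter fun c => c.k = k ∧ ¬ inCell c y ∧
    ¬ inCell c z ∧ ∃ e, le y (.ce c e) ∧ le (.ce c e) z with hA
  have hAc : ∀ k, (A k).card ≤ q.P := by
    intro k
    have := hg.a4c y z k
    rw [Set.ncard_eq_toFinset_card'] at this
    convert this using 2
    ext c
    simp [hA]
  have hone : ∀ w : Pt p, (univ.filter fun c : Cell p => inCell c w).card ≤ 1 := by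
    intro w
    rw [card_le_one]
    intro c hc c' hc'
    rw [mem_filter] at hc hc'
    obtain ⟨-, e, he⟩ := hc
    obtain ⟨-, e', he'⟩ := hc'
    rw [he, Pt.ce.injEq] at he'
    exact he'.1
  set L : Finset (Fin C.h) := univ.filter fun k : Fin C.h =>
    lev y ≤ k.val + 1 ∧ k.val + 1 ≤ lev z with hL
  have hLc : L.card ≤ lev z - lev y + 1 := by
    have h1 : L.image (fun k : Fin C.h => k.val + 1) ⊆ Icc (lev y) (lev z) := by
      intro x hx
      rw [mem_image] at hx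
      obtain ⟨k, hk, rfl⟩ := hx
      rw [hL, mem_filter] at hk
      rw [mem_Icc]
      exact hk.2
    have h2 : (L.image (fun k : Fin C.h => k.val + 1)).card = L.card := by
      apply card_image_of_injective
      intro a b h
      apply Fin.ext
      simp only at h
      omega
    have h3 := card_le_card h1
    rw [h2, Nat.card_Icc] at h3
    omega
  have h1 : (univ.filter fun c' : Cell p => ∃ e, le y (.ce c' e) ∧ le (.ce c' e) z) ⊆
      ((univ.filter fun c : Cell p => inCell c y) ∪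
      (univ.filter fun c : Cell p => inCell c z)) ∪ L.biUnion A := by
    intro c hc
    rw [mem_filter] at hc
    obtain ⟨-, e, h2⟩ := hc
    rw [mem_union, mem_union, mem_filter, mem_filter, mem_biUnion]
    by_cases hy : inCell c y
    · exact Or.inl (Or.inl ⟨mem_univ _, hy⟩)
    by_cases hz : inCell c z
    · exact Or.inl (Or.inr ⟨mem_univ _, hz⟩)
    refine Or.inr ⟨c.k, ?_, ?_⟩
    · rw [hL, mem_filter]
      exact ⟨mem_univ _, hg.ord.lev_mono _ _ h2.1, hg.ord.lev_mono _ _ h2.2⟩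
    · rw [hA, mem_filter]
      exact ⟨mem_univ _, rfl, hy, hz, e, h2.1, h2.2⟩
  refine (card_le_card h1).trans ((card_union_le _ _).trans ?_)
  have h3 : (L.biUnion A).card ≤ L.card * q.P := card_biUnion_le_card_mul _ _ q.P fun k _ => hAc k
  have h4 := (card_union_le (univ.filter fun c : Cell p => inCell c y)
      (univ.filter fun c : Cell p => inCell c z))
  have h5 := hone y
  have h6 := hone z
  have h7 : L.card * q.P ≤ (lev z - lev y + 1) * q.P := Nat.mul_le_mul_right _ hLc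
  nlinarith [h7]

/-- the sum over the classes of the numbers of cells -/
theorem cc_sum' {q : Con} {p : Par C} {le : Pt p → Pt p → Prop} (hg : GoodBlk q p le)
    (y z : Pt p) :
    ∑ j : Fin C.W, ((univ.filter fun c' : Cell p => c'.j = j ∧
      ∃ e, le y (.ce c' e) ∧ le (.ce c' e) z).card : ℝ) ≤
      ((q.P + 2) * (lev z - lev y + 1) : ℕ) := by
  have h1 := cc_sum hg y z
  have h2 : ∑ j : Fin C.W, (univ.filter fun c' : Cell p => c'.j = j ∧
      ∃ e, le y (.ce c' e) ∧ le (.ce c' e) z).card =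
      (univ.filter fun c' : Cell p => ∃ e, le y (.ce c' e) ∧ le (.ce c' e) z).card := by
    rw [← card_biUnion]
    · congr 1
      ext c'
      simp
    · intro j _ j' _ hjj
      rw [Function.onFun, Finset.disjoint_left]
      intro c' h3 h4
      rw [mem_filter] at h3 h4
      exact hjj (h3.2.1.symm.trans h4.2.1)
  rw [← h2] at h1
  exact_mod_cast h1

lemma nn1 {K X T lQ l s : ℝ} (hK : 0 ≤ K) (hX : 0 ≤ X) (hT : 0 ≤ T) (hQ : 0 ≤ lQ) (hl : 0 ≤ l)
    (hs : 0 ≤ s) : 0 ≤ K * X + 4 * T * (K * lQ + (K * l + s)) := by positivity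

/-- typical and atypical cells of one level -/
theorem LS_le {lo hi : ℕ} {b : Prop} (F : Set (TP par → TP par)) (hF : F ⊆ EndSet le lo hi b)
    (f0 : TP par → TP par) (m : ℕ) (hlo : lo ≤ m) (hhi : m ≤ hi) (k : Fin C.h)
    (typ : Fin C.W → ℝ) (htyp0 : ∀ j, 0 ≤ typ j) (δ : ℝ)
    (Bad : (j : Fin C.W) → Finset (Fin ((par m).N j)))
    (hBad : ∀ j, ((Bad j).card : ℝ) ≤ δ * (par m).N j)
    (htyp : ∀ j, ∀ a, a ∉ Bad j →
      Real.log ((Ext lo hi b F f0 m ⟨k, j, a⟩).ncard : ℝ) ≤ typ j) :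
    LS lo hi b F f0 m k ≤ ∑ j, ((par m).N j : ℝ) * typ j +
      ∑ j, (δ * (par m).N j) *
        (4 * (par m).T j * C.K j * Real.log (cardT par lo hi : ℝ)) := by
  unfold LS
  rw [← sum_add_distrib]
  apply sum_le_sum
  intro j _
  have hlX : 0 ≤ Real.log (cardT par lo hi : ℝ) := Real.log_natCast_nonneg _
  have hterm : ∀ a : Fin ((par m).N j),
      Real.log ((Ext lo hi b F f0 m ⟨k, j, a⟩).ncard : ℝ) ≤ typ j +
        (if a ∈ Bad j then 4 * (par m).T j * C.K j * Real.log (cardT par lo hi : ℝ) else 0) := by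
    intro a
    by_cases ha : a ∈ Bad j
    · rw [if_pos ha]
      have h1 := ext_log_triv le lo hi b F hF f0 m hlo hhi ⟨k, j, a⟩
      have h2 := htyp0 j
      have h3 : Real.log ((Ext lo hi b F f0 m ⟨k, j, a⟩).ncard : ℝ) ≤
        4 * (par m).T j * C.K j * Real.log (cardT par lo hi : ℝ) := h1
      linarith
    · rw [if_neg ha]
      have := htyp j a ha
      linarith
  calc ∑ a : Fin ((par m).N j), Real.log ((Ext lo hi b F f0 m ⟨k, j, a⟩).ncard : ℝ)
      ≤ ∑ a : Fin ((par m).N j), (typ j + (if a ∈ Bad j then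
          4 * (par m).T j * C.K j * Real.log (cardT par lo hi : ℝ) else 0)) :=
        sum_le_sum fun a _ => hterm a
    _ = (par m).N j * typ j + (Bad j).card *
          (4 * (par m).T j * C.K j * Real.log (cardT par lo hi : ℝ)) := by
        rw [sum_add_distrib, sum_const, card_univ, Fintype.card_fin, nsmul_eq_mul,
          sum_ite_mem, univ_inter, sum_const, nsmul_eq_mul]
    _ ≤ (par m).N j * typ j + (δ * (par m).N j) *
          (4 * (par m).T j * C.K j * Real.log (cardT par lo hi : ℝ)) := by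
        have := hBad j
        gcongr

end gen

section PC

variable {c : PC} {q : Con} (ok : c.Ok q) {m0 lo hi : ℕ} {b : Prop}
  {le : ∀ m, Pt (c.bl m0 m) → Pt (c.bl m0 m) → Prop}

/-- the largest number of gadgets -/
def K0 (c : PC) : ℕ := c.Kst * (2 * c.lam) ^ (c.W - 1)

include ok

lemma K_le (j : Fin c.cst.W) : c.cst.K j ≤ K0 c := by
  have hl : 1 ≤ 2 * c.lam := by rw [ok.lam]; norm_num
  exact Nat.mul_le_mul_left _ (Nat.pow_le_pow_right hl (by omega))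

lemma K0_pos : 1 ≤ K0 c := by
  have h1 : 1 ≤ c.Kst := by
    have := ok.Kst
    have := ok.Epos
    omega
  have hl : 1 ≤ (2 * c.lam) ^ (c.W - 1) := Nat.one_le_pow _ _ (by rw [ok.lam]; norm_num)
  exact Nat.mul_pos h1 hl

lemma T_pos {t : ℕ} (ht : 1 ≤ t) (j : Fin c.cst.W) : 0 < (c.par t).T j :=
  Nat.pow_pos ht

lemma logT_le {t ts : ℕ} (ht : 1 ≤ t) (hts : t ≤ ts) (j : Fin c.cst.W) :
    Real.log ((c.par t).T j : ℝ) ≤ Real.log ((c.par ts).T j : ℝ) := by
  apply Real.log_le_log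
  · exact_mod_cast T_pos ok ht j
  · have : (c.par t).T j ≤ (c.par ts).T j := Nat.pow_le_pow_left hts _
    exact_mod_cast this

lemma logT_low {t ts : ℕ} (ht : 1 ≤ t) (hts : t ≤ ts) (j i : Fin c.cst.W) (hji : j < i) :
    Real.log ((c.par t).T j : ℝ) ≤ c.lowlog ts i.val := by
  refine (logT_le ok ht hts j).trans ?_
  rw [ok.logT]
  unfold PC.lowlog
  have h1 : j.val < i.val := hji
  rw [if_neg (by omega)]
  apply mul_le_mul_of_nonneg_right _ (Real.log_natCast_nonneg ts)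
  apply pow_le_pow_right₀
  · rw [ok.lamR]; norm_num
  · omega

lemma logT_top {t ts : ℕ} (ht : 1 ≤ t) (hts : t ≤ ts) (j : Fin c.cst.W) :
    Real.log ((c.par t).T j : ℝ) ≤ (c.lam : ℝ) ^ (c.W - 1) * Real.log ts := by
  refine (logT_le ok ht hts j).trans ?_
  rw [ok.logT]
  apply mul_le_mul_of_nonneg_right _ (Real.log_natCast_nonneg ts)
  apply pow_le_pow_right₀
  · rw [ok.lamR]; norm_num
  · have : j.val < c.W := j.isLt
    omega

lemma lowlog_nonneg (ts i : ℕ) : 0 ≤ c.lowlog ts i := by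
  unfold PC.lowlog
  have := Real.log_natCast_nonneg ts
  split_ifs
  · exact le_rfl
  · positivity

/-- twice `lvl_atyp` -/
lemma atyp4 {t ts : ℕ} (hts : t ≤ ts) (LX : ℝ) (hLX : LX ≤ 3 * c.E * Real.log ts) :
    ∑ i, (4 * q.dlt * (c.par t).N i) * (4 * (c.par t).T i * c.cst.K i * LX) ≤
      2 / 10 ^ 5 * c.G ts := by
  have h := ok.lvl_atyp hts LX hLX
  have h2 : ∑ i, (4 * q.dlt * (c.par t).N i) * (4 * (c.par t).T i * c.cst.K i * LX) =
      2 * ∑ i, (2 * q.dlt * (c.par t).N i) * (4 * (c.par t).T i * c.cst.K i * LX) := by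
    rw [mul_sum]
    refine sum_congr rfl fun i _ => ?_
    ring
  rw [h2]
  linarith

/-- **a sep-level, values between two points of one block** -/
theorem lev_sep (hg : ∀ m, lo ≤ m → m ≤ hi → GoodBlk q (c.bl m0 m) (le m))
    (F : Set (TP (c.bl m0) → TP (c.bl m0))) (hF : F ⊆ EndSet le lo hi b)
    (f0 : TP (c.bl m0) → TP (c.bl m0)) (m : ℕ) (hlo : lo ≤ m) (hhi : m ≤ hi) (k : Fin c.cst.h)
    (μ : ℕ) (hμlo : lo ≤ μ) (hμhi : μ ≤ hi) (y z : Pt (c.bl m0 μ)) (hyz : le μ y z)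
    (h1t : 1 ≤ c.tf m0 m) (hts : c.tf m0 m ≤ c.tf m0 hi)
    (h1μ : 1 ≤ c.tf m0 μ) (hμts : c.tf m0 μ ≤ c.tf m0 hi)
    (hLX : Real.log (cardT (c.bl m0) lo hi : ℝ) ≤ 3 * c.E * Real.log (c.tf m0 hi))
    (hbig : 3000 * c.E * c.W ≤ c.tf m0 hi)
    (hQ : 5000 * Real.log (CellB.Q0 q c.cst (K0 c) : ℝ) ≤ Real.log (c.tf m0 hi))
    (Bad : (j : Fin c.cst.W) → Finset (Fin ((c.bl m0 m).N j)))
    (hBad : ∀ j, ((Bad j).card : ℝ) ≤ 4 * q.dlt * (c.bl m0 m).N j)
    (hval : ∀ j, ∀ a, a ∉ Bad j → ∀ f ∈ F, SkEq lo hi b f0 f →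
      ∀ e : CI (c.bl m0 m) j,
      TLe le (.pt μ y) (f (.pt m (.ce ⟨k, j, a⟩ e))) ∧
      TLe le (f (.pt m (.ce ⟨k, j, a⟩ e))) (.pt μ z)) :
    LS lo hi b F f0 m k ≤
      (32 * ∑ j : Fin c.cst.W, ((univ.filter fun c' : Cell (c.bl m0 μ) => c'.j = j ∧
        ∃ e, le μ y (.ce c' e) ∧ le μ (.ce c' e) z).card : ℝ) +
        4 * c.W / c.lam + 1 / 100) * c.G (c.tf m0 hi) := by
  have hQ1 : 1 ≤ CellB.Q0 q c.cst (K0 c) := by
    have h1 := K0_pos ok
    have : 0 < CellB.Q0 q c.cst (K0 c) := by unfold CellB.Q0; positivity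
    omega
  have hlQ : 0 ≤ Real.log (CellB.Q0 q c.cst (K0 c) : ℝ) :=
    Real.log_nonneg (by exact_mod_cast hQ1)
  set cc : Fin c.cst.W → ℝ := fun j => ((univ.filter fun c' : Cell (c.bl m0 μ) => c'.j = j ∧
        ∃ e, le μ y (.ce c' e) ∧ le μ (.ce c' e) z).card : ℝ) with hcc
  have hcc0 : ∀ j, 0 ≤ cc j := fun j => Nat.cast_nonneg _
  have hlX : 0 ≤ Real.log (cardT (c.bl m0) lo hi : ℝ) := Real.log_natCast_nonneg _
  have hTl0 : ∀ j : Fin c.cst.W, 0 ≤ Real.log ((c.par (c.tf m0 hi)).T j : ℝ) :=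
    fun j => Real.log_natCast_nonneg _
  have h1 := LS_le F hF f0 m hlo hhi k
    (fun i => c.cst.K i * Real.log (cardT (c.bl m0) lo hi : ℝ) + 4 * (c.bl m0 m).T i *
      (c.cst.K i * Real.log (CellB.Q0 q c.cst (K0 c) : ℝ) +
        (c.cst.K i * c.lowlog (c.tf m0 hi) i.val +
        4 * ∑ j ∈ univ.filter (fun j : Fin c.cst.W => i ≤ j),
          c.cst.K j * cc j * Real.log ((c.par (c.tf m0 hi)).T j : ℝ))))
    (by
      intro i
      have h2 := lowlog_nonneg ok (c.tf m0 hi) i.val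
      have h3 : 0 ≤ ∑ j ∈ univ.filter (fun j : Fin c.cst.W => i ≤ j),
          c.cst.K j * cc j * Real.log ((c.par (c.tf m0 hi)).T j : ℝ) :=
        sum_nonneg fun j _ => mul_nonneg (mul_nonneg (Nat.cast_nonneg _) (hcc0 j)) (hTl0 j)
      exact nn1 (Nat.cast_nonneg _) hlX (Nat.cast_nonneg _) hlQ h2
        (mul_nonneg (by norm_num) h3))
    (4 * q.dlt) Bad hBad
    (by
      intro j a ha
      exact CellB.cell_sep hg (K0 c) (K_le ok) (K0_pos ok) F hF f0 m hlo hhi ⟨k, j, a⟩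
        (T_pos ok h1t j) μ hμlo hμhi y z hyz (fun f hf hsk e => hval j a ha f hf hsk e)
        (fun j => Real.log ((c.par (c.tf m0 hi)).T j : ℝ))
        (fun j => logT_le ok h1μ hμts j) hTl0 (c.lowlog (c.tf m0 hi) j.val)
        (lowlog_nonneg ok _ _) (fun j' hj' => logT_low ok h1μ hμts j' j hj'))
  have h2 := ok.lvl_sep h1t hts _ _ hLX hbig hlQ hQ cc hcc0
  have h3 := atyp4 ok hts _ hLX
  have hG := c.G_nonneg7 (c.tf m0 hi)
  have h4 : LS lo hi b F f0 m k ≤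
      (32 * ∑ j, cc j + 4 * c.W / c.lam + 1 / 500) * c.G (c.tf m0 hi) +
        2 / 10 ^ 5 * c.G (c.tf m0 hi) := by
    refine h1.trans (add_le_add h2 h3)
  refine h4.trans ?_
  rw [← add_mul]
  apply mul_le_mul_of_nonneg_right _ hG
  have : (2 : ℝ) / 10 ^ 5 ≤ 1 / 200 := by norm_num
  linarith

/-- **any level, values in the blocks of positions `β0..β1`** -/
theorem lev_wide (hg : ∀ m, lo ≤ m → m ≤ hi → GoodBlk q (c.bl m0 m) (le m))
    (F : Set (TP (c.bl m0) → TP (c.bl m0))) (hF : F ⊆ EndSet le lo hi b)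
    (f0 : TP (c.bl m0) → TP (c.bl m0)) (m : ℕ) (hlo : lo ≤ m) (hhi : m ≤ hi) (k : Fin c.cst.h)
    (β0 β1 : ℕ)
    (h1 : ∀ m', lo ≤ m' → m' ≤ hi → 1 ≤ c.tf m0 m' ∧ c.tf m0 m' ≤ c.tf m0 hi)
    (hLX : Real.log (cardT (c.bl m0) lo hi : ℝ) ≤ 3 * c.E * Real.log (c.tf m0 hi))
    (hbig : 3000 * c.E * c.W ≤ c.tf m0 hi)
    (hQ : 5000 * Real.log (CellB.Q0 q c.cst (K0 c) : ℝ) ≤ Real.log (c.tf m0 hi))
    (Bad : (j : Fin c.cst.W) → Finset (Fin ((c.bl m0 m).N j)))
    (hBad : ∀ j, ((Bad j).card : ℝ) ≤ 4 * q.dlt * (c.bl m0 m).N j)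
    (hval : ∀ j, ∀ a, a ∉ Bad j → ∀ f ∈ F, SkEq lo hi b f0 f →
      ∀ e : CI (c.bl m0 m) j,
      β0 ≤ bp lo hi (f (.pt m (.ce ⟨k, j, a⟩ e))) ∧
      bp lo hi (f (.pt m (.ce ⟨k, j, a⟩ e))) ≤ β1) :
    LS lo hi b F f0 m k ≤
      (41 / 10 * (c.lam : ℝ) ^ (c.W - 1) + (2 * (β1 - β0 : ℕ) + 4) / 10 ^ 6 + 1 / 100) *
        c.G (c.tf m0 hi) := by
  have hQ1 : 1 ≤ CellB.Q0 q c.cst (K0 c) := by
    have h1 := K0_pos ok
    have : 0 < CellB.Q0 q c.cst (K0 c) := by unfold CellB.Q0; positivity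
    omega
  have hlQ : 0 ≤ Real.log (CellB.Q0 q c.cst (K0 c) : ℝ) :=
    Real.log_nonneg (by exact_mod_cast hQ1)
  have hlX : 0 ≤ Real.log (cardT (c.bl m0) lo hi : ℝ) := Real.log_natCast_nonneg _
  have hL : 0 ≤ Real.log (c.tf m0 hi : ℝ) := Real.log_natCast_nonneg _
  have hx : (0 : ℝ) ≤ 2 * (β1 - β0 : ℕ) + 4 := by positivity
  have h1t := (h1 m hlo hhi).1
  have hts := (h1 m hlo hhi).2
  have hs := LS_le F hF f0 m hlo hhi k
    (fun i => c.cst.K i * Real.log (cardT (c.bl m0) lo hi : ℝ) + 4 * (c.bl m0 m).T i *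
      (c.cst.K i * Real.log (CellB.Q0 q c.cst (K0 c) : ℝ) +
        (c.cst.K i * ((c.lam : ℝ) ^ (c.W - 1) * Real.log (c.tf m0 hi)) +
        (2 * (β1 - β0 : ℕ) + 4) * Real.log (cardT (c.bl m0) lo hi : ℝ))))
    (by
      intro i
      exact nn1 (Nat.cast_nonneg _) hlX (Nat.cast_nonneg _) hlQ
        (mul_nonneg (pow_nonneg (Nat.cast_nonneg _) _) hL) (mul_nonneg hx hlX))
    (4 * q.dlt) Bad hBad
    (by
      intro j a ha
      exact CellB.cell_wide hg (K0 c) (K_le ok) (K0_pos ok) F hF f0 m hlo hhi ⟨k, j, a⟩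
        (T_pos ok h1t j) β0 β1 (fun f hf hsk e => hval j a ha f hf hsk e)
        ((c.lam : ℝ) ^ (c.W - 1) * Real.log (c.tf m0 hi))
        (mul_nonneg (pow_nonneg (Nat.cast_nonneg _) _) hL)
        (fun m' hm1 hm2 j' => logT_top ok (h1 m' hm1 hm2).1 (h1 m' hm1 hm2).2 j'))
  have h2 := ok.lvl_wide h1t hts _ _ hLX hbig hlQ hQ _ hx
  have h3 := atyp4 ok hts _ hLX
  have hG := c.G_nonneg7 (c.tf m0 hi)
  have h4 : LS lo hi b F f0 m k ≤
      (41 / 10 * (c.lam : ℝ) ^ (c.W - 1) + (2 * (β1 - β0 : ℕ) + 4) / 10 ^ 6 + 1 / 500) *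
        c.G (c.tf m0 hi) + 2 / 10 ^ 5 * c.G (c.tf m0 hi) := by
    refine hs.trans (add_le_add h2 h3)
  refine h4.trans ?_
  rw [← add_mul]
  apply mul_le_mul_of_nonneg_right _ hG
  have : (2 : ℝ) / 10 ^ 5 ≤ 1 / 200 := by norm_num
  linarith

/-- **a level with few cells which are not rigid** -/
theorem lev_pin (F : Set (TP (c.bl m0) → TP (c.bl m0))) (hF : F ⊆ EndSet le lo hi b)
    (f0 : TP (c.bl m0) → TP (c.bl m0)) (m : ℕ) (hlo : lo ≤ m) (hhi : m ≤ hi) (k : Fin c.cst.h)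
    (hts : c.tf m0 m ≤ c.tf m0 hi)
    (hLX : Real.log (cardT (c.bl m0) lo hi : ℝ) ≤ 3 * c.E * Real.log (c.tf m0 hi))
    (Bad : (j : Fin c.cst.W) → Finset (Fin ((c.bl m0 m).N j)))
    (hBad : ∀ j, ((Bad j).card : ℝ) ≤ 4 * q.dlt * (c.bl m0 m).N j)
    (hval : ∀ j, ∀ a, a ∉ Bad j → Real.log ((Ext lo hi b F f0 m ⟨k, j, a⟩).ncard : ℝ) ≤
      c.cst.K j * Real.log (((c.bl m0 m).T j).factorial : ℝ)) :
    LS lo hi b F f0 m k ≤ ∑ j : Fin c.cst.W, ((c.bl m0 m).N j : ℝ) *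
      (c.cst.K j * Real.log (((c.bl m0 m).T j).factorial : ℝ)) +
        1 / 100 * c.G (c.tf m0 hi) := by
  have hs := LS_le F hF f0 m hlo hhi k
    (fun j => c.cst.K j * Real.log (((c.bl m0 m).T j).factorial : ℝ))
    (by
      intro i
      exact mul_nonneg (Nat.cast_nonneg _) (Real.log_natCast_nonneg _))
    (4 * q.dlt) Bad hBad hval
  have h3 := atyp4 ok hts _ hLX
  have hG := c.G_nonneg7 (c.tf m0 hi)
  refine hs.trans (add_le_add le_rfl (h3.trans ?_))
  apply mul_le_mul_of_nonneg_right _ hG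
  norm_num

end PC

end Pool.Agent.AM.LevB
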