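import Pool.Agent.AM.Gad
import Pool.Agent.AM.Defs2

/-! S09118: pinned cells (7 (P)) and rigid blocks (5.5): the map acts on every gadget by one permutation. -/

set_option autoImplicit false

open scoped Classical
open Finset

noncomputable section

namespace Pool.Agent.AM

variable {C : Cst} {par : ℕ → Par C} {le : ∀ m, Pt (par m) → Pt (par m) → Prop}

theorem tle_pt {m : ℕ} {x y : Pt (par m)} : TLe le (.pt m x) (.pt m y) ↔ le m x y := by
  constructor
  · intro h
    cases h with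
    | lt h => exact absurd h (lt_irrefl _)
    | eq h => exact h
  · exact TLe.eq

/-- a point between two points of one block lies in the block -/
theorem tle_sandwich {m : ℕ} {x y : Pt (par m)} {w : TP par} (h1 : TLe le (.pt m x) w)
    (h2 : TLe le w (.pt m y)) : ∃ z, w = .pt m z ∧ le m x z ∧ le m z y := by
  cases w with
  | top => cases h2
  | pt m' z =>
    have h3 : m' ≤ m := by
      cases h1 with
      | lt h => exact h.le
      | eq h => exact le_rfl
    have h4 : m ≤ m' := by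
      cases h2 with
      | lt h => exact h.le
      | eq h => exact le_rfl
    have h5 : m' = m := le_antisymm h3 h4
    subst h5
    exact ⟨z, rfl, tle_pt.mp h1, tle_pt.mp h2⟩

theorem lt_gad {p : Par C} (c : Cell p) (g : Fin (C.K c.j)) {s s' : Srt} {l l' : Fin (p.T c.j)}
    {le : Pt p → Pt p → Prop} (ho : BlkOrd le) (h : GLt s l s' l') :
    le (.ce c (g, s, l)) (.ce c (g, s', l')) :=
  ho.cell _ _ _ (Or.inr ⟨rfl, h⟩)

/-- (P): a pinned cell. -/
theorem pinned_cell {lo hi : ℕ} {b : Prop} {f : TP par → TP par} (hf : Endo le lo hi b f) {m : ℕ}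
    (hm : lo ≤ m) (hm' : m ≤ hi) (ho : BlkOrd (le m)) (c : Cell (par m))
    (hT : 2 ≤ (par m).T c.j) {S S' : Finset (Fin (par m).n)}
    (hS : ∀ v, v ∉ S → f (TV par m c.k.val v) = TV par m c.k.val v)
    (hS' : ∀ v, v ∉ S' → f (TV par m (c.k.val + 2) v) = TV par m (c.k.val + 2) v)
    (hl : LowReg (le m) c S) (hu : UpReg (le m) c S') (g : Fin (C.K c.j)) :
    ∃ s : Equiv.Perm (Fin ((par m).T c.j)), ∀ a l,
      f (.pt m (.ce c (g, a, l))) = .pt m (.ce c (g, a, s l)) := by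
  have hin : ∀ x, inT par lo hi b (.pt m x) := fun x => ⟨hm, hm'⟩
  have mono : ∀ x y : Pt (par m), le m x y → TLe le (f (.pt m x)) (f (.pt m y)) := fun x y h =>
    hf.mono _ _ (hin x) (hin y) (TLe.eq h)
  have : Nontrivial (Fin ((par m).T c.j)) := Fin.nontrivial_iff_two_le.mpr hT
  -- every point of the gadget is mapped into the block
  have low : ∀ (s : Srt), s.up = false → ∀ l v, v ∉ S →
      (∀ l, le m (V (par m) c.k.val v) (.ce c (g, s, l))) →
      TLe le (.pt m (V (par m) c.k.val v)) (f (.pt m (.ce c (g, s, l)))) := by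
    intro s hs l v hv h
    have h1 := mono _ _ (h l)
    have h2 := hS v hv
    unfold TV at h2
    rw [h2] at h1
    exact h1
  have upp : ∀ (s : Srt), s.up = true → ∀ l v, v ∉ S' →
      (∀ l, le m (.ce c (g, s, l)) (V (par m) (c.k.val + 2) v)) →
      TLe le (f (.pt m (.ce c (g, s, l)))) (.pt m (V (par m) (c.k.val + 2) v)) := by
    intro s hs l v hv h
    have h1 := mono _ _ (h l)
    have h2 := hS' v hv
    unfold TV at h2
    rw [h2] at h1
    exact h1
  -- one regular pick below (above) every point of the gadget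
  have lowpt : ∀ (s : Srt) (l), ∃ v, v ∉ S ∧ le m (V (par m) c.k.val v) (.ce c (g, s, l)) := by
    intro s l
    cases s with
    | A => obtain ⟨⟨v, hv, h⟩, _⟩ := hl g .A rfl; exact ⟨v, hv, h l⟩
    | F => obtain ⟨⟨v, hv, h⟩, _⟩ := hl g .F rfl; exact ⟨v, hv, h l⟩
    | G =>
      obtain ⟨⟨v, hv, h⟩, _⟩ := hl g .A rfl
      exact ⟨v, hv, ho.trans _ _ _ (h l) (lt_gad c g ho (s := .A) (s' := .G) rfl)⟩
    | D =>
      obtain ⟨⟨v, hv, h⟩, _⟩ := hl g .F rfl
      exact ⟨v, hv, ho.trans _ _ _ (h l) (lt_gad c g ho (s := .F) (s' := .D) rfl)⟩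
  have upppt : ∀ (s : Srt) (l), ∃ v, v ∉ S' ∧
      le m (.ce c (g, s, l)) (V (par m) (c.k.val + 2) v) := by
    intro s l
    cases s with
    | G => obtain ⟨⟨v, hv, h⟩, _⟩ := hu g .G rfl; exact ⟨v, hv, h l⟩
    | D => obtain ⟨⟨v, hv, h⟩, _⟩ := hu g .D rfl; exact ⟨v, hv, h l⟩
    | A =>
      obtain ⟨⟨v, hv, h⟩, _⟩ := hu g .G rfl
      exact ⟨v, hv, ho.trans _ _ _ (lt_gad c g ho (s := .A) (s' := .G) rfl) (h l)⟩
    | F =>
      obtain ⟨⟨v, hv, h⟩, _⟩ := hu g .G rfl
      exact ⟨v, hv, ho.trans _ _ _ (lt_gad c g ho (s := .F) (s' := .G) rfl) (h l)⟩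
  have himg : ∀ (s : Srt) (l), ∃ z, f (.pt m (.ce c (g, s, l))) = .pt m z := by
    intro s l
    obtain ⟨v, hv, h1⟩ := lowpt s l
    obtain ⟨v', hv', h2⟩ := upppt s l
    have h3 := mono _ _ h1
    have h4 := mono _ _ h2
    have h5 := hS v hv
    have h6 := hS' v' hv'
    unfold TV at h5 h6
    rw [h5] at h3
    rw [h6] at h4
    obtain ⟨z, hz, _⟩ := tle_sandwich h3 h4
    exact ⟨z, hz⟩
  choose z hz using himg
  have hzle : ∀ (s s' : Srt) (l l' : Fin ((par m).T c.j)), GLt s l s' l' →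
      le m (z s l) (z s' l') := by
    intro s s' l l' h
    have h1 := mono _ _ (lt_gad c g ho h)
    rw [hz, hz] at h1
    exact tle_pt.mp h1
  have hlow : ∀ (s : Srt), s.up = false → ∀ l, ∃ k, le m (.ce c (g, s, k)) (z s l) := by
    intro s hs l
    obtain ⟨_, h1⟩ := hl g s hs
    apply h1
    intro v hv h2
    have h3 := low s hs l v hv h2
    rw [hz] at h3
    exact tle_pt.mp h3
  have hupp : ∀ (s : Srt), s.up = true → ∀ l, ∃ k, le m (z s l) (.ce c (g, s, k)) := by
    intro s hs l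
    obtain ⟨_, h1⟩ := hu g s hs
    apply h1
    intro v hv h2
    have h3 := upp s hs l v hv h2
    rw [hz] at h3
    exact tle_pt.mp h3
  obtain ⟨s, hs⟩ := gad_rigid (le := le m) ho.trans hT (isGad_cell ho c g)
    (a' := z .A) (f' := z .F) (g' := z .G) (d' := z .D)
    (fun l => hzle _ _ _ _ rfl) (fun l => hzle _ _ _ _ rfl) (fun l => hzle _ _ _ _ rfl)
    (fun l k h => hzle _ _ _ _ h) (hlow .A rfl) (hlow .F rfl) (hupp .G rfl) (hupp .D rfl)
  refine ⟨s, fun a l => ?_⟩
  obtain ⟨h1, h2, h3, h4⟩ := hs l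
  rw [hz]
  cases a with
  | A => rw [h1]
  | F => rw [h2]
  | G => rw [h3]
  | D => rw [h4]

/-- (P), counting form -/
theorem pinned_card {lo hi : ℕ} {b : Prop} {Φ : Set (TP par → TP par)}
    (hf : ∀ f ∈ Φ, Endo le lo hi b f) {m : ℕ}
    (hm : lo ≤ m) (hm' : m ≤ hi) (ho : BlkOrd (le m)) (c : Cell (par m))
    (hT : 2 ≤ (par m).T c.j) {S S' : Finset (Fin (par m).n)}
    (hS : ∀ f ∈ Φ, ∀ v, v ∉ S → f (TV par m c.k.val v) = TV par m c.k.val v)
    (hS' : ∀ f ∈ Φ, ∀ v, v ∉ S' → f (TV par m (c.k.val + 2) v) = TV par m (c.k.val + 2) v)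
    (hl : LowReg (le m) c S) (hu : UpReg (le m) c S') :
    ((fun f => resC f m c) '' Φ).Finite ∧
    ((fun f => resC f m c) '' Φ).ncard ≤ ((par m).T c.j).factorial ^ (C.K c.j) := by
  have key := card_perm_family (ι := Fin (C.K c.j)) (S := Srt) (X := TP par)
    (T := (par m).T c.j) (fun g a l => .pt m (.ce c (g, a, l)))
    ((fun f g a l => f (.pt m (.ce c (g, a, l)))) '' Φ) (by
      rintro φ ⟨f, hfΦ, rfl⟩ g
      exact pinned_cell (hf f hfΦ) hm hm' ho c hT (hS f hfΦ) (hS' f hfΦ) hl hu g)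
  obtain ⟨hfin, hcard⟩ := key
  rw [Fintype.card_fin] at hcard
  let unc : (Fin (C.K c.j) → Srt → Fin ((par m).T c.j) → TP par) → (CI (par m) c.j → TP par) :=
    fun φ e => φ e.1 e.2.1 e.2.2
  have himg : (fun f => resC f m c) '' Φ =
      unc '' ((fun (f : TP par → TP par) g a l => f (.pt m (.ce c (g, a, l)))) '' Φ) := by
    rw [Set.image_image]
    rfl
  rw [himg]
  exact ⟨hfin.image _, (Set.ncard_image_le hfin).trans hcard⟩

end Pool.Agent.AM
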