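import Pool.Agent.AM.S7Defs
import Pool.Agent.AM.CellW
import Pool.Agent.AM.LevB
import Pool.Agent.AM.Pin

set_option autoImplicit false

open scoped Classical
open Finset

noncomputable section

namespace Pool.Agent.AM

variable {C : Cst} {par : ℕ → Par C} {le : ∀ m, Pt (par m) → Pt (par m) → Prop} {q : Con}
  {lo hi : ℕ} {b : Prop} {F : Set (TP par → TP par)} {f0 : TP par → TP par}

/-- splitting the cells of a level into exceptional ones (at most `x N_j` in class `j`) and others -/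
theorem ls_split (hF : F ⊆ EndSet le lo hi b) {m : ℕ} (hm : lo ≤ m) (hm' : m ≤ hi) (k : Fin C.h)
    (x : ℝ) (hx : 0 ≤ x) (B : Fin C.W → ℝ) (hB0 : ∀ j, 0 ≤ B j) (Ty : Cell (par m) → Prop)
    (hTy : ∀ j, ((univ.filter fun c : Fin ((par m).N j) => ¬ Ty ⟨k, j, c⟩).card : ℝ) ≤
      x * (par m).N j)
    (hB : ∀ j c, Ty ⟨k, j, c⟩ → Real.log ((Ext lo hi b F f0 m ⟨k, j, c⟩).ncard : ℝ) ≤ B j) :
    LS lo hi b F f0 m k ≤ ∑ j, ((par m).N j : ℝ) * B j +
      ∑ j, (x * (par m).N j) * (4 * (par m).T j * C.K j * Real.log (cardT par lo hi : ℝ)) := by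
  exact LevB.LS_le F hF f0 m hm hm' k B hB0 x (fun j => univ.filter fun c => ¬ Ty ⟨k, j, c⟩)
    hTy (fun j a ha => hB j a (by simpa using ha))

/-- pinned level -/
theorem ls_pin (hG : ∀ m, lo ≤ m → m ≤ hi → GoodBlk q (par m) (le m))
    (hF : F ⊆ EndSet le lo hi b) {m : ℕ} (hm : lo ≤ m) (hm' : m ≤ hi) (k : Fin C.h)
    (hp : PinLev q f0 m (k.val + 1)) (hd : 0 ≤ q.dlt) (hT : ∀ j, 2 ≤ (par m).T j) :
    LS lo hi b F f0 m k ≤ rigC (par m) +
      ∑ j, (2 * q.dlt * (par m).N j) *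
        (4 * (par m).T j * C.K j * Real.log (cardT par lo hi : ℝ)) := by
  obtain ⟨-, -, hc1, hc2⟩ := hp
  have hG' := hG m hm hm'
  have hk := k.2
  set S : Finset (Fin (par m).n) := Disp f0 m k.val with hS
  set S' : Finset (Fin (par m).n) := Disp f0 m (k.val + 2) with hS'
  have hSc : (S.card : ℝ) ≤ q.kap * (par m).n := by
    have h : k.val + 1 - 1 = k.val := by omega
    rw [h] at hc1
    exact hc1
  have hSc' : (S'.card : ℝ) ≤ q.kap * (par m).n := hc2
  have key := ls_split (F := F) (f0 := f0) hF hm hm' k (2 * q.dlt) (by linarith)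
    (fun j => C.K j * Real.log (((par m).T j).factorial : ℝ))
    (fun j => mul_nonneg (Nat.cast_nonneg _) (Real.log_natCast_nonneg _))
    (fun c => LowReg (le m) c S ∧ UpReg (le m) c S') ?_ ?_
  · exact key
  · intro j
    have h1 := hG'.a6l k j S hSc
    have h2 := hG'.a6u k j S' hSc'
    have h3 : (univ.filter fun c : Fin ((par m).N j) =>
        ¬ (LowReg (le m) ⟨k, j, c⟩ S ∧ UpReg (le m) ⟨k, j, c⟩ S')) ⊆
        (univ.filter fun c : Fin ((par m).N j) => ¬ LowReg (le m) ⟨k, j, c⟩ S) ∪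
        (univ.filter fun c : Fin ((par m).N j) => ¬ UpReg (le m) ⟨k, j, c⟩ S') := by
      intro c hc
      simp only [mem_filter, mem_univ, true_and, mem_union] at hc ⊢
      tauto
    have h4 := (card_le_card h3).trans (card_union_le _ _)
    have h5 : ((univ.filter fun c : Fin ((par m).N j) =>
        ¬ (LowReg (le m) ⟨k, j, c⟩ S ∧ UpReg (le m) ⟨k, j, c⟩ S')).card : ℝ) ≤
        ((univ.filter fun c : Fin ((par m).N j) => ¬ LowReg (le m) ⟨k, j, c⟩ S).card : ℝ) +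
        ((univ.filter fun c : Fin ((par m).N j) => ¬ UpReg (le m) ⟨k, j, c⟩ S').card : ℝ) := by
      exact_mod_cast h4
    refine le_trans (le_of_eq ?_) (h5.trans (by linarith))
    congr!
  · intro j c hc
    have hE : Ext lo hi b F f0 m ⟨k, j, c⟩ =
        (fun f => resC f m ⟨k, j, c⟩) '' {f | f ∈ F ∧ SkEq lo hi b f0 f} := by
      ext h
      constructor
      · rintro ⟨f, hf, hs, rfl⟩
        exact ⟨f, ⟨hf, hs⟩, rfl⟩
      · rintro ⟨f, ⟨hf, hs⟩, rfl⟩
        exact ⟨f, hf, hs, rfl⟩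
    have hp := pinned_card (lo := lo) (hi := hi) (b := b)
      (Φ := {f | f ∈ F ∧ SkEq lo hi b f0 f}) (fun f hf => (hF hf.1).1) hm hm' hG'.ord
      (⟨k, j, c⟩ : Cell (par m)) (hT j) (S := S) (S' := S')
      (by
        intro f hf v hv
        have h1 := hf.2.1 m k.val v hm hm' (by omega)
        simp only [hS, Disp, mem_filter, mem_univ, true_and, not_not] at hv
        rw [← h1]
        exact hv)
      (by
        intro f hf v hv
        have h1 := hf.2.1 m (k.val + 2) v hm hm' (by omega)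
        simp only [hS', Disp, mem_filter, mem_univ, true_and, not_not] at hv
        rw [← h1]
        exact hv)
      hc.1 hc.2
    rw [hE]
    rcases Nat.eq_zero_or_pos
      ((fun f => resC f m (⟨k, j, c⟩ : Cell (par m))) '' {f | f ∈ F ∧ SkEq lo hi b f0 f}).ncard
      with h0 | h0
    · rw [h0]
      simp only [Nat.cast_zero, Real.log_zero]
      exact mul_nonneg (Nat.cast_nonneg _) (Real.log_natCast_nonneg _)
    · calc Real.log (((fun f => resC f m (⟨k, j, c⟩ : Cell (par m))) ''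
              {f | f ∈ F ∧ SkEq lo hi b f0 f}).ncard : ℝ)
          ≤ Real.log ((((par m).T j).factorial ^ (C.K j) : ℕ) : ℝ) := by
            apply Real.log_le_log (by exact_mod_cast h0)
            exact_mod_cast hp.2
        _ = C.K j * Real.log (((par m).T j).factorial : ℝ) := by
            push_cast
            rw [Real.log_pow]

/-- sep-level, both bounds in one block -/
theorem ls_sep (hG : ∀ m, lo ≤ m → m ≤ hi → GoodBlk q (par m) (le m))
    (hF : F ⊆ EndSet le lo hi b) {m : ℕ} (hm : lo ≤ m) (hm' : m ≤ hi) (k : Fin C.h)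
    (hd : 0 ≤ q.dlt) (hT : ∀ j, 1 ≤ (par m).T j)
    {m' : ℕ} (h1 : lo ≤ m') (h2 : m' ≤ hi) (yl yu : Pt (par m'))
    (htyp : ∀ j, ((univ.filter fun c : Fin ((par m).N j) => ¬ ∀ f ∈ F, SkEq lo hi b f0 f → ∀ e,
      TLe le (.pt m' yl) (f (.pt m (.ce ⟨k, j, c⟩ e))) ∧
        TLe le (f (.pt m (.ce ⟨k, j, c⟩ e))) (.pt m' yu)).card : ℝ) ≤ 2 * q.dlt * (par m).N j)
    (K0 : ℕ) (hK : ∀ j, C.K j ≤ K0) (hK0 : 1 ≤ K0)
    (tp : Fin C.W → ℝ) (htp0 : ∀ i, 0 ≤ tp i)
    (htp : ∀ i, ∀ j < i, Real.log ((par m').T j : ℝ) ≤ tp i)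
    (lT : Fin C.W → ℝ) (hlT0 : ∀ j, 0 ≤ lT j) (hlT : ∀ j, Real.log ((par m').T j : ℝ) ≤ lT j) :
    LS lo hi b F f0 m k ≤
      ∑ i, ((par m).N i : ℝ) * (C.K i * Real.log (cardT par lo hi : ℝ) + 4 * (par m).T i *
        (C.K i * Real.log ((8 * (q.P + 2) * (C.h + 2) * K0 : ℕ) : ℝ) + (C.K i * tp i +
          4 * ∑ j ∈ univ.filter (fun j : Fin C.W => i ≤ j),
            C.K j * (cc (le m') yl yu j : ℝ) * lT j))) +
      ∑ j, (2 * q.dlt * (par m).N j) *
        (4 * (par m).T j * C.K j * Real.log (cardT par lo hi : ℝ)) := by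
  refine ls_split (F := F) (f0 := f0) hF hm hm' k (2 * q.dlt) (by linarith)
    (fun i => C.K i * Real.log (cardT par lo hi : ℝ) + 4 * (par m).T i *
        (C.K i * Real.log ((8 * (q.P + 2) * (C.h + 2) * K0 : ℕ) : ℝ) + (C.K i * tp i +
          4 * ∑ j ∈ univ.filter (fun j : Fin C.W => i ≤ j),
            C.K j * (cc (le m') yl yu j : ℝ) * lT j)))
    ?_ (fun c => ∀ f ∈ F, SkEq lo hi b f0 f → ∀ e,
      TLe le (.pt m' yl) (f (.pt m (.ce c e))) ∧
        TLe le (f (.pt m (.ce c e))) (.pt m' yu)) htyp ?_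
  · intro i
    apply LevB.nn1 (Nat.cast_nonneg _) (Real.log_natCast_nonneg _) (Nat.cast_nonneg _)
      (Real.log_natCast_nonneg _) (htp0 i)
    apply mul_nonneg (by norm_num)
    apply sum_nonneg
    intro j _
    exact mul_nonneg (mul_nonneg (Nat.cast_nonneg _) (Nat.cast_nonneg _)) (hlT0 j)
  · intro j c hc
    exact ext_log_sep hG hF hm hm' ⟨k, j, c⟩ h1 h2 yl yu hc K0 hK hK0 (hT j) (tp j) (htp0 j)
      (htp j) lT hlT0 hlT

/-- any level -/
theorem ls_wide (hG : ∀ m, lo ≤ m → m ≤ hi → GoodBlk q (par m) (le m))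
    (hF : F ⊆ EndSet le lo hi b) {m : ℕ} (hm : lo ≤ m) (hm' : m ≤ hi) (k : Fin C.h)
    (hd : 0 ≤ q.dlt) (hT : ∀ j, 1 ≤ (par m).T j) (a a' : ℕ)
    (htyp : ∀ j, ((univ.filter fun c : Fin ((par m).N j) => ¬ ∀ f ∈ F, SkEq lo hi b f0 f → ∀ e,
      a ≤ idx lo hi (f (.pt m (.ce ⟨k, j, c⟩ e))) ∧
        idx lo hi (f (.pt m (.ce ⟨k, j, c⟩ e))) ≤ a').card : ℝ) ≤ 2 * q.dlt * (par m).N j)
    (K0 : ℕ) (hK : ∀ j, C.K j ≤ K0) (hK0 : 1 ≤ K0)
    (tm : ℝ) (htm0 : 0 ≤ tm) (htm : ∀ m', lo ≤ m' → m' ≤ hi → ∀ j,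
      Real.log ((par m').T j : ℝ) ≤ tm) :
    LS lo hi b F f0 m k ≤
      ∑ i, ((par m).N i : ℝ) * (C.K i * Real.log (cardT par lo hi : ℝ) + 4 * (par m).T i *
        (C.K i * Real.log ((8 * (q.P + 2) * (C.h + 2) * K0 : ℕ) : ℝ) + (C.K i * tm +
          (2 * ((a' / (C.h + 2) - a / (C.h + 2) : ℕ) : ℝ) + 4) *
            Real.log (cardT par lo hi : ℝ)))) +
      ∑ j, (2 * q.dlt * (par m).N j) *
        (4 * (par m).T j * C.K j * Real.log (cardT par lo hi : ℝ)) := by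
  refine ls_split (F := F) (f0 := f0) hF hm hm' k (2 * q.dlt) (by linarith)
    (fun i => C.K i * Real.log (cardT par lo hi : ℝ) + 4 * (par m).T i *
        (C.K i * Real.log ((8 * (q.P + 2) * (C.h + 2) * K0 : ℕ) : ℝ) + (C.K i * tm +
          (2 * ((a' / (C.h + 2) - a / (C.h + 2) : ℕ) : ℝ) + 4) *
            Real.log (cardT par lo hi : ℝ))))
    ?_ (fun c => ∀ f ∈ F, SkEq lo hi b f0 f → ∀ e,
      a ≤ idx lo hi (f (.pt m (.ce c e))) ∧
        idx lo hi (f (.pt m (.ce c e))) ≤ a') htyp ?_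
  · intro i
    apply LevB.nn1 (Nat.cast_nonneg _) (Real.log_natCast_nonneg _) (Nat.cast_nonneg _)
      (Real.log_natCast_nonneg _) htm0
    apply mul_nonneg _ (Real.log_natCast_nonneg _)
    have : (0 : ℝ) ≤ ((a' / (C.h + 2) - a / (C.h + 2) : ℕ) : ℝ) := Nat.cast_nonneg _
    linarith
  · intro j c hc
    exact ext_log_wide hG hF hm hm' ⟨k, j, c⟩ a a' hc K0 hK hK0 (hT j) tm htm0 htm

/-- the trivial bound for a level -/
theorem ls_triv (hF : F ⊆ EndSet le lo hi b) {m : ℕ} (hm : lo ≤ m) (hm' : m ≤ hi) (k : Fin C.h) :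
    LS lo hi b F f0 m k ≤
      ∑ j, ((par m).N j : ℝ) * (4 * (par m).T j * C.K j * Real.log (cardT par lo hi : ℝ)) := by
  unfold LS
  apply sum_le_sum
  intro j _
  calc ∑ c : Fin ((par m).N j), Real.log ((Ext lo hi b F f0 m ⟨k, j, c⟩).ncard : ℝ)
      ≤ ∑ _c : Fin ((par m).N j), (4 * (par m).T j * C.K j * Real.log (cardT par lo hi : ℝ)) := by
        apply sum_le_sum
        intro c _
        exact ext_log_triv le lo hi b F hF f0 m hm hm' ⟨k, j, c⟩
    _ = _ := by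
        rw [sum_const, card_univ, Fintype.card_fin, nsmul_eq_mul]

end Pool.Agent.AM
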