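import Pool.Agent.AM.Defs2

set_option autoImplicit false

/-!
# S09118, section 7: definitions
-/

open scoped Classical
open Finset

noncomputable section

namespace Pool.Agent.AM

variable {C : Cst}

/-- number of cells of class `j` with a point between `yl` and `yu` -/
def cc {p : Par C} (le : Pt p → Pt p → Prop) (yl yu : Pt p) (j : Fin C.W) : ℕ :=
  (univ.filter fun c : Cell p => c.j = j ∧ ∃ e, le yl (.ce c e) ∧ le (.ce c e) yu).card

/-- log of the number of gadget automorphisms of one level of a block -/
def rigC (p : Par C) : ℝ :=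
  ∑ j : Fin C.W, (p.N j : ℝ) * (C.K j * Real.log ((p.T j).factorial : ℝ))

/-- position of level `k` of block `m`, counted from the bottom of the tower; thus
`gm lo hi f (pos C hi m k + 8) = med lo hi f m k` -/
def pos (C : Cst) (hi m k : ℕ) : ℕ := (hi - m) * (C.h + 2) + k

/-- number of block borders around a level -/
def bcn {par : ℕ → Par C} (lo hi : ℕ) (f : TP par → TP par) (m k : ℕ) : ℕ :=
  gm lo hi f (pos C hi m k + 16) / (C.h + 2) - gm lo hi f (pos C hi m k) / (C.h + 2)

/-- number of levels around a level -/
def gap {par : ℕ → Par C} (lo hi : ℕ) (f : TP par → TP par) (m k : ℕ) : ℕ :=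
  gm lo hi f (pos C hi m k + 16) - gm lo hi f (pos C hi m k)

end Pool.Agent.AM
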