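import Pool.Agent.AM.Defs

set_option autoImplicit false

/-!
# MP_61102a_co, S09118 : the order of a tower, its parts, finiteness, the sets `EndSet`
-/

open scoped Classical
open Finset

noncomputable section

namespace Pool.Agent.AM.TowOrd

variable {C : Cst} {par : ℕ → Par C} {le : ∀ m, Pt (par m) → Pt (par m) → Prop}

/-! ### the order -/

theorem TLe.not_top_pt {m : ℕ} {x : Pt (par m)} : ¬ TLe le .top (.pt m x) := by
  intro h
  cases h

theorem TLe.top_iff {x : TP par} : TLe le .top x ↔ x = .top := by
  constructor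
  · intro h
    cases h
    rfl
  · rintro rfl
    exact TLe.top _

theorem TLe.same {m : ℕ} {x x' : Pt (par m)} : TLe le (.pt m x) (.pt m x') ↔ le m x x' := by
  constructor
  · intro h
    cases h with
    | lt h => exact absurd h (lt_irrefl _)
    | eq h => exact h
  · exact fun h => TLe.eq h

theorem TLe.idx_le {m m' : ℕ} {x : Pt (par m)} {x' : Pt (par m')}
    (h : TLe le (.pt m x) (.pt m' x')) : m' ≤ m := by
  cases h with
  | lt h => exact h.le
  | eq h => exact le_rfl

theorem TLe.of_lt {m m' : ℕ} (h : m' < m) {x : Pt (par m)} {x' : Pt (par m')} :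
    TLe le (.pt m x) (.pt m' x') := TLe.lt h x x'

theorem TLe.refl' {lo hi : ℕ} {b : Prop} (hB : ∀ m, lo ≤ m → m ≤ hi → BlkOrd (le m))
    {x : TP par} (hx : inT par lo hi b x) : TLe le x x := by
  cases x with
  | top => exact TLe.top _
  | pt m x => exact TLe.eq ((hB m hx.1 hx.2).refl x)

theorem TLe.trans' {lo hi : ℕ} {b : Prop} (hB : ∀ m, lo ≤ m → m ≤ hi → BlkOrd (le m))
    {x y z : TP par} (hy : inT par lo hi b y) (h1 : TLe le x y) (h2 : TLe le y z) :
    TLe le x z := by
  cases h1 with
  | top x =>
      rw [TLe.top_iff] at h2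
      rw [h2]
      exact TLe.top _
  | lt h x x' =>
      cases h2 with
      | top _ => exact TLe.top _
      | lt h' => exact TLe.lt (h'.trans h) _ _
      | eq h' => exact TLe.lt h _ _
  | eq h =>
      cases h2 with
      | top _ => exact TLe.top _
      | lt h' => exact TLe.lt h' _ _
      | eq h' => exact TLe.eq ((hB _ hy.1 hy.2).trans _ _ _ h h')

theorem TLe.antisymm' {lo hi : ℕ} {b : Prop} (hB : ∀ m, lo ≤ m → m ≤ hi → BlkOrd (le m))
    {x y : TP par} (hy : inT par lo hi b y) (h1 : TLe le x y) (h2 : TLe le y x) : x = y := by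
  cases h1 with
  | top x =>
      rw [TLe.top_iff] at h2
      exact h2
  | lt h x x' =>
      exact absurd (TLe.idx_le h2) (by omega)
  | eq h =>
      rw [TLe.same] at h2
      rw [(hB _ hy.1 hy.2).antisymm _ _ h h2]

/-! ### parts of the tower -/

/-- the part `lo..hi` of the tower, with the top point iff `b` -/
def Part (par : ℕ → Par C) (lo hi : ℕ) (b : Prop) : Type := {x : TP par // inT par lo hi b x}

/-- the order of a part -/
@[reducible]
def partOrd {lo hi : ℕ} {b : Prop} (hB : ∀ m, lo ≤ m → m ≤ hi → BlkOrd (le m)) :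
    PartialOrder (Part par lo hi b) where
  le x y := TLe le x.1 y.1
  le_refl x := TLe.refl' hB x.2
  le_trans x y z h1 h2 := TLe.trans' hB y.2 h1 h2
  le_antisymm x y h1 h2 := Subtype.ext (TLe.antisymm' hB y.2 h1 h2)

/-- code of a point -/
def partCode (lo hi : ℕ) : TP par → Option (Σ m : {m : ℕ // lo ≤ m ∧ m ≤ hi}, Pt (par m))
  | .top => none
  | .pt m x => if h : lo ≤ m ∧ m ≤ hi then some ⟨⟨m, h⟩, x⟩ else none

theorem partCode_inj {lo hi : ℕ} {b : Prop} {x y : TP par} (hx : inT par lo hi b x)
    (hy : inT par lo hi b y) (h : partCode lo hi x = partCode lo hi y) : x = y := by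
  cases x with
  | top =>
      cases y with
      | top => rfl
      | pt m y =>
          have hy' : lo ≤ m ∧ m ≤ hi := hy
          simp [partCode, hy'] at h
  | pt m x =>
      have hx' : lo ≤ m ∧ m ≤ hi := hx
      cases y with
      | top => simp [partCode, hx'] at h
      | pt m' y =>
          have hy' : lo ≤ m' ∧ m' ≤ hi := hy
          simp only [partCode, hx', hy', and_self, dite_true, Option.some.injEq,
            Sigma.mk.injEq, Subtype.mk.injEq] at h
          obtain ⟨rfl, h2⟩ := h
          rw [eq_of_heq h2]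

instance finIdx (lo hi : ℕ) : Finite {m : ℕ // lo ≤ m ∧ m ≤ hi} :=
  Finite.of_injective (fun m => (⟨m.1, by have := m.2.2; omega⟩ : Fin (hi + 1)))
    (fun a b h => Subtype.ext (by simpa using h))

instance finPart {lo hi : ℕ} {b : Prop} : Finite (Part par lo hi b) :=
  Finite.of_injective (fun x => partCode lo hi x.1)
    (fun x y h => Subtype.ext (partCode_inj x.2 y.2 h))

/-! ### the maps which are counted -/

/-- restriction of `f` to a part -/
def restrP {lo hi : ℕ} {b : Prop} (f : TP par → TP par)
    (hf : ∀ x, inT par lo hi b x → inT par lo hi b (f x)) : Part par lo hi b → Part par lo hi b :=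
  fun x => ⟨f x.1, hf x.1 x.2⟩

theorem endSet_finite (lo hi : ℕ) (b : Prop) : (EndSet le lo hi b).Finite := by
  have : Finite (EndSet le lo hi b) := by
    refine Finite.of_injective
      (fun f : EndSet le lo hi b => restrP f.1 (fun x hx => f.2.1.maps x hx)) ?_
    rintro ⟨f, hf⟩ ⟨g, hg⟩ h
    apply Subtype.ext
    funext x
    by_cases hx : inT par lo hi b x
    · have := congrFun h ⟨x, hx⟩
      exact congrArg Subtype.val this
    · change f x = g x
      rw [hf.2 x hx, hg.2 x hx]
  exact Set.toFinite _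

theorem freeSet_finite (lo hi : ℕ) (b : Prop) : (FreeSet le lo hi b).Finite :=
  (endSet_finite lo hi b).subset (fun _ hf => hf.1)

/-- extension of a self-map of a part by the identity -/
def extP {lo hi : ℕ} {b : Prop} (g : Part par lo hi b → Part par lo hi b) : TP par → TP par :=
  fun x => if h : inT par lo hi b x then (g ⟨x, h⟩).1 else x

theorem extP_of {lo hi : ℕ} {b : Prop} (g : Part par lo hi b → Part par lo hi b) {x : TP par}
    (h : inT par lo hi b x) : extP g x = (g ⟨x, h⟩).1 := dif_pos h

theorem extP_not {lo hi : ℕ} {b : Prop} (g : Part par lo hi b → Part par lo hi b) {x : TP par}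
    (h : ¬ inT par lo hi b x) : extP g x = x := dif_neg h

/-- the number of order preserving self-maps of a part -/
theorem card_orderHom {lo hi : ℕ} {b : Prop} (hB : ∀ m, lo ≤ m → m ≤ hi → BlkOrd (le m)) :
    letI := partOrd (b := b) hB
    Nat.card (Part par lo hi b →o Part par lo hi b) = (EndSet le lo hi b).ncard := by
  let _ := partOrd (b := b) hB
  rw [← Nat.card_coe_set_eq]
  apply Nat.card_congr
  refine
    { toFun := fun g => ⟨extP g, ⟨⟨?_, ?_⟩, ?_⟩⟩
      invFun := fun f => ⟨restrP f.1 (fun x hx => f.2.1.maps x hx), fun x y hxy =>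
        f.2.1.mono x.1 y.1 x.2 y.2 hxy⟩
      left_inv := ?_
      right_inv := ?_ }
  · intro x hx
    rw [extP_of _ hx]
    exact (g ⟨x, hx⟩).2
  · intro x y hx hy hxy
    rw [extP_of _ hx, extP_of _ hy]
    exact g.monotone' (show @LE.le (Part par lo hi b) _ ⟨x, hx⟩ ⟨y, hy⟩ from hxy)
  · intro x hx
    exact extP_not _ hx
  · intro g
    apply OrderHom.ext
    funext x
    apply Subtype.ext
    change extP g x.1 = (g x).1
    rw [extP_of _ x.2]
    rfl
  · rintro ⟨f, hf⟩
    apply Subtype.ext
    funext x
    by_cases hx : inT par lo hi b x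
    · exact extP_of _ hx
    · exact (extP_not _ hx).trans (hf.2 x hx).symm

theorem endSet_nonempty {lo hi : ℕ} {b : Prop} : (id : TP par → TP par) ∈ EndSet le lo hi b :=
  ⟨⟨fun _ hx => hx, fun _ _ _ _ h => h⟩, fun _ _ => rfl⟩

/-! ### cutting a map -/

/-- `f` on the part, identity outside -/
def cut (lo hi : ℕ) (b : Prop) (f : TP par → TP par) : TP par → TP par :=
  fun x => if inT par lo hi b x then f x else x

theorem cut_of {lo hi : ℕ} {b : Prop} {f : TP par → TP par} {x : TP par}
    (hx : inT par lo hi b x) : cut lo hi b f x = f x := if_pos hx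

theorem cut_not {lo hi : ℕ} {b : Prop} {f : TP par → TP par} {x : TP par}
    (hx : ¬ inT par lo hi b x) : cut lo hi b f x = x := if_neg hx

/-- cutting to a smaller part which is mapped into itself -/
theorem cut_mem {lo hi lo' hi' : ℕ} {b b' : Prop} {f : TP par → TP par}
    (hf : f ∈ EndSet le lo hi b)
    (hsub : ∀ x, inT par lo' hi' b' x → inT par lo hi b x)
    (hmap : ∀ x, inT par lo' hi' b' x → inT par lo' hi' b' (f x)) :
    cut lo' hi' b' f ∈ EndSet le lo' hi' b' := by
  refine ⟨⟨?_, ?_⟩, ?_⟩
  · intro x hx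
    rw [cut_of hx]
    exact hmap x hx
  · intro x y hx hy hxy
    rw [cut_of hx, cut_of hy]
    exact hf.1.mono x y (hsub x hx) (hsub y hy) hxy
  · intro x hx
    exact cut_not hx

theorem inT_pt {lo hi m : ℕ} {b : Prop} {x : Pt (par m)} :
    inT par lo hi b (.pt m x) ↔ lo ≤ m ∧ m ≤ hi := Iff.rfl

theorem inT_top {lo hi : ℕ} {b : Prop} : inT par lo hi b (.top : TP par) ↔ b := Iff.rfl

/-- rigidity only depends on the values in the block -/
theorem rigid_cut {lo hi : ℕ} {b : Prop} {f : TP par → TP par} {m : ℕ} (h1 : lo ≤ m)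
    (h2 : m ≤ hi) : Rigid (cut lo hi b f) m ↔ Rigid f m := by
  constructor
  · intro h k hk v
    have := h k hk v
    rwa [cut_of (show inT par lo hi b (TV par m k v) from ⟨h1, h2⟩)] at this
  · intro h k hk v
    rw [cut_of (show inT par lo hi b (TV par m k v) from ⟨h1, h2⟩)]
    exact h k hk v

end Pool.Agent.AM.TowOrd
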