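import Pool.Agent.AM.Sec61
import Pool.Agent.AM.TowOrd
import Pool.Agent.AM.S7Defs

/-! # Sections 6.2 and 6.3 of the blueprint for the tower: medians, `y-`, `y+`, typical cells -/

set_option autoImplicit false

open scoped Classical
open Finset

noncomputable section

namespace Pool.Agent.AM.SepGlue

open Sec5 Sec61

variable {C : Cst} {q : Con} {par : ℕ → Par C} {le : ∀ m, Pt (par m) → Pt (par m) → Prop}
variable {lo hi : ℕ} {b : Prop} {f : TP par → TP par} {m : ℕ}

/-! ### heights -/

theorem lev_le' {p : Par C} (x : Pt p) : lev x ≤ C.h + 1 := by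
  cases x with
  | fr k v => simp only [lev]; omega
  | ce c e => simp only [lev]; omega

theorem idx_le_B (z : TP par) (hz : inT par lo hi b z) :
    idx lo hi z ≤ (hi + 1 - lo) * (C.h + 2) := by
  cases z with
  | top => exact le_refl _
  | pt m x =>
    obtain ⟨h1, h2⟩ := hz
    have h3 := lev_le' x
    simp only [idx]
    have h4 : hi + 1 - lo = (hi - m) + (m - lo) + 1 := by omega
    rw [h4]
    nlinarith

theorem idx_mono (hB : ∀ m, lo ≤ m → m ≤ hi → BlkOrd (le m)) {z z' : TP par}
    (hz : inT par lo hi b z) (hz' : inT par lo hi b z') (h : TLe le z z') :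
    idx lo hi z ≤ idx lo hi z' := by
  cases h with
  | top x => exact idx_le_B z hz
  | lt h x x' =>
    rename_i m m'
    obtain ⟨h1, h2⟩ := hz
    have h3 := lev_le' x
    simp only [idx]
    obtain ⟨r, hr⟩ : ∃ r, hi - m' = (hi - m) + r + 1 := ⟨hi - m' - (hi - m) - 1, by omega⟩
    rw [hr]
    nlinarith
  | eq h =>
    rename_i m x x'
    obtain ⟨h1, h2⟩ := hz
    simp only [idx]
    have := (hB m h1 h2).lev_mono _ _ h
    omega

/-! ### transport along levels (A2) -/

/-- few points of a higher level are above no point of a large set -/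
theorem up_few (hB : GoodBlk q (par m) (le m)) (hq : q.Ok) {k : ℕ} (r : ℕ)
    (hk : k + (r + 1) ≤ C.h + 1) {A : Finset (Fin (par m).n)}
    (hA : q.d1 * (par m).n ≤ A.card) :
    ((univ.filter fun u => ∀ x ∈ A, ¬ le m (V (par m) k x) (V (par m) (k + (r + 1)) u)).card : ℝ)
      < q.d1 * (par m).n := by
  have hd1 : q.d1 ≤ 1 / 4 := by
    have h1 := hq.d1
    have h2 := hq.kap'
    have h3 := hq.kap0
    nlinarith
  induction r with
  | zero => exact card_Exc_lt hB (by omega) hA
  | succ r ih =>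
    have ih' := ih (by omega)
    set n : ℝ := ((par m).n : ℝ) with hn
    have hn0 : 0 < n := by rw [hn]; exact_mod_cast hB.npos
    set A' : Finset (Fin (par m).n) := univ.filter fun u => ∃ x ∈ A,
      le m (V (par m) k x) (V (par m) (k + (r + 1)) u) with hA'
    have hcompl : (univ.filter fun u => ∀ x ∈ A,
        ¬ le m (V (par m) k x) (V (par m) (k + (r + 1)) u)) = A'ᶜ := by
      ext u
      simp [hA']
    rw [hcompl] at ih'
    have hc : ((A'ᶜ.card : ℕ) : ℝ) = n - A'.card := by
      rw [Finset.card_compl, Nat.cast_sub (Finset.card_le_univ _)]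
      simp [hn]
    rw [hc] at ih'
    have hA'' : q.d1 * (par m).n ≤ A'.card := by
      rw [← hn]
      nlinarith
    have h1 := card_Exc_lt hB (k := k + (r + 1)) (by omega) hA''
    refine lt_of_le_of_lt ?_ h1
    norm_cast
    apply Finset.card_le_card
    intro u hu
    simp only [mem_filter, mem_univ, true_and, Exc] at hu ⊢
    intro y hy hyu
    rw [hA', mem_filter] at hy
    obtain ⟨x, hx, hxy⟩ := hy.2
    exact hu x hx (hB.ord.trans _ _ _ hxy hyu)

/-- few points of a lower level are below no point of a large set -/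
theorem dn_few (hB : GoodBlk q (par m) (le m)) (hq : q.Ok) {k : ℕ} (r : ℕ)
    (hk : k + (r + 1) ≤ C.h + 1) {U : Finset (Fin (par m).n)}
    (hU : q.d1 * (par m).n ≤ U.card) :
    ((univ.filter fun x => ∀ u ∈ U, ¬ le m (V (par m) k x) (V (par m) (k + (r + 1)) u)).card : ℝ)
      < q.d1 * (par m).n := by
  by_contra hcon
  have hcon' := not_lt.mp hcon
  have h1 := up_few hB hq r hk hcon'
  have h2 : U ⊆ (univ.filter fun u => ∀ x ∈ (univ.filter fun x => ∀ u ∈ U,
      ¬ le m (V (par m) k x) (V (par m) (k + (r + 1)) u)),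
      ¬ le m (V (par m) k x) (V (par m) (k + (r + 1)) u)) := by
    intro u hu
    simp only [mem_filter, mem_univ, true_and]
    intro x hx
    exact hx u hu
  have h3 : (U.card : ℝ) ≤ _ := Nat.cast_le.mpr (Finset.card_le_card h2)
  linarith

/-! ### the joint lemma -/

theorem half_count {α β : Type*} [DecidableEq α] [DecidableEq β] (A : Finset α) (U : Finset β)
    (B : α × β → Prop) [DecidablePred B] (c : ℝ)
    (hc : (((A ×ˢ U).filter B).card : ℝ) ≤ c) :
    ((U.filter fun u => A.card < 2 * (A.filter fun x => B (x, u)).card).card : ℝ) * A.card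
      ≤ 2 * c := by
  have h1 : ((A ×ˢ U).filter B).card = ∑ u ∈ U, (A.filter fun x => B (x, u)).card := by
    rw [Finset.card_filter, Finset.sum_product_right]
    apply Finset.sum_congr rfl
    intro u _
    rw [Finset.card_filter]
  set S := U.filter fun u => A.card < 2 * (A.filter fun x => B (x, u)).card with hS
  have h2 : S.card * A.card ≤ 2 * ((A ×ˢ U).filter B).card := by
    calc S.card * A.card = ∑ u ∈ S, A.card := by rw [Finset.sum_const, smul_eq_mul]
      _ ≤ ∑ u ∈ S, 2 * (A.filter fun x => B (x, u)).card := by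
          apply Finset.sum_le_sum
          intro u hu
          exact (Finset.mem_filter.mp hu).2.le
      _ ≤ ∑ u ∈ U, 2 * (A.filter fun x => B (x, u)).card :=
          Finset.sum_le_sum_of_subset (Finset.filter_subset _ _)
      _ = 2 * ((A ×ˢ U).filter B).card := by rw [h1, Finset.mul_sum]
  have h3 : ((S.card : ℝ)) * A.card ≤ 2 * (((A ×ˢ U).filter B).card : ℝ) := by exact_mod_cast h2
  linarith

theorem half_count' {α β : Type*} [DecidableEq α] [DecidableEq β] (A : Finset α) (U : Finset β)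
    (B : α × β → Prop) [DecidablePred B] (c : ℝ)
    (hc : (((A ×ˢ U).filter B).card : ℝ) ≤ c) :
    ((A.filter fun x => U.card < 2 * (U.filter fun u => B (x, u)).card).card : ℝ) * U.card
      ≤ 2 * c := by
  have h1 : ((A ×ˢ U).filter B).card = ∑ x ∈ A, (U.filter fun u => B (x, u)).card := by
    rw [Finset.card_filter, Finset.sum_product]
    apply Finset.sum_congr rfl
    intro u _
    rw [Finset.card_filter]
  set S := A.filter fun x => U.card < 2 * (U.filter fun u => B (x, u)).card with hS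
  have h2 : S.card * U.card ≤ 2 * ((A ×ˢ U).filter B).card := by
    calc S.card * U.card = ∑ x ∈ S, U.card := by rw [Finset.sum_const, smul_eq_mul]
      _ ≤ ∑ x ∈ S, 2 * (U.filter fun u => B (x, u)).card := by
          apply Finset.sum_le_sum
          intro u hu
          exact (Finset.mem_filter.mp hu).2.le
      _ ≤ ∑ x ∈ A, 2 * (U.filter fun u => B (x, u)).card :=
          Finset.sum_le_sum_of_subset (Finset.filter_subset _ _)
      _ = 2 * ((A ×ˢ U).filter B).card := by rw [h1, Finset.mul_sum]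
  have h3 : ((S.card : ℝ)) * U.card ≤ 2 * (((A ×ˢ U).filter B).card : ℝ) := by exact_mod_cast h2
  linarith

/-- 6.2 : two separated gaps give a joint -/
theorem joint_core (hB : GoodBlk q (par m) (le m)) (hO : ∀ m, lo ≤ m → m ≤ hi → BlkOrd (le m))
    (hq : q.Ok) (hE : Endo le lo hi b f)
    (hm : lo ≤ m ∧ m ≤ hi) {α β : ℕ} (hαβ : α + 1 < β) (hβ : β + 1 ≤ C.h + 1)
    (h1 : SepAt q le f m α) (h2 : SepAt q le f m β) :
    ∃ p p' : TP par, inT par lo hi b p ∧ inT par lo hi b p' ∧ TLe le p p' ∧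
      (∀ k, k < α → ((univ.filter fun v => ¬ TLe le (f (TV par m k v)) p).card : ℝ)
        < q.d1 * (par m).n) ∧
      (∀ k, β + 1 < k → k ≤ C.h + 1 →
        ((univ.filter fun v => ¬ TLe le p' (f (TV par m k v))).card : ℝ) < q.d1 * (par m).n) := by
  obtain ⟨A, U, hA, hU, hAU⟩ := h1
  obtain ⟨A', U', hA', hU', hAU'⟩ := h2
  set n : ℝ := ((par m).n : ℝ) with hn
  have hn0 : 0 < n := by rw [hn]; exact_mod_cast hB.npos
  have hk0 := hq.kap0
  have hk1 := hq.kap'
  have hd1 := hq.d1
  have hd2 := hq.d2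
  have hd10 := hq.d10
  have hd20 := hq.d20
  have hc := half_count A U (Bad le f m α) _ hAU
  have hc' := half_count' A' U' (Bad le f m β) _ hAU'
  set S := U.filter fun u => A.card < 2 * (A.filter fun x => Bad le f m α (x, u)).card with hS
  set S' := A'.filter fun x => U'.card < 2 * (U'.filter fun u => Bad le f m β (x, u)).card with hS'
  -- numeric bounds
  have hkk : q.kap ^ 2 ≤ q.kap / 100 := by nlinarith
  have hSb : (S.card : ℝ) ≤ q.kap * n / 30 := by
    by_contra hcon
    push Not at hcon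
    have h3 : q.kap * n / 30 * (q.kap * n / 18) ≤ (S.card : ℝ) * A.card := by
      apply mul_le_mul hcon.le hA (by positivity) (by positivity)
    have h4 : (2 * q.d2 + q.d1) ≤ 3 * (q.kap ^ 2 / 10 ^ 4) := by linarith
    have h5 : (2 * q.d2 + q.d1) * n ^ 2 ≤ 3 * (q.kap ^ 2 / 10 ^ 4) * n ^ 2 :=
      mul_le_mul_of_nonneg_right h4 (by positivity)
    have h6 : 0 < q.kap ^ 2 * n ^ 2 := by positivity
    nlinarith
  have hSb' : (S'.card : ℝ) ≤ q.kap * n / 30 := by
    by_contra hcon
    push Not at hcon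
    have h3 : q.kap * n / 30 * (q.kap * n / 3) ≤ (S'.card : ℝ) * U'.card := by
      apply mul_le_mul hcon.le hU' (by positivity) (by positivity)
    have h4 : (2 * q.d2 + q.d1) ≤ 3 * (q.kap ^ 2 / 10 ^ 4) := by linarith
    have h5 : (2 * q.d2 + q.d1) * n ^ 2 ≤ 3 * (q.kap ^ 2 / 10 ^ 4) * n ^ 2 :=
      mul_le_mul_of_nonneg_right h4 (by positivity)
    have h6 : 0 < q.kap ^ 2 * n ^ 2 := by positivity
    nlinarith
  have hd1n : q.d1 * n ≤ q.kap * n / 100 := by
    have : q.d1 ≤ q.kap / 100 := by nlinarith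
    nlinarith
  -- good sets
  have hU0 : q.d1 * n ≤ ((U \ S).card : ℝ) := by
    have h3 : ((U \ S).card : ℝ) = U.card - S.card := by
      rw [Finset.card_sdiff_of_subset (Finset.filter_subset _ _), Nat.cast_sub]
      exact Finset.card_le_card (Finset.filter_subset _ _)
    rw [h3]
    linarith
  have hA0 : q.d1 * n ≤ ((A' \ S').card : ℝ) := by
    have h3 : ((A' \ S').card : ℝ) = A'.card - S'.card := by
      rw [Finset.card_sdiff_of_subset (Finset.filter_subset _ _), Nat.cast_sub]
      exact Finset.card_le_card (Finset.filter_subset _ _)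
    rw [h3]
    linarith
  -- a path from U0 to A0
  obtain ⟨r, hr⟩ : ∃ r, β = (α + 1) + (r + 1) := ⟨β - α - 2, by omega⟩
  have hup := up_few hB hq (k := α + 1) r (by omega) hU0
  have hex : ∃ u ∈ U \ S, ∃ x ∈ A' \ S', le m (V (par m) (α + 1) u) (V (par m) β x) := by
    by_contra hcon
    push Not at hcon
    have h3 : A' \ S' ⊆ univ.filter fun x => ∀ u ∈ U \ S,
        ¬ le m (V (par m) (α + 1) u) (V (par m) (α + 1 + (r + 1)) x) := by
      intro x hx
      simp only [mem_filter, mem_univ, true_and]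
      intro u hu
      rw [← hr]
      exact hcon u hu x hx
    have h4 : ((A' \ S').card : ℝ) ≤ _ := Nat.cast_le.mpr (Finset.card_le_card h3)
    linarith
  obtain ⟨u, hu, x, hx, hux⟩ := hex
  have hu' := Finset.mem_sdiff.mp hu
  have hx' := Finset.mem_sdiff.mp hx
  refine ⟨f (TV par m (α + 1) u), f (TV par m β x), hE.maps _ (inT_TV hm _ _),
    hE.maps _ (inT_TV hm _ _), hE.mono _ _ (inT_TV hm _ _) (inT_TV hm _ _) (TLe.eq hux), ?_, ?_⟩
  · intro k hk
    -- the good points of A
    set X := A.filter fun y => ¬ Bad le f m α (y, u) with hX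
    have hXc : q.d1 * n ≤ (X.card : ℝ) := by
      have h3 : ¬ (A.card < 2 * (A.filter fun x => Bad le f m α (x, u)).card) := by
        intro h4
        exact hu'.2 (Finset.mem_filter.mpr ⟨hu'.1, h4⟩)
      have h4 := Finset.card_filter_add_card_filter_not (s := A) (fun y => Bad le f m α (y, u))
      have h5 : A.card ≤ 2 * X.card := by
        rw [hX]
        omega
      have h6 : (A.card : ℝ) ≤ 2 * X.card := by exact_mod_cast h5
      linarith
    obtain ⟨r', hr'⟩ : ∃ r', α = k + (r' + 1) := ⟨α - k - 1, by omega⟩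
    rw [hr'] at hX
    have h3 := dn_few hB hq (k := k) r' (by omega) hXc
    refine lt_of_le_of_lt ?_ h3
    norm_cast
    apply Finset.card_le_card
    intro v hv
    simp only [mem_filter, mem_univ, true_and] at hv ⊢
    intro y hy hvy
    apply hv
    have hy' := (Finset.mem_filter.mp hy).2
    simp only [Bad, not_not] at hy'
    have h7 : TLe le (f (TV par m k v)) (f (TV par m (k + (r' + 1)) y)) :=
      hE.mono _ _ (inT_TV hm _ _) (inT_TV hm _ _) (TLe.eq hvy)
    have hy'' : TLe le (f (TV par m (k + (r' + 1)) y)) (f (TV par m (α + 1) u)) := by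
      rw [← hr']; exact hy'
    exact TowOrd.TLe.trans' hO (hE.maps _ (inT_TV hm _ _)) h7 hy''
  · intro k hk hkh
    set X := U'.filter fun y => ¬ Bad le f m β (x, y) with hX
    have hXc : q.d1 * n ≤ (X.card : ℝ) := by
      have h3 : ¬ (U'.card < 2 * (U'.filter fun u => Bad le f m β (x, u)).card) := by
        intro h4
        exact hx'.2 (Finset.mem_filter.mpr ⟨hx'.1, h4⟩)
      have h4 := Finset.card_filter_add_card_filter_not (s := U') (fun y => Bad le f m β (x, y))
      have h5 : U'.card ≤ 2 * X.card := by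
        rw [hX]
        omega
      have h6 : (U'.card : ℝ) ≤ 2 * X.card := by exact_mod_cast h5
      linarith
    obtain ⟨r', hr'⟩ : ∃ r', k = (β + 1) + (r' + 1) := ⟨k - β - 2, by omega⟩
    subst hr'
    have h3 := up_few hB hq (k := β + 1) r' (by omega) hXc
    refine lt_of_le_of_lt ?_ h3
    norm_cast
    apply Finset.card_le_card
    intro v hv
    simp only [mem_filter, mem_univ, true_and] at hv ⊢
    intro y hy hvy
    apply hv
    have hy' := (Finset.mem_filter.mp hy).2
    simp only [Bad, not_not] at hy'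
    have h7 : TLe le (f (TV par m (β + 1) y)) (f (TV par m (β + 1 + (r' + 1)) v)) :=
      hE.mono _ _ (inT_TV hm _ _) (inT_TV hm _ _) (TLe.eq hvy)
    exact TowOrd.TLe.trans' hO (hE.maps _ (inT_TV hm _ _)) hy' h7

/-! ### medians -/

theorem med_spec (hn : 0 < (par m).n) (k : ℕ) :
    (par m).n ≤ 2 * (univ.filter fun v => med lo hi f m k ≤ idx lo hi (f (TV par m k v))).card := by
  have h0 : (par m).n ≤ 2 * (univ.filter fun v => 0 ≤ idx lo hi (f (TV par m k v))).card := by
    simp
    omega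
  exact Nat.findGreatest_spec (P := fun c => (par m).n ≤
    2 * (univ.filter fun v => c ≤ idx lo hi (f (TV par m k v))).card) (Nat.zero_le _) h0

theorem med_le_B (k : ℕ) : med lo hi f m k ≤ (hi + 1 - lo) * (C.h + 2) :=
  Nat.findGreatest_le _

theorem le_med {k c : ℕ} (hc : c ≤ (hi + 1 - lo) * (C.h + 2))
    (h : (par m).n ≤ 2 * (univ.filter fun v => c ≤ idx lo hi (f (TV par m k v))).card) :
    c ≤ med lo hi f m k :=
  Nat.le_findGreatest hc h

theorem gm_pos {k : ℕ} (hm : lo ≤ m ∧ m ≤ hi) (hk : k ≤ C.h + 1) :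
    gm lo hi f (pos C hi m k + 8) = med lo hi f m k := by
  have h1 : pos C hi m k < (hi + 1 - lo) * (C.h + 2) := by
    have h4 : hi + 1 - lo = (hi - m) + (m - lo) + 1 := by omega
    rw [h4]
    simp only [pos]
    nlinarith
  have h2 : pos C hi m k / (C.h + 2) = hi - m := by
    simp only [pos]
    rw [Nat.mul_comm, Nat.mul_add_div (by omega), Nat.div_eq_of_lt (by omega), Nat.add_zero]
  have h3 : pos C hi m k % (C.h + 2) = k := by
    simp only [pos]
    rw [Nat.mul_comm, Nat.mul_add_mod, Nat.mod_eq_of_lt (by omega)]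
  unfold gm
  rw [if_neg (by omega), Nat.add_sub_cancel, if_pos h1, h2, h3]
  have h5 : hi - (hi - m) = m := by omega
  rw [h5]

theorem gm_top {a : ℕ} (ha : (hi + 1 - lo) * (C.h + 2) + 8 ≤ a) :
    gm lo hi f a = (hi + 1 - lo) * (C.h + 2) := by
  unfold gm
  rw [if_neg (by omega), if_neg (by omega)]

theorem gm_le_B (a : ℕ) : gm lo hi f a ≤ (hi + 1 - lo) * (C.h + 2) := by
  unfold gm
  split_ifs
  · exact Nat.zero_le _
  · exact med_le_B _
  · exact le_refl _

theorem d1_small (hq : q.Ok) : q.d1 ≤ 1 / 4 := by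
  have h1 := hq.d1
  have h2 := hq.kap'
  have h3 := hq.kap0
  nlinarith

/-- the points of a level which are too low -/
theorem few_low (hG : ∀ m, lo ≤ m → m ≤ hi → GoodBlk q (par m) (le m)) (hq : q.Ok)
    (hE : Endo le lo hi b f) (hm : lo ≤ m ∧ m ≤ hi) {k : ℕ} (hk : k ≤ C.h + 1) :
    ((univ.filter fun v => idx lo hi (f (TV par m k v)) < gm lo hi f (pos C hi m k + 7)).card : ℝ)
      < q.d1 * (par m).n := by
  have hB := hG m hm.1 hm.2
  have hO : ∀ m, lo ≤ m → m ≤ hi → BlkOrd (le m) := fun m h1 h2 => (hG m h1 h2).ord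
  have hn0 : (0 : ℝ) < (par m).n := by exact_mod_cast hB.npos
  have hpos : 0 < q.d1 * (par m).n := mul_pos hq.d10 hn0
  have hd := d1_small hq
  have hempty : (∀ v, ¬ idx lo hi (f (TV par m k v)) < gm lo hi f (pos C hi m k + 7)) →
      ((univ.filter fun v => idx lo hi (f (TV par m k v)) < gm lo hi f (pos C hi m k + 7)).card : ℝ)
      < q.d1 * (par m).n := by
    intro h
    rw [Finset.filter_false_of_mem (fun v _ => h v)]
    simpa using hpos
  rcases Nat.eq_zero_or_pos k with hk0 | hk0
  · subst hk0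
    rcases Nat.lt_or_ge m hi with hmh | hmh
    · -- block below
      have hm1 : lo ≤ m + 1 ∧ m + 1 ≤ hi := ⟨by omega, by omega⟩
      have hB1 := hG (m + 1) hm1.1 hm1.2
      have e : pos C hi m 0 + 7 = pos C hi (m + 1) (C.h + 1) + 8 := by
        simp only [pos]
        have h4 : hi - m = (hi - (m + 1)) + 1 := by omega
        rw [h4]
        ring
      apply hempty
      intro v hv
      rw [e, gm_pos hm1 (le_refl _)] at hv
      have hs := med_spec (lo := lo) (hi := hi) (f := f) (m := m + 1) hB1.npos (C.h + 1)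
      have hne : 0 < (univ.filter fun v => med lo hi f (m + 1) (C.h + 1) ≤
          idx lo hi (f (TV par (m + 1) (C.h + 1) v))).card := by
        have := hB1.npos
        omega
      obtain ⟨x, hx⟩ := Finset.card_pos.mp hne
      have hx' := (Finset.mem_filter.mp hx).2
      have h5 := idx_mono (b := b) hO (hE.maps _ (inT_TV hm1 _ _)) (hE.maps _ (inT_TV hm _ _))
        (hE.mono (TV par (m + 1) (C.h + 1) x) (TV par m 0 v) (inT_TV hm1 _ _) (inT_TV hm _ _)
          (TLe.lt (Nat.lt_succ_self m) _ _))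
      omega
    · have : m = hi := by omega
      subst this
      apply hempty
      intro v hv
      have h7 : gm lo m f (pos C m m 0 + 7) = 0 := by
        unfold gm
        rw [if_pos (by simp [pos])]
      omega
  · obtain ⟨k', rfl⟩ : ∃ k', k = k' + 1 := ⟨k - 1, by omega⟩
    have e : pos C hi m (k' + 1) + 7 = pos C hi m k' + 8 := by
      simp only [pos]
      ring
    have hs := med_spec (lo := lo) (hi := hi) (f := f) (m := m) hB.npos k'
    set c := med lo hi f m k' with hc
    set A := univ.filter fun v => c ≤ idx lo hi (f (TV par m k' v)) with hA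
    have hA1 : q.d1 * (par m).n ≤ A.card := by
      have h1 : ((par m).n : ℝ) ≤ 2 * A.card := by exact_mod_cast hs
      nlinarith
    have h2 := up_few hB hq (k := k') 0 (by omega) hA1
    refine lt_of_le_of_lt ?_ h2
    norm_cast
    apply Finset.card_le_card
    intro v hv
    simp only [mem_filter, mem_univ, true_and] at hv ⊢
    rw [e, gm_pos hm (by omega), ← hc] at hv
    intro x hx hxv
    have hx' := (Finset.mem_filter.mp hx).2
    have h5 := idx_mono (b := b) hO (hE.maps _ (inT_TV hm _ _)) (hE.maps _ (inT_TV hm _ _))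
      (hE.mono (TV par m k' x) (TV par m (k' + 1) v) (inT_TV hm _ _) (inT_TV hm _ _)
        (TLe.eq hxv))
    omega

/-- the points of a level which are too high -/
theorem few_up (hG : ∀ m, lo ≤ m → m ≤ hi → GoodBlk q (par m) (le m)) (hq : q.Ok)
    (hE : Endo le lo hi b f) (hm : lo ≤ m ∧ m ≤ hi) {k : ℕ} (hk : k ≤ C.h + 1) :
    ((univ.filter fun v => gm lo hi f (pos C hi m k + 9) < idx lo hi (f (TV par m k v))).card : ℝ)
      < q.d1 * (par m).n := by
  have hB := hG m hm.1 hm.2
  have hO : ∀ m, lo ≤ m → m ≤ hi → BlkOrd (le m) := fun m h1 h2 => (hG m h1 h2).ord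
  have hn0 : (0 : ℝ) < (par m).n := by exact_mod_cast hB.npos
  have hpos : 0 < q.d1 * (par m).n := mul_pos hq.d10 hn0
  have hd := d1_small hq
  have hempty : (∀ v, ¬ gm lo hi f (pos C hi m k + 9) < idx lo hi (f (TV par m k v))) →
      ((univ.filter fun v => gm lo hi f (pos C hi m k + 9) < idx lo hi (f (TV par m k v))).card : ℝ)
      < q.d1 * (par m).n := by
    intro h
    rw [Finset.filter_false_of_mem (fun v _ => h v)]
    simpa using hpos
  rcases Nat.lt_or_ge k (C.h + 1) with hk1 | hk1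
  · have e : pos C hi m k + 9 = pos C hi m (k + 1) + 8 := by
      simp only [pos]
      ring
    by_contra hcon
    have hcon' := not_lt.mp hcon
    rw [e, gm_pos hm (by omega)] at hcon'
    set c := med lo hi f m (k + 1) with hc
    set X := univ.filter fun v => c < idx lo hi (f (TV par m k v)) with hX
    have h2 := up_few hB hq (k := k) 0 (by omega) hcon'
    have hXne : X.Nonempty := by
      rw [← Finset.card_pos]
      have : (0 : ℝ) < X.card := lt_of_lt_of_le hpos hcon'
      exact_mod_cast this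
    obtain ⟨x0, hx0⟩ := hXne
    have hx0' := (Finset.mem_filter.mp hx0).2
    have hcB : c + 1 ≤ (hi + 1 - lo) * (C.h + 2) := by
      have := idx_le_B (f (TV par m k x0)) (hE.maps _ (inT_TV hm k x0))
      omega
    have h3 : c + 1 ≤ med lo hi f m (k + 1) := by
      apply le_med hcB
      set Y := univ.filter fun v => c + 1 ≤ idx lo hi (f (TV par m (k + 1) v)) with hY
      have h4 : (Yᶜ : Finset _) ⊆ univ.filter fun u => ∀ x ∈ X,
          ¬ le m (V (par m) k x) (V (par m) (k + (0 + 1)) u) := by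
        intro u hu
        simp only [mem_filter, mem_univ, true_and]
        intro x hx hxu
        have hx' := (Finset.mem_filter.mp hx).2
        have h5 := idx_mono (b := b) hO (hE.maps _ (inT_TV hm _ _)) (hE.maps _ (inT_TV hm _ _))
          (hE.mono (TV par m k x) (TV par m (k + 1) u) (inT_TV hm _ _) (inT_TV hm _ _)
            (TLe.eq hxu))
        rw [Finset.mem_compl, hY, mem_filter] at hu
        apply hu
        exact ⟨mem_univ _, by omega⟩
      have h5 : ((Yᶜ.card : ℕ) : ℝ) ≤ _ := Nat.cast_le.mpr (Finset.card_le_card h4)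
      have h6 : ((Yᶜ.card : ℕ) : ℝ) = (par m).n - Y.card := by
        rw [Finset.card_compl, Nat.cast_sub (Finset.card_le_univ _)]
        simp
      have h7 : ((par m).n : ℝ) ≤ 2 * Y.card := by nlinarith
      exact_mod_cast h7
    omega
  · have hk2 : k = C.h + 1 := by omega
    subst hk2
    apply hempty
    intro v hv
    rcases Nat.lt_or_ge lo m with hml | hml
    · have hm1 : lo ≤ m - 1 ∧ m - 1 ≤ hi := ⟨by omega, by omega⟩
      have hB1 := hG (m - 1) hm1.1 hm1.2
      have e : pos C hi m (C.h + 1) + 9 = pos C hi (m - 1) 0 + 8 := by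
        simp only [pos]
        have h4 : hi - (m - 1) = (hi - m) + 1 := by omega
        rw [h4]
        ring
      rw [e, gm_pos hm1 (by omega)] at hv
      have h3 : med lo hi f (m - 1) 0 + 1 ≤ med lo hi f (m - 1) 0 := by
        apply le_med
        · have := idx_le_B (f (TV par m (C.h + 1) v)) (hE.maps _ (inT_TV hm _ v))
          omega
        · have h8 : (univ.filter fun u => med lo hi f (m - 1) 0 + 1 ≤
              idx lo hi (f (TV par (m - 1) 0 u))) = univ := by
            apply Finset.filter_true_of_mem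
            intro u _
            have h5 := idx_mono (b := b) hO (hE.maps _ (inT_TV hm _ _))
              (hE.maps _ (inT_TV hm1 _ _))
              (hE.mono (TV par m (C.h + 1) v) (TV par (m - 1) 0 u) (inT_TV hm _ _)
                (inT_TV hm1 _ _) (TLe.lt (by omega) _ _))
            omega
          rw [h8]
          simp
          omega
      omega
    · have : m = lo := by omega
      subst this
      have e : pos C hi m (C.h + 1) + 9 = (hi + 1 - m) * (C.h + 2) + 8 := by
        simp only [pos]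
        have h4 : hi + 1 - m = (hi - m) + 1 := by omega
        rw [h4]
        ring
      rw [e, gm_top (le_refl _)] at hv
      have := idx_le_B (f (TV par m (C.h + 1) v)) (hE.maps _ (inT_TV hm _ v))
      omega

theorem gm_mono' (hG : ∀ m, lo ≤ m → m ≤ hi → GoodBlk q (par m) (le m)) (hq : q.Ok)
    (hE : Endo le lo hi b f) : Monotone (gm lo hi f) := by
  apply monotone_nat_of_le_succ
  intro a
  rcases Nat.lt_or_ge a 8 with ha | ha
  · have : gm lo hi f a = 0 := by
      unfold gm
      rw [if_pos ha]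
    omega
  obtain ⟨g, rfl⟩ : ∃ g, a = g + 8 := ⟨a - 8, by omega⟩
  rcases Nat.lt_or_ge g ((hi + 1 - lo) * (C.h + 2)) with hg | hg
  · have hd : g / (C.h + 2) < hi + 1 - lo := by
      rw [Nat.div_lt_iff_lt_mul (by omega)]
      exact hg
    have hdm := Nat.div_add_mod g (C.h + 2)
    have hkl := Nat.mod_lt g (show 0 < C.h + 2 by omega)
    generalize g / (C.h + 2) = D at hd hdm
    generalize g % (C.h + 2) = k at hkl hdm
    obtain ⟨m, hm⟩ : ∃ m, m = hi - D := ⟨_, rfl⟩
    have hkh : k ≤ C.h + 1 := by omega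
    have hmm : lo ≤ m ∧ m ≤ hi := ⟨by omega, by omega⟩
    have e : g = pos C hi m k := by
      simp only [pos]
      have h4 : hi - m = D := by omega
      rw [h4, Nat.mul_comm]
      exact hdm.symm
    rw [e, gm_pos hmm hkh]
    by_contra hcon
    push Not at hcon
    have h9 : pos C hi m k + 8 + 1 = pos C hi m k + 9 := by ring
    rw [h9] at hcon
    have h1 := few_up hG hq hE hmm hkh
    have h2 := med_spec (lo := lo) (hi := hi) (f := f) (hG m hmm.1 hmm.2).npos k
    have h3 : (univ.filter fun v => med lo hi f m k ≤ idx lo hi (f (TV par m k v))) ⊆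
        univ.filter fun v => gm lo hi f (pos C hi m k + 9) < idx lo hi (f (TV par m k v)) := by
      intro v hv
      simp only [mem_filter, mem_univ, true_and] at hv ⊢
      omega
    have h4 := Finset.card_le_card h3
    have h5 : ((par m).n : ℝ) ≤ 2 * ((univ.filter fun v => gm lo hi f (pos C hi m k + 9) <
        idx lo hi (f (TV par m k v))).card : ℝ) := by
      exact_mod_cast h2.trans (Nat.mul_le_mul_left 2 h4)
    have hd := d1_small hq
    have hn0 : (0 : ℝ) < (par m).n := by exact_mod_cast (hG m hmm.1 hmm.2).npos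
    nlinarith
  · rw [gm_top (by omega), gm_top (by omega)]

/-! ### cells -/

theorem cell_low {c : Cell (par m)} {S : Finset (Fin (par m).n)} (hO : BlkOrd (le m))
    (hL : LowReg (le m) c S) (e : CI (par m) c.j) :
    ∃ v, v ∉ S ∧ le m (V (par m) c.k.val v) (.ce c e) := by
  obtain ⟨g, s, l⟩ := e
  cases s with
  | A =>
    obtain ⟨⟨v, hv, h⟩, _⟩ := hL g .A rfl
    exact ⟨v, hv, h l⟩
  | F =>
    obtain ⟨⟨v, hv, h⟩, _⟩ := hL g .F rfl
    exact ⟨v, hv, h l⟩
  | G =>
    obtain ⟨⟨v, hv, h⟩, _⟩ := hL g .A rfl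
    exact ⟨v, hv, hO.trans _ _ _ (h l) (hO.cell c (g, .A, l) (g, .G, l) (Or.inr ⟨rfl, rfl⟩))⟩
  | D =>
    obtain ⟨⟨v, hv, h⟩, _⟩ := hL g .F rfl
    exact ⟨v, hv, hO.trans _ _ _ (h l) (hO.cell c (g, .F, l) (g, .D, l) (Or.inr ⟨rfl, rfl⟩))⟩

theorem cell_up {c : Cell (par m)} {S : Finset (Fin (par m).n)} (hO : BlkOrd (le m))
    (hU : UpReg (le m) c S) (e : CI (par m) c.j) :
    ∃ v, v ∉ S ∧ le m (.ce c e) (V (par m) (c.k.val + 2) v) := by
  obtain ⟨g, s, l⟩ := e
  cases s with
  | G =>
    obtain ⟨⟨v, hv, h⟩, _⟩ := hU g .G rfl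
    exact ⟨v, hv, h l⟩
  | D =>
    obtain ⟨⟨v, hv, h⟩, _⟩ := hU g .D rfl
    exact ⟨v, hv, h l⟩
  | A =>
    obtain ⟨⟨v, hv, h⟩, _⟩ := hU g .G rfl
    exact ⟨v, hv, hO.trans _ _ _ (hO.cell c (g, .A, l) (g, .G, l) (Or.inr ⟨rfl, rfl⟩)) (h l)⟩
  | F =>
    obtain ⟨⟨v, hv, h⟩, _⟩ := hU g .G rfl
    exact ⟨v, hv, hO.trans _ _ _ (hO.cell c (g, .F, l) (g, .G, l) (Or.inr ⟨rfl, rfl⟩)) (h l)⟩

/-- the number of atypical cells, abstract form -/
theorem card_atyp (hB : GoodBlk q (par m) (le m)) (k : Fin C.h) (j : Fin C.W)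
    {S S' : Finset (Fin (par m).n)} (hS : (S.card : ℝ) ≤ q.kap * (par m).n)
    (hS' : (S'.card : ℝ) ≤ q.kap * (par m).n) (Q : Fin ((par m).N j) → Prop)
    (hQ : ∀ c : Fin ((par m).N j), LowReg (le m) ⟨k, j, c⟩ S → UpReg (le m) ⟨k, j, c⟩ S' → Q c) :
    ((univ.filter fun c : Fin ((par m).N j) => ¬ Q c).card : ℝ) ≤ 2 * q.dlt * (par m).N j := by
  have h1 := hB.a6l k j S hS
  have h2 := hB.a6u k j S' hS'
  have h3 : (univ.filter fun c : Fin ((par m).N j) => ¬ Q c) ⊆
      (univ.filter fun c : Fin ((par m).N j) => ¬ LowReg (le m) ⟨k, j, c⟩ S) ∪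
      (univ.filter fun c : Fin ((par m).N j) => ¬ UpReg (le m) ⟨k, j, c⟩ S') := by
    intro c hc
    simp only [mem_union, mem_filter, mem_univ, true_and] at hc ⊢
    by_contra hcon
    push Not at hcon
    exact hc (hQ c hcon.1 hcon.2)
  have h4 := (Finset.card_le_card h3).trans (Finset.card_union_le _ _)
  have h5 : ((univ.filter fun c : Fin ((par m).N j) => ¬ Q c).card : ℝ) ≤
      ((univ.filter fun c : Fin ((par m).N j) => ¬ LowReg (le m) ⟨k, j, c⟩ S).card : ℝ) +
      ((univ.filter fun c : Fin ((par m).N j) => ¬ UpReg (le m) ⟨k, j, c⟩ S').card : ℝ) := by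
    exact_mod_cast h4
  linarith

theorem d1_kap (hq : q.Ok) : q.d1 ≤ q.kap := by
  have h1 := hq.d1
  have h2 := hq.kap'
  have h3 := hq.kap0
  nlinarith

end Pool.Agent.AM.SepGlue

namespace Pool.Agent.AM

open SepGlue Sec5 Sec61

variable {C : Cst} {par : ℕ → Par C} {le : ∀ m, Pt (par m) → Pt (par m) → Prop} {q : Con}
  {t : ℕ → ℕ} {lo hi : ℕ} {b : Prop} {f0 : TP par → TP par}

theorem gm_mono (hG : GoodTow q par t le lo hi) (hq : q.Ok) (hlh : lo ≤ hi)
    (hf : Endo le lo hi b f0) : Monotone (gm lo hi f0) :=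
  gm_mono' hG.blk hq hf

theorem gm_le (hlh : lo ≤ hi) (a : ℕ) : gm lo hi f0 a ≤ (hi + 1 - lo) * (C.h + 2) :=
  gm_le_B a

/-- 6.3: typical cells of any level `k+1` of any block -/
theorem typ_wide (hG : GoodTow q par t le lo hi) (hq : q.Ok) (hf : Endo le lo hi b f0)
    {m : ℕ} (hm : lo ≤ m) (hm' : m ≤ hi) (k : Fin C.h) (j : Fin C.W) :
    ((univ.filter fun c : Fin ((par m).N j) => ¬ ∀ f, Endo le lo hi b f → SkEq lo hi b f0 f → ∀ e,
      gm lo hi f0 (pos C hi m (k.val + 1)) ≤ idx lo hi (f (.pt m (.ce ⟨k, j, c⟩ e))) ∧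
      idx lo hi (f (.pt m (.ce ⟨k, j, c⟩ e))) ≤ gm lo hi f0 (pos C hi m (k.val + 1) + 16)).card : ℝ)
      ≤ 2 * q.dlt * (par m).N j := by
  have hmm : lo ≤ m ∧ m ≤ hi := ⟨hm, hm'⟩
  have hB := hG.blk m hm hm'
  have hO : ∀ m, lo ≤ m → m ≤ hi → BlkOrd (le m) := fun m h1 h2 => (hG.blk m h1 h2).ord
  have hmono := gm_mono' hG.blk hq hf
  have hk := k.isLt
  have hd := d1_kap hq
  have hn0 : (0 : ℝ) < (par m).n := by exact_mod_cast hB.npos
  have h1 := few_low hG.blk hq hf hmm (k := k.val) (by omega)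
  have h2 := few_up hG.blk hq hf hmm (k := k.val + 2) (by omega)
  have h1' : ((univ.filter fun v => idx lo hi (f0 (TV par m k.val v)) <
      gm lo hi f0 (pos C hi m k.val + 7)).card : ℝ) ≤ q.kap * (par m).n := by nlinarith
  have h2' : ((univ.filter fun v => gm lo hi f0 (pos C hi m (k.val + 2) + 9) <
      idx lo hi (f0 (TV par m (k.val + 2) v))).card : ℝ) ≤ q.kap * (par m).n := by nlinarith
  refine card_atyp hB k j h1' h2' _ ?_
  intro c hL hU f hfE hsk e
  constructor
  · obtain ⟨v, hv, hve⟩ := cell_low hB.ord hL e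
    have h5 := idx_mono (b := b) hO (hfE.maps _ (inT_TV hmm _ _))
      (hfE.maps (.pt m (.ce ⟨k, j, c⟩ e)) hmm)
      (hfE.mono (TV par m k.val v) (.pt m (.ce ⟨k, j, c⟩ e)) (inT_TV hmm _ _) hmm (TLe.eq hve))
    rw [← hsk.1 m k.val v hm hm' (by omega)] at h5
    simp only [mem_filter, mem_univ, true_and, not_lt] at hv
    have h6 : pos C hi m (k.val + 1) ≤ pos C hi m k.val + 7 := by
      simp only [pos]
      omega
    exact (hmono h6).trans (hv.trans h5)
  · obtain ⟨v, hv, hve⟩ := cell_up hB.ord hU e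
    have h5 := idx_mono (b := b) hO (hfE.maps (.pt m (.ce ⟨k, j, c⟩ e)) hmm)
      (hfE.maps _ (inT_TV hmm _ _))
      (hfE.mono (.pt m (.ce ⟨k, j, c⟩ e)) (TV par m (k.val + 2) v) hmm (inT_TV hmm _ _)
        (TLe.eq hve))
    rw [← hsk.1 m (k.val + 2) v hm hm' (by omega)] at h5
    simp only [mem_filter, mem_univ, true_and, not_lt] at hv
    have h6 : pos C hi m (k.val + 2) + 9 ≤ pos C hi m (k.val + 1) + 16 := by
      simp only [pos]
      omega
    exact h5.trans (hv.trans (hmono h6))

/-- 6.3: typical cells of a sep-level of a deep block -/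
theorem typ_sep (hG : GoodTow q par t le lo hi) (hq : q.Ok) (hf : Endo le lo hi b f0)
    {m : ℕ} (hm : lo ≤ m) (hm' : m ≤ hi) (hdeep : ∀ m', lo ≤ m' → m' ≤ hi → t m' ≤ (t m) ^ 2)
    (k : Fin C.h) (hs : SepLev q f0 m (k.val + 1)) :
    ∃ yl yu : TP par, inT par lo hi b yl ∧ inT par lo hi b yu ∧
      gm lo hi f0 (pos C hi m (k.val + 1)) ≤ idx lo hi yl ∧ idx lo hi yl ≤ idx lo hi yu ∧
      idx lo hi yu ≤ gm lo hi f0 (pos C hi m (k.val + 1) + 16) ∧
      ∀ j, ((univ.filter fun c : Fin ((par m).N j) => ¬ ∀ f, Endo le lo hi b f →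
        SkEq lo hi b f0 f → ∀ e, TLe le yl (f (.pt m (.ce ⟨k, j, c⟩ e))) ∧
          TLe le (f (.pt m (.ce ⟨k, j, c⟩ e))) yu).card : ℝ) ≤ 2 * q.dlt * (par m).N j := by
  have hmm : lo ≤ m ∧ m ≤ hi := ⟨hm, hm'⟩
  have hB := hG.blk m hm hm'
  have hO : ∀ m, lo ≤ m → m ≤ hi → BlkOrd (le m) := fun m h1 h2 => (hG.blk m h1 h2).ord
  have hd := d1_kap hq
  have hd4 := d1_small hq
  have hn0 : (0 : ℝ) < (par m).n := by exact_mod_cast hB.npos
  obtain ⟨hs1, hs2, hs3⟩ := hs
  obtain ⟨k0, hk0⟩ : ∃ k0, k.val + 1 = k0 + 8 := ⟨k.val + 1 - 8, by omega⟩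
  have hkv : k.val = k0 + 7 := by omega
  rw [hk0] at hs2 hs3
  -- lower joint
  have hw : ∀ i, 2 ≤ i → i ≤ 7 → ¬ Cold q f0 m (k0 + 8 - i) ∧ ¬ Cold q f0 m (k0 + 8 + i) := hs3
  have low1 : SepAt q le f0 m (k0 + 1) ∨ SepAt q le f0 m (k0 + 2) :=
    sep hG hq hf hmm hdeep (by omega)
      (by have := (hw 7 (by omega) (by omega)).1; simpa using this)
      (by have := (hw 6 (by omega) (by omega)).1; simpa using this)
  have low2 : SepAt q le f0 m (k0 + 4) ∨ SepAt q le f0 m (k0 + 5) :=
    sep hG hq hf hmm hdeep (by omega)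
      (by have := (hw 4 (by omega) (by omega)).1; simpa using this)
      (by have := (hw 3 (by omega) (by omega)).1; simpa using this)
  have up1 : SepAt q le f0 m (k0 + 10) ∨ SepAt q le f0 m (k0 + 11) :=
    sep hG hq hf hmm hdeep (by omega)
      (by have := (hw 2 (by omega) (by omega)).2; simpa using this)
      (by have := (hw 3 (by omega) (by omega)).2; simpa using this)
  have up2 : SepAt q le f0 m (k0 + 13) ∨ SepAt q le f0 m (k0 + 14) :=
    sep hG hq hf hmm hdeep (by omega)
      (by have := (hw 5 (by omega) (by omega)).2; simpa using this)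
      (by have := (hw 6 (by omega) (by omega)).2; simpa using this)
  obtain ⟨α, hα1, hα2, hα⟩ : ∃ α, k0 + 1 ≤ α ∧ α ≤ k0 + 2 ∧ SepAt q le f0 m α := by
    rcases low1 with h | h
    · exact ⟨_, le_refl _, by omega, h⟩
    · exact ⟨_, by omega, le_refl _, h⟩
  obtain ⟨β, hβ1, hβ2, hβ⟩ : ∃ β, k0 + 4 ≤ β ∧ β ≤ k0 + 5 ∧ SepAt q le f0 m β := by
    rcases low2 with h | h
    · exact ⟨_, le_refl _, by omega, h⟩
    · exact ⟨_, by omega, le_refl _, h⟩
  obtain ⟨α', hα1', hα2', hα'⟩ : ∃ α, k0 + 10 ≤ α ∧ α ≤ k0 + 11 ∧ SepAt q le f0 m α := by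
    rcases up1 with h | h
    · exact ⟨_, le_refl _, by omega, h⟩
    · exact ⟨_, by omega, le_refl _, h⟩
  obtain ⟨β', hβ1', hβ2', hβ'⟩ : ∃ β, k0 + 13 ≤ β ∧ β ≤ k0 + 14 ∧ SepAt q le f0 m β := by
    rcases up2 with h | h
    · exact ⟨_, le_refl _, by omega, h⟩
    · exact ⟨_, by omega, le_refl _, h⟩
  obtain ⟨p1, p2, hp1, hp2, hp12, hlow, hlow'⟩ :=
    joint_core hB hO hq hf hmm (α := α) (β := β) (by omega) (by omega) hα hβ
  obtain ⟨p3, p4, hp3, hp4, hp34, hup, hup'⟩ :=
    joint_core hB hO hq hf hmm (α := α') (β := β') (by omega) (by omega) hα' hβ'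
  -- levels
  have hL0 := hlow k0 (by omega)
  have hL7 := hlow' (k0 + 7) (by omega) (by omega)
  have hU9 := hup (k0 + 9) (by omega)
  have hU16 := hup' (k0 + 16) (by omega) (by omega)
  refine ⟨p2, p3, hp2, hp3, ?_, ?_, ?_, ?_⟩
  · -- gm (pos) ≤ idx p2
    have e : pos C hi m (k.val + 1) = pos C hi m k0 + 8 := by
      simp only [pos]
      omega
    rw [e, gm_pos hmm (by omega)]
    refine le_trans ?_ (idx_mono hO hp1 hp2 hp12)
    by_contra hcon
    push Not at hcon
    have h2 := med_spec (lo := lo) (hi := hi) (f := f0) hB.npos k0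
    have h3 : (univ.filter fun v => med lo hi f0 m k0 ≤ idx lo hi (f0 (TV par m k0 v))) ⊆
        univ.filter fun v => ¬ TLe le (f0 (TV par m k0 v)) p1 := by
      intro v hv
      simp only [mem_filter, mem_univ, true_and] at hv ⊢
      intro hle
      have := idx_mono hO (hf.maps _ (inT_TV hmm _ _)) hp1 hle
      omega
    have h4 := Finset.card_le_card h3
    have h5 : ((par m).n : ℝ) ≤ 2 * ((univ.filter fun v =>
        ¬ TLe le (f0 (TV par m k0 v)) p1).card : ℝ) := by
      exact_mod_cast h2.trans (Nat.mul_le_mul_left 2 h4)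
    nlinarith
  · -- idx p2 ≤ idx p3
    set X := univ.filter fun v => TLe le p2 (f0 (TV par m (k0 + 7) v)) with hX
    have hXc : q.d1 * (par m).n ≤ X.card := by
      have h6 : (X.card : ℝ) = (par m).n - ((univ.filter fun v =>
          ¬ TLe le p2 (f0 (TV par m (k0 + 7) v))).card : ℝ) := by
        have h7 := Finset.card_filter_add_card_filter_not
          (s := (univ : Finset (Fin (par m).n)))
          (fun v => TLe le p2 (f0 (TV par m (k0 + 7) v)))
        have h8 : (X.card : ℝ) + ((univ.filter fun v =>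
          ¬ TLe le p2 (f0 (TV par m (k0 + 7) v))).card : ℝ) = (par m).n := by
          rw [hX]
          exact_mod_cast (by simpa using h7)
        linarith
      rw [h6]
      nlinarith
    have h9 := up_few hB hq (k := k0 + 7) 1 (by omega) hXc
    have hex : ∃ u, (∃ x ∈ X, le m (V (par m) (k0 + 7) x) (V (par m) (k0 + 7 + (1 + 1)) u)) ∧
        TLe le (f0 (TV par m (k0 + 9) u)) p3 := by
      by_contra hcon
      push Not at hcon
      have h10 : (univ : Finset (Fin (par m).n)) ⊆ (univ.filter fun u => ∀ x ∈ X,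
          ¬ le m (V (par m) (k0 + 7) x) (V (par m) (k0 + 7 + (1 + 1)) u)) ∪
          (univ.filter fun v => ¬ TLe le (f0 (TV par m (k0 + 9) v)) p3) := by
        intro u _
        simp only [mem_union, mem_filter, mem_univ, true_and]
        by_cases h11 : ∃ x ∈ X, le m (V (par m) (k0 + 7) x) (V (par m) (k0 + 7 + (1 + 1)) u)
        · right
          exact hcon u h11
        · left
          push Not at h11
          exact h11
      have h12 := (Finset.card_le_card h10).trans (Finset.card_union_le _ _)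
      have h13 : ((par m).n : ℝ) ≤ ((univ.filter fun u => ∀ x ∈ X,
          ¬ le m (V (par m) (k0 + 7) x) (V (par m) (k0 + 7 + (1 + 1)) u)).card : ℝ) +
          ((univ.filter fun v => ¬ TLe le (f0 (TV par m (k0 + 9) v)) p3).card : ℝ) := by
        have : (univ : Finset (Fin (par m).n)).card = (par m).n := by simp
        rw [this] at h12
        exact_mod_cast h12
      nlinarith
    obtain ⟨u, ⟨x, hx, hxu⟩, hu⟩ := hex
    have hx' := (Finset.mem_filter.mp hx).2
    have h14 := idx_mono hO hp2 (hf.maps _ (inT_TV hmm _ _)) hx'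
    have h15 := idx_mono (b := b) hO (hf.maps _ (inT_TV hmm _ _)) (hf.maps _ (inT_TV hmm _ _))
      (hf.mono (TV par m (k0 + 7) x) (TV par m (k0 + 9) u) (inT_TV hmm _ _) (inT_TV hmm _ _)
        (TLe.eq hxu))
    have h16 := idx_mono hO (hf.maps _ (inT_TV hmm _ _)) hp3 hu
    omega
  · -- idx p3 ≤ gm (pos + 16)
    have e : pos C hi m (k.val + 1) + 16 = pos C hi m (k0 + 16) + 8 := by
      simp only [pos]
      omega
    rw [e, gm_pos hmm (by omega)]
    refine le_trans (idx_mono hO hp3 hp4 hp34) ?_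
    apply le_med (idx_le_B p4 hp4)
    have h3 : (univ.filter fun v => idx lo hi p4 ≤ idx lo hi (f0 (TV par m (k0 + 16) v)))ᶜ ⊆
        univ.filter fun v => ¬ TLe le p4 (f0 (TV par m (k0 + 16) v)) := by
      intro v hv
      simp only [mem_compl, mem_filter, mem_univ, true_and] at hv ⊢
      intro hle
      exact hv (idx_mono hO hp4 (hf.maps _ (inT_TV hmm _ _)) hle)
    have h4 := Finset.card_le_card h3
    rw [Finset.card_compl] at h4
    have h5 : (univ.filter fun v => idx lo hi p4 ≤
        idx lo hi (f0 (TV par m (k0 + 16) v))).card ≤ (par m).n := by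
      have := Finset.card_le_univ (univ.filter fun v => idx lo hi p4 ≤
        idx lo hi (f0 (TV par m (k0 + 16) v)))
      simpa using this
    have h6 : 2 * (univ.filter fun v => ¬ TLe le p4 (f0 (TV par m (k0 + 16) v))).card
        ≤ (par m).n := by
      have : (2 * ((univ.filter fun v => ¬ TLe le p4 (f0 (TV par m (k0 + 16) v))).card : ℝ))
          ≤ (par m).n := by nlinarith
      exact_mod_cast this
    simp only [Fintype.card_fin] at h4
    omega
  · intro j
    have hS : ((univ.filter fun v => ¬ TLe le p2 (f0 (TV par m (k0 + 7) v))).card : ℝ)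
        ≤ q.kap * (par m).n := by nlinarith
    have hS' : ((univ.filter fun v => ¬ TLe le (f0 (TV par m (k0 + 9) v)) p3).card : ℝ)
        ≤ q.kap * (par m).n := by nlinarith
    refine card_atyp hB k j hS hS' _ ?_
    intro c hL hU f hfE hsk e
    constructor
    · obtain ⟨v, hv, hve⟩ := cell_low hB.ord hL e
      simp only [mem_filter, mem_univ, true_and, not_not] at hv
      have h5 := hfE.mono (TV par m k.val v) (.pt m (.ce ⟨k, j, c⟩ e)) (inT_TV hmm _ _) hmm
        (TLe.eq hve)
      rw [← hsk.1 m k.val v hm hm' (by omega)] at h5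
      rw [hkv] at h5
      exact TowOrd.TLe.trans' hO (hf.maps _ (inT_TV hmm _ _)) hv h5
    · obtain ⟨v, hv, hve⟩ := cell_up hB.ord hU e
      simp only [mem_filter, mem_univ, true_and, not_not] at hv
      have h5 := hfE.mono (.pt m (.ce ⟨k, j, c⟩ e)) (TV par m (k.val + 2) v) hmm
        (inT_TV hmm _ _) (TLe.eq hve)
      rw [← hsk.1 m (k.val + 2) v hm hm' (by omega)] at h5
      have e9 : k.val + 2 = k0 + 9 := by omega
      rw [e9] at h5
      exact TowOrd.TLe.trans' hO (hf.maps _ (inT_TV hmm _ _)) h5 hv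

end Pool.Agent.AM
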