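import Pool.Agent.AM.S7Defs
import Pool.Agent.AM.LvlB
import Pool.Agent.AM.SepGlue
import Pool.Agent.AM.CcSum
import Pool.Agent.AM.S7num
import Pool.Agent.AM.Ev7

set_option autoImplicit false

open scoped Classical
open Finset

noncomputable section

namespace Pool.Agent.AM

namespace LevC

lemma rt_mono (c : PC) : Monotone c.rt := by
  intro a b hab
  unfold PC.rt
  exact Nat.findGreatest_mono (fun n hn => le_trans hn hab) hab

lemma tf_mono (c : PC) (m0 : ℕ) : Monotone (c.tf m0) := by
  intro a b hab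
  unfold PC.tf
  exact rt_mono c (Nat.add_le_add_right hab m0)

lemma lev_lt {C : Cst} {p : Par C} (x : Pt p) : lev x < C.h + 2 := by
  cases x with
  | fr k v => exact k.isLt
  | ce c e =>
    have := c.k.isLt
    simp only [lev]
    omega

lemma idx_top_div {C : Cst} {par : ℕ → Par C} (lo hi : ℕ) :
    idx lo hi (TP.top : TP par) / (C.h + 2) = hi + 1 - lo := by
  simp only [idx]
  exact Nat.mul_div_cancel _ (by omega)

lemma idx_pt_div {C : Cst} {par : ℕ → Par C} (lo hi m : ℕ) (x : Pt (par m)) :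
    idx lo hi (TP.pt m x : TP par) / (C.h + 2) = hi - m := by
  simp only [idx]
  have h := lev_lt x
  rw [mul_comm, Nat.mul_add_div (by omega), Nat.div_eq_of_lt h, add_zero]

lemma div_mono {C : Cst} {a b : ℕ} (h : a ≤ b) : a / (C.h + 2) ≤ b / (C.h + 2) :=
  Nat.div_le_div_right h

/-- a cell all of whose points go to one point has one restriction -/
lemma ext_one {C : Cst} {par : ℕ → Par C} {lo hi : ℕ} {b : Prop} {F : Set (TP par → TP par)}
    {f0 : TP par → TP par} {m : ℕ} {c : Cell (par m)} (y : TP par)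
    (h : ∀ f ∈ F, SkEq lo hi b f0 f → ∀ e, f (.pt m (.ce c e)) = y) :
    Real.log ((Ext lo hi b F f0 m c).ncard : ℝ) ≤ 0 := by
  have h1 : Ext lo hi b F f0 m c ⊆ {fun _ => y} := by
    rintro g ⟨f, hf, hs, rfl⟩
    rw [Set.mem_singleton_iff]
    funext e
    exact h f hf hs e
  have h2 : (Ext lo hi b F f0 m c).ncard ≤ 1 := by
    have := Set.ncard_le_ncard h1 (Set.finite_singleton _)
    rwa [Set.ncard_singleton] at this
  apply Real.log_nonpos (by positivity)
  exact_mod_cast h2

end LevC

open LevC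

/-- the level bounds in numbers -/
theorem lev_bound (c : PC) (q : Con) (hc : c.Ok q) : ∀ᶠ m0 in Filter.atTop,
    ∀ (le : ∀ m, Pt (c.bl m0 m) → Pt (c.bl m0 m) → Prop) (lo hi : ℕ) (b : Prop), lo ≤ hi →
      GoodTow q (c.bl m0) (c.tf m0) le lo hi →
      ∀ F ⊆ EndSet le lo hi b, ∀ f0 ∈ F, ∀ m, lo ≤ m → m ≤ hi →
        c.tf m0 hi ≤ (c.tf m0 m) ^ 2 → ∀ k : Fin c.cst.h,
        (PinLev q f0 m (k.val + 1) →
          LS lo hi b F f0 m k ≤ rigC (c.bl m0 m) + 1 / 100 * c.G (c.tf m0 hi)) ∧
        (¬ PinLev q f0 m (k.val + 1) →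
          LS lo hi b F f0 m k ≤
            ((1216 * ((gap lo hi f0 m (k.val + 1) : ℝ) + 1) + 8001) +
              (41 / 10 * (c.lam : ℝ) ^ (c.W - 1) + 1) *
                ((if SepLev q f0 m (k.val + 1) then 0 else 1) + (bcn lo hi f0 m (k.val + 1) : ℝ)))
              * c.G (c.tf m0 hi)) := by
  filter_upwards [ev7 c q hc] with m0 hev le lo hi b hlh hGT F hF f0 hf0 m hm hm' hdeep k
  obtain ⟨ht3, hbig, hQ, hLX, -, -, -, -, -⟩ := hev lo hi hlh
  have hG : ∀ m, lo ≤ m → m ≤ hi → GoodBlk q (c.bl m0 m) (le m) := hGT.blk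
  have hq : q.Ok := hc.con
  have hE0 : Endo le lo hi b f0 := (hF hf0).1
  have hd : 0 ≤ q.dlt := hc.dlt0.le
  set ts := c.tf m0 hi with hts
  have htle : ∀ m', m' ≤ hi → c.tf m0 m' ≤ ts := fun m' h => tf_mono c m0 h
  have hlam : 1 ≤ c.lam := by rw [hc.lam]; norm_num
  have h2lam : 1 ≤ 2 * c.lam := by omega
  have hTge : ∀ m' (j : Fin c.cst.W), 3 ≤ (c.bl m0 m').T j := by
    intro m' j
    have h1 := ht3 m'
    show 3 ≤ (c.tf m0 m') ^ (c.lam ^ j.val)
    calc 3 ≤ c.tf m0 m' := h1
      _ = (c.tf m0 m') ^ 1 := (pow_one _).symm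
      _ ≤ _ := Nat.pow_le_pow_right (by omega) (Nat.one_le_pow _ _ hlam)
  have hGnn : 0 ≤ c.G ts := by
    have h1 : 0 ≤ Real.log (ts : ℝ) := Real.log_natCast_nonneg _
    unfold PC.G
    positivity
  have hatyp := hc.lvl_atyp (t := c.tf m0 m) (ts := ts) (htle m hm')
    (Real.log (cardT (c.bl m0) lo hi : ℝ)) hLX
  have hlog0 : 0 ≤ Real.log (ts : ℝ) := Real.log_natCast_nonneg _
  have hlogle : ∀ m', m' ≤ hi → Real.log (c.tf m0 m' : ℝ) ≤ Real.log (ts : ℝ) := by
    intro m' h
    apply Real.log_le_log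
    · have := ht3 m'
      exact_mod_cast (by omega : 0 < c.tf m0 m')
    · exact_mod_cast htle m' h
  -- logs of the numbers of labels
  have hlT : ∀ m', m' ≤ hi → ∀ j : Fin c.cst.W,
      Real.log ((c.bl m0 m').T j : ℝ) = (c.lam : ℝ) ^ j.val * Real.log (c.tf m0 m' : ℝ) :=
    fun m' _ j => hc.logT (c.tf m0 m') j
  have hlamR : (1 : ℝ) ≤ c.lam := by exact_mod_cast hlam
  -- constants
  set K0 := c.Kst * (2 * c.lam) ^ (c.W - 1) with hK0
  have hK : ∀ j, c.cst.K j ≤ K0 := by
    intro j
    show c.Kst * (2 * c.lam) ^ (c.W - 1 - j.val) ≤ c.Kst * (2 * c.lam) ^ (c.W - 1)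
    exact Nat.mul_le_mul_left _ (Nat.pow_le_pow_right h2lam (by omega))
  have hK1 : 1 ≤ K0 := by
    have h1 : 1 ≤ c.Kst := by
      have h2 := hc.Kst
      have h3 := hc.Epos
      omega
    exact Nat.mul_le_mul h1 (Nat.one_le_pow _ _ h2lam)
  set lQ := Real.log ((8 * (q.P + 2) * (c.cst.h + 2) * K0 : ℕ) : ℝ) with hlQ
  have hlQ0 : 0 ≤ lQ := Real.log_natCast_nonneg _
  set LX := Real.log (cardT (c.bl m0) lo hi : ℝ) with hLXd
  have hLX0 : 0 ≤ LX := Real.log_natCast_nonneg _
  have hL0 : (0 : ℝ) ≤ 41 / 10 * (c.lam : ℝ) ^ (c.W - 1) := by positivity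
  have hWlam : 4 * (c.W : ℝ) / c.lam = 8000 := (s9 c q hc).2.2
  have hatyp' : ∑ j, (2 * q.dlt * (c.bl m0 m).N j) *
      (4 * (c.bl m0 m).T j * c.cst.K j * LX) ≤ 1 / 10 ^ 5 * c.G ts := hatyp
  refine ⟨fun hp => ?_, fun hp => ?_⟩
  · -- pinned
    have h1 := ls_pin hG hF hm hm' k hp hd (fun j => by have := hTge m j; omega) (f0 := f0)
    have h2 : (1 : ℝ) / 10 ^ 5 * c.G ts ≤ 1 / 100 * c.G ts := by nlinarith
    linarith
  -- the wide bound
  have hwide : LS lo hi b F f0 m k ≤
      (41 / 10 * (c.lam : ℝ) ^ (c.W - 1) + (2 * (bcn lo hi f0 m (k.val + 1) : ℝ) + 4) / 10 ^ 6 +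
        1 / 500 + 1 / 10 ^ 5) * c.G ts := by
    have h1 := ls_wide hG hF hm hm' k hd (fun j => by have := hTge m j; omega) (f0 := f0)
      (gm lo hi f0 (pos c.cst hi m (k.val + 1))) (gm lo hi f0 (pos c.cst hi m (k.val + 1) + 16))
      (fun j => by
        refine le_trans ?_ (typ_wide hGT hq hE0 hm hm' k j)
        have h2 : (univ.filter fun x : Fin ((c.bl m0 m).N j) => ¬ ∀ f ∈ F, SkEq lo hi b f0 f →
            ∀ e, gm lo hi f0 (pos c.cst hi m (k.val + 1)) ≤
              idx lo hi (f (.pt m (.ce ⟨k, j, x⟩ e))) ∧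
              idx lo hi (f (.pt m (.ce ⟨k, j, x⟩ e))) ≤
              gm lo hi f0 (pos c.cst hi m (k.val + 1) + 16)) ⊆
            (univ.filter fun x : Fin ((c.bl m0 m).N j) => ¬ ∀ f, Endo le lo hi b f →
              SkEq lo hi b f0 f → ∀ e, gm lo hi f0 (pos c.cst hi m (k.val + 1)) ≤
              idx lo hi (f (.pt m (.ce ⟨k, j, x⟩ e))) ∧
              idx lo hi (f (.pt m (.ce ⟨k, j, x⟩ e))) ≤
              gm lo hi f0 (pos c.cst hi m (k.val + 1) + 16)) := by
          intro x hx
          rw [mem_filter] at hx ⊢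
          exact ⟨hx.1, fun h => hx.2 fun f hf => h f (hF hf).1⟩
        exact_mod_cast card_le_card h2)
      K0 hK hK1 ((c.lam : ℝ) ^ (c.W - 1) * Real.log ts) (by positivity)
      (fun m' h1 h2 j => by
        rw [hlT m' h2 j]
        have hj : j.val < c.W := j.isLt
        apply mul_le_mul _ (hlogle m' h2) (Real.log_natCast_nonneg _) (by positivity)
        exact pow_le_pow_right₀ hlamR (by omega))
    have h2 := hc.lvl_wide (t := c.tf m0 m) (ts := ts) (by have := ht3 m; omega) (htle m hm') LX lQ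
      hLX hbig hlQ0 hQ (2 * (bcn lo hi f0 m (k.val + 1) : ℝ) + 4) (by positivity)
    have h3 := h1.trans (add_le_add (show _ ≤ _ from h2) hatyp')
    refine h3.trans (le_of_eq ?_)
    ring
  have hGm : 0 ≤ c.G ts := hGnn
  by_cases hs : SepLev q f0 m (k.val + 1)
  · rw [if_pos hs]
    obtain ⟨yl, yu, hyl, hyu, h1, h2, h3, htyp⟩ := typ_sep hGT hq hE0 hm hm'
      (fun m' _ h2 => (htle m' h2).trans hdeep) k hs
    have htyp' : ∀ j, ((univ.filter fun x : Fin ((c.bl m0 m).N j) => ¬ ∀ f ∈ F,
        SkEq lo hi b f0 f → ∀ e, TLe le yl (f (.pt m (.ce ⟨k, j, x⟩ e))) ∧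
          TLe le (f (.pt m (.ce ⟨k, j, x⟩ e))) yu).card : ℝ) ≤ 2 * q.dlt * (c.bl m0 m).N j := by
      intro j
      refine le_trans ?_ (htyp j)
      have h2 : (univ.filter fun x : Fin ((c.bl m0 m).N j) => ¬ ∀ f ∈ F,
          SkEq lo hi b f0 f → ∀ e, TLe le yl (f (.pt m (.ce ⟨k, j, x⟩ e))) ∧
          TLe le (f (.pt m (.ce ⟨k, j, x⟩ e))) yu) ⊆
          (univ.filter fun x : Fin ((c.bl m0 m).N j) => ¬ ∀ f, Endo le lo hi b f →
            SkEq lo hi b f0 f → ∀ e, TLe le yl (f (.pt m (.ce ⟨k, j, x⟩ e))) ∧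
            TLe le (f (.pt m (.ce ⟨k, j, x⟩ e))) yu) := by
        intro x hx
        rw [mem_filter] at hx ⊢
        exact ⟨hx.1, fun h => hx.2 fun f hf => h f (hF hf).1⟩
      exact_mod_cast card_le_card h2
    -- different blocks: at least one border
    have hdiff : 1 ≤ bcn lo hi f0 m (k.val + 1) → LS lo hi b F f0 m k ≤
        ((1216 * ((gap lo hi f0 m (k.val + 1) : ℝ) + 1) + 8001) +
          (41 / 10 * (c.lam : ℝ) ^ (c.W - 1) + 1) *
            (0 + (bcn lo hi f0 m (k.val + 1) : ℝ))) * c.G ts := by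
      intro hb
      refine hwide.trans (mul_le_mul_of_nonneg_right ?_ hGm)
      have hb' : (1 : ℝ) ≤ (bcn lo hi f0 m (k.val + 1) : ℝ) := by exact_mod_cast hb
      have hg' : (0 : ℝ) ≤ (gap lo hi f0 m (k.val + 1) : ℝ) := by positivity
      nlinarith
    have hbcn : idx lo hi yl / (c.cst.h + 2) < idx lo hi yu / (c.cst.h + 2) →
        1 ≤ bcn lo hi f0 m (k.val + 1) := by
      intro h
      have h4 := div_mono (C := c.cst) h1
      have h5 := div_mono (C := c.cst) h3
      unfold bcn
      omega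
    have hdm := div_mono (C := c.cst) h2
    cases yl with
    | top =>
      cases yu with
      | top =>
        -- everything typical is sent to the top
        have h4 := ls_split (le := le) (f0 := f0) hF hm hm' k (2 * q.dlt) (by positivity)
          (fun _ => 0) (fun _ => le_rfl)
          (fun cl => ∀ f ∈ F, SkEq lo hi b f0 f → ∀ e,
            TLe le .top (f (.pt m (.ce cl e))) ∧ TLe le (f (.pt m (.ce cl e))) .top) htyp'
          (fun j x hx => by
            apply ext_one (y := TP.top)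
            intro f hf hsk e
            have h5 := (hx f hf hsk e).1
            cases h6 : f (.pt m (.ce ⟨k, j, x⟩ e)) with
            | top => rfl
            | pt m' z =>
              rw [h6] at h5
              cases h5)
        have h5 : ∑ j : Fin c.cst.W, ((c.bl m0 m).N j : ℝ) * (0 : ℝ) = 0 := by simp
        rw [h5, zero_add] at h4
        refine (h4.trans hatyp').trans (mul_le_mul_of_nonneg_right ?_ hGm)
        have hg' : (0 : ℝ) ≤ (gap lo hi f0 m (k.val + 1) : ℝ) := by positivity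
        have hb' : (0 : ℝ) ≤ (bcn lo hi f0 m (k.val + 1) : ℝ) := by positivity
        have : (0 : ℝ) ≤ (41 / 10 * (c.lam : ℝ) ^ (c.W - 1) + 1) *
          (0 + (bcn lo hi f0 m (k.val + 1) : ℝ)) := by positivity
        norm_num
        nlinarith
      | pt m2 b2 =>
        exfalso
        rw [idx_top_div, idx_pt_div] at hdm
        have h6 := hyu.1
        have h7 := hyu.2
        omega
    | pt m1 a1 =>
      cases yu with
      | top =>
        apply hdiff
        apply hbcn
        rw [idx_top_div, idx_pt_div]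
        have h6 := hyl.1
        have h7 := hyl.2
        omega
      | pt m2 b2 =>
        by_cases hmm : m1 = m2
        · subst hmm
          have h4 := ls_sep hG hF hm hm' k hd (fun j => by have := hTge m j; omega) (f0 := f0)
            hyl.1 hyl.2 a1 b2 htyp' K0 hK hK1 (fun i => c.lowlog ts i.val)
            (fun i => by
              unfold PC.lowlog
              split_ifs
              · exact le_rfl
              · positivity)
            (fun i j hji => by
              have hjv : j.val < i.val := hji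
              show _ ≤ c.lowlog ts i.val
              unfold PC.lowlog
              rw [if_neg (by omega), hlT m1 hyl.2 j]
              apply mul_le_mul _ (hlogle m1 hyl.2) (Real.log_natCast_nonneg _) (by positivity)
              exact pow_le_pow_right₀ hlamR (by omega))
            (fun j => Real.log ((c.par ts).T j : ℝ)) (fun j => Real.log_natCast_nonneg _)
            (fun j => by
              rw [hlT m1 hyl.2 j, hc.logT ts j]
              apply mul_le_mul_of_nonneg_left (hlogle m1 hyl.2) (by positivity))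
          have h5 := hc.lvl_sep (t := c.tf m0 m) (ts := ts) (by have := ht3 m; omega)
            (htle m hm') LX lQ hLX hbig hlQ0 hQ (fun j => (cc (le m1) a1 b2 j : ℝ))
            (fun j => by positivity)
          have h6 := h4.trans (add_le_add (show _ ≤ _ from h5) hatyp')
          have h7 : (∑ j, (cc (le m1) a1 b2 j : ℝ)) ≤
              38 * ((gap lo hi f0 m (k.val + 1) : ℝ) + 1) := by
            have h8 := cc_sum (hG m1 hyl.1 hyl.2) a1 b2
            rw [hc.P] at h8
            have h9 : lev b2 - lev a1 ≤ gap lo hi f0 m (k.val + 1) := by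
              unfold gap
              simp only [idx] at h1 h2 h3
              omega
            have h10 : ∑ j, cc (le m1) a1 b2 j ≤ 38 * (gap lo hi f0 m (k.val + 1) + 1) :=
              h8.trans (Nat.mul_le_mul_left _ (by omega))
            exact_mod_cast h10
          refine h6.trans ?_
          rw [hWlam, ← add_mul]
          refine mul_le_mul_of_nonneg_right ?_ hGm
          have : (0 : ℝ) ≤ (41 / 10 * (c.lam : ℝ) ^ (c.W - 1) + 1) *
            (0 + (bcn lo hi f0 m (k.val + 1) : ℝ)) := by positivity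
          norm_num
          norm_num at this
          nlinarith
        · apply hdiff
          apply hbcn
          rw [idx_pt_div, idx_pt_div] at hdm ⊢
          have h6 := hyl.2
          have h7 := hyu.2
          omega
  · rw [if_neg hs]
    refine hwide.trans (mul_le_mul_of_nonneg_right ?_ hGm)
    have hb' : (0 : ℝ) ≤ (bcn lo hi f0 m (k.val + 1) : ℝ) := by positivity
    have hg' : (0 : ℝ) ≤ (gap lo hi f0 m (k.val + 1) : ℝ) := by positivity
    have hbL : 0 ≤ (41 / 10 * (c.lam : ℝ) ^ (c.W - 1)) * (bcn lo hi f0 m (k.val + 1) : ℝ) := by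
      positivity
    nlinarith

end Pool.Agent.AM
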