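import Pool.Agent.AM.S7Defs

set_option autoImplicit false

open scoped Classical
open Finset

noncomputable section

namespace Pool.Agent.AM

namespace SumGap

/-- telescoping with step `s` -/
theorem tele (G : ℕ → ℕ) (hG : Monotone G) (B : ℕ) (hB : ∀ a, G a ≤ B) (s N : ℕ) :
    ∑ a ∈ range N, (G (a + s) - G a) ≤ s * B := by
  have h1 : ∑ a ∈ range N, (G (a + s) - G a) + ∑ a ∈ range N, G a =
      ∑ a ∈ range N, G (a + s) := by
    rw [← sum_add_distrib]
    exact sum_congr rfl fun a _ => Nat.sub_add_cancel (hG (Nat.le_add_right a s))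
  have h2 : ∑ a ∈ range (s + N), G a = ∑ a ∈ range s, G a + ∑ a ∈ range N, G (s + a) :=
    sum_range_add _ _ _
  have h3 : ∑ a ∈ range (N + s), G a = ∑ a ∈ range N, G a + ∑ a ∈ range s, G (N + a) :=
    sum_range_add _ _ _
  have h4 : ∑ a ∈ range s, G (N + a) ≤ s * B := by
    calc ∑ a ∈ range s, G (N + a) ≤ ∑ _a ∈ range s, B := sum_le_sum fun a _ => hB _
      _ = s * B := by simp
  have h5 : ∑ a ∈ range N, G (a + s) = ∑ a ∈ range N, G (s + a) :=
    sum_congr rfl fun a _ => by rw [Nat.add_comm]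
  rw [Nat.add_comm s N] at h2
  omega

/-- the levels of the tower, block by block -/
theorem blocks (φ : ℕ → ℕ) (w L : ℕ) :
    ∑ i ∈ range L, ∑ r ∈ range w, φ (i * w + r) = ∑ a ∈ range (L * w), φ a := by
  induction L with
  | zero => simp
  | succ L ih =>
    rw [sum_range_succ, ih, Nat.succ_mul, sum_range_add]

/-- the inner levels of one block -/
theorem inner (φ : ℕ → ℕ) (c h : ℕ) :
    ∑ k : Fin h, φ (c + (k.val + 1)) ≤ ∑ r ∈ range (h + 2), φ (c + r) := by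
  rw [Fin.sum_univ_eq_sum_range (fun k => φ (c + (k + 1))) h, sum_range_succ,
    sum_range_succ' (fun r => φ (c + r))]
  omega

/-- counting blocks from the bottom -/
theorem refl' (ψ : ℕ → ℕ) {lo hi : ℕ} (hlh : lo ≤ hi) :
    ∑ m ∈ Icc lo hi, ψ (hi - m) = ∑ i ∈ range (hi + 1 - lo), ψ i := by
  refine sum_nbij' (fun m => hi - m) (fun i => hi - i) ?_ ?_ ?_ ?_ ?_
  · intro m hm
    rw [mem_Icc] at hm
    rw [mem_range]
    omega
  · intro i hi'
    rw [mem_range] at hi'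
    rw [mem_Icc]
    omega
  · intro m hm
    rw [mem_Icc] at hm
    omega
  · intro i hi'
    rw [mem_range] at hi'
    omega
  · intro m _
    rfl

/-- sums over all inner levels of the tower -/
theorem tower (φ : ℕ → ℕ) (h : ℕ) {lo hi : ℕ} (hlh : lo ≤ hi) :
    ∑ m ∈ Icc lo hi, ∑ k : Fin h, φ ((hi - m) * (h + 2) + (k.val + 1)) ≤
      ∑ a ∈ range ((hi + 1 - lo) * (h + 2)), φ a := by
  calc ∑ m ∈ Icc lo hi, ∑ k : Fin h, φ ((hi - m) * (h + 2) + (k.val + 1))
      ≤ ∑ m ∈ Icc lo hi, ∑ r ∈ range (h + 2), φ ((hi - m) * (h + 2) + r) :=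
        sum_le_sum fun m _ => inner φ _ h
    _ = ∑ i ∈ range (hi + 1 - lo), ∑ r ∈ range (h + 2), φ (i * (h + 2) + r) :=
        refl' (fun i => ∑ r ∈ range (h + 2), φ (i * (h + 2) + r)) hlh
    _ = _ := blocks φ (h + 2) _

end SumGap

variable {C : Cst} {par : ℕ → Par C} {lo hi : ℕ} {f : TP par → TP par}

/-- sum of the gaps: telescoping -/
theorem sum_gap (hlh : lo ≤ hi) (hmono : Monotone (gm lo hi f))
    (hle : ∀ a, gm lo hi f a ≤ (hi + 1 - lo) * (C.h + 2)) :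
    ∑ m ∈ Icc lo hi, ∑ k : Fin C.h, (gap lo hi f m (k.val + 1) + 1) ≤
      17 * ((hi + 1 - lo) * (C.h + 2)) := by
  have h1 := SumGap.tower (fun a => gm lo hi f (a + 16) - gm lo hi f a + 1) C.h hlh
  have h2 := SumGap.tele (gm lo hi f) hmono _ hle 16 ((hi + 1 - lo) * (C.h + 2))
  have h3 : ∑ a ∈ range ((hi + 1 - lo) * (C.h + 2)),
      (gm lo hi f (a + 16) - gm lo hi f a + 1) =
      ∑ a ∈ range ((hi + 1 - lo) * (C.h + 2)), (gm lo hi f (a + 16) - gm lo hi f a) +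
        (hi + 1 - lo) * (C.h + 2) := by
    rw [sum_add_distrib]
    simp
  have h4 : ∑ m ∈ Icc lo hi, ∑ k : Fin C.h, (gap lo hi f m (k.val + 1) + 1) =
      ∑ m ∈ Icc lo hi, ∑ k : Fin C.h, (fun a => gm lo hi f (a + 16) - gm lo hi f a + 1)
        ((hi - m) * (C.h + 2) + (k.val + 1)) := rfl
  rw [h4]
  simp only at h1 ⊢
  omega

/-- sum of the borders -/
theorem sum_bcn (hlh : lo ≤ hi) (hmono : Monotone (gm lo hi f))
    (hle : ∀ a, gm lo hi f a ≤ (hi + 1 - lo) * (C.h + 2)) :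
    ∑ m ∈ Icc lo hi, ∑ k : Fin C.h, bcn lo hi f m (k.val + 1) ≤ 16 * (hi + 1 - lo) := by
  have hmono' : Monotone fun a => gm lo hi f a / (C.h + 2) :=
    fun a b hab => Nat.div_le_div_right (hmono hab)
  have hle' : ∀ a, gm lo hi f a / (C.h + 2) ≤ hi + 1 - lo := fun a =>
    Nat.div_le_of_le_mul (by rw [Nat.mul_comm]; exact hle a)
  have h1 := SumGap.tower
    (fun a => gm lo hi f (a + 16) / (C.h + 2) - gm lo hi f a / (C.h + 2)) C.h hlh
  have h2 := SumGap.tele (fun a => gm lo hi f a / (C.h + 2)) hmono' _ hle' 16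
    ((hi + 1 - lo) * (C.h + 2))
  exact le_trans h1 h2

end Pool.Agent.AM
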