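import Pool.Agent.AM.S7Defs
import Pool.Agent.AM.LevC
import Pool.Agent.AM.CntT
import Pool.Agent.AM.SumGap
import Pool.Agent.AM.FwC
import Pool.Agent.AM.Fib

set_option autoImplicit false

open scoped Classical
open Finset

noncomputable section

namespace Pool.Agent.AM

namespace KTaux

variable {C : Cst}

lemma rigC_nonneg (p : Par C) : 0 ≤ rigC p := by
  unfold rigC
  refine Finset.sum_nonneg fun j _ => ?_
  have h1 : 0 ≤ Real.log ((p.T j).factorial : ℝ) := Real.log_natCast_nonneg _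
  positivity

lemma aR_pos (p : Par C) : 0 < aR p := by
  unfold aR
  exact Finset.prod_pos fun j _ => pow_pos (Nat.factorial_pos _) _

lemma log_aR (p : Par C) : Real.log (aR p : ℝ) = C.h * rigC p := by
  unfold aR rigC
  push_cast
  rw [Real.log_prod (fun j _ => by positivity), Finset.mul_sum]
  refine Finset.sum_congr rfl fun j _ => ?_
  rw [Real.log_pow]
  push_cast
  ring

/-- the sum of the bounds of the levels of one block -/
lemma block_sum {par : ℕ → Par C} {q : Con} {lo hi : ℕ} {f0 : TP par → TP par} {m : ℕ}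
    (D Gs : ℝ) (hD : 1 ≤ D) (hGs : 0 ≤ Gs) (L : Fin C.h → ℝ)
    (h50 : (univ.filter fun k : Fin C.h => ¬ PinLev q f0 m (k.val + 1) ∧
      ¬ SepLev q f0 m (k.val + 1)).card ≤ 50)
    (hpin : ∀ k : Fin C.h, PinLev q f0 m (k.val + 1) → L k ≤ rigC (par m) + 1 / 100 * Gs)
    (hnp : ∀ k : Fin C.h, ¬ PinLev q f0 m (k.val + 1) → L k ≤
      ((1216 * ((gap lo hi f0 m (k.val + 1) : ℝ) + 1) + 8001) +
        D * ((if SepLev q f0 m (k.val + 1) then 0 else 1) + (bcn lo hi f0 m (k.val + 1) : ℝ)))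
        * Gs) :
    ∑ k : Fin C.h, L k ≤ (if FW q f0 m then 0 else Real.log (aR (par m) : ℝ)) +
      (1216 * ((∑ k : Fin C.h, (gap lo hi f0 m (k.val + 1) + 1) : ℕ) : ℝ) + 8001 * C.h +
        D * (50 + ((∑ k : Fin C.h, bcn lo hi f0 m (k.val + 1) : ℕ) : ℝ))) * Gs := by
  have hr := rigC_nonneg (par m)
  have hD0 : 0 ≤ D := by linarith
  -- one level
  have h1 : ∀ k : Fin C.h, L k ≤ (if PinLev q f0 m (k.val + 1) then rigC (par m) else 0) +
      ((1216 * ((gap lo hi f0 m (k.val + 1) : ℝ) + 1) + 8001) +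
        D * ((if ¬ PinLev q f0 m (k.val + 1) ∧ ¬ SepLev q f0 m (k.val + 1) then 1 else 0) +
          (bcn lo hi f0 m (k.val + 1) : ℝ))) * Gs := by
    intro k
    by_cases hp : PinLev q f0 m (k.val + 1)
    · have h2 := hpin k hp
      rw [if_pos hp, if_neg (by tauto)]
      refine h2.trans ?_
      have h3 : (0 : ℝ) ≤ (gap lo hi f0 m (k.val + 1) : ℝ) := Nat.cast_nonneg _
      have h4 : (0 : ℝ) ≤ (bcn lo hi f0 m (k.val + 1) : ℝ) := Nat.cast_nonneg _
      have h5 : 0 ≤ D * (0 + (bcn lo hi f0 m (k.val + 1) : ℝ)) := by positivity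
      have h6 : (1 / 100 : ℝ) * Gs ≤ ((1216 * ((gap lo hi f0 m (k.val + 1) : ℝ) + 1) + 8001) +
        D * (0 + (bcn lo hi f0 m (k.val + 1) : ℝ))) * Gs :=
        mul_le_mul_of_nonneg_right (by linarith) hGs
      linarith
    · have h2 := hnp k hp
      rw [if_neg hp, zero_add]
      by_cases hs : SepLev q f0 m (k.val + 1)
      · rw [if_pos hs] at h2
        rw [if_neg (by tauto)]
        exact h2
      · rw [if_neg hs] at h2
        rw [if_pos ⟨hp, hs⟩]
        exact h2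
  refine (Finset.sum_le_sum fun k _ => h1 k).trans ?_
  rw [Finset.sum_add_distrib, ← Finset.sum_mul]
  -- pinned part
  have h2 : ∑ k : Fin C.h, (if PinLev q f0 m (k.val + 1) then rigC (par m) else 0) ≤
      if FW q f0 m then 0 else Real.log (aR (par m) : ℝ) := by
    by_cases hfw : FW q f0 m
    · rw [if_pos hfw]
      apply le_of_eq
      refine Finset.sum_eq_zero fun k _ => ?_
      rw [if_neg]
      intro hp
      have hk := k.isLt
      exact hfw (k.val + 1 - 1) (by omega) hp.2.2.1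
    · rw [if_neg hfw, log_aR]
      calc ∑ k : Fin C.h, (if PinLev q f0 m (k.val + 1) then rigC (par m) else 0)
          ≤ ∑ _k : Fin C.h, rigC (par m) := by
            refine Finset.sum_le_sum fun k _ => ?_
            split_ifs
            · exact le_refl _
            · exact hr
        _ = C.h * rigC (par m) := by
            rw [Finset.sum_const, Finset.card_univ, Fintype.card_fin, nsmul_eq_mul]
  -- the others
  have h3 : ∑ k : Fin C.h, ((1216 * ((gap lo hi f0 m (k.val + 1) : ℝ) + 1) + 8001) +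
        D * ((if ¬ PinLev q f0 m (k.val + 1) ∧ ¬ SepLev q f0 m (k.val + 1) then 1 else 0) +
          (bcn lo hi f0 m (k.val + 1) : ℝ))) ≤
      1216 * ((∑ k : Fin C.h, (gap lo hi f0 m (k.val + 1) + 1) : ℕ) : ℝ) + 8001 * C.h +
        D * (50 + ((∑ k : Fin C.h, bcn lo hi f0 m (k.val + 1) : ℕ) : ℝ)) := by
    have h4 : ∑ k : Fin C.h, (if ¬ PinLev q f0 m (k.val + 1) ∧ ¬ SepLev q f0 m (k.val + 1)
        then (1 : ℝ) else 0) ≤ 50 := by
      rw [Finset.sum_boole]
      exact_mod_cast h50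
    have h5 : ∑ _k : Fin C.h, (8001 : ℝ) = 8001 * C.h := by
      rw [Finset.sum_const, Finset.card_univ, Fintype.card_fin, nsmul_eq_mul]
      ring
    have h6 : ∑ k : Fin C.h, ((gap lo hi f0 m (k.val + 1) : ℝ) + 1) =
        ((∑ k : Fin C.h, (gap lo hi f0 m (k.val + 1) + 1) : ℕ) : ℝ) := by
      push_cast
      rfl
    have h7 : ∑ k : Fin C.h, (bcn lo hi f0 m (k.val + 1) : ℝ) =
        ((∑ k : Fin C.h, bcn lo hi f0 m (k.val + 1) : ℕ) : ℝ) := by
      push_cast
      rfl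
    have h8 := mul_le_mul_of_nonneg_left h4 hD0
    rw [← h6, ← h7, ← h5]
    have h9 : ∑ k : Fin C.h, ((1216 * ((gap lo hi f0 m (k.val + 1) : ℝ) + 1) + 8001) +
        D * ((if ¬ PinLev q f0 m (k.val + 1) ∧ ¬ SepLev q f0 m (k.val + 1) then 1 else 0) +
          (bcn lo hi f0 m (k.val + 1) : ℝ))) =
        1216 * ∑ k : Fin C.h, ((gap lo hi f0 m (k.val + 1) : ℝ) + 1) + ∑ _k : Fin C.h, (8001 : ℝ) +
        D * (∑ k : Fin C.h, (if ¬ PinLev q f0 m (k.val + 1) ∧ ¬ SepLev q f0 m (k.val + 1)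
          then (1 : ℝ) else 0) + ∑ k : Fin C.h, (bcn lo hi f0 m (k.val + 1) : ℝ)) := by
      rw [Finset.mul_sum, ← Finset.sum_add_distrib, ← Finset.sum_add_distrib, Finset.mul_sum,
        ← Finset.sum_add_distrib]
    rw [h9]
    linarith
  have h4 := mul_le_mul_of_nonneg_right h3 hGs
  linarith

/-- the sum over the blocks: numbers -/
lemma total {n h : ℕ} {W : ℕ} (D Gs Sg Sb SA SF SG SGF : ℝ) (hGs : 0 ≤ Gs)
    (hD : 0 ≤ D)
    (hSg : Sg ≤ 17 * (n * (h + 2))) (hSb : Sb ≤ 16 * n)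
    (h9a : (28677 : ℝ) * (h + 2) ≤ 99 / 100 * (h * W) / 48) (h9b : 66 * D ≤ h)
    (hgain : 99 / 100 * (h * W) * SGF ≤ SF) (hfw : SG ≤ 6 * SGF) (hN : n * Gs / 8 ≤ SG) :
    (SA - SF) + (1216 * Sg + 8001 * h * n + D * (50 * n + Sb)) * Gs ≤
      SA - (1 + 1 / 100) * (n * Gs) := by
  have hn0 : (0 : ℝ) ≤ n := Nat.cast_nonneg _
  have hh0 : (0 : ℝ) ≤ h := Nat.cast_nonneg _
  have hW0 : (0 : ℝ) ≤ W := Nat.cast_nonneg _
  have hx : 0 ≤ (n : ℝ) * Gs := mul_nonneg hn0 hGs
  -- gain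
  have h1 : n * Gs / 48 ≤ SGF := by linarith
  have h2 : (99 / 100 * (h * W)) * (n * Gs / 48) ≤ SF := by
    refine le_trans ?_ hgain
    exact mul_le_mul_of_nonneg_left h1 (by positivity)
  have h3 : (28677 : ℝ) * (h + 2) * (n * Gs) ≤ SF := by
    refine le_trans ?_ h2
    have := mul_le_mul_of_nonneg_right h9a hx
    linarith
  -- overhead
  have h4 : (1216 * Sg + 8001 * h * n + D * (50 * n + Sb)) * Gs ≤
      (28674 * (h + 2)) * (n * Gs) := by
    have h5 : D * (50 * n + Sb) ≤ D * (66 * n) := mul_le_mul_of_nonneg_left (by linarith) hD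
    have h6 : D * (66 * n) ≤ h * n := by
      have := mul_le_mul_of_nonneg_right h9b hn0
      linarith
    have h7 : 1216 * Sg + 8001 * h * n + D * (50 * n + Sb) ≤ 28674 * (h + 2) * n := by
      nlinarith
    have := mul_le_mul_of_nonneg_right h7 hGs
    linarith
  nlinarith [mul_nonneg hh0 hx]

end KTaux

open KTaux in
/-- THE MAIN INEQUALITY (5.6) -/
theorem KT (c : PC) (q : Con) (hc : c.Ok q) : ∀ᶠ m0 in Filter.atTop,
    ∀ (le : ∀ m, Pt (c.bl m0 m) → Pt (c.bl m0 m) → Prop) (lo hi : ℕ) (b : Prop), lo ≤ hi →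
      (b → lo = 0 ∧ 0 < hi) → GoodTow q (c.bl m0) (c.tf m0) le lo hi →
      ((FreeSet le lo hi b).ncard : ℝ) ≤
        Real.exp (-(((hi + 1 - lo : ℕ) : ℝ) * c.G (c.tf m0 hi))) *
          ∏ m ∈ Icc lo hi, (aR (c.bl m0 m) : ℝ) := by
  filter_upwards [lev_bound c q hc, ev7 c q hc] with m0 hlev hev
  intro le lo hi b hlh hb hG
  have hq : q.Ok := hc.con
  obtain ⟨-, -, -, -, hs1, hs2, hgain, hGm, hN2⟩ := hev lo hi hlh
  obtain ⟨hs9a, hs9b, -⟩ := s9 c q hc
  set Gs : ℝ := c.G (c.tf m0 hi) with hGs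
  have hGs0 : 0 ≤ Gs := c.G_nonneg _
  set F := FreeSet le lo hi b with hF
  have hFE : F ⊆ EndSet le lo hi b := fun f hf => hf.1
  set n : ℕ := hi + 1 - lo with hn
  have hcard : (Icc lo hi).card = n := by rw [Nat.card_Icc]
  set D : ℝ := 41 / 10 * (c.lam : ℝ) ^ (c.W - 1) + 1 with hD
  have hD1 : 1 ≤ D := by
    have : (0 : ℝ) ≤ 41 / 10 * (c.lam : ℝ) ^ (c.W - 1) := by positivity
    linarith
  have hch : c.cst.h = c.h := rfl
  have key : ∀ f0 ∈ F, ∑ m ∈ Icc lo hi, ∑ k : Fin c.cst.h, LS lo hi b F f0 m k ≤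
      ∑ m ∈ Icc lo hi, Real.log (aR (c.bl m0 m) : ℝ) - (1 + 1 / 100) * (n * Gs) := by
    intro f0 hf0
    have hf0E : Endo le lo hi b f0 := hf0.1.1
    have hblk : ∀ m ∈ Icc lo hi, ∑ k : Fin c.cst.h, LS lo hi b F f0 m k ≤
        (if FW q f0 m then 0 else Real.log (aR (c.bl m0 m) : ℝ)) +
        (1216 * ((∑ k : Fin c.cst.h, (gap lo hi f0 m (k.val + 1) + 1) : ℕ) : ℝ) + 8001 * c.cst.h +
          D * (50 + ((∑ k : Fin c.cst.h, bcn lo hi f0 m (k.val + 1) : ℕ) : ℝ))) * Gs := by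
      intro m hm
      rw [Finset.mem_Icc] at hm
      by_cases hd : (c.tf m0 m) ^ 2 < c.tf m0 hi
      · -- shallow
        have h1 := hs2 m hm.1 hm.2 hd
        have h2 : ∑ k : Fin c.cst.h, LS lo hi b F f0 m k ≤
            (c.h : ℝ) * ∑ j, ((c.bl m0 m).N j : ℝ) * (4 * (c.bl m0 m).T j * c.cst.K j *
              Real.log (cardT (c.bl m0) lo hi : ℝ)) := by
          calc ∑ k : Fin c.cst.h, LS lo hi b F f0 m k
              ≤ ∑ _k : Fin c.cst.h, ∑ j, ((c.bl m0 m).N j : ℝ) * (4 * (c.bl m0 m).T j * c.cst.K j *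
                Real.log (cardT (c.bl m0) lo hi : ℝ)) :=
                Finset.sum_le_sum fun k _ => ls_triv hFE hm.1 hm.2 k
            _ = _ := by
                rw [Finset.sum_const, Finset.card_univ, Fintype.card_fin, nsmul_eq_mul, hch]
        have h3 : 0 ≤ (if FW q f0 m then 0 else Real.log (aR (c.bl m0 m) : ℝ)) := by
          split_ifs
          · exact le_refl _
          · exact Real.log_natCast_nonneg _
        have h4 : (1 / 100 : ℝ) * Gs ≤
          (1216 * ((∑ k : Fin c.cst.h, (gap lo hi f0 m (k.val + 1) + 1) : ℕ) : ℝ) + 8001 * c.cst.h +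
          D * (50 + ((∑ k : Fin c.cst.h, bcn lo hi f0 m (k.val + 1) : ℕ) : ℝ))) * Gs := by
          apply mul_le_mul_of_nonneg_right _ hGs0
          have h5 : (0 : ℝ) ≤
            ((∑ k : Fin c.cst.h, (gap lo hi f0 m (k.val + 1) + 1) : ℕ) : ℝ) := Nat.cast_nonneg _
          have h6 : (0 : ℝ) ≤
            ((∑ k : Fin c.cst.h, bcn lo hi f0 m (k.val + 1) : ℕ) : ℝ) := Nat.cast_nonneg _
          have h7 : (0 : ℝ) ≤ (c.cst.h : ℝ) := Nat.cast_nonneg _
          have h8 : 1 * (50 + 0) ≤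
            D * (50 + ((∑ k : Fin c.cst.h, bcn lo hi f0 m (k.val + 1) : ℕ) : ℝ)) :=
            mul_le_mul hD1 (by linarith) (by norm_num) (by linarith)
          linarith
        linarith
      · -- deep
        push Not at hd
        have hl := hlev le lo hi b hlh hG F hFE f0 hf0 m hm.1 hm.2 hd
        exact block_sum D Gs hD1 hGs0 _
          (trans_count hG.blk hq hf0E hm.1 hm.2)
          (fun k => (hl k).1) (fun k => (hl k).2)
    refine (Finset.sum_le_sum hblk).trans ?_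
    rw [Finset.sum_add_distrib, ← Finset.sum_mul]
    -- the sum of the overheads
    have hmono := gm_mono hG hq hlh hf0E
    have hle := fun a => gm_le (C := c.cst) (par := c.bl m0) (f0 := f0) hlh a
    have hg := sum_gap (C := c.cst) hlh hmono hle
    have hbc := sum_bcn (C := c.cst) hlh hmono hle
    have hgR : ((∑ m ∈ Icc lo hi, ∑ k : Fin c.cst.h, (gap lo hi f0 m (k.val + 1) + 1) : ℕ) : ℝ) ≤
        17 * (n * (c.h + 2)) := by
      exact_mod_cast hg
    have hbR : ((∑ m ∈ Icc lo hi, ∑ k : Fin c.cst.h, bcn lo hi f0 m (k.val + 1) : ℕ) : ℝ) ≤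
        16 * n := by
      exact_mod_cast hbc
    have hsum : ∑ m ∈ Icc lo hi,
        (1216 * ((∑ k : Fin c.cst.h, (gap lo hi f0 m (k.val + 1) + 1) : ℕ) : ℝ) + 8001 * c.cst.h +
          D * (50 + ((∑ k : Fin c.cst.h, bcn lo hi f0 m (k.val + 1) : ℕ) : ℝ))) =
        1216 * ((∑ m ∈ Icc lo hi, ∑ k : Fin c.cst.h, (gap lo hi f0 m (k.val + 1) + 1) : ℕ) : ℝ) +
          8001 * c.h * n +
          D * (50 * n +
            ((∑ m ∈ Icc lo hi, ∑ k : Fin c.cst.h, bcn lo hi f0 m (k.val + 1) : ℕ) : ℝ)) := by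
      have e1 : 8001 * (c.h : ℝ) * n = ∑ _m ∈ Icc lo hi, 8001 * (c.cst.h : ℝ) := by
        rw [Finset.sum_const, hcard, nsmul_eq_mul]
        simp only [hch]
        ring
      have e2 : 50 * (n : ℝ) = ∑ _m ∈ Icc lo hi, (50 : ℝ) := by
        rw [Finset.sum_const, hcard, nsmul_eq_mul]
        ring
      rw [e1, e2, Nat.cast_sum, Nat.cast_sum, Finset.mul_sum, ← Finset.sum_add_distrib,
        ← Finset.sum_add_distrib, Finset.mul_sum, ← Finset.sum_add_distrib]
    rw [hsum]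
    -- the gain
    have hb' : b → lo < hi := fun h => by
      obtain ⟨h1, h2⟩ := hb h
      omega
    have hfw := fw_charge hq hG.blk hf0E hf0.2 hlh hb' (fun m => c.G (c.tf m0 m))
      (fun m => c.G_nonneg _) (fun m => (hGm m).1) (fun m => (hGm m).2)
    have hSF : 99 / 100 * ((c.h : ℝ) * c.W) *
        ∑ m ∈ (Icc lo hi).filter (fun m => FW q f0 m), c.G (c.tf m0 m) ≤
        ∑ m ∈ (Icc lo hi).filter (fun m => FW q f0 m), Real.log (aR (c.bl m0 m) : ℝ) := by
      rw [Finset.mul_sum]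
      exact Finset.sum_le_sum fun m _ => hgain m
    have hsplit : ∑ m ∈ Icc lo hi, (if FW q f0 m then 0 else Real.log (aR (c.bl m0 m) : ℝ)) =
        ∑ m ∈ Icc lo hi, Real.log (aR (c.bl m0 m) : ℝ) -
          ∑ m ∈ (Icc lo hi).filter (fun m => FW q f0 m), Real.log (aR (c.bl m0 m) : ℝ) := by
      rw [Finset.sum_filter, ← Finset.sum_sub_distrib]
      refine Finset.sum_congr rfl fun m _ => ?_
      split_ifs
      · ring
      · ring
    rw [hsplit]
    exact total (n := n) (h := c.h) (W := c.W) D Gs _ _ _ _ _ _ hGs0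
      (by linarith) hgR hbR hs9a hs9b hSF hfw hN2
  have h1 := fib_LS le lo hi b F hFE _ key
  refine h1.trans ?_
  have hcT : (0 : ℝ) < (cardT (c.bl m0) lo hi : ℝ) := by
    have : 0 < cardT (c.bl m0) lo hi := by unfold cardT; omega
    exact_mod_cast this
  have h2 : (cardT (c.bl m0) lo hi : ℝ) ^ (cardF (c.bl m0) lo hi) =
      Real.exp ((cardF (c.bl m0) lo hi : ℝ) * Real.log (cardT (c.bl m0) lo hi : ℝ)) := by
    rw [mul_comm, Real.exp_mul, Real.exp_log hcT, Real.rpow_natCast]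
  have h3 : ∏ m ∈ Icc lo hi, (aR (c.bl m0 m) : ℝ) =
      Real.exp (∑ m ∈ Icc lo hi, Real.log (aR (c.bl m0 m) : ℝ)) := by
    rw [Real.exp_sum]
    refine Finset.prod_congr rfl fun m _ => ?_
    rw [Real.exp_log]
    exact_mod_cast aR_pos _
  rw [h2, h3, ← Real.exp_add, ← Real.exp_add]
  apply Real.exp_le_exp.2
  linarith

end Pool.Agent.AM
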