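import Pool.Agent.AM.Defs

set_option autoImplicit false

/-!
# AM/Num95: basic numbers of the blocks
-/

open scoped Classical
open Finset Filter

noncomputable section

namespace Pool.Agent.AM

section basic

variable {c : PC} {q : Con}

theorem PC.Ok.lam_pos (h : c.Ok q) : 1 ≤ c.lam := by rw [h.lam]; norm_num

theorem PC.Ok.W_pos (h : c.Ok q) : 1 ≤ c.W := by rw [h.W]; norm_num

theorem PC.Ok.L_pos (h : c.Ok q) : 1 ≤ c.lam ^ (c.W - 1) := Nat.one_le_pow _ _ h.lam_pos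

theorem PC.Ok.lamj_le (h : c.Ok q) (j : ℕ) (hj : j < c.W) : c.lam ^ j ≤ c.lam ^ (c.W - 1) :=
  Nat.pow_le_pow_right h.lam_pos (by omega)

theorem PC.Ok.h_ge (h : c.Ok q) : 10000 ≤ c.h := by
  have h1 := h.h
  omega

theorem PC.Ok.L_le_E (h : c.Ok q) : 100 * (c.lam ^ (c.W - 1) * (c.h + 2)) ≤ c.E := h.E.ge

theorem PC.Ok.lamj_lt_E (h : c.Ok q) (j : ℕ) (hj : j < c.W) : 200 * c.lam ^ j ≤ c.E := by
  have h1 := h.lamj_le j hj
  have h2 := h.L_le_E
  have h3 : c.lam ^ (c.W - 1) * 2 ≤ c.lam ^ (c.W - 1) * (c.h + 2) :=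
    Nat.mul_le_mul_left _ (by omega)
  omega

theorem PC.Ok.E_ge (h : c.Ok q) : 1000000 ≤ c.E := by
  have h1 := h.L_le_E
  have h2 := h.L_pos
  have h3 := h.h_ge
  have h4 : 1 * (10000 + 2) ≤ c.lam ^ (c.W - 1) * (c.h + 2) := Nat.mul_le_mul h2 (by omega)
  omega

theorem PC.Ok.Kst_pos (h : c.Ok q) : 1 ≤ c.Kst := by
  have h1 := h.Kst
  have h2 := h.E_ge
  omega

theorem PC.K_pos (h : c.Ok q) (j : Fin c.W) : 1 ≤ c.cst.K j := by
  have h1 := h.Kst_pos
  have h2 : 1 ≤ (2 * c.lam) ^ (c.W - 1 - j.val) :=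
    Nat.one_le_pow _ _ (by have := h.lam_pos; omega)
  exact Nat.mul_le_mul h1 h2

end basic

/-- `N_j T_j = 2^j t^E`. -/
theorem PC.NT {c : PC} {q : Con} (h : c.Ok q) (t : ℕ) (j : Fin c.W) :
    (c.par t).N j * (c.par t).T j = 2 ^ j.val * t ^ c.E := by
  have h1 := h.lamj_lt_E j.val j.isLt
  show 2 ^ j.val * t ^ (c.E - c.lam ^ j.val) * t ^ (c.lam ^ j.val) = _
  rw [mul_assoc, ← pow_add, Nat.sub_add_cancel (by omega)]

theorem PC.logT (c : PC) (t : ℕ) (j : Fin c.W) :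
    Real.log ((c.par t).T j) = (c.lam : ℝ) ^ j.val * Real.log t := by
  show Real.log ((t ^ (c.lam ^ j.val) : ℕ) : ℝ) = _
  rw [Nat.cast_pow, Real.log_pow]
  push_cast
  ring

/-- The balance `N_j K_j T_j log T_j = G(t)`. -/
theorem PC.balance {c : PC} {q : Con} (h : c.Ok q) (t : ℕ) (j : Fin c.W) :
    ((c.par t).N j : ℝ) * (c.cst.K j : ℝ) * ((c.par t).T j : ℝ) * Real.log ((c.par t).T j)
      = c.G t := by
  have h1 : ((c.par t).N j : ℝ) * ((c.par t).T j : ℝ) = 2 ^ j.val * (t : ℝ) ^ c.E := by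
    exact_mod_cast PC.NT h t j
  have h2 : (c.cst.K j : ℝ) = c.Kst * (2 * c.lam : ℝ) ^ (c.W - 1 - j.val) := by
    show ((c.Kst * (2 * c.lam) ^ (c.W - 1 - j.val) : ℕ) : ℝ) = _
    push_cast
    ring
  have h3 : (2 * c.lam : ℝ) ^ (c.W - 1) = (2 * c.lam : ℝ) ^ (c.W - 1 - j.val) * (2 * c.lam) ^ j.val := by
    rw [← pow_add]
    congr 1
    have := j.isLt
    omega
  rw [PC.logT, h2]
  unfold PC.G
  rw [h3, mul_pow (2 : ℝ) (c.lam : ℝ) j.val]
  calc ((c.par t).N j : ℝ) * (c.Kst * (2 * c.lam : ℝ) ^ (c.W - 1 - j.val)) * ((c.par t).T j : ℝ)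
        * ((c.lam : ℝ) ^ j.val * Real.log t)
      = (((c.par t).N j : ℝ) * ((c.par t).T j : ℝ)) * (c.Kst * (2 * c.lam : ℝ) ^ (c.W - 1 - j.val))
        * ((c.lam : ℝ) ^ j.val * Real.log t) := by ring
    _ = _ := by rw [h1]; ring

/-- `K_i λ^i = 2^(j-i) K_j λ^j` for `i ≤ j`. -/
theorem PC.K_ratio (c : PC) (i j : Fin c.W) (hij : i ≤ j) :
    c.cst.K i * c.lam ^ i.val = 2 ^ (j.val - i.val) * (c.cst.K j * c.lam ^ j.val) := by
  show c.Kst * (2 * c.lam) ^ (c.W - 1 - i.val) * c.lam ^ i.val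
    = 2 ^ (j.val - i.val) * (c.Kst * (2 * c.lam) ^ (c.W - 1 - j.val) * c.lam ^ j.val)
  have hij' : i.val ≤ j.val := hij
  have hj := j.isLt
  have h1 : c.W - 1 - i.val = (c.W - 1 - j.val) + (j.val - i.val) := by omega
  have h2 : j.val = i.val + (j.val - i.val) := by omega
  rw [h1, pow_add, mul_pow 2 c.lam (j.val - i.val)]
  conv_rhs => rw [h2]
  rw [show i.val + (j.val - i.val) - i.val = j.val - i.val by omega, pow_add c.lam]
  rw [← h2]
  ring

/-- `N_i T_i K_j log T_j ≤ 2^(i-j) G`, exactly: `2^(j-i) N_i T_i K_j log T_j = G` for `i ≤ j`. -/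
theorem PC.balance2 {c : PC} {q : Con} (h : c.Ok q) (t : ℕ) (i j : Fin c.W) (hij : i ≤ j) :
    2 ^ (j.val - i.val) * (((c.par t).N i : ℝ) * ((c.par t).T i : ℝ) * (c.cst.K j : ℝ)
      * Real.log ((c.par t).T j)) = c.G t := by
  have h1 := PC.balance h t i
  have h2 : (c.cst.K i : ℝ) * (c.lam : ℝ) ^ i.val
      = 2 ^ (j.val - i.val) * ((c.cst.K j : ℝ) * (c.lam : ℝ) ^ j.val) := by
    exact_mod_cast PC.K_ratio c i j hij
  rw [PC.logT] at h1 ⊢
  rw [← h1]
  calc 2 ^ (j.val - i.val) * (((c.par t).N i : ℝ) * ((c.par t).T i : ℝ) * (c.cst.K j : ℝ)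
        * ((c.lam : ℝ) ^ j.val * Real.log t))
      = ((c.par t).N i : ℝ) * ((c.par t).T i : ℝ)
        * (2 ^ (j.val - i.val) * ((c.cst.K j : ℝ) * (c.lam : ℝ) ^ j.val)) * Real.log t := by ring
    _ = _ := by rw [← h2]; ring

/-- `t n ≤ d N_j`. -/
theorem PC.dN {c : PC} {q : Con} (h : c.Ok q) {t : ℕ} (ht : 1 ≤ t) (j : Fin c.W) :
    t * (c.par t).n ≤ (c.par t).d * (c.par t).N j := by
  have h1 := h.lamj_lt_E j.val j.isLt
  have h2 := h.lamj_le j.val j.isLt
  have h3 := h.E_ge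
  show t * t ^ (c.E - 1) ≤ t ^ (c.lam ^ (c.W - 1)) * (2 ^ j.val * t ^ (c.E - c.lam ^ j.val))
  have h4 : t * t ^ (c.E - 1) = t ^ c.E := by
    rw [← pow_succ']
    congr 1
    omega
  have h5 : t ^ c.E ≤ t ^ (c.lam ^ (c.W - 1)) * t ^ (c.E - c.lam ^ j.val) := by
    rw [← pow_add]
    exact Nat.pow_le_pow_right ht (by omega)
  rw [h4]
  calc t ^ c.E ≤ t ^ (c.lam ^ (c.W - 1)) * t ^ (c.E - c.lam ^ j.val) := h5
    _ ≤ t ^ (c.lam ^ (c.W - 1)) * (2 ^ j.val * t ^ (c.E - c.lam ^ j.val)) :=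
      Nat.mul_le_mul_left _ (Nat.le_mul_of_pos_left _ (by positivity))

theorem PC.T_ge {c : PC} {q : Con} (h : c.Ok q) {t : ℕ} (ht : 1 ≤ t) (j : Fin c.W) :
    t ≤ (c.par t).T j := by
  show t ≤ t ^ (c.lam ^ j.val)
  calc t = t ^ 1 := (pow_one t).symm
    _ ≤ t ^ (c.lam ^ j.val) := Nat.pow_le_pow_right ht (Nat.one_le_pow _ _ h.lam_pos)

/-- `log (T!) ≥ T log T - T`. -/
theorem log_factorial_ge (T : ℕ) : (T : ℝ) * Real.log T - T ≤ Real.log (T.factorial) := by
  rcases Nat.eq_zero_or_pos T with h0 | h0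
  · subst h0
    simp
  · have hT : (0 : ℝ) < T := by exact_mod_cast h0
    have h1 : (T : ℝ) ^ T / (T.factorial : ℝ) ≤ Real.exp T :=
      Real.pow_div_factorial_le_exp T hT.le T
    have hf : (0 : ℝ) < (T.factorial : ℝ) := by exact_mod_cast Nat.factorial_pos T
    rw [div_le_iff₀ hf] at h1
    have h2 := Real.log_le_log (by positivity) h1
    rw [Real.log_pow, Real.log_mul (Real.exp_pos _).ne' hf.ne', Real.log_exp] at h2
    linarith

/-- `log a(Y) ≥ (1 - 1/log t) h W G(t)`. -/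
theorem PC.log_aR_ge {c : PC} {q : Con} (h : c.Ok q) {t : ℕ} (ht : 3 ≤ t) :
    (1 - 1 / Real.log t) * (c.h * c.W * c.G t) ≤ Real.log (aR (c.par t)) := by
  have ht0 : (1 : ℝ) < t := by
    have : 1 < t := by omega
    exact_mod_cast this
  have hl : 0 < Real.log t := Real.log_pos ht0
  have h1 : Real.log (aR (c.par t)) = ∑ j : Fin c.W,
      (c.h * (c.par t).N j * c.cst.K j : ℝ) * Real.log ((c.par t).T j).factorial := by
    unfold aR
    rw [Nat.cast_prod, Real.log_prod]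
    · apply Finset.sum_congr rfl
      intro j _
      rw [Nat.cast_pow, Real.log_pow]
      push_cast
      rfl
    · intro j _
      have : 0 < ((c.par t).T j).factorial ^ (c.cst.h * (c.par t).N j * c.cst.K j) :=
        Nat.pow_pos (Nat.factorial_pos _)
      exact_mod_cast this.ne'
  rw [h1]
  have h2 : ∀ j : Fin c.W, (1 - 1 / Real.log t) * (c.h * c.G t)
      ≤ (c.h * (c.par t).N j * c.cst.K j : ℝ) * Real.log ((c.par t).T j).factorial := by
    intro j
    have h3 := log_factorial_ge ((c.par t).T j)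
    have h4 : (0 : ℝ) ≤ (c.h * (c.par t).N j * c.cst.K j : ℝ) := by positivity
    have h5 := mul_le_mul_of_nonneg_left h3 h4
    refine le_trans ?_ h5
    have h6 := PC.balance h t j
    have hlam : (1 : ℝ) ≤ (c.lam : ℝ) ^ j.val := by
      have : 1 ≤ c.lam ^ j.val := Nat.one_le_pow _ _ h.lam_pos
      exact_mod_cast this
    have h7 : ((c.par t).T j : ℝ) ≤ ((c.par t).T j : ℝ) * Real.log ((c.par t).T j) / Real.log t := by
      rw [PC.logT, le_div_iff₀ hl]
      have h8 : (0 : ℝ) ≤ ((c.par t).T j : ℝ) * Real.log t := by positivity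
      nlinarith
    calc (1 - 1 / Real.log t) * (c.h * c.G t)
        = c.h * (((c.par t).N j : ℝ) * (c.cst.K j : ℝ) * ((c.par t).T j : ℝ)
            * Real.log ((c.par t).T j))
          - c.h * (((c.par t).N j : ℝ) * (c.cst.K j : ℝ)) *
            (((c.par t).T j : ℝ) * Real.log ((c.par t).T j) / Real.log t) := by
          rw [← h6]
          field_simp
      _ ≤ c.h * (((c.par t).N j : ℝ) * (c.cst.K j : ℝ) * ((c.par t).T j : ℝ)
            * Real.log ((c.par t).T j))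
          - c.h * (((c.par t).N j : ℝ) * (c.cst.K j : ℝ)) * ((c.par t).T j : ℝ) := by
          have h9 : (0 : ℝ) ≤ c.h * (((c.par t).N j : ℝ) * (c.cst.K j : ℝ)) := by positivity
          have := mul_le_mul_of_nonneg_left h7 h9
          linarith
      _ = _ := by ring
  calc (1 - 1 / Real.log t) * (c.h * c.W * c.G t)
      = ∑ _j : Fin c.W, (1 - 1 / Real.log t) * (c.h * c.G t) := by
        rw [Finset.sum_const, Finset.card_univ, Fintype.card_fin, nsmul_eq_mul]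
        ring
    _ ≤ _ := Finset.sum_le_sum fun j _ => h2 j

theorem PC.G_nonneg (c : PC) (t : ℕ) : 0 ≤ c.G t := by
  unfold PC.G
  have := Real.log_natCast_nonneg t
  positivity

/-- `log a(Y) ≥ 0.9 h W G(t)` for large `t`. -/
theorem PC.log_aR_ge' {c : PC} {q : Con} (h : c.Ok q) :
    ∀ᶠ t : ℕ in atTop, 9 / 10 * (c.h * c.W * c.G t) ≤ Real.log (aR (c.par t)) := by
  have h1 : ∀ᶠ t : ℕ in atTop, (10 : ℝ) ≤ Real.log t :=
    (Real.tendsto_log_atTop.comp tendsto_natCast_atTop_atTop).eventually_ge_atTop 10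
  filter_upwards [h1, eventually_ge_atTop 3] with t ht ht3
  refine le_trans ?_ (PC.log_aR_ge h ht3)
  apply mul_le_mul_of_nonneg_right
  · have : 1 / Real.log t ≤ 1 / 10 := one_div_le_one_div_of_le (by norm_num) ht
    linarith
  · have := c.G_nonneg t
    positivity

/-- number of points of a block -/
theorem PC.card_Pt (c : PC) (t : ℕ) : Fintype.card (Pt (c.par t))
    = (c.h + 2) * (c.par t).n + ∑ j : Fin c.W, c.h * (c.par t).N j * (c.cst.K j * (4 * (c.par t).T j)) := by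
  rw [Fintype.card_congr (ptEquiv (c.par t)), Fintype.card_sum, Fintype.card_prod, Fintype.card_fin,
    Fintype.card_fin, Fintype.card_sigma]
  congr 1
  rw [← Equiv.sum_comp (cellEquiv (c.par t)).symm, Fintype.sum_sigma]
  apply Finset.sum_congr rfl
  intro j _
  have h4 : Fintype.card Srt = 4 := rfl
  have : ∀ x : Fin c.cst.h × Fin ((c.par t).N j),
      Fintype.card (CI (c.par t) ((cellEquiv (c.par t)).symm ⟨j, x⟩).j)
        = c.cst.K j * (4 * (c.par t).T j) := by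
    intro x
    show Fintype.card (Fin (c.cst.K j) × Srt × Fin ((c.par t).T j)) = _
    rw [Fintype.card_prod, Fintype.card_prod, Fintype.card_fin, Fintype.card_fin, h4]
  rw [Finset.sum_congr rfl fun x _ => this x, Finset.sum_const, Finset.card_univ,
    Fintype.card_prod, Fintype.card_fin, Fintype.card_fin, smul_eq_mul]
  rfl

/-- `|Y| ≤ t^(E+2)`, even with a factor `t` to spare. -/
theorem PC.card_Pt_le {c : PC} {q : Con} (h : c.Ok q) :
    ∀ᶠ t : ℕ in atTop, Fintype.card (Pt (c.par t)) + 1 ≤ t ^ (c.E + 1) := by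
  set B : ℕ := (c.h + 2) + ∑ j : Fin c.W, c.h * (2 ^ j.val * (c.cst.K j * 4)) with hB
  filter_upwards [eventually_ge_atTop (B + 1)] with t ht
  have ht1 : 1 ≤ t := by omega
  have h1 : Fintype.card (Pt (c.par t)) ≤ B * t ^ c.E := by
    rw [PC.card_Pt, hB, add_mul (c.h + 2), Finset.sum_mul]
    apply Nat.add_le_add
    · apply Nat.mul_le_mul_left
      exact Nat.pow_le_pow_right ht1 (Nat.sub_le _ _)
    · apply Finset.sum_le_sum
      intro j _
      apply le_of_eq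
      have h2 := PC.NT h t j
      calc c.h * (c.par t).N j * (c.cst.K j * (4 * (c.par t).T j))
          = c.h * c.cst.K j * 4 * ((c.par t).N j * (c.par t).T j) := by ring
        _ = _ := by rw [h2]; ring
  have h2 : 1 ≤ t ^ c.E := Nat.one_le_pow _ _ ht1
  calc Fintype.card (Pt (c.par t)) + 1 ≤ B * t ^ c.E + t ^ c.E := Nat.add_le_add h1 h2
    _ = (B + 1) * t ^ c.E := by ring
    _ ≤ t * t ^ c.E := Nat.mul_le_mul_right _ ht
    _ = t ^ (c.E + 1) := by rw [pow_succ']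

end Pool.Agent.AM
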