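import Pool.Agent.AM.Defs2
import Pool.Agent.AM.OrdBlk
import Pool.Agent.AM.Path
import Pool.Agent.AM.PrBasic

set_option autoImplicit false

open scoped Classical
open Finset

noncomputable section

namespace Pool.Agent.AM

namespace RelXP

variable {C : Cst} {p p' : Par C}

/-- a pick of a frame point lies above it -/
theorem le_pick (ω : Om p) (k : Fin (C.h + 1)) (x : Fin p.n) (i : Fin p.d) :
    Le ω (V p k.val x) (V p (k.val + 1) (ω (.fu k x) i)) :=
  Relation.ReflTransGen.single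
    (Step.up (R := ∅) (.fu k x) (by simp) rfl (V p k.val x) rfl i)

/-- the forbidden targets of the rows -/
def Zf (le' : Pt p' → Pt p' → Prop) (U : Finset (Fin p.n)) (a b : Fin p.n → Pt p') :
    Row p → Finset (Fin p.n)
  | .fu _ x => U.filter fun u => ¬ le' (a x) (b u)
  | _ => ∅

theorem fix_bound (hn : 0 < p.n) (le' : Pt p' → Pt p' → Prop) (d2 : ℝ)
    (k : Fin (C.h + 1)) (X U : Finset (Fin p.n)) (a b : Fin p.n → Pt p') :
    Pr (fun ω : Om p => (∀ x ∈ X, ∀ u ∈ U, Le ω (V p k.val x) (V p (k.val + 1) u) →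
        le' (a x) (b u)) ∧
      d2 * (p.n : ℝ) ^ 2 < (((X ×ˢ U).filter fun xu => ¬ le' (a xu.1) (b xu.2)).card : ℝ))
      ≤ Real.exp (-(p.d : ℝ) * (d2 * p.n)) := by
  have hn' : (0 : ℝ) < p.n := by exact_mod_cast hn
  by_cases hb : d2 * (p.n : ℝ) ^ 2 <
      (((X ×ˢ U).filter fun xu => ¬ le' (a xu.1) (b xu.2)).card : ℝ)
  · have h1 := Pr_no_hit (ι := Row p) (d := p.d) (n := p.n) hn
      (X.image fun x => Row.fu (p := p) k x) (Zf le' U a b)
    refine le_trans (Pr_mono ?_) (h1.trans ?_)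
    · rintro ω ⟨hω, _⟩ r hr i
      obtain ⟨x, hx, rfl⟩ := Finset.mem_image.1 hr
      simp only [Zf, Finset.mem_filter, not_and, not_not]
      intro hu
      exact hω x hx _ hu (le_pick ω k x i)
    · apply Real.exp_le_exp.2
      have h2 : ∑ r ∈ X.image (fun x => Row.fu (p := p) k x), ((Zf le' U a b r).card : ℝ)
          = (((X ×ˢ U).filter fun xu => ¬ le' (a xu.1) (b xu.2)).card : ℝ) := by
        rw [Finset.sum_image (by
          intro x _ y _ hxy
          simpa using hxy)]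
        rw [Finset.card_filter, Finset.sum_product]
        push_cast
        refine Finset.sum_congr rfl fun x _ => ?_
        simp only [Zf]
        rw [Finset.card_filter]
        push_cast
        rfl
      rw [h2]
      have h3 : d2 * p.n ≤
          (((X ×ˢ U).filter fun xu => ¬ le' (a xu.1) (b xu.2)).card : ℝ) / p.n := by
        rw [le_div_iff₀ hn']
        nlinarith [hb]
      have h4 : (0 : ℝ) ≤ p.d := Nat.cast_nonneg _
      have h5 := mul_le_mul_of_nonneg_left h3 h4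
      rw [neg_mul, neg_mul, neg_div, mul_div_assoc]
      linarith
  · refine le_trans (le_trans (Pr_mono (T := fun _ => False) ?_) (le_of_eq ?_))
      (Real.exp_nonneg _)
    · rintro ω ⟨_, h⟩
      exact hb h
    · simp [Pr]

/-- the bound for one pair of blocks -/
theorem rel_bound (hn : 0 < p.n) (le' : Pt p' → Pt p' → Prop) (q : Con) :
    Pr (fun ω : Om p => ¬ RelX q p p' (Le ω) le') ≤
      ((C.h + 1 : ℕ) * (2 ^ p.n * (2 ^ p.n * ((Fintype.card (Pt p')) ^ p.n *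
        (Fintype.card (Pt p')) ^ p.n))) : ℝ) * Real.exp (-(p.d : ℝ) * (q.d2 * p.n)) := by
  have h1 := Pr_exists (Ω := Om p)
    (ι := Fin (C.h + 1) × Finset (Fin p.n) × Finset (Fin p.n) × (Fin p.n → Pt p') ×
      (Fin p.n → Pt p'))
    (fun i ω => (∀ x ∈ i.2.1, ∀ u ∈ i.2.2.1, Le ω (V p i.1.val x) (V p (i.1.val + 1) u) →
        le' (i.2.2.2.1 x) (i.2.2.2.2 u)) ∧
      q.d2 * (p.n : ℝ) ^ 2 < (((i.2.1 ×ˢ i.2.2.1).filter fun xu =>
        ¬ le' (i.2.2.2.1 xu.1) (i.2.2.2.2 xu.2)).card : ℝ))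
    (Real.exp (-(p.d : ℝ) * (q.d2 * p.n)))
    (fun i => fix_bound hn le' q.d2 i.1 i.2.1 i.2.2.1 i.2.2.2.1 i.2.2.2.2)
  refine le_trans (Pr_mono ?_) (h1.trans (le_of_eq ?_))
  · intro ω hω
    unfold RelX at hω
    push Not at hω
    obtain ⟨k, hk, X, U, a, b, h2, h3⟩ := hω
    exact ⟨(⟨k, Nat.lt_succ_of_le hk⟩, X, U, a, b), h2, h3⟩
  · congr 1
    simp only [Fintype.card_prod, Fintype.card_fin, Fintype.card_finset, Fintype.card_fun]
    push_cast
    ring

theorem ev_lin (A B δ : ℝ) (hδ : 0 < δ) :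
    ∀ᶠ t : ℕ in Filter.atTop, A + B * Real.log (t : ℝ) ≤ δ * t := by
  have h1 : (fun x : ℝ => A + B * Real.log x) =o[Filter.atTop] (id : ℝ → ℝ) :=
    (Asymptotics.isLittleO_const_id_atTop A).add
      (Real.isLittleO_log_id_atTop.const_mul_left B)
  have h2 := (h1.bound hδ)
  have h3 := tendsto_natCast_atTop_atTop (R := ℝ) |>.eventually h2
  filter_upwards [h3] with t ht
  have h4 : ‖id (t : ℝ)‖ = (t : ℝ) := by
    simp
  rw [h4] at ht
  exact (le_abs_self _).trans ht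

end RelXP

open RelXP in
/-- (R), target a different block -/
theorem pr_relX (c : PC) (q : Con) (hc : c.Ok q) : ∀ᶠ t in Filter.atTop,
    ∀ (p' : Par c.cst) (le' : Pt p' → Pt p' → Prop), Fintype.card (Pt p') ≤ t ^ (3 * c.E) →
    Pr (fun ω : Om (c.par t) => ¬ RelX q (c.par t) p' (Le ω) le') ≤ 1 / (t : ℝ) ^ (10 * c.E) := by
  have hL1 : 1 ≤ c.lam ^ (c.W - 1) := Nat.one_le_pow _ _ (by rw [hc.lam]; norm_num)
  have hE1 : 1 ≤ c.E := by
    rw [hc.E]
    have : 1 ≤ c.lam ^ (c.W - 1) * (c.h + 2) := Nat.mul_pos hL1 (by omega)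
    omega
  filter_upwards [ev_lin (Real.log ((c.h + 1 : ℕ) : ℝ) + Real.log 4) (16 * c.E) q.d2 hc.d20,
    Filter.eventually_ge_atTop 1] with t ht ht1 p' le' hcard
  have ht1' : (1 : ℝ) ≤ t := by exact_mod_cast ht1
  have ht0 : (0 : ℝ) < t := by linarith
  have hlog : 0 ≤ Real.log (t : ℝ) := Real.log_nonneg ht1'
  have hn1 : 1 ≤ (c.par t).n := Nat.one_le_pow _ _ ht1
  have hn1' : (1 : ℝ) ≤ ((c.par t).n : ℝ) := by exact_mod_cast hn1
  have hd : (t : ℝ) ≤ ((c.par t).d : ℝ) := by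
    have : t ≤ (c.par t).d := by
      calc t = t ^ 1 := (pow_one t).symm
        _ ≤ t ^ (c.lam ^ (c.W - 1)) := Nat.pow_le_pow_right ht1 hL1
    exact_mod_cast this
  refine (rel_bound (p := c.par t) hn1 le' q).trans ?_
  set n := (c.par t).n with hndef
  set d := (c.par t).d with hddef
  set M := Fintype.card (Pt p') with hM
  set L := Real.log (t : ℝ) with hLdef
  have hMle : (M : ℝ) ^ n ≤ Real.exp (n * (3 * c.E * L)) := by
    have h1 : (M : ℝ) ≤ Real.exp (3 * c.E * L) := by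
      have h2 : (M : ℝ) ≤ (t : ℝ) ^ (3 * c.E) := by exact_mod_cast hcard
      refine h2.trans (le_of_eq ?_)
      rw [hLdef, show (3 * (c.E : ℝ) * Real.log t) = ((3 * c.E : ℕ) : ℝ) * Real.log t by
        push_cast; ring, Real.exp_nat_mul, Real.exp_log ht0]
    calc (M : ℝ) ^ n ≤ (Real.exp (3 * c.E * L)) ^ n :=
          pow_le_pow_left₀ (Nat.cast_nonneg _) h1 n
      _ = Real.exp (n * (3 * c.E * L)) := by rw [Real.exp_nat_mul]
  have h4n : (2 : ℝ) ^ n * 2 ^ n = Real.exp (n * Real.log 4) := by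
    rw [Real.exp_nat_mul, Real.exp_log (by norm_num), ← mul_pow]
    norm_num
  have hh : ((c.h + 1 : ℕ) : ℝ) = Real.exp (Real.log ((c.h + 1 : ℕ) : ℝ)) := by
    rw [Real.exp_log]
    positivity
  have hlogh : 0 ≤ Real.log ((c.h + 1 : ℕ) : ℝ) := Real.log_natCast_nonneg _
  have hR : 1 / (t : ℝ) ^ (10 * c.E) = Real.exp (-(10 * c.E * L)) := by
    rw [Real.exp_neg, show (10 * (c.E : ℝ) * L) = ((10 * c.E : ℕ) : ℝ) * L by
        push_cast; ring, Real.exp_nat_mul, hLdef, Real.exp_log ht0, one_div]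
  rw [hR]
  have hM0 : (0 : ℝ) ≤ (M : ℝ) ^ n := by positivity
  calc (((c.h + 1 : ℕ) : ℝ) * (2 ^ n * (2 ^ n * ((M : ℝ) ^ n * (M : ℝ) ^ n)))) *
        Real.exp (-(d : ℝ) * (q.d2 * n))
      = ((c.h + 1 : ℕ) : ℝ) * ((2 ^ n * 2 ^ n) * ((M : ℝ) ^ n * (M : ℝ) ^ n)) *
        Real.exp (-(d : ℝ) * (q.d2 * n)) := by ring
    _ ≤ Real.exp (Real.log ((c.h + 1 : ℕ) : ℝ)) * (Real.exp (n * Real.log 4) *
        (Real.exp (n * (3 * c.E * L)) * Real.exp (n * (3 * c.E * L)))) *
        Real.exp (-(d : ℝ) * (q.d2 * n)) := by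
        rw [← hh, ← h4n]
        gcongr
    _ = Real.exp (Real.log ((c.h + 1 : ℕ) : ℝ) + (n * Real.log 4 +
        (n * (3 * c.E * L) + n * (3 * c.E * L))) + (-(d : ℝ) * (q.d2 * n))) := by
        rw [← Real.exp_add, ← Real.exp_add, ← Real.exp_add, ← Real.exp_add]
    _ ≤ Real.exp (-(10 * c.E * L)) := by
        apply Real.exp_le_exp.2
        have e1 : Real.log ((c.h + 1 : ℕ) : ℝ) ≤ n * Real.log ((c.h + 1 : ℕ) : ℝ) := by
          nlinarith
        have hEL : 0 ≤ (c.E : ℝ) * L := by positivity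
        have e2 : 10 * c.E * L ≤ n * (10 * c.E * L) := by nlinarith
        have e3 : (n : ℝ) * (Real.log ((c.h + 1 : ℕ) : ℝ) + Real.log 4 + 16 * c.E * L)
            ≤ n * (q.d2 * d) := by
          apply mul_le_mul_of_nonneg_left _ (by linarith)
          exact ht.trans (mul_le_mul_of_nonneg_left hd hc.d20.le)
        nlinarith

end Pool.Agent.AM
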