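import Pool.Agent.AM.Defs2
import Pool.Agent.AM.Depth95

set_option autoImplicit false

open scoped Classical
open Finset

noncomputable section

namespace Pool.Agent.AM

/-- the integer root -/
theorem rt_pow_le (c : PC) (m : ℕ) : (c.rt m) ^ (c.E + 2) ≤ m :=
  DM.tt_pow_le (p := c.E + 2) (by omega) m

theorem lt_rt_pow (c : PC) (m : ℕ) : m < (c.rt m + 1) ^ (c.E + 2) :=
  DM.lt_tt_pow (p := c.E + 2) (by omega) m

theorem rt_mono (c : PC) : Monotone c.rt := DM.tt_mono (p := c.E + 2) (by omega)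

theorem rt_succ_le (c : PC) (m : ℕ) : c.rt (m + 1) ≤ c.rt m + 1 :=
  DM.tt_succ (p := c.E + 2) (by omega) m

theorem tf_tendsto (c : PC) : ∀ T0 : ℕ, ∀ᶠ m0 in Filter.atTop, ∀ m, T0 ≤ c.tf m0 m :=
  fun T0 => c.tf_eventually (Filter.eventually_ge_atTop T0)

/-- `t(m)^(-3(E+2))` is summable with small sum -/
theorem sum_tf (c : PC) (q : Con) (hc : c.Ok q) : ∀ ε : ℝ, 0 < ε → ∀ᶠ m0 in Filter.atTop,
    ∀ M : ℕ, ∑ m ∈ range (M + 1), 1 / (c.tf m0 m : ℝ) ^ (4 * c.E) ≤ ε := by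
  intro ε hε
  have hE := hc.E_ge
  filter_upwards [c.N3' hε, tf_tendsto c 1] with m0 h1 h2 M
  refine (Finset.sum_le_sum fun m _ => ?_).trans (h1 (M + 1))
  rw [one_div]
  have h3 : (1 : ℝ) ≤ c.tf m0 m := by exact_mod_cast h2 m
  have h4 : (c.tf m0 m : ℝ) ^ (2 * (c.E + 2)) ≤ (c.tf m0 m : ℝ) ^ (4 * c.E) :=
    pow_le_pow_right₀ h3 (by omega)
  exact inv_anti₀ (by positivity) h4

end Pool.Agent.AM
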