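import Pool.Agent.AM.Sec5
import Pool.Agent.AM.Defs2

/-! # Section 6.1 of the blueprint: separation at one of two consecutive gaps -/

set_option autoImplicit false

open scoped Classical
open Finset

noncomputable section

namespace Pool.Agent.AM.Sec61

open Sec5

variable {C : Cst} {q : Con} {par : ℕ → Par C} {le : ∀ m, Pt (par m) → Pt (par m) → Prop}
variable {lo hi : ℕ} {b : Prop} {f : TP par → TP par} {m : ℕ}

/-- the bad pairs of a map at the gap `k, k+1` of block `m` -/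
def Bad (le : ∀ m, Pt (par m) → Pt (par m) → Prop) (f : TP par → TP par) (m k : ℕ)
    (xu : Fin (par m).n × Fin (par m).n) : Prop :=
  ¬ TLe le (f (TV par m k xu.1)) (f (TV par m (k + 1) xu.2))

/-- separation at the gap `k, k+1` of block `m` -/
def SepAt (q : Con) (le : ∀ m, Pt (par m) → Pt (par m) → Prop) (f : TP par → TP par)
    (m k : ℕ) : Prop :=
  ∃ A U : Finset (Fin (par m).n), q.kap * (par m).n / 18 ≤ (A.card : ℝ) ∧
    q.kap * (par m).n / 3 ≤ (U.card : ℝ) ∧
    (((A ×ˢ U).filter (Bad le f m k)).card : ℝ) ≤ (2 * q.d2 + q.d1) * ((par m).n : ℝ) ^ 2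

/-- points of level `k+1` without a neighbour in `A` -/
def Exc (le : ∀ m, Pt (par m) → Pt (par m) → Prop) (m k : ℕ) (A : Finset (Fin (par m).n)) :
    Finset (Fin (par m).n) :=
  univ.filter fun u => ∀ x ∈ A, ¬ le m (V (par m) k x) (V (par m) (k + 1) u)

theorem card_Exc_lt (hB : GoodBlk q (par m) (le m)) {k : ℕ} (hk : k ≤ C.h)
    {A : Finset (Fin (par m).n)} (hA : q.d1 * (par m).n ≤ A.card) :
    ((Exc le m k A).card : ℝ) < q.d1 * (par m).n := by
  by_contra hcon
  obtain ⟨x, hx, u, hu, hxu⟩ := hB.a2 k hk A (Exc le m k A) hA (not_lt.mp hcon)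
  exact (Finset.mem_filter.mp hu).2 x hx hxu

theorem not_mem_Exc {k : ℕ} {A : Finset (Fin (par m).n)} {u : Fin (par m).n}
    (h : u ∉ Exc le m k A) : ∃ x ∈ A, le m (V (par m) k x) (V (par m) (k + 1) u) := by
  by_contra hcon
  push Not at hcon
  exact h (Finset.mem_filter.mpr ⟨mem_univ _, hcon⟩)

theorem mono_gap (hE : Endo le lo hi b f) (hm : lo ≤ m ∧ m ≤ hi) {k : ℕ}
    {x u : Fin (par m).n} (h : le m (V (par m) k x) (V (par m) (k + 1) u)) :
    TLe le (f (TV par m k x)) (f (TV par m (k + 1) u)) :=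
  hE.mono _ _ (inT_TV hm k x) (inT_TV hm (k + 1) u) (TLe.eq h)

/-- removing the exceptional points costs at most `d1 n^2` pairs -/
theorem card_bad_le {n : ℕ} {A U E : Finset (Fin n)} {B : Fin n × Fin n → Prop} {c d : ℝ}
    (hE : (E.card : ℝ) ≤ d * n)
    (hQ : (((A ×ˢ U).filter fun p => B p ∧ p.2 ∉ E).card : ℝ) ≤ c) :
    (((A ×ˢ U).filter B).card : ℝ) ≤ c + d * (n : ℝ) ^ 2 := by
  have h1 : (A ×ˢ U).filter B
      ⊆ ((A ×ˢ U).filter fun p => B p ∧ p.2 ∉ E) ∪ ((univ : Finset (Fin n)) ×ˢ E) := by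
    intro p hp
    obtain ⟨hp1, hp2⟩ := Finset.mem_filter.mp hp
    by_cases h : p.2 ∈ E
    · exact Finset.mem_union_right _ (Finset.mem_product.mpr ⟨mem_univ _, h⟩)
    · exact Finset.mem_union_left _ (Finset.mem_filter.mpr ⟨hp1, hp2, h⟩)
  have h2 := (Finset.card_le_card h1).trans (Finset.card_union_le _ _)
  rw [Finset.card_product, Finset.card_univ, Fintype.card_fin] at h2
  have h3 : (((A ×ˢ U).filter B).card : ℝ)
      ≤ (((A ×ˢ U).filter fun p => B p ∧ p.2 ∉ E).card : ℝ) + (n : ℝ) * E.card := by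
    exact_mod_cast h2
  have h4 : (n : ℝ) * E.card ≤ n * (d * n) := mul_le_mul_of_nonneg_left hE (Nat.cast_nonneg n)
  nlinarith

/-- (R) with target another block -/
theorem relX_apply (hE : Endo le lo hi b f) (hm : lo ≤ m ∧ m ≤ hi) {m' : ℕ}
    (hX : RelX q (par m) (par m') (le m) (le m')) {k : ℕ} (hk : k ≤ C.h)
    (hd : 0 ≤ q.d2) (A U : Finset (Fin (par m).n))
    (hA : ∀ x ∈ A, ∃ y, f (TV par m k x) = .pt m' y)
    (hU : ∀ u ∈ U, ∃ y, f (TV par m (k + 1) u) = .pt m' y) :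
    (((A ×ˢ U).filter (Bad le f m k)).card : ℝ) ≤ q.d2 * ((par m).n : ℝ) ^ 2 := by
  rcases A.eq_empty_or_nonempty with h0 | ⟨x0, hx0⟩
  · rw [h0]
    simp only [Finset.empty_product, Finset.filter_empty, Finset.card_empty, Nat.cast_zero]
    positivity
  obtain ⟨y0, _⟩ := hA x0 hx0
  have : Nonempty (Pt (par m')) := ⟨y0⟩
  choose! a ha using hA
  choose! c hc using hU
  have h1 := hX k hk A U a c (by
    intro x hx u hu hxu
    have h2 := mono_gap hE hm hxu
    rw [ha x hx, hc u hu] at h2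
    exact tle_same h2)
  refine le_trans ?_ h1
  have h3 : (A ×ˢ U).filter (Bad le f m k)
      ⊆ (A ×ˢ U).filter fun xu => ¬ le m' (a xu.1) (c xu.2) := by
    intro xu hxu
    obtain ⟨h4, h5⟩ := Finset.mem_filter.mp hxu
    obtain ⟨h6, h7⟩ := Finset.mem_product.mp h4
    refine Finset.mem_filter.mpr ⟨h4, fun h8 => h5 ?_⟩
    rw [ha _ h6, hc _ h7]
    exact TLe.eq h8
  exact_mod_cast Finset.card_le_card h3

/-- (R) with target the block itself -/
theorem relS_apply (hE : Endo le lo hi b f) (hm : lo ≤ m ∧ m ≤ hi)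
    (hS : RelS q (par m) (le m)) {k : ℕ} (hk : k ≤ C.h)
    (hd : 0 ≤ q.d2) (A U : Finset (Fin (par m).n)) (P Q : Pt (par m) → Prop)
    (hA : ∀ x ∈ A, ∃ y, f (TV par m k x) = .pt m y ∧ P y)
    (hU : ∀ u ∈ U, ∃ y, f (TV par m (k + 1) u) = .pt m y ∧ Q y)
    (hPQ : ((∀ y, P y → k + 1 ≤ lev y) ∧ ∀ y, Q y → k + 1 ≤ lev y) ∨
      ((∀ y, P y → lev y ≤ k) ∧ ∀ y, Q y → lev y ≤ k) ∨
      ((∀ y, P y → lev y = k) ∧ (∀ x ∈ A, f (TV par m k x) ≠ TV par m k x) ∧
        ∀ y, Q y → k + 1 ≤ lev y)) :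
    (((A ×ˢ U).filter (Bad le f m k)).card : ℝ) ≤ q.d2 * ((par m).n : ℝ) ^ 2 := by
  rcases A.eq_empty_or_nonempty with h0 | ⟨x0, hx0⟩
  · rw [h0]
    simp only [Finset.empty_product, Finset.filter_empty, Finset.card_empty, Nat.cast_zero]
    positivity
  obtain ⟨y0, _, _⟩ := hA x0 hx0
  have : Nonempty (Pt (par m)) := ⟨y0⟩
  choose! a ha ha' using hA
  choose! c hc hc' using hU
  have h1 := hS k hk A U a c (by
    rcases hPQ with ⟨h2, h3⟩ | ⟨h2, h3⟩ | ⟨h2, h3, h4⟩
    · exact Or.inl ⟨fun x hx => h2 _ (ha' x hx), fun u hu => h3 _ (hc' u hu)⟩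
    · exact Or.inr (Or.inl ⟨fun x hx => h2 _ (ha' x hx), fun u hu => h3 _ (hc' u hu)⟩)
    · refine Or.inr (Or.inr ⟨fun x hx => ⟨h2 _ (ha' x hx), fun h5 => ?_⟩,
        fun u hu => h4 _ (hc' u hu)⟩)
      apply h3 x hx
      rw [ha x hx, h5]
      rfl) (by
    intro x hx u hu hxu
    have h2 := mono_gap hE hm hxu
    rw [ha x hx, hc u hu] at h2
    exact tle_same h2)
  refine le_trans ?_ h1
  have h3 : (A ×ˢ U).filter (Bad le f m k)
      ⊆ (A ×ˢ U).filter fun xu => ¬ le m (a xu.1) (c xu.2) := by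
    intro xu hxu
    obtain ⟨h4, h5⟩ := Finset.mem_filter.mp hxu
    obtain ⟨h6, h7⟩ := Finset.mem_product.mp h4
    refine Finset.mem_filter.mpr ⟨h4, fun h8 => h5 ?_⟩
    rw [ha _ h6, hc _ h7]
    exact TLe.eq h8
  exact_mod_cast Finset.card_le_card h3

/-- block rank from below, top highest -/
def rk (hi : ℕ) : TP par → ℕ
  | .top => hi + 1
  | .pt m _ => hi - m

theorem rk_mono {z z' : TP par} (h : TLe le z z') : rk hi z ≤ rk hi z' := by
  cases h with
  | top =>
    cases z with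
    | top => exact le_refl _
    | pt m y => simp only [rk]; omega
  | lt h x x' => simp only [rk]; omega
  | eq h => exact le_refl _

theorem tle_of_rk_lt {z z' : TP par} (hz : inT par lo hi b z) (h : rk hi z < rk hi z') :
    TLe le z z' := by
  cases z' with
  | top => exact TLe.top _
  | pt m' y' =>
    cases z with
    | top => simp only [rk] at h; omega
    | pt m y =>
      simp only [rk] at h
      have h1 : m ≤ hi := hz.2
      exact TLe.lt (by omega) _ _

/-- median value of an integer statistic -/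
theorem exists_median {α : Type*} (A : Finset α) (g : α → ℕ) (N : ℕ) (hg : ∀ x ∈ A, g x ≤ N) :
    ∃ c, A.card ≤ 2 * (A.filter fun x => g x ≤ c).card ∧
      A.card ≤ 2 * (A.filter fun x => c ≤ g x).card := by
  let Pr : ℕ → Prop := fun c => A.card ≤ 2 * (A.filter fun x => c ≤ g x).card
  have h0 : Pr 0 := by
    show A.card ≤ 2 * (A.filter fun x => 0 ≤ g x).card
    have : (A.filter fun x => 0 ≤ g x) = A := by simp
    rw [this]; omega
  let c := Nat.findGreatest Pr N
  have hc : Pr c := Nat.findGreatest_spec (Nat.zero_le N) h0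
  refine ⟨c, ?_, hc⟩
  by_cases hN : c = N
  · have : (A.filter fun x => g x ≤ c) = A := by
      apply Finset.filter_true_of_mem
      intro x hx
      rw [hN]
      exact hg x hx
    rw [this]; omega
  · have hlt : c < N := lt_of_le_of_ne (Nat.findGreatest_le N) hN
    have h1 : ¬ Pr (c + 1) := Nat.findGreatest_is_greatest (Nat.lt_succ_self c) (by omega)
    have h2 : (A.filter fun x => g x ≤ c).card + (A.filter fun x => c + 1 ≤ g x).card
        = A.card := by
      have h := Finset.card_filter_add_card_filter_not (s := A) (fun x => g x ≤ c)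
      have e : (A.filter fun x => ¬ g x ≤ c) = A.filter fun x => c + 1 ≤ g x := by
        apply Finset.filter_congr
        intro x _
        omega
      rw [e] at h
      exact h
    have h3 : ¬ A.card ≤ 2 * (A.filter fun x => c + 1 ≤ g x).card := h1
    omega

theorem rk_le (z : TP par) : rk hi z ≤ hi + 1 := by
  cases z with
  | top => exact le_refl _
  | pt m y => simp only [rk]; omega

/-- numerical facts -/
theorem num_facts (hq : q.Ok) (n : ℕ) (hn : 0 < n) :
    q.d1 * n ≤ q.kap * n / 18 ∧ q.kap * n / 3 ≤ n ∧ 0 < q.kap * n := by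
  have h1 := hq.kap0
  have h2 := hq.kap'
  have h3 := hq.d1
  have h5 : (0 : ℝ) < n := by exact_mod_cast hn
  have h6 : q.d1 ≤ q.kap / 18 := by nlinarith
  refine ⟨?_, ?_, by positivity⟩
  · calc q.d1 * n ≤ q.kap / 18 * n := mul_le_mul_of_nonneg_right h6 h5.le
      _ = q.kap * n / 18 := by ring
  · have : q.kap * n ≤ 1 / 100 * n := mul_le_mul_of_nonneg_right h2 h5.le
    linarith

/-- the case in which the images lie outside the block -/
theorem sep_out {t : ℕ → ℕ} (hG : GoodTow q par t le lo hi) (hq : q.Ok)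
    (hE : Endo le lo hi b f) (hm : lo ≤ m ∧ m ≤ hi)
    (hdeep : ∀ m', lo ≤ m' → m' ≤ hi → t m' ≤ (t m) ^ 2) {k : ℕ} (hk : k ≤ C.h)
    (A0 : Finset (Fin (par m).n)) (hA0 : q.kap * (par m).n / 9 ≤ A0.card)
    (hout : ∀ x ∈ A0, ¬ ∃ y, f (TV par m k x) = .pt m y) : SepAt q le f m k := by
  have hB := hG.blk m hm.1 hm.2
  obtain ⟨e1, e2, e3⟩ := num_facts hq _ hB.npos
  have hd2 : 0 ≤ q.d2 := hq.d20.le
  obtain ⟨c, hc1, hc2⟩ := exists_median A0 (fun x => rk hi (f (TV par m k x))) (hi + 1)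
    (fun x _ => rk_le _)
  have hc1' : (A0.card : ℝ)
      ≤ 2 * ((A0.filter fun x => rk hi (f (TV par m k x)) ≤ c).card : ℝ) := by
    exact_mod_cast hc1
  have hc2' : (A0.card : ℝ)
      ≤ 2 * ((A0.filter fun x => c ≤ rk hi (f (TV par m k x))).card : ℝ) := by
    exact_mod_cast hc2
  have hEx := card_Exc_lt (q := q) hB hk
    (A := A0.filter fun x => c ≤ rk hi (f (TV par m k x))) (by linarith)
  refine ⟨A0.filter fun x => rk hi (f (TV par m k x)) ≤ c, univ, by linarith, ?_, ?_⟩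
  · rw [Finset.card_univ, Fintype.card_fin]; exact e2
  have hn2 : (0 : ℝ) ≤ q.d2 * ((par m).n : ℝ) ^ 2 := by positivity
  refine le_trans (card_bad_le (c := q.d2 * ((par m).n : ℝ) ^ 2) hEx.le ?_) (by nlinarith)
  -- the remaining bad pairs have both images in the block `hi - c`
  let A' : Finset (Fin (par m).n) := (A0.filter fun x => rk hi (f (TV par m k x)) ≤ c).filter
    (fun x => ∃ y, f (TV par m k x) = .pt (hi - c) y)
  let U' : Finset (Fin (par m).n) := univ.filter
    (fun u => ∃ y, f (TV par m (k + 1) u) = .pt (hi - c) y)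
  have hsub : (((A0.filter fun x => rk hi (f (TV par m k x)) ≤ c) ×ˢ univ).filter
      fun p => Bad le f m k p ∧
        p.2 ∉ Exc le m k (A0.filter fun x => c ≤ rk hi (f (TV par m k x))))
      ⊆ (A' ×ˢ U').filter (Bad le f m k) := by
    intro p hp
    obtain ⟨hp1, hp2, hp3⟩ := Finset.mem_filter.mp hp
    obtain ⟨hp4, _⟩ := Finset.mem_product.mp hp1
    obtain ⟨hp5, hp6⟩ := Finset.mem_filter.mp hp4
    obtain ⟨x', hx', hxu⟩ := not_mem_Exc hp3
    have h1 := rk_mono (hi := hi) (mono_gap hE hm hxu)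
    have h2 : c ≤ rk hi (f (TV par m k x')) := (Finset.mem_filter.mp hx').2
    have hin1 := hE.maps _ (inT_TV (b := b) hm k p.1)
    have hin2 := hE.maps _ (inT_TV (b := b) hm (k + 1) p.2)
    have h3 : ¬ rk hi (f (TV par m k p.1)) < rk hi (f (TV par m (k + 1) p.2)) := by
      intro h
      exact hp2 (tle_of_rk_lt hin1 h)
    have h4 : rk hi (f (TV par m k p.1)) = c := by omega
    have h5 : rk hi (f (TV par m (k + 1) p.2)) = c := by omega
    have hex : ∀ z : TP par, inT par lo hi b z → rk hi z = c → z ≠ .top →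
        ∃ y, z = .pt (hi - c) y := by
      intro z hz hz2 hz3
      cases z with
      | top => exact absurd rfl hz3
      | pt m' y =>
        simp only [rk] at hz2
        have h6 : m' ≤ hi := hz.2
        have h7 : m' = hi - c := by omega
        subst h7
        exact ⟨y, rfl⟩
    have hnt2 : f (TV par m (k + 1) p.2) ≠ .top := by
      intro h
      apply hp2
      show TLe le (f (TV par m k p.1)) (f (TV par m (k + 1) p.2))
      rw [h]
      exact TLe.top _
    have hnt1 : f (TV par m k p.1) ≠ .top := by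
      intro h
      rw [h] at h4
      have h8 : c = hi + 1 := h4.symm
      cases hz : f (TV par m (k + 1) p.2) with
      | top => exact hnt2 hz
      | pt m' y =>
        rw [hz] at h5
        simp only [rk] at h5
        omega
    refine Finset.mem_filter.mpr ⟨Finset.mem_product.mpr ⟨?_, ?_⟩, hp2⟩
    · exact Finset.mem_filter.mpr ⟨hp4, hex _ hin1 h4 hnt1⟩
    · exact Finset.mem_filter.mpr ⟨mem_univ _, hex _ hin2 h5 hnt2⟩
  have hcard : (((A' ×ˢ U').filter (Bad le f m k)).card : ℝ) ≤ q.d2 * ((par m).n : ℝ) ^ 2 := by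
    rcases A'.eq_empty_or_nonempty with h0 | ⟨x0, hx0⟩
    · rw [h0]
      simp only [Finset.empty_product, Finset.filter_empty, Finset.card_empty, Nat.cast_zero]
      exact hn2
    · obtain ⟨hx1, y0, hy0⟩ := Finset.mem_filter.mp hx0
      have hxA0 := (Finset.mem_filter.mp hx1).1
      have hin := hE.maps _ (inT_TV (b := b) hm k x0)
      rw [hy0] at hin
      have key : ∀ (j : ℕ) (y : Pt (par j)), m = j → ∃ y', (TP.pt j y : TP par) = .pt m y' := by
        rintro j y rfl
        exact ⟨y, rfl⟩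
      have hne : m ≠ hi - c := by
        intro h
        apply hout x0 hxA0
        rw [hy0]
        exact key _ _ h
      exact relX_apply hE hm (hG.rel m (hi - c) hm.1 hm.2 hin.1 hin.2 hne
        (hdeep _ hin.1 hin.2)) hk hd2 A' U' (fun x hx => (Finset.mem_filter.mp hx).2)
        (fun u hu => (Finset.mem_filter.mp hu).2)
  exact le_trans (by exact_mod_cast Finset.card_le_card hsub) hcard

/-- a bad pair whose upper point has a neighbour with image in the block -/
theorem bad_cases (hO : BlkOrd (le m)) (hE : Endo le lo hi b f) (hm : lo ≤ m ∧ m ≤ hi) {k : ℕ}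
    {x x' u : Fin (par m).n} {y y' : Pt (par m)} (hx : f (TV par m k x) = .pt m y)
    (hx' : f (TV par m k x') = .pt m y')
    (hxu : le m (V (par m) k x') (V (par m) (k + 1) u)) (hbad : Bad le f m k (x, u)) :
    ∃ z, f (TV par m (k + 1) u) = .pt m z ∧ lev y' ≤ lev z := by
  have h1 := mono_gap hE hm hxu
  rw [hx'] at h1
  unfold Bad at hbad
  simp only at hbad
  rw [hx] at hbad
  cases hz : f (TV par m (k + 1) u) with
  | top =>
    rw [hz] at hbad
    exact absurd (TLe.top _) hbad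
  | pt m' z =>
    rw [hz] at hbad h1
    have h2 := tle_blk h1
    rcases Nat.eq_or_lt_of_le h2 with h3 | h3
    · subst h3
      exact ⟨z, rfl, hO.lev_mono _ _ (tle_same h1)⟩
    · exact absurd (TLe.lt h3 _ _) hbad

/-- the case in which the images lie in the block, above level `k` -/
theorem sep_plus {t : ℕ → ℕ} (hG : GoodTow q par t le lo hi) (hq : q.Ok)
    (hE : Endo le lo hi b f) (hm : lo ≤ m ∧ m ≤ hi) {k : ℕ} (hk : k ≤ C.h)
    (A0 : Finset (Fin (par m).n)) (hA0 : q.kap * (par m).n / 9 ≤ A0.card)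
    (hpl : ∀ x ∈ A0, ∃ y, f (TV par m k x) = .pt m y ∧ k + 1 ≤ lev y) : SepAt q le f m k := by
  have hB := hG.blk m hm.1 hm.2
  obtain ⟨e1, e2, e3⟩ := num_facts hq _ hB.npos
  have hd2 : 0 ≤ q.d2 := hq.d20.le
  have hEx := card_Exc_lt (q := q) hB hk (A := A0) (by linarith)
  refine ⟨A0, univ, by linarith, ?_, ?_⟩
  · rw [Finset.card_univ, Fintype.card_fin]; exact e2
  have hn2 : (0 : ℝ) ≤ q.d2 * ((par m).n : ℝ) ^ 2 := by positivity
  refine le_trans (card_bad_le (c := q.d2 * ((par m).n : ℝ) ^ 2) hEx.le ?_) (by nlinarith)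
  let U1 : Finset (Fin (par m).n) := univ.filter
    (fun u => ∃ y, f (TV par m (k + 1) u) = .pt m y ∧ k + 1 ≤ lev y)
  have hsub : ((A0 ×ˢ univ).filter fun p => Bad le f m k p ∧ p.2 ∉ Exc le m k A0)
      ⊆ (A0 ×ˢ U1).filter (Bad le f m k) := by
    intro p hp
    obtain ⟨hp1, hp2, hp3⟩ := Finset.mem_filter.mp hp
    obtain ⟨hp4, _⟩ := Finset.mem_product.mp hp1
    obtain ⟨x', hx', hxu⟩ := not_mem_Exc hp3
    obtain ⟨y, hy, _⟩ := hpl _ hp4
    obtain ⟨y', hy', hly'⟩ := hpl _ hx'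
    obtain ⟨z, hz, hlz⟩ := bad_cases hB.ord hE hm hy hy' hxu hp2
    exact Finset.mem_filter.mpr ⟨Finset.mem_product.mpr ⟨hp4,
      Finset.mem_filter.mpr ⟨mem_univ _, z, hz, by omega⟩⟩, hp2⟩
  refine le_trans (Nat.cast_le.mpr (Finset.card_le_card hsub)) ?_
  exact relS_apply hE hm (hG.self m hm.1 hm.2) hk hd2 A0 U1 (fun y => k + 1 ≤ lev y)
    (fun y => k + 1 ≤ lev y) hpl (fun u hu => (Finset.mem_filter.mp hu).2)
    (Or.inl ⟨fun _ h => h, fun _ h => h⟩)

/-- the case in which the points are displaced inside level `k` -/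
theorem sep_zero {t : ℕ → ℕ} (hG : GoodTow q par t le lo hi) (hq : q.Ok)
    (hE : Endo le lo hi b f) (hm : lo ≤ m ∧ m ≤ hi) {k : ℕ} (hk : k ≤ C.h)
    (A0 : Finset (Fin (par m).n)) (hA0 : q.kap * (par m).n / 9 ≤ A0.card)
    (hze : ∀ x ∈ A0, ∃ y, f (TV par m k x) = .pt m y ∧ lev y = k)
    (hdis : ∀ x ∈ A0, f (TV par m k x) ≠ TV par m k x) : SepAt q le f m k := by
  have hB := hG.blk m hm.1 hm.2
  obtain ⟨e1, e2, e3⟩ := num_facts hq _ hB.npos
  have hd2 : 0 ≤ q.d2 := hq.d20.le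
  have hEx := card_Exc_lt (q := q) hB hk (A := A0) (by linarith)
  refine ⟨A0, univ, by linarith, ?_, ?_⟩
  · rw [Finset.card_univ, Fintype.card_fin]; exact e2
  have hn2 : (0 : ℝ) ≤ q.d2 * ((par m).n : ℝ) ^ 2 := by positivity
  refine le_trans (card_bad_le (c := 2 * (q.d2 * ((par m).n : ℝ) ^ 2)) hEx.le ?_)
    (by nlinarith)
  let U1 : Finset (Fin (par m).n) := univ.filter
    (fun u => ∃ y, f (TV par m (k + 1) u) = .pt m y ∧ k + 1 ≤ lev y)
  let U2 : Finset (Fin (par m).n) := univ.filter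
    (fun u => ∃ y, f (TV par m (k + 1) u) = .pt m y ∧ lev y ≤ k)
  have hsub : ((A0 ×ˢ univ).filter fun p => Bad le f m k p ∧ p.2 ∉ Exc le m k A0)
      ⊆ (A0 ×ˢ U1).filter (Bad le f m k) ∪ (A0 ×ˢ U2).filter (Bad le f m k) := by
    intro p hp
    obtain ⟨hp1, hp2, hp3⟩ := Finset.mem_filter.mp hp
    obtain ⟨hp4, _⟩ := Finset.mem_product.mp hp1
    obtain ⟨x', hx', hxu⟩ := not_mem_Exc hp3
    obtain ⟨y, hy, _⟩ := hze _ hp4
    obtain ⟨y', hy', hly'⟩ := hze _ hx'
    obtain ⟨z, hz, hlz⟩ := bad_cases hB.ord hE hm hy hy' hxu hp2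
    rcases Nat.lt_or_ge k (lev z) with h | h
    · exact Finset.mem_union_left _ (Finset.mem_filter.mpr ⟨Finset.mem_product.mpr ⟨hp4,
        Finset.mem_filter.mpr ⟨mem_univ _, z, hz, h⟩⟩, hp2⟩)
    · exact Finset.mem_union_right _ (Finset.mem_filter.mpr ⟨Finset.mem_product.mpr ⟨hp4,
        Finset.mem_filter.mpr ⟨mem_univ _, z, hz, h⟩⟩, hp2⟩)
  have h1 := relS_apply hE hm (hG.self m hm.1 hm.2) hk hd2 A0 U1 (fun y => lev y = k)
    (fun y => k + 1 ≤ lev y) hze (fun u hu => (Finset.mem_filter.mp hu).2)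
    (Or.inr (Or.inr ⟨fun _ h => h, hdis, fun _ h => h⟩))
  have h2 := relS_apply hE hm (hG.self m hm.1 hm.2) hk hd2 A0 U2 (fun y => lev y = k)
    (fun y => lev y ≤ k) hze (fun u hu => (Finset.mem_filter.mp hu).2)
    (Or.inr (Or.inl ⟨fun _ h => h.le, fun _ h => h⟩))
  have h3 : ((((A0 ×ˢ univ).filter
      fun p => Bad le f m k p ∧ p.2 ∉ Exc le m k A0)).card : ℝ)
      ≤ ((A0 ×ˢ U1).filter (Bad le f m k)).card + ((A0 ×ˢ U2).filter (Bad le f m k)).card := by
    exact_mod_cast (Finset.card_le_card hsub).trans (Finset.card_union_le _ _)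
  linarith

/-- pigeonhole for three parts -/
theorem pigeon3 {n : ℕ} {D A B E : Finset (Fin n)} (h : D ⊆ A ∪ B ∪ E) {s : ℝ}
    (hD : 3 * s ≤ D.card) : s ≤ A.card ∨ s ≤ B.card ∨ s ≤ E.card := by
  have h1 : D.card ≤ A.card + B.card + E.card :=
    (Finset.card_le_card h).trans ((Finset.card_union_le _ _).trans
      (Nat.add_le_add_right (Finset.card_union_le _ _) _))
  have h2 : (D.card : ℝ) ≤ A.card + B.card + E.card := by exact_mod_cast h1
  by_contra hcon
  push Not at hcon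
  linarith [hcon.1, hcon.2.1, hcon.2.2]

/-- the parts of a warm level -/
theorem sep_parts {t : ℕ → ℕ} (hG : GoodTow q par t le lo hi) (hq : q.Ok)
    (hE : Endo le lo hi b f) (hm : lo ≤ m ∧ m ≤ hi)
    (hdeep : ∀ m', lo ≤ m' → m' ≤ hi → t m' ≤ (t m) ^ 2) {k : ℕ} (hk : k ≤ C.h)
    (D : Finset (Fin (par m).n)) (hDd : D ⊆ Disp f m k)
    (hD : 3 * (q.kap * (par m).n / 9) ≤ D.card)
    (hlow : ∀ x ∈ D, ∀ y, f (TV par m k x) = .pt m y → k ≤ lev y) : SepAt q le f m k := by
  have hsub : D ⊆ (D.filter fun x => ¬ ∃ y, f (TV par m k x) = .pt m y)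
      ∪ (D.filter fun x => ∃ y, f (TV par m k x) = .pt m y ∧ lev y = k)
      ∪ (D.filter fun x => ∃ y, f (TV par m k x) = .pt m y ∧ k + 1 ≤ lev y) := by
    intro x hx
    rw [Finset.mem_union, Finset.mem_union, Finset.mem_filter, Finset.mem_filter,
      Finset.mem_filter]
    by_cases h : ∃ y, f (TV par m k x) = .pt m y
    · obtain ⟨y, hy⟩ := h
      have h1 := hlow x hx y hy
      rcases Nat.eq_or_lt_of_le h1 with h2 | h2
      · exact Or.inl (Or.inr ⟨hx, y, hy, h2.symm⟩)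
      · exact Or.inr ⟨hx, y, hy, h2⟩
    · exact Or.inl (Or.inl ⟨hx, h⟩)
  rcases pigeon3 hsub hD with h | h | h
  · exact sep_out hG hq hE hm hdeep hk _ h (fun x hx => (Finset.mem_filter.mp hx).2)
  · exact sep_zero hG hq hE hm hk _ h (fun x hx => (Finset.mem_filter.mp hx).2)
      (fun x hx => mem_disp.mp (hDd (Finset.mem_filter.mp hx).1))
  · exact sep_plus hG hq hE hm hk _ h (fun x hx => (Finset.mem_filter.mp hx).2)

/-- **6.1** -/
theorem sep {t : ℕ → ℕ} (hG : GoodTow q par t le lo hi) (hq : q.Ok)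
    (hE : Endo le lo hi b f) (hm : lo ≤ m ∧ m ≤ hi)
    (hdeep : ∀ m', lo ≤ m' → m' ≤ hi → t m' ≤ (t m) ^ 2) {k : ℕ} (hk : k + 2 ≤ C.h + 1)
    (h0 : ¬ Cold q f m k) (h1 : ¬ Cold q f m (k + 1)) :
    SepAt q le f m k ∨ SepAt q le f m (k + 1) := by
  have hB := hG.blk m hm.1 hm.2
  obtain ⟨e1, e2, e3⟩ := num_facts hq _ hB.npos
  have hd2 : 0 ≤ q.d2 := hq.d20.le
  have hn2 : (0 : ℝ) ≤ q.d2 * ((par m).n : ℝ) ^ 2 := by positivity
  have hn1 : (0 : ℝ) ≤ q.d1 * ((par m).n : ℝ) ^ 2 := by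
    have := hq.d10.le
    positivity
  unfold Cold at h0 h1
  rw [not_le] at h0 h1
  -- displaced points of level `k` with image in the block below level `k`
  let A0 : Finset (Fin (par m).n) := (Disp f m k).filter
    (fun x => ∃ y, f (TV par m k x) = .pt m y ∧ lev y < k)
  let D0 : Finset (Fin (par m).n) := (Disp f m k).filter
    (fun x => ¬ ∃ y, f (TV par m k x) = .pt m y ∧ lev y < k)
  have hsum : (A0.card : ℝ) + D0.card = (Disp f m k).card := by
    exact_mod_cast Finset.card_filter_add_card_filter_not (s := Disp f m k)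
      (fun x => ∃ y, f (TV par m k x) = .pt m y ∧ lev y < k)
  by_cases hA0 : q.kap * (par m).n / 9 ≤ A0.card
  · let B1 : Finset (Fin (par m).n) := (Disp f m (k + 1)).filter
      (fun x => ∃ y, f (TV par m (k + 1) x) = .pt m y ∧ lev y ≤ k)
    let D1 : Finset (Fin (par m).n) := (Disp f m (k + 1)).filter
      (fun x => ¬ ∃ y, f (TV par m (k + 1) x) = .pt m y ∧ lev y ≤ k)
    have hsum1 : (B1.card : ℝ) + D1.card = (Disp f m (k + 1)).card := by
      exact_mod_cast Finset.card_filter_add_card_filter_not (s := Disp f m (k + 1))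
        (fun x => ∃ y, f (TV par m (k + 1) x) = .pt m y ∧ lev y ≤ k)
    by_cases hB1 : q.kap * (par m).n / 3 ≤ B1.card
    · left
      refine ⟨A0, B1, by linarith, hB1, ?_⟩
      have h2 := relS_apply hE hm (hG.self m hm.1 hm.2) (k := k) (by omega) hd2 A0 B1
        (fun y => lev y < k) (fun y => lev y ≤ k) (fun x hx => (Finset.mem_filter.mp hx).2)
        (fun u hu => (Finset.mem_filter.mp hu).2)
        (Or.inr (Or.inl ⟨fun _ h => h.le, fun _ h => h⟩))
      nlinarith
    · right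
      rw [not_le] at hB1
      refine sep_parts hG hq hE hm hdeep (by omega) D1 (Finset.filter_subset _ _) (by linarith) ?_
      intro x hx y hy
      by_contra hcon
      exact (Finset.mem_filter.mp hx).2 ⟨y, hy, by omega⟩
  · left
    rw [not_le] at hA0
    refine sep_parts hG hq hE hm hdeep (by omega) D0 (Finset.filter_subset _ _) (by linarith) ?_
    intro x hx y hy
    by_contra hcon
    exact (Finset.mem_filter.mp hx).2 ⟨y, hy, by omega⟩

end Pool.Agent.AM.Sec61
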