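import Pool.Agent.AM.TowOrd

set_option autoImplicit false

/-!
# MP_61102a_co, S09118 : the recursion, by the deepest rigid block
-/

open scoped Classical
open Finset

noncomputable section

namespace Pool.Agent.AM.Split

open TowOrd

variable {C : Cst} {par : ℕ → Par C} {le : ∀ m, Pt (par m) → Pt (par m) → Prop}

/-- what a rigid block does: `f` maps the block, the part above and the part below to
themselves -/
structure Fences (lo hi : ℕ) (f : TP par → TP par) (m : ℕ) : Prop where
  self : ∀ x : Pt (par m), ∃ x' : Pt (par m), f (.pt m x) = .pt m x'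
  above : ∀ z, inT par lo hi True z → Above m z → Above m (f z)
  below : ∀ z, inT par lo hi True z → Below m z → Below m (f z)

theorem inT_of_above {lo hi m : ℕ} {z : TP par} (hz : inT par lo hi True z)
    (hm : Above (m + 1) z) : inT par lo m True z := by
  cases z with
  | top => trivial
  | pt m' x =>
      have h1 : lo ≤ m' ∧ m' ≤ hi := hz
      have h2 : m' < m + 1 := hm
      exact ⟨h1.1, by omega⟩

theorem above_of_inT {lo m : ℕ} {z : TP par} (hz : inT par lo m True z) :
    Above (m + 1) z := by
  cases z with
  | top => trivial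
  | pt m' x =>
      have h1 : lo ≤ m' ∧ m' ≤ m := hz
      change m' < m + 1
      omega

theorem inT_of_below {lo hi m : ℕ} {z : TP par} (hz : inT par lo hi True z)
    (hm : Below m z) : inT par (m + 1) hi False z := by
  cases z with
  | top => exact hm.elim
  | pt m' x =>
      have h1 : lo ≤ m' ∧ m' ≤ hi := hz
      have h2 : m < m' := hm
      exact ⟨by omega, h1.2⟩

theorem below_of_inT {hi m : ℕ} {z : TP par} (hz : inT par (m + 1) hi False z) :
    Below m z := by
  cases z with
  | top => exact hz.elim
  | pt m' x =>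
      have h1 : m + 1 ≤ m' ∧ m' ≤ hi := hz
      change m < m'
      omega

/-- the endomorphisms of the whole part whose deepest rigid block is `m` -/
def DeepR (le : ∀ m, Pt (par m) → Pt (par m) → Prop) (lo hi m : ℕ) :
    Set (TP par → TP par) :=
  {f | f ∈ EndSet le lo hi True ∧ Rigid f m ∧ ∀ m', m < m' → m' ≤ hi → ¬ Rigid f m'}

/-- the endomorphisms of the single block `m` which are the identity on its frame -/
def RigEnd (le : ∀ m, Pt (par m) → Pt (par m) → Prop) (m : ℕ) : Set (TP par → TP par) :=
  {g | g ∈ EndSet le m m False ∧ Rigid g m}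

theorem mem_part {lo hi m : ℕ} (_h1 : lo ≤ m) (h2 : m ≤ hi) {x : TP par}
    (hx : inT par lo m True x) : inT par lo hi True x := by
  cases x with
  | top => trivial
  | pt m' x =>
      have h : lo ≤ m' ∧ m' ≤ m := hx
      exact ⟨h.1, by omega⟩

theorem mem_part_below {lo hi m : ℕ} (h1 : lo ≤ m + 1) {x : TP par}
    (hx : inT par (m + 1) hi False x) : inT par lo hi True x := by
  cases x with
  | top => trivial
  | pt m' x =>
      have h : m + 1 ≤ m' ∧ m' ≤ hi := hx
      exact ⟨by omega, h.2⟩

/-- `f` preserves the part `lo..m` with top when the block `m` is a fence -/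
theorem maps_upper {lo hi m : ℕ} {f : TP par → TP par} (hf : f ∈ EndSet le lo hi True)
    (h1 : lo ≤ m) (h2 : m ≤ hi) (hF : Fences lo hi f m) (x : TP par)
    (hx : inT par lo m True x) : inT par lo m True (f x) := by
  have hfx := hf.1.maps x (mem_part h1 h2 hx)
  cases x with
  | top =>
      have := hF.above .top trivial trivial
      cases hh : f .top with
      | top => trivial
      | pt m' y =>
          rw [hh] at this hfx
          have h3 : m' < m := this
          exact ⟨hfx.1, h3.le⟩
  | pt m' x =>
      have h : lo ≤ m' ∧ m' ≤ m := hx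
      rcases Nat.lt_or_ge m' m with hlt | hge
      · have := hF.above (.pt m' x) (mem_part h1 h2 hx) hlt
        cases hh : f (.pt m' x) with
        | top => trivial
        | pt m'' y =>
            rw [hh] at this hfx
            have h3 : m'' < m := this
            exact ⟨hfx.1, h3.le⟩
      · have : m' = m := le_antisymm h.2 hge
        subst this
        obtain ⟨x', hx'⟩ := hF.self x
        rw [hx']
        exact ⟨h1, le_rfl⟩

theorem maps_lower {lo hi m : ℕ} {f : TP par → TP par} (h1 : lo ≤ m)
    (hf : f ∈ EndSet le lo hi True) (hF : Fences lo hi f m) (x : TP par)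
    (hx : inT par (m + 1) hi False x) : inT par (m + 1) hi False (f x) := by
  have hx' : inT par lo hi True x := mem_part_below (by omega) hx
  exact inT_of_below (hf.1.maps x hx') (hF.below x hx' (below_of_inT hx))

/-- deepest rigid block `m ≤ hi - 1` -/
theorem card_deep {lo hi m : ℕ} (h1 : lo ≤ m) (h2 : m ≤ hi)
    (hF : ∀ f ∈ EndSet le lo hi True, Rigid f m → Fences lo hi f m) :
    (DeepR le lo hi m).ncard ≤
      (EndSet le lo m True).ncard * (FreeSet le (m + 1) hi False).ncard := by
  rw [← Set.ncard_prod]
  refine Set.ncard_le_ncard_of_injOn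
    (fun f => (cut lo m True f, cut (m + 1) hi False f)) ?_ ?_
    ((endSet_finite lo m True).prod (freeSet_finite (m + 1) hi False))
  · rintro f ⟨hf, hr, hn⟩
    have hFf := hF f hf hr
    refine ⟨cut_mem hf (fun x hx => mem_part h1 h2 hx) (maps_upper hf h1 h2 hFf), ?_, ?_⟩
    · exact cut_mem hf (fun x hx => mem_part_below (by omega) hx) (maps_lower h1 hf hFf)
    · intro m' hm1 hm2 hr'
      rw [rigid_cut hm1 hm2] at hr'
      exact hn m' (by omega) hm2 hr'
  · rintro f ⟨hf, hr, hn⟩ g ⟨hg, -, -⟩ hfg
    simp only [Prod.mk.injEq] at hfg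
    funext x
    by_cases hx : inT par lo hi True x
    · by_cases hx1 : inT par lo m True x
      · have := congrFun hfg.1 x
        rwa [cut_of hx1, cut_of hx1] at this
      · have hx2 : inT par (m + 1) hi False x := by
          cases x with
          | top => exact absurd trivial hx1
          | pt m' x =>
              have h3 : lo ≤ m' ∧ m' ≤ hi := hx
              rw [inT_pt] at hx1
              exact ⟨by omega, h3.2⟩
        have := congrFun hfg.2 x
        rwa [cut_of hx2, cut_of hx2] at this
    · rw [hf.2 x hx, hg.2 x hx]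

/-- deepest rigid block = the deepest block -/
theorem card_deep_last {lo hi : ℕ} (h1 : lo ≤ hi)
    (hF : ∀ f ∈ EndSet le lo (hi + 1) True, Rigid f (hi + 1) → Fences lo (hi + 1) f (hi + 1)) :
    (DeepR le lo (hi + 1) (hi + 1)).ncard ≤
      (EndSet le lo hi True).ncard * (RigEnd le (hi + 1)).ncard := by
  rw [← Set.ncard_prod]
  refine Set.ncard_le_ncard_of_injOn
    (fun f => (cut lo hi True f, cut (hi + 1) (hi + 1) False f)) ?_ ?_
    ((endSet_finite lo hi True).prod
      ((endSet_finite (hi + 1) (hi + 1) False).subset (fun _ h => h.1)))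
  · rintro f ⟨hf, hr, -⟩
    have hFf := hF f hf hr
    refine ⟨cut_mem hf (fun x hx => mem_part h1 (Nat.le_succ _) hx) ?_, ?_, ?_⟩
    · intro x hx
      have hx' := mem_part (hi := hi + 1) h1 (Nat.le_succ _) hx
      exact inT_of_above (hf.1.maps x hx') (hFf.above x hx' (above_of_inT hx))
    · refine cut_mem hf (fun x hx => mem_part_below (by omega) hx) ?_
      intro x hx
      cases x with
      | top => exact hx.elim
      | pt m' x =>
          have h : hi + 1 ≤ m' ∧ m' ≤ hi + 1 := hx
          have : m' = hi + 1 := le_antisymm h.2 h.1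
          subst this
          obtain ⟨x', hx'⟩ := hFf.self x
          rw [hx']
          exact ⟨le_rfl, le_rfl⟩
    · rw [rigid_cut le_rfl le_rfl]
      exact hr
  · rintro f ⟨hf, hr, hn⟩ g ⟨hg, -, -⟩ hfg
    simp only [Prod.mk.injEq] at hfg
    funext x
    by_cases hx : inT par lo (hi + 1) True x
    · by_cases hx1 : inT par lo hi True x
      · have := congrFun hfg.1 x
        rwa [cut_of hx1, cut_of hx1] at this
      · have hx2 : inT par (hi + 1) (hi + 1) False x := by
          cases x with
          | top => exact absurd trivial hx1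
          | pt m' x =>
              have h3 : lo ≤ m' ∧ m' ≤ hi + 1 := hx
              rw [inT_pt] at hx1
              exact ⟨by omega, h3.2⟩
        have := congrFun hfg.2 x
        rwa [cut_of hx2, cut_of hx2] at this
    · rw [hf.2 x hx, hg.2 x hx]

/-- the partition by the deepest rigid block -/
theorem endSet_subset (lo hi : ℕ) :
    EndSet le lo (hi + 1) True ⊆ FreeSet le lo (hi + 1) True ∪
      ⋃ m ∈ Finset.Icc lo (hi + 1), DeepR le lo (hi + 1) m := by
  intro f hf
  by_cases hfree : ∀ m, lo ≤ m → m ≤ hi + 1 → ¬ Rigid f m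
  · exact Or.inl ⟨hf, hfree⟩
  · right
    push Not at hfree
    obtain ⟨m0, h1, h2, h3⟩ := hfree
    have hne : ((Finset.Icc lo (hi + 1)).filter fun m => Rigid f m).Nonempty :=
      ⟨m0, by simp [h1, h2, h3]⟩
    obtain ⟨m, hm, hmax⟩ := Finset.exists_max_image _ (fun m => m) hne
    rw [Finset.mem_filter, Finset.mem_Icc] at hm
    simp only [Set.mem_iUnion]
    refine ⟨m, by rw [Finset.mem_Icc]; exact hm.1, hf, hm.2, ?_⟩
    intro m' hm1 hm2 hr
    have := hmax m' (by
      rw [Finset.mem_filter, Finset.mem_Icc]
      exact ⟨⟨by omega, hm2⟩, hr⟩)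
    omega

theorem ncard_biUnion_le' {α : Type*} (s : Finset ℕ) (F : ℕ → Set α) :
    (⋃ m ∈ s, F m).ncard ≤ ∑ m ∈ s, (F m).ncard := by
  induction s using Finset.induction_on with
  | empty => simp
  | insert a s ha ih =>
      rw [Finset.sum_insert ha]
      have : (⋃ m ∈ insert a s, F m) = F a ∪ ⋃ m ∈ s, F m := by
        simp
      rw [this]
      exact (Set.ncard_union_le _ _).trans (Nat.add_le_add_left ih _)

/-- **the recursion** -/
theorem recursion {lo hi : ℕ} (h1 : lo ≤ hi)
    (hF : ∀ f ∈ EndSet le lo (hi + 1) True, ∀ m, lo ≤ m → m ≤ hi + 1 → Rigid f m →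
      Fences lo (hi + 1) f m)
    (hR : (RigEnd le (hi + 1)).ncard ≤ aR (par (hi + 1))) :
    (EndSet le lo (hi + 1) True).ncard ≤
      aR (par (hi + 1)) * (EndSet le lo hi True).ncard +
        ∑ m ∈ Finset.Icc lo hi,
          (EndSet le lo m True).ncard * (FreeSet le (m + 1) (hi + 1) False).ncard +
      (FreeSet le lo (hi + 1) True).ncard := by
  have hsub := endSet_subset (le := le) lo hi
  have hfin : (FreeSet le lo (hi + 1) True ∪
      ⋃ m ∈ Finset.Icc lo (hi + 1), DeepR le lo (hi + 1) m).Finite :=
    (endSet_finite (le := le) lo (hi + 1) True).subset (by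
      intro f hf
      rcases hf with hf | hf
      · exact hf.1
      · simp only [Set.mem_iUnion] at hf
        obtain ⟨m, -, hf⟩ := hf
        exact hf.1)
  have h2 : Finset.Icc lo (hi + 1) = insert (hi + 1) (Finset.Icc lo hi) := by
    ext m
    simp only [Finset.mem_Icc, Finset.mem_insert]
    omega
  have h3 : hi + 1 ∉ Finset.Icc lo hi := by
    simp
  calc (EndSet le lo (hi + 1) True).ncard
      ≤ _ := Set.ncard_le_ncard hsub hfin
    _ ≤ (FreeSet le lo (hi + 1) True).ncard +
        (⋃ m ∈ Finset.Icc lo (hi + 1), DeepR le lo (hi + 1) m).ncard :=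
        Set.ncard_union_le _ _
    _ ≤ (FreeSet le lo (hi + 1) True).ncard +
        ∑ m ∈ Finset.Icc lo (hi + 1), (DeepR le lo (hi + 1) m).ncard :=
        Nat.add_le_add_left (ncard_biUnion_le' _ _) _
    _ = (FreeSet le lo (hi + 1) True).ncard +
        ((DeepR le lo (hi + 1) (hi + 1)).ncard +
          ∑ m ∈ Finset.Icc lo hi, (DeepR le lo (hi + 1) m).ncard) := by
        rw [h2, Finset.sum_insert h3]
    _ ≤ (FreeSet le lo (hi + 1) True).ncard +
        (aR (par (hi + 1)) * (EndSet le lo hi True).ncard +
          ∑ m ∈ Finset.Icc lo hi,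
            (EndSet le lo m True).ncard * (FreeSet le (m + 1) (hi + 1) False).ncard) := by
        refine Nat.add_le_add_left (Nat.add_le_add ?_ ?_) _
        · refine (card_deep_last h1 (fun f hf => hF f hf (hi + 1) (by omega) le_rfl)).trans ?_
          rw [mul_comm]
          exact Nat.mul_le_mul_right _ hR
        · refine Finset.sum_le_sum fun m hm => ?_
          rw [Finset.mem_Icc] at hm
          exact card_deep hm.1 (by omega) (fun f hf => hF f hf m hm.1 (by omega))
    _ = _ := by ring

end Pool.Agent.AM.Split
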