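import Pool.Agent.AM.Defs2
import Pool.Agent.AM.OrdBlk
import Pool.Agent.AM.PrBasic
import Pool.Agent.AM.CardP
import Pool.Agent.AM.GoodP
import Pool.Agent.AM.RelXP
import Pool.Agent.AM.RootN

set_option autoImplicit false

open scoped Classical
open Finset

noncomputable section

namespace Pool.Agent.AM

private theorem TowE_E_ge (c : PC) (q : Con) (hc : c.Ok q) : 100 ≤ c.E := by
  rw [hc.E, hc.lam]
  have h1 : 1 ≤ 1000 ^ (c.W - 1) := Nat.one_le_pow _ _ (by norm_num)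
  generalize 1000 ^ (c.W - 1) = A at h1
  have h2 : 1 ≤ A * (c.h + 2) := by nlinarith
  omega

private theorem TowE_nonempty (c : PC) (t : ℕ) (ht : 0 < t) : Nonempty (Om (c.par t)) := by
  have hn : 0 < (c.par t).n := by
    show 0 < t ^ (c.E - 1)
    exact pow_pos ht _
  exact ⟨fun _ _ => ⟨0, hn⟩⟩

private theorem TowE_count (c : PC) (m0 M t : ℕ) (ht : 2 ≤ t) (hE : 2 ≤ c.E) :
    (((univ : Finset (Fin (M + 1))).filter fun j => c.tf m0 j.val ≤ t ^ 2).card : ℝ)
      ≤ (t : ℝ) ^ (6 * c.E) := by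
  have h1 : ((univ : Finset (Fin (M + 1))).filter fun j => c.tf m0 j.val ≤ t ^ 2).card
      ≤ (t ^ 2 + 1) ^ (c.E + 2) := by
    have h2 : ((univ : Finset (Fin (M + 1))).filter fun j => c.tf m0 j.val ≤ t ^ 2).card
        ≤ (range ((t ^ 2 + 1) ^ (c.E + 2))).card := by
      apply Finset.card_le_card_of_injOn (fun j => j.val)
      · intro j hj
        rw [Finset.mem_coe, Finset.mem_filter] at hj
        rw [Finset.mem_coe, Finset.mem_range]
        have h3 := lt_rt_pow c (j.val + m0)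
        have h4 : (c.rt (j.val + m0) + 1) ^ (c.E + 2) ≤ (t ^ 2 + 1) ^ (c.E + 2) :=
          Nat.pow_le_pow_left (Nat.succ_le_succ hj.2) _
        exact lt_of_le_of_lt (Nat.le_add_right _ _) (lt_of_lt_of_le h3 h4)
      · intro a _ b _ hab
        exact Fin.ext hab
    rwa [Finset.card_range] at h2
  have h5 : t ^ 2 + 1 ≤ t ^ 3 := by nlinarith [Nat.pow_le_pow_left ht 2]
  have h6 : (t ^ 2 + 1) ^ (c.E + 2) ≤ t ^ (6 * c.E) := by
    calc (t ^ 2 + 1) ^ (c.E + 2) ≤ (t ^ 3) ^ (c.E + 2) := Nat.pow_le_pow_left h5 _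
      _ = t ^ (3 * (c.E + 2)) := (pow_mul _ _ _).symm
      _ ≤ t ^ (6 * c.E) := Nat.pow_le_pow_right (by omega) (by omega)
  exact_mod_cast h1.trans h6

private theorem TowE_abs {ι : Type} [Fintype ι] {A : ι → Type} [∀ i, Fintype (A i)]
    [∀ i, Nonempty (A i)] (G : ∀ i, A i → Prop) (X : ∀ i j, A i → A j → Prop)
    (J : ι → Finset ι) (a b : ι → ℝ) (hb0 : ∀ i, 0 ≤ b i)
    (ha : ∀ i, Pr (fun w : A i => ¬ G i w) ≤ a i)
    (hb : ∀ i, ∀ j ∈ J i, j ≠ i → ∀ w' : A j, Pr (fun w : A i => ¬ X i j w w') ≤ b i)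
    (hsum : ∑ i, (a i + (J i).card * b i) < 1) :
    ∃ ω : ∀ i, A i, ∀ i, G i (ω i) ∧ ∀ j ∈ J i, j ≠ i → X i j (ω i) (ω j) := by
  have key : Pr (fun ω : (∀ i : ι, A i) => ∃ i ∈ (univ : Finset ι),
      ¬ G i (ω i) ∨ ∃ j ∈ J i, j ≠ i ∧ ¬ X i j (ω i) (ω j)) < 1 := by
    refine lt_of_le_of_lt (Pr_exists_finset _ _) ?_
    refine lt_of_le_of_lt (Finset.sum_le_sum (fun i _ => ?_)) hsum
    refine (Pr_or _ _).trans (add_le_add ?_ ?_)
    · apply Pr_pi_coord i
      intro ω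
      simpa only [Function.update_self] using ha i
    · refine (Pr_exists_finset _ _).trans ?_
      have h2 : ∀ j ∈ J i, Pr (fun ω : (∀ i : ι, A i) =>
          j ≠ i ∧ ¬ X i j (ω i) (ω j)) ≤ b i := by
        intro j hj
        apply Pr_pi_coord i
        intro ω
        by_cases hji : j = i
        · refine le_trans (Pr_mono (T := fun _ => False) (fun a h => h.1 hji)) ?_
          refine le_trans (le_of_eq ?_) (hb0 i)
          unfold Pr
          simp
        · refine le_trans (Pr_mono ?_) (hb i j hj hji (ω j))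
          intro a ha
          have ha2 := ha.2
          rw [Function.update_self, Function.update_of_ne hji] at ha2
          exact ha2
      refine (Finset.sum_le_sum h2).trans ?_
      rw [Finset.sum_const, nsmul_eq_mul]
  obtain ⟨ω0, hω0⟩ := exists_of_Pr_lt_one key
  refine ⟨ω0, fun i => ⟨?_, ?_⟩⟩
  · by_contra h
    exact hω0 ⟨i, Finset.mem_univ _, Or.inl h⟩
  · intro j hj hji
    by_contra h
    exact hω0 ⟨i, Finset.mem_univ _, Or.inr ⟨j, hj, hji, h⟩⟩

/-- good towers exist -/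
theorem exists_good (c : PC) (q : Con) (hc : c.Ok q) : ∀ᶠ m0 in Filter.atTop, ∀ M : ℕ,
    ∃ ω : ∀ m, Om (c.bl m0 m),
      GoodTow q (c.bl m0) (c.tf m0) (fun m => Le (ω m)) 0 M := by
  have hE := TowE_E_ge c q hc
  obtain ⟨T1, hT1⟩ := Filter.eventually_atTop.1 (pr_good c q hc)
  obtain ⟨T2, hT2⟩ := Filter.eventually_atTop.1 (pr_relX c q hc)
  obtain ⟨T3, hT3⟩ := Filter.eventually_atTop.1 (card_pt c q hc)
  filter_upwards [tf_tendsto c (T1 + T2 + T3 + 2), sum_tf c q hc (1 / 4) (by norm_num)]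
    with m0 hm0 hs M
  have htf : ∀ m, 2 ≤ c.tf m0 m := fun m => by have := hm0 m; omega
  have hne : ∀ m, Nonempty (Om (c.bl m0 m)) := fun m =>
    TowE_nonempty c (c.tf m0 m) (by have := htf m; omega)
  have hneF : ∀ i : Fin (M + 1), Nonempty (Om (c.bl m0 i.val)) := fun i => hne i.val
  obtain ⟨ω0, hω0⟩ := TowE_abs (ι := Fin (M + 1)) (A := fun i => Om (c.bl m0 i.val))
    (G := fun i w => GoodBlk q (c.bl m0 i.val) (Le w) ∧ RelS q (c.bl m0 i.val) (Le w))
    (X := fun i j w w' => RelX q (c.bl m0 i.val) (c.bl m0 j.val) (Le w) (Le w'))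
    (J := fun i => univ.filter fun j => c.tf m0 j.val ≤ (c.tf m0 i.val) ^ 2)
    (a := fun i => 1 / (c.tf m0 i.val : ℝ) ^ (4 * c.E))
    (b := fun i => 1 / (c.tf m0 i.val : ℝ) ^ (10 * c.E))
    (fun i => by positivity)
    (fun i => hT1 (c.tf m0 i.val) (by have := hm0 i.val; omega))
    (fun i j hj _ w' => by
      rw [Finset.mem_filter] at hj
      have hcard : Fintype.card (Pt (c.bl m0 j.val)) ≤ (c.tf m0 i.val) ^ (3 * c.E) := by
        calc Fintype.card (Pt (c.bl m0 j.val)) ≤ (c.tf m0 j.val) ^ (c.E + 1) :=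
              (hT3 (c.tf m0 j.val) (by have := hm0 j.val; omega)).1
          _ ≤ ((c.tf m0 i.val) ^ 2) ^ (c.E + 1) := Nat.pow_le_pow_left hj.2 _
          _ = (c.tf m0 i.val) ^ (2 * (c.E + 1)) := (pow_mul _ _ _).symm
          _ ≤ (c.tf m0 i.val) ^ (3 * c.E) :=
            Nat.pow_le_pow_right (by have := htf i.val; omega) (by omega)
      exact hT2 (c.tf m0 i.val) (by have := hm0 i.val; omega) (c.bl m0 j.val) (Le w') hcard)
    (by
      have h1 : ∀ i ∈ (univ : Finset (Fin (M + 1))),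
          (1 / (c.tf m0 i.val : ℝ) ^ (4 * c.E) +
            (((univ : Finset (Fin (M + 1))).filter
              fun j => c.tf m0 j.val ≤ (c.tf m0 i.val) ^ 2).card : ℝ) *
              (1 / (c.tf m0 i.val : ℝ) ^ (10 * c.E)))
            ≤ 2 * (1 / (c.tf m0 i.val : ℝ) ^ (4 * c.E)) := by
        intro i _
        have htR : (0 : ℝ) < (c.tf m0 i.val : ℝ) := by
          have : 0 < c.tf m0 i.val := by have := htf i.val; omega
          exact_mod_cast this
        have hcnt := TowE_count c m0 M (c.tf m0 i.val) (htf i.val) (by omega)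
        have hsplit : (c.tf m0 i.val : ℝ) ^ (10 * c.E)
            = (c.tf m0 i.val : ℝ) ^ (6 * c.E) * (c.tf m0 i.val : ℝ) ^ (4 * c.E) := by
          rw [← pow_add]; congr 1; ring
        have hp6 : (0 : ℝ) < (c.tf m0 i.val : ℝ) ^ (6 * c.E) := by positivity
        have hp4 : (0 : ℝ) < (c.tf m0 i.val : ℝ) ^ (4 * c.E) := by positivity
        have h3 : (((univ : Finset (Fin (M + 1))).filter
              fun j => c.tf m0 j.val ≤ (c.tf m0 i.val) ^ 2).card : ℝ) *
              (1 / (c.tf m0 i.val : ℝ) ^ (10 * c.E)) ≤ 1 / (c.tf m0 i.val : ℝ) ^ (4 * c.E) := by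
          calc _ ≤ (c.tf m0 i.val : ℝ) ^ (6 * c.E) * (1 / (c.tf m0 i.val : ℝ) ^ (10 * c.E)) :=
                mul_le_mul_of_nonneg_right hcnt (by positivity)
            _ = 1 / (c.tf m0 i.val : ℝ) ^ (4 * c.E) := by
                rw [hsplit]; field_simp
        linarith
      refine lt_of_le_of_lt (Finset.sum_le_sum h1) ?_
      rw [← Finset.mul_sum, Fin.sum_univ_eq_sum_range
        (fun m => 1 / (c.tf m0 m : ℝ) ^ (4 * c.E)) (M + 1)]
      have := hs M
      linarith)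
  refine ⟨fun m => if h : m < M + 1 then ω0 ⟨m, h⟩ else (hne m).some, ?_⟩
  have hω : ∀ m (h : m < M + 1),
      (fun m => if h : m < M + 1 then ω0 ⟨m, h⟩ else (hne m).some : ∀ m, Om (c.bl m0 m)) m
        = ω0 ⟨m, h⟩ := fun m h => dif_pos h
  generalize (fun m => if h : m < M + 1 then ω0 ⟨m, h⟩ else (hne m).some :
    ∀ m, Om (c.bl m0 m)) = ω at hω
  refine ⟨?_, ?_, ?_⟩
  · intro m _ hm
    show GoodBlk q (c.bl m0 m) (Le (ω m))
    rw [hω m (by omega)]
    exact (hω0 ⟨m, by omega⟩).1.1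
  · intro m _ hm
    show RelS q (c.bl m0 m) (Le (ω m))
    rw [hω m (by omega)]
    exact (hω0 ⟨m, by omega⟩).1.2
  · intro m m' _ hm _ hm' hne' ht
    show RelX q (c.bl m0 m) (c.bl m0 m') (Le (ω m)) (Le (ω m'))
    rw [hω m (by omega), hω m' (by omega)]
    exact (hω0 ⟨m, by omega⟩).2 ⟨m', by omega⟩ (Finset.mem_filter.2 ⟨Finset.mem_univ _, ht⟩)
      (fun h => hne' (congrArg Fin.val h).symm)

end Pool.Agent.AM
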